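import Pool.Agent.H442R2.KF.Inc

/-!
KF project, task D (helper872): sums with a periodic factor and a Lipschitz weight.
-/

set_option autoImplicit false

namespace Pool.Agent.H442R2.KF

open Finset

namespace TaskD

theorem sum_Icc (A : ℤ) (n : ℕ) (f : ℤ → ℂ) :
    ∑ m ∈ Icc A (A + n), f m = ∑ i ∈ range (n + 1), f (A + i) := by
  symm
  refine Finset.sum_nbij' (fun i : ℕ => A + i) (fun m : ℤ => (m - A).toNat) ?_ ?_ ?_ ?_ ?_
  · intro i hi
    rw [mem_range] at hi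
    rw [mem_Icc]
    omega
  · intro m hm
    rw [mem_Icc] at hm
    rw [mem_range]
    omega
  · intro i _
    simp
  · intro m hm
    rw [mem_Icc] at hm
    omega
  · intro i _
    rfl

theorem parts (w a : ℕ → ℂ) (n : ℕ) :
    ∑ i ∈ range (n + 1), w i * a i = w n * ∑ i ∈ range (n + 1), a i -
      ∑ i ∈ range n, (w (i + 1) - w i) * ∑ j ∈ range (i + 1), a j := by
  induction n with
  | zero => simp
  | succ n ih =>
    rw [sum_range_succ, ih, sum_range_succ (fun i => a i) (n + 1),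
      sum_range_succ (fun i => (w (i + 1) - w i) * ∑ j ∈ range (i + 1), a j) n]
    ring

theorem abel_nat (w a : ℕ → ℂ) (n : ℕ) (W l : ℝ) (hw : ∀ i, i ≤ n → ‖w i‖ ≤ 1)
    (hl : ∀ i, i < n → ‖w (i + 1) - w i‖ ≤ l)
    (hW : ∀ i, i ≤ n → ‖∑ j ∈ range (i + 1), a j‖ ≤ W) :
    ‖∑ i ∈ range (n + 1), w i * a i‖ ≤ (1 + l * n) * W := by
  have hW0 : 0 ≤ W := (norm_nonneg _).trans (hW n le_rfl)
  rw [parts]
  refine (norm_sub_le _ _).trans ?_
  have h1 : ‖w n * ∑ i ∈ range (n + 1), a i‖ ≤ 1 * W := by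
    rw [norm_mul]
    exact mul_le_mul (hw n le_rfl) (hW n le_rfl) (norm_nonneg _) zero_le_one
  have h2 : ‖∑ i ∈ range n, (w (i + 1) - w i) * ∑ j ∈ range (i + 1), a j‖ ≤ n * (l * W) := by
    refine (norm_sum_le _ _).trans ?_
    have : ∀ i ∈ range n, ‖(w (i + 1) - w i) * ∑ j ∈ range (i + 1), a j‖ ≤ l * W := by
      intro i hi
      rw [mem_range] at hi
      rw [norm_mul]
      exact mul_le_mul (hl i hi) (hW i hi.le) (norm_nonneg _) ((norm_nonneg _).trans (hl i hi))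
    refine (Finset.sum_le_sum this).trans ?_
    rw [sum_const, card_range, nsmul_eq_mul]
  calc _ ≤ 1 * W + n * (l * W) := add_le_add h1 h2
    _ = _ := by ring

theorem abel (A B : ℤ) (hAB : A ≤ B) (Ω : ℝ → ℂ) (Λ : ℝ)
    (hΩ : ∀ s ∈ Set.Icc (A : ℝ) B, ‖Ω s‖ ≤ 1)
    (hL : ∀ s ∈ Set.Icc (A : ℝ) B, ∀ s' ∈ Set.Icc (A : ℝ) B, ‖Ω s - Ω s'‖ ≤ Λ * |s - s'|)
    (g : ℤ → ℂ) (W : ℝ) (hW : ∀ y : ℤ, A ≤ y → y ≤ B → ‖∑ m ∈ Icc A y, g m‖ ≤ W) :
    ‖∑ m ∈ Icc A B, Ω m * g m‖ ≤ (1 + Λ * (B - A)) * W := by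
  obtain ⟨n, rfl⟩ : ∃ n : ℕ, B = A + n := ⟨(B - A).toNat, by omega⟩
  have hmem : ∀ i : ℕ, i ≤ n → ((A + i : ℤ) : ℝ) ∈ Set.Icc (A : ℝ) ((A + n : ℤ) : ℝ) := by
    intro i hi
    constructor
    · exact_mod_cast (by omega : A ≤ A + (i : ℤ))
    · exact_mod_cast (by omega : A + (i : ℤ) ≤ A + (n : ℤ))
  have h := abel_nat (fun i => Ω ((A + i : ℤ) : ℝ)) (fun i => g (A + i)) n W Λ
    (fun i hi => hΩ _ (hmem i hi)) (fun i hi => ?_) (fun i hi => ?_)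
  · rw [sum_Icc A n (fun m => Ω m * g m)]
    refine h.trans (le_of_eq ?_)
    push_cast
    ring
  · have := hL _ (hmem (i + 1) hi) _ (hmem i hi.le)
    refine this.trans (le_of_eq ?_)
    have e : ((A + (i + 1 : ℕ) : ℤ) : ℝ) - ((A + i : ℤ) : ℝ) = 1 := by
      push_cast
      ring
    rw [e, abs_one, mul_one]
  · have := hW (A + i) (by omega) (by omega)
    rwa [sum_Icc A i g] at this

theorem per_mod (R : ℕ) (Φ : ℤ → ℂ) (hΦp : ∀ m, Φ (m + R) = Φ m) (m : ℤ) :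
    Φ (m % R) = Φ m := by
  have hper : Function.Periodic Φ (R : ℤ) := hΦp
  have h := (hper.int_mul (m / R)) (m % R)
  have e : m % (R : ℤ) + (m / (R : ℤ)) * (R : ℤ) = m := by
    rw [mul_comm]
    exact Int.emod_add_mul_ediv m R
  rw [Int.cast_id, e] at h
  exact h.symm

theorem phi_sum (R : ℕ) (hR : 0 < R) (Φ : ℤ → ℂ) (hΦp : ∀ m, Φ (m + R) = Φ m) (m : ℤ) :
    ∑ r ∈ (Ico (0 : ℤ) R).filter (fun r => Φ r ≠ 0), (if m ≡ r [ZMOD R] then Φ r else 0) =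
      Φ m := by
  have hR' : (0 : ℤ) < R := by exact_mod_cast hR
  rw [Finset.sum_filter]
  rw [Finset.sum_eq_single (m % R)]
  · rw [if_pos (Int.mod_modEq m R).symm, per_mod R Φ hΦp]
    by_cases h : Φ m = 0
    · simp [h]
    · rw [if_pos h]
  · intro r hr hne
    rw [mem_Ico] at hr
    have : ¬ m ≡ r [ZMOD R] := by
      intro h
      apply hne
      have h1 : m % R = r % R := h
      rw [h1, Int.emod_eq_of_lt hr.1 hr.2]
    rw [if_neg this, ite_self]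
  · intro h
    exfalso
    apply h
    rw [mem_Ico]
    exact ⟨Int.emod_nonneg _ hR'.ne', Int.emod_lt_of_pos _ hR'⟩

end TaskD

open TaskD

/-- D (Cls.lean): sums with a periodic factor and a Lipschitz weight -/
theorem class_sum (q R : ℕ) (hq : Squarefree q) (hq0 : 0 < q) (hR : 0 < R)
    (hqR : Nat.Coprime q R) (c : ℤ) (hc : Int.gcd c q = 1) (A B : ℤ) (hAB : A ≤ B)
    (Φ : ℤ → ℂ) (hΦp : ∀ m, Φ (m + R) = Φ m) (hΦ : ∀ m, ‖Φ m‖ ≤ 1) (K : ℕ)
    (hK : ((Ico (0 : ℤ) R).filter (fun r => Φ r ≠ 0)).card ≤ K) (Ω : ℝ → ℂ) (Λ : ℝ) (hΛ : 0 ≤ Λ)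
    (hΩ : ∀ s ∈ Set.Icc (A : ℝ) B, ‖Ω s‖ ≤ 1)
    (hL : ∀ s ∈ Set.Icc (A : ℝ) B, ∀ s' ∈ Set.Icc (A : ℝ) B, ‖Ω s - Ω s'‖ ≤ Λ * |s - s'|) :
    ‖∑ m ∈ (Icc A B).filter (fun m : ℤ => Int.gcd m q = 1), Ω m * Φ m * kf c m q‖ ≤
      K * ((1 + Λ * (B - A)) *
        (2 ^ q.primeFactors.card * Real.sqrt q * ((B - A) / (R * q) + 2 + Real.log q))) := by
  obtain ⟨W, hWdef⟩ : ∃ W : ℝ, W = 2 ^ q.primeFactors.card * Real.sqrt q *
    ((B - A) / (R * q) + 2 + Real.log q) := ⟨_, rfl⟩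
  rw [← hWdef]
  have hBA : (0 : ℝ) ≤ (B : ℝ) - A := by
    have : (A : ℝ) ≤ B := by exact_mod_cast hAB
    linarith
  have hR0 : (0 : ℝ) < R := by exact_mod_cast hR
  have hq0' : (0 : ℝ) < q := by exact_mod_cast hq0
  have hlog : 0 ≤ Real.log q := Real.log_natCast_nonneg q
  have hW0 : 0 ≤ W := by
    rw [hWdef]
    positivity
  -- the class sums
  have hcls : ∀ r : ℤ, ‖∑ m ∈ Icc A B, Ω m *
      (if m ≡ r [ZMOD R] ∧ Int.gcd m q = 1 then kf c m q else 0)‖ ≤ (1 + Λ * (B - A)) * W := by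
    intro r
    refine abel A B hAB Ω Λ hΩ hL _ W fun y hAy hyB => ?_
    rw [← Finset.sum_filter]
    refine (incomplete q R hq hq0 hR hqR c hc r A y hAy).trans ?_
    rw [hWdef]
    have hy : ((y : ℝ) - A) ≤ (B : ℝ) - A := by
      have : (y : ℝ) ≤ B := by exact_mod_cast hyB
      linarith
    gcongr
  -- splitting
  have hsplit : ∑ m ∈ (Icc A B).filter (fun m : ℤ => Int.gcd m q = 1), Ω m * Φ m * kf c m q =
      ∑ r ∈ (Ico (0 : ℤ) R).filter (fun r => Φ r ≠ 0), Φ r * ∑ m ∈ Icc A B, Ω m *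
        (if m ≡ r [ZMOD R] ∧ Int.gcd m q = 1 then kf c m q else 0) := by
    rw [Finset.sum_filter]
    simp_rw [Finset.mul_sum]
    rw [Finset.sum_comm]
    refine Finset.sum_congr rfl fun m _ => ?_
    by_cases hg : Int.gcd m q = 1
    · rw [if_pos hg]
      conv_lhs => rw [← phi_sum R hR Φ hΦp m]
      rw [Finset.mul_sum, Finset.sum_mul]
      refine Finset.sum_congr rfl fun r _ => ?_
      by_cases hr : m ≡ r [ZMOD R]
      · rw [if_pos hr, if_pos ⟨hr, hg⟩]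
        ring
      · rw [if_neg hr, if_neg (fun h => hr h.1)]
        ring
    · rw [if_neg hg]
      symm
      refine Finset.sum_eq_zero fun r _ => ?_
      rw [if_neg (fun h => hg h.2)]
      ring
  rw [hsplit]
  refine (norm_sum_le _ _).trans ?_
  have hterm : ∀ r ∈ (Ico (0 : ℤ) R).filter (fun r => Φ r ≠ 0), ‖Φ r * ∑ m ∈ Icc A B, Ω m *
      (if m ≡ r [ZMOD R] ∧ Int.gcd m q = 1 then kf c m q else 0)‖ ≤ (1 + Λ * (B - A)) * W := by
    intro r _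
    rw [norm_mul]
    calc _ ≤ 1 * ((1 + Λ * (B - A)) * W) :=
          mul_le_mul (hΦ r) (hcls r) (norm_nonneg _) zero_le_one
      _ = _ := one_mul _
  refine (Finset.sum_le_sum hterm).trans ?_
  rw [sum_const, nsmul_eq_mul]
  refine mul_le_mul_of_nonneg_right (by exact_mod_cast hK) ?_
  positivity

end Pool.Agent.H442R2.KF
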