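import Pool.Agent.H442R2.KF.Defs
import Pool.Agent.H498R2.SM_T8

/-!
# Task B: Weil's bound for Kloosterman sums modulo a squarefree number
-/

namespace Pool.Agent.H442R2.KF

open Finset

namespace TaskB

theorem stdAddChar_crt (h1 h2 : ℕ) [NeZero h1] [NeZero h2] [NeZero (h1 * h2)] (α β : ℤ)
    (hαβ : α * h2 + β * h1 = 1) (j : ℤ) :
    (ZMod.stdAddChar ((j : ℤ) : ZMod (h1 * h2)) : ℂ) =
      ZMod.stdAddChar ((α : ZMod h1) * (j : ZMod h1)) *
        ZMod.stdAddChar ((β : ZMod h2) * (j : ZMod h2)) := by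
  have e1 : ((α : ZMod h1) * (j : ZMod h1)) = ((α * j : ℤ) : ZMod h1) := by push_cast; ring
  have e2 : ((β : ZMod h2) * (j : ZMod h2)) = ((β * j : ℤ) : ZMod h2) := by push_cast; ring
  rw [e1, e2, ZMod.stdAddChar_coe, ZMod.stdAddChar_coe, ZMod.stdAddChar_coe, ← Complex.exp_add]
  congr 1
  have n1 : (h1 : ℂ) ≠ 0 := by exact_mod_cast NeZero.ne h1
  have n2 : (h2 : ℂ) ≠ 0 := by exact_mod_cast NeZero.ne h2
  have h3 : (α : ℂ) * h2 + β * h1 = 1 := by exact_mod_cast hαβ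
  push_cast
  field_simp
  linear_combination (-(j : ℂ)) * h3

/-- the Kloosterman sum -/
noncomputable def Kl (q : ℕ) [NeZero q] (w c : ZMod q) : ℂ :=
  ∑ u : (ZMod q)ˣ, ZMod.stdAddChar (w * (u : ZMod q) + c * ((u⁻¹ : (ZMod q)ˣ) : ZMod q))

theorem char_crt (q1 q2 : ℕ) [NeZero q1] [NeZero q2] [NeZero (q1 * q2)] (h : Nat.Coprime q1 q2)
    (α β : ℤ) (hαβ : α * q2 + β * q1 = 1) (z : ZMod (q1 * q2)) :
    (ZMod.stdAddChar z : ℂ) =
      ZMod.stdAddChar ((α : ZMod q1) * (ZMod.chineseRemainder h z).1) *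
        ZMod.stdAddChar ((β : ZMod q2) * (ZMod.chineseRemainder h z).2) := by
  obtain ⟨j, rfl⟩ := ZMod.intCast_surjective z
  have e : ZMod.chineseRemainder h ((j : ℤ) : ZMod (q1 * q2)) = ((j : ZMod q1), (j : ZMod q2)) := by
    rw [map_intCast]
    rfl
  rw [e]
  exact stdAddChar_crt q1 q2 α β hαβ j

/-- multiplicativity -/
theorem Kl_mul (q1 q2 : ℕ) [NeZero q1] [NeZero q2] [NeZero (q1 * q2)] (h : Nat.Coprime q1 q2)
    (α β : ℤ) (hαβ : α * q2 + β * q1 = 1) (w c : ZMod (q1 * q2)) :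
    Kl (q1 * q2) w c =
      Kl q1 ((α : ZMod q1) * (ZMod.chineseRemainder h w).1)
        ((α : ZMod q1) * (ZMod.chineseRemainder h c).1) *
      Kl q2 ((β : ZMod q2) * (ZMod.chineseRemainder h w).2)
        ((β : ZMod q2) * (ZMod.chineseRemainder h c).2) := by
  let e : (ZMod (q1 * q2))ˣ ≃* (ZMod q1)ˣ × (ZMod q2)ˣ :=
    (Units.mapEquiv (ZMod.chineseRemainder h).toMulEquiv).trans MulEquiv.prodUnits
  have he1 : ∀ u : (ZMod (q1 * q2))ˣ,
      (((e u).1 : (ZMod q1)ˣ) : ZMod q1) = (ZMod.chineseRemainder h (u : ZMod (q1 * q2))).1 :=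
    fun u => rfl
  have he2 : ∀ u : (ZMod (q1 * q2))ˣ,
      (((e u).2 : (ZMod q2)ˣ) : ZMod q2) = (ZMod.chineseRemainder h (u : ZMod (q1 * q2))).2 :=
    fun u => rfl
  have hi1 : ∀ u : (ZMod (q1 * q2))ˣ, ((((e u).1)⁻¹ : (ZMod q1)ˣ) : ZMod q1) =
      (ZMod.chineseRemainder h ((u⁻¹ : (ZMod (q1 * q2))ˣ) : ZMod (q1 * q2))).1 := by
    intro u
    rw [← he1 u⁻¹, map_inv]
    rfl
  have hi2 : ∀ u : (ZMod (q1 * q2))ˣ, ((((e u).2)⁻¹ : (ZMod q2)ˣ) : ZMod q2) =
      (ZMod.chineseRemainder h ((u⁻¹ : (ZMod (q1 * q2))ˣ) : ZMod (q1 * q2))).2 := by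
    intro u
    rw [← he2 u⁻¹, map_inv]
    rfl
  unfold Kl
  rw [Finset.sum_mul_sum, ← Fintype.sum_prod_type', ← Equiv.sum_comp e.toEquiv]
  refine Finset.sum_congr rfl fun u _ => ?_
  change _ = (ZMod.stdAddChar _ : ℂ) * ZMod.stdAddChar _
  rw [char_crt q1 q2 h α β hαβ]
  have e1 : (α : ZMod q1) * (ZMod.chineseRemainder h (w * (u : ZMod (q1 * q2)) +
      c * ((u⁻¹ : (ZMod (q1 * q2))ˣ) : ZMod (q1 * q2)))).1 =
      (α : ZMod q1) * (ZMod.chineseRemainder h w).1 * (((e u).1 : (ZMod q1)ˣ) : ZMod q1) +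
      (α : ZMod q1) * (ZMod.chineseRemainder h c).1 *
        ((((e u).1)⁻¹ : (ZMod q1)ˣ) : ZMod q1) := by
    rw [he1, hi1, map_add, map_mul, map_mul]
    simp only [Prod.fst_add, Prod.fst_mul]
    ring
  have e2 : (β : ZMod q2) * (ZMod.chineseRemainder h (w * (u : ZMod (q1 * q2)) +
      c * ((u⁻¹ : (ZMod (q1 * q2))ˣ) : ZMod (q1 * q2)))).2 =
      (β : ZMod q2) * (ZMod.chineseRemainder h w).2 * (((e u).2 : (ZMod q2)ˣ) : ZMod q2) +
      (β : ZMod q2) * (ZMod.chineseRemainder h c).2 *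
        ((((e u).2)⁻¹ : (ZMod q2)ˣ) : ZMod q2) := by
    rw [he2, hi2, map_add, map_mul, map_mul]
    simp only [Prod.snd_add, Prod.snd_mul]
    ring
  rw [e1, e2]
  rfl

theorem sum_units {p : ℕ} [Fact p.Prime] (f : ZMod p → ℂ) (h0 : f 0 = 0) :
    ∑ x : ZMod p, f x = ∑ u : (ZMod p)ˣ, f (u : ZMod p) := by
  classical
  have h1 : ∑ u : (ZMod p)ˣ, f (u : ZMod p) =
      ∑ x ∈ Finset.image (fun u : (ZMod p)ˣ => (u : ZMod p)) univ, f x := by
    rw [Finset.sum_image]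
    intro a _ b _ hab
    exact Units.ext hab
  rw [h1]
  symm
  apply Finset.sum_subset (Finset.subset_univ _)
  intro x _ hx
  by_cases hx0 : x = 0
  · rw [hx0, h0]
  · exfalso
    apply hx
    rw [Finset.mem_image]
    exact ⟨Units.mk0 x hx0, Finset.mem_univ _, rfl⟩

/-- the case `w = 0` of a prime modulus -/
theorem Kl_zero (p : ℕ) [Fact p.Prime] (c : ZMod p) (hc : c ≠ 0) : Kl p 0 c = -1 := by
  unfold Kl
  have h1 : ∑ u : (ZMod p)ˣ, (ZMod.stdAddChar (0 * (u : ZMod p) +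
      c * ((u⁻¹ : (ZMod p)ˣ) : ZMod p)) : ℂ) =
      ∑ u : (ZMod p)ˣ, (ZMod.stdAddChar ((u : ZMod p) * c) : ℂ) := by
    rw [← Equiv.sum_comp (Equiv.inv (ZMod p)ˣ)]
    refine Finset.sum_congr rfl fun u _ => ?_
    simp only [zero_mul, zero_add, Equiv.inv_apply, inv_inv]
    rw [mul_comm]
  rw [h1]
  have h2 : ∑ x : ZMod p, (ZMod.stdAddChar (x * c) : ℂ) = 0 := by
    have := AddChar.sum_mulShift (ψ := (ZMod.stdAddChar : AddChar (ZMod p) ℂ)) c
      (ZMod.isPrimitive_stdAddChar p)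
    rw [this, if_neg hc]
    simp
  have h3 := sum_units (p := p) (fun x => (ZMod.stdAddChar (x * c) : ℂ) - if x = 0 then 1 else 0)
    (by simp)
  rw [Finset.sum_sub_distrib, h2] at h3
  simp at h3
  rw [← h3]

theorem Kl_prime (p : ℕ) [Fact p.Prime] (w c : ZMod p) (hc : IsUnit c) :
    ‖Kl p w c‖ ≤ 2 * Real.sqrt p := by
  have hc0 : c ≠ 0 := hc.ne_zero
  by_cases hw : w = 0
  · subst hw
    rw [Kl_zero p c hc0, norm_neg, norm_one]
    have h1 : (1 : ℝ) ≤ Real.sqrt p := by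
      rw [Real.one_le_sqrt]
      exact_mod_cast (Fact.out : p.Prime).one_le
    linarith
  · exact Pool.Agent.H498R2.kloosterman_prime p w c hw hc0

theorem unit_of_bezout (q1 q2 : ℕ) (α β : ℤ) (hαβ : α * q2 + β * q1 = 1) :
    IsUnit ((α : ℤ) : ZMod q1) := by
  have h : ((α : ℤ) : ZMod q1) * ((q2 : ℤ) : ZMod q1) = 1 := by
    have h1 : ((α * q2 + β * q1 : ℤ) : ZMod q1) = ((1 : ℤ) : ZMod q1) := by rw [hαβ]
    push_cast at h1
    rw [ZMod.natCast_self, mul_zero, add_zero] at h1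
    simpa using h1
  exact IsUnit.of_mul_eq_one _ h

theorem Kl_sf (q : ℕ) : ∀ [NeZero q], Squarefree q → ∀ w c : ZMod q, IsUnit c →
    ‖Kl q w c‖ ≤ 2 ^ q.primeFactors.card * Real.sqrt q := by
  induction q using Nat.strong_induction_on with
  | _ q ih =>
    intro _ hq w c hc
    by_cases h1 : q = 1
    · subst h1
      unfold Kl
      refine (norm_sum_le _ _).trans ?_
      have h2 : ∀ u : (ZMod 1)ˣ, ‖(ZMod.stdAddChar (w * (u : ZMod 1) +
          c * ((u⁻¹ : (ZMod 1)ˣ) : ZMod 1)) : ℂ)‖ ≤ 1 := by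
        intro u
        rw [ZMod.stdAddChar_apply]
        exact (Circle.norm_coe _).le
      refine (Finset.sum_le_sum fun u _ => h2 u).trans ?_
      rw [Finset.sum_const, Finset.card_univ]
      have h3 : Fintype.card (ZMod 1)ˣ = 1 := by rw [ZMod.card_units_eq_totient]; simp
      rw [h3]
      simp
    · -- split off a prime
      have hq0 : q ≠ 0 := NeZero.ne q
      have hp : (q.minFac).Prime := Nat.minFac_prime h1
      obtain ⟨q', hq'⟩ := Nat.minFac_dvd q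
      generalize q.minFac = p at hp hq'
      subst hq'
      have : Fact p.Prime := ⟨hp⟩
      have hq'0 : q' ≠ 0 := fun h => hq0 (by rw [h, mul_zero])
      have : NeZero q' := ⟨hq'0⟩
      have hcop : Nat.Coprime p q' := Nat.coprime_of_squarefree_mul hq
      have hsq' : Squarefree q' := hq.squarefree_of_dvd (Dvd.intro_left p rfl)
      obtain ⟨α, β, hαβ⟩ : ∃ α β : ℤ, α * q' + β * p = 1 := by
        have h2 : IsCoprime (q' : ℤ) (p : ℤ) := Nat.isCoprime_iff_coprime.mpr hcop.symm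
        obtain ⟨a, b, hab⟩ := h2
        exact ⟨a, b, hab⟩
      have hc2 : IsUnit (ZMod.chineseRemainder hcop c) := hc.map _
      rw [Prod.isUnit_iff] at hc2
      have hα : IsUnit ((α : ℤ) : ZMod p) := unit_of_bezout p q' α β hαβ
      have hβ : IsUnit ((β : ℤ) : ZMod q') := unit_of_bezout q' p β α (by linarith)
      have hlt : q' < p * q' := by
        have := hp.two_le
        have h3 : 0 < q' := Nat.pos_of_ne_zero hq'0
        nlinarith
      rw [Kl_mul p q' hcop α β hαβ, norm_mul]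
      have b1 := Kl_prime p ((α : ZMod p) * (ZMod.chineseRemainder hcop w).1)
        ((α : ZMod p) * (ZMod.chineseRemainder hcop c).1) (hα.mul hc2.1)
      have b2 := ih q' hlt hsq' ((β : ZMod q') * (ZMod.chineseRemainder hcop w).2)
        ((β : ZMod q') * (ZMod.chineseRemainder hcop c).2) (hβ.mul hc2.2)
      have hcard : (p * q').primeFactors.card = 1 + q'.primeFactors.card := by
        rw [hcop.primeFactors_mul, Finset.card_union_of_disjoint hcop.disjoint_primeFactors,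
          hp.primeFactors, Finset.card_singleton]
      rw [hcard, Nat.cast_mul, Real.sqrt_mul (by positivity)]
      calc _ ≤ (2 * Real.sqrt p) * (2 ^ q'.primeFactors.card * Real.sqrt q') :=
            mul_le_mul b1 b2 (norm_nonneg _) (by positivity)
        _ = _ := by rw [pow_add]; ring

end TaskB

/-- B (Weil.lean): Weil's bound for squarefree moduli -/
theorem weil_sf (q : ℕ) [NeZero q] (hq : Squarefree q) (w c : ZMod q) (hc : IsUnit c) :
    ‖∑ u : (ZMod q)ˣ, ZMod.stdAddChar (w * (u : ZMod q) + c * ((u⁻¹ : (ZMod q)ˣ) : ZMod q))‖ ≤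
      2 ^ q.primeFactors.card * Real.sqrt q :=
  TaskB.Kl_sf q hq w c hc

end Pool.Agent.H442R2.KF
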