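import Pool.Agent.H442R2.KF.Defs
import Pool.Agent.H343R2.EH.Psi
import Pool.Agent.H343R2.EH.Primes

/-! KF project (helper442), task BV: Bombieri-Vinogradov in the form needed. -/

namespace Pool.Agent.H442R2.KF

open Finset

namespace TaskBV

theorem log_ge_one {x : ℕ} (hx : 3 ≤ x) : 1 ≤ Real.log x := by
  have h : (3:ℝ) ≤ x := by exact_mod_cast hx
  rw [Real.le_log_iff_exp_le (by linarith)]
  have := Real.exp_one_lt_d9
  linarith

theorem Er_le (x d a : ℕ) : |Er x d a| ≤ x := by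
  have h1 : (piAP x d a : ℝ) ≤ x := by
    unfold piAP
    exact_mod_cast (card_filter_le _ _).trans (by simp)
  have h2 : (piN x : ℝ) ≤ x := by
    unfold piN
    exact_mod_cast (card_filter_le _ _).trans (by simp)
  have h3 : (piN x : ℝ) / (Nat.totient d : ℝ) ≤ x := by
    rcases Nat.eq_zero_or_pos (Nat.totient d) with h | h
    · rw [h]; simp
    · have h' : (1:ℝ) ≤ Nat.totient d := by exact_mod_cast h
      rw [div_le_iff₀ (by linarith)]
      nlinarith [Nat.cast_nonneg (α := ℝ) x]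
  have h4 : 0 ≤ (piN x : ℝ) / (Nat.totient d : ℝ) := by positivity
  have h5 : (0:ℝ) ≤ (piAP x d a : ℝ) := Nat.cast_nonneg _
  unfold Er
  rw [abs_le]
  constructor <;> linarith

theorem Er_eq (x d a : ℕ) :
    Er x d a = H343E.piAP x d (a % d) - H343E.pi1 x / (Nat.totient d : ℝ) := by
  unfold Er piAP piN H343E.piAP H343E.pi1
  have h : (Icc 1 x).filter (fun p : ℕ => p.Prime ∧ p ≡ a [MOD d]) =
      (Icc 1 x).filter (fun p : ℕ => p.Prime ∧ p ≡ a % d [MOD d]) := by
    apply filter_congr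
    intro p _
    constructor
    · rintro ⟨h1, h2⟩
      exact ⟨h1, h2.trans (Nat.mod_modEq a d).symm⟩
    · rintro ⟨h1, h2⟩
      exact ⟨h1, h2.trans (Nat.mod_modEq a d)⟩
  rw [h]

end TaskBV

open TaskBV in
/-- BV (Bv.lean): Bombieri-Vinogradov, in the form needed -/
theorem bv (δ : ℝ) (hδ : δ < 1 / 2) (U : ℕ) : ∃ C : ℝ, 0 < C ∧ ∀ N : ℕ, 3 ≤ N → ∀ a : ℕ → ℕ,
    (∀ d, 1 ≤ d → Nat.Coprime (a d) d) →
    ∑ d ∈ Icc 1 ⌊(N : ℝ) ^ δ⌋₊, |Er N d (a d)| ≤ C * (N / Real.log N ^ U) := by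
  obtain ⟨B, x0, hB⟩ := H343E.primes_of U (H343E.unsmoothed (U + 2))
  -- the exponents
  have hpos : (0:ℝ) < 1 - 2 * δ := by linarith
  have hev : ∀ᶠ x : ℝ in Filter.atTop, Real.log x ^ B ≤ x ^ (1 - 2 * δ) := by
    have h := (isLittleO_log_rpow_rpow_atTop (B : ℝ) hpos).bound
      (show (0:ℝ) < 1 by norm_num)
    filter_upwards [h, Filter.eventually_ge_atTop (1:ℝ)] with x hx hx1
    rw [one_mul, Real.norm_eq_abs, Real.norm_eq_abs, Real.rpow_natCast,
      abs_of_nonneg (pow_nonneg (Real.log_nonneg hx1) _),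
      abs_of_nonneg (Real.rpow_nonneg (by linarith) _)] at hx
    exact hx
  obtain ⟨X1, hX1⟩ := Filter.eventually_atTop.1 hev
  set N1 : ℕ := max x0 ⌈X1⌉₊ with hN1
  refine ⟨max 1 ((N1 : ℝ) * Real.log N1 ^ U), lt_of_lt_of_le one_pos (le_max_left _ _), ?_⟩
  intro N hN a ha
  have hN3 : (3:ℝ) ≤ N := by exact_mod_cast hN
  have hN0 : (0:ℝ) < N := by linarith
  have hlog := log_ge_one hN
  have hlog0 : 0 < Real.log N := by linarith
  have hXU : 0 < (N:ℝ) / Real.log N ^ U := by positivity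
  set D : ℕ := ⌊(N : ℝ) ^ δ⌋₊ with hD
  have hDle : (D : ℝ) ≤ (N:ℝ) ^ δ := Nat.floor_le (Real.rpow_nonneg hN0.le _)
  by_cases hbig : N1 ≤ N
  · have hNx0 : x0 ≤ N := (le_max_left _ _).trans hbig
    have hNX1 : X1 ≤ N := by
      have h1 : (⌈X1⌉₊ : ℝ) ≤ N := by exact_mod_cast (le_max_right _ _).trans hbig
      exact (Nat.le_ceil X1).trans h1
    have hl := hX1 N hNX1
    have hsq : (D : ℝ) ^ 2 ≤ 1 * N / Real.log N ^ B := by
      rw [one_mul, le_div_iff₀ (by positivity)]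
      calc (D:ℝ) ^ 2 * Real.log N ^ B ≤ ((N:ℝ) ^ δ) ^ 2 * (N:ℝ) ^ (1 - 2 * δ) := by
            apply mul_le_mul _ hl (by positivity) (by positivity)
            exact pow_le_pow_left₀ (Nat.cast_nonneg _) hDle 2
        _ = (N:ℝ) := by
            rw [← Real.rpow_natCast, ← Real.rpow_mul hN0.le, ← Real.rpow_add hN0]
            have : δ * ((2:ℕ):ℝ) + (1 - 2 * δ) = 1 := by push_cast; ring
            rw [this, Real.rpow_one]
    have hD2 : (D : ℝ) ≤ (D:ℝ) ^ 2 := by
      have : D ≤ D ^ 2 := Nat.le_self_pow (by norm_num) D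
      exact_mod_cast this
    have hD1 : (D : ℝ) ≤ N / Real.log N ^ B := by
      rw [one_mul] at hsq
      exact hD2.trans hsq
    have h := hB N hNx0 1 le_rfl D hD1 hsq (fun q => if q = 0 then ∅ else {a q % q}) (by
      constructor
      · intro q b hb
        rcases Nat.eq_zero_or_pos q with hq | hq
        · subst hq; simp at hb
        · rw [if_neg (by omega), mem_singleton] at hb
          subst hb
          refine ⟨Nat.mod_lt _ hq, ?_⟩
          have := ha q hq
          unfold Nat.Coprime at this ⊢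
          rw [← Nat.gcd_rec, Nat.gcd_comm]
          exact this
      · intro q
        beta_reduce
        split_ifs <;> simp)
    have e : ∑ d ∈ Icc 1 D, |Er N d (a d)| =
        ∑ q ∈ Icc 1 D, ∑ b ∈ (if q = 0 then (∅ : Finset ℕ) else {a q % q}),
          |H343E.piAP N q b - H343E.pi1 N / (Nat.totient q : ℝ)| := by
      apply sum_congr rfl
      intro q hq
      rw [mem_Icc] at hq
      rw [if_neg (by omega), sum_singleton, Er_eq]
    rw [e]
    refine h.trans ?_
    rw [one_mul]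
    calc (N:ℝ) / Real.log N ^ U = 1 * (N / Real.log N ^ U) := (one_mul _).symm
      _ ≤ _ := mul_le_mul_of_nonneg_right (le_max_left _ _) hXU.le
  · push Not at hbig
    have hNN1 : (N:ℝ) ≤ N1 := by exact_mod_cast hbig.le
    have hDN : (D:ℝ) ≤ N := by
      refine hDle.trans ?_
      calc (N:ℝ) ^ δ ≤ (N:ℝ) ^ (1:ℝ) :=
            Real.rpow_le_rpow_of_exponent_le (by linarith) (by linarith)
        _ = N := Real.rpow_one _
    have hl : Real.log N ≤ Real.log N1 := Real.log_le_log hN0 hNN1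
    have h5 : (N:ℝ) * Real.log N ^ U ≤ max 1 ((N1 : ℝ) * Real.log N1 ^ U) := by
      refine le_trans ?_ (le_max_right _ _)
      gcongr
    calc ∑ d ∈ Icc 1 D, |Er N d (a d)| ≤ ∑ d ∈ Icc 1 D, (N:ℝ) :=
          sum_le_sum fun d _ => Er_le N d (a d)
      _ = (D:ℝ) * N := by rw [sum_const, Nat.card_Icc, nsmul_eq_mul]; simp
      _ ≤ (N:ℝ) * N := by gcongr
      _ = (N * Real.log N ^ U) * (N / Real.log N ^ U) := by field_simp
      _ ≤ _ := mul_le_mul_of_nonneg_right h5 hXU.le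

end Pool.Agent.H442R2.KF
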