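import Pool.Agent.H442R2.KF.Corr
import Pool.Agent.H442R2.KF.Bv

/-!
KF project, task Q (helper539): the prime side.
-/

namespace Pool.Agent.H442R2.KF

open Finset

namespace TaskQ

/-- (from H343) -/
theorem phi_mul_card (n : ℕ) (hn : 1 ≤ n) : n ≤ n.totient * n.divisors.card := by
  have hn0 : n ≠ 0 := by omega
  have h1 := Nat.totient_mul_prod_primeFactors n
  have h2 : ∏ p ∈ n.primeFactors, p ≤ n.divisors.card * ∏ p ∈ n.primeFactors, (p - 1) := by
    rw [Nat.card_divisors hn0, ← Finset.prod_mul_distrib]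
    apply Finset.prod_le_prod'
    intro p hp
    have hpp := Nat.prime_of_mem_primeFactors hp
    have hv : 1 ≤ n.factorization p := by
      rw [Nat.one_le_iff_ne_zero, ← Finsupp.mem_support_iff, Nat.support_factorization]
      exact hp
    have := hpp.two_le
    calc p ≤ 2 * (p - 1) := by omega
      _ ≤ (n.factorization p + 1) * (p - 1) := Nat.mul_le_mul_right _ (by omega)
  have h3 : 0 < ∏ p ∈ n.primeFactors, (p - 1) := by
    apply Finset.prod_pos
    intro p hp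
    have := (Nat.prime_of_mem_primeFactors hp).two_le
    omega
  have h4 : n * ∏ p ∈ n.primeFactors, (p - 1) ≤
      (n.totient * n.divisors.card) * ∏ p ∈ n.primeFactors, (p - 1) := by
    rw [← h1, mul_assoc]
    exact Nat.mul_le_mul_left _ h2
  exact Nat.le_of_mul_le_mul_right h4 h3

lemma totient_prod (s : Finset ℕ) (hs : ∀ p ∈ s, p.Prime) :
    Nat.totient (∏ p ∈ s, p) = ∏ p ∈ s, (p - 1) := by
  classical
  induction s using Finset.induction_on with
  | empty => simp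
  | insert a s ha ih =>
    rw [prod_insert ha, prod_insert ha, Nat.totient_mul, ih (fun p hp => hs p (mem_insert_of_mem hp)),
      Nat.totient_prime (hs a (mem_insert_self _ _))]
    apply Nat.Coprime.prod_right
    intro p hp
    rw [Nat.coprime_primes (hs a (mem_insert_self _ _)) (hs p (mem_insert_of_mem hp))]
    rintro rfl
    exact ha hp

/-- `k / φ(k) = ∑_{d ∣ k} μ²(d)/φ(d)` (from H336) -/
theorem div_totient (k : ℕ) (hk : 1 ≤ k) :
    (k : ℝ) / Nat.totient k = ∑ d ∈ k.divisors.filter Squarefree, (1 : ℝ) / Nat.totient d := by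
  have hk0 : k ≠ 0 := by omega
  have htot : (0 : ℝ) < Nat.totient k := by exact_mod_cast Nat.totient_pos.2 hk
  have h1 : (k : ℝ) / Nat.totient k = ∏ p ∈ k.primeFactors, (1 + 1 / ((p : ℝ) - 1)) := by
    have h2 := Nat.totient_mul_prod_primeFactors k
    have h3 : (Nat.totient k : ℝ) * ∏ p ∈ k.primeFactors, (p : ℝ) =
        k * ∏ p ∈ k.primeFactors, ((p : ℝ) - 1) := by
      have : ((Nat.totient k * ∏ p ∈ k.primeFactors, p : ℕ) : ℝ) =
          ((k * ∏ p ∈ k.primeFactors, (p - 1) : ℕ) : ℝ) := by rw [h2]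
      push_cast at this
      rw [this]
      congr 1
      apply prod_congr rfl
      intro p hp
      have := (Nat.prime_of_mem_primeFactors hp).one_le
      push_cast [Nat.cast_sub this]
      ring
    have h4 : ∏ p ∈ k.primeFactors, ((p : ℝ) - 1) ≠ 0 := by
      rw [prod_ne_zero_iff]
      intro p hp
      have : (1 : ℝ) < p := by exact_mod_cast (Nat.prime_of_mem_primeFactors hp).one_lt
      linarith
    have h5 : ∏ p ∈ k.primeFactors, (1 + 1 / ((p : ℝ) - 1)) =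
        (∏ p ∈ k.primeFactors, (p : ℝ)) / ∏ p ∈ k.primeFactors, ((p : ℝ) - 1) := by
      rw [← prod_div_distrib]
      apply prod_congr rfl
      intro p hp
      have : (1 : ℝ) < p := by exact_mod_cast (Nat.prime_of_mem_primeFactors hp).one_lt
      have h6 : (p : ℝ) - 1 ≠ 0 := by linarith
      field_simp
      ring
    rw [h5, div_eq_div_iff htot.ne' h4]
    linarith
  rw [h1, prod_one_add]
  rw [Nat.sum_divisors_filter_squarefree hk0]
  have hpf : (UniqueFactorizationMonoid.normalizedFactors k).toFinset = k.primeFactors := by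
    rw [Nat.factors_eq]
    ext p
    simp [Nat.mem_primeFactorsList, Nat.mem_primeFactors]
  rw [hpf]
  apply sum_congr rfl
  · intro s hs
    rw [mem_powerset] at hs
    have hp : ∀ p ∈ s, p.Prime := fun p hp => Nat.prime_of_mem_primeFactors (hs hp)
    rw [Finset.prod_val]
    rw [show (s.prod id) = ∏ p ∈ s, p from rfl, totient_prod s hp]
    push_cast
    rw [one_div, ← prod_inv_distrib]
    apply prod_congr rfl
    intro p hpp
    have := (hp p hpp).one_le
    rw [Nat.cast_sub this]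
    simp

/-- a lower bound of `φ` -/
theorem inv_totient_le : ∃ C : ℝ, 0 < C ∧ ∀ q : ℕ, 1 ≤ q →
    (1 : ℝ) / Nat.totient q ≤ C * (q : ℝ) ^ (1 / 4 : ℝ) / q := by
  obtain ⟨C, hC, h⟩ := Pool.Agent.H510R2.divisor_bound (1 / 4) (by norm_num)
  refine ⟨C, hC, fun q hq => ?_⟩
  have h1 := h q hq
  have h2 : (q : ℝ) ≤ (Nat.totient q : ℝ) * (q.divisors.card : ℝ) := by
    exact_mod_cast phi_mul_card q hq
  have hq0 : (0 : ℝ) < q := by exact_mod_cast hq
  have ht0 : (0 : ℝ) < Nat.totient q := by exact_mod_cast Nat.totient_pos.2 hq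
  rw [div_le_div_iff₀ ht0 hq0]
  calc (1 : ℝ) * q ≤ (Nat.totient q : ℝ) * (q.divisors.card : ℝ) := by linarith
    _ ≤ (Nat.totient q : ℝ) * (C * (q : ℝ) ^ (1 / 4 : ℝ)) := mul_le_mul_of_nonneg_left h1 ht0.le
    _ = _ := by ring

/-- the sum of `u(d)/φ(d)` in terms of the means `uh` -/
theorem sum_div_totient (u : ℕ → ℝ) (X : ℕ) : ∑ d ∈ Icc 1 X, u d / Nat.totient d =
    ∑ q ∈ (Icc 1 X).filter Squarefree, (1 / (Nat.totient q : ℝ)) * uh u X q := by
  have h1 : ∀ d ∈ Icc 1 X, u d / Nat.totient d =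
      ∑ q ∈ (Icc 1 X).filter Squarefree, if q ∣ d then (u d / d) * (1 / (Nat.totient q : ℝ)) else 0 := by
    intro d hd
    rw [mem_Icc] at hd
    have hd0 : (d : ℝ) ≠ 0 := by
      have : d ≠ 0 := by omega
      exact_mod_cast this
    have e1 : u d / Nat.totient d = (u d / d) * ((d : ℝ) / Nat.totient d) := by
      field_simp
    rw [e1, div_totient d hd.1, mul_sum, ← sum_filter]
    refine sum_congr ?_ fun _ _ => rfl
    ext q
    simp only [mem_filter, Nat.mem_divisors, mem_Icc]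
    constructor
    · rintro ⟨⟨h1, h2⟩, h3⟩
      have := Nat.le_of_dvd (by omega) h1
      have := Nat.pos_of_dvd_of_pos h1 (by omega)
      exact ⟨⟨⟨by omega, by omega⟩, h3⟩, h1⟩
    · rintro ⟨⟨⟨h1, h2⟩, h3⟩, h4⟩
      exact ⟨⟨h4, by omega⟩, h3⟩
  rw [sum_congr rfl h1, sum_comm]
  refine sum_congr rfl fun q _ => ?_
  unfold uh
  rw [mul_sum, sum_filter]
  refine sum_congr rfl fun d _ => ?_
  split_ifs
  · ring
  · rfl

/-- a convergent sum -/
noncomputable def SC : ℝ := ∑' n : ℕ, 1 / (n : ℝ) ^ (5 / 4 : ℝ)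

/-- the main terms of the model cancel up to a small error -/
theorem tail_bound : ∃ C : ℝ, 0 < C ∧ ∀ (c : ℕ → ℝ) (D Q : ℕ), Cof D c → 1 ≤ Q → Q ≤ D →
    |∑ d ∈ Icc 1 (2 * D), uu c (2 * D) Q d / Nat.totient d| ≤ C / (Q : ℝ) ^ (1 / 2 : ℝ) := by
  obtain ⟨C, hC, h⟩ := inv_totient_le
  have hsum : Summable (fun n : ℕ => 1 / (n : ℝ) ^ (5 / 4 : ℝ)) :=
    Real.summable_one_div_nat_rpow.2 (by norm_num)
  have hS0 : 0 ≤ SC := tsum_nonneg fun n => by positivity
  refine ⟨2 * C * SC + 1, by positivity, fun c D Q hc hQ hQD => ?_⟩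
  have hQ0 : (0 : ℝ) < Q := by exact_mod_cast hQ
  rw [sum_div_totient]
  have hQp : 0 < (Q : ℝ) ^ (1 / 2 : ℝ) := Real.rpow_pos_of_pos hQ0 _
  have hterm : ∀ q ∈ (Icc 1 (2 * D)).filter Squarefree,
      |(1 / (Nat.totient q : ℝ)) * uh (uu c (2 * D) Q) (2 * D) q| ≤
      (2 * C / (Q : ℝ) ^ (1 / 2 : ℝ)) * (1 / (q : ℝ) ^ (5 / 4 : ℝ)) := by
    intro q hq
    rw [mem_filter, mem_Icc] at hq
    rw [uh_uu c (2 * D) Q q hq.1.1 (by omega)]
    have hq0 : (0 : ℝ) < q := by exact_mod_cast hq.1.1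
    split_ifs with hqQ
    · rw [mul_zero, abs_zero]; positivity
    · push Not at hqQ
      rw [abs_mul, abs_of_nonneg (by positivity : (0 : ℝ) ≤ 1 / (Nat.totient q : ℝ))]
      have h1 := h q hq.1.1
      have h2 := abs_uh_le c D q hc hq.1.1
      calc (1 / (Nat.totient q : ℝ)) * |uh c (2 * D) q|
          ≤ (C * (q : ℝ) ^ (1 / 4 : ℝ) / q) * (2 / q) :=
            mul_le_mul h1 h2 (abs_nonneg _) (by positivity)
        _ = 2 * C * (1 / (q : ℝ) ^ (1 / 2 : ℝ)) * (1 / (q : ℝ) ^ (5 / 4 : ℝ)) := by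
            have e1 : (q : ℝ) * q = (q : ℝ) ^ (1 / 4 : ℝ) * ((q : ℝ) ^ (1 / 2 : ℝ) *
                (q : ℝ) ^ (5 / 4 : ℝ)) := by
              rw [← Real.rpow_add hq0, ← Real.rpow_add hq0]
              norm_num
              ring
            have e2 : (q : ℝ) ^ (1 / 4 : ℝ) ≠ 0 := (Real.rpow_pos_of_pos hq0 _).ne'
            have e3 : (q : ℝ) ^ (1 / 2 : ℝ) ≠ 0 := (Real.rpow_pos_of_pos hq0 _).ne'
            have e4 : (q : ℝ) ^ (5 / 4 : ℝ) ≠ 0 := (Real.rpow_pos_of_pos hq0 _).ne'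
            rw [div_mul_div_comm, e1]
            field_simp
        _ ≤ 2 * C * (1 / (Q : ℝ) ^ (1 / 2 : ℝ)) * (1 / (q : ℝ) ^ (5 / 4 : ℝ)) := by
            refine mul_le_mul_of_nonneg_right ?_ (by positivity)
            refine mul_le_mul_of_nonneg_left ?_ (by positivity)
            refine one_div_le_one_div_of_le hQp ?_
            exact Real.rpow_le_rpow hQ0.le (by exact_mod_cast hqQ.le) (by norm_num)
        _ = (2 * C / (Q : ℝ) ^ (1 / 2 : ℝ)) * (1 / (q : ℝ) ^ (5 / 4 : ℝ)) := by ring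
  refine (abs_sum_le_sum_abs _ _).trans ((sum_le_sum hterm).trans ?_)
  rw [← mul_sum]
  have h3 : ∑ q ∈ (Icc 1 (2 * D)).filter Squarefree, 1 / (q : ℝ) ^ (5 / 4 : ℝ) ≤ SC :=
    hsum.sum_le_tsum _ fun n _ => by positivity
  calc (2 * C / (Q : ℝ) ^ (1 / 2 : ℝ)) *
      ∑ q ∈ (Icc 1 (2 * D)).filter Squarefree, 1 / (q : ℝ) ^ (5 / 4 : ℝ)
      ≤ (2 * C / (Q : ℝ) ^ (1 / 2 : ℝ)) * SC := mul_le_mul_of_nonneg_left h3 (by positivity)
    _ = (2 * C * SC) / (Q : ℝ) ^ (1 / 2 : ℝ) := by ring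
    _ ≤ (2 * C * SC + 1) / (Q : ℝ) ^ (1 / 2 : ℝ) :=
        div_le_div_of_nonneg_right (by linarith) hQp.le

/-- powers of the logarithm -/
theorem log_pow (U : ℕ) : ∃ C : ℝ, 0 < C ∧ ∀ N : ℕ, 3 ≤ N →
    (N : ℝ) ^ (1 - 1 / 400 : ℝ) ≤ C * (N / Real.log N ^ U) := by
  set K : ℝ := 400 * (U + 1) with hK
  have hK0 : 0 < K := by positivity
  refine ⟨K ^ (U + 1), by positivity, fun N hN => ?_⟩
  have hN3 : (3 : ℝ) ≤ N := by exact_mod_cast hN
  have hN0 : (0 : ℝ) < N := by linarith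
  have hl1 : 1 ≤ Real.log N := by
    rw [Real.le_log_iff_exp_le hN0]
    have := Real.exp_one_lt_d9
    linarith
  have hl : Real.log N ≤ K * (N : ℝ) ^ (1 / K : ℝ) := by
    have := Real.log_le_rpow_div (x := (N : ℝ)) hN0.le (ε := 1 / K) (by positivity)
    have e : (N : ℝ) ^ (1 / K : ℝ) / (1 / K) = K * (N : ℝ) ^ (1 / K : ℝ) := by
      field_simp
    linarith
  have h1 : Real.log N ^ U ≤ K ^ (U + 1) * (N : ℝ) ^ (1 / 400 : ℝ) := by
    calc Real.log N ^ U ≤ Real.log N ^ (U + 1) := pow_le_pow_right₀ hl1 (by omega)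
      _ ≤ (K * (N : ℝ) ^ (1 / K : ℝ)) ^ (U + 1) := pow_le_pow_left₀ (by linarith) hl _
      _ = K ^ (U + 1) * (N : ℝ) ^ (1 / 400 : ℝ) := by
          rw [mul_pow, ← Real.rpow_natCast ((N : ℝ) ^ (1 / K : ℝ)), ← Real.rpow_mul hN0.le]
          congr 2
          rw [hK]
          push_cast
          field_simp
  rw [mul_div_assoc', le_div_iff₀ (by positivity)]
  calc (N : ℝ) ^ (1 - 1 / 400 : ℝ) * Real.log N ^ U
      ≤ (N : ℝ) ^ (1 - 1 / 400 : ℝ) * (K ^ (U + 1) * (N : ℝ) ^ (1 / 400 : ℝ)) :=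
        mul_le_mul_of_nonneg_left h1 (by positivity)
    _ = K ^ (U + 1) * ((N : ℝ) ^ (1 - 1 / 400 : ℝ) * (N : ℝ) ^ (1 / 400 : ℝ)) := by ring
    _ = K ^ (U + 1) * N := by
        rw [← Real.rpow_add hN0]
        norm_num

/-- the sum over the primes -/
theorem sum_primes (u : ℕ → ℝ) (X N a : ℕ) :
    ∑ p ∈ (Icc 1 N).filter Nat.Prime, rho u X a p = ∑ d ∈ Icc 1 X, u d * piAP N d a := by
  have h1 : ∀ p ∈ (Icc 1 N).filter Nat.Prime, rho u X a p =
      ∑ d ∈ Icc 1 X, if p ≡ a [MOD d] then u d else 0 := by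
    intro p _
    unfold rho
    rw [sum_filter]
    refine sum_congr rfl fun d _ => ?_
    have : ((d : ℤ) ∣ (p : ℤ) - (a : ℤ)) ↔ p ≡ a [MOD d] := by
      rw [Nat.ModEq.comm, Nat.modEq_iff_dvd]
    simp only [this]
  rw [sum_congr rfl h1, sum_comm]
  refine sum_congr rfl fun d _ => ?_
  unfold piAP
  rw [← sum_filter, sum_const, nsmul_eq_mul, filter_filter, mul_comm]

end TaskQ

open TaskQ in
/-- Q (Pri.lean): the prime side -/
theorem prime_side (U : ℕ) : ∃ C : ℝ, 0 < C ∧ ∀ (N D : ℕ), 3 ≤ N → QN N ≤ D →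
    (D : ℝ) ≤ (N : ℝ) ^ (3 / 4 : ℝ) → ∀ a : ℕ, 1 ≤ a → a ≤ N → ∀ c : ℕ → ℝ, Cof D c →
    (∀ d, ¬ Nat.Coprime a d → c d = 0) →
    |(∑ p ∈ (Icc 1 N).filter Nat.Prime, rr (uu c (2 * D) (QN N)) (2 * D) a p) -
      ∑ d ∈ Ioc D (2 * D), c d * Er N d a| ≤ C * (N / Real.log N ^ U) := by
  obtain ⟨C1, hC1, h1⟩ := tail_bound
  obtain ⟨C2, hC2, h2⟩ := log_pow U
  obtain ⟨C3, hC3, h3⟩ := bv (1 / 100) (by norm_num) (U + 1)
  refine ⟨806 * C2 + 4 * C3 + 2 * C1 * C2, by positivity, ?_⟩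
  intro N D hN hQD hD a ha haN c hc hca
  obtain ⟨q1, q2, q3⟩ := TaskO.QN_facts N (by omega)
  set Q := QN N with hQ
  have hN3 : (3 : ℝ) ≤ N := by exact_mod_cast hN
  have hN1 : (1 : ℝ) ≤ N := by linarith
  have hN0 : (0 : ℝ) < N := by linarith
  have hl1 : 1 ≤ Real.log N := by
    rw [Real.le_log_iff_exp_le hN0]
    have := Real.exp_one_lt_d9
    linarith
  have hQ0 : (0 : ℝ) < Q := by
    have : 0 < Q := by omega
    exact_mod_cast this
  obtain ⟨bw, bu⟩ := TaskO.uu_bounds N D (by omega) c hc fun d => abs_ww_le c D Q d hc q1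
  have hL0 : 0 ≤ TaskO.LL N := (abs_nonneg _).trans (bu 0)
  set u := uu c (2 * D) Q with hu
  -- (1) from rr to rho
  have s1 : |(∑ p ∈ (Icc 1 N).filter Nat.Prime, rr u (2 * D) a p) -
      ∑ p ∈ (Icc 1 N).filter Nat.Prime, rho u (2 * D) a p| ≤ 806 * C2 * (N / Real.log N ^ U) := by
    have e1 : (∑ p ∈ (Icc 1 N).filter Nat.Prime, rr u (2 * D) a p) -
        ∑ p ∈ (Icc 1 N).filter Nat.Prime, rho u (2 * D) a p =
        ∑ p ∈ (Icc 1 N).filter Nat.Prime, if p = a then - rho u (2 * D) a a else 0 := by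
      rw [← sum_sub_distrib]
      refine sum_congr rfl fun p _ => ?_
      unfold rr
      by_cases hp : p = a
      · subst hp; simp
      · have : (p : ℤ) ≠ a := by exact_mod_cast hp
        simp [hp, this]
    rw [e1, sum_ite_eq']
    have e2 : |rho u (2 * D) a a| ≤ 806 * C2 * (N / Real.log N ^ U) := by
      refine (TaskO.abs_rho_le u (2 * D) a a _ hL0 bu).trans ?_
      push_cast
      calc 2 * (D : ℝ) * TaskO.LL N ≤ 2 * (N : ℝ) ^ (3 / 4 : ℝ) * (403 * (N : ℝ) ^ (1 / 200 : ℝ)) := by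
            unfold TaskO.LL
            refine mul_le_mul_of_nonneg_right (by linarith) (by positivity)
        _ = 806 * (N : ℝ) ^ (3 / 4 + 1 / 200 : ℝ) := by
            rw [Real.rpow_add hN0]; ring
        _ ≤ 806 * (N : ℝ) ^ (1 - 1 / 400 : ℝ) := by
            refine mul_le_mul_of_nonneg_left ?_ (by norm_num)
            exact Real.rpow_le_rpow_of_exponent_le hN1 (by norm_num)
        _ ≤ 806 * (C2 * (N / Real.log N ^ U)) :=
            mul_le_mul_of_nonneg_left (h2 N hN) (by norm_num)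
        _ = _ := by ring
    split_ifs
    · rw [abs_neg]; exact e2
    · rw [abs_zero]; positivity
  -- (2) the sum over the moduli
  have s2 : ∑ p ∈ (Icc 1 N).filter Nat.Prime, rho u (2 * D) a p =
      ∑ d ∈ Ioc D (2 * D), c d * Er N d a - ∑ d ∈ Icc 1 (2 * D), ww c (2 * D) Q d * Er N d a +
        piN N * ∑ d ∈ Icc 1 (2 * D), u d / Nat.totient d := by
    rw [sum_primes, mul_sum]
    have e1 : ∑ d ∈ Ioc D (2 * D), c d * Er N d a = ∑ d ∈ Icc 1 (2 * D), c d * Er N d a := by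
      refine sum_subset ?_ ?_
      · intro d hd
        rw [mem_Ioc] at hd
        rw [mem_Icc]
        omega
      · intro d _ hd
        rw [hc.supp d hd, zero_mul]
    rw [e1, ← sum_sub_distrib, ← sum_add_distrib]
    refine sum_congr rfl fun d _ => ?_
    rw [hu]
    unfold uu Er
    ring
  -- (3) the small moduli
  have s3 : |∑ d ∈ Icc 1 (2 * D), ww c (2 * D) Q d * Er N d a| ≤
      4 * C3 * (N / Real.log N ^ U) := by
    set b : ℕ → ℕ := fun d => if Nat.Coprime a d then a else 1 with hb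
    have hb1 : ∀ d, 1 ≤ d → Nat.Coprime (b d) d := by
      intro d _
      simp only [hb]
      split_ifs with h
      · exact h
      · exact Nat.coprime_one_left d
    have h4 := h3 N hN b hb1
    have hlogQ : Real.log Q ≤ Real.log N := by
      apply Real.log_le_log hQ0
      refine q2.trans ?_
      calc (N : ℝ) ^ (1 / 100 : ℝ) ≤ (N : ℝ) ^ (1 : ℝ) :=
            Real.rpow_le_rpow_of_exponent_le hN1 (by norm_num)
        _ = N := Real.rpow_one _
    have h5 : ∀ d ∈ Icc 1 (2 * D), |ww c (2 * D) Q d * Er N d a| ≤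
        if d ≤ Q then 4 * Real.log N * |Er N d (b d)| else 0 := by
      intro d _
      by_cases hdQ : d ≤ Q
      · rw [if_pos hdQ]
        by_cases hcop : Nat.Coprime a d
        · have : b d = a := by simp only [hb]; rw [if_pos hcop]
          rw [this, abs_mul]
          refine mul_le_mul_of_nonneg_right ?_ (abs_nonneg _)
          have := abs_ww_le c D Q d hc q1
          linarith
        · rw [ww_coprime c (2 * D) Q a d hca hcop, zero_mul, abs_zero]
          positivity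
      · rw [if_neg hdQ, ww_zero c (2 * D) Q d (by omega), zero_mul, abs_zero]
    refine (abs_sum_le_sum_abs _ _).trans ((sum_le_sum h5).trans ?_)
    rw [← sum_filter, ← mul_sum]
    have h6 : ∑ d ∈ (Icc 1 (2 * D)).filter (fun d => d ≤ Q), |Er N d (b d)| ≤
        ∑ d ∈ Icc 1 ⌊(N : ℝ) ^ (1 / 100 : ℝ)⌋₊, |Er N d (b d)| := by
      refine sum_le_sum_of_subset_of_nonneg ?_ fun _ _ _ => abs_nonneg _
      intro d hd
      rw [mem_filter, mem_Icc] at hd
      rw [mem_Icc]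
      exact ⟨hd.1.1, hd.2⟩
    calc 4 * Real.log N * ∑ d ∈ (Icc 1 (2 * D)).filter (fun d => d ≤ Q), |Er N d (b d)|
        ≤ 4 * Real.log N * (C3 * (N / Real.log N ^ (U + 1))) :=
          mul_le_mul_of_nonneg_left (h6.trans h4) (by positivity)
      _ = 4 * C3 * (N / Real.log N ^ U) := by
          rw [pow_succ]
          field_simp
  -- (4) the main terms
  have s4 : |(piN N : ℝ) * ∑ d ∈ Icc 1 (2 * D), u d / Nat.totient d| ≤
      2 * C1 * C2 * (N / Real.log N ^ U) := by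
    rw [abs_mul, abs_of_nonneg (by positivity : (0 : ℝ) ≤ (piN N : ℝ))]
    have g1 : (piN N : ℝ) ≤ N := by
      unfold piN
      have := card_filter_le (Icc 1 N) (fun p : ℕ => p.Prime)
      rw [Nat.card_Icc, Nat.add_sub_cancel] at this
      exact_mod_cast this
    have g2 := h1 c D Q hc q1 hQD
    have g3 : C1 / (Q : ℝ) ^ (1 / 2 : ℝ) ≤ 2 * C1 * (N : ℝ) ^ (-(1 / 200) : ℝ) := by
      rw [div_le_iff₀ (Real.rpow_pos_of_pos hQ0 _)]
      have g4 : (N : ℝ) ^ (1 / 200 : ℝ) ≤ 2 * (Q : ℝ) ^ (1 / 2 : ℝ) := by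
        calc (N : ℝ) ^ (1 / 200 : ℝ) = ((N : ℝ) ^ (1 / 100 : ℝ)) ^ (1 / 2 : ℝ) := by
              rw [← Real.rpow_mul hN0.le]; norm_num
          _ ≤ (2 * Q : ℝ) ^ (1 / 2 : ℝ) := Real.rpow_le_rpow (by positivity) q3 (by norm_num)
          _ = (2 : ℝ) ^ (1 / 2 : ℝ) * (Q : ℝ) ^ (1 / 2 : ℝ) :=
              Real.mul_rpow (by norm_num) hQ0.le
          _ ≤ 2 * (Q : ℝ) ^ (1 / 2 : ℝ) := by
              refine mul_le_mul_of_nonneg_right ?_ (by positivity)
              calc (2 : ℝ) ^ (1 / 2 : ℝ) ≤ (2 : ℝ) ^ (1 : ℝ) :=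
                    Real.rpow_le_rpow_of_exponent_le (by norm_num) (by norm_num)
                _ = 2 := Real.rpow_one _
      have g5 : (N : ℝ) ^ (-(1 / 200) : ℝ) * (N : ℝ) ^ (1 / 200 : ℝ) = 1 := by
        rw [← Real.rpow_add hN0]; norm_num
      calc C1 = C1 * ((N : ℝ) ^ (-(1 / 200) : ℝ) * (N : ℝ) ^ (1 / 200 : ℝ)) := by
            rw [g5, mul_one]
        _ ≤ C1 * ((N : ℝ) ^ (-(1 / 200) : ℝ) * (2 * (Q : ℝ) ^ (1 / 2 : ℝ))) := by
            refine mul_le_mul_of_nonneg_left ?_ hC1.le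
            exact mul_le_mul_of_nonneg_left g4 (by positivity)
        _ = _ := by ring
    calc (piN N : ℝ) * |∑ d ∈ Icc 1 (2 * D), u d / Nat.totient d|
        ≤ N * (2 * C1 * (N : ℝ) ^ (-(1 / 200) : ℝ)) :=
          mul_le_mul g1 (g2.trans g3) (abs_nonneg _) hN0.le
      _ = 2 * C1 * (N : ℝ) ^ (1 - 1 / 200 : ℝ) := by
          have : (N : ℝ) ^ (1 - 1 / 200 : ℝ) = N * (N : ℝ) ^ (-(1 / 200) : ℝ) := by
            rw [sub_eq_add_neg, Real.rpow_add hN0, Real.rpow_one]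
          rw [this]; ring
      _ ≤ 2 * C1 * (N : ℝ) ^ (1 - 1 / 400 : ℝ) := by
          refine mul_le_mul_of_nonneg_left ?_ (by positivity)
          exact Real.rpow_le_rpow_of_exponent_le hN1 (by norm_num)
      _ ≤ 2 * C1 * (C2 * (N / Real.log N ^ U)) :=
          mul_le_mul_of_nonneg_left (h2 N hN) (by positivity)
      _ = _ := by ring
  have e5 : (∑ p ∈ (Icc 1 N).filter Nat.Prime, rr u (2 * D) a p) -
      ∑ d ∈ Ioc D (2 * D), c d * Er N d a =
      ((∑ p ∈ (Icc 1 N).filter Nat.Prime, rr u (2 * D) a p) -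
        ∑ p ∈ (Icc 1 N).filter Nat.Prime, rho u (2 * D) a p) +
      (- (∑ d ∈ Icc 1 (2 * D), ww c (2 * D) Q d * Er N d a) +
        piN N * ∑ d ∈ Icc 1 (2 * D), u d / Nat.totient d) := by
    rw [s2]; ring
  rw [e5]
  refine (abs_add_le _ _).trans ((add_le_add le_rfl (abs_add_le _ _)).trans ?_)
  rw [abs_neg]
  have : (806 * C2 + 4 * C3 + 2 * C1 * C2) * (N / Real.log N ^ U) =
      806 * C2 * (N / Real.log N ^ U) + (4 * C3 * (N / Real.log N ^ U) +
        2 * C1 * C2 * (N / Real.log N ^ U)) := by ring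
  rw [this]
  linarith

end Pool.Agent.H442R2.KF
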