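import Pool.Agent.H442R2.KF.Defs

/-!
KF project, task L (helper75): Poisson summation for the Gaussian in an arithmetic
progression, truncated.
-/

namespace Pool.Agent.H442R2.KF

open Finset

namespace TaskL

lemma reindex (N m : ℕ) (hm : 1 ≤ m) (c : ℤ) :
    (∑' n : ℤ, (if (m : ℤ) ∣ n - c then Wt N n else 0)) = ∑' k : ℤ, Wt N (c + m * k) := by
  have hm' : (m : ℤ) ≠ 0 := by positivity
  have hinj : Function.Injective (fun k : ℤ => c + m * k) := by
    intro k k' h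
    have h2 : (m : ℤ) * k = m * k' := by
      have := h
      simp only at this
      linarith
    exact mul_left_cancel₀ hm' h2
  have hs : Function.support (fun n : ℤ => if (m : ℤ) ∣ n - c then Wt N n else 0) ⊆
      Set.range (fun k : ℤ => c + m * k) := by
    intro n hn
    have hd : (m : ℤ) ∣ n - c := by
      by_contra h
      exact hn (if_neg h)
    obtain ⟨k, hk⟩ := hd
    exact ⟨k, by simp only; linarith⟩
  rw [← hinj.tsum_eq hs]
  refine tsum_congr fun k => ?_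
  rw [if_pos]
  exact ⟨k, by ring⟩

lemma poisson (N m : ℕ) (hN : 1 ≤ N) (hm : 1 ≤ m) (c : ℤ) :
    ((∑' k : ℤ, Wt N (c + m * k) : ℝ) : ℂ) =
      ((N : ℝ) / m : ℝ) * ∑' j : ℤ,
        ((Real.exp (-Real.pi * ((j : ℝ) * N / m) ^ 2) : ℝ) : ℂ) * e ((j : ℝ) * c / m) := by
  have hN0 : (0 : ℝ) < N := by exact_mod_cast hN
  have hm0 : (0 : ℝ) < m := by exact_mod_cast hm
  have hNc : (N : ℂ) ≠ 0 := by exact_mod_cast hN0.ne'
  have hmc : (m : ℂ) ≠ 0 := by exact_mod_cast hm0.ne'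
  have ha : 0 < ((((m : ℝ) / N) ^ 2 : ℝ) : ℂ).re := by
    rw [Complex.ofReal_re]
    positivity
  have h := Complex.tsum_exp_neg_quadratic ha ((-((c : ℝ) * m / N ^ 2) : ℝ) : ℂ)
  have hsq : ((((m : ℝ) / N) ^ 2 : ℝ) : ℂ) ^ (1 / 2 : ℂ) = (((m : ℝ) / N : ℝ) : ℂ) := by
    have h2 : (1 / 2 : ℂ) = (((1 / 2 : ℝ)) : ℂ) := by push_cast; rfl
    rw [h2, ← Complex.ofReal_cpow (by positivity)]
    congr 1
    rw [← Real.sqrt_eq_rpow, Real.sqrt_sq (by positivity)]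
  rw [Complex.ofReal_tsum]
  have h1 : ∀ k : ℤ, ((Wt N (c + m * k) : ℝ) : ℂ) =
      Complex.exp (((-Real.pi * ((c : ℝ) / N) ^ 2 : ℝ)) : ℂ) *
        Complex.exp (-Real.pi * ((((m : ℝ) / N) ^ 2 : ℝ) : ℂ) * (k : ℂ) ^ 2 +
          2 * Real.pi * ((-((c : ℝ) * m / N ^ 2) : ℝ) : ℂ) * k) := by
    intro k
    rw [← Complex.exp_add]
    unfold Wt
    rw [Complex.ofReal_exp]
    congr 1
    push_cast
    field_simp
    ring
  rw [tsum_congr h1, tsum_mul_left, h, hsq]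
  have h3 : ∀ j : ℤ, Complex.exp (((-Real.pi * ((c : ℝ) / N) ^ 2 : ℝ)) : ℂ) *
      Complex.exp (-Real.pi / ((((m : ℝ) / N) ^ 2 : ℝ) : ℂ) *
        ((j : ℂ) + Complex.I * ((-((c : ℝ) * m / N ^ 2) : ℝ) : ℂ)) ^ 2) =
      ((Real.exp (-Real.pi * ((j : ℝ) * N / m) ^ 2) : ℝ) : ℂ) * e ((j : ℝ) * c / m) := by
    intro j
    unfold e
    rw [← Complex.exp_add, Complex.ofReal_exp, ← Complex.exp_add]
    congr 1
    push_cast
    field_simp
    ring_nf
    rw [Complex.I_sq]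
    ring
  rw [← tsum_congr h3, tsum_mul_left]
  push_cast
  field_simp

lemma term_bound (N m : ℕ) (hN : 1 ≤ N) (hm : 1 ≤ m) (J : ℕ)
    (hJ : (m : ℝ) * Real.log N ≤ (J + 1) * N) (j : ℤ) (hj : j ∉ Icc (-(J : ℤ)) J) :
    Real.exp (-Real.pi * ((j : ℝ) * N / m) ^ 2) ≤
      Real.exp (-(Real.log N) ^ 2) * ((m : ℝ) / N) ^ 2 * (1 / (j : ℝ) ^ 2) := by
  have hN0 : (0 : ℝ) < N := by exact_mod_cast hN
  have hm0 : (0 : ℝ) < m := by exact_mod_cast hm
  have hlog : 0 ≤ Real.log N := Real.log_nonneg (by exact_mod_cast hN)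
  have hjabs : (J : ℤ) + 1 ≤ |j| := by
    rw [mem_Icc] at hj
    by_contra h
    push Not at h
    apply hj
    have h2 : |j| ≤ J := by omega
    exact abs_le.mp h2
  have hjR : (J : ℝ) + 1 ≤ |(j : ℝ)| := by exact_mod_cast hjabs
  have hj0 : (0 : ℝ) < |(j : ℝ)| := by
    have : (0 : ℝ) ≤ J := Nat.cast_nonneg J
    linarith
  have hjne : (j : ℝ) ≠ 0 := abs_pos.mp hj0
  set t : ℝ := ((j : ℝ) * N / m) ^ 2 with ht
  have ht0 : 0 < t := by rw [ht]; positivity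
  have htl : (Real.log N) ^ 2 ≤ t := by
    have h1 : Real.log N ≤ |(j : ℝ)| * N / m := by
      rw [le_div_iff₀ hm0]
      calc Real.log N * m = m * Real.log N := by ring
        _ ≤ (J + 1) * N := hJ
        _ ≤ |(j : ℝ)| * N := by gcongr
    have h2 : t = (|(j : ℝ)| * N / m) ^ 2 := by
      rw [ht, div_pow, mul_pow, div_pow, mul_pow, sq_abs]
    rw [h2]
    gcongr
  have hpi : (3 : ℝ) < Real.pi := Real.pi_gt_three
  have h3 : -Real.pi * t ≤ -(Real.log N) ^ 2 + (-t) := by nlinarith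
  have h4 : Real.exp (-t) ≤ 1 / t := by
    rw [Real.exp_neg, ← one_div]
    apply one_div_le_one_div_of_le ht0
    have := Real.add_one_le_exp t
    linarith
  calc Real.exp (-Real.pi * t) ≤ Real.exp (-(Real.log N) ^ 2 + (-t)) := Real.exp_le_exp.mpr h3
    _ = Real.exp (-(Real.log N) ^ 2) * Real.exp (-t) := Real.exp_add _ _
    _ ≤ Real.exp (-(Real.log N) ^ 2) * (1 / t) := by gcongr
    _ = _ := by
      rw [ht]
      field_simp

lemma norm_term (N m : ℕ) (c j : ℤ) :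
    ‖((Real.exp (-Real.pi * ((j : ℝ) * N / m) ^ 2) : ℝ) : ℂ) * e ((j : ℝ) * c / m)‖ =
      Real.exp (-Real.pi * ((j : ℝ) * N / m) ^ 2) := by
  rw [norm_mul, norm_e, mul_one, Complex.norm_real, Real.norm_eq_abs, Real.abs_exp]

lemma tail (N m : ℕ) (hN : 1 ≤ N) (hm : 1 ≤ m) (c : ℤ) (J : ℕ)
    (hJ : (m : ℝ) * Real.log N ≤ (J + 1) * N) :
    ‖(∑' j : ℤ, ((Real.exp (-Real.pi * ((j : ℝ) * N / m) ^ 2) : ℝ) : ℂ) * e ((j : ℝ) * c / m)) -
      ∑ j ∈ Icc (-(J : ℤ)) J,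
        ((Real.exp (-Real.pi * ((j : ℝ) * N / m) ^ 2) : ℝ) : ℂ) * e ((j : ℝ) * c / m)‖ ≤
      Real.exp (-(Real.log N) ^ 2) * ((m : ℝ) / N) ^ 2 * ∑' j : ℤ, 1 / (j : ℝ) ^ 2 := by
  set f : ℤ → ℂ := fun j =>
    ((Real.exp (-Real.pi * ((j : ℝ) * N / m) ^ 2) : ℝ) : ℂ) * e ((j : ℝ) * c / m) with hf
  set A : ℝ := Real.exp (-(Real.log N) ^ 2) * ((m : ℝ) / N) ^ 2 with hA
  have hA0 : 0 ≤ A := by rw [hA]; positivity
  have hsum : Summable (fun j : ℤ => A * (1 / (j : ℝ) ^ 2)) :=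
    (Real.summable_one_div_int_pow.mpr (by norm_num)).mul_left A
  set s : Finset ℤ := Icc (-(J : ℤ)) J with hs
  -- the truncated function
  set g : ℤ → ℂ := fun j => if j ∈ s then 0 else f j with hg
  have hgb : ∀ j, ‖g j‖ ≤ A * (1 / (j : ℝ) ^ 2) := by
    intro j
    by_cases h : j ∈ s
    · simp only [hg, if_pos h, norm_zero]
      positivity
    · simp only [hg, if_neg h, hf]
      rw [norm_term]
      exact term_bound N m hN hm J hJ j h
  have hgs : Summable g := Summable.of_norm_bounded hsum hgb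
  have hfs : Summable f := by
    refine (summable_congr_cofinite ?_).mpr hgs
    filter_upwards [s.finite_toSet.compl_mem_cofinite] with j hj
    have hj' : j ∉ s := fun h => hj (by exact_mod_cast h)
    simp only [hg, if_neg hj']
  have heq : (∑' j, f j) - ∑ j ∈ s, f j = ∑' j, g j := by
    have h1 : ∀ j, f j = (if j ∈ s then f j else 0) + g j := by
      intro j
      by_cases h : j ∈ s <;> simp [hg, h]
    have h2 : Summable (fun j => if j ∈ s then f j else 0) :=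
      summable_of_ne_finset_zero (s := s) (fun j hj => if_neg hj)
    have h3 : ∑' j, (if j ∈ s then f j else 0) = ∑ j ∈ s, f j := by
      rw [tsum_eq_sum (s := s) (fun j hj => if_neg hj)]
      exact Finset.sum_congr rfl (fun j hj => if_pos hj)
    calc (∑' j, f j) - ∑ j ∈ s, f j
        = (∑' j, ((if j ∈ s then f j else 0) + g j)) - ∑ j ∈ s, f j := by
          rw [← tsum_congr h1]
      _ = _ := by rw [h2.tsum_add hgs, h3]; ring
  rw [heq]
  calc ‖∑' j, g j‖ ≤ ∑' j : ℤ, A * (1 / (j : ℝ) ^ 2) := tsum_of_norm_bounded hsum.hasSum hgb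
    _ = A * ∑' j : ℤ, 1 / (j : ℝ) ^ 2 := tsum_mul_left

end TaskL

/-- L (Poi.lean): Poisson summation in a progression, truncated -/
theorem poisson_trunc : ∃ N₀ : ℕ, ∀ N : ℕ, N₀ ≤ N → ∀ m : ℕ, 1 ≤ m → (m : ℝ) ≤ (N : ℝ) ^ 3 →
    ∀ (c : ℤ) (J : ℕ), (m : ℝ) * Real.log N ≤ (J + 1) * N →
    ‖((∑' n : ℤ, (if (m : ℤ) ∣ n - c then Wt N n else 0) : ℝ) : ℂ) -
      ((N : ℝ) / m : ℝ) * ∑ j ∈ Icc (-(J : ℤ)) J,
        ((Real.exp (-Real.pi * ((j : ℝ) * N / m) ^ 2) : ℝ) : ℂ) * e ((j : ℝ) * c / m)‖ ≤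
      1 / (N : ℝ) ^ 5 := by
  set C : ℝ := ∑' j : ℤ, 1 / (j : ℝ) ^ 2 with hC
  have hC0 : 0 ≤ C := tsum_nonneg (fun j => by positivity)
  refine ⟨max (max ⌈Real.exp 9⌉₊ ⌈C⌉₊) 1, ?_⟩
  intro N hN m hm hmN c J hJ
  have hN1 : 1 ≤ N := le_trans (le_max_right _ _) hN
  have hN9 : Real.exp 9 ≤ N := by
    refine (Nat.le_ceil _).trans ?_
    exact_mod_cast (le_trans (le_trans (le_max_left _ _) (le_max_left _ _)) hN)
  have hNC : C ≤ N := by
    refine (Nat.le_ceil _).trans ?_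
    exact_mod_cast (le_trans (le_trans (le_max_right _ _) (le_max_left _ _)) hN)
  have hN0 : (0 : ℝ) < N := by exact_mod_cast hN1
  have hm0 : (0 : ℝ) < m := by exact_mod_cast hm
  have hl9 : 9 ≤ Real.log N := by
    rw [Real.le_log_iff_exp_le hN0]
    exact hN9
  rw [TaskL.reindex N m hm c, TaskL.poisson N m hN1 hm c, ← mul_sub, norm_mul,
    Complex.norm_real, Real.norm_eq_abs, abs_of_pos (by positivity)]
  have hexp : Real.exp (-(Real.log N) ^ 2) ≤ 1 / (N : ℝ) ^ 9 := by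
    have h1 : -(Real.log N) ^ 2 ≤ -(9 * Real.log N) := by nlinarith
    calc Real.exp (-(Real.log N) ^ 2) ≤ Real.exp (-(9 * Real.log N)) := Real.exp_le_exp.mpr h1
      _ = 1 / (N : ℝ) ^ 9 := by
        rw [Real.exp_neg, ← one_div]
        congr 1
        have h2 : (9 : ℝ) * Real.log N = ((9 : ℕ) : ℝ) * Real.log N := by norm_num
        rw [h2, Real.exp_nat_mul, Real.exp_log hN0]
  calc (N : ℝ) / m * _ ≤ (N : ℝ) / m *
        (Real.exp (-(Real.log N) ^ 2) * ((m : ℝ) / N) ^ 2 * C) := by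
        gcongr
        exact TaskL.tail N m hN1 hm c J hJ
    _ = Real.exp (-(Real.log N) ^ 2) * ((m : ℝ) / N) * C := by
        field_simp
    _ ≤ 1 / (N : ℝ) ^ 9 * ((N : ℝ) ^ 3 / N) * N := by
        gcongr
    _ = 1 / (N : ℝ) ^ 6 := by
        field_simp
    _ ≤ 1 / (N : ℝ) ^ 5 := by
        apply one_div_le_one_div_of_le (by positivity)
        apply pow_le_pow_right₀ (by exact_mod_cast hN1) (by norm_num)

end Pool.Agent.H442R2.KF
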