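import Pool.Agent.H442R2.KF.Defs

/-!
KF project, task S: summability.
-/

namespace Pool.Agent.H442R2.KF

open Finset

namespace TaskS

theorem summable_Wt (N : ℕ) (hN : 1 ≤ N) : Summable (fun n : ℤ => Wt N n) := by
  have h1 : Summable (fun n : ℤ => (N : ℝ) ^ 2 * (1 / (n : ℝ) ^ 2)) :=
    (Real.summable_one_div_int_pow.2 (by norm_num)).mul_left _
  refine Summable.of_norm_bounded_eventually h1 ?_
  rw [Filter.eventually_cofinite]
  refine (Set.finite_singleton (0 : ℤ)).subset ?_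
  intro n hn
  by_contra h0
  refine hn ?_
  have hn0 : (n : ℝ) ≠ 0 := by exact_mod_cast (show n ≠ 0 from h0)
  have hN0 : (0 : ℝ) < N := by exact_mod_cast hN
  unfold Wt
  rw [Real.norm_eq_abs, abs_of_pos (Real.exp_pos _)]
  have h2 : 0 < ((n : ℝ) / N) ^ 2 := by positivity
  have h3 : ((n : ℝ) / N) ^ 2 ≤ Real.exp (Real.pi * ((n : ℝ) / N) ^ 2) := by
    have := Real.add_one_le_exp (Real.pi * ((n : ℝ) / N) ^ 2)
    have := Real.pi_gt_three
    nlinarith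
  have h4 : -Real.pi * ((n : ℝ) / N) ^ 2 = -(Real.pi * ((n : ℝ) / N) ^ 2) := by ring
  rw [h4, Real.exp_neg]
  calc (Real.exp (Real.pi * ((n : ℝ) / N) ^ 2))⁻¹ ≤ (((n : ℝ) / N) ^ 2)⁻¹ :=
        inv_anti₀ h2 h3
    _ = (N : ℝ) ^ 2 * (1 / (n : ℝ) ^ 2) := by
        field_simp

theorem abs_rr_le (u : ℕ → ℝ) (X : ℕ) (a n : ℤ) : |rr u X a n| ≤ ∑ d ∈ Icc 1 X, |u d| := by
  have h0 : (0 : ℝ) ≤ ∑ d ∈ Icc 1 X, |u d| := Finset.sum_nonneg fun _ _ => abs_nonneg _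
  unfold rr
  split_ifs with h
  · simpa using h0
  · unfold rho
    refine (Finset.abs_sum_le_sum_abs _ _).trans ?_
    exact Finset.sum_le_sum_of_subset_of_nonneg (Finset.filter_subset _ _)
      fun _ _ _ => abs_nonneg _

end TaskS

/-- S (Summ.lean): summability -/
theorem summable_rr (N X : ℕ) (hN : 1 ≤ N) (u u' : ℕ → ℝ) (a a' : ℤ) :
    Summable (fun n : ℤ => Wt N n * (rr u X a n * rr u' X a' n)) := by
  have h1 := (TaskS.summable_Wt N hN).mul_right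
    ((∑ d ∈ Icc 1 X, |u d|) * ∑ d ∈ Icc 1 X, |u' d|)
  refine Summable.of_norm_bounded h1 fun n => ?_
  rw [Real.norm_eq_abs, abs_mul, abs_mul, abs_of_pos (show 0 < Wt N n from Real.exp_pos _)]
  refine mul_le_mul_of_nonneg_left ?_ (Real.exp_pos _).le
  exact mul_le_mul (TaskS.abs_rr_le _ _ _ _) (TaskS.abs_rr_le _ _ _ _) (abs_nonneg _)
    (Finset.sum_nonneg fun _ _ => abs_nonneg _)

end Pool.Agent.H442R2.KF
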