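import Pool.Agent.H442R2.KF.Defs

/-!
KF project, task J (helper519): the amplification argument.
-/

namespace Pool.Agent.H442R2.KF

open Finset

namespace TaskJ

lemma count_primes (M L κ k : ℕ) (hκ : 2 * M + 1 < (L + 1) ^ κ) (hk : 1 ≤ k)
    (hk2 : k ≤ 2 * M + 1) : ((PL L).filter (fun l => l ∣ k)).card ≤ κ := by
  by_contra hcon
  push Not at hcon
  set S := (PL L).filter (fun l => l ∣ k) with hS
  have h1 : ∏ l ∈ S, l ∣ k := by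
    apply Finset.prod_primes_dvd
    · intro l hl
      have := (mem_filter.mp hl).1
      unfold PL at this
      exact (mem_filter.mp this).2.prime
    · intro l hl
      exact (mem_filter.mp hl).2
  have h2 : (L + 1) ^ S.card ≤ ∏ l ∈ S, l := by
    rw [← Finset.prod_const]
    refine Finset.prod_le_prod (fun _ _ => Nat.zero_le _) (fun l hl => ?_)
    have := (mem_filter.mp hl).1
    unfold PL at this
    have h := mem_Ioc.mp (mem_filter.mp this).1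
    omega
  have h3 : ∏ l ∈ S, l ≤ k := Nat.le_of_dvd hk h1
  have h4 : (L + 1) ^ κ ≤ (L + 1) ^ S.card := Nat.pow_le_pow_right (by omega) hcon.le
  omega

/-- Cauchy Schwarz over the fibres. -/
lemma cs_fib {ι β : Type*} [DecidableEq β] [Fintype β] (T : Finset ι) (c : ι → β) (F : ι → ℂ) :
    ∃ R : ℝ, 0 ≤ R ∧
      (∑ x ∈ T, ∑ y ∈ T.filter (fun y => c y = c x), F x * (starRingEnd ℂ) (F y)) = (R : ℂ) ∧
      ‖∑ x ∈ T, F x‖ ^ 2 ≤ (Fintype.card β : ℝ) * R := by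
  refine ⟨∑ u : β, ‖∑ x ∈ T.filter (fun x => c x = u), F x‖ ^ 2,
    Finset.sum_nonneg (fun _ _ => by positivity), ?_, ?_⟩
  · push_cast
    rw [← Finset.sum_fiberwise T c]
    refine Finset.sum_congr rfl (fun u _ => ?_)
    rw [← Complex.mul_conj', map_sum, Finset.sum_mul_sum]
    refine Finset.sum_congr rfl (fun x hx => ?_)
    rw [(mem_filter.mp hx).2]
  · have h1 : ∑ x ∈ T, F x = ∑ u : β, ∑ x ∈ T.filter (fun x => c x = u), F x := by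
      rw [Finset.sum_fiberwise]
    rw [h1]
    calc ‖∑ u : β, ∑ x ∈ T.filter (fun x => c x = u), F x‖ ^ 2
        ≤ (∑ u : β, ‖∑ x ∈ T.filter (fun x => c x = u), F x‖) ^ 2 := by
          gcongr
          exact norm_sum_le _ _
      _ ≤ _ := by
        have := sq_sum_le_card_mul_sum_sq (s := (Finset.univ : Finset β))
          (f := fun u => ‖∑ x ∈ T.filter (fun x => c x = u), F x‖)
        simpa using this

/-- the condition on a quadruple -/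
def QQ (n l₁ l₂ m₁ m₂ : ℕ) : Prop :=
  (¬ l₁ ∣ n ∧ Nat.Coprime m₁ n ∧ ¬ l₁ ∣ m₁) ∧ (¬ l₂ ∣ n ∧ Nat.Coprime m₂ n ∧ ¬ l₂ ∣ m₂) ∧
    (n : ℤ) ∣ (l₂ : ℤ) * m₁ - (l₁ : ℤ) * m₂

instance (n l₁ l₂ m₁ m₂ : ℕ) : Decidable (QQ n l₁ l₂ m₁ m₂) := by
  unfold QQ; infer_instance

/-- one product -/
noncomputable def gg (ψ : ℝ → ℂ) (b : ℤ) (n m₁ m₂ : ℕ) : ℂ :=
  ψ ((m₁ : ℝ) * (n : ℝ)) * (starRingEnd ℂ) (ψ ((m₂ : ℝ) * (n : ℝ))) *
      (kf b m₁ n * (starRingEnd ℂ) (kf b m₂ n))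

lemma facts {M L l₁ l₂ m₁ m₂ n : ℕ} (h1 : m₁ ∈ Ioc M (2 * M + 1))
    (h2 : m₂ ∈ Ioc M (2 * M + 1)) (hn : n ∈ Ioc M (2 * M + 1)) (hl₁ : l₁ ∈ PL L)
    (hl₂ : l₂ ∈ PL L) (hne : l₁ ≠ l₂) (hQ : QQ n l₁ l₂ m₁ m₂) (t : ℤ)
    (ht : (l₂ : ℤ) * m₁ - (l₁ : ℤ) * m₂ = n * t) :
    t ∈ Icc (-(4 * L : ℤ)) (4 * L) ∧ t ≠ 0 ∧ ¬ (l₁ : ℤ) ∣ t ∧ ¬ (l₂ : ℤ) ∣ t ∧
      nu (l₁, l₂, t) m₁ m₂ = n ∧ adm M (l₁, l₂, t) m₁ m₂ := by
  unfold PL at hl₁ hl₂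
  have hp1 := (mem_filter.mp hl₁).2
  have hp2 := (mem_filter.mp hl₂).2
  have hb1 := mem_Ioc.mp (mem_filter.mp hl₁).1
  have hb2 := mem_Ioc.mp (mem_filter.mp hl₂).1
  have h1' := mem_Ioc.mp h1
  have h2' := mem_Ioc.mp h2
  have hn' := mem_Ioc.mp hn
  obtain ⟨⟨q1, q2, q3⟩, ⟨q4, q5, q6⟩, q7⟩ := hQ
  have key1 : ¬ (l₁ : ℤ) ∣ t := by
    intro hd
    have h3 : (l₁ : ℤ) ∣ (l₂ : ℤ) * m₁ := by
      have : (l₂ : ℤ) * m₁ = n * t + l₁ * m₂ := by linarith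
      rw [this]
      exact dvd_add (Dvd.dvd.mul_left hd _) (dvd_mul_right _ _)
    have h4 : l₁ ∣ l₂ * m₁ := by exact_mod_cast h3
    rcases (hp1.dvd_mul).mp h4 with h5 | h5
    · exact hne ((Nat.prime_dvd_prime_iff_eq hp1 hp2).mp h5)
    · exact q3 h5
  have key2 : ¬ (l₂ : ℤ) ∣ t := by
    intro hd
    have h3 : (l₂ : ℤ) ∣ (l₁ : ℤ) * m₂ := by
      have : (l₁ : ℤ) * m₂ = l₂ * m₁ - n * t := by linarith
      rw [this]
      exact dvd_sub (dvd_mul_right _ _) (Dvd.dvd.mul_left hd _)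
    have h4 : l₂ ∣ l₁ * m₂ := by exact_mod_cast h3
    rcases (hp2.dvd_mul).mp h4 with h5 | h5
    · exact hne ((Nat.prime_dvd_prime_iff_eq hp2 hp1).mp h5).symm
    · exact q6 h5
  have ht0 : t ≠ 0 := by
    rintro rfl
    exact key1 (dvd_zero _)
  have hnz : (n : ℤ) ≠ 0 := by
    have : 0 < n := by omega
    exact_mod_cast this.ne'
  have hnu : nu (l₁, l₂, t) m₁ m₂ = n := by
    unfold nu
    simp only
    rw [ht, Int.mul_ediv_cancel _ ht0]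
    exact Int.toNat_natCast n
  refine ⟨?_, ht0, key1, key2, hnu, ?_⟩
  · have e1 : (l₂ : ℤ) * m₁ ≤ 2 * L * (2 * M + 1) := by
      have a1 : (l₂ : ℤ) ≤ 2 * L := by exact_mod_cast hb2.2
      have a2 : (m₁ : ℤ) ≤ 2 * M + 1 := by exact_mod_cast h1'.2
      exact mul_le_mul a1 a2 (by positivity) (by positivity)
    have e2 : (l₁ : ℤ) * m₂ ≤ 2 * L * (2 * M + 1) := by
      have a1 : (l₁ : ℤ) ≤ 2 * L := by exact_mod_cast hb1.2
      have a2 : (m₂ : ℤ) ≤ 2 * M + 1 := by exact_mod_cast h2'.2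
      exact mul_le_mul a1 a2 (by positivity) (by positivity)
    have e3 : (0 : ℤ) ≤ (l₂ : ℤ) * m₁ := by positivity
    have e4 : (0 : ℤ) ≤ (l₁ : ℤ) * m₂ := by positivity
    have e5 : (M : ℤ) + 1 ≤ n := by
      have := hn'.1
      exact_mod_cast this
    have e6 : (0 : ℤ) ≤ M := by positivity
    have e7 : (0 : ℤ) ≤ L := by positivity
    rw [mem_Icc]
    constructor
    · by_contra hc
      push Not at hc
      have : (n : ℤ) * t ≤ ((M : ℤ) + 1) * (-(4 * L) - 1) := by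
        have h8 : t ≤ -(4 * L) - 1 := by omega
        nlinarith
      nlinarith
    · by_contra hc
      push Not at hc
      have : ((M : ℤ) + 1) * (4 * L + 1) ≤ (n : ℤ) * t := by
        have h8 : 4 * (L : ℤ) + 1 ≤ t := by omega
        nlinarith
      nlinarith
  · unfold adm
    simp only
    refine ⟨q6, ?_, ?_, ?_⟩
    · rw [ht]; exact dvd_mul_left _ _
    · rw [hnu]; exact hn
    · rw [hnu]
      refine Nat.Coprime.mul_right ?_ q5.symm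
      exact ((Nat.Prime.coprime_iff_not_dvd hp1).mpr q1).symm

lemma facts' {M L l₁ l₂ m₁ m₂ : ℕ} (hl₁ : l₁ ∈ PL L)
    (hl₂ : l₂ ∈ PL L) (t : ℤ) (ht0 : t ≠ 0) (ht1 : ¬ (l₁ : ℤ) ∣ t)
    (hadm : adm M (l₁, l₂, t) m₁ m₂) :
    nu (l₁, l₂, t) m₁ m₂ ∈ Ioc M (2 * M + 1) ∧ QQ (nu (l₁, l₂, t) m₁ m₂) l₁ l₂ m₁ m₂ ∧
    (l₂ : ℤ) * m₁ - (l₁ : ℤ) * m₂ = (nu (l₁, l₂, t) m₁ m₂ : ℤ) * t := by
  unfold PL at hl₁ hl₂
  have hp1 := (mem_filter.mp hl₁).2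
  have hp2 := (mem_filter.mp hl₂).2
  unfold adm at hadm
  simp only at hadm
  obtain ⟨a1, a2, a3, a4⟩ := hadm
  set n := nu (l₁, l₂, t) m₁ m₂ with hn
  have hn' := mem_Ioc.mp a3
  have hD : (l₂ : ℤ) * m₁ - (l₁ : ℤ) * m₂ = (n : ℤ) * t := by
    obtain ⟨s, hs⟩ := a2
    have h1 : n = (s : ℤ).toNat := by
      rw [hn]
      unfold nu
      simp only
      rw [hs, Int.mul_ediv_cancel_left _ ht0]
    have h2 : (n : ℤ) = s := by
      have h3 : 0 < s := by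
        by_contra hc
        push Not at hc
        have : s.toNat = 0 := Int.toNat_eq_zero.mpr hc
        omega
      rw [h1]
      exact Int.toNat_of_nonneg h3.le
    rw [hs, h2]; ring
  refine ⟨a3, ?_, hD⟩
  have c1 : ¬ l₁ ∣ n := by
    have := Nat.Coprime.coprime_mul_right_right a4
    exact (Nat.Prime.coprime_iff_not_dvd hp1).mp this.symm
  have c2 : Nat.Coprime m₂ n := (Nat.Coprime.coprime_mul_left_right a4).symm
  have hdv : ∀ r : ℕ, r ∣ n → (r : ℤ) ∣ (l₂ : ℤ) * m₁ → r = 1 := by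
    intro r hr1 hr2
    have h3 : (r : ℤ) ∣ (l₁ : ℤ) * m₂ := by
      have : (l₁ : ℤ) * m₂ = l₂ * m₁ - n * t := by linarith
      rw [this]
      exact dvd_sub hr2 (Dvd.dvd.mul_right (by exact_mod_cast hr1) _)
    have h4 : r ∣ l₁ * m₂ := by exact_mod_cast h3
    exact Nat.eq_one_of_dvd_coprimes a4 hr1 h4
  refine ⟨⟨c1, ?_, ?_⟩, ⟨?_, c2, a1⟩, ?_⟩
  · have := hdv (Nat.gcd m₁ n) (Nat.gcd_dvd_right _ _) (by
      have : ((Nat.gcd m₁ n : ℕ) : ℤ) ∣ (m₁ : ℤ) := by exact_mod_cast Nat.gcd_dvd_left _ _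
      exact Dvd.dvd.mul_left this _)
    exact this
  · intro hd
    have h3 : (l₁ : ℤ) ∣ (n : ℤ) * t := by
      rw [← hD]
      have : (l₁ : ℤ) ∣ (m₁ : ℤ) := by exact_mod_cast hd
      exact dvd_sub (Dvd.dvd.mul_left this _) (dvd_mul_right _ _)
    rcases (Nat.prime_iff_prime_int.mp hp1).dvd_or_dvd h3 with h5 | h5
    · exact c1 (by exact_mod_cast h5)
    · exact ht1 h5
  · intro hd
    have := hdv l₂ hd (dvd_mul_right _ _)
    exact hp2.one_lt.ne' this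
  · rw [hD]; exact dvd_mul_right _ _

lemma bij_lemma (M L : ℕ) (b : ℤ) (ψ : ℝ → ℂ) {m₁ m₂ : ℕ} (h1 : m₁ ∈ Ioc M (2 * M + 1))
    (h2 : m₂ ∈ Ioc M (2 * M + 1)) {l₁ l₂ : ℕ} (hl₁ : l₁ ∈ PL L) (hl₂ : l₂ ∈ PL L)
    (hne : l₁ ≠ l₂) :
    ∑ n ∈ (Ioc M (2 * M + 1)).filter (fun n => QQ n l₁ l₂ m₁ m₂), gg ψ b n m₁ m₂ =
    ∑ t ∈ (Icc (-(4 * L : ℤ)) (4 * L)).filter
      (fun t => t ≠ 0 ∧ ¬ (l₁ : ℤ) ∣ t ∧ ¬ (l₂ : ℤ) ∣ t), tm ψ b M (l₁, l₂, t) m₁ m₂ := by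
  have hR : ∑ t ∈ (Icc (-(4 * L : ℤ)) (4 * L)).filter
      (fun t => t ≠ 0 ∧ ¬ (l₁ : ℤ) ∣ t ∧ ¬ (l₂ : ℤ) ∣ t), tm ψ b M (l₁, l₂, t) m₁ m₂ =
      ∑ t ∈ ((Icc (-(4 * L : ℤ)) (4 * L)).filter
      (fun t => t ≠ 0 ∧ ¬ (l₁ : ℤ) ∣ t ∧ ¬ (l₂ : ℤ) ∣ t)).filter
        (fun t => adm M (l₁, l₂, t) m₁ m₂), gg ψ b (nu (l₁, l₂, t) m₁ m₂) m₁ m₂ := by
    conv_rhs => rw [Finset.sum_filter]
    rfl
  rw [hR]
  have hdiv : ∀ n ∈ (Ioc M (2 * M + 1)).filter (fun n => QQ n l₁ l₂ m₁ m₂),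
      (l₂ : ℤ) * m₁ - (l₁ : ℤ) * m₂ = n * (((l₂ : ℤ) * m₁ - (l₁ : ℤ) * m₂) / n) := by
    intro n hn
    have hQ := (mem_filter.mp hn).2
    exact (Int.mul_ediv_cancel' hQ.2.2).symm
  refine Finset.sum_nbij' (fun n : ℕ => ((l₂ : ℤ) * m₁ - (l₁ : ℤ) * m₂) / n)
    (fun t => nu (l₁, l₂, t) m₁ m₂) ?_ ?_ ?_ ?_ ?_
  · intro n hn
    have hn' := mem_filter.mp hn
    obtain ⟨f1, f2, f3, f4, f5, f6⟩ := facts h1 h2 hn'.1 hl₁ hl₂ hne hn'.2 _ (hdiv n hn)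
    rw [mem_filter, mem_filter]
    exact ⟨⟨f1, f2, f3, f4⟩, f6⟩
  · intro t ht
    rw [mem_filter, mem_filter] at ht
    obtain ⟨⟨f1, f2, f3, f4⟩, f6⟩ := ht
    obtain ⟨g1, g2, g3⟩ := facts' hl₁ hl₂ t f2 f3 f6
    exact mem_filter.mpr ⟨g1, g2⟩
  · intro n hn
    have hn' := mem_filter.mp hn
    obtain ⟨f1, f2, f3, f4, f5, f6⟩ := facts h1 h2 hn'.1 hl₁ hl₂ hne hn'.2 _ (hdiv n hn)
    exact f5
  · intro t ht
    rw [mem_filter, mem_filter] at ht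
    obtain ⟨⟨f1, f2, f3, f4⟩, f6⟩ := ht
    obtain ⟨g1, g2, g3⟩ := facts' hl₁ hl₂ t f2 f3 f6
    have hnz : ((nu (l₁, l₂, t) m₁ m₂ : ℕ) : ℤ) ≠ 0 := by
      have := (mem_Ioc.mp g1).1
      have : 0 < nu (l₁, l₂, t) m₁ m₂ := by omega
      exact_mod_cast this.ne'
    show ((l₂ : ℤ) * m₁ - (l₁ : ℤ) * m₂) / ((nu (l₁, l₂, t) m₁ m₂ : ℕ) : ℤ) = t
    rw [g3, Int.mul_ediv_cancel_left _ hnz]
  · intro n hn
    have hn' := mem_filter.mp hn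
    obtain ⟨f1, f2, f3, f4, f5, f6⟩ := facts h1 h2 hn'.1 hl₁ hl₂ hne hn'.2 _ (hdiv n hn)
    show gg ψ b n m₁ m₂ = gg ψ b (nu (l₁, l₂, ((l₂ : ℤ) * m₁ - (l₁ : ℤ) * m₂) / n) m₁ m₂) m₁ m₂
    rw [f5]

/-- the sum over the parameters -/
lemma Ker_eq (M L : ℕ) (b : ℤ) (ψ : ℝ → ℂ) {m₁ m₂ : ℕ} (h1 : m₁ ∈ Ioc M (2 * M + 1))
    (h2 : m₂ ∈ Ioc M (2 * M + 1)) :
    Ker ψ b M L m₁ m₂ = ∑ l₁ ∈ PL L, ∑ l₂ ∈ PL L, ∑ n ∈ Ioc M (2 * M + 1),
      (if l₁ ≠ l₂ ∧ QQ n l₁ l₂ m₁ m₂ then gg ψ b n m₁ m₂ else 0) := by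
  unfold Ker Par
  rw [Finset.sum_filter, Finset.sum_product]
  refine Finset.sum_congr rfl (fun l₁ hl₁ => ?_)
  rw [Finset.sum_product]
  refine Finset.sum_congr rfl (fun l₂ hl₂ => ?_)
  by_cases hne : l₁ = l₂
  · simp [hne]
  · have := bij_lemma M L b ψ h1 h2 hl₁ hl₂ hne
    rw [Finset.sum_filter, Finset.sum_filter] at this
    simp only [ne_eq, hne, not_false_eq_true, true_and] at this ⊢
    exact this.symm

/-- the summand -/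
noncomputable def ff (ψ : ℝ → ℂ) (b : ℤ) (α : ℕ → ℂ) (n m : ℕ) : ℂ :=
  α m * ψ ((m : ℝ) * n) * kf b m n

lemma norm_ff {M : ℕ} {V : ℝ} {ψ : ℝ → ℂ} (hψ : Wei M V ψ) (b : ℤ) {α : ℕ → ℂ}
    (hα : ∀ m, ‖α m‖ ≤ 1) {n m : ℕ} (hn : n ∈ Ioc M (2 * M + 1)) (hm : m ∈ Ioc M (2 * M + 1)) :
    ‖ff ψ b α n m‖ ≤ 1 := by
  unfold ff
  rw [norm_mul, norm_mul, norm_kf, mul_one]
  have h1 : ‖ψ ((m : ℝ) * n)‖ ≤ 1 := by
    apply hψ.bd
    have a1 : (M : ℝ) ≤ m := by exact_mod_cast (mem_Ioc.mp hm).1.le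
    have a2 : (M : ℝ) ≤ n := by exact_mod_cast (mem_Ioc.mp hn).1.le
    rw [sq]
    exact mul_le_mul a1 a2 (by positivity) (by positivity)
  calc ‖α m‖ * ‖ψ ((m : ℝ) * n)‖ ≤ 1 * 1 := mul_le_mul (hα m) h1 (norm_nonneg _) zero_le_one
    _ = 1 := one_mul 1

/-- pairs for `n` -/
def TT (M L n : ℕ) : Finset (ℕ × ℕ) :=
  (PL L ×ˢ Ioc M (2 * M + 1)).filter (fun x => ¬ x.1 ∣ n ∧ Nat.Coprime x.2 n ∧ ¬ x.1 ∣ x.2)

lemma card_I (M : ℕ) : (Ioc M (2 * M + 1)).card = M + 1 := by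
  rw [Nat.card_Ioc]; omega

/-- the remainder of the amplification -/
lemma rem_bound (M L κ : ℕ) (hκ : 2 * M + 1 < (L + 1) ^ κ) (V : ℝ)
    (ψ : ℝ → ℂ) (hψ : Wei M V ψ) (b : ℤ) (α : ℕ → ℂ) (hα : ∀ m, ‖α m‖ ≤ 1) {n : ℕ}
    (hn : n ∈ Ioc M (2 * M + 1)) :
    ‖((PL L).card : ℂ) * (∑ m ∈ (Ioc M (2 * M + 1)).filter (fun m => Nat.Coprime m n),
      ff ψ b α n m) - ∑ x ∈ TT M L n, ff ψ b α n x.2‖ ≤ 2 * κ * ((M : ℝ) + 1) := by
  set X := ∑ m ∈ (Ioc M (2 * M + 1)).filter (fun m => Nat.Coprime m n), ff ψ b α n m with hX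
  have hXn : ‖X‖ ≤ (M : ℝ) + 1 := by
    rw [hX]
    refine (norm_sum_le _ _).trans ?_
    calc ∑ m ∈ (Ioc M (2 * M + 1)).filter (fun m => Nat.Coprime m n), ‖ff ψ b α n m‖
        ≤ ∑ m ∈ (Ioc M (2 * M + 1)).filter (fun m => Nat.Coprime m n), (1 : ℝ) :=
          Finset.sum_le_sum (fun m hm => norm_ff hψ b hα hn (mem_filter.mp hm).1)
      _ = (((Ioc M (2 * M + 1)).filter (fun m => Nat.Coprime m n)).card : ℝ) := by simp
      _ ≤ ((Ioc M (2 * M + 1)).card : ℝ) := by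
          exact_mod_cast Finset.card_filter_le _ _
      _ = (M : ℝ) + 1 := by rw [card_I]; push_cast; ring
  have e1 : ((PL L).card : ℂ) * X = ∑ l ∈ (PL L).filter (fun l => l ∣ n), X +
      ∑ l ∈ (PL L).filter (fun l => ¬ l ∣ n), X := by
    rw [Finset.sum_filter_add_sum_filter_not]
    simp
  have e2 : ∀ l, X = ∑ m ∈ ((Ioc M (2 * M + 1)).filter (fun m => Nat.Coprime m n)).filter
        (fun m => l ∣ m), ff ψ b α n m +
      ∑ m ∈ ((Ioc M (2 * M + 1)).filter (fun m => Nat.Coprime m n)).filter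
        (fun m => ¬ l ∣ m), ff ψ b α n m := by
    intro l
    rw [Finset.sum_filter_add_sum_filter_not]
  have e3 : ∑ x ∈ TT M L n, ff ψ b α n x.2 = ∑ l ∈ (PL L).filter (fun l => ¬ l ∣ n),
      ∑ m ∈ ((Ioc M (2 * M + 1)).filter (fun m => Nat.Coprime m n)).filter
        (fun m => ¬ l ∣ m), ff ψ b α n m := by
    unfold TT
    rw [Finset.sum_filter, Finset.sum_product, Finset.sum_filter]
    refine Finset.sum_congr rfl (fun l _ => ?_)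
    by_cases hl : l ∣ n
    · simp [hl]
    · simp only [hl, not_false_eq_true, true_and, if_true]
      rw [Finset.filter_filter, Finset.sum_filter]
  have e4 : ∑ l ∈ (PL L).filter (fun l => ¬ l ∣ n), X =
      ∑ l ∈ (PL L).filter (fun l => ¬ l ∣ n),
        ∑ m ∈ ((Ioc M (2 * M + 1)).filter (fun m => Nat.Coprime m n)).filter
        (fun m => l ∣ m), ff ψ b α n m + ∑ x ∈ TT M L n, ff ψ b α n x.2 := by
    rw [e3, ← Finset.sum_add_distrib]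
    exact Finset.sum_congr rfl (fun l _ => e2 l)
  rw [e1, e4]
  have e5 : ∑ l ∈ (PL L).filter (fun l => l ∣ n), X +
      (∑ l ∈ (PL L).filter (fun l => ¬ l ∣ n),
        ∑ m ∈ ((Ioc M (2 * M + 1)).filter (fun m => Nat.Coprime m n)).filter
        (fun m => l ∣ m), ff ψ b α n m + ∑ x ∈ TT M L n, ff ψ b α n x.2) -
      ∑ x ∈ TT M L n, ff ψ b α n x.2 = ∑ l ∈ (PL L).filter (fun l => l ∣ n), X +
      ∑ l ∈ (PL L).filter (fun l => ¬ l ∣ n),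
        ∑ m ∈ ((Ioc M (2 * M + 1)).filter (fun m => Nat.Coprime m n)).filter
        (fun m => l ∣ m), ff ψ b α n m := by ring
  rw [e5]
  have hn' := mem_Ioc.mp hn
  have b1 : ‖∑ l ∈ (PL L).filter (fun l => l ∣ n), X‖ ≤ κ * ((M : ℝ) + 1) := by
    rw [Finset.sum_const, nsmul_eq_mul, norm_mul, Complex.norm_natCast]
    refine mul_le_mul ?_ hXn (norm_nonneg _) (by positivity)
    exact_mod_cast count_primes M L κ n hκ (by omega) hn'.2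
  have b2 : ‖∑ l ∈ (PL L).filter (fun l => ¬ l ∣ n),
        ∑ m ∈ ((Ioc M (2 * M + 1)).filter (fun m => Nat.Coprime m n)).filter
        (fun m => l ∣ m), ff ψ b α n m‖ ≤ κ * ((M : ℝ) + 1) := by
    refine (norm_sum_le _ _).trans ?_
    calc ∑ l ∈ (PL L).filter (fun l => ¬ l ∣ n),
          ‖∑ m ∈ ((Ioc M (2 * M + 1)).filter (fun m => Nat.Coprime m n)).filter
            (fun m => l ∣ m), ff ψ b α n m‖
        ≤ ∑ l ∈ (PL L).filter (fun l => ¬ l ∣ n),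
          ∑ m ∈ (Ioc M (2 * M + 1)).filter (fun m => l ∣ m), (1 : ℝ) := by
          refine Finset.sum_le_sum (fun l _ => ?_)
          refine (norm_sum_le _ _).trans ?_
          rw [Finset.filter_filter]
          calc ∑ m ∈ (Ioc M (2 * M + 1)).filter (fun m => Nat.Coprime m n ∧ l ∣ m),
                ‖ff ψ b α n m‖ ≤
              ∑ m ∈ (Ioc M (2 * M + 1)).filter (fun m => Nat.Coprime m n ∧ l ∣ m), (1 : ℝ) :=
                Finset.sum_le_sum (fun m hm => norm_ff hψ b hα hn (mem_filter.mp hm).1)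
            _ ≤ _ := by
                refine Finset.sum_le_sum_of_subset_of_nonneg ?_ (fun _ _ _ => zero_le_one)
                intro m hm
                rw [mem_filter] at hm ⊢
                exact ⟨hm.1, hm.2.2⟩
      _ ≤ ∑ l ∈ PL L, ∑ m ∈ (Ioc M (2 * M + 1)).filter (fun m => l ∣ m), (1 : ℝ) := by
          refine Finset.sum_le_sum_of_subset_of_nonneg (Finset.filter_subset _ _) ?_
          intro _ _ _
          exact Finset.sum_nonneg (fun _ _ => zero_le_one)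
      _ = ∑ m ∈ Ioc M (2 * M + 1), ∑ l ∈ (PL L).filter (fun l => l ∣ m), (1 : ℝ) := by
          simp_rw [Finset.sum_filter]
          exact Finset.sum_comm
      _ ≤ ∑ m ∈ Ioc M (2 * M + 1), (κ : ℝ) := by
          refine Finset.sum_le_sum (fun m hm => ?_)
          have hm' := mem_Ioc.mp hm
          have := count_primes M L κ m hκ (by omega) hm'.2
          simp only [sum_const, nsmul_eq_mul, mul_one]
          exact_mod_cast this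
      _ = κ * ((M : ℝ) + 1) := by
          rw [Finset.sum_const, card_I, nsmul_eq_mul]
          push_cast; ring
  refine (norm_add_le _ _).trans ((add_le_add b1 b2).trans (le_of_eq ?_))
  ring

/-- the class map -/
noncomputable def cc (n : ℕ) (x : ℕ × ℕ) : ZMod n := (x.2 : ZMod n) * (x.1 : ZMod n)⁻¹

lemma cc_iff {n l₁ l₂ m₁ m₂ : ℕ} (hl₁ : l₁.Prime) (hl₂ : l₂.Prime) (h1 : ¬ l₁ ∣ n)
    (h2 : ¬ l₂ ∣ n) : cc n (l₂, m₂) = cc n (l₁, m₁) ↔ (n : ℤ) ∣ (l₂ : ℤ) * m₁ - (l₁ : ℤ) * m₂ := by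
  unfold cc
  have u1 : (l₁ : ZMod n) * (l₁ : ZMod n)⁻¹ = 1 :=
    ZMod.coe_mul_inv_eq_one l₁ ((Nat.Prime.coprime_iff_not_dvd hl₁).mpr h1)
  have u2 : (l₂ : ZMod n) * (l₂ : ZMod n)⁻¹ = 1 :=
    ZMod.coe_mul_inv_eq_one l₂ ((Nat.Prime.coprime_iff_not_dvd hl₂).mpr h2)
  simp only
  rw [← ZMod.intCast_zmod_eq_zero_iff_dvd]
  push_cast
  rw [sub_eq_zero]
  constructor
  · intro h
    calc (l₂ : ZMod n) * m₁ = (l₂ : ZMod n) * m₁ * ((l₁ : ZMod n) * (l₁ : ZMod n)⁻¹) := by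
          rw [u1, mul_one]
      _ = (l₂ : ZMod n) * l₁ * (m₁ * (l₁ : ZMod n)⁻¹) := by ring
      _ = (l₂ : ZMod n) * l₁ * (m₂ * (l₂ : ZMod n)⁻¹) := by rw [h]
      _ = (l₁ : ZMod n) * m₂ * ((l₂ : ZMod n) * (l₂ : ZMod n)⁻¹) := by ring
      _ = (l₁ : ZMod n) * m₂ := by rw [u2, mul_one]
  · intro h
    calc (m₂ : ZMod n) * (l₂ : ZMod n)⁻¹ = (m₂ : ZMod n) * (l₂ : ZMod n)⁻¹ *
          ((l₁ : ZMod n) * (l₁ : ZMod n)⁻¹) := by rw [u1, mul_one]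
      _ = ((l₁ : ZMod n) * m₂) * ((l₂ : ZMod n)⁻¹ * (l₁ : ZMod n)⁻¹) := by ring
      _ = ((l₂ : ZMod n) * m₁) * ((l₂ : ZMod n)⁻¹ * (l₁ : ZMod n)⁻¹) := by rw [h]
      _ = (m₁ : ZMod n) * (l₁ : ZMod n)⁻¹ * ((l₂ : ZMod n) * (l₂ : ZMod n)⁻¹) := by ring
      _ = (m₁ : ZMod n) * (l₁ : ZMod n)⁻¹ := by rw [u2, mul_one]

/-- off-diagonal part -/
noncomputable def Off (M L : ℕ) (b : ℤ) (ψ : ℝ → ℂ) (α : ℕ → ℂ) (n : ℕ) : ℂ :=
  ∑ x ∈ TT M L n, ∑ y ∈ ((TT M L n).filter (fun y => cc n y = cc n x)).filter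
    (fun y => x.1 ≠ y.1), ff ψ b α n x.2 * (starRingEnd ℂ) (ff ψ b α n y.2)

/-- diagonal part -/
noncomputable def Dia (M L : ℕ) (b : ℤ) (ψ : ℝ → ℂ) (α : ℕ → ℂ) (n : ℕ) : ℂ :=
  ∑ x ∈ TT M L n, ∑ y ∈ ((TT M L n).filter (fun y => cc n y = cc n x)).filter
    (fun y => ¬ x.1 ≠ y.1), ff ψ b α n x.2 * (starRingEnd ℂ) (ff ψ b α n y.2)

lemma mem_TT {M L n : ℕ} {x : ℕ × ℕ} (hx : x ∈ TT M L n) : x.1 ∈ PL L ∧
    x.2 ∈ Ioc M (2 * M + 1) ∧ ¬ x.1 ∣ n ∧ Nat.Coprime x.2 n ∧ ¬ x.1 ∣ x.2 := by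
  unfold TT at hx
  rw [mem_filter, mem_product] at hx
  exact ⟨hx.1.1, hx.1.2, hx.2⟩

lemma dia_bound (M L : ℕ) (V : ℝ)
    (ψ : ℝ → ℂ) (hψ : Wei M V ψ) (b : ℤ) (α : ℕ → ℂ) (hα : ∀ m, ‖α m‖ ≤ 1) {n : ℕ}
    (hn : n ∈ Ioc M (2 * M + 1)) : ‖Dia M L b ψ α n‖ ≤ (PL L).card * ((M : ℝ) + 1) := by
  unfold Dia
  refine (norm_sum_le _ _).trans ?_
  calc ∑ x ∈ TT M L n, ‖∑ y ∈ ((TT M L n).filter (fun y => cc n y = cc n x)).filter
          (fun y => ¬ x.1 ≠ y.1), ff ψ b α n x.2 * (starRingEnd ℂ) (ff ψ b α n y.2)‖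
      ≤ ∑ x ∈ TT M L n, (1 : ℝ) := by
        refine Finset.sum_le_sum (fun x hx => ?_)
        have hx' := mem_TT hx
        have hsub : ((TT M L n).filter (fun y => cc n y = cc n x)).filter
            (fun y => ¬ x.1 ≠ y.1) ⊆ {x} := by
          intro y hy
          rw [mem_filter, mem_filter] at hy
          obtain ⟨⟨hy1, hy2⟩, hy3⟩ := hy
          push Not at hy3
          have hy' := mem_TT hy1
          have hp : x.1.Prime := by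
            have := hx'.1; unfold PL at this; exact (mem_filter.mp this).2
          have hp' : y.1.Prime := by
            have := hy'.1; unfold PL at this; exact (mem_filter.mp this).2
          have h3 := (cc_iff (m₁ := x.2) (m₂ := y.2) hp hp' hx'.2.2.1 hy'.2.2.1).mp hy2
          rw [← hy3, ← mul_sub] at h3
          have hcop : IsCoprime (n : ℤ) (x.1 : ℤ) := by
            rw [Nat.isCoprime_iff_coprime]
            exact ((Nat.Prime.coprime_iff_not_dvd hp).mpr hx'.2.2.1).symm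
          have h4 : (n : ℤ) ∣ (x.2 : ℤ) - y.2 := hcop.dvd_of_dvd_mul_left h3
          have h5 : (x.2 : ℤ) - y.2 = 0 := by
            apply Int.eq_zero_of_abs_lt_dvd h4
            have a1 := mem_Ioc.mp hx'.2.1
            have a2 := mem_Ioc.mp hy'.2.1
            have a3 := mem_Ioc.mp hn
            rw [abs_lt]
            constructor <;> omega
          rw [mem_singleton]
          refine Prod.ext hy3.symm ?_
          omega
        refine (norm_sum_le _ _).trans ?_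
        calc ∑ y ∈ ((TT M L n).filter (fun y => cc n y = cc n x)).filter
                (fun y => ¬ x.1 ≠ y.1), ‖ff ψ b α n x.2 * (starRingEnd ℂ) (ff ψ b α n y.2)‖
            ≤ ∑ y ∈ ({x} : Finset (ℕ × ℕ)), ‖ff ψ b α n x.2 * (starRingEnd ℂ) (ff ψ b α n y.2)‖ :=
              Finset.sum_le_sum_of_subset_of_nonneg hsub (fun _ _ _ => norm_nonneg _)
          _ ≤ 1 := by
              rw [Finset.sum_singleton, norm_mul, RCLike.norm_conj]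
              have := norm_ff hψ b hα hn hx'.2.1
              calc ‖ff ψ b α n x.2‖ * ‖ff ψ b α n x.2‖ ≤ 1 * 1 :=
                    mul_le_mul this this (norm_nonneg _) zero_le_one
                _ = 1 := one_mul 1
    _ = ((TT M L n).card : ℝ) := by simp
    _ ≤ ((PL L ×ˢ Ioc M (2 * M + 1)).card : ℝ) := by
        unfold TT
        exact_mod_cast Finset.card_filter_le _ _
    _ = (PL L).card * ((M : ℝ) + 1) := by
        rw [Finset.card_product, card_I]; push_cast; ring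

lemma off_eq (M L : ℕ) (b : ℤ) (ψ : ℝ → ℂ) (α : ℕ → ℂ) (n : ℕ) :
    Off M L b ψ α n = ∑ m₁ ∈ Ioc M (2 * M + 1), ∑ m₂ ∈ Ioc M (2 * M + 1),
      α m₁ * (starRingEnd ℂ) (α m₂) * ∑ l₁ ∈ PL L, ∑ l₂ ∈ PL L,
        (if l₁ ≠ l₂ ∧ QQ n l₁ l₂ m₁ m₂ then gg ψ b n m₁ m₂ else 0) := by
  have h1 : Off M L b ψ α n = ∑ l₁ ∈ PL L, ∑ m₁ ∈ Ioc M (2 * M + 1), ∑ l₂ ∈ PL L,
      ∑ m₂ ∈ Ioc M (2 * M + 1), α m₁ * (starRingEnd ℂ) (α m₂) *
        (if l₁ ≠ l₂ ∧ QQ n l₁ l₂ m₁ m₂ then gg ψ b n m₁ m₂ else 0) := by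
    unfold Off
    conv_lhs => unfold TT
    rw [Finset.sum_filter, Finset.sum_product]
    refine Finset.sum_congr rfl (fun l₁ hl₁ => ?_)
    refine Finset.sum_congr rfl (fun m₁ hm₁ => ?_)
    have hp1 : l₁.Prime := by
      have := hl₁; unfold PL at this; exact (mem_filter.mp this).2
    simp only
    by_cases hc : ¬ l₁ ∣ n ∧ Nat.Coprime m₁ n ∧ ¬ l₁ ∣ m₁
    · rw [if_pos hc, Finset.filter_filter, Finset.filter_filter, Finset.sum_filter,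
        Finset.sum_product]
      refine Finset.sum_congr rfl (fun l₂ hl₂ => ?_)
      refine Finset.sum_congr rfl (fun m₂ hm₂ => ?_)
      have hp2 : l₂.Prime := by
        have := hl₂; unfold PL at this; exact (mem_filter.mp this).2
      simp only
      by_cases hd : ¬ l₂ ∣ n ∧ Nat.Coprime m₂ n ∧ ¬ l₂ ∣ m₂
      · have hiff := cc_iff (m₁ := m₁) (m₂ := m₂) hp1 hp2 hc.1 hd.1
        by_cases hne : l₁ ≠ l₂
        · by_cases hcc : cc n (l₂, m₂) = cc n (l₁, m₁)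
          · rw [if_pos ⟨hd, hcc, hne⟩, if_pos ⟨hne, hc, hd, hiff.mp hcc⟩]
            unfold ff gg
            simp only [map_mul]
            ring
          · rw [if_neg, if_neg, mul_zero]
            · intro h; exact hcc (hiff.mpr h.2.2.2)
            · intro h; exact hcc h.2.1
        · rw [if_neg, if_neg, mul_zero]
          · intro h; exact hne h.1
          · intro h; exact hne h.2.2
      · rw [if_neg, if_neg, mul_zero]
        · intro h; exact hd h.2.2.1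
        · intro h; exact hd h.1
    · rw [if_neg hc]
      symm
      refine Finset.sum_eq_zero (fun l₂ _ => Finset.sum_eq_zero (fun m₂ _ => ?_))
      rw [if_neg, mul_zero]
      intro h
      exact hc h.2.1
  rw [h1, Finset.sum_comm]
  refine Finset.sum_congr rfl (fun m₁ _ => ?_)
  simp_rw [Finset.mul_sum]
  rw [Finset.sum_comm' (s := Ioc M (2 * M + 1)) (t' := PL L) (s' := fun _ => Ioc M (2 * M + 1))
    (t := fun _ => PL L)]
  · refine Finset.sum_congr rfl (fun l₁ _ => ?_)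
    rw [Finset.sum_comm]
  · intro x y
    exact ⟨fun h => ⟨h.1, h.2⟩, fun h => ⟨h.1, h.2⟩⟩

lemma off_total (M L : ℕ) (b : ℤ) (ψ : ℝ → ℂ) (α : ℕ → ℂ) (hα : ∀ m, ‖α m‖ ≤ 1) :
    ‖∑ n ∈ Ioc M (2 * M + 1), Off M L b ψ α n‖ ≤ ((M : ℝ) + 1) *
        Real.sqrt (∑ m₁ ∈ Ioc M (2 * M + 1), ∑ m₂ ∈ Ioc M (2 * M + 1),
          ‖Ker ψ b M L m₁ m₂‖ ^ 2) := by
  have h1 : ∑ n ∈ Ioc M (2 * M + 1), Off M L b ψ α n =
      ∑ m₁ ∈ Ioc M (2 * M + 1), ∑ m₂ ∈ Ioc M (2 * M + 1),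
        α m₁ * (starRingEnd ℂ) (α m₂) * Ker ψ b M L m₁ m₂ := by
    simp_rw [off_eq]
    rw [Finset.sum_comm]
    refine Finset.sum_congr rfl (fun m₁ hm₁ => ?_)
    rw [Finset.sum_comm]
    refine Finset.sum_congr rfl (fun m₂ hm₂ => ?_)
    rw [← Finset.mul_sum, Ker_eq M L b ψ hm₁ hm₂, Finset.sum_comm]
    congr 1
    refine Finset.sum_congr rfl (fun l₁ _ => ?_)
    rw [Finset.sum_comm]
  rw [h1]
  set I := Ioc M (2 * M + 1) with hI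
  have h2 : ‖∑ m₁ ∈ I, ∑ m₂ ∈ I, α m₁ * (starRingEnd ℂ) (α m₂) * Ker ψ b M L m₁ m₂‖ ≤
      ∑ x ∈ I ×ˢ I, ‖Ker ψ b M L x.1 x.2‖ := by
    rw [Finset.sum_product]
    refine (norm_sum_le _ _).trans (Finset.sum_le_sum (fun m₁ _ => ?_))
    refine (norm_sum_le _ _).trans (Finset.sum_le_sum (fun m₂ _ => ?_))
    rw [norm_mul, norm_mul, RCLike.norm_conj]
    have : ‖α m₁‖ * ‖α m₂‖ ≤ 1 := by
      calc ‖α m₁‖ * ‖α m₂‖ ≤ 1 * 1 := mul_le_mul (hα _) (hα _) (norm_nonneg _) zero_le_one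
        _ = 1 := one_mul 1
    calc ‖α m₁‖ * ‖α m₂‖ * ‖Ker ψ b M L m₁ m₂‖ ≤ 1 * ‖Ker ψ b M L m₁ m₂‖ :=
          mul_le_mul_of_nonneg_right this (norm_nonneg _)
      _ = _ := one_mul _
  refine h2.trans ?_
  have h3 := sq_sum_le_card_mul_sum_sq (s := I ×ˢ I) (f := fun x => ‖Ker ψ b M L x.1 x.2‖)
  have h4 : ((I ×ˢ I).card : ℝ) = ((M : ℝ) + 1) ^ 2 := by
    rw [Finset.card_product, hI, card_I]; push_cast; ring
  rw [h4] at h3
  have h5 : ∑ x ∈ I ×ˢ I, ‖Ker ψ b M L x.1 x.2‖ ^ 2 =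
      ∑ m₁ ∈ I, ∑ m₂ ∈ I, ‖Ker ψ b M L m₁ m₂‖ ^ 2 := by rw [Finset.sum_product]
  rw [h5] at h3
  have h6 : 0 ≤ ∑ x ∈ I ×ˢ I, ‖Ker ψ b M L x.1 x.2‖ :=
    Finset.sum_nonneg (fun _ _ => norm_nonneg _)
  calc ∑ x ∈ I ×ˢ I, ‖Ker ψ b M L x.1 x.2‖
      = Real.sqrt ((∑ x ∈ I ×ˢ I, ‖Ker ψ b M L x.1 x.2‖) ^ 2) := (Real.sqrt_sq h6).symm
    _ ≤ Real.sqrt (((M : ℝ) + 1) ^ 2 * ∑ m₁ ∈ I, ∑ m₂ ∈ I, ‖Ker ψ b M L m₁ m₂‖ ^ 2) :=
        Real.sqrt_le_sqrt h3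
    _ = _ := by
        rw [Real.sqrt_mul (by positivity), Real.sqrt_sq (by positivity)]

end TaskJ

open TaskJ in
/-- J (Amp.lean): amplification -/
theorem ampl (M L κ : ℕ) (hM : 1 ≤ M) (hL : 1 ≤ L) (hκ : 2 * M + 1 < (L + 1) ^ κ) (V : ℝ)
    (ψ : ℝ → ℂ) (hψ : Wei M V ψ) (b : ℤ) (α : ℕ → ℂ) (hα : ∀ m, ‖α m‖ ≤ 1) :
    ((PL L).card : ℝ) ^ 2 * ∑ n ∈ Ioc M (2 * M + 1),
        ‖∑ m ∈ (Ioc M (2 * M + 1)).filter (fun m => Nat.Coprime m n),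
          α m * ψ ((m : ℝ) * n) * kf b m n‖ ^ 2 ≤
      2 * (2 * M + 1) * (((M : ℝ) + 1) ^ 2 * (PL L).card + (M + 1) *
        Real.sqrt (∑ m₁ ∈ Ioc M (2 * M + 1), ∑ m₂ ∈ Ioc M (2 * M + 1),
          ‖Ker ψ b M L m₁ m₂‖ ^ 2)) + 8 * (κ : ℝ) ^ 2 * ((M : ℝ) + 1) ^ 3 := by
  set I := Ioc M (2 * M + 1) with hI
  -- one `n`
  have hone : ∀ n ∈ I, ∃ R : ℝ, 0 ≤ R ∧ Off M L b ψ α n + Dia M L b ψ α n = (R : ℂ) ∧
      ‖∑ x ∈ TT M L n, ff ψ b α n x.2‖ ^ 2 ≤ (2 * M + 1) * R := by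
    intro n hn
    have hn' := mem_Ioc.mp hn
    have : NeZero n := ⟨by omega⟩
    obtain ⟨R, hR0, hR1, hR2⟩ := cs_fib (TT M L n) (cc n) (fun x => ff ψ b α n x.2)
    refine ⟨R, hR0, ?_, ?_⟩
    · rw [← hR1]
      unfold Off Dia
      rw [← Finset.sum_add_distrib]
      refine Finset.sum_congr rfl (fun x _ => ?_)
      rw [Finset.sum_filter_add_sum_filter_not]
    · refine hR2.trans ?_
      refine mul_le_mul_of_nonneg_right ?_ hR0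
      rw [ZMod.card]
      exact_mod_cast hn'.2
  choose! R hR0 hR1 hR2 using hone
  have hX : ∀ n ∈ I, ((PL L).card : ℝ) ^ 2 *
      ‖∑ m ∈ I.filter (fun m => Nat.Coprime m n), α m * ψ ((m : ℝ) * n) * kf b m n‖ ^ 2 ≤
      2 * ((2 * M + 1) * R n) + 8 * (κ : ℝ) ^ 2 * ((M : ℝ) + 1) ^ 2 := by
    intro n hn
    have hrem := rem_bound M L κ hκ V ψ hψ b α hα hn
    set X := ∑ m ∈ I.filter (fun m => Nat.Coprime m n), ff ψ b α n m with hXd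
    have hXe : ∑ m ∈ I.filter (fun m => Nat.Coprime m n), α m * ψ ((m : ℝ) * n) * kf b m n = X := rfl
    rw [hXe]
    set B := ∑ x ∈ TT M L n, ff ψ b α n x.2 with hB
    have h1 : ((PL L).card : ℝ) * ‖X‖ ≤ ‖B‖ + 2 * κ * ((M : ℝ) + 1) := by
      have h2 : ((PL L).card : ℝ) * ‖X‖ = ‖((PL L).card : ℂ) * X‖ := by
        rw [norm_mul, Complex.norm_natCast]
      rw [h2]
      have h3 : ((PL L).card : ℂ) * X = B + (((PL L).card : ℂ) * X - B) := by ring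
      rw [h3]
      exact (norm_add_le _ _).trans (add_le_add le_rfl hrem)
    have h4 : 0 ≤ ((PL L).card : ℝ) * ‖X‖ := by positivity
    have h5 : (((PL L).card : ℝ) * ‖X‖) ^ 2 ≤ (‖B‖ + 2 * κ * ((M : ℝ) + 1)) ^ 2 :=
      pow_le_pow_left₀ h4 h1 2
    have h6 := hR2 n hn
    have h7 : (‖B‖ + 2 * κ * ((M : ℝ) + 1)) ^ 2 ≤ 2 * ‖B‖ ^ 2 + 2 * (2 * κ * ((M : ℝ) + 1)) ^ 2 := by
      nlinarith [sq_nonneg (‖B‖ - 2 * κ * ((M : ℝ) + 1))]
    nlinarith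
  have hsum : ∑ n ∈ I, R n ≤ ((M : ℝ) + 1) ^ 2 * (PL L).card + (M + 1) *
        Real.sqrt (∑ m₁ ∈ I, ∑ m₂ ∈ I, ‖Ker ψ b M L m₁ m₂‖ ^ 2) := by
    have h1 : ((∑ n ∈ I, R n : ℝ) : ℂ) = ∑ n ∈ I, Off M L b ψ α n + ∑ n ∈ I, Dia M L b ψ α n := by
      push_cast
      rw [← Finset.sum_add_distrib]
      exact Finset.sum_congr rfl (fun n hn => (hR1 n hn).symm)
    have h2 : ∑ n ∈ I, R n = ‖((∑ n ∈ I, R n : ℝ) : ℂ)‖ := by
      rw [Complex.norm_real, Real.norm_eq_abs, abs_of_nonneg]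
      exact Finset.sum_nonneg (fun n hn => hR0 n hn)
    rw [h2, h1]
    have h3 : ‖∑ n ∈ I, Dia M L b ψ α n‖ ≤ ((M : ℝ) + 1) ^ 2 * (PL L).card := by
      refine (norm_sum_le _ _).trans ?_
      calc ∑ n ∈ I, ‖Dia M L b ψ α n‖ ≤ ∑ n ∈ I, (PL L).card * ((M : ℝ) + 1) :=
            Finset.sum_le_sum (fun n hn => dia_bound M L V ψ hψ b α hα hn)
        _ = ((M : ℝ) + 1) ^ 2 * (PL L).card := by
            rw [Finset.sum_const, hI, card_I, nsmul_eq_mul]; push_cast; ring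
    have h4 := off_total M L b ψ α hα
    rw [← hI] at h4
    refine (norm_add_le _ _).trans ?_
    linarith
  calc ((PL L).card : ℝ) ^ 2 * ∑ n ∈ I,
        ‖∑ m ∈ I.filter (fun m => Nat.Coprime m n), α m * ψ ((m : ℝ) * n) * kf b m n‖ ^ 2
      = ∑ n ∈ I, ((PL L).card : ℝ) ^ 2 *
        ‖∑ m ∈ I.filter (fun m => Nat.Coprime m n), α m * ψ ((m : ℝ) * n) * kf b m n‖ ^ 2 := by
        rw [Finset.mul_sum]
    _ ≤ ∑ n ∈ I, (2 * ((2 * M + 1) * R n) + 8 * (κ : ℝ) ^ 2 * ((M : ℝ) + 1) ^ 2) :=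
        Finset.sum_le_sum hX
    _ = 2 * (2 * M + 1) * ∑ n ∈ I, R n + 8 * (κ : ℝ) ^ 2 * ((M : ℝ) + 1) ^ 3 := by
        rw [Finset.sum_add_distrib, ← Finset.mul_sum, ← Finset.mul_sum, Finset.sum_const, hI,
          card_I, nsmul_eq_mul]
        push_cast; ring
    _ ≤ _ := by
        have h0 : (0 : ℝ) ≤ 2 * (2 * M + 1) := by positivity
        have := mul_le_mul_of_nonneg_left hsum h0
        linarith

end Pool.Agent.H442R2.KF
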