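import Pool.Agent.H442R2.KF.Defs2
import Pool.Agent.H442R2.KF.Amp

/-!
KF project, part 2, task TJ: the amplification argument for the trilinear form (adapted from
Amp.lean, helper519).
-/

namespace Pool.Agent.H442R2.KF

open Finset

namespace TaskTJ

open TaskJ

lemma bij_gen (M L : ℕ) (g : ℕ → ℂ) {m₁ m₂ : ℕ} (h1 : m₁ ∈ Ioc M (2 * M + 1))
    (h2 : m₂ ∈ Ioc M (2 * M + 1)) {l₁ l₂ : ℕ} (hl₁ : l₁ ∈ PL L) (hl₂ : l₂ ∈ PL L)
    (hne : l₁ ≠ l₂) :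
    ∑ n ∈ (Ioc M (2 * M + 1)).filter (fun n => QQ n l₁ l₂ m₁ m₂), g n =
    ∑ t ∈ (Icc (-(4 * L : ℤ)) (4 * L)).filter
      (fun t => t ≠ 0 ∧ ¬ (l₁ : ℤ) ∣ t ∧ ¬ (l₂ : ℤ) ∣ t),
        (if adm M (l₁, l₂, t) m₁ m₂ then g (nu (l₁, l₂, t) m₁ m₂) else 0) := by
  have hR : ∑ t ∈ (Icc (-(4 * L : ℤ)) (4 * L)).filter
      (fun t => t ≠ 0 ∧ ¬ (l₁ : ℤ) ∣ t ∧ ¬ (l₂ : ℤ) ∣ t),
        (if adm M (l₁, l₂, t) m₁ m₂ then g (nu (l₁, l₂, t) m₁ m₂) else 0) =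
      ∑ t ∈ ((Icc (-(4 * L : ℤ)) (4 * L)).filter
      (fun t => t ≠ 0 ∧ ¬ (l₁ : ℤ) ∣ t ∧ ¬ (l₂ : ℤ) ∣ t)).filter
        (fun t => adm M (l₁, l₂, t) m₁ m₂), g (nu (l₁, l₂, t) m₁ m₂) := by
    conv_rhs => rw [Finset.sum_filter]
  rw [hR]
  have hdiv : ∀ n ∈ (Ioc M (2 * M + 1)).filter (fun n => QQ n l₁ l₂ m₁ m₂),
      (l₂ : ℤ) * m₁ - (l₁ : ℤ) * m₂ = n * (((l₂ : ℤ) * m₁ - (l₁ : ℤ) * m₂) / n) := by
    intro n hn
    have hQ := (mem_filter.mp hn).2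
    exact (Int.mul_ediv_cancel' hQ.2.2).symm
  refine Finset.sum_nbij' (fun n : ℕ => ((l₂ : ℤ) * m₁ - (l₁ : ℤ) * m₂) / n)
    (fun t => nu (l₁, l₂, t) m₁ m₂) ?_ ?_ ?_ ?_ ?_
  · intro n hn
    have hn' := mem_filter.mp hn
    obtain ⟨f1, f2, f3, f4, f5, f6⟩ := facts h1 h2 hn'.1 hl₁ hl₂ hne hn'.2 _ (hdiv n hn)
    rw [mem_filter, mem_filter]
    exact ⟨⟨f1, f2, f3, f4⟩, f6⟩
  · intro t ht
    rw [mem_filter, mem_filter] at ht
    obtain ⟨⟨f1, f2, f3, f4⟩, f6⟩ := ht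
    obtain ⟨g1, g2, g3⟩ := facts' hl₁ hl₂ t f2 f3 f6
    exact mem_filter.mpr ⟨g1, g2⟩
  · intro n hn
    have hn' := mem_filter.mp hn
    obtain ⟨f1, f2, f3, f4, f5, f6⟩ := facts h1 h2 hn'.1 hl₁ hl₂ hne hn'.2 _ (hdiv n hn)
    exact f5
  · intro t ht
    rw [mem_filter, mem_filter] at ht
    obtain ⟨⟨f1, f2, f3, f4⟩, f6⟩ := ht
    obtain ⟨g1, g2, g3⟩ := facts' hl₁ hl₂ t f2 f3 f6
    have hnz : ((nu (l₁, l₂, t) m₁ m₂ : ℕ) : ℤ) ≠ 0 := by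
      have := (mem_Ioc.mp g1).1
      have : 0 < nu (l₁, l₂, t) m₁ m₂ := by omega
      exact_mod_cast this.ne'
    show ((l₂ : ℤ) * m₁ - (l₁ : ℤ) * m₂) / ((nu (l₁, l₂, t) m₁ m₂ : ℕ) : ℤ) = t
    rw [g3, Int.mul_ediv_cancel_left _ hnz]
  · intro n hn
    have hn' := mem_filter.mp hn
    obtain ⟨f1, f2, f3, f4, f5, f6⟩ := facts h1 h2 hn'.1 hl₁ hl₂ hne hn'.2 _ (hdiv n hn)
    show g n = g (nu (l₁, l₂, ((l₂ : ℤ) * m₁ - (l₁ : ℤ) * m₂) / n) m₁ m₂)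
    rw [f5]

/-- one product -/
noncomputable def g2 (ψ : ℕ → ℝ → ℂ) (k : ℤ) (J n m₁ m₂ : ℕ) : ℂ :=
  FF ψ k J n m₁ * (starRingEnd ℂ) (FF ψ k J n m₂)

lemma g2_eq (ψ : ℕ → ℝ → ℂ) (k : ℤ) (J n m₁ m₂ : ℕ) : g2 ψ k J n m₁ m₂ =
    ∑ q ∈ Icc 1 J ×ˢ Icc 1 J, ψ q.1 ((m₁ : ℝ) * (n : ℝ)) *
      (starRingEnd ℂ) (ψ q.2 ((m₂ : ℝ) * (n : ℝ))) *
      (kf ((q.1 : ℤ) * k) m₁ n * (starRingEnd ℂ) (kf ((q.2 : ℤ) * k) m₂ n)) := by
  unfold g2 FF
  rw [map_sum, Finset.sum_mul_sum, Finset.sum_product]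
  refine Finset.sum_congr rfl (fun j₁ _ => Finset.sum_congr rfl (fun j₂ _ => ?_))
  rw [map_mul]
  ring

/-- the sum over the parameters -/
lemma Ker_eq2 (M L J : ℕ) (k : ℤ) (ψ : ℕ → ℝ → ℂ) {m₁ m₂ : ℕ} (h1 : m₁ ∈ Ioc M (2 * M + 1))
    (h2 : m₂ ∈ Ioc M (2 * M + 1)) :
    Ker2 ψ k M L J m₁ m₂ = ∑ l₁ ∈ PL L, ∑ l₂ ∈ PL L, ∑ n ∈ Ioc M (2 * M + 1),
      (if l₁ ≠ l₂ ∧ QQ n l₁ l₂ m₁ m₂ then g2 ψ k J n m₁ m₂ else 0) := by
  have h3 : Ker2 ψ k M L J m₁ m₂ = ∑ p ∈ Par L,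
      (if adm M p m₁ m₂ then g2 ψ k J (nu p m₁ m₂) m₁ m₂ else 0) := by
    unfold Ker2 Par2
    rw [Finset.sum_product]
    refine Finset.sum_congr rfl (fun p _ => ?_)
    by_cases ha : adm M p m₁ m₂
    · rw [if_pos ha, g2_eq]
      refine Finset.sum_congr rfl (fun q _ => ?_)
      unfold tm2
      exact if_pos ha
    · rw [if_neg ha]
      refine Finset.sum_eq_zero (fun q _ => ?_)
      unfold tm2
      exact if_neg ha
  rw [h3]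
  unfold Par
  rw [Finset.sum_filter, Finset.sum_product]
  refine Finset.sum_congr rfl (fun l₁ hl₁ => ?_)
  rw [Finset.sum_product]
  refine Finset.sum_congr rfl (fun l₂ hl₂ => ?_)
  by_cases hne : l₁ = l₂
  · simp [hne]
  · have := bij_gen M L (fun n => g2 ψ k J n m₁ m₂) h1 h2 hl₁ hl₂ hne
    rw [Finset.sum_filter, Finset.sum_filter] at this
    simp only [ne_eq, hne, not_false_eq_true, true_and] at this ⊢
    exact this.symm

/-- the summand -/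
noncomputable def f2 (ψ : ℕ → ℝ → ℂ) (k : ℤ) (J : ℕ) (α : ℕ → ℂ) (n m : ℕ) : ℂ :=
  α m * FF ψ k J n m

lemma norm_f2 (ψ : ℕ → ℝ → ℂ) (k : ℤ) (J : ℕ) {α : ℕ → ℂ}
    (hα : ∀ m, ‖α m‖ ≤ 1) (n m : ℕ) : ‖f2 ψ k J α n m‖ ≤ ‖FF ψ k J n m‖ := by
  unfold f2
  rw [norm_mul]
  exact mul_le_of_le_one_left (norm_nonneg _) (hα m)

/-- the sum of the norms -/
noncomputable def SN (M : ℕ) (ψ : ℕ → ℝ → ℂ) (k : ℤ) (J n : ℕ) : ℝ :=
  ∑ m ∈ (Ioc M (2 * M + 1)).filter (fun m => Nat.Coprime m n), ‖FF ψ k J n m‖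

/-- the sum of the squares of the norms -/
noncomputable def DN (M : ℕ) (ψ : ℕ → ℝ → ℂ) (k : ℤ) (J n : ℕ) : ℝ :=
  ∑ m ∈ (Ioc M (2 * M + 1)).filter (fun m => Nat.Coprime m n), ‖FF ψ k J n m‖ ^ 2

lemma SN_nonneg (M : ℕ) (ψ : ℕ → ℝ → ℂ) (k : ℤ) (J n : ℕ) : 0 ≤ SN M ψ k J n :=
  Finset.sum_nonneg (fun _ _ => norm_nonneg _)

lemma DN_nonneg (M : ℕ) (ψ : ℕ → ℝ → ℂ) (k : ℤ) (J n : ℕ) : 0 ≤ DN M ψ k J n :=
  Finset.sum_nonneg (fun _ _ => by positivity)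

lemma SN_sq (M : ℕ) (ψ : ℕ → ℝ → ℂ) (k : ℤ) (J n : ℕ) :
    SN M ψ k J n ^ 2 ≤ ((M : ℝ) + 1) * DN M ψ k J n := by
  unfold SN
  have h1 := sq_sum_le_card_mul_sum_sq
    (s := (Ioc M (2 * M + 1)).filter (fun m => Nat.Coprime m n)) (f := fun m => ‖FF ψ k J n m‖)
  refine h1.trans ?_
  refine mul_le_mul_of_nonneg_right ?_ (DN_nonneg M ψ k J n)
  calc (((Ioc M (2 * M + 1)).filter (fun m => Nat.Coprime m n)).card : ℝ)
      ≤ ((Ioc M (2 * M + 1)).card : ℝ) := by exact_mod_cast Finset.card_filter_le _ _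
    _ = (M : ℝ) + 1 := by rw [card_I]; push_cast; ring

/-- the remainder of the amplification -/
lemma rem_bound2 (M L κ J : ℕ) (hκ : 2 * M + 1 < (L + 1) ^ κ)
    (ψ : ℕ → ℝ → ℂ) (k : ℤ) (α : ℕ → ℂ) (hα : ∀ m, ‖α m‖ ≤ 1) {n : ℕ}
    (hn : n ∈ Ioc M (2 * M + 1)) :
    ‖((PL L).card : ℂ) * (∑ m ∈ (Ioc M (2 * M + 1)).filter (fun m => Nat.Coprime m n),
      f2 ψ k J α n m) - ∑ x ∈ TT M L n, f2 ψ k J α n x.2‖ ≤ 2 * κ * SN M ψ k J n := by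
  set X := ∑ m ∈ (Ioc M (2 * M + 1)).filter (fun m => Nat.Coprime m n), f2 ψ k J α n m with hX
  have hXn : ‖X‖ ≤ SN M ψ k J n := by
    rw [hX]
    refine (norm_sum_le _ _).trans ?_
    exact Finset.sum_le_sum (fun m _ => norm_f2 ψ k J hα n m)
  have e1 : ((PL L).card : ℂ) * X = ∑ l ∈ (PL L).filter (fun l => l ∣ n), X +
      ∑ l ∈ (PL L).filter (fun l => ¬ l ∣ n), X := by
    rw [Finset.sum_filter_add_sum_filter_not]
    simp
  have e2 : ∀ l, X = ∑ m ∈ ((Ioc M (2 * M + 1)).filter (fun m => Nat.Coprime m n)).filter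
        (fun m => l ∣ m), f2 ψ k J α n m +
      ∑ m ∈ ((Ioc M (2 * M + 1)).filter (fun m => Nat.Coprime m n)).filter
        (fun m => ¬ l ∣ m), f2 ψ k J α n m := by
    intro l
    rw [Finset.sum_filter_add_sum_filter_not]
  have e3 : ∑ x ∈ TT M L n, f2 ψ k J α n x.2 = ∑ l ∈ (PL L).filter (fun l => ¬ l ∣ n),
      ∑ m ∈ ((Ioc M (2 * M + 1)).filter (fun m => Nat.Coprime m n)).filter
        (fun m => ¬ l ∣ m), f2 ψ k J α n m := by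
    unfold TT
    rw [Finset.sum_filter, Finset.sum_product, Finset.sum_filter]
    refine Finset.sum_congr rfl (fun l _ => ?_)
    by_cases hl : l ∣ n
    · simp [hl]
    · simp only [hl, not_false_eq_true, true_and, if_true]
      rw [Finset.filter_filter, Finset.sum_filter]
  have e4 : ∑ l ∈ (PL L).filter (fun l => ¬ l ∣ n), X =
      ∑ l ∈ (PL L).filter (fun l => ¬ l ∣ n),
        ∑ m ∈ ((Ioc M (2 * M + 1)).filter (fun m => Nat.Coprime m n)).filter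
        (fun m => l ∣ m), f2 ψ k J α n m + ∑ x ∈ TT M L n, f2 ψ k J α n x.2 := by
    rw [e3, ← Finset.sum_add_distrib]
    exact Finset.sum_congr rfl (fun l _ => e2 l)
  rw [e1, e4]
  have e5 : ∑ l ∈ (PL L).filter (fun l => l ∣ n), X +
      (∑ l ∈ (PL L).filter (fun l => ¬ l ∣ n),
        ∑ m ∈ ((Ioc M (2 * M + 1)).filter (fun m => Nat.Coprime m n)).filter
        (fun m => l ∣ m), f2 ψ k J α n m + ∑ x ∈ TT M L n, f2 ψ k J α n x.2) -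
      ∑ x ∈ TT M L n, f2 ψ k J α n x.2 = ∑ l ∈ (PL L).filter (fun l => l ∣ n), X +
      ∑ l ∈ (PL L).filter (fun l => ¬ l ∣ n),
        ∑ m ∈ ((Ioc M (2 * M + 1)).filter (fun m => Nat.Coprime m n)).filter
        (fun m => l ∣ m), f2 ψ k J α n m := by ring
  rw [e5]
  have hn' := mem_Ioc.mp hn
  have b1 : ‖∑ l ∈ (PL L).filter (fun l => l ∣ n), X‖ ≤ κ * SN M ψ k J n := by
    rw [Finset.sum_const, nsmul_eq_mul, norm_mul, Complex.norm_natCast]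
    refine mul_le_mul ?_ hXn (norm_nonneg _) (by positivity)
    exact_mod_cast count_primes M L κ n hκ (by omega) hn'.2
  have b2 : ‖∑ l ∈ (PL L).filter (fun l => ¬ l ∣ n),
        ∑ m ∈ ((Ioc M (2 * M + 1)).filter (fun m => Nat.Coprime m n)).filter
        (fun m => l ∣ m), f2 ψ k J α n m‖ ≤ κ * SN M ψ k J n := by
    refine (norm_sum_le _ _).trans ?_
    calc ∑ l ∈ (PL L).filter (fun l => ¬ l ∣ n),
          ‖∑ m ∈ ((Ioc M (2 * M + 1)).filter (fun m => Nat.Coprime m n)).filter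
            (fun m => l ∣ m), f2 ψ k J α n m‖
        ≤ ∑ l ∈ (PL L).filter (fun l => ¬ l ∣ n),
          ∑ m ∈ ((Ioc M (2 * M + 1)).filter (fun m => Nat.Coprime m n)).filter
            (fun m => l ∣ m), ‖FF ψ k J n m‖ := by
          refine Finset.sum_le_sum (fun l _ => ?_)
          refine (norm_sum_le _ _).trans ?_
          exact Finset.sum_le_sum (fun m _ => norm_f2 ψ k J hα n m)
      _ ≤ ∑ l ∈ PL L, ∑ m ∈ ((Ioc M (2 * M + 1)).filter (fun m => Nat.Coprime m n)).filter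
            (fun m => l ∣ m), ‖FF ψ k J n m‖ := by
          refine Finset.sum_le_sum_of_subset_of_nonneg (Finset.filter_subset _ _) ?_
          intro _ _ _
          exact Finset.sum_nonneg (fun _ _ => norm_nonneg _)
      _ = ∑ m ∈ (Ioc M (2 * M + 1)).filter (fun m => Nat.Coprime m n),
            ∑ l ∈ (PL L).filter (fun l => l ∣ m), ‖FF ψ k J n m‖ := by
          refine Finset.sum_comm' (fun l m => ?_)
          rw [mem_filter, mem_filter (s := PL L)]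
          exact ⟨fun h => ⟨⟨h.1, h.2.2⟩, h.2.1⟩, fun h => ⟨h.1.1, h.2, h.1.2⟩⟩
      _ ≤ ∑ m ∈ (Ioc M (2 * M + 1)).filter (fun m => Nat.Coprime m n), κ * ‖FF ψ k J n m‖ := by
          refine Finset.sum_le_sum (fun m hm => ?_)
          have hm' := mem_Ioc.mp (mem_filter.mp hm).1
          have := count_primes M L κ m hκ (by omega) hm'.2
          rw [Finset.sum_const, nsmul_eq_mul]
          refine mul_le_mul_of_nonneg_right ?_ (norm_nonneg _)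
          exact_mod_cast this
      _ = κ * SN M ψ k J n := by
          rw [← Finset.mul_sum]
          rfl
  refine (norm_add_le _ _).trans ((add_le_add b1 b2).trans (le_of_eq ?_))
  ring

/-- off-diagonal part -/
noncomputable def Off2 (M L J : ℕ) (k : ℤ) (ψ : ℕ → ℝ → ℂ) (α : ℕ → ℂ) (n : ℕ) : ℂ :=
  ∑ x ∈ TT M L n, ∑ y ∈ ((TT M L n).filter (fun y => cc n y = cc n x)).filter
    (fun y => x.1 ≠ y.1), f2 ψ k J α n x.2 * (starRingEnd ℂ) (f2 ψ k J α n y.2)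

/-- diagonal part -/
noncomputable def Dia2 (M L J : ℕ) (k : ℤ) (ψ : ℕ → ℝ → ℂ) (α : ℕ → ℂ) (n : ℕ) : ℂ :=
  ∑ x ∈ TT M L n, ∑ y ∈ ((TT M L n).filter (fun y => cc n y = cc n x)).filter
    (fun y => ¬ x.1 ≠ y.1), f2 ψ k J α n x.2 * (starRingEnd ℂ) (f2 ψ k J α n y.2)

lemma dia_bound2 (M L J : ℕ) (ψ : ℕ → ℝ → ℂ) (k : ℤ) (α : ℕ → ℂ) (hα : ∀ m, ‖α m‖ ≤ 1) {n : ℕ}
    (hn : n ∈ Ioc M (2 * M + 1)) : ‖Dia2 M L J k ψ α n‖ ≤ (PL L).card * DN M ψ k J n := by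
  unfold Dia2
  refine (norm_sum_le _ _).trans ?_
  calc ∑ x ∈ TT M L n, ‖∑ y ∈ ((TT M L n).filter (fun y => cc n y = cc n x)).filter
          (fun y => ¬ x.1 ≠ y.1), f2 ψ k J α n x.2 * (starRingEnd ℂ) (f2 ψ k J α n y.2)‖
      ≤ ∑ x ∈ TT M L n, ‖FF ψ k J n x.2‖ ^ 2 := by
        refine Finset.sum_le_sum (fun x hx => ?_)
        have hx' := mem_TT hx
        have hsub : ((TT M L n).filter (fun y => cc n y = cc n x)).filter
            (fun y => ¬ x.1 ≠ y.1) ⊆ {x} := by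
          intro y hy
          rw [mem_filter, mem_filter] at hy
          obtain ⟨⟨hy1, hy2⟩, hy3⟩ := hy
          push Not at hy3
          have hy' := mem_TT hy1
          have hp : x.1.Prime := by
            have := hx'.1; unfold PL at this; exact (mem_filter.mp this).2
          have hp' : y.1.Prime := by
            have := hy'.1; unfold PL at this; exact (mem_filter.mp this).2
          have h3 := (cc_iff (m₁ := x.2) (m₂ := y.2) hp hp' hx'.2.2.1 hy'.2.2.1).mp hy2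
          rw [← hy3, ← mul_sub] at h3
          have hcop : IsCoprime (n : ℤ) (x.1 : ℤ) := by
            rw [Nat.isCoprime_iff_coprime]
            exact ((Nat.Prime.coprime_iff_not_dvd hp).mpr hx'.2.2.1).symm
          have h4 : (n : ℤ) ∣ (x.2 : ℤ) - y.2 := hcop.dvd_of_dvd_mul_left h3
          have h5 : (x.2 : ℤ) - y.2 = 0 := by
            apply Int.eq_zero_of_abs_lt_dvd h4
            have a1 := mem_Ioc.mp hx'.2.1
            have a2 := mem_Ioc.mp hy'.2.1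
            have a3 := mem_Ioc.mp hn
            rw [abs_lt]
            constructor <;> omega
          rw [mem_singleton]
          refine Prod.ext hy3.symm ?_
          omega
        refine (norm_sum_le _ _).trans ?_
        calc ∑ y ∈ ((TT M L n).filter (fun y => cc n y = cc n x)).filter
                (fun y => ¬ x.1 ≠ y.1), ‖f2 ψ k J α n x.2 * (starRingEnd ℂ) (f2 ψ k J α n y.2)‖
            ≤ ∑ y ∈ ({x} : Finset (ℕ × ℕ)),
                ‖f2 ψ k J α n x.2 * (starRingEnd ℂ) (f2 ψ k J α n y.2)‖ :=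
              Finset.sum_le_sum_of_subset_of_nonneg hsub (fun _ _ _ => norm_nonneg _)
          _ ≤ ‖FF ψ k J n x.2‖ ^ 2 := by
              rw [Finset.sum_singleton, norm_mul, RCLike.norm_conj, sq]
              have := norm_f2 ψ k J hα n x.2
              exact mul_le_mul this this (norm_nonneg _) (norm_nonneg _)
    _ ≤ ∑ x ∈ PL L ×ˢ (Ioc M (2 * M + 1)).filter (fun m => Nat.Coprime m n),
          ‖FF ψ k J n x.2‖ ^ 2 := by
        refine Finset.sum_le_sum_of_subset_of_nonneg ?_ (fun _ _ _ => by positivity)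
        intro x hx
        have hx' := mem_TT hx
        rw [mem_product, mem_filter]
        exact ⟨hx'.1, hx'.2.1, hx'.2.2.2.1⟩
    _ = (PL L).card * DN M ψ k J n := by
        rw [Finset.sum_product]
        simp only [sum_const, nsmul_eq_mul]
        rfl

lemma off_eq2 (M L J : ℕ) (k : ℤ) (ψ : ℕ → ℝ → ℂ) (α : ℕ → ℂ) (n : ℕ) :
    Off2 M L J k ψ α n = ∑ m₁ ∈ Ioc M (2 * M + 1), ∑ m₂ ∈ Ioc M (2 * M + 1),
      α m₁ * (starRingEnd ℂ) (α m₂) * ∑ l₁ ∈ PL L, ∑ l₂ ∈ PL L,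
        (if l₁ ≠ l₂ ∧ QQ n l₁ l₂ m₁ m₂ then g2 ψ k J n m₁ m₂ else 0) := by
  have h1 : Off2 M L J k ψ α n = ∑ l₁ ∈ PL L, ∑ m₁ ∈ Ioc M (2 * M + 1), ∑ l₂ ∈ PL L,
      ∑ m₂ ∈ Ioc M (2 * M + 1), α m₁ * (starRingEnd ℂ) (α m₂) *
        (if l₁ ≠ l₂ ∧ QQ n l₁ l₂ m₁ m₂ then g2 ψ k J n m₁ m₂ else 0) := by
    unfold Off2
    conv_lhs => unfold TT
    rw [Finset.sum_filter, Finset.sum_product]
    refine Finset.sum_congr rfl (fun l₁ hl₁ => ?_)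
    refine Finset.sum_congr rfl (fun m₁ hm₁ => ?_)
    have hp1 : l₁.Prime := by
      have := hl₁; unfold PL at this; exact (mem_filter.mp this).2
    simp only
    by_cases hc : ¬ l₁ ∣ n ∧ Nat.Coprime m₁ n ∧ ¬ l₁ ∣ m₁
    · rw [if_pos hc, Finset.filter_filter, Finset.filter_filter, Finset.sum_filter,
        Finset.sum_product]
      refine Finset.sum_congr rfl (fun l₂ hl₂ => ?_)
      refine Finset.sum_congr rfl (fun m₂ hm₂ => ?_)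
      have hp2 : l₂.Prime := by
        have := hl₂; unfold PL at this; exact (mem_filter.mp this).2
      simp only
      by_cases hd : ¬ l₂ ∣ n ∧ Nat.Coprime m₂ n ∧ ¬ l₂ ∣ m₂
      · have hiff := cc_iff (m₁ := m₁) (m₂ := m₂) hp1 hp2 hc.1 hd.1
        by_cases hne : l₁ ≠ l₂
        · by_cases hcc : cc n (l₂, m₂) = cc n (l₁, m₁)
          · rw [if_pos ⟨hd, hcc, hne⟩, if_pos ⟨hne, hc, hd, hiff.mp hcc⟩]
            unfold f2 g2
            simp only [map_mul]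
            ring
          · rw [if_neg, if_neg, mul_zero]
            · intro h; exact hcc (hiff.mpr h.2.2.2)
            · intro h; exact hcc h.2.1
        · rw [if_neg, if_neg, mul_zero]
          · intro h; exact hne h.1
          · intro h; exact hne h.2.2
      · rw [if_neg, if_neg, mul_zero]
        · intro h; exact hd h.2.2.1
        · intro h; exact hd h.1
    · rw [if_neg hc]
      symm
      refine Finset.sum_eq_zero (fun l₂ _ => Finset.sum_eq_zero (fun m₂ _ => ?_))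
      rw [if_neg, mul_zero]
      intro h
      exact hc h.2.1
  rw [h1, Finset.sum_comm]
  refine Finset.sum_congr rfl (fun m₁ _ => ?_)
  simp_rw [Finset.mul_sum]
  rw [Finset.sum_comm' (s := Ioc M (2 * M + 1)) (t' := PL L) (s' := fun _ => Ioc M (2 * M + 1))
    (t := fun _ => PL L)]
  · refine Finset.sum_congr rfl (fun l₁ _ => ?_)
    rw [Finset.sum_comm]
  · intro x y
    exact ⟨fun h => ⟨h.1, h.2⟩, fun h => ⟨h.1, h.2⟩⟩

lemma off_total2 (M L J : ℕ) (k : ℤ) (ψ : ℕ → ℝ → ℂ) (α : ℕ → ℂ) (hα : ∀ m, ‖α m‖ ≤ 1) :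
    ‖∑ n ∈ Ioc M (2 * M + 1), Off2 M L J k ψ α n‖ ≤ ((M : ℝ) + 1) *
        Real.sqrt (∑ m₁ ∈ Ioc M (2 * M + 1), ∑ m₂ ∈ Ioc M (2 * M + 1),
          ‖Ker2 ψ k M L J m₁ m₂‖ ^ 2) := by
  have h1 : ∑ n ∈ Ioc M (2 * M + 1), Off2 M L J k ψ α n =
      ∑ m₁ ∈ Ioc M (2 * M + 1), ∑ m₂ ∈ Ioc M (2 * M + 1),
        α m₁ * (starRingEnd ℂ) (α m₂) * Ker2 ψ k M L J m₁ m₂ := by
    simp_rw [off_eq2]
    rw [Finset.sum_comm]
    refine Finset.sum_congr rfl (fun m₁ hm₁ => ?_)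
    rw [Finset.sum_comm]
    refine Finset.sum_congr rfl (fun m₂ hm₂ => ?_)
    rw [← Finset.mul_sum, Ker_eq2 M L J k ψ hm₁ hm₂, Finset.sum_comm]
    congr 1
    refine Finset.sum_congr rfl (fun l₁ _ => ?_)
    rw [Finset.sum_comm]
  rw [h1]
  set I := Ioc M (2 * M + 1) with hI
  have h2 : ‖∑ m₁ ∈ I, ∑ m₂ ∈ I, α m₁ * (starRingEnd ℂ) (α m₂) * Ker2 ψ k M L J m₁ m₂‖ ≤
      ∑ x ∈ I ×ˢ I, ‖Ker2 ψ k M L J x.1 x.2‖ := by
    rw [Finset.sum_product]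
    refine (norm_sum_le _ _).trans (Finset.sum_le_sum (fun m₁ _ => ?_))
    refine (norm_sum_le _ _).trans (Finset.sum_le_sum (fun m₂ _ => ?_))
    rw [norm_mul, norm_mul, RCLike.norm_conj]
    have : ‖α m₁‖ * ‖α m₂‖ ≤ 1 := by
      calc ‖α m₁‖ * ‖α m₂‖ ≤ 1 * 1 := mul_le_mul (hα _) (hα _) (norm_nonneg _) zero_le_one
        _ = 1 := one_mul 1
    calc ‖α m₁‖ * ‖α m₂‖ * ‖Ker2 ψ k M L J m₁ m₂‖ ≤ 1 * ‖Ker2 ψ k M L J m₁ m₂‖ :=
          mul_le_mul_of_nonneg_right this (norm_nonneg _)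
      _ = _ := one_mul _
  refine h2.trans ?_
  have h3 := sq_sum_le_card_mul_sum_sq (s := I ×ˢ I) (f := fun x => ‖Ker2 ψ k M L J x.1 x.2‖)
  have h4 : ((I ×ˢ I).card : ℝ) = ((M : ℝ) + 1) ^ 2 := by
    rw [Finset.card_product, hI, card_I]; push_cast; ring
  rw [h4] at h3
  have h5 : ∑ x ∈ I ×ˢ I, ‖Ker2 ψ k M L J x.1 x.2‖ ^ 2 =
      ∑ m₁ ∈ I, ∑ m₂ ∈ I, ‖Ker2 ψ k M L J m₁ m₂‖ ^ 2 := by rw [Finset.sum_product]
  rw [h5] at h3
  have h6 : 0 ≤ ∑ x ∈ I ×ˢ I, ‖Ker2 ψ k M L J x.1 x.2‖ :=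
    Finset.sum_nonneg (fun _ _ => norm_nonneg _)
  calc ∑ x ∈ I ×ˢ I, ‖Ker2 ψ k M L J x.1 x.2‖
      = Real.sqrt ((∑ x ∈ I ×ˢ I, ‖Ker2 ψ k M L J x.1 x.2‖) ^ 2) := (Real.sqrt_sq h6).symm
    _ ≤ Real.sqrt (((M : ℝ) + 1) ^ 2 * ∑ m₁ ∈ I, ∑ m₂ ∈ I, ‖Ker2 ψ k M L J m₁ m₂‖ ^ 2) :=
        Real.sqrt_le_sqrt h3
    _ = _ := by
        rw [Real.sqrt_mul (by positivity), Real.sqrt_sq (by positivity)]

end TaskTJ

open TaskJ TaskTJ in
/-- TJ (Amp2.lean) -/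
theorem ampl2 (M L J κ : ℕ) (hM : 1 ≤ M) (hL : 1 ≤ L) (hκ : 2 * M + 1 < (L + 1) ^ κ) (V : ℝ)
    (ψ : ℕ → ℝ → ℂ) (hψ : ∀ j, Wei M V (ψ j)) (k : ℤ) (α : ℕ → ℂ) (hα : ∀ m, ‖α m‖ ≤ 1) :
    ((PL L).card : ℝ) ^ 2 * ∑ n ∈ Ioc M (2 * M + 1),
        ‖∑ m ∈ (Ioc M (2 * M + 1)).filter (fun m => Nat.Coprime m n), α m * FF ψ k J n m‖ ^ 2 ≤
      2 * (2 * M + 1) * ((PL L).card * DG ψ k M J + (M + 1) *
        Real.sqrt (∑ m₁ ∈ Ioc M (2 * M + 1), ∑ m₂ ∈ Ioc M (2 * M + 1),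
          ‖Ker2 ψ k M L J m₁ m₂‖ ^ 2)) + 8 * (κ : ℝ) ^ 2 * ((M : ℝ) + 1) * DG ψ k M J := by
  set I := Ioc M (2 * M + 1) with hI
  -- one `n`
  have hone : ∀ n ∈ I, ∃ R : ℝ, 0 ≤ R ∧ Off2 M L J k ψ α n + Dia2 M L J k ψ α n = (R : ℂ) ∧
      ‖∑ x ∈ TT M L n, f2 ψ k J α n x.2‖ ^ 2 ≤ (2 * M + 1) * R := by
    intro n hn
    have hn' := mem_Ioc.mp hn
    have : NeZero n := ⟨by omega⟩
    obtain ⟨R, hR0, hR1, hR2⟩ := cs_fib (TT M L n) (cc n) (fun x => f2 ψ k J α n x.2)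
    refine ⟨R, hR0, ?_, ?_⟩
    · rw [← hR1]
      unfold Off2 Dia2
      rw [← Finset.sum_add_distrib]
      refine Finset.sum_congr rfl (fun x _ => ?_)
      rw [Finset.sum_filter_add_sum_filter_not]
    · refine hR2.trans ?_
      refine mul_le_mul_of_nonneg_right ?_ hR0
      rw [ZMod.card]
      exact_mod_cast hn'.2
  choose! R hR0 hR1 hR2 using hone
  have hX : ∀ n ∈ I, ((PL L).card : ℝ) ^ 2 *
      ‖∑ m ∈ I.filter (fun m => Nat.Coprime m n), α m * FF ψ k J n m‖ ^ 2 ≤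
      2 * ((2 * M + 1) * R n) + 8 * (κ : ℝ) ^ 2 * (((M : ℝ) + 1) * DN M ψ k J n) := by
    intro n hn
    have hrem := rem_bound2 M L κ J hκ ψ k α hα hn
    set X := ∑ m ∈ I.filter (fun m => Nat.Coprime m n), f2 ψ k J α n m with hXd
    have hXe : ∑ m ∈ I.filter (fun m => Nat.Coprime m n), α m * FF ψ k J n m = X := rfl
    rw [hXe]
    set B := ∑ x ∈ TT M L n, f2 ψ k J α n x.2 with hB
    have h1 : ((PL L).card : ℝ) * ‖X‖ ≤ ‖B‖ + 2 * κ * SN M ψ k J n := by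
      have h2 : ((PL L).card : ℝ) * ‖X‖ = ‖((PL L).card : ℂ) * X‖ := by
        rw [norm_mul, Complex.norm_natCast]
      rw [h2]
      have h3 : ((PL L).card : ℂ) * X = B + (((PL L).card : ℂ) * X - B) := by ring
      rw [h3]
      exact (norm_add_le _ _).trans (add_le_add le_rfl hrem)
    have h4 : 0 ≤ ((PL L).card : ℝ) * ‖X‖ := by positivity
    have h5 : (((PL L).card : ℝ) * ‖X‖) ^ 2 ≤ (‖B‖ + 2 * κ * SN M ψ k J n) ^ 2 :=
      pow_le_pow_left₀ h4 h1 2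
    have h6 := hR2 n hn
    have h7 : (‖B‖ + 2 * κ * SN M ψ k J n) ^ 2 ≤ 2 * ‖B‖ ^ 2 + 2 * (2 * κ * SN M ψ k J n) ^ 2 := by
      nlinarith [sq_nonneg (‖B‖ - 2 * κ * SN M ψ k J n)]
    have h8 := SN_sq M ψ k J n
    have h9 : 8 * (κ : ℝ) ^ 2 * SN M ψ k J n ^ 2 ≤
        8 * (κ : ℝ) ^ 2 * (((M : ℝ) + 1) * DN M ψ k J n) :=
      mul_le_mul_of_nonneg_left h8 (by positivity)
    have h10 : (((PL L).card : ℝ) * ‖X‖) ^ 2 = ((PL L).card : ℝ) ^ 2 * ‖X‖ ^ 2 := by ring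
    have h11 : 2 * (2 * κ * SN M ψ k J n) ^ 2 = 8 * (κ : ℝ) ^ 2 * SN M ψ k J n ^ 2 := by ring
    linarith
  have hDG : ∑ n ∈ I, DN M ψ k J n = DG ψ k M J := rfl
  have hsum : ∑ n ∈ I, R n ≤ (PL L).card * DG ψ k M J + (M + 1) *
        Real.sqrt (∑ m₁ ∈ I, ∑ m₂ ∈ I, ‖Ker2 ψ k M L J m₁ m₂‖ ^ 2) := by
    have h1 : ((∑ n ∈ I, R n : ℝ) : ℂ) =
        ∑ n ∈ I, Off2 M L J k ψ α n + ∑ n ∈ I, Dia2 M L J k ψ α n := by
      push_cast
      rw [← Finset.sum_add_distrib]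
      exact Finset.sum_congr rfl (fun n hn => (hR1 n hn).symm)
    have h2 : ∑ n ∈ I, R n = ‖((∑ n ∈ I, R n : ℝ) : ℂ)‖ := by
      rw [Complex.norm_real, Real.norm_eq_abs, abs_of_nonneg]
      exact Finset.sum_nonneg (fun n hn => hR0 n hn)
    rw [h2, h1]
    have h3 : ‖∑ n ∈ I, Dia2 M L J k ψ α n‖ ≤ (PL L).card * DG ψ k M J := by
      refine (norm_sum_le _ _).trans ?_
      calc ∑ n ∈ I, ‖Dia2 M L J k ψ α n‖ ≤ ∑ n ∈ I, (PL L).card * DN M ψ k J n :=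
            Finset.sum_le_sum (fun n hn => dia_bound2 M L J ψ k α hα hn)
        _ = (PL L).card * DG ψ k M J := by
            rw [← Finset.mul_sum, hDG]
    have h4 := off_total2 M L J k ψ α hα
    rw [← hI] at h4
    refine (norm_add_le _ _).trans ?_
    linarith
  calc ((PL L).card : ℝ) ^ 2 * ∑ n ∈ I,
        ‖∑ m ∈ I.filter (fun m => Nat.Coprime m n), α m * FF ψ k J n m‖ ^ 2
      = ∑ n ∈ I, ((PL L).card : ℝ) ^ 2 *
        ‖∑ m ∈ I.filter (fun m => Nat.Coprime m n), α m * FF ψ k J n m‖ ^ 2 := by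
        rw [Finset.mul_sum]
    _ ≤ ∑ n ∈ I, (2 * ((2 * M + 1) * R n) + 8 * (κ : ℝ) ^ 2 * (((M : ℝ) + 1) * DN M ψ k J n)) :=
        Finset.sum_le_sum hX
    _ = 2 * (2 * M + 1) * ∑ n ∈ I, R n + 8 * (κ : ℝ) ^ 2 * ((M : ℝ) + 1) * DG ψ k M J := by
        rw [Finset.sum_add_distrib, ← Finset.mul_sum, ← Finset.mul_sum, ← Finset.mul_sum,
          ← Finset.mul_sum, hDG]
        ring
    _ ≤ _ := by
        have h0 : (0 : ℝ) ≤ 2 * (2 * M + 1) := by positivity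
        have := mul_le_mul_of_nonneg_left hsum h0
        linarith

end Pool.Agent.H442R2.KF
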