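import Pool.Agent.H442R2.KF.Defs2

/-!
KF project, part 2, task TH1.
-/

namespace Pool.Agent.H442R2.KF

open Finset

namespace TaskTH1

lemma prime_dvd_eq {l l' : ℕ} (hl : l.Prime) (hl' : l'.Prime) (h : (l : ℤ) ∣ l') : l = l' := by
  have h1 : l ∣ l' := by exact_mod_cast h
  exact (Nat.prime_dvd_prime_iff_eq hl hl').mp h1

/-- a prime which divides the product -/
lemma step {l m t l' m' : ℤ} {a : ℤ} (hl : Prime l) (h1 : ¬ l ∣ m) (ht : ¬ l ∣ t)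
    (h : m * t * l' * m' = a * l) : l ∣ l' ∨ l ∣ m' := by
  have h2 : l ∣ m * t * l' * m' := ⟨a, by rw [h]; ring⟩
  rcases hl.dvd_or_dvd h2 with h3 | h3
  · rcases hl.dvd_or_dvd h3 with h4 | h4
    · rcases hl.dvd_or_dvd h4 with h5 | h5
      · exact absurd h5 h1
      · exact absurd h5 ht
    · exact Or.inl h4
  · exact Or.inr h3

/-- unpacked membership -/
lemma mem_unpack {L J : ℕ} {l1 l2 : ℕ} {t : ℤ} {j1 j2 : ℕ}
    (h : ((l1, l2, t), (j1, j2)) ∈ Par2 L J) :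
    (L < l1 ∧ l1.Prime) ∧ (L < l2 ∧ l2.Prime) ∧ l1 ≠ l2 ∧ t ≠ 0 ∧ ¬ (l1 : ℤ) ∣ t ∧
      ¬ (l2 : ℤ) ∣ t ∧ (1 ≤ j1 ∧ j1 ≤ J) ∧ (1 ≤ j2 ∧ j2 ≤ J) := by
  unfold Par2 Par PL at h
  simp only [Finset.mem_filter, Finset.mem_product, Finset.mem_Icc, Finset.mem_Ioc] at h
  obtain ⟨⟨⟨⟨h1, h2⟩, ⟨h3, h4⟩, -⟩, hne, ht0, hd1, hd2⟩, hj1, hj2⟩ := h
  exact ⟨⟨h1.1, h2⟩, ⟨h3.1, h4⟩, hne, ht0, hd1, hd2, hj1, hj2⟩

/-- `l ∤ a * m` for a prime `l > L ≥ a ≥ 1` and another prime `m` -/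
lemma not_dvd_mul {L l m a : ℕ} (hl : l.Prime) (hm : m.Prime) (hne : l ≠ m) (hL : L < l)
    (ha : 1 ≤ a) (ha2 : a ≤ L) : ¬ (l : ℤ) ∣ (a : ℤ) * m := by
  intro h
  have h1 : l ∣ a * m := by exact_mod_cast h
  rcases hl.dvd_mul.1 h1 with h2 | h2
  · have := Nat.le_of_dvd (by omega) h2
    omega
  · exact hne ((Nat.prime_dvd_prime_iff_eq hl hm).1 h2)

lemma not_dvd1 {L l1 l2 j1 j2 : ℕ} (h1 : l1.Prime) (h2 : l2.Prime) (hne : l1 ≠ l2) (hL : L < l1)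
    (ha : 1 ≤ j1) (ha2 : j1 ≤ L) : ¬ (l1 : ℤ) ∣ (j1 : ℤ) * l2 - (j2 : ℤ) * l1 := by
  intro h
  apply not_dvd_mul h1 h2 hne hL ha ha2
  have := dvd_add h (Dvd.intro_left (j2 : ℤ) rfl : (l1 : ℤ) ∣ (j2 : ℤ) * l1)
  rwa [sub_add_cancel] at this

lemma not_dvd2 {L l1 l2 j1 j2 : ℕ} (h1 : l1.Prime) (h2 : l2.Prime) (hne : l1 ≠ l2) (hL : L < l2)
    (ha : 1 ≤ j2) (ha2 : j2 ≤ L) : ¬ (l2 : ℤ) ∣ (j1 : ℤ) * l2 - (j2 : ℤ) * l1 := by
  intro h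
  apply not_dvd_mul h2 h1 (Ne.symm hne) hL ha ha2
  have := dvd_sub (Dvd.intro_left (j1 : ℤ) rfl : (l2 : ℤ) ∣ (j1 : ℤ) * l2) h
  rwa [sub_sub_cancel] at this

/-- the structure of the zeros -/
lemma zero_struct {L J : ℕ} (hJL : J ≤ L) {l1 l2 l1' l2' : ℕ} {t t' : ℤ} {j1 j2 j1' j2' : ℕ}
    (hP : ((l1, l2, t), (j1, j2)) ∈ Par2 L J) (hP' : ((l1', l2', t'), (j1', j2')) ∈ Par2 L J)
    (h : Bq2 ((l1, l2, t), (j1, j2)) ((l1', l2', t'), (j1', j2')) = 0) :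
    ((l1' = l1 ∧ l2' = l2) ∨ (l1' = l2 ∧ l2' = l1)) ∧
      ((j1 : ℤ) * l2 - (j2 : ℤ) * l1) * t = ((j1' : ℤ) * l2' - (j2' : ℤ) * l1') * t' := by
  obtain ⟨⟨hL1, hl1⟩, ⟨hL2, hl2⟩, hne, ht0, hd1, hd2, hj1, hj2⟩ := mem_unpack hP
  obtain ⟨⟨hL1', hl1'⟩, ⟨hL2', hl2'⟩, hne', ht0', hd1', hd2', hj1', hj2'⟩ := mem_unpack hP'
  unfold Bq2 jl at h
  simp only at h
  have P1 : Prime (l1 : ℤ) := Nat.prime_iff_prime_int.mp hl1
  have P2 : Prime (l2 : ℤ) := Nat.prime_iff_prime_int.mp hl2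
  have a1 := not_dvd1 (j2 := j2) hl1 hl2 hne hL1 hj1.1 (by omega)
  have a2 := not_dvd2 (j1 := j1) hl1 hl2 hne hL2 hj2.1 (by omega)
  have b1 := step (l' := l1') (m' := l2') (a := ((j1' : ℤ) * l2' - (j2' : ℤ) * l1') * t' * l2)
    P1 a1 hd1 (by linear_combination h)
  have b2 := step (l' := l1') (m' := l2') (a := ((j1' : ℤ) * l2' - (j2' : ℤ) * l1') * t' * l1)
    P2 a2 hd2 (by linear_combination h)
  have c1 : (l1 : ℤ) ≠ 0 := P1.ne_zero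
  have c2 : (l2 : ℤ) ≠ 0 := P2.ne_zero
  have c12 : (l1 : ℤ) * l2 ≠ 0 := mul_ne_zero c1 c2
  rcases b1 with b1 | b1
  · have e1 := prime_dvd_eq hl1 hl1' b1
    rcases b2 with b2 | b2
    · exact absurd (e1.trans (prime_dvd_eq hl2 hl1' b2).symm) hne
    · have e2 := prime_dvd_eq hl2 hl2' b2
      subst e1 e2
      refine ⟨Or.inl ⟨rfl, rfl⟩, ?_⟩
      apply mul_left_cancel₀ c12
      linear_combination h
  · have e1 := prime_dvd_eq hl1 hl2' b1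
    rcases b2 with b2 | b2
    · have e2 := prime_dvd_eq hl2 hl1' b2
      subst e1 e2
      refine ⟨Or.inr ⟨rfl, rfl⟩, ?_⟩
      apply mul_left_cancel₀ c12
      linear_combination h
    · exact absurd (e1.trans (prime_dvd_eq hl2 hl2' b2).symm) hne

/-- the frequencies are determined by `jl` -/
lemma j_unique {L J : ℕ} (hJL : J ≤ L) {l1 l2 : ℕ} {t : ℤ} {j1 j2 i1 i2 : ℕ}
    (hP : ((l1, l2, t), (j1, j2)) ∈ Par2 L J) (hP' : ((l1, l2, t), (i1, i2)) ∈ Par2 L J)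
    (h : (j1 : ℤ) * l2 - (j2 : ℤ) * l1 = (i1 : ℤ) * l2 - (i2 : ℤ) * l1) : j1 = i1 ∧ j2 = i2 := by
  obtain ⟨⟨hL1, hl1⟩, ⟨hL2, hl2⟩, hne, ht0, hd1, hd2, hj1, hj2⟩ := mem_unpack hP
  obtain ⟨-, -, -, -, -, -, hi1, hi2⟩ := mem_unpack hP'
  have P1 : Prime (l1 : ℤ) := Nat.prime_iff_prime_int.mp hl1
  have c1 : (l1 : ℤ) ≠ 0 := P1.ne_zero
  have h1 : (l1 : ℤ) ∣ ((j1 : ℤ) - i1) * l2 := ⟨(j2 : ℤ) - i2, by linear_combination h⟩
  have h2 : (l1 : ℤ) ∣ (j1 : ℤ) - i1 := by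
    rcases P1.dvd_or_dvd h1 with h2 | h2
    · exact h2
    · exact absurd (prime_dvd_eq hl1 hl2 h2) hne
  have h3 : (j1 : ℤ) - i1 = 0 := by
    apply Int.eq_zero_of_abs_lt_dvd h2
    rw [abs_lt]
    constructor <;> omega
  have h4 : j1 = i1 := by omega
  refine ⟨h4, ?_⟩
  subst h4
  have h5 : (l1 : ℤ) * j2 = l1 * i2 := by linear_combination -h
  have h6 := mul_left_cancel₀ c1 h5
  exact_mod_cast h6

end TaskTH1

open TaskTH1 in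
/-- TH1 (Bz2.lean) -/
theorem jl_ne_zero (L J : ℕ) (hJL : J ≤ L) (P : (ℕ × ℕ × ℤ) × (ℕ × ℕ)) (hP : P ∈ Par2 L J) :
    jl P ≠ 0 := by
  obtain ⟨⟨l1, l2, t⟩, ⟨j1, j2⟩⟩ := P
  obtain ⟨⟨hL1, hl1⟩, ⟨hL2, hl2⟩, hne, ht0, hd1, hd2, hj1, hj2⟩ := mem_unpack hP
  intro h
  apply not_dvd1 (j2 := j2) hl1 hl2 hne hL1 hj1.1 (show j1 ≤ L by omega)
  unfold jl at h
  simp only at h
  rw [h]
  exact dvd_zero _

open TaskTH1 in
/-- TH1 (Bz2.lean) -/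
theorem Bq2_zero_count (L J : ℕ) (hJL : J ≤ L) (P : (ℕ × ℕ × ℤ) × (ℕ × ℕ))
    (hP : P ∈ Par2 L J) :
    (((Par2 L J).filter (fun P' => Bq2 P P' = 0)).card : ℝ) ≤
      4 * tau (jl P * P.1.2.2).natAbs := by
  have hjl := jl_ne_zero L J hJL P hP
  obtain ⟨⟨l1, l2, t⟩, ⟨j1, j2⟩⟩ := P
  obtain ⟨⟨hL1, hl1⟩, ⟨hL2, hl2⟩, hne, ht0, hd1, hd2, hj1, hj2⟩ := mem_unpack hP
  set K : ℤ := jl ((l1, l2, t), (j1, j2)) * t with hK
  have hK0 : K ≠ 0 := mul_ne_zero hjl ht0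
  have hcard : ((Par2 L J).filter (fun P' => Bq2 ((l1, l2, t), (j1, j2)) P' = 0)).card ≤
      ((univ : Finset Bool) ×ˢ ((univ : Finset Bool) ×ˢ K.natAbs.divisors)).card := by
    apply Finset.card_le_card_of_injOn
      (fun P' : (ℕ × ℕ × ℤ) × (ℕ × ℕ) =>
        (decide (P'.1.1 = l1), decide (0 < P'.1.2.2), P'.1.2.2.natAbs))
    · rintro ⟨⟨l1', l2', t'⟩, ⟨j1', j2'⟩⟩ h
      rw [Finset.mem_coe, Finset.mem_filter] at h
      obtain ⟨h1, h2⟩ := h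
      obtain ⟨-, h3⟩ := zero_struct hJL hP h1 h2
      simp only [Finset.coe_product, Set.mem_prod, Finset.mem_coe, Finset.mem_univ, true_and,
        Nat.mem_divisors]
      refine ⟨?_, by simpa using hK0⟩
      apply Int.natAbs_dvd_natAbs.2
      rw [hK]
      unfold jl
      simp only
      rw [h3]
      exact Dvd.intro_left _ rfl
    · rintro ⟨⟨l1', l2', t'⟩, ⟨j1', j2'⟩⟩ h ⟨⟨l1'', l2'', t''⟩, ⟨j1'', j2''⟩⟩ h' heq
      rw [Finset.mem_coe, Finset.mem_filter] at h h'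
      obtain ⟨h1, h2⟩ := h
      obtain ⟨h1', h2'⟩ := h'
      obtain ⟨hs, h3⟩ := zero_struct hJL hP h1 h2
      obtain ⟨hs', h3'⟩ := zero_struct hJL hP h1' h2'
      have ht' := (mem_unpack h1).2.2.2.1
      have ht'' := (mem_unpack h1').2.2.2.1
      simp only [Prod.mk.injEq, decide_eq_decide] at heq
      obtain ⟨e1, e2, e3⟩ := heq
      have et : t' = t'' := by omega
      have el : l1' = l1'' ∧ l2' = l2'' := by
        rcases hs with ⟨a, b⟩ | ⟨a, b⟩ <;> rcases hs' with ⟨c, d⟩ | ⟨c, d⟩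
        · exact ⟨by omega, by omega⟩
        · have := e1.1 a
          omega
        · have := e1.2 c
          omega
        · exact ⟨by omega, by omega⟩
      obtain ⟨el1, el2⟩ := el
      subst et el1 el2
      have h4 : ((j1' : ℤ) * l2' - (j2' : ℤ) * l1') = ((j1'' : ℤ) * l2' - (j2'' : ℤ) * l1') :=
        mul_right_cancel₀ ht' (h3.symm.trans h3')
      obtain ⟨e4, e5⟩ := j_unique hJL h1 h1' h4
      subst e4 e5
      rfl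
  have h1 : ((univ : Finset Bool) ×ˢ ((univ : Finset Bool) ×ˢ K.natAbs.divisors)).card =
      4 * K.natAbs.divisors.card := by
    rw [Finset.card_product, Finset.card_product]
    simp
    ring
  rw [h1] at hcard
  unfold tau
  exact_mod_cast hcard

end Pool.Agent.H442R2.KF
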