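import Pool.Agent.H442R2.KF.Defs2
import Pool.Agent.H510R2.Div

/-! KF project, part 2, task TD: the diagonal. -/

namespace Pool.Agent.H442R2.KF

open Finset

namespace TaskTD

/-- orthogonality, upper bound -/
lemma orth (n : ℕ) (hn : 0 < n) (h : ℤ) :
    ‖∑ u ∈ range n, e ((h : ℝ) * u / n)‖ ≤ if (n : ℤ) ∣ h then (n : ℝ) else 0 := by
  have hn0 : (n : ℝ) ≠ 0 := by exact_mod_cast hn.ne'
  split_ifs with hd
  · refine (norm_sum_le _ _).trans ?_
    simp [norm_e]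
  · set r : ℂ := e ((h : ℝ) / n) with hr
    have hpow : ∀ u : ℕ, e ((h : ℝ) * u / n) = r ^ u := by
      intro u
      induction u with
      | zero => simp [e_zero]
      | succ u ih =>
        rw [pow_succ, ← ih, hr, ← e_add]
        congr 1
        push_cast
        ring
    have hr1 : r ≠ 1 := by
      intro h1
      apply hd
      rw [hr] at h1
      unfold e at h1
      rw [Complex.exp_eq_one_iff] at h1
      obtain ⟨z, hz⟩ := h1
      have h2 : ((2 * Real.pi * ((h : ℝ) / n) : ℝ) : ℂ) = ((z : ℂ) * (2 * Real.pi)) := by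
        have := mul_right_cancel₀ Complex.I_ne_zero (by rw [hz]; ring :
          ((2 * Real.pi * ((h : ℝ) / n) : ℝ) : ℂ) * Complex.I = ((z : ℂ) * (2 * Real.pi)) * Complex.I)
        exact this
      have h3 : 2 * Real.pi * ((h : ℝ) / n) = z * (2 * Real.pi) := by exact_mod_cast h2
      have h4 : (h : ℝ) / n = z := by
        have hpi : (2 * Real.pi) ≠ 0 := by positivity
        have : (2 * Real.pi) * ((h : ℝ) / n) = (2 * Real.pi) * z := by rw [h3]; ring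
        exact mul_left_cancel₀ hpi this
      rw [div_eq_iff hn0] at h4
      refine ⟨z, ?_⟩
      have h5 : (h : ℝ) = ((n : ℤ) * z : ℤ) := by push_cast; rw [h4]; ring
      exact_mod_cast h5
    have hrn : r ^ n = 1 := by
      rw [← hpow n]
      have : (h : ℝ) * n / n = h := by field_simp
      rw [this, e_int]
    have hsum : ∑ u ∈ range n, e ((h : ℝ) * u / n) = 0 := by
      simp only [hpow]
      have := geom_sum_mul r n
      rw [hrn, sub_self] at this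
      rcases mul_eq_zero.1 this with h1 | h1
      · exact h1
      · exact absurd (sub_eq_zero.1 h1) hr1
    rw [hsum, norm_zero]

/-- the number of `j₂` -/
lemma count (n : ℕ) (hn : 0 < n) (k : ℤ) (J j₁ : ℕ) :
    (n : ℝ) * (((Icc 1 J).filter (fun j₂ : ℕ => (n : ℤ) ∣ ((j₁ : ℤ) - j₂) * k)).card : ℝ) ≤
      J * Int.gcd k n + n := by
  set g := Int.gcd k n with hg
  have hgpos : 0 < g := Int.gcd_pos_of_ne_zero_right k (by exact_mod_cast hn.ne')
  obtain ⟨q, hq⟩ : g ∣ n := by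
    have := Int.gcd_dvd_right k n
    exact_mod_cast this
  have hqpos : 0 < q := by
    rcases Nat.eq_zero_or_pos q with h | h
    · rw [h, mul_zero] at hq; omega
    · exact h
  obtain ⟨k', hk'⟩ : (g : ℤ) ∣ k := Int.gcd_dvd_left k n
  have hcop : IsCoprime (q : ℤ) k' := by
    rw [Int.isCoprime_iff_gcd_eq_one, Int.gcd_comm]
    have h1 : Int.gcd ((g : ℤ) * k') ((g : ℤ) * q) = g := by
      rw [← hk']
      have : (g : ℤ) * q = n := by exact_mod_cast hq.symm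
      rw [this]
    rw [Int.gcd_mul_left, Int.natAbs_natCast] at h1
    have h2 : g * Int.gcd k' q = g * 1 := by rw [h1, mul_one]
    exact Nat.eq_of_mul_eq_mul_left hgpos h2
  have hsub : (Icc 1 J).filter (fun j₂ : ℕ => (n : ℤ) ∣ ((j₁ : ℤ) - j₂) * k) ⊆
      (Ioc 0 J).filter (fun x => x ≡ j₁ [MOD q]) := by
    intro j hj
    rw [Finset.mem_filter, Finset.mem_Icc] at hj
    rw [Finset.mem_filter, Finset.mem_Ioc]
    refine ⟨⟨by omega, hj.1.2⟩, ?_⟩
    have h1 : (q : ℤ) ∣ ((j₁ : ℤ) - j) * k' := by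
      have h2 : (g : ℤ) * q ∣ (g : ℤ) * (((j₁ : ℤ) - j) * k') := by
        have h3 : (g : ℤ) * q = n := by exact_mod_cast hq.symm
        have h4 : (g : ℤ) * (((j₁ : ℤ) - j) * k') = ((j₁ : ℤ) - j) * k := by rw [hk']; ring
        rw [h3, h4]
        exact hj.2
      exact (mul_dvd_mul_iff_left (by exact_mod_cast hgpos.ne')).1 h2
    have h2 : (q : ℤ) ∣ (j₁ : ℤ) - j := hcop.dvd_of_dvd_mul_right h1
    exact (Nat.modEq_iff_dvd).2 h2
  have hcard := Finset.card_le_card hsub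
  have hcount := Nat.Ioc_filter_modEq_card 0 J hqpos j₁
  have hle : (((Ioc 0 J).filter (fun x => x ≡ j₁ [MOD q])).card : ℚ) ≤ J / q + 1 := by
    have h1 : (((Ioc 0 J).filter (fun x => x ≡ j₁ [MOD q])).card : ℚ) =
        ((max (⌊((J : ℚ) - j₁) / (q : ℚ)⌋ - ⌊((0 : ℕ) - j₁ : ℚ) / (q : ℚ)⌋) 0 : ℤ) : ℚ) := by
      exact_mod_cast hcount
    rw [h1]
    push_cast
    apply max_le
    · have h2 := Int.floor_le (((J : ℚ) - j₁) / (q : ℚ))
      have h3 := Int.sub_one_lt_floor (((0 : ℚ) - j₁) / (q : ℚ))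
      have h4 : ((J : ℚ) - j₁) / q - ((0 : ℚ) - j₁) / q = J / q := by ring
      linarith
    · positivity
  have hle' : (((Ioc 0 J).filter (fun x => x ≡ j₁ [MOD q])).card : ℝ) ≤ J / q + 1 := by
    have := (Rat.cast_le (K := ℝ)).2 hle
    push_cast at this
    exact this
  have hc : (((Icc 1 J).filter (fun j₂ : ℕ => (n : ℤ) ∣ ((j₁ : ℤ) - j₂) * k)).card : ℝ) ≤
      J / q + 1 := le_trans (by exact_mod_cast hcard) hle'
  have hq0 : (0 : ℝ) < q := by exact_mod_cast hqpos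
  have hnq : (n : ℝ) = g * q := by exact_mod_cast hq
  calc (n : ℝ) * _ ≤ n * (J / q + 1) := mul_le_mul_of_nonneg_left hc (by positivity)
    _ = J * g + n := by rw [hnq]; field_simp

/-- large sieve type bound for one frequency vector -/
lemma one (M J n : ℕ) (hM : 1 ≤ M) (hn : n ∈ Ioc M (2 * M + 1)) (k : ℤ) (c : ℕ → ℂ) (A : ℝ)
    (hA : 0 ≤ A) (hc : ∀ j, ‖c j‖ ≤ A) :
    ∑ m ∈ (Ioc M (2 * M + 1)).filter (fun m => Nat.Coprime m n),
      ‖∑ j ∈ Icc 1 J, c j * kf ((j : ℤ) * k) m n‖ ^ 2 ≤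
      A ^ 2 * ((n : ℝ) * J + (J : ℝ) ^ 2 * Int.gcd k n) := by
  rw [Finset.mem_Ioc] at hn
  have hn0 : 0 < n := by omega
  haveI : NeZero n := ⟨hn0.ne'⟩
  set Fu : ℕ → ℂ := fun u => ∑ j ∈ Icc 1 J, c j * e ((j : ℝ) * k * u / n) with hFu
  have h1 : ∀ m : ℕ, ∑ j ∈ Icc 1 J, c j * kf ((j : ℤ) * k) m n = Fu (((m : ZMod n)⁻¹).val) := by
    intro m
    rw [hFu]
    refine Finset.sum_congr rfl fun j _ => ?_
    unfold kf
    push_cast
    rfl
  have h2 : ∑ m ∈ (Ioc M (2 * M + 1)).filter (fun m => Nat.Coprime m n),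
      ‖∑ j ∈ Icc 1 J, c j * kf ((j : ℤ) * k) m n‖ ^ 2 ≤ ∑ u ∈ range n, ‖Fu u‖ ^ 2 := by
    simp only [h1]
    have hinj : Set.InjOn (fun m : ℕ => ((m : ZMod n)⁻¹).val)
        ((Ioc M (2 * M + 1)).filter (fun m => Nat.Coprime m n) : Set ℕ) := by
      intro a ha b hb hab
      rw [Finset.mem_coe, Finset.mem_filter, Finset.mem_Ioc] at ha hb
      have h3 : (a : ZMod n)⁻¹ = (b : ZMod n)⁻¹ := ZMod.val_injective n hab
      have ha1 : (a : ZMod n) * (a : ZMod n)⁻¹ = 1 := ZMod.coe_mul_inv_eq_one a ha.2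
      have hb1 : (b : ZMod n) * (b : ZMod n)⁻¹ = 1 := ZMod.coe_mul_inv_eq_one b hb.2
      have h4 : (a : ZMod n) = b := by
        calc (a : ZMod n) = a * (b * (b : ZMod n)⁻¹) := by rw [hb1, mul_one]
          _ = b * (a * (b : ZMod n)⁻¹) := by ring
          _ = b * (a * (a : ZMod n)⁻¹) := by rw [h3]
          _ = b := by rw [ha1, mul_one]
      rw [ZMod.natCast_eq_natCast_iff] at h4
      have h5 := (Nat.modEq_iff_dvd).1 h4
      by_contra hne
      have h6 : (n : ℤ) ≤ |(b : ℤ) - a| := Int.le_of_dvd (abs_pos.2 (by omega)) ((dvd_abs _ _).2 h5)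
      have h7 : |(b : ℤ) - a| ≤ M := by
        rw [abs_le]; omega
      omega
    rw [← Finset.sum_image (f := fun u => ‖Fu u‖ ^ 2) hinj]
    apply Finset.sum_le_sum_of_subset_of_nonneg
    · intro u hu
      rw [Finset.mem_image] at hu
      obtain ⟨m, _, rfl⟩ := hu
      exact Finset.mem_range.2 (ZMod.val_lt _)
    · intro u _ _
      positivity
  refine h2.trans ?_
  -- expand
  have h3 : ((∑ u ∈ range n, ‖Fu u‖ ^ 2 : ℝ) : ℂ) = ∑ j₁ ∈ Icc 1 J, ∑ j₂ ∈ Icc 1 J,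
      c j₁ * (starRingEnd ℂ) (c j₂) *
        ∑ u ∈ range n, e (((((j₁ : ℤ) - j₂) * k : ℤ) : ℝ) * u / n) := by
    push_cast
    have h4 : ∀ u ∈ range n, ((‖Fu u‖ : ℂ)) ^ 2 = ∑ j₁ ∈ Icc 1 J, ∑ j₂ ∈ Icc 1 J,
        c j₁ * (starRingEnd ℂ) (c j₂) * e (((((j₁ : ℤ) - j₂) * k : ℤ) : ℝ) * u / n) := by
      intro u _
      rw [← Complex.mul_conj', hFu, map_sum, Finset.sum_mul_sum]
      refine Finset.sum_congr rfl fun j₁ _ => Finset.sum_congr rfl fun j₂ _ => ?_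
      rw [map_mul, conj_e]
      have h5 : e (((((j₁ : ℤ) - j₂) * k : ℤ) : ℝ) * u / n) =
          e ((j₁ : ℝ) * k * u / n) * e (-((j₂ : ℝ) * k * u / n)) := by
        rw [← e_add]
        congr 1
        push_cast
        ring
      rw [h5]
      ring
    rw [Finset.sum_congr rfl h4, Finset.sum_comm]
    refine Finset.sum_congr rfl fun j₁ _ => ?_
    rw [Finset.sum_comm]
    refine Finset.sum_congr rfl fun j₂ _ => ?_
    rw [Finset.mul_sum]
    push_cast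
    rfl
  have h5 : ∑ u ∈ range n, ‖Fu u‖ ^ 2 ≤ ∑ j₁ ∈ Icc 1 J, ∑ j₂ ∈ Icc 1 J,
      A * A * (if (n : ℤ) ∣ ((j₁ : ℤ) - j₂) * k then (n : ℝ) else 0) := by
    have h6 : ∑ u ∈ range n, ‖Fu u‖ ^ 2 = ‖((∑ u ∈ range n, ‖Fu u‖ ^ 2 : ℝ) : ℂ)‖ := by
      rw [Complex.norm_real, Real.norm_of_nonneg (by positivity)]
    rw [h6, h3]
    refine (norm_sum_le _ _).trans (Finset.sum_le_sum fun j₁ _ => ?_)
    refine (norm_sum_le _ _).trans (Finset.sum_le_sum fun j₂ _ => ?_)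
    rw [norm_mul, norm_mul, RCLike.norm_conj]
    exact mul_le_mul (mul_le_mul (hc _) (hc _) (norm_nonneg _) hA) (orth n hn0 _)
      (norm_nonneg _) (by positivity)
  refine h5.trans ?_
  have h7 : ∀ j₁ ∈ Icc 1 J, ∑ j₂ ∈ Icc 1 J,
      A * A * (if (n : ℤ) ∣ ((j₁ : ℤ) - j₂) * k then (n : ℝ) else 0) ≤
      A ^ 2 * (J * Int.gcd k n + n) := by
    intro j₁ _
    have h8 := count n hn0 k J j₁
    rw [← Finset.mul_sum, ← Finset.sum_filter, Finset.sum_const, nsmul_eq_mul, sq]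
    apply mul_le_mul_of_nonneg_left _ (by positivity)
    linarith
  refine (Finset.sum_le_sum h7).trans ?_
  rw [Finset.sum_const, Nat.card_Icc, Nat.add_sub_cancel, nsmul_eq_mul]
  apply le_of_eq
  ring

/-- telescoping -/
lemma tele (a : ℕ → ℂ) (M t : ℕ) : a (M + 1 + t) = ∑ i ∈ Ioc M (M + 1 + t),
    (if i = M + 1 then a (M + 1) else a i - a (i - 1)) := by
  induction t with
  | zero => simp
  | succ t ih =>
    have h1 : M + 1 + (t + 1) = (M + 1 + t) + 1 := by ring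
    rw [h1, Finset.sum_Ioc_succ_top (by omega), ← ih, if_neg (by omega), Nat.add_sub_cancel]
    ring

lemma card_I (M : ℕ) : (Ioc M (2 * M + 1)).card = M + 1 := by
  rw [Nat.card_Ioc]; omega

end TaskTD

open TaskTD

/-- TD (Dg.lean) -/
theorem DG_n (M J n : ℕ) (hM : 1 ≤ M) (hn : n ∈ Ioc M (2 * M + 1)) (V : ℝ) (hV : 1 ≤ V)
    (ψ : ℕ → ℝ → ℂ) (hψ : ∀ j, Wei M V (ψ j)) (k : ℤ) :
    ∑ m ∈ (Ioc M (2 * M + 1)).filter (fun m => Nat.Coprime m n), ‖FF ψ k J n m‖ ^ 2 ≤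
      16 * V ^ 2 * ((n : ℝ) * J + (J : ℝ) ^ 2 * Int.gcd k n) := by
  have hn' := Finset.mem_Ioc.1 hn
  have hM1 : (1 : ℝ) ≤ M := by exact_mod_cast hM
  have hM0 : (0 : ℝ) < M := by linarith
  have hnM : (M : ℝ) ≤ n := by exact_mod_cast hn'.1.le
  have hn3 : (n : ℝ) ≤ 3 * M := by
    have : (n : ℝ) ≤ 2 * M + 1 := by exact_mod_cast hn'.2
    linarith
  -- coefficients
  set c : ℕ → ℕ → ℂ := fun i j => if i = M + 1 then ψ j (((M + 1 : ℕ) : ℝ) * n) else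
    ψ j ((i : ℝ) * n) - ψ j (((i - 1 : ℕ) : ℝ) * n) with hc
  set A : ℕ → ℝ := fun i => if i = M + 1 then 1 else 3 * V / M with hA
  have hApos : ∀ i, 0 < A i := by
    intro i
    simp only [hA]
    split_ifs
    · norm_num
    · positivity
  have hcA : ∀ i ∈ Ioc M (2 * M + 1), ∀ j, ‖c i j‖ ≤ A i := by
    intro i hi j
    rw [Finset.mem_Ioc] at hi
    simp only [hc, hA]
    split_ifs with h
    · apply (hψ j).bd
      have : (M : ℝ) ≤ ((M + 1 : ℕ) : ℝ) := by push_cast; linarith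
      nlinarith
    · have h1 : (M : ℝ) ≤ ((i - 1 : ℕ) : ℝ) := by
        have : M ≤ i - 1 := by omega
        exact_mod_cast this
      have h2 : ((i - 1 : ℕ) : ℝ) = (i : ℝ) - 1 := by
        rw [Nat.cast_sub (by omega)]; simp
      have h3 : (M : ℝ) ^ 2 ≤ ((i - 1 : ℕ) : ℝ) * n := by nlinarith
      have h4 : (M : ℝ) ^ 2 ≤ (i : ℝ) * n := by
        rw [h2] at h1 h3
        nlinarith
      refine ((hψ j).lip _ _ h4 h3).trans ?_
      have h5 : |(i : ℝ) * n - ((i - 1 : ℕ) : ℝ) * n| = n := by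
        rw [h2]
        have : (i : ℝ) * n - ((i : ℝ) - 1) * n = n := by ring
        rw [this, abs_of_nonneg (Nat.cast_nonneg _)]
      rw [h5, div_le_div_iff₀ (by positivity) hM0]
      nlinarith [mul_le_mul_of_nonneg_left hn3 (by positivity : 0 ≤ V * (M : ℝ))]
  set Y : ℕ → ℕ → ℂ := fun i m => ∑ j ∈ Icc 1 J, c i j * kf ((j : ℤ) * k) m n with hY
  have hFF : ∀ m ∈ Ioc M (2 * M + 1), FF ψ k J n m = ∑ i ∈ Ioc M m, Y i m := by
    intro m hm
    rw [Finset.mem_Ioc] at hm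
    unfold FF
    rw [hY, Finset.sum_comm]
    refine Finset.sum_congr rfl fun j _ => ?_
    rw [← Finset.sum_mul]
    congr 1
    obtain ⟨t, rfl⟩ : ∃ t, m = M + 1 + t := ⟨m - (M + 1), by omega⟩
    exact tele (fun i => ψ j ((i : ℝ) * n)) M t
  have hFF2 : ∀ m ∈ Ioc M (2 * M + 1), ‖FF ψ k J n m‖ ≤ ∑ i ∈ Ioc M (2 * M + 1), ‖Y i m‖ := by
    intro m hm
    rw [hFF m hm]
    refine (norm_sum_le _ _).trans ?_
    apply Finset.sum_le_sum_of_subset_of_nonneg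
    · exact Finset.Ioc_subset_Ioc_right (Finset.mem_Ioc.1 hm).2
    · intro _ _ _
      exact norm_nonneg _
  have hsumA : ∑ i ∈ Ioc M (2 * M + 1), A i ≤ 4 * V := by
    have h1 : ∑ i ∈ Ioc M (2 * M + 1), A i ≤ ∑ i ∈ Ioc M (2 * M + 1),
        ((if i = M + 1 then (1 : ℝ) - 3 * V / M else 0) + 3 * V / M) := by
      refine Finset.sum_le_sum fun i _ => ?_
      simp only [hA]
      split_ifs <;> linarith
    refine h1.trans ?_
    rw [Finset.sum_add_distrib, Finset.sum_ite_eq', if_pos (by rw [Finset.mem_Ioc]; omega),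
      Finset.sum_const, card_I, nsmul_eq_mul]
    push_cast
    have : (M + 1 : ℝ) * (3 * V / M) = 3 * V + 3 * V / M := by field_simp
    rw [this]
    linarith
  have hsumA0 : 0 < ∑ i ∈ Ioc M (2 * M + 1), A i := by
    apply Finset.sum_pos (fun i _ => hApos i)
    exact ⟨M + 1, by rw [Finset.mem_Ioc]; omega⟩
  set SA := ∑ i ∈ Ioc M (2 * M + 1), A i with hSA
  set Bd := (n : ℝ) * J + (J : ℝ) ^ 2 * Int.gcd k n with hBd
  have hBd0 : 0 ≤ Bd := by positivity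
  have hstep : ∀ m ∈ (Ioc M (2 * M + 1)).filter (fun m => Nat.Coprime m n),
      ‖FF ψ k J n m‖ ^ 2 ≤ SA * ∑ i ∈ Ioc M (2 * M + 1), ‖Y i m‖ ^ 2 / A i := by
    intro m hm
    have h1 := hFF2 m (Finset.mem_filter.1 hm).1
    have h2 := Finset.sq_sum_div_le_sum_sq_div (Ioc M (2 * M + 1)) (fun i => ‖Y i m‖)
      (fun i _ => hApos i)
    rw [div_le_iff₀ hsumA0] at h2
    calc ‖FF ψ k J n m‖ ^ 2 ≤ (∑ i ∈ Ioc M (2 * M + 1), ‖Y i m‖) ^ 2 :=
          pow_le_pow_left₀ (norm_nonneg _) h1 2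
      _ ≤ _ := h2
      _ = _ := mul_comm _ _
  refine (Finset.sum_le_sum hstep).trans ?_
  rw [← Finset.mul_sum, Finset.sum_comm]
  have hin : ∀ i ∈ Ioc M (2 * M + 1), ∑ m ∈ (Ioc M (2 * M + 1)).filter (fun m => Nat.Coprime m n),
      ‖Y i m‖ ^ 2 / A i ≤ A i * Bd := by
    intro i hi
    rw [← Finset.sum_div, div_le_iff₀ (hApos i)]
    have := one M J n hM hn k (c i) (A i) (hApos i).le (hcA i hi)
    calc _ ≤ A i ^ 2 * Bd := this
      _ = _ := by ring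
  have h1 := Finset.sum_le_sum hin
  rw [← Finset.sum_mul] at h1
  calc SA * _ ≤ SA * (SA * Bd) := mul_le_mul_of_nonneg_left h1 hsumA0.le
    _ = SA ^ 2 * Bd := by ring
    _ ≤ (4 * V) ^ 2 * Bd := by
      apply mul_le_mul_of_nonneg_right _ hBd0
      exact pow_le_pow_left₀ hsumA0.le hsumA 2
    _ = 16 * V ^ 2 * Bd := by ring

namespace TaskTD

/-- the sum of the gcd's -/
lemma gcd_sum (M : ℕ) (hM : 1 ≤ M) (k : ℤ) (hk : k ≠ 0) :
    ∑ n ∈ Ioc M (2 * M + 1), (Int.gcd k n : ℝ) ≤ 3 * M * tau k.natAbs := by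
  have hk0 : k.natAbs ≠ 0 := Int.natAbs_ne_zero.2 hk
  have h1 : ∀ n ∈ Ioc M (2 * M + 1), (Int.gcd k n : ℝ) ≤
      ∑ f ∈ k.natAbs.divisors, if f ∣ n then (f : ℝ) else 0 := by
    intro n _
    have hmem : Int.gcd k n ∈ k.natAbs.divisors := by
      rw [Nat.mem_divisors]
      exact ⟨by
        have := Int.gcd_dvd_left k n
        exact Int.natCast_dvd.1 this, hk0⟩
    have h2 := Finset.single_le_sum (f := fun f : ℕ => if f ∣ n then (f : ℝ) else 0)
      (fun f _ => by split_ifs <;> positivity) hmem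
    rw [if_pos (by exact_mod_cast Int.gcd_dvd_right k n)] at h2
    exact h2
  refine (Finset.sum_le_sum h1).trans ?_
  rw [Finset.sum_comm]
  have h2 : ∀ f ∈ k.natAbs.divisors, ∑ n ∈ Ioc M (2 * M + 1), (if f ∣ n then (f : ℝ) else 0) ≤
      3 * M := by
    intro f hf
    have hf0 : 0 < f := Nat.pos_of_mem_divisors hf
    rw [← Finset.sum_filter, Finset.sum_const, nsmul_eq_mul]
    have h3 : ((Ioc M (2 * M + 1)).filter (fun n => f ∣ n)).card ≤ (2 * M + 1) / f := by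
      rw [← Nat.Ioc_filter_dvd_card_eq_div]
      apply Finset.card_le_card
      intro x hx
      rw [Finset.mem_filter, Finset.mem_Ioc] at hx ⊢
      exact ⟨⟨by omega, hx.1.2⟩, hx.2⟩
    have h4 : ((Ioc M (2 * M + 1)).filter (fun n => f ∣ n)).card * f ≤ 3 * M := by
      calc _ ≤ (2 * M + 1) / f * f := Nat.mul_le_mul_right _ h3
        _ ≤ 2 * M + 1 := Nat.div_mul_le_self _ _
        _ ≤ 3 * M := by omega
    exact_mod_cast h4
  refine (Finset.sum_le_sum h2).trans ?_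
  rw [Finset.sum_const, nsmul_eq_mul]
  unfold tau
  apply le_of_eq
  ring

end TaskTD

/-- TD (Dg.lean) -/
theorem DG_le (ε : ℝ) (hε : 0 < ε) : ∃ C : ℝ, 0 < C ∧ ∀ (M J : ℕ), 1 ≤ M → 1 ≤ J → J ≤ M →
    ∀ V : ℝ, 1 ≤ V → ∀ ψ : ℕ → ℝ → ℂ, (∀ j, Wei M V (ψ j)) →
    ∀ k : ℤ, k ≠ 0 → |(k : ℝ)| * J ≤ V * (M : ℝ) ^ 2 →
    DG ψ k M J ≤ C * V ^ 3 * (M : ℝ) ^ (2 + ε) * J := by
  set s : ℝ := min ε 1 / 2 with hs
  have hs0 : 0 < s := by rw [hs]; positivity
  have hs1 : s ≤ 1 / 2 := by rw [hs]; linarith [min_le_right ε 1]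
  have hs2 : 2 * s ≤ ε := by rw [hs]; linarith [min_le_left ε 1]
  obtain ⟨C, hC, hdiv⟩ := Pool.Agent.H510R2.divisor_bound s hs0
  refine ⟨16 * (6 + 3 * C), by positivity, ?_⟩
  intro M J hM hJ hJM V hV ψ hψ k hk hkJ
  have hM1 : (1 : ℝ) ≤ M := by exact_mod_cast hM
  have hM0 : (0 : ℝ) < M := by linarith
  have hJ1 : (1 : ℝ) ≤ J := by exact_mod_cast hJ
  have hJMr : (J : ℝ) ≤ M := by exact_mod_cast hJM
  have hV0 : 0 < V := by linarith
  -- the divisor function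
  have htau : tau k.natAbs ≤ C * (V * (M : ℝ) ^ ε) := by
    have h1 : 1 ≤ k.natAbs := Nat.one_le_iff_ne_zero.2 (Int.natAbs_ne_zero.2 hk)
    refine (hdiv _ h1).trans ?_
    apply mul_le_mul_of_nonneg_left _ hC.le
    have h2 : (k.natAbs : ℝ) ≤ V * (M : ℝ) ^ 2 := by
      have : (k.natAbs : ℝ) = |(k : ℝ)| := by
        rw [Nat.cast_natAbs]; push_cast; rfl
      rw [this]
      have h3 : |(k : ℝ)| * 1 ≤ |(k : ℝ)| * J := mul_le_mul_of_nonneg_left hJ1 (abs_nonneg _)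
      linarith
    calc (k.natAbs : ℝ) ^ s ≤ (V * (M : ℝ) ^ 2) ^ s := Real.rpow_le_rpow (by positivity) h2 hs0.le
      _ = V ^ s * (M : ℝ) ^ (2 * s) := by
          rw [Real.mul_rpow hV0.le (by positivity), ← Real.rpow_natCast (M : ℝ) 2,
            ← Real.rpow_mul hM0.le]
          norm_num
      _ ≤ V ^ (1 : ℝ) * (M : ℝ) ^ ε :=
          mul_le_mul (Real.rpow_le_rpow_of_exponent_le hV (by linarith))
            (Real.rpow_le_rpow_of_exponent_le hM1 (by linarith)) (by positivity) (by positivity)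
      _ = V * (M : ℝ) ^ ε := by rw [Real.rpow_one]
  have h1 : DG ψ k M J ≤ ∑ n ∈ Ioc M (2 * M + 1),
      16 * V ^ 2 * ((n : ℝ) * J + (J : ℝ) ^ 2 * Int.gcd k n) := by
    unfold DG
    exact Finset.sum_le_sum fun n hn => DG_n M J n hM hn V hV ψ hψ k
  refine h1.trans ?_
  rw [← Finset.mul_sum, Finset.sum_add_distrib, ← Finset.sum_mul, ← Finset.mul_sum]
  have h2 : ∑ n ∈ Ioc M (2 * M + 1), (n : ℝ) ≤ 6 * (M : ℝ) ^ 2 := by
    calc ∑ n ∈ Ioc M (2 * M + 1), (n : ℝ) ≤ ∑ n ∈ Ioc M (2 * M + 1), (3 * (M : ℝ)) := by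
          refine Finset.sum_le_sum fun n hn => ?_
          have : (n : ℝ) ≤ 2 * M + 1 := by exact_mod_cast (Finset.mem_Ioc.1 hn).2
          linarith
      _ = (M + 1) * (3 * M) := by
          rw [Finset.sum_const, card_I, nsmul_eq_mul]; push_cast; ring
      _ ≤ 6 * (M : ℝ) ^ 2 := by nlinarith
  have h3 := gcd_sum M hM k hk
  have hMe : (1 : ℝ) ≤ (M : ℝ) ^ ε := Real.one_le_rpow hM1 hε.le
  have hpow : (M : ℝ) ^ (2 + ε) = (M : ℝ) ^ 2 * (M : ℝ) ^ ε := by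
    rw [Real.rpow_add hM0]; norm_num
  have h4 : (∑ n ∈ Ioc M (2 * M + 1), (n : ℝ)) * J ≤ 6 * V * ((M : ℝ) ^ 2 * (M : ℝ) ^ ε) * J := by
    apply mul_le_mul_of_nonneg_right _ (by positivity)
    calc _ ≤ 6 * (M : ℝ) ^ 2 := h2
      _ = 6 * 1 * ((M : ℝ) ^ 2 * 1) := by ring
      _ ≤ 6 * V * ((M : ℝ) ^ 2 * (M : ℝ) ^ ε) := by gcongr
  have h5 : (J : ℝ) ^ 2 * ∑ n ∈ Ioc M (2 * M + 1), (Int.gcd k n : ℝ) ≤
      3 * C * V * ((M : ℝ) ^ 2 * (M : ℝ) ^ ε) * J := by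
    calc (J : ℝ) ^ 2 * ∑ n ∈ Ioc M (2 * M + 1), (Int.gcd k n : ℝ)
        ≤ (J : ℝ) ^ 2 * (3 * M * (C * (V * (M : ℝ) ^ ε))) := by
          apply mul_le_mul_of_nonneg_left _ (by positivity)
          exact h3.trans (mul_le_mul_of_nonneg_left htau (by positivity))
      _ = 3 * C * V * (M * J * (M : ℝ) ^ ε) * J := by ring
      _ ≤ 3 * C * V * (M * M * (M : ℝ) ^ ε) * J := by gcongr
      _ = _ := by ring
  rw [hpow]
  calc 16 * V ^ 2 * ((∑ n ∈ Ioc M (2 * M + 1), (n : ℝ)) * J +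
        (J : ℝ) ^ 2 * ∑ n ∈ Ioc M (2 * M + 1), (Int.gcd k n : ℝ))
      ≤ 16 * V ^ 2 * (6 * V * ((M : ℝ) ^ 2 * (M : ℝ) ^ ε) * J +
        3 * C * V * ((M : ℝ) ^ 2 * (M : ℝ) ^ ε) * J) := by
        apply mul_le_mul_of_nonneg_left (add_le_add h4 h5) (by positivity)
    _ = _ := by ring

end Pool.Agent.H442R2.KF
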