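import Pool.Agent.H442R2.KF.Defs

/-!
KF project, task F0: elementary facts on `qp`, `vp`.
-/

namespace Pool.Agent.H442R2.KF

open Finset

/-- F0 (Qp.lean): elementary facts on `qp`, `vp` -/
theorem qp_facts (G m : ℕ) (hm : 0 < m) :
    Squarefree (qp G m) ∧ 0 < qp G m ∧ qp G m ∣ m ∧ 0 < vp G m ∧ qp G m * vp G m = m ∧
      Nat.Coprime (qp G m) (vp G m) ∧ Nat.Coprime (qp G m) G ∧
      2 ^ (qp G m).primeFactors.card ≤ m.divisors.card := by
  set S := m.primeFactors.filter (fun r => ¬ r ∣ G ∧ ¬ r ^ 2 ∣ m) with hS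
  have hq : qp G m = ∏ r ∈ S, r := rfl
  have hp : ∀ r ∈ S, r.Prime := fun r hr =>
    Nat.prime_of_mem_primeFactors (Finset.mem_filter.1 hr).1
  have hpd : ∀ r ∈ S, r ∣ m := fun r hr =>
    Nat.dvd_of_mem_primeFactors (Finset.mem_filter.1 hr).1
  have hqpos : 0 < qp G m := by
    rw [hq]
    exact Finset.prod_pos fun r hr => (hp r hr).pos
  have hdvd : qp G m ∣ m := by
    rw [hq]
    exact Finset.prod_primes_dvd m (fun r hr => (hp r hr).prime) hpd
  have hmul : qp G m * vp G m = m := Nat.mul_div_cancel' hdvd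
  have hvpos : 0 < vp G m := Nat.div_pos (Nat.le_of_dvd hm hdvd) hqpos
  have hpf : (qp G m).primeFactors = S := by
    rw [hq]
    exact Nat.primeFactors_prod hp
  have hsq : Squarefree (qp G m) := by
    rw [Nat.squarefree_iff_prime_squarefree]
    intro r hr hrr
    have h1 : r ∈ S := by
      rw [← hpf]
      exact Nat.mem_primeFactors.2 ⟨hr, (Dvd.intro _ rfl).trans hrr, hqpos.ne'⟩
    have h2 : r ^ 2 ∣ m := by
      rw [pow_two]
      exact hrr.trans hdvd
    exact (Finset.mem_filter.1 h1).2.2 h2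
  refine ⟨hsq, hqpos, hdvd, hvpos, hmul, ?_, ?_, ?_⟩
  · by_contra hc
    obtain ⟨r, hr, h1, h2⟩ := Nat.Prime.not_coprime_iff_dvd.1 hc
    have h3 : r ∈ S := by
      rw [← hpf]
      exact Nat.mem_primeFactors.2 ⟨hr, h1, hqpos.ne'⟩
    have h4 : r ^ 2 ∣ m := by
      rw [pow_two, ← hmul]
      exact mul_dvd_mul h1 h2
    exact (Finset.mem_filter.1 h3).2.2 h4
  · rw [hq]
    refine Nat.Coprime.prod_left fun r hr => ?_
    exact (hp r hr).coprime_iff_not_dvd.2 (Finset.mem_filter.1 hr).2.1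
  · rw [hpf, ← Finset.card_powerset]
    refine Finset.card_le_card_of_injOn (fun T => ∏ r ∈ T, r) ?_ ?_
    · intro T hT
      have hT' : T ⊆ S := Finset.mem_powerset.1 hT
      refine Nat.mem_divisors.2 ⟨?_, hm.ne'⟩
      exact Finset.prod_primes_dvd m (fun r hr => (hp r (hT' hr)).prime)
        fun r hr => hpd r (hT' hr)
    · intro T hT T' hT' h
      have h1 : T ⊆ S := Finset.mem_powerset.1 hT
      have h2 : T' ⊆ S := Finset.mem_powerset.1 hT'
      have e1 := Nat.primeFactors_prod (s := T) fun r hr => hp r (h1 hr)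
      have e2 := Nat.primeFactors_prod (s := T') fun r hr => hp r (h2 hr)
      rw [← e1, ← e2]
      exact congrArg Nat.primeFactors h

end Pool.Agent.H442R2.KF
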