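import Pool.Agent.H442R2.KF.Defs
import Pool.Agent.H442R2.KF.Qp
import Pool.Agent.H442R2.KF.Lip

/-!
KF project, task F: the sum over `m₁` for fixed `m₂`.
-/

namespace Pool.Agent.H442R2.KF

open Finset

namespace TaskF

theorem nuR_between (p : ℕ × ℕ × ℤ) (m₂ : ℕ) (A B s lo hi : ℝ) (h1 : A ≤ s) (h2 : s ≤ B)
    (hA : lo < nuR p m₂ A) (hA' : nuR p m₂ A ≤ hi) (hB : lo < nuR p m₂ B)
    (hB' : nuR p m₂ B ≤ hi) : lo < nuR p m₂ s ∧ nuR p m₂ s ≤ hi := by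
  have key : ∀ x : ℝ, nuR p m₂ x =
      (p.2.1 : ℝ) / (p.2.2 : ℝ) * x + (-((p.1 : ℝ) * m₂) / (p.2.2 : ℝ)) := by
    intro x; unfold nuR; ring
  rw [key] at hA hA' hB hB' ⊢
  set a := (p.2.1 : ℝ) / (p.2.2 : ℝ)
  set c := (-((p.1 : ℝ) * m₂) / (p.2.2 : ℝ))
  rcases le_total 0 a with ha | ha
  · have e1 : a * A ≤ a * s := mul_le_mul_of_nonneg_left h1 ha
    have e2 : a * s ≤ a * B := mul_le_mul_of_nonneg_left h2 ha
    constructor <;> linarith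
  · have e1 : a * s ≤ a * A := mul_le_mul_of_nonpos_left h1 ha
    have e2 : a * B ≤ a * s := mul_le_mul_of_nonpos_left h2 ha
    constructor <;> linarith

theorem nuR_sub (p : ℕ × ℕ × ℤ) (m₂ : ℕ) (s s' : ℝ) :
    nuR p m₂ s - nuR p m₂ s' = (p.2.1 : ℝ) / (p.2.2 : ℝ) * (s - s') := by
  unfold nuR; ring

theorem adm_nuR {M : ℕ} {p : ℕ × ℕ × ℤ} {m₁ m₂ : ℕ} (ht : p.2.2 ≠ 0) (h : adm M p m₁ m₂) :
    nuR p m₂ m₁ = (nu p m₁ m₂ : ℝ) := by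
  obtain ⟨_, hd, hn, _⟩ := h
  obtain ⟨k, hk⟩ := hd
  have hq : ((p.2.1 : ℤ) * m₁ - (p.1 : ℤ) * m₂) / p.2.2 = k := by
    rw [hk]; exact Int.mul_ediv_cancel_left k ht
  have hnu : nu p m₁ m₂ = k.toNat := by unfold nu; rw [hq]
  rw [mem_Ioc] at hn
  rw [hnu] at hn ⊢
  have hk0 : 0 ≤ k := by
    by_contra hneg
    push Not at hneg
    have : k.toNat = 0 := Int.toNat_of_nonpos hneg.le
    omega
  have h2 : ((k.toNat : ℕ) : ℝ) = (k : ℝ) := by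
    have := Int.toNat_of_nonneg hk0
    exact_mod_cast this
  rw [h2]
  unfold nuR
  have htR : (p.2.2 : ℝ) ≠ 0 := by exact_mod_cast ht
  rw [div_eq_iff htR]
  have : ((p.2.1 : ℤ) : ℝ) * ((m₁ : ℤ) : ℝ) - ((p.1 : ℤ) : ℝ) * ((m₂ : ℤ) : ℝ) =
      (p.2.2 : ℝ) * (k : ℝ) := by exact_mod_cast hk
  push_cast at this
  linarith

theorem good_of_tm {M : ℕ} {ψ : ℝ → ℂ} {b : ℤ} {p : ℕ × ℕ × ℤ} {m₁ m₂ : ℕ} (ht : p.2.2 ≠ 0)
    (h : tm ψ b M p m₁ m₂ ≠ 0) : (M : ℝ) < nuR p m₂ m₁ ∧ nuR p m₂ m₁ ≤ 2 * M + 1 := by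
  unfold tm at h
  have ha : adm M p m₁ m₂ := by
    by_contra hna
    rw [if_neg hna] at h
    exact h rfl
  rw [adm_nuR ht ha]
  have := ha.2.2.1
  rw [mem_Ioc] at this
  exact ⟨by exact_mod_cast this.1, by exact_mod_cast this.2⟩

theorem par_mem {L : ℕ} {p : ℕ × ℕ × ℤ} (hp : p ∈ Par L) :
    p.1 ∈ Ioc L (2 * L) ∧ p.2.1 ∈ Ioc L (2 * L) ∧ p.2.2 ≠ 0 := by
  unfold Par at hp
  simp only [mem_filter, mem_product, PL] at hp
  exact ⟨hp.1.1.1, hp.1.2.1.1, hp.2.2.1⟩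

/-- the real inequality at the end -/
theorem final_ineq (M L : ℕ) (hM : 1 ≤ M) (V : ℝ) (hV : 1 ≤ V) (l1 l1' v g q m₂ R w T : ℕ)
    (hl : l1 ≤ 2 * L) (hl' : l1' ≤ 2 * L) (hqv : q * v = m₂) (hv : 0 < v) (hq : 0 < q)
    (hR : v ≤ R) (hm : M < m₂) (hm' : m₂ ≤ 2 * M + 1) (hT : 2 ^ w ≤ T) (BA lam : ℝ)
    (hBA : 0 ≤ BA) (hBAM : BA ≤ M) (hlam : lam * BA ≤ 78 * V) :
    ((l1 * l1' * v * g : ℕ) : ℝ) * ((1 + lam * BA) *
        (2 ^ w * Real.sqrt q * (BA / (R * q) + 2 + Real.log q))) ≤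
      3000 * V * (L : ℝ) ^ 2 * g * Real.sqrt v * Real.sqrt M * T * (1 + Real.log M) := by
  have hM' : (1 : ℝ) ≤ M := by exact_mod_cast hM
  have hq' : (0 : ℝ) < q := by exact_mod_cast hq
  have hv' : (0 : ℝ) < v := by exact_mod_cast hv
  have hR' : (v : ℝ) ≤ R := by exact_mod_cast hR
  have hqv' : (q : ℝ) * v = m₂ := by exact_mod_cast hqv
  have hmM : (M : ℝ) ≤ m₂ := by exact_mod_cast hm.le
  have hm3 : (m₂ : ℝ) ≤ 3 * M := by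
    have : (m₂ : ℝ) ≤ 2 * M + 1 := by exact_mod_cast hm'
    linarith
  have hlogM : 0 ≤ Real.log M := Real.log_nonneg hM'
  have hlog3 : Real.log 3 ≤ 1.1 := by
    have h := Real.log_three_lt_d9
    linarith
  have hT' : (2 : ℝ) ^ w ≤ T := by exact_mod_cast hT
  -- the last factor
  have h1 : BA / (R * q) ≤ 1 := by
    rw [div_le_one (by nlinarith)]
    calc BA ≤ M := hBAM
      _ ≤ m₂ := hmM
      _ = q * v := hqv'.symm
      _ ≤ R * q := by nlinarith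
  have hqm : (q : ℝ) ≤ 3 * M := by
    have h0 : (1 : ℝ) ≤ v := by exact_mod_cast hv
    have : (q : ℝ) * 1 ≤ q * v := mul_le_mul_of_nonneg_left h0 hq'.le
    linarith
  have h2 : Real.log q ≤ 1.1 + Real.log M := by
    have : Real.log q ≤ Real.log (3 * M) := Real.log_le_log hq' hqm
    rw [Real.log_mul (by norm_num) (by positivity)] at this
    linarith
  have hlogq : 0 ≤ Real.log q := Real.log_natCast_nonneg q
  have h3 : BA / (R * q) + 2 + Real.log q ≤ 4.1 * (1 + Real.log M) := by linarith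
  have h3' : 0 ≤ BA / (R * q) + 2 + Real.log q := by positivity
  -- the square roots
  have h4 : (v : ℝ) * Real.sqrt q ≤ 1.7321 * (Real.sqrt v * Real.sqrt M) := by
    have e1 : (v : ℝ) * Real.sqrt q = Real.sqrt v * Real.sqrt (m₂ : ℝ) := by
      rw [← hqv', Real.sqrt_mul hq'.le]
      have := Real.mul_self_sqrt hv'.le
      calc (v : ℝ) * Real.sqrt q = (Real.sqrt v * Real.sqrt v) * Real.sqrt q := by rw [this]
        _ = Real.sqrt v * (Real.sqrt q * Real.sqrt v) := by ring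
    rw [e1]
    have e2 : Real.sqrt (m₂ : ℝ) ≤ 1.7321 * Real.sqrt M := by
      have : (1.7321 : ℝ) * Real.sqrt M = Real.sqrt (1.7321 ^ 2 * M) := by
        rw [Real.sqrt_mul (by norm_num), Real.sqrt_sq (by norm_num)]
      rw [this]
      apply Real.sqrt_le_sqrt
      nlinarith
    calc Real.sqrt v * Real.sqrt (m₂ : ℝ) ≤ Real.sqrt v * (1.7321 * Real.sqrt M) :=
          mul_le_mul_of_nonneg_left e2 (Real.sqrt_nonneg _)
      _ = 1.7321 * (Real.sqrt v * Real.sqrt M) := by ring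
  have h5 : 1 + lam * BA ≤ 79 * V := by linarith
  have hll : (l1 : ℝ) * l1' ≤ 4 * (L : ℝ) ^ 2 := by
    have a1 : (l1 : ℝ) ≤ 2 * L := by exact_mod_cast hl
    have a2 : (l1' : ℝ) ≤ 2 * L := by exact_mod_cast hl'
    have a3 : (0 : ℝ) ≤ l1' := by positivity
    have a4 : (0 : ℝ) ≤ L := by positivity
    nlinarith
  -- assemble
  have hW0 : (0 : ℝ) ≤ 2 ^ w * Real.sqrt q * (BA / (R * q) + 2 + Real.log q) := by positivity
  have hK0 : (0 : ℝ) ≤ ((l1 * l1' * v * g : ℕ) : ℝ) := by positivity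
  calc ((l1 * l1' * v * g : ℕ) : ℝ) * ((1 + lam * BA) *
        (2 ^ w * Real.sqrt q * (BA / (R * q) + 2 + Real.log q)))
      ≤ ((l1 * l1' * v * g : ℕ) : ℝ) * ((79 * V) *
        (2 ^ w * Real.sqrt q * (BA / (R * q) + 2 + Real.log q))) := by
        apply mul_le_mul_of_nonneg_left _ hK0
        exact mul_le_mul_of_nonneg_right h5 hW0
    _ = ((l1 : ℝ) * l1') * g * (79 * V) * (v * Real.sqrt q) * 2 ^ w *
          (BA / (R * q) + 2 + Real.log q) := by push_cast; ring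
    _ ≤ (4 * (L : ℝ) ^ 2) * g * (79 * V) * (1.7321 * (Real.sqrt v * Real.sqrt M)) * T *
          (4.1 * (1 + Real.log M)) := by gcongr
    _ ≤ 3000 * V * (L : ℝ) ^ 2 * g * Real.sqrt v * Real.sqrt M * T * (1 + Real.log M) := by
        have hX : 0 ≤ V * (L : ℝ) ^ 2 * g * Real.sqrt v * Real.sqrt M * T *
            (1 + Real.log M) := by positivity
        nlinarith

/-- the statement of `phase_pair` (task F1) -/
def StPhase : Prop := ∀ (M L : ℕ) (_ : 1 ≤ M) (ψ : ℝ → ℂ) (b : ℤ)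
    (p p' : ℕ × ℕ × ℤ) (_ : p ∈ Par L) (_ : p' ∈ Par L) (_ : PiQ b p p' ≠ 0)
    (m₂ : ℕ) (_ : m₂ ∈ Ioc M (2 * M + 1)),
    ∃ (c : ℤ) (Φ : ℤ → ℂ), Int.gcd c (qp (PiQ b p p') m₂) = 1 ∧
      (∀ m, Φ (m + (p.2.2.natAbs * p'.2.2.natAbs * p.1 * p'.1 * vp (PiQ b p p') m₂ : ℕ)) = Φ m) ∧
      (∀ m, ‖Φ m‖ ≤ 1) ∧
      ((Ico (0 : ℤ) (p.2.2.natAbs * p'.2.2.natAbs * p.1 * p'.1 * vp (PiQ b p p') m₂ : ℕ)).filter
        (fun r => Φ r ≠ 0)).card ≤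
          p.1 * p'.1 * vp (PiQ b p p') m₂ * Nat.gcd p.2.2.natAbs p'.2.2.natAbs ∧
      ∀ m₁ ∈ Ioc M (2 * M + 1),
        (M : ℝ) < nuR p m₂ m₁ → nuR p m₂ m₁ ≤ 2 * M + 1 →
        (M : ℝ) < nuR p' m₂ m₁ → nuR p' m₂ m₁ ≤ 2 * M + 1 →
        tm ψ b M p m₁ m₂ * (starRingEnd ℂ) (tm ψ b M p' m₁ m₂) =
          (Om ψ b p m₂ m₁ * (starRingEnd ℂ) (Om ψ b p' m₂ m₁)) * Φ m₁ *
            (if Int.gcd m₁ (qp (PiQ b p p') m₂) = 1 then kf c m₁ (qp (PiQ b p p') m₂) else 0)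

/-- the statement of `class_sum` (task D) -/
def StClass : Prop := ∀ (q R : ℕ) (_ : Squarefree q) (_ : 0 < q) (_ : 0 < R)
    (_ : Nat.Coprime q R) (c : ℤ) (_ : Int.gcd c q = 1) (A B : ℤ) (_ : A ≤ B)
    (Φ : ℤ → ℂ) (_ : ∀ m, Φ (m + R) = Φ m) (_ : ∀ m, ‖Φ m‖ ≤ 1) (K : ℕ)
    (_ : ((Ico (0 : ℤ) R).filter (fun r => Φ r ≠ 0)).card ≤ K) (Ω : ℝ → ℂ) (Λ : ℝ) (_ : 0 ≤ Λ)
    (_ : ∀ s ∈ Set.Icc (A : ℝ) B, ‖Ω s‖ ≤ 1)
    (_ : ∀ s ∈ Set.Icc (A : ℝ) B, ∀ s' ∈ Set.Icc (A : ℝ) B, ‖Ω s - Ω s'‖ ≤ Λ * |s - s'|),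
    ‖∑ m ∈ (Icc A B).filter (fun m : ℤ => Int.gcd m q = 1), Ω m * Φ m * kf c m q‖ ≤
      K * ((1 + Λ * (B - A)) *
        (2 ^ q.primeFactors.card * Real.sqrt q * ((B - A) / (R * q) + 2 + Real.log q)))

end TaskF

theorem fixed_m2_of (hPh : TaskF.StPhase) (hCl : TaskF.StClass)
    (M L : ℕ) (hM : 1 ≤ M) (hL : 1 ≤ L) (V : ℝ) (hV : 1 ≤ V) (ψ : ℝ → ℂ)
    (hψ : Wei M V ψ) (b : ℤ) (hb : |(b : ℝ)| ≤ V * (M : ℝ) ^ 2)
    (p p' : ℕ × ℕ × ℤ) (hp : p ∈ Par L) (hp' : p' ∈ Par L) (hG : PiQ b p p' ≠ 0)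
    (m₂ : ℕ) (hm₂ : m₂ ∈ Ioc M (2 * M + 1)) :
    ‖∑ m₁ ∈ Ioc M (2 * M + 1), tm ψ b M p m₁ m₂ * (starRingEnd ℂ) (tm ψ b M p' m₁ m₂)‖ ≤
      3000 * V * (L : ℝ) ^ 2 * Nat.gcd p.2.2.natAbs p'.2.2.natAbs *
        Real.sqrt (vp (PiQ b p p') m₂) * Real.sqrt M * tau m₂ * (1 + Real.log M) := by
  have hm₂' := hm₂
  rw [mem_Ioc] at hm₂'
  obtain ⟨c, Φ, hc, hΦp, hΦ1, hΦc, hid⟩ := hPh M L hM ψ b p p' hp hp' hG m₂ hm₂
  obtain ⟨hsq, hq0, hqm, hv0, hqv, hcop, hcG, htau⟩ :=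
    qp_facts (PiQ b p p') m₂ (by omega)
  set q := qp (PiQ b p p') m₂ with hq
  set v := vp (PiQ b p p') m₂ with hv
  set R := p.2.2.natAbs * p'.2.2.natAbs * p.1 * p'.1 * v with hR
  obtain ⟨hl1, hl2, ht⟩ := TaskF.par_mem hp
  obtain ⟨hl1', hl2', ht'⟩ := TaskF.par_mem hp'
  have hM' : (1 : ℝ) ≤ M := by exact_mod_cast hM
  have hlogM : 0 ≤ Real.log M := Real.log_nonneg hM'
  have hRHS : 0 ≤ 3000 * V * (L : ℝ) ^ 2 * Nat.gcd p.2.2.natAbs p'.2.2.natAbs *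
        Real.sqrt v * Real.sqrt M * tau m₂ * (1 + Real.log M) := by
    have : 0 ≤ tau m₂ := by unfold tau; positivity
    positivity
  have hl1p : 0 < p.1 := by rw [mem_Ioc] at hl1; omega
  have hl1p' : 0 < p'.1 := by rw [mem_Ioc] at hl1'; omega
  have htp : 0 < p.2.2.natAbs := Int.natAbs_pos.mpr ht
  have htp' : 0 < p'.2.2.natAbs := Int.natAbs_pos.mpr ht'
  have hpre : 0 < p.2.2.natAbs * p'.2.2.natAbs * p.1 * p'.1 := by positivity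
  have hR0 : 0 < R := Nat.mul_pos hpre hv0
  have hRv : v ≤ R := Nat.le_mul_of_pos_left v hpre
  have hqR : Nat.Coprime q R := by
    apply Nat.Coprime.mul_right _ hcop
    apply Nat.Coprime.coprime_dvd_right _ hcG
    unfold PiQ
    rw [Int.natAbs_mul, Int.natAbs_mul, Int.natAbs_mul, Int.natAbs_mul, Int.natAbs_mul,
      Int.natAbs_mul, Int.natAbs_natCast, Int.natAbs_natCast, Int.natAbs_natCast,
      Int.natAbs_natCast]
    exact ⟨(b * Bq p p').natAbs * p.2.1 * p'.2.1, by ring⟩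
  -- the set of good integers
  set good : ℤ → Prop := fun m => ((M : ℝ) < nuR p m₂ m ∧ nuR p m₂ m ≤ 2 * M + 1) ∧
    ((M : ℝ) < nuR p' m₂ m ∧ nuR p' m₂ m ≤ 2 * M + 1) with hgood
  classical
  set S : Finset ℤ := (Ioc (M : ℤ) (2 * M + 1)).filter good with hS
  set Ω : ℝ → ℂ := fun s => Om ψ b p m₂ s * (starRingEnd ℂ) (Om ψ b p' m₂ s) with hΩ
  have hsum : ∑ m₁ ∈ Ioc M (2 * M + 1),
        tm ψ b M p m₁ m₂ * (starRingEnd ℂ) (tm ψ b M p' m₁ m₂) =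
      ∑ m ∈ S, Ω m * Φ m * (if Int.gcd m q = 1 then kf c m q else 0) := by
    have h1 : ∑ m ∈ S, Ω m * Φ m * (if Int.gcd m q = 1 then kf c m q else 0) =
        ∑ m ∈ Ioc (M : ℤ) (2 * M + 1),
          if good m then Ω m * Φ m * (if Int.gcd m q = 1 then kf c m q else 0) else 0 := by
      rw [hS, sum_filter]
    rw [h1]
    refine sum_bij (fun m _ => (m : ℤ)) ?_ ?_ ?_ ?_
    · intro m hm
      rw [mem_Ioc] at hm ⊢
      constructor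
      · exact_mod_cast hm.1
      · exact_mod_cast hm.2
    · intro m _ m' _ h
      exact_mod_cast h
    · intro m hm
      rw [mem_Ioc] at hm
      refine ⟨m.toNat, ?_, ?_⟩
      · rw [mem_Ioc]; omega
      · omega
    · intro m hm
      by_cases hg : good (m : ℤ)
      · rw [if_pos hg]
        simp only [hgood, Int.cast_natCast] at hg
        have := hid m hm hg.1.1 hg.1.2 hg.2.1 hg.2.2
        rw [this]
        simp only [hΩ, Int.cast_natCast]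
      · rw [if_neg hg]
        simp only [hgood, Int.cast_natCast] at hg
        by_contra hne
        apply hg
        have e1 : tm ψ b M p m m₂ ≠ 0 := by
          intro h0; apply hne; rw [h0, zero_mul]
        have e2 : tm ψ b M p' m m₂ ≠ 0 := by
          intro h0; apply hne; rw [h0, map_zero, mul_zero]
        exact ⟨TaskF.good_of_tm ht e1, TaskF.good_of_tm ht' e2⟩
  rw [hsum]
  rcases S.eq_empty_or_nonempty with hSe | hSne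
  · rw [hSe, sum_empty, norm_zero]; exact hRHS
  set A := S.min' hSne with hA
  set B := S.max' hSne with hB
  have hAS : A ∈ S := S.min'_mem hSne
  have hBS : B ∈ S := S.max'_mem hSne
  have hAB : A ≤ B := S.min'_le B hBS
  have hAg := hAS
  have hBg := hBS
  simp only [hS, mem_filter, mem_Ioc, hgood] at hAg hBg
  obtain ⟨⟨hA1, hA2⟩, ⟨hA3, hA4⟩, hA5, hA6⟩ := hAg
  obtain ⟨⟨hB1, hB2⟩, ⟨hB3, hB4⟩, hB5, hB6⟩ := hBg
  have hA1R : (M : ℝ) ≤ A := by exact_mod_cast hA1.le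
  have hA1R' : (M : ℝ) + 1 ≤ A := by
    have : (M : ℤ) + 1 ≤ A := by omega
    exact_mod_cast this
  have hB2R : (B : ℝ) ≤ 2 * M + 1 := by exact_mod_cast hB2
  have hABR : (A : ℝ) ≤ B := by exact_mod_cast hAB
  have hmid : ∀ s ∈ Set.Icc (A : ℝ) B, ((M : ℝ) < nuR p m₂ s ∧ nuR p m₂ s ≤ 2 * M + 1) ∧
      ((M : ℝ) < nuR p' m₂ s ∧ nuR p' m₂ s ≤ 2 * M + 1) := by
    intro s hs
    exact ⟨TaskF.nuR_between p m₂ A B s _ _ hs.1 hs.2 hA3 hA4 hB3 hB4,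
      TaskF.nuR_between p' m₂ A B s _ _ hs.1 hs.2 hA5 hA6 hB5 hB6⟩
  have hSI : S = Icc A B := by
    apply Subset.antisymm
    · intro m hm
      rw [mem_Icc]
      exact ⟨S.min'_le m hm, S.le_max' m hm⟩
    · intro m hm
      rw [mem_Icc] at hm
      rw [hS, mem_filter, mem_Ioc]
      refine ⟨⟨by omega, by omega⟩, ?_⟩
      exact hmid m ⟨by exact_mod_cast hm.1, by exact_mod_cast hm.2⟩
  have hsum2 : ∑ m ∈ S, Ω m * Φ m * (if Int.gcd m q = 1 then kf c m q else 0) =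
      ∑ m ∈ (Icc A B).filter (fun m : ℤ => Int.gcd m q = 1), Ω m * Φ m * kf c m q := by
    rw [hSI, sum_filter]
    apply sum_congr rfl
    intro m _
    by_cases h : Int.gcd m q = 1
    · rw [if_pos h, if_pos h]
    · rw [if_neg h, if_neg h, mul_zero]
  rw [hsum2]
  have hnorm : ∀ s ∈ Set.Icc (A : ℝ) B, ‖Om ψ b p m₂ s‖ ≤ 1 ∧ ‖Om ψ b p' m₂ s‖ ≤ 1 := by
    intro s hs
    have h := hmid s hs
    have hs1 : (M : ℝ) ≤ s := hA1R.trans hs.1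
    exact ⟨Om_norm M hM V ψ hψ b p m₂ hm₂ s hs1 h.1.1.le,
      Om_norm M hM V ψ hψ b p' m₂ hm₂ s hs1 h.2.1.le⟩
  set lam : ℝ := 13 * V / M * (1 + (p.2.1 : ℝ) / |(p.2.2 : ℝ)|) +
    13 * V / M * (1 + (p'.2.1 : ℝ) / |(p'.2.2 : ℝ)|) with hlam
  have hlam0 : 0 ≤ lam := by positivity
  have hlip : ∀ s ∈ Set.Icc (A : ℝ) B, ∀ s' ∈ Set.Icc (A : ℝ) B,
      ‖Ω s - Ω s'‖ ≤ lam * |s - s'| := by
    intro s hs s' hs'
    have hsI : s ∈ Set.Icc (M : ℝ) (2 * M + 1) := ⟨hA1R.trans hs.1, hs.2.trans hB2R⟩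
    have hsI' : s' ∈ Set.Icc (M : ℝ) (2 * M + 1) := ⟨hA1R.trans hs'.1, hs'.2.trans hB2R⟩
    have h := hmid s hs
    have h' := hmid s' hs'
    have k1 := Om_lip M L hM hL V hV ψ hψ b hb p hl1 hl2 ht m₂ hm₂ s s' hsI hsI'
      ⟨h.1.1.le, h.1.2⟩ ⟨h'.1.1.le, h'.1.2⟩
    have k2 := Om_lip M L hM hL V hV ψ hψ b hb p' hl1' hl2' ht' m₂ hm₂ s s' hsI hsI'
      ⟨h.2.1.le, h.2.2⟩ ⟨h'.2.1.le, h'.2.2⟩
    have n1 := hnorm s hs
    have n2 := hnorm s' hs'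
    have e1 : Ω s - Ω s' =
        (Om ψ b p m₂ s - Om ψ b p m₂ s') * (starRingEnd ℂ) (Om ψ b p' m₂ s) +
        Om ψ b p m₂ s' * (starRingEnd ℂ) (Om ψ b p' m₂ s - Om ψ b p' m₂ s') := by
      simp only [hΩ, map_sub]; ring
    rw [e1]
    refine (norm_add_le _ _).trans ?_
    rw [norm_mul, norm_mul, RCLike.norm_conj, RCLike.norm_conj]
    have f1 : ‖Om ψ b p m₂ s - Om ψ b p m₂ s'‖ * ‖Om ψ b p' m₂ s‖ ≤
        ‖Om ψ b p m₂ s - Om ψ b p m₂ s'‖ * 1 :=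
      mul_le_mul_of_nonneg_left n1.2 (norm_nonneg _)
    have f2 : ‖Om ψ b p m₂ s'‖ * ‖Om ψ b p' m₂ s - Om ψ b p' m₂ s'‖ ≤
        1 * ‖Om ψ b p' m₂ s - Om ψ b p' m₂ s'‖ :=
      mul_le_mul_of_nonneg_right n2.1 (norm_nonneg _)
    rw [hlam, add_mul]
    linarith
  have hmain := hCl q R hsq hq0 hR0 hqR c hc A B hAB Φ hΦp hΦ1
    (p.1 * p'.1 * v * Nat.gcd p.2.2.natAbs p'.2.2.natAbs) hΦc Ω lam hlam0
    (fun s hs => by
      have h := hnorm s hs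
      simp only [hΩ]
      rw [norm_mul, RCLike.norm_conj]
      exact mul_le_one₀ h.1 (norm_nonneg _) h.2) hlip
  refine hmain.trans ?_
  have hBA0 : (0 : ℝ) ≤ B - A := by linarith
  have hBAM : (B : ℝ) - A ≤ M := by linarith
  have hstep : ∀ r : ℕ × ℕ × ℤ, (M : ℝ) < nuR r m₂ A → nuR r m₂ A ≤ 2 * M + 1 →
      (M : ℝ) < nuR r m₂ B → nuR r m₂ B ≤ 2 * M + 1 →
      (r.2.1 : ℝ) / |(r.2.2 : ℝ)| * ((B : ℝ) - A) ≤ 2 * M := by
    intro r h1 h2 h3 h4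
    have e := TaskF.nuR_sub r m₂ B A
    have e1 : |nuR r m₂ B - nuR r m₂ A| = (r.2.1 : ℝ) / |(r.2.2 : ℝ)| * ((B : ℝ) - A) := by
      rw [e, abs_mul, abs_div, abs_of_nonneg hBA0,
        abs_of_nonneg (Nat.cast_nonneg r.2.1 : (0 : ℝ) ≤ (r.2.1 : ℝ))]
    rw [← e1, abs_le]
    constructor <;> linarith
  have hs1 := hstep p hA3 hA4 hB3 hB4
  have hs2 := hstep p' hA5 hA6 hB5 hB6
  have hlamBA : lam * ((B : ℝ) - A) ≤ 78 * V := by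
    have hM0 : (0 : ℝ) < M := by linarith
    have e1 : lam * ((B : ℝ) - A) = 13 * V / M * (2 * ((B : ℝ) - A) +
        (p.2.1 : ℝ) / |(p.2.2 : ℝ)| * ((B : ℝ) - A) +
        (p'.2.1 : ℝ) / |(p'.2.2 : ℝ)| * ((B : ℝ) - A)) := by rw [hlam]; ring
    rw [e1]
    have e2 : 2 * ((B : ℝ) - A) +
        (p.2.1 : ℝ) / |(p.2.2 : ℝ)| * ((B : ℝ) - A) +
        (p'.2.1 : ℝ) / |(p'.2.2 : ℝ)| * ((B : ℝ) - A) ≤ 6 * M := by linarith
    calc _ ≤ 13 * V / M * (6 * M) := mul_le_mul_of_nonneg_left e2 (by positivity)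
      _ = 78 * V := by field_simp; ring
  rw [mem_Ioc] at hl1 hl1'
  exact TaskF.final_ineq M L hM V hV p.1 p'.1 v (Nat.gcd p.2.2.natAbs p'.2.2.natAbs) q m₂ R
    q.primeFactors.card m₂.divisors.card hl1.2 hl1'.2 hqv hv0 hq0 hRv hm₂'.1 hm₂'.2 htau
    ((B : ℝ) - A) lam hBA0 hBAM hlamBA

end Pool.Agent.H442R2.KF
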