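import Pool.Agent.H442R2.KF.Defs2
import Pool.Agent.H442R2.KF.Fix

/-!
KF project, part 2, task TF: the sum over `m₁` for fixed `m₂` (trilinear version).
-/

namespace Pool.Agent.H442R2.KF

open Finset

namespace TaskTF

theorem good_of_tm2 {M : ℕ} {ψ : ℕ → ℝ → ℂ} {k : ℤ} {P : (ℕ × ℕ × ℤ) × (ℕ × ℕ)} {m₁ m₂ : ℕ}
    (ht : P.1.2.2 ≠ 0) (h : tm2 ψ k M P m₁ m₂ ≠ 0) :
    (M : ℝ) < nuR P.1 m₂ m₁ ∧ nuR P.1 m₂ m₁ ≤ 2 * M + 1 := by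
  unfold tm2 at h
  have ha : adm M P.1 m₁ m₂ := by
    by_contra hna
    rw [if_neg hna] at h
    exact h rfl
  rw [TaskF.adm_nuR ht ha]
  have := ha.2.2.1
  rw [mem_Ioc] at this
  exact ⟨by exact_mod_cast this.1, by exact_mod_cast this.2⟩

theorem par2_mem {L J : ℕ} {P : (ℕ × ℕ × ℤ) × (ℕ × ℕ)} (hP : P ∈ Par2 L J) :
    P.1.1 ∈ Ioc L (2 * L) ∧ P.1.2.1 ∈ Ioc L (2 * L) ∧ P.1.2.2 ≠ 0 ∧ P.1.1.Prime := by
  unfold Par2 Par at hP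
  simp only [mem_filter, mem_product, PL] at hP
  exact ⟨hP.1.1.1.1, hP.1.1.2.1.1, hP.1.2.2.1, hP.1.1.1.2⟩

open scoped Pointwise in
theorem card_divisors_mul_le (a b : ℕ) :
    (a * b).divisors.card ≤ a.divisors.card * b.divisors.card := by
  rw [Nat.divisors_mul]
  exact Finset.card_mul_le

/-- the real inequality at the end -/
theorem final_ineq2 (M L : ℕ) (hM : 1 ≤ M) (hLM : L ≤ M) (V : ℝ) (hV : 1 ≤ V)
    (l1 l1' v g q m₂ R w T : ℕ)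
    (hl1 : 1 ≤ l1) (hl1' : 1 ≤ l1')
    (hl : l1 ≤ 2 * L) (hl' : l1' ≤ 2 * L) (hqv : q * v = l1 * l1' * m₂) (hv : 0 < v) (hq : 0 < q)
    (hR : v ≤ R) (hm : M < m₂) (hm' : m₂ ≤ 2 * M + 1) (hT : 2 ^ w ≤ 4 * T) (BA lam : ℝ)
    (hBA : 0 ≤ BA) (hBAM : BA ≤ M) (hlam : lam * BA ≤ 114 * V) :
    ((v * g : ℕ) : ℝ) * ((1 + lam * BA) *
        (2 ^ w * Real.sqrt q * (BA / (R * q) + 2 + Real.log q))) ≤
      10000 * V * L * g * Real.sqrt v * Real.sqrt M * T * (1 + Real.log M) := by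
  have hM' : (1 : ℝ) ≤ M := by exact_mod_cast hM
  have hLM' : (L : ℝ) ≤ M := by exact_mod_cast hLM
  have hq' : (0 : ℝ) < q := by exact_mod_cast hq
  have hv' : (0 : ℝ) < v := by exact_mod_cast hv
  have hR' : (v : ℝ) ≤ R := by exact_mod_cast hR
  have hqv' : (q : ℝ) * v = l1 * l1' * m₂ := by exact_mod_cast hqv
  have h11 : (1 : ℝ) ≤ l1 := by exact_mod_cast hl1
  have h11' : (1 : ℝ) ≤ l1' := by exact_mod_cast hl1'
  have a1 : (l1 : ℝ) ≤ 2 * L := by exact_mod_cast hl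
  have a2 : (l1' : ℝ) ≤ 2 * L := by exact_mod_cast hl'
  have hmM : (M : ℝ) ≤ m₂ := by exact_mod_cast hm.le
  have hm0 : (0 : ℝ) < m₂ := by linarith
  have hm3 : (m₂ : ℝ) ≤ 3 * M := by
    have : (m₂ : ℝ) ≤ 2 * M + 1 := by exact_mod_cast hm'
    linarith
  have hlogM : 0 ≤ Real.log M := Real.log_nonneg hM'
  have hT' : (2 : ℝ) ^ w ≤ 4 * T := by exact_mod_cast hT
  have hL0 : (0 : ℝ) < L := by linarith
  have hll : (l1 : ℝ) * l1' ≤ 4 * (L : ℝ) ^ 2 := by nlinarith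
  have hll1 : (1 : ℝ) ≤ (l1 : ℝ) * l1' := by nlinarith
  -- the modulus
  have hK1 : (M : ℝ) ≤ q * v := by
    rw [hqv']
    calc (M : ℝ) ≤ m₂ := hmM
      _ = 1 * m₂ := by ring
      _ ≤ l1 * l1' * m₂ := mul_le_mul_of_nonneg_right hll1 hm0.le
  have hK2 : (q : ℝ) * v ≤ 4 * (L : ℝ) ^ 2 * (3 * M) := by
    rw [hqv']
    exact mul_le_mul hll hm3 hm0.le (by positivity)
  -- the last factor
  have h1 : BA / (R * q) ≤ 1 := by
    rw [div_le_one (by nlinarith)]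
    calc BA ≤ M := hBAM
      _ ≤ q * v := hK1
      _ ≤ R * q := by nlinarith
  have hqm : (q : ℝ) ≤ 12 * (M : ℝ) ^ 3 := by
    have h0 : (1 : ℝ) ≤ v := by exact_mod_cast hv
    have h2 : (q : ℝ) * 1 ≤ q * v := mul_le_mul_of_nonneg_left h0 hq'.le
    have h3 : (L : ℝ) ^ 2 ≤ (M : ℝ) ^ 2 := pow_le_pow_left₀ hL0.le hLM' 2
    have h4 : 4 * (L : ℝ) ^ 2 * (3 * M) ≤ 4 * (M : ℝ) ^ 2 * (3 * M) :=
      mul_le_mul_of_nonneg_right (by linarith) (by positivity)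
    calc (q : ℝ) = q * 1 := by ring
      _ ≤ q * v := h2
      _ ≤ 4 * (L : ℝ) ^ 2 * (3 * M) := hK2
      _ ≤ 4 * (M : ℝ) ^ 2 * (3 * M) := h4
      _ = 12 * (M : ℝ) ^ 3 := by ring
  have hlog12 : Real.log 12 ≤ 2.5 := by
    have h3 := Real.log_three_lt_d9
    have h2 := Real.log_two_lt_d9
    have : (12 : ℝ) = 2 ^ 2 * 3 := by norm_num
    rw [this, Real.log_mul (by norm_num) (by norm_num), Real.log_pow]
    push_cast
    linarith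
  have h2 : Real.log q ≤ 2.5 + 3 * Real.log M := by
    have : Real.log q ≤ Real.log (12 * (M : ℝ) ^ 3) := Real.log_le_log hq' hqm
    rw [Real.log_mul (by norm_num) (by positivity), Real.log_pow] at this
    push_cast at this
    linarith
  have hlogq : 0 ≤ Real.log q := Real.log_natCast_nonneg q
  have h3 : BA / (R * q) + 2 + Real.log q ≤ 5.5 * (1 + Real.log M) := by linarith
  have h3' : 0 ≤ BA / (R * q) + 2 + Real.log q := by positivity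
  -- the square roots
  have h4 : (v : ℝ) * Real.sqrt q ≤ 3.4642 * (L * (Real.sqrt v * Real.sqrt M)) := by
    have e1 : (v : ℝ) * Real.sqrt q = Real.sqrt v * Real.sqrt ((q : ℝ) * v) := by
      rw [Real.sqrt_mul hq'.le]
      have := Real.mul_self_sqrt hv'.le
      calc (v : ℝ) * Real.sqrt q = (Real.sqrt v * Real.sqrt v) * Real.sqrt q := by rw [this]
        _ = Real.sqrt v * (Real.sqrt q * Real.sqrt v) := by ring
    rw [e1]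
    have e2 : Real.sqrt ((q : ℝ) * v) ≤ 3.4642 * (L * Real.sqrt M) := by
      have : (3.4642 : ℝ) * (L * Real.sqrt M) = Real.sqrt ((3.4642 * L) ^ 2 * M) := by
        rw [Real.sqrt_mul (by positivity), Real.sqrt_sq (by positivity)]; ring
      rw [this]
      apply Real.sqrt_le_sqrt
      have hLM2 : 0 ≤ (L : ℝ) ^ 2 * M := by positivity
      calc (q : ℝ) * v ≤ 4 * (L : ℝ) ^ 2 * (3 * M) := hK2
        _ = 12 * ((L : ℝ) ^ 2 * M) := by ring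
        _ ≤ 3.4642 ^ 2 * ((L : ℝ) ^ 2 * M) := by
          apply mul_le_mul_of_nonneg_right _ hLM2; norm_num
        _ = (3.4642 * L) ^ 2 * M := by ring
    calc Real.sqrt v * Real.sqrt ((q : ℝ) * v) ≤ Real.sqrt v * (3.4642 * (L * Real.sqrt M)) :=
          mul_le_mul_of_nonneg_left e2 (Real.sqrt_nonneg _)
      _ = 3.4642 * (L * (Real.sqrt v * Real.sqrt M)) := by ring
  have h5 : 1 + lam * BA ≤ 115 * V := by linarith
  -- assemble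
  have hW0 : (0 : ℝ) ≤ 2 ^ w * Real.sqrt q * (BA / (R * q) + 2 + Real.log q) := by positivity
  have hK0 : (0 : ℝ) ≤ ((v * g : ℕ) : ℝ) := by positivity
  calc ((v * g : ℕ) : ℝ) * ((1 + lam * BA) *
        (2 ^ w * Real.sqrt q * (BA / (R * q) + 2 + Real.log q)))
      ≤ ((v * g : ℕ) : ℝ) * ((115 * V) *
        (2 ^ w * Real.sqrt q * (BA / (R * q) + 2 + Real.log q))) := by
        apply mul_le_mul_of_nonneg_left _ hK0
        exact mul_le_mul_of_nonneg_right h5 hW0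
    _ = g * (115 * V) * (v * Real.sqrt q) * 2 ^ w *
          (BA / (R * q) + 2 + Real.log q) := by push_cast; ring
    _ ≤ g * (115 * V) * (3.4642 * (L * (Real.sqrt v * Real.sqrt M))) * (4 * T) *
          (5.5 * (1 + Real.log M)) := by gcongr
    _ ≤ 10000 * V * L * g * Real.sqrt v * Real.sqrt M * T * (1 + Real.log M) := by
        have hX : 0 ≤ V * (L : ℝ) * g * Real.sqrt v * Real.sqrt M * T *
            (1 + Real.log M) := by positivity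
        nlinarith

/-- the statement of `Om2_norm` (task TE) -/
def StNorm2 : Prop := ∀ (M : ℕ) (_ : 1 ≤ M) (V : ℝ) (ψ : ℕ → ℝ → ℂ) (_ : ∀ j, Wei M V (ψ j))
    (k : ℤ) (P : (ℕ × ℕ × ℤ) × (ℕ × ℕ)) (m₂ : ℕ) (_ : m₂ ∈ Ioc M (2 * M + 1)) (s : ℝ)
    (_ : (M : ℝ) ≤ s) (_ : (M : ℝ) ≤ nuR P.1 m₂ s), ‖Om2 ψ k P m₂ s‖ ≤ 1

/-- the statement of `Om2_lip` (task TE) -/
def StLip2 : Prop := ∀ (M L J : ℕ) (_ : 1 ≤ M) (_ : 1 ≤ L) (V : ℝ) (_ : 1 ≤ V)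
    (ψ : ℕ → ℝ → ℂ) (_ : ∀ j, Wei M V (ψ j)) (k : ℤ) (_ : |(k : ℝ)| * J ≤ V * (M : ℝ) ^ 2)
    (P : (ℕ × ℕ × ℤ) × (ℕ × ℕ)) (_ : P ∈ Par2 L J)
    (m₂ : ℕ) (_ : m₂ ∈ Ioc M (2 * M + 1)) (s s' : ℝ)
    (_ : s ∈ Set.Icc (M : ℝ) (2 * M + 1)) (_ : s' ∈ Set.Icc (M : ℝ) (2 * M + 1))
    (_ : nuR P.1 m₂ s ∈ Set.Icc (M : ℝ) (2 * M + 1))
    (_ : nuR P.1 m₂ s' ∈ Set.Icc (M : ℝ) (2 * M + 1)),
    ‖Om2 ψ k P m₂ s - Om2 ψ k P m₂ s'‖ ≤
      19 * V / M * (1 + (P.1.2.1 : ℝ) / |(P.1.2.2 : ℝ)|) * |s - s'|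

/-- the statement of `phase_pair2` (task TF1) -/
def StPhase2 : Prop := ∀ (M L J : ℕ) (_ : 1 ≤ M) (_ : J ≤ L) (ψ : ℕ → ℝ → ℂ) (k : ℤ)
    (P P' : (ℕ × ℕ × ℤ) × (ℕ × ℕ)) (_ : P ∈ Par2 L J) (_ : P' ∈ Par2 L J)
    (_ : G2 k P P' ≠ 0) (m₂ : ℕ) (_ : m₂ ∈ Ioc M (2 * M + 1)),
    ∃ (c : ℤ) (Φ : ℤ → ℂ), Int.gcd c (qp (G2 k P P') (P.1.1 * P'.1.1 * m₂)) = 1 ∧
      (∀ m, Φ (m + (P.1.2.2.natAbs * P'.1.2.2.natAbs *
        vp (G2 k P P') (P.1.1 * P'.1.1 * m₂) : ℕ)) = Φ m) ∧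
      (∀ m, ‖Φ m‖ ≤ 1) ∧
      ((Ico (0 : ℤ) (P.1.2.2.natAbs * P'.1.2.2.natAbs *
        vp (G2 k P P') (P.1.1 * P'.1.1 * m₂) : ℕ)).filter (fun r => Φ r ≠ 0)).card ≤
          vp (G2 k P P') (P.1.1 * P'.1.1 * m₂) * Nat.gcd P.1.2.2.natAbs P'.1.2.2.natAbs ∧
      ∀ m₁ ∈ Ioc M (2 * M + 1),
        (M : ℝ) < nuR P.1 m₂ m₁ → nuR P.1 m₂ m₁ ≤ 2 * M + 1 →
        (M : ℝ) < nuR P'.1 m₂ m₁ → nuR P'.1 m₂ m₁ ≤ 2 * M + 1 →
        tm2 ψ k M P m₁ m₂ * (starRingEnd ℂ) (tm2 ψ k M P' m₁ m₂) =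
          (Om2 ψ k P m₂ m₁ * (starRingEnd ℂ) (Om2 ψ k P' m₂ m₁)) * Φ m₁ *
            (if Int.gcd m₁ (qp (G2 k P P') (P.1.1 * P'.1.1 * m₂)) = 1 then
              kf c m₁ (qp (G2 k P P') (P.1.1 * P'.1.1 * m₂)) else 0)

end TaskTF

/-- task TF, with the statements of the tasks D, TE, TF1 as hypotheses -/
theorem fixed2_of (hPh : TaskTF.StPhase2) (hCl : TaskF.StClass) (hNo : TaskTF.StNorm2)
    (hLi : TaskTF.StLip2)
    (M L J : ℕ) (hM : 1 ≤ M) (hLM : L ≤ M) (hJL : J ≤ L) (V : ℝ) (hV : 1 ≤ V)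
    (ψ : ℕ → ℝ → ℂ) (hψ : ∀ j, Wei M V (ψ j)) (k : ℤ) (hk : |(k : ℝ)| * J ≤ V * (M : ℝ) ^ 2)
    (P P' : (ℕ × ℕ × ℤ) × (ℕ × ℕ)) (hP : P ∈ Par2 L J) (hP' : P' ∈ Par2 L J)
    (hG : G2 k P P' ≠ 0) (m₂ : ℕ) (hm₂ : m₂ ∈ Ioc M (2 * M + 1)) :
    ‖∑ m₁ ∈ Ioc M (2 * M + 1), tm2 ψ k M P m₁ m₂ * (starRingEnd ℂ) (tm2 ψ k M P' m₁ m₂)‖ ≤
      10000 * V * L * Nat.gcd P.1.2.2.natAbs P'.1.2.2.natAbs *
        Real.sqrt (vp (G2 k P P') (P.1.1 * P'.1.1 * m₂)) * Real.sqrt M * tau m₂ *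
          (1 + Real.log M) := by
  have hm₂' := hm₂
  rw [mem_Ioc] at hm₂'
  obtain ⟨hl1, hl2, ht, hpr⟩ := TaskTF.par2_mem hP
  obtain ⟨hl1', hl2', ht', hpr'⟩ := TaskTF.par2_mem hP'
  have hL : 1 ≤ L := by rw [mem_Ioc] at hl1; omega
  obtain ⟨c, Φ, hc, hΦp, hΦ1, hΦc, hid⟩ := hPh M L J hM hJL ψ k P P' hP hP' hG m₂ hm₂
  have hl1p : 0 < P.1.1 := by rw [mem_Ioc] at hl1; omega
  have hl1p' : 0 < P'.1.1 := by rw [mem_Ioc] at hl1'; omega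
  obtain ⟨hsq, hq0, hqm, hv0, hqv, hcop, hcG, htau⟩ :=
    qp_facts (G2 k P P') (P.1.1 * P'.1.1 * m₂) (Nat.mul_pos (Nat.mul_pos hl1p hl1p') (by omega))
  set q := qp (G2 k P P') (P.1.1 * P'.1.1 * m₂) with hq
  set v := vp (G2 k P P') (P.1.1 * P'.1.1 * m₂) with hv
  set R := P.1.2.2.natAbs * P'.1.2.2.natAbs * v with hR
  have hM' : (1 : ℝ) ≤ M := by exact_mod_cast hM
  have hlogM : 0 ≤ Real.log M := Real.log_nonneg hM'
  have hRHS : 0 ≤ 10000 * V * L * Nat.gcd P.1.2.2.natAbs P'.1.2.2.natAbs *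
        Real.sqrt v * Real.sqrt M * tau m₂ * (1 + Real.log M) := by
    have : 0 ≤ tau m₂ := by unfold tau; positivity
    positivity
  have htp : 0 < P.1.2.2.natAbs := Int.natAbs_pos.mpr ht
  have htp' : 0 < P'.1.2.2.natAbs := Int.natAbs_pos.mpr ht'
  have hpre : 0 < P.1.2.2.natAbs * P'.1.2.2.natAbs := by positivity
  have hR0 : 0 < R := Nat.mul_pos hpre hv0
  have hRv : v ≤ R := Nat.le_mul_of_pos_left v hpre
  have hqR : Nat.Coprime q R := by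
    apply Nat.Coprime.mul_right _ hcop
    apply Nat.Coprime.coprime_dvd_right _ hcG
    unfold G2
    rw [Int.natAbs_mul, Int.natAbs_mul, Int.natAbs_mul, Int.natAbs_mul,
      Int.natAbs_natCast, Int.natAbs_natCast]
    exact ⟨(k * Bq2 P P').natAbs * P.1.2.1 * P'.1.2.1, by ring⟩
  -- the set of good integers
  set good : ℤ → Prop := fun m => ((M : ℝ) < nuR P.1 m₂ m ∧ nuR P.1 m₂ m ≤ 2 * M + 1) ∧
    ((M : ℝ) < nuR P'.1 m₂ m ∧ nuR P'.1 m₂ m ≤ 2 * M + 1) with hgood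
  classical
  set S : Finset ℤ := (Ioc (M : ℤ) (2 * M + 1)).filter good with hS
  set Ω : ℝ → ℂ := fun s => Om2 ψ k P m₂ s * (starRingEnd ℂ) (Om2 ψ k P' m₂ s) with hΩ
  have hsum : ∑ m₁ ∈ Ioc M (2 * M + 1),
        tm2 ψ k M P m₁ m₂ * (starRingEnd ℂ) (tm2 ψ k M P' m₁ m₂) =
      ∑ m ∈ S, Ω m * Φ m * (if Int.gcd m q = 1 then kf c m q else 0) := by
    have h1 : ∑ m ∈ S, Ω m * Φ m * (if Int.gcd m q = 1 then kf c m q else 0) =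
        ∑ m ∈ Ioc (M : ℤ) (2 * M + 1),
          if good m then Ω m * Φ m * (if Int.gcd m q = 1 then kf c m q else 0) else 0 := by
      rw [hS, sum_filter]
    rw [h1]
    refine sum_bij (fun m _ => (m : ℤ)) ?_ ?_ ?_ ?_
    · intro m hm
      rw [mem_Ioc] at hm ⊢
      constructor
      · exact_mod_cast hm.1
      · exact_mod_cast hm.2
    · intro m _ m' _ h
      exact_mod_cast h
    · intro m hm
      rw [mem_Ioc] at hm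
      refine ⟨m.toNat, ?_, ?_⟩
      · rw [mem_Ioc]; omega
      · omega
    · intro m hm
      by_cases hg : good (m : ℤ)
      · rw [if_pos hg]
        simp only [hgood, Int.cast_natCast] at hg
        have := hid m hm hg.1.1 hg.1.2 hg.2.1 hg.2.2
        rw [this]
        simp only [hΩ, Int.cast_natCast]
      · rw [if_neg hg]
        simp only [hgood, Int.cast_natCast] at hg
        by_contra hne
        apply hg
        have e1 : tm2 ψ k M P m m₂ ≠ 0 := by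
          intro h0; apply hne; rw [h0, zero_mul]
        have e2 : tm2 ψ k M P' m m₂ ≠ 0 := by
          intro h0; apply hne; rw [h0, map_zero, mul_zero]
        exact ⟨TaskTF.good_of_tm2 ht e1, TaskTF.good_of_tm2 ht' e2⟩
  rw [hsum]
  rcases S.eq_empty_or_nonempty with hSe | hSne
  · rw [hSe, sum_empty, norm_zero]; exact hRHS
  set A := S.min' hSne with hA
  set B := S.max' hSne with hB
  have hAS : A ∈ S := S.min'_mem hSne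
  have hBS : B ∈ S := S.max'_mem hSne
  have hAB : A ≤ B := S.min'_le B hBS
  have hAg := hAS
  have hBg := hBS
  simp only [hS, mem_filter, mem_Ioc, hgood] at hAg hBg
  obtain ⟨⟨hA1, hA2⟩, ⟨hA3, hA4⟩, hA5, hA6⟩ := hAg
  obtain ⟨⟨hB1, hB2⟩, ⟨hB3, hB4⟩, hB5, hB6⟩ := hBg
  have hA1R : (M : ℝ) ≤ A := by exact_mod_cast hA1.le
  have hA1R' : (M : ℝ) + 1 ≤ A := by
    have : (M : ℤ) + 1 ≤ A := by omega
    exact_mod_cast this
  have hB2R : (B : ℝ) ≤ 2 * M + 1 := by exact_mod_cast hB2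
  have hABR : (A : ℝ) ≤ B := by exact_mod_cast hAB
  have hmid : ∀ s ∈ Set.Icc (A : ℝ) B, ((M : ℝ) < nuR P.1 m₂ s ∧ nuR P.1 m₂ s ≤ 2 * M + 1) ∧
      ((M : ℝ) < nuR P'.1 m₂ s ∧ nuR P'.1 m₂ s ≤ 2 * M + 1) := by
    intro s hs
    exact ⟨TaskF.nuR_between P.1 m₂ A B s _ _ hs.1 hs.2 hA3 hA4 hB3 hB4,
      TaskF.nuR_between P'.1 m₂ A B s _ _ hs.1 hs.2 hA5 hA6 hB5 hB6⟩
  have hSI : S = Icc A B := by
    apply Subset.antisymm
    · intro m hm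
      rw [mem_Icc]
      exact ⟨S.min'_le m hm, S.le_max' m hm⟩
    · intro m hm
      rw [mem_Icc] at hm
      rw [hS, mem_filter, mem_Ioc]
      refine ⟨⟨by omega, by omega⟩, ?_⟩
      exact hmid m ⟨by exact_mod_cast hm.1, by exact_mod_cast hm.2⟩
  have hsum2 : ∑ m ∈ S, Ω m * Φ m * (if Int.gcd m q = 1 then kf c m q else 0) =
      ∑ m ∈ (Icc A B).filter (fun m : ℤ => Int.gcd m q = 1), Ω m * Φ m * kf c m q := by
    rw [hSI, sum_filter]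
    apply sum_congr rfl
    intro m _
    by_cases h : Int.gcd m q = 1
    · rw [if_pos h, if_pos h]
    · rw [if_neg h, if_neg h, mul_zero]
  rw [hsum2]
  have hnorm : ∀ s ∈ Set.Icc (A : ℝ) B, ‖Om2 ψ k P m₂ s‖ ≤ 1 ∧ ‖Om2 ψ k P' m₂ s‖ ≤ 1 := by
    intro s hs
    have h := hmid s hs
    have hs1 : (M : ℝ) ≤ s := hA1R.trans hs.1
    exact ⟨hNo M hM V ψ hψ k P m₂ hm₂ s hs1 h.1.1.le,
      hNo M hM V ψ hψ k P' m₂ hm₂ s hs1 h.2.1.le⟩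
  set lam : ℝ := 19 * V / M * (1 + (P.1.2.1 : ℝ) / |(P.1.2.2 : ℝ)|) +
    19 * V / M * (1 + (P'.1.2.1 : ℝ) / |(P'.1.2.2 : ℝ)|) with hlam
  have hlam0 : 0 ≤ lam := by positivity
  have hlip : ∀ s ∈ Set.Icc (A : ℝ) B, ∀ s' ∈ Set.Icc (A : ℝ) B,
      ‖Ω s - Ω s'‖ ≤ lam * |s - s'| := by
    intro s hs s' hs'
    have hsI : s ∈ Set.Icc (M : ℝ) (2 * M + 1) := ⟨hA1R.trans hs.1, hs.2.trans hB2R⟩
    have hsI' : s' ∈ Set.Icc (M : ℝ) (2 * M + 1) := ⟨hA1R.trans hs'.1, hs'.2.trans hB2R⟩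
    have h := hmid s hs
    have h' := hmid s' hs'
    have k1 := hLi M L J hM hL V hV ψ hψ k hk P hP m₂ hm₂ s s' hsI hsI'
      ⟨h.1.1.le, h.1.2⟩ ⟨h'.1.1.le, h'.1.2⟩
    have k2 := hLi M L J hM hL V hV ψ hψ k hk P' hP' m₂ hm₂ s s' hsI hsI'
      ⟨h.2.1.le, h.2.2⟩ ⟨h'.2.1.le, h'.2.2⟩
    have n1 := hnorm s hs
    have n2 := hnorm s' hs'
    have e1 : Ω s - Ω s' =
        (Om2 ψ k P m₂ s - Om2 ψ k P m₂ s') * (starRingEnd ℂ) (Om2 ψ k P' m₂ s) +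
        Om2 ψ k P m₂ s' * (starRingEnd ℂ) (Om2 ψ k P' m₂ s - Om2 ψ k P' m₂ s') := by
      simp only [hΩ, map_sub]; ring
    rw [e1]
    refine (norm_add_le _ _).trans ?_
    rw [norm_mul, norm_mul, RCLike.norm_conj, RCLike.norm_conj]
    have f1 : ‖Om2 ψ k P m₂ s - Om2 ψ k P m₂ s'‖ * ‖Om2 ψ k P' m₂ s‖ ≤
        ‖Om2 ψ k P m₂ s - Om2 ψ k P m₂ s'‖ * 1 :=
      mul_le_mul_of_nonneg_left n1.2 (norm_nonneg _)
    have f2 : ‖Om2 ψ k P m₂ s'‖ * ‖Om2 ψ k P' m₂ s - Om2 ψ k P' m₂ s'‖ ≤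
        1 * ‖Om2 ψ k P' m₂ s - Om2 ψ k P' m₂ s'‖ :=
      mul_le_mul_of_nonneg_right n2.1 (norm_nonneg _)
    rw [hlam, add_mul]
    linarith
  have hmain := hCl q R hsq hq0 hR0 hqR c hc A B hAB Φ hΦp hΦ1
    (v * Nat.gcd P.1.2.2.natAbs P'.1.2.2.natAbs) hΦc Ω lam hlam0
    (fun s hs => by
      have h := hnorm s hs
      simp only [hΩ]
      rw [norm_mul, RCLike.norm_conj]
      exact mul_le_one₀ h.1 (norm_nonneg _) h.2) hlip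
  refine hmain.trans ?_
  have hBA0 : (0 : ℝ) ≤ B - A := by linarith
  have hBAM : (B : ℝ) - A ≤ M := by linarith
  have hstep : ∀ r : ℕ × ℕ × ℤ, (M : ℝ) < nuR r m₂ A → nuR r m₂ A ≤ 2 * M + 1 →
      (M : ℝ) < nuR r m₂ B → nuR r m₂ B ≤ 2 * M + 1 →
      (r.2.1 : ℝ) / |(r.2.2 : ℝ)| * ((B : ℝ) - A) ≤ 2 * M := by
    intro r h1 h2 h3 h4
    have e := TaskF.nuR_sub r m₂ B A
    have e1 : |nuR r m₂ B - nuR r m₂ A| = (r.2.1 : ℝ) / |(r.2.2 : ℝ)| * ((B : ℝ) - A) := by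
      rw [e, abs_mul, abs_div, abs_of_nonneg hBA0,
        abs_of_nonneg (Nat.cast_nonneg r.2.1 : (0 : ℝ) ≤ (r.2.1 : ℝ))]
    rw [← e1, abs_le]
    constructor <;> linarith
  have hs1 := hstep P.1 hA3 hA4 hB3 hB4
  have hs2 := hstep P'.1 hA5 hA6 hB5 hB6
  have hlamBA : lam * ((B : ℝ) - A) ≤ 114 * V := by
    have hM0 : (0 : ℝ) < M := by linarith
    have e1 : lam * ((B : ℝ) - A) = 19 * V / M * (2 * ((B : ℝ) - A) +
        (P.1.2.1 : ℝ) / |(P.1.2.2 : ℝ)| * ((B : ℝ) - A) +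
        (P'.1.2.1 : ℝ) / |(P'.1.2.2 : ℝ)| * ((B : ℝ) - A)) := by rw [hlam]; ring
    rw [e1]
    have e2 : 2 * ((B : ℝ) - A) +
        (P.1.2.1 : ℝ) / |(P.1.2.2 : ℝ)| * ((B : ℝ) - A) +
        (P'.1.2.1 : ℝ) / |(P'.1.2.2 : ℝ)| * ((B : ℝ) - A) ≤ 6 * M := by linarith
    calc _ ≤ 19 * V / M * (6 * M) := mul_le_mul_of_nonneg_left e2 (by positivity)
      _ = 114 * V := by field_simp; ring
  rw [mem_Ioc] at hl1 hl1'
  have htau' : 2 ^ q.primeFactors.card ≤ 4 * m₂.divisors.card := by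
    refine htau.trans ((TaskTF.card_divisors_mul_le _ _).trans ?_)
    refine Nat.mul_le_mul_right _ ((TaskTF.card_divisors_mul_le _ _).trans ?_)
    rw [hpr.divisors, hpr'.divisors]
    exact (Nat.mul_le_mul card_le_two card_le_two)
  exact TaskTF.final_ineq2 M L hM hLM V hV P.1.1 P'.1.1 v (Nat.gcd P.1.2.2.natAbs P'.1.2.2.natAbs)
    q m₂ R q.primeFactors.card m₂.divisors.card hl1p hl1p' hl1.2 hl1'.2 hqv hv0 hq0 hRv
    hm₂'.1 hm₂'.2 htau' ((B : ℝ) - A) lam hBA0 hBAM hlamBA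

end Pool.Agent.H442R2.KF
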