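import Pool.Agent.H442R2.KF.Defs2

/-! # TH2: weighted sum over pairs of parameters -/

namespace Pool.Agent.H442R2.KF

open Finset

namespace TaskTH2

/-! ### sums of gcd's -/

theorem harm (n : ℕ) : ∑ s ∈ Icc 1 n, (1 : ℝ) / s ≤ 1 + Real.log n := by
  have h := harmonic_le_one_add_log n
  rw [harmonic_eq_sum_Icc] at h
  push_cast at h
  simpa [one_div] using h

theorem gcd_sum (n : ℕ) : ∑ s ∈ Icc 1 n, ∑ s' ∈ Icc 1 n, (Nat.gcd s s' : ℝ) ≤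
    (n : ℝ) ^ 2 * (1 + Real.log n) := by
  have a1 : ∀ s ∈ Icc 1 n, ∀ s' ∈ Icc 1 n, (Nat.gcd s s' : ℝ) ≤
      ∑ g ∈ Icc 1 n, (g : ℝ) * ((if g ∣ s then 1 else 0) * (if g ∣ s' then 1 else 0)) := by
    intro s hs s' hs'
    rw [mem_Icc] at hs hs'
    have hg : Nat.gcd s s' ∈ Icc 1 n := by
      rw [mem_Icc]
      exact ⟨Nat.gcd_pos_of_pos_left _ (by omega),
        (Nat.le_of_dvd (by omega) (Nat.gcd_dvd_left s s')).trans hs.2⟩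
    have := Finset.single_le_sum (f := fun g : ℕ => (g : ℝ) * ((if g ∣ s then 1 else 0) *
      (if g ∣ s' then 1 else 0))) (fun g _ => by positivity) hg
    simp only [if_pos (Nat.gcd_dvd_left s s'), if_pos (Nat.gcd_dvd_right s s'), mul_one] at this
    exact this
  have a2 : ∑ s ∈ Icc 1 n, ∑ s' ∈ Icc 1 n, (Nat.gcd s s' : ℝ) ≤
      ∑ s ∈ Icc 1 n, ∑ s' ∈ Icc 1 n, ∑ g ∈ Icc 1 n, (g : ℝ) * ((if g ∣ s then 1 else 0) *
        (if g ∣ s' then 1 else 0)) :=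
    Finset.sum_le_sum fun s hs => Finset.sum_le_sum fun s' hs' => a1 s hs s' hs'
  have a3 : ∑ s ∈ Icc 1 n, ∑ s' ∈ Icc 1 n, ∑ g ∈ Icc 1 n, (g : ℝ) * ((if g ∣ s then 1 else 0) *
        (if g ∣ s' then 1 else 0)) =
      ∑ g ∈ Icc 1 n, (g : ℝ) * (∑ s ∈ Icc 1 n, if g ∣ s then (1 : ℝ) else 0) ^ 2 := by
    have e1 : ∀ s ∈ Icc 1 n, ∑ s' ∈ Icc 1 n, ∑ g ∈ Icc 1 n, (g : ℝ) *
        ((if g ∣ s then 1 else 0) * (if g ∣ s' then 1 else 0)) =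
        ∑ g ∈ Icc 1 n, (g : ℝ) * ((if g ∣ s then 1 else 0) *
          ∑ s' ∈ Icc 1 n, if g ∣ s' then (1 : ℝ) else 0) := by
      intro s _
      rw [Finset.sum_comm]
      refine Finset.sum_congr rfl fun g _ => ?_
      rw [Finset.mul_sum, Finset.mul_sum]
    rw [Finset.sum_congr rfl e1, Finset.sum_comm]
    refine Finset.sum_congr rfl fun g _ => ?_
    rw [← Finset.mul_sum, ← Finset.sum_mul, sq]
  have a4 : ∀ g ∈ Icc 1 n, (g : ℝ) * (∑ s ∈ Icc 1 n, if g ∣ s then (1 : ℝ) else 0) ^ 2 ≤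
      (n : ℝ) ^ 2 * ((1 : ℝ) / g) := by
    intro g hg
    rw [mem_Icc] at hg
    have hg0 : (0 : ℝ) < g := by exact_mod_cast (by omega : 0 < g)
    have b1 : ∑ s ∈ Icc 1 n, (if g ∣ s then (1 : ℝ) else 0) ≤ (n : ℝ) / g := by
      rw [← Finset.sum_filter, Finset.sum_const, nsmul_eq_mul, mul_one]
      have b2 : ((Icc 1 n).filter (fun s => g ∣ s)).card = n / g := by
        have := Nat.Ioc_filter_dvd_card_eq_div n g
        rw [← this]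
        congr 1
      rw [b2]
      exact Nat.cast_div_le
    have b3 : (0 : ℝ) ≤ ∑ s ∈ Icc 1 n, (if g ∣ s then (1 : ℝ) else 0) :=
      Finset.sum_nonneg fun s _ => by positivity
    have b4 : (∑ s ∈ Icc 1 n, (if g ∣ s then (1 : ℝ) else 0)) ^ 2 ≤ ((n : ℝ) / g) ^ 2 :=
      pow_le_pow_left₀ b3 b1 2
    calc _ ≤ (g : ℝ) * ((n : ℝ) / g) ^ 2 := mul_le_mul_of_nonneg_left b4 hg0.le
      _ = _ := by field_simp
  calc _ ≤ _ := a2
    _ = _ := a3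
    _ ≤ ∑ g ∈ Icc 1 n, (n : ℝ) ^ 2 * ((1 : ℝ) / g) := Finset.sum_le_sum a4
    _ = (n : ℝ) ^ 2 * ∑ g ∈ Icc 1 n, (1 : ℝ) / g := by rw [Finset.mul_sum]
    _ ≤ _ := mul_le_mul_of_nonneg_left (harm n) (by positivity)

/-- nonzero integers of absolute value at most `4L` -/
noncomputable def TT (L : ℕ) : Finset ℤ := (Icc (-(4 * L : ℤ)) (4 * L)).filter (fun t => t ≠ 0)

theorem sum_TT (L : ℕ) (f : ℕ → ℝ) (hf : ∀ n, 0 ≤ f n) :
    ∑ t ∈ TT L, f t.natAbs ≤ 2 * ∑ s ∈ Icc 1 (4 * L), f s := by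
  have hm : ∀ t ∈ TT L, t.natAbs ∈ Icc 1 (4 * L) := by
    intro t ht
    rw [TT, mem_filter, mem_Icc] at ht
    rw [mem_Icc]
    omega
  rw [← Finset.sum_fiberwise_of_maps_to hm, Finset.mul_sum]
  refine Finset.sum_le_sum fun s hs => ?_
  have e1 : ∑ t ∈ (TT L).filter (fun t => t.natAbs = s), f t.natAbs =
      ∑ t ∈ (TT L).filter (fun t => t.natAbs = s), f s := by
    refine Finset.sum_congr rfl fun t ht => ?_
    rw [(mem_filter.1 ht).2]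
  rw [e1, Finset.sum_const, nsmul_eq_mul]
  refine mul_le_mul_of_nonneg_right ?_ (hf s)
  have e2 : (TT L).filter (fun t => t.natAbs = s) ⊆ {(s : ℤ), -(s : ℤ)} := by
    intro t ht
    have := (mem_filter.1 ht).2
    rw [mem_insert, mem_singleton]
    omega
  have e3 := (Finset.card_le_card e2).trans Finset.card_le_two
  exact_mod_cast e3

theorem gamma_le (L : ℕ) : ∑ t ∈ TT L, ∑ t' ∈ TT L, (Nat.gcd t.natAbs t'.natAbs : ℝ) ≤
    64 * (L : ℝ) ^ 2 * (1 + Real.log (4 * L)) := by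
  have h1 : ∑ t ∈ TT L, ∑ t' ∈ TT L, (Nat.gcd t.natAbs t'.natAbs : ℝ) ≤
      ∑ t ∈ TT L, 2 * ∑ s' ∈ Icc 1 (4 * L), (Nat.gcd t.natAbs s' : ℝ) :=
    Finset.sum_le_sum fun t _ =>
      sum_TT L (fun s' => (Nat.gcd t.natAbs s' : ℝ)) (fun s' => by positivity)
  have h2 := sum_TT L (fun s => 2 * ∑ s' ∈ Icc 1 (4 * L), (Nat.gcd s s' : ℝ))
    (fun s => by positivity)
  have h3 := gcd_sum (4 * L)
  push_cast at h3
  calc _ ≤ _ := h1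
    _ ≤ _ := h2
    _ = 2 * (2 * ∑ s ∈ Icc 1 (4 * L), ∑ s' ∈ Icc 1 (4 * L), (Nat.gcd s s' : ℝ)) := by
        rw [← Finset.mul_sum]
    _ ≤ 2 * (2 * ((4 * (L : ℝ)) ^ 2 * (1 + Real.log (4 * L)))) := by gcongr
    _ = _ := by ring

/-! ### exceptional primes -/

/-- exceptional primes -/
def XS (L : ℕ) (k t : ℤ) (l : ℕ) : Finset ℕ :=
  (PL L).filter (fun p => (p : ℤ) ∣ k ∨ (p : ℤ) ∣ t ∨ p = l)

theorem two_pow_le (n : ℕ) (hn : n ≠ 0) : 2 ^ n.primeFactors.card ≤ n := by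
  calc 2 ^ n.primeFactors.card = ∏ _p ∈ n.primeFactors, 2 := by rw [prod_const]
    _ ≤ ∏ p ∈ n.primeFactors, p :=
        Finset.prod_le_prod' fun p hp => (Nat.prime_of_mem_primeFactors hp).two_le
    _ ≤ n := Nat.le_of_dvd (Nat.pos_of_ne_zero hn) (Nat.prod_primeFactors_dvd n)

theorem card_dvd (L : ℕ) (k : ℤ) (hk : k ≠ 0) :
    (((PL L).filter (fun p : ℕ => (p : ℤ) ∣ k)).card : ℝ) ≤ 2 * Real.log |(k : ℝ)| := by
  have h1 : (PL L).filter (fun p : ℕ => (p : ℤ) ∣ k) ⊆ k.natAbs.primeFactors := by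
    intro p hp
    rw [mem_filter, PL, mem_filter] at hp
    rw [Nat.mem_primeFactors]
    exact ⟨hp.1.2, Int.natCast_dvd.1 hp.2, by omega⟩
  have h2 := two_pow_le k.natAbs (by omega)
  have h3 : ((k.natAbs : ℕ) : ℝ) = |(k : ℝ)| := by
    rw [← Int.cast_abs, Int.abs_eq_natAbs, Int.cast_natCast]
  have h4 : (2 : ℝ) ^ k.natAbs.primeFactors.card ≤ |(k : ℝ)| := by
    rw [← h3]
    exact_mod_cast h2
  have h5 := Real.log_le_log (by positivity) h4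
  rw [Real.log_pow] at h5
  have h6 : (((PL L).filter (fun p : ℕ => (p : ℤ) ∣ k)).card : ℝ) ≤
      k.natAbs.primeFactors.card := by exact_mod_cast card_le_card h1
  have h7 : (1 : ℝ) / 2 ≤ Real.log 2 := by
    have := Real.log_two_gt_d9
    linarith
  have h8 : (0 : ℝ) ≤ k.natAbs.primeFactors.card := by positivity
  nlinarith

theorem card_XS (L : ℕ) (k t : ℤ) (l : ℕ) (hk : k ≠ 0) (ht : t ∈ TT L) :
    ((XS L k t l).card : ℝ) ≤ 2 * Real.log |(k : ℝ)| + 2 * Real.log (4 * L) + 1 := by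
  rw [TT, mem_filter, mem_Icc] at ht
  have h1 : XS L k t l ⊆ ((PL L).filter (fun p : ℕ => (p : ℤ) ∣ k) ∪
      (PL L).filter (fun p : ℕ => (p : ℤ) ∣ t)) ∪ {l} := by
    intro p hp
    rw [XS, mem_filter] at hp
    rw [mem_union, mem_union, mem_filter, mem_filter, mem_singleton]
    tauto
  have h2 := card_le_card h1
  have h3 := (card_union_le ((PL L).filter (fun p : ℕ => (p : ℤ) ∣ k) ∪
      (PL L).filter (fun p : ℕ => (p : ℤ) ∣ t)) {l})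
  have h4 := card_union_le ((PL L).filter (fun p : ℕ => (p : ℤ) ∣ k))
      ((PL L).filter (fun p : ℕ => (p : ℤ) ∣ t))
  have h5 : ((XS L k t l).card : ℝ) ≤ ((PL L).filter (fun p : ℕ => (p : ℤ) ∣ k)).card +
      ((PL L).filter (fun p : ℕ => (p : ℤ) ∣ t)).card + 1 := by
    rw [card_singleton] at h3
    exact_mod_cast (by omega : (XS L k t l).card ≤ ((PL L).filter (fun p : ℕ => (p : ℤ) ∣ k)).card +
      ((PL L).filter (fun p : ℕ => (p : ℤ) ∣ t)).card + 1)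
  have h6 := card_dvd L k hk
  have h7 := card_dvd L t ht.2
  have h8 : Real.log |(t : ℝ)| ≤ Real.log (4 * L) := by
    apply Real.log_le_log
    · exact abs_pos.2 (by exact_mod_cast ht.2)
    · rw [abs_le]
      constructor
      · have := ht.1.1
        exact_mod_cast this
      · exact_mod_cast ht.1.2
  linarith

/-- the weight of a prime -/
noncomputable def aw (L : ℕ) (k t : ℤ) (l p : ℕ) : ℝ :=
  1 + if p ∈ XS L k t l then Real.sqrt (2 * L) else 0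

theorem aw_one (L : ℕ) (k t : ℤ) (l p : ℕ) : 1 ≤ aw L k t l p := by
  unfold aw
  split_ifs
  · have := Real.sqrt_nonneg (2 * (L : ℝ))
    linarith
  · linarith

theorem card_PL (L : ℕ) : ((PL L).card : ℝ) ≤ L := by
  have h : (PL L).card ≤ L := by
    unfold PL
    refine (card_filter_le _ _).trans ?_
    rw [Nat.card_Ioc]
    omega
  exact_mod_cast h

theorem sum_aw (L : ℕ) (hL : 1 ≤ L) (k t : ℤ) (l : ℕ) (hk : k ≠ 0) (ht : t ∈ TT L) :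
    ∑ p ∈ PL L, aw L k t l p ≤
      L * (3 + 4 * Real.log |(k : ℝ)| + 4 * Real.log (4 * L)) := by
  unfold aw
  rw [sum_add_distrib, sum_const, nsmul_eq_mul, mul_one, ← sum_filter, sum_const, nsmul_eq_mul]
  have e1 : (PL L).filter (fun p => p ∈ XS L k t l) = XS L k t l := by
    ext p
    rw [mem_filter, XS, mem_filter]
    tauto
  rw [e1]
  have h1 := card_XS L k t l hk ht
  have h2 := card_PL L
  have hL' : (1 : ℝ) ≤ L := by exact_mod_cast hL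
  have h3 : Real.sqrt (2 * L) ≤ 2 * L := by
    rw [Real.sqrt_le_left (by positivity)]
    nlinarith
  have h4 : ((XS L k t l).card : ℝ) * Real.sqrt (2 * L) ≤
      (2 * Real.log |(k : ℝ)| + 2 * Real.log (4 * L) + 1) * (2 * L) := by
    have h5 : (0 : ℝ) ≤ (XS L k t l).card := by positivity
    exact mul_le_mul h1 h3 (Real.sqrt_nonneg _) (h5.trans h1)
  nlinarith

/-! ### the bound for the weight -/

theorem mem_PL {L p : ℕ} : p ∈ PL L ↔ (L < p ∧ p ≤ 2 * L) ∧ p.Prime := by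
  rw [PL, mem_filter, mem_Ioc]

theorem mem_Par2 {L J : ℕ} {P : (ℕ × ℕ × ℤ) × (ℕ × ℕ)} : P ∈ Par2 L J ↔
    (P.1.1 ∈ PL L ∧ P.1.2.1 ∈ PL L ∧ P.1.2.2 ∈ TT L ∧ P.1.1 ≠ P.1.2.1 ∧
      ¬ (P.1.1 : ℤ) ∣ P.1.2.2 ∧ ¬ (P.1.2.1 : ℤ) ∣ P.1.2.2) ∧ P.2.1 ∈ Icc 1 J ∧ P.2.2 ∈ Icc 1 J := by
  unfold Par2 Par TT
  rw [mem_product, mem_product, mem_filter, mem_product, mem_product, mem_filter]
  tauto

theorem not_dvd_of_lt {L J p j : ℕ} (hp : p ∈ PL L) (hj : j ∈ Icc 1 J) (hJ : J ≤ L) :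
    ¬ (p : ℤ) ∣ (j : ℤ) := by
  intro h
  rw [Int.natCast_dvd_natCast] at h
  rw [mem_PL] at hp
  rw [mem_Icc] at hj
  have := Nat.le_of_dvd (by omega) h
  omega

theorem eq_of_dvd {L p q : ℕ} (hp : p ∈ PL L) (hq : q ∈ PL L) (h : (p : ℤ) ∣ (q : ℤ)) :
    p = q := by
  rw [Int.natCast_dvd_natCast] at h
  exact (Nat.prime_dvd_prime_iff_eq (mem_PL.1 hp).2 (mem_PL.1 hq).2).1 h

theorem dvd_jl {L J : ℕ} (hJ : J ≤ L) {P : (ℕ × ℕ × ℤ) × (ℕ × ℕ)} (hP : P ∈ Par2 L J) :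
    ¬ (P.1.1 : ℤ) ∣ jl P := by
  rw [mem_Par2] at hP
  obtain ⟨⟨h1, h2, h3, h4, h5, h6⟩, h7, h8⟩ := hP
  intro h
  have hpr : Prime (P.1.1 : ℤ) := Nat.prime_iff_prime_int.1 (mem_PL.1 h1).2
  have h9 : (P.1.1 : ℤ) ∣ (P.2.1 : ℤ) * P.1.2.1 := by
    have h10 : (P.1.1 : ℤ) ∣ (P.2.2 : ℤ) * P.1.1 := Dvd.intro_left _ rfl
    have := dvd_add h h10
    unfold jl at this
    simpa using this
  rcases hpr.dvd_or_dvd h9 with h10 | h10
  · exact not_dvd_of_lt h1 h7 hJ h10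
  · exact h4 (eq_of_dvd h1 h2 h10)

theorem mem_XS {L J : ℕ} (hJ : J ≤ L) {P P' : (ℕ × ℕ × ℤ) × (ℕ × ℕ)} (hP : P ∈ Par2 L J)
    (hP' : P' ∈ Par2 L J) (hne : P.1.1 ≠ P'.1.1) {k X : ℤ}
    (hX : X = k * (jl P * P.1.2.2 * P'.1.1 * P'.1.2.1 - jl P' * P'.1.2.2 * P.1.1 * P.1.2.1) *
      P.1.2.2 * P'.1.2.2 * P.1.2.1 * P'.1.2.1) (h : (P.1.1 : ℤ) ∣ X) :
    P.1.1 ∈ XS L k P'.1.2.2 P'.1.2.1 := by
  have hj := dvd_jl hJ hP
  rw [mem_Par2] at hP hP'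
  obtain ⟨⟨h1, h2, h3, h4, h5, h6⟩, h7, h8⟩ := hP
  obtain ⟨⟨h1', h2', h3', h4', h5', h6'⟩, h7', h8'⟩ := hP'
  have hpr : Prime (P.1.1 : ℤ) := Nat.prime_iff_prime_int.1 (mem_PL.1 h1).2
  unfold XS
  rw [mem_filter]
  refine ⟨h1, ?_⟩
  by_contra hcon
  push Not at hcon
  obtain ⟨c1, c2, c3⟩ := hcon
  have c4 : ¬ (P.1.1 : ℤ) ∣ (P'.1.2.1 : ℤ) := fun h' => c3 (eq_of_dvd h1 h2' h')
  have c5 : ¬ (P.1.1 : ℤ) ∣ (P.1.2.1 : ℤ) := fun h' => h4 (eq_of_dvd h1 h2 h')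
  have c6 : ¬ (P.1.1 : ℤ) ∣ (P'.1.1 : ℤ) := fun h' => hne (eq_of_dvd h1 h1' h')
  rw [hX] at h
  rcases hpr.dvd_or_dvd h with h | h
  · rcases hpr.dvd_or_dvd h with h | h
    · rcases hpr.dvd_or_dvd h with h | h
      · rcases hpr.dvd_or_dvd h with h | h
        · rcases hpr.dvd_or_dvd h with h | h
          · exact c1 h
          · have h9 : (P.1.1 : ℤ) ∣ jl P * P.1.2.2 * P'.1.1 * P'.1.2.1 := by
              have h10 : (P.1.1 : ℤ) ∣ jl P' * P'.1.2.2 * P.1.1 * P.1.2.1 :=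
                ⟨jl P' * P'.1.2.2 * P.1.2.1, by ring⟩
              have := dvd_add h h10
              simpa using this
            rcases hpr.dvd_or_dvd h9 with h9 | h9
            · rcases hpr.dvd_or_dvd h9 with h9 | h9
              · rcases hpr.dvd_or_dvd h9 with h9 | h9
                · exact hj h9
                · exact h5 h9
              · exact c6 h9
            · exact c4 h9
        · exact h5 h
      · exact c2 h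
    · exact c5 h
  · exact c4 h

theorem sqrt_gcd_le {L : ℕ} {k t : ℤ} {l p G : ℕ} (hp : p ∈ PL L)
    (h : p ∣ G → p ∈ XS L k t l) : Real.sqrt (Nat.gcd G p) ≤ aw L k t l p := by
  rw [mem_PL] at hp
  by_cases hd : p ∣ G
  · rw [Nat.gcd_eq_right hd]
    unfold aw
    rw [if_pos (h hd)]
    have h1 : Real.sqrt p ≤ Real.sqrt (2 * L) := Real.sqrt_le_sqrt (by exact_mod_cast hp.1.2)
    linarith
  · have : Nat.gcd G p = 1 := (Nat.coprime_comm.1 ((Nat.Prime.coprime_iff_not_dvd hp.2).2 hd))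
    rw [this, Nat.cast_one, Real.sqrt_one]
    exact aw_one _ _ _ _ _

theorem wP_le {L J : ℕ} (hJ : J ≤ L) {P P' : (ℕ × ℕ × ℤ) × (ℕ × ℕ)} (hP : P ∈ Par2 L J)
    (hP' : P' ∈ Par2 L J) {k : ℤ} :
    wP k P P' ≤ (if P.1.1 = P'.1.1 then 2 * (L : ℝ) else 0) +
      aw L k P'.1.2.2 P'.1.2.1 P.1.1 * aw L k P.1.2.2 P.1.2.1 P'.1.1 := by
  have h1 := aw_one L k P'.1.2.2 P'.1.2.1 P.1.1
  have h2 := aw_one L k P.1.2.2 P.1.2.1 P'.1.1
  have hPm := mem_Par2.1 hP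
  have hPm' := mem_Par2.1 hP'
  unfold wP
  by_cases he : P.1.1 = P'.1.1
  · rw [if_pos he, if_pos he]
    have h3 : (P.1.1 : ℝ) ≤ 2 * L := by exact_mod_cast (mem_PL.1 hPm.1.1).1.2
    nlinarith
  · rw [if_neg he, if_neg he, zero_add]
    have h3 : ((Nat.gcd (G2 k P P') (P.1.1 * P'.1.1) : ℕ) : ℝ) ≤
        (Nat.gcd (G2 k P P') P.1.1 : ℝ) * (Nat.gcd (G2 k P P') P'.1.1 : ℝ) := by
      have h4 : Nat.gcd (G2 k P P') (P.1.1 * P'.1.1) ≤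
          Nat.gcd (G2 k P P') P.1.1 * Nat.gcd (G2 k P P') P'.1.1 := by
        apply Nat.le_of_dvd
        · have := (mem_PL.1 hPm.1.1).2.pos
          have := (mem_PL.1 hPm'.1.1).2.pos
          exact Nat.mul_pos (Nat.gcd_pos_of_pos_right _ (by omega))
            (Nat.gcd_pos_of_pos_right _ (by omega))
        · exact Nat.gcd_mul_right_dvd_mul_gcd _ _ _
      exact_mod_cast h4
    calc Real.sqrt (Nat.gcd (G2 k P P') (P.1.1 * P'.1.1)) ≤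
        Real.sqrt ((Nat.gcd (G2 k P P') P.1.1 : ℝ) * (Nat.gcd (G2 k P P') P'.1.1 : ℝ)) :=
          Real.sqrt_le_sqrt h3
      _ = Real.sqrt (Nat.gcd (G2 k P P') P.1.1) * Real.sqrt (Nat.gcd (G2 k P P') P'.1.1) :=
          Real.sqrt_mul (by positivity) _
      _ ≤ _ := by
          refine mul_le_mul (sqrt_gcd_le hPm.1.1 fun h => ?_) (sqrt_gcd_le hPm'.1.1 fun h => ?_)
            (Real.sqrt_nonneg _) (by linarith)
          · refine mem_XS hJ hP hP' he (k := k) rfl ?_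
            unfold G2 Bq2 at h
            exact Int.natCast_dvd.2 h
          · refine mem_XS hJ hP' hP (Ne.symm he) (k := k) rfl ?_
            unfold G2 Bq2 at h
            have h5 := Int.natCast_dvd.2 h
            have h6 := (dvd_neg (α := ℤ)).2 h5
            refine h6.trans (dvd_of_eq ?_)
            ring

/-! ### summation -/

/-- the free set of parameters -/
noncomputable def Q2 (L J : ℕ) : Finset ((ℕ × ℕ × ℤ) × (ℕ × ℕ)) :=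
  (PL L ×ˢ PL L ×ˢ TT L) ×ˢ (Icc 1 J ×ˢ Icc 1 J)

theorem Par2_sub (L J : ℕ) : Par2 L J ⊆ Q2 L J := by
  intro P hP
  rw [mem_Par2] at hP
  rw [Q2, mem_product, mem_product, mem_product, mem_product]
  tauto

theorem sum_Q2 (L J : ℕ) (f : ℕ → ℕ → ℤ → ℝ) : ∑ P ∈ Q2 L J, f P.1.1 P.1.2.1 P.1.2.2 =
    (J : ℝ) ^ 2 * ∑ l₁ ∈ PL L, ∑ l₂ ∈ PL L, ∑ t ∈ TT L, f l₁ l₂ t := by
  unfold Q2
  simp only [Finset.sum_product, Finset.sum_const, nsmul_eq_mul, ← Finset.mul_sum, card_product,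
    Nat.card_Icc, Nat.add_sub_cancel]
  push_cast
  ring

theorem cross_le (L : ℕ) (k : ℤ) (B : ℝ)
    (hB : ∀ t ∈ TT L, ∀ l, ∑ p ∈ PL L, aw L k t l p ≤ B) :
    ∑ l₁ ∈ PL L, ∑ l₂ ∈ PL L, ∑ t ∈ TT L, ∑ l₁' ∈ PL L, ∑ l₂' ∈ PL L, ∑ t' ∈ TT L,
      (Nat.gcd t.natAbs t'.natAbs : ℝ) * (aw L k t' l₂' l₁ * aw L k t l₂ l₁') ≤
    B ^ 2 * ((L : ℝ) ^ 2 * ∑ t ∈ TT L, ∑ t' ∈ TT L, (Nat.gcd t.natAbs t'.natAbs : ℝ)) := by
  have haw : ∀ t l p, 0 ≤ aw L k t l p := fun t l p => (zero_le_one).trans (aw_one _ _ _ _ _)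
  have hcard := card_PL L
  have key : ∀ l₂ ∈ PL L, ∀ t ∈ TT L, ∑ l₁ ∈ PL L, ∑ l₁' ∈ PL L, ∑ l₂' ∈ PL L, ∑ t' ∈ TT L,
      (Nat.gcd t.natAbs t'.natAbs : ℝ) * (aw L k t' l₂' l₁ * aw L k t l₂ l₁') ≤
      B ^ 2 * (L * ∑ t' ∈ TT L, (Nat.gcd t.natAbs t'.natAbs : ℝ)) := by
    intro l₂ _ t ht
    have hB0 : 0 ≤ B := (sum_nonneg fun p _ => haw t l₂ p).trans (hB t ht l₂)
    calc ∑ l₁ ∈ PL L, ∑ l₁' ∈ PL L, ∑ l₂' ∈ PL L, ∑ t' ∈ TT L,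
          (Nat.gcd t.natAbs t'.natAbs : ℝ) * (aw L k t' l₂' l₁ * aw L k t l₂ l₁')
        = ∑ l₁' ∈ PL L, ∑ l₁ ∈ PL L, ∑ l₂' ∈ PL L, ∑ t' ∈ TT L,
          (Nat.gcd t.natAbs t'.natAbs : ℝ) * (aw L k t' l₂' l₁ * aw L k t l₂ l₁') :=
          Finset.sum_comm
      _ = ∑ l₁' ∈ PL L, aw L k t l₂ l₁' * ∑ l₁ ∈ PL L, ∑ l₂' ∈ PL L, ∑ t' ∈ TT L,
          (Nat.gcd t.natAbs t'.natAbs : ℝ) * aw L k t' l₂' l₁ := by
          refine sum_congr rfl fun l₁' _ => ?_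
          simp only [Finset.mul_sum]
          refine sum_congr rfl fun _ _ => sum_congr rfl fun _ _ => sum_congr rfl fun _ _ => ?_
          ring
      _ = (∑ l₁' ∈ PL L, aw L k t l₂ l₁') * ∑ l₂' ∈ PL L, ∑ t' ∈ TT L,
          (Nat.gcd t.natAbs t'.natAbs : ℝ) * ∑ l₁ ∈ PL L, aw L k t' l₂' l₁ := by
          rw [← Finset.sum_mul]
          congr 1
          rw [Finset.sum_comm]
          refine sum_congr rfl fun l₂' _ => ?_
          rw [Finset.sum_comm]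
          refine sum_congr rfl fun t' _ => ?_
          rw [Finset.mul_sum]
      _ ≤ B * ∑ _l₂' ∈ PL L, ∑ t' ∈ TT L, (Nat.gcd t.natAbs t'.natAbs : ℝ) * B := by
          refine mul_le_mul (hB t ht l₂) ?_ ?_ hB0
          · refine sum_le_sum fun l₂' _ => sum_le_sum fun t' ht' => ?_
            exact mul_le_mul_of_nonneg_left (hB t' ht' l₂') (by positivity)
          · exact sum_nonneg fun _ _ => sum_nonneg fun _ _ => mul_nonneg (by positivity)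
              (sum_nonneg fun _ _ => haw _ _ _)
      _ = B ^ 2 * ((PL L).card * ∑ t' ∈ TT L, (Nat.gcd t.natAbs t'.natAbs : ℝ)) := by
          rw [sum_const, nsmul_eq_mul, ← Finset.sum_mul]
          ring
      _ ≤ _ := by gcongr
  calc ∑ l₁ ∈ PL L, ∑ l₂ ∈ PL L, ∑ t ∈ TT L, ∑ l₁' ∈ PL L, ∑ l₂' ∈ PL L, ∑ t' ∈ TT L,
      (Nat.gcd t.natAbs t'.natAbs : ℝ) * (aw L k t' l₂' l₁ * aw L k t l₂ l₁')
      = ∑ l₂ ∈ PL L, ∑ t ∈ TT L, ∑ l₁ ∈ PL L, ∑ l₁' ∈ PL L, ∑ l₂' ∈ PL L, ∑ t' ∈ TT L,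
      (Nat.gcd t.natAbs t'.natAbs : ℝ) * (aw L k t' l₂' l₁ * aw L k t l₂ l₁') := by
        rw [Finset.sum_comm]
        refine sum_congr rfl fun l₂ _ => ?_
        rw [Finset.sum_comm]
    _ ≤ ∑ _l₂ ∈ PL L, ∑ t ∈ TT L, B ^ 2 * (L * ∑ t' ∈ TT L,
        (Nat.gcd t.natAbs t'.natAbs : ℝ)) :=
        sum_le_sum fun l₂ h2 => sum_le_sum fun t ht => key l₂ h2 t ht
    _ = B ^ 2 * ((PL L).card * L * ∑ t ∈ TT L, ∑ t' ∈ TT L,
        (Nat.gcd t.natAbs t'.natAbs : ℝ)) := by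
        rw [sum_const, nsmul_eq_mul, ← Finset.mul_sum, ← Finset.mul_sum]
        ring
    _ ≤ B ^ 2 * (L * L * ∑ t ∈ TT L, ∑ t' ∈ TT L,
        (Nat.gcd t.natAbs t'.natAbs : ℝ)) := by gcongr
    _ = _ := by ring

theorem diag_le (L : ℕ) :
    ∑ l₁ ∈ PL L, ∑ _l₂ ∈ PL L, ∑ t ∈ TT L, ∑ l₁' ∈ PL L, ∑ _l₂' ∈ PL L, ∑ t' ∈ TT L,
      (Nat.gcd t.natAbs t'.natAbs : ℝ) * (if l₁ = l₁' then 2 * (L : ℝ) else 0) ≤
    2 * (L : ℝ) ^ 4 * ∑ t ∈ TT L, ∑ t' ∈ TT L, (Nat.gcd t.natAbs t'.natAbs : ℝ) := by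
  have hcard := card_PL L
  set Γ := ∑ t ∈ TT L, ∑ t' ∈ TT L, (Nat.gcd t.natAbs t'.natAbs : ℝ) with hΓ
  have hΓ0 : 0 ≤ Γ := sum_nonneg fun _ _ => sum_nonneg fun _ _ => by positivity
  have h1 : ∀ l₁ ∈ PL L, ∑ _l₂ ∈ PL L, ∑ t ∈ TT L, ∑ l₁' ∈ PL L, ∑ _l₂' ∈ PL L, ∑ t' ∈ TT L,
      (Nat.gcd t.natAbs t'.natAbs : ℝ) * (if l₁ = l₁' then 2 * (L : ℝ) else 0) =
      ((PL L).card : ℝ) ^ 2 * (2 * L) * Γ := by
    intro l₁ hl₁
    have h2 : ∀ t ∈ TT L, ∑ l₁' ∈ PL L, ∑ _l₂' ∈ PL L, ∑ t' ∈ TT L,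
      (Nat.gcd t.natAbs t'.natAbs : ℝ) * (if l₁ = l₁' then 2 * (L : ℝ) else 0) =
      ((PL L).card : ℝ) * (2 * L) * ∑ t' ∈ TT L, (Nat.gcd t.natAbs t'.natAbs : ℝ) := by
      intro t _
      rw [Finset.sum_eq_single l₁]
      · rw [if_pos rfl, sum_const, nsmul_eq_mul, ← Finset.sum_mul]
        ring
      · intro b _ hb
        rw [if_neg (Ne.symm hb)]
        simp
      · intro h
        exact absurd hl₁ h
    rw [sum_const, nsmul_eq_mul, Finset.sum_congr rfl h2, ← Finset.mul_sum, hΓ]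
    ring
  rw [Finset.sum_congr rfl h1, sum_const, nsmul_eq_mul]
  calc ((PL L).card : ℝ) * (((PL L).card : ℝ) ^ 2 * (2 * L) * Γ) =
        ((PL L).card : ℝ) ^ 3 * (2 * L) * Γ := by ring
    _ ≤ (L : ℝ) ^ 3 * (2 * L) * Γ := by gcongr
    _ = _ := by ring

end TaskTH2

open TaskTH2 in
/-- TH2 (Gw.lean) -/
theorem gw (ε : ℝ) (hε : 0 < ε) : ∃ C : ℝ, 0 < C ∧ ∀ (M L J : ℕ), 1 ≤ M → 1 ≤ L → L ≤ M →
    1 ≤ J → J ≤ L → ∀ V : ℝ, 1 ≤ V → ∀ k : ℤ, k ≠ 0 → |(k : ℝ)| * J ≤ V * (M : ℝ) ^ 2 →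
    ∑ P ∈ Par2 L J, ∑ P' ∈ Par2 L J, (if G2 k P P' = 0 then 0 else
      (Nat.gcd P.1.2.2.natAbs P'.1.2.2.natAbs : ℝ) * wP k P P') ≤
      C * (V * M) ^ ε * ((J : ℝ) ^ 4 * (L : ℝ) ^ 6) := by
  set δ := ε / 3 with hδ
  have hδ0 : 0 < δ := by positivity
  refine ⟨64 * (3 + 1 / δ) * (2 + (11 + 12 / δ) ^ 2), by positivity, ?_⟩
  intro M L J hM hL hLM hJ hJL V hV k hk hkJ
  have hM' : (1 : ℝ) ≤ M := by exact_mod_cast hM
  have hL' : (1 : ℝ) ≤ L := by exact_mod_cast hL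
  have hJ' : (1 : ℝ) ≤ J := by exact_mod_cast hJ
  have hLM' : (L : ℝ) ≤ M := by exact_mod_cast hLM
  have hk1 : (1 : ℝ) ≤ |(k : ℝ)| := by
    have : (1 : ℤ) ≤ |k| := Int.one_le_abs hk
    exact_mod_cast this
  set X := V * (M : ℝ) with hX
  have hX1 : 1 ≤ X := by rw [hX]; nlinarith
  have hX0 : 0 < X := by linarith
  set B := (L : ℝ) * (3 + 4 * Real.log |(k : ℝ)| + 4 * Real.log (4 * L)) with hB
  set Γ := ∑ t ∈ TT L, ∑ t' ∈ TT L, (Nat.gcd t.natAbs t'.natAbs : ℝ) with hΓ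
  have hΓ0 : 0 ≤ Γ := sum_nonneg fun _ _ => sum_nonneg fun _ _ => by positivity
  have hΓle := gamma_le L
  rw [← hΓ] at hΓle
  have hlogk : 0 ≤ Real.log |(k : ℝ)| := Real.log_nonneg hk1
  have hlogL : 0 ≤ Real.log (4 * L) := Real.log_nonneg (by linarith)
  have hlogX : 0 ≤ Real.log X := Real.log_nonneg hX1
  -- the sum
  have hsum : ∑ P ∈ Par2 L J, ∑ P' ∈ Par2 L J, (if G2 k P P' = 0 then 0 else
      (Nat.gcd P.1.2.2.natAbs P'.1.2.2.natAbs : ℝ) * wP k P P') ≤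
      (J : ℝ) ^ 4 * (2 * (L : ℝ) ^ 4 * Γ + B ^ 2 * ((L : ℝ) ^ 2 * Γ)) := by
    have haw : ∀ t l p, 0 ≤ aw L k t l p := fun t l p => (zero_le_one).trans (aw_one _ _ _ _ _)
    set F : ℕ → ℕ → ℤ → ℕ → ℕ → ℤ → ℝ := fun l₁ l₂ t l₁' l₂' t' =>
      (Nat.gcd t.natAbs t'.natAbs : ℝ) * (if l₁ = l₁' then 2 * (L : ℝ) else 0) +
      (Nat.gcd t.natAbs t'.natAbs : ℝ) * (aw L k t' l₂' l₁ * aw L k t l₂ l₁') with hF
    have hF0 : ∀ l₁ l₂ t l₁' l₂' t', 0 ≤ F l₁ l₂ t l₁' l₂' t' := by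
      intro l₁ l₂ t l₁' l₂' t'
      rw [hF]
      have h1 := haw t' l₂' l₁
      have h2 := haw t l₂ l₁'
      simp only
      refine add_nonneg (mul_nonneg (by positivity) ?_) (mul_nonneg (by positivity)
        (mul_nonneg h1 h2))
      split_ifs <;> positivity
    have s1 : ∀ P ∈ Par2 L J, ∀ P' ∈ Par2 L J, (if G2 k P P' = 0 then 0 else
      (Nat.gcd P.1.2.2.natAbs P'.1.2.2.natAbs : ℝ) * wP k P P') ≤
        F P.1.1 P.1.2.1 P.1.2.2 P'.1.1 P'.1.2.1 P'.1.2.2 := by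
      intro P hP P' hP'
      split_ifs
      · exact hF0 _ _ _ _ _ _
      · have := wP_le hJL hP hP' (k := k)
        rw [hF]
        simp only
        rw [← mul_add]
        exact mul_le_mul_of_nonneg_left this (by positivity)
    calc _ ≤ ∑ P ∈ Par2 L J, ∑ P' ∈ Par2 L J,
          F P.1.1 P.1.2.1 P.1.2.2 P'.1.1 P'.1.2.1 P'.1.2.2 :=
          sum_le_sum fun P hP => sum_le_sum fun P' hP' => s1 P hP P' hP'
      _ ≤ ∑ P ∈ Par2 L J, ∑ P' ∈ Q2 L J, F P.1.1 P.1.2.1 P.1.2.2 P'.1.1 P'.1.2.1 P'.1.2.2 :=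
          sum_le_sum fun P _ => sum_le_sum_of_subset_of_nonneg (Par2_sub L J)
            fun _ _ _ => hF0 _ _ _ _ _ _
      _ ≤ ∑ P ∈ Q2 L J, ∑ P' ∈ Q2 L J, F P.1.1 P.1.2.1 P.1.2.2 P'.1.1 P'.1.2.1 P'.1.2.2 :=
          sum_le_sum_of_subset_of_nonneg (Par2_sub L J) fun _ _ _ =>
            sum_nonneg fun _ _ => hF0 _ _ _ _ _ _
      _ = ∑ P ∈ Q2 L J, (J : ℝ) ^ 2 * ∑ l₁' ∈ PL L, ∑ l₂' ∈ PL L, ∑ t' ∈ TT L,
          F P.1.1 P.1.2.1 P.1.2.2 l₁' l₂' t' :=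
          sum_congr rfl fun P _ => sum_Q2 L J (F P.1.1 P.1.2.1 P.1.2.2)
      _ = (J : ℝ) ^ 2 * ∑ l₁ ∈ PL L, ∑ l₂ ∈ PL L, ∑ t ∈ TT L, ((J : ℝ) ^ 2 *
          ∑ l₁' ∈ PL L, ∑ l₂' ∈ PL L, ∑ t' ∈ TT L, F l₁ l₂ t l₁' l₂' t') :=
          sum_Q2 L J (fun l₁ l₂ t => (J : ℝ) ^ 2 *
          ∑ l₁' ∈ PL L, ∑ l₂' ∈ PL L, ∑ t' ∈ TT L, F l₁ l₂ t l₁' l₂' t')
      _ = (J : ℝ) ^ 4 * ∑ l₁ ∈ PL L, ∑ l₂ ∈ PL L, ∑ t ∈ TT L,
          ∑ l₁' ∈ PL L, ∑ l₂' ∈ PL L, ∑ t' ∈ TT L, F l₁ l₂ t l₁' l₂' t' := by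
          simp only [← Finset.mul_sum]
          ring
      _ = (J : ℝ) ^ 4 * (∑ l₁ ∈ PL L, ∑ _l₂ ∈ PL L, ∑ t ∈ TT L, ∑ l₁' ∈ PL L, ∑ _l₂' ∈ PL L,
          ∑ t' ∈ TT L, (Nat.gcd t.natAbs t'.natAbs : ℝ) * (if l₁ = l₁' then 2 * (L : ℝ) else 0) +
          ∑ l₁ ∈ PL L, ∑ l₂ ∈ PL L, ∑ t ∈ TT L, ∑ l₁' ∈ PL L, ∑ l₂' ∈ PL L, ∑ t' ∈ TT L,
            (Nat.gcd t.natAbs t'.natAbs : ℝ) * (aw L k t' l₂' l₁ * aw L k t l₂ l₁')) := by
          simp only [hF, Finset.sum_add_distrib]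
      _ ≤ _ := by
          refine mul_le_mul_of_nonneg_left (add_le_add (diag_le L) (cross_le L k B ?_))
            (by positivity)
          intro t ht l
          exact sum_aw L hL k t l hk ht
  -- the logarithms
  have hXδ : 1 ≤ X ^ δ := Real.one_le_rpow hX1 hδ0.le
  have hlX : Real.log X ≤ 1 / δ * X ^ δ := by
    have := Real.log_le_rpow_div hX0.le hδ0
    rw [one_div, inv_mul_eq_div]
    exact this
  have hkX : Real.log |(k : ℝ)| ≤ 2 * Real.log X := by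
    have h1 : |(k : ℝ)| ≤ X ^ 2 := by
      calc |(k : ℝ)| ≤ |(k : ℝ)| * J := le_mul_of_one_le_right (by positivity) hJ'
        _ ≤ V * (M : ℝ) ^ 2 := hkJ
        _ ≤ V * V * (M : ℝ) ^ 2 := by
            have : V ≤ V * V := by nlinarith
            gcongr
        _ = X ^ 2 := by rw [hX]; ring
    have h2 := Real.log_le_log (by positivity) h1
    rw [Real.log_pow] at h2
    exact_mod_cast h2
  have hlog4 : Real.log 4 ≤ 2 := by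
    have h1 : Real.log 4 = 2 * Real.log 2 := by
      rw [show (4 : ℝ) = 2 ^ 2 by norm_num, Real.log_pow]
      norm_num
    have := Real.log_two_lt_d9
    linarith
  have hLX : Real.log (4 * L) ≤ 2 + Real.log X := by
    rw [Real.log_mul (by norm_num) (by positivity)]
    have h1 : Real.log L ≤ Real.log X := by
      apply Real.log_le_log (by positivity)
      rw [hX]
      nlinarith
    linarith
  have hb : 3 + 4 * Real.log |(k : ℝ)| + 4 * Real.log (4 * L) ≤ (11 + 12 / δ) * X ^ δ := by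
    have e1 : (12 / δ) * X ^ δ = 12 * (1 / δ * X ^ δ) := by ring
    rw [add_mul, e1]
    linarith
  have hg : 1 + Real.log (4 * L) ≤ (3 + 1 / δ) * X ^ δ := by
    rw [add_mul]
    linarith
  set b := 3 + 4 * Real.log |(k : ℝ)| + 4 * Real.log (4 * L) with hbdef
  have hb0 : 0 ≤ b := by rw [hbdef]; positivity
  have hb2 : b ^ 2 ≤ ((11 + 12 / δ) * X ^ δ) ^ 2 := pow_le_pow_left₀ hb0 hb 2
  have hXε : X ^ ε = X ^ δ * (X ^ δ) ^ 2 := by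
    rw [← Real.rpow_natCast (X ^ δ), ← Real.rpow_mul hX0.le, ← Real.rpow_add hX0]
    congr 1
    rw [hδ]
    push_cast
    ring
  have h2b : 2 + b ^ 2 ≤ (2 + (11 + 12 / δ) ^ 2) * (X ^ δ) ^ 2 := by
    have h1 : 1 ≤ (X ^ δ) ^ 2 := one_le_pow₀ hXδ
    rw [mul_pow] at hb2
    nlinarith
  calc _ ≤ (J : ℝ) ^ 4 * (2 * (L : ℝ) ^ 4 * Γ + B ^ 2 * ((L : ℝ) ^ 2 * Γ)) := hsum
    _ = (J : ℝ) ^ 4 * ((L : ℝ) ^ 4 * (Γ * (2 + b ^ 2))) := by rw [hB]; ring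
    _ ≤ (J : ℝ) ^ 4 * ((L : ℝ) ^ 4 * ((64 * (L : ℝ) ^ 2 * ((3 + 1 / δ) * X ^ δ)) *
        ((2 + (11 + 12 / δ) ^ 2) * (X ^ δ) ^ 2))) := by
        have h3 : Γ ≤ 64 * (L : ℝ) ^ 2 * ((3 + 1 / δ) * X ^ δ) :=
          hΓle.trans (mul_le_mul_of_nonneg_left hg (by positivity))
        have h4 : Γ * (2 + b ^ 2) ≤ (64 * (L : ℝ) ^ 2 * ((3 + 1 / δ) * X ^ δ)) *
          ((2 + (11 + 12 / δ) ^ 2) * (X ^ δ) ^ 2) :=
          mul_le_mul h3 h2b (by positivity) (hΓ0.trans h3)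
        gcongr
    _ = _ := by rw [hXε]; ring

end Pool.Agent.H442R2.KF
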