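import Pool.Agent.H442R2.KF.Defs

/-! # H2: counting -/

namespace Pool.Agent.H442R2.KF

open Finset

namespace TaskH2

theorem harm (n : ℕ) : ∑ s ∈ Icc 1 n, (1 : ℝ) / s ≤ 1 + Real.log n := by
  have h := harmonic_le_one_add_log n
  rw [harmonic_eq_sum_Icc] at h
  push_cast at h
  simpa [one_div] using h

/-- sums over the parameters -/
theorem par_sum (L : ℕ) (f : ℕ → ℝ) (hf : ∀ n, 0 ≤ f n) :
    ∑ p ∈ Par L, f p.2.2.natAbs ≤ ((PL L).card : ℝ) ^ 2 * (2 * ∑ s ∈ Icc 1 (4 * L), f s) := by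
  set T : Finset ℤ := (Icc (-(4 * L : ℤ)) (4 * L)).filter (fun t => t ≠ 0) with hT
  have hsub : Par L ⊆ PL L ×ˢ PL L ×ˢ T := by
    intro p hp
    unfold Par at hp
    rw [mem_filter, mem_product, mem_product] at hp
    rw [mem_product, mem_product, hT, mem_filter]
    exact ⟨hp.1.1, hp.1.2.1, hp.1.2.2, hp.2.2.1⟩
  have h1 : ∑ p ∈ Par L, f p.2.2.natAbs ≤ ∑ p ∈ PL L ×ˢ PL L ×ˢ T, f p.2.2.natAbs :=
    Finset.sum_le_sum_of_subset_of_nonneg hsub fun p _ _ => hf _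
  have h2 : ∑ p ∈ PL L ×ˢ PL L ×ˢ T, f p.2.2.natAbs = ((PL L).card : ℝ) ^ 2 * ∑ t ∈ T, f t.natAbs := by
    rw [Finset.sum_product]
    simp only [Finset.sum_product, Finset.sum_const, nsmul_eq_mul]
    ring
  have h3 : ∑ t ∈ T, f t.natAbs ≤ 2 * ∑ s ∈ Icc 1 (4 * L), f s := by
    have hm : ∀ t ∈ T, t.natAbs ∈ Icc 1 (4 * L) := by
      intro t ht
      rw [hT, mem_filter, mem_Icc] at ht
      rw [mem_Icc]
      omega
    rw [← Finset.sum_fiberwise_of_maps_to hm, Finset.mul_sum]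
    refine Finset.sum_le_sum fun s hs => ?_
    have e1 : ∑ t ∈ T.filter (fun t => t.natAbs = s), f t.natAbs =
        ∑ t ∈ T.filter (fun t => t.natAbs = s), f s := by
      refine Finset.sum_congr rfl fun t ht => ?_
      rw [(mem_filter.1 ht).2]
    rw [e1, Finset.sum_const, nsmul_eq_mul]
    refine mul_le_mul_of_nonneg_right ?_ (hf s)
    have e2 : T.filter (fun t => t.natAbs = s) ⊆ {(s : ℤ), -(s : ℤ)} := by
      intro t ht
      have := (mem_filter.1 ht).2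
      rw [mem_insert, mem_singleton]
      omega
    have e3 := (Finset.card_le_card e2).trans Finset.card_le_two
    exact_mod_cast e3
  refine h1.trans (h2.le.trans ?_)
  exact mul_le_mul_of_nonneg_left h3 (by positivity)

theorem cnt (M s : ℕ) (hs : 1 ≤ s) (A : Finset ℕ) (hA : ∀ m ∈ A, m ∈ Ioc M (2 * M + 1))
    (hd : ∀ m ∈ A, ∀ m' ∈ A, (s : ℤ) ∣ (m : ℤ) - m') : (A.card : ℝ) ≤ M / s + 1 := by
  have h1 : A.card ≤ (range (M / s + 1)).card := by
    apply Finset.card_le_card_of_injOn (fun m => (m - (M + 1)) / s)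
    · intro m hm
      have := mem_Ioc.1 (hA m hm)
      simp only [coe_range, Set.mem_Iio]
      have h2 : (m - (M + 1)) / s ≤ M / s := Nat.div_le_div_right (by omega)
      omega
    · intro m hm m' hm' h
      have a1 := mem_Ioc.1 (hA m hm)
      have a2 := mem_Ioc.1 (hA m' hm')
      have a3 := hd m hm m' hm'
      simp only at h
      set x := m - (M + 1) with hx
      set y := m' - (M + 1) with hy
      have a4 : (s : ℤ) ∣ (x : ℤ) - y := by
        have : (x : ℤ) - y = (m : ℤ) - m' := by omega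
        rw [this]; exact a3
      have a5 : y % s = x % s := (Nat.modEq_iff_dvd.2 a4)
      have b1 := Nat.div_add_mod x s
      have b2 := Nat.div_add_mod y s
      rw [h, ← a5, b2] at b1
      omega
  rw [card_range] at h1
  have h2 : (A.card : ℝ) ≤ ((M / s + 1 : ℕ) : ℝ) := by exact_mod_cast h1
  refine h2.trans ?_
  push_cast
  have h3 : ((M / s : ℕ) : ℝ) ≤ (M : ℝ) / s := Nat.cast_div_le
  linarith

theorem one_par (M L : ℕ) (p : ℕ × ℕ × ℤ) (hp : p ∈ Par L) :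
    (((Ioc M (2 * M + 1) ×ˢ Ioc M (2 * M + 1)).filter
        (fun m : ℕ × ℕ => adm M p m.1 m.2)).card : ℝ) ≤
      (M + 1) * ((M : ℝ) / p.2.2.natAbs + 1) := by
  unfold Par at hp
  rw [mem_filter, mem_product, mem_product] at hp
  obtain ⟨⟨-, hl2, -⟩, -, ht0, -, ht2⟩ := hp
  have hpr : p.2.1.Prime := (mem_filter.1 hl2).2
  have hco : IsCoprime p.2.2 (p.2.1 : ℤ) :=
    ((Nat.prime_iff_prime_int.1 hpr).coprime_iff_not_dvd.2 ht2).symm
  rw [Finset.card_filter, Finset.sum_product_right]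
  simp only [← Finset.card_filter]
  push_cast
  have h1 : ∀ m₂ ∈ Ioc M (2 * M + 1),
      (((Ioc M (2 * M + 1)).filter (fun m₁ => adm M p m₁ m₂)).card : ℝ) ≤
        (M : ℝ) / p.2.2.natAbs + 1 := by
    intro m₂ _
    apply cnt M p.2.2.natAbs (by omega)
    · intro m hm
      exact (mem_filter.1 hm).1
    · intro m hm m' hm'
      have a1 := (mem_filter.1 hm).2.2.1
      have a2 := (mem_filter.1 hm').2.2.1
      rw [Int.natAbs_dvd]
      have a3 : p.2.2 ∣ (p.2.1 : ℤ) * ((m : ℤ) - m') := by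
        have := dvd_sub a1 a2
        have e : ((p.2.1 : ℤ) * m - p.1 * m₂) - ((p.2.1 : ℤ) * m' - p.1 * m₂) =
          (p.2.1 : ℤ) * ((m : ℤ) - m') := by ring
        rwa [e] at this
      exact hco.dvd_of_dvd_mul_left a3
  refine (Finset.sum_le_sum h1).trans ?_
  rw [Finset.sum_const, nsmul_eq_mul, Nat.card_Ioc]
  have : ((2 * M + 1 - M : ℕ) : ℝ) = M + 1 := by
    rw [show 2 * M + 1 - M = M + 1 by omega]; push_cast; ring
  rw [this]

end TaskH2

open TaskH2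

/-- H2 (Cnt.lean): number of admissible pairs, summed over the parameters -/
theorem adm_count (M L : ℕ) (hM : 1 ≤ M) (hL : 1 ≤ L) (hLM : L ≤ M) :
    ∑ p ∈ Par L, (((Ioc M (2 * M + 1) ×ˢ Ioc M (2 * M + 1)).filter
        (fun m : ℕ × ℕ => adm M p m.1 m.2)).card : ℝ) ≤
      100 * ((PL L).card : ℝ) ^ 2 * (M : ℝ) ^ 2 * (1 + Real.log M) := by
  have h1 := Finset.sum_le_sum fun p hp => one_par M L p hp
  have h2 := par_sum L (fun s => ((M : ℝ) + 1) * ((M : ℝ) / s + 1)) (fun s => by positivity)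
  refine (h1.trans h2).trans ?_
  have hM1 : (1 : ℝ) ≤ M := by exact_mod_cast hM
  have hL1 : (1 : ℝ) ≤ L := by exact_mod_cast hL
  have hLM' : (L : ℝ) ≤ M := by exact_mod_cast hLM
  have h3 : ∑ s ∈ Icc 1 (4 * L), ((M : ℝ) + 1) * ((M : ℝ) / s + 1) ≤
      (M + 1) * (M * (1 + Real.log (4 * L)) + 4 * L) := by
    rw [← Finset.mul_sum]
    refine mul_le_mul_of_nonneg_left ?_ (by positivity)
    rw [Finset.sum_add_distrib, Finset.sum_const, Nat.card_Icc, nsmul_eq_mul, mul_one]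
    have h4 := harm (4 * L)
    push_cast at h4
    have h5 : ∑ s ∈ Icc 1 (4 * L), (M : ℝ) / s = M * ∑ s ∈ Icc 1 (4 * L), (1 : ℝ) / s := by
      rw [Finset.mul_sum]
      refine Finset.sum_congr rfl fun s _ => ?_
      ring
    rw [h5]
    have h6 := mul_le_mul_of_nonneg_left h4 (by positivity : (0 : ℝ) ≤ M)
    have h7 : ((4 * L + 1 - 1 : ℕ) : ℝ) = 4 * L := by
      rw [show 4 * L + 1 - 1 = 4 * L by omega]; push_cast; ring
    rw [h7]
    linarith
  have hlogM : 0 ≤ Real.log M := Real.log_nonneg hM1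
  have hlog : Real.log (4 * L) ≤ 2 + Real.log M := by
    rw [Real.log_mul (by norm_num) (by positivity)]
    have a1 : Real.log L ≤ Real.log M := Real.log_le_log (by positivity) hLM'
    have a2 : Real.log 4 ≤ 2 := by
      have : Real.log 4 = 2 * Real.log 2 := by
        rw [show (4 : ℝ) = 2 ^ 2 by norm_num, Real.log_pow]; norm_num
      rw [this]
      have := Real.log_two_lt_d9
      linarith
    linarith
  have h8 : (M + 1) * (M * (1 + Real.log (4 * L)) + 4 * L) ≤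
      (2 * M) * (M * (3 + Real.log M) + 4 * M) := by
    apply mul_le_mul (by linarith) _ (by
      have : 0 ≤ Real.log (4 * L) := Real.log_nonneg (by linarith)
      positivity) (by positivity)
    have := mul_le_mul_of_nonneg_left hlog (by positivity : (0 : ℝ) ≤ M)
    nlinarith
  have h9 : 2 * ∑ s ∈ Icc 1 (4 * L), ((M : ℝ) + 1) * ((M : ℝ) / s + 1) ≤
      100 * (M : ℝ) ^ 2 * (1 + Real.log M) := by
    have h10 := h3.trans h8
    have h11 : 0 ≤ (M : ℝ) ^ 2 * Real.log M := by positivity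
    nlinarith [h11, sq_nonneg (M : ℝ)]
  calc _ ≤ ((PL L).card : ℝ) ^ 2 * (100 * (M : ℝ) ^ 2 * (1 + Real.log M)) :=
        mul_le_mul_of_nonneg_left h9 (by positivity)
    _ = _ := by ring

/-- H3 (Cnt.lean): sum of gcd's -/
theorem gcd_count (L : ℕ) (hL : 1 ≤ L) :
    ∑ p ∈ Par L, ∑ p' ∈ Par L, (Nat.gcd p.2.2.natAbs p'.2.2.natAbs : ℝ) ≤
      64 * ((PL L).card : ℝ) ^ 4 * (L : ℝ) ^ 2 * (1 + Real.log (4 * L)) := by
  set P : ℝ := ((PL L).card : ℝ) with hP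
  set n := 4 * L with hn
  have hn1 : 1 ≤ n := by omega
  have h1 : ∑ p ∈ Par L, ∑ p' ∈ Par L, (Nat.gcd p.2.2.natAbs p'.2.2.natAbs : ℝ) ≤
      ∑ p ∈ Par L, P ^ 2 * (2 * ∑ s' ∈ Icc 1 n, (Nat.gcd p.2.2.natAbs s' : ℝ)) :=
    Finset.sum_le_sum fun p _ =>
      par_sum L (fun s' => (Nat.gcd p.2.2.natAbs s' : ℝ)) (fun s' => by positivity)
  have h2 := par_sum L (fun s => P ^ 2 * (2 * ∑ s' ∈ Icc 1 n, (Nat.gcd s s' : ℝ)))
    (fun s => by positivity)
  have h3 : ∑ s ∈ Icc 1 n, ∑ s' ∈ Icc 1 n, (Nat.gcd s s' : ℝ) ≤ (n : ℝ) ^ 2 * (1 + Real.log n) := by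
    have a1 : ∀ s ∈ Icc 1 n, ∀ s' ∈ Icc 1 n, (Nat.gcd s s' : ℝ) ≤
        ∑ g ∈ Icc 1 n, (g : ℝ) * ((if g ∣ s then 1 else 0) * (if g ∣ s' then 1 else 0)) := by
      intro s hs s' hs'
      rw [mem_Icc] at hs hs'
      have hg : Nat.gcd s s' ∈ Icc 1 n := by
        rw [mem_Icc]
        exact ⟨Nat.gcd_pos_of_pos_left _ (by omega),
          (Nat.le_of_dvd (by omega) (Nat.gcd_dvd_left s s')).trans hs.2⟩
      have := Finset.single_le_sum (f := fun g : ℕ => (g : ℝ) * ((if g ∣ s then 1 else 0) *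
        (if g ∣ s' then 1 else 0))) (fun g _ => by positivity) hg
      simp only [if_pos (Nat.gcd_dvd_left s s'), if_pos (Nat.gcd_dvd_right s s'), mul_one] at this
      exact this
    have a2 : ∑ s ∈ Icc 1 n, ∑ s' ∈ Icc 1 n, (Nat.gcd s s' : ℝ) ≤
        ∑ s ∈ Icc 1 n, ∑ s' ∈ Icc 1 n, ∑ g ∈ Icc 1 n, (g : ℝ) * ((if g ∣ s then 1 else 0) *
          (if g ∣ s' then 1 else 0)) :=
      Finset.sum_le_sum fun s hs => Finset.sum_le_sum fun s' hs' => a1 s hs s' hs'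
    have a3 : ∑ s ∈ Icc 1 n, ∑ s' ∈ Icc 1 n, ∑ g ∈ Icc 1 n, (g : ℝ) * ((if g ∣ s then 1 else 0) *
          (if g ∣ s' then 1 else 0)) =
        ∑ g ∈ Icc 1 n, (g : ℝ) * (∑ s ∈ Icc 1 n, if g ∣ s then (1 : ℝ) else 0) ^ 2 := by
      have e1 : ∀ s ∈ Icc 1 n, ∑ s' ∈ Icc 1 n, ∑ g ∈ Icc 1 n, (g : ℝ) *
          ((if g ∣ s then 1 else 0) * (if g ∣ s' then 1 else 0)) =
          ∑ g ∈ Icc 1 n, (g : ℝ) * ((if g ∣ s then 1 else 0) *
            ∑ s' ∈ Icc 1 n, if g ∣ s' then (1 : ℝ) else 0) := by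
        intro s _
        rw [Finset.sum_comm]
        refine Finset.sum_congr rfl fun g _ => ?_
        rw [Finset.mul_sum, Finset.mul_sum]
      rw [Finset.sum_congr rfl e1, Finset.sum_comm]
      refine Finset.sum_congr rfl fun g _ => ?_
      rw [← Finset.mul_sum, ← Finset.sum_mul, sq]
    have a4 : ∀ g ∈ Icc 1 n, (g : ℝ) * (∑ s ∈ Icc 1 n, if g ∣ s then (1 : ℝ) else 0) ^ 2 ≤
        (n : ℝ) ^ 2 * ((1 : ℝ) / g) := by
      intro g hg
      rw [mem_Icc] at hg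
      have hg0 : (0 : ℝ) < g := by exact_mod_cast (by omega : 0 < g)
      have b1 : ∑ s ∈ Icc 1 n, (if g ∣ s then (1 : ℝ) else 0) ≤ (n : ℝ) / g := by
        rw [← Finset.sum_filter, Finset.sum_const, nsmul_eq_mul, mul_one]
        have b2 : ((Icc 1 n).filter (fun s => g ∣ s)).card = n / g := by
          have := Nat.Ioc_filter_dvd_card_eq_div n g
          rw [← this]
          congr 1
        rw [b2]
        exact Nat.cast_div_le
      have b3 : (0 : ℝ) ≤ ∑ s ∈ Icc 1 n, (if g ∣ s then (1 : ℝ) else 0) :=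
        Finset.sum_nonneg fun s _ => by positivity
      have b4 : (∑ s ∈ Icc 1 n, (if g ∣ s then (1 : ℝ) else 0)) ^ 2 ≤ ((n : ℝ) / g) ^ 2 :=
        pow_le_pow_left₀ b3 b1 2
      calc _ ≤ (g : ℝ) * ((n : ℝ) / g) ^ 2 := mul_le_mul_of_nonneg_left b4 hg0.le
        _ = _ := by field_simp
    calc _ ≤ _ := a2
      _ = _ := a3
      _ ≤ ∑ g ∈ Icc 1 n, (n : ℝ) ^ 2 * ((1 : ℝ) / g) := Finset.sum_le_sum a4
      _ = (n : ℝ) ^ 2 * ∑ g ∈ Icc 1 n, (1 : ℝ) / g := by rw [Finset.mul_sum]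
      _ ≤ _ := mul_le_mul_of_nonneg_left (harm n) (by positivity)
  have h4 : ∑ s ∈ Icc 1 n, P ^ 2 * (2 * ∑ s' ∈ Icc 1 n, (Nat.gcd s s' : ℝ)) =
      P ^ 2 * (2 * ∑ s ∈ Icc 1 n, ∑ s' ∈ Icc 1 n, (Nat.gcd s s' : ℝ)) := by
    rw [← Finset.mul_sum, ← Finset.mul_sum]
  have h5 : (n : ℝ) = 4 * L := by rw [hn]; push_cast; ring
  calc _ ≤ _ := h1
    _ ≤ _ := h2
    _ = 4 * P ^ 4 * ∑ s ∈ Icc 1 n, ∑ s' ∈ Icc 1 n, (Nat.gcd s s' : ℝ) := by rw [h4]; ring
    _ ≤ 4 * P ^ 4 * ((n : ℝ) ^ 2 * (1 + Real.log n)) :=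
        mul_le_mul_of_nonneg_left h3 (by positivity)
    _ = _ := by rw [h5]; ring

end Pool.Agent.H442R2.KF
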