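import Pool.Agent.H442R2.KF.Defs2
import Pool.Agent.H442R2.KF.Cnt
import Pool.Agent.Helper112.Arith

/-!
KF project, part 2, task TI (helper284): Hilbert-Schmidt bound of the kernel (trilinear version).
-/

namespace Pool.Agent.H442R2.KF

open Finset

namespace TaskTI

/-- statement of task TF (`fixed2`) -/
def Fixed2 : Prop := ∀ (M L J : ℕ) (_ : 1 ≤ M) (_ : L ≤ M) (_ : J ≤ L) (V : ℝ) (_ : 1 ≤ V)
    (ψ : ℕ → ℝ → ℂ) (_ : ∀ j, Wei M V (ψ j)) (k : ℤ) (_ : |(k : ℝ)| * J ≤ V * (M : ℝ) ^ 2)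
    (P P' : (ℕ × ℕ × ℤ) × (ℕ × ℕ)) (_ : P ∈ Par2 L J) (_ : P' ∈ Par2 L J)
    (_ : G2 k P P' ≠ 0) (m₂ : ℕ) (_ : m₂ ∈ Ioc M (2 * M + 1)),
    ‖∑ m₁ ∈ Ioc M (2 * M + 1), tm2 ψ k M P m₁ m₂ * (starRingEnd ℂ) (tm2 ψ k M P' m₁ m₂)‖ ≤
      10000 * V * L * Nat.gcd P.1.2.2.natAbs P'.1.2.2.natAbs *
        Real.sqrt (vp (G2 k P P') (P.1.1 * P'.1.1 * m₂)) * Real.sqrt M * tau m₂ *
          (1 + Real.log M)

/-- statement of task TG (`sum_vp2`) -/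
def SumVp2 : Prop := ∀ (X G l l' : ℕ) (_ : 1 ≤ X) (_ : 0 < G) (_ : l.Prime) (_ : l'.Prime)
    (_ : l ≠ l'),
    ∑ m ∈ Icc 1 X, Real.sqrt (vp G (l * l' * m)) ≤
      27 * X * (1 + Real.log (l * l' * X)) * tau G * Real.sqrt (Nat.gcd G (l * l'))

/-- statement of task TG (`sum_vp3`) -/
def SumVp3 : Prop := ∀ (X G l : ℕ) (_ : 1 ≤ X) (_ : 0 < G) (_ : l.Prime),
    ∑ m ∈ Icc 1 X, Real.sqrt (vp G (l * l * m)) ≤
      27 * X * (1 + Real.log (l * l * X)) * tau G * l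

/-- statement of task TH1 (`jl_ne_zero`) -/
def JlNe : Prop := ∀ (L J : ℕ) (_ : J ≤ L) (P : (ℕ × ℕ × ℤ) × (ℕ × ℕ)) (_ : P ∈ Par2 L J),
    jl P ≠ 0

/-- statement of task TH1 (`Bq2_zero_count`) -/
def BqCount : Prop := ∀ (L J : ℕ) (_ : J ≤ L) (P : (ℕ × ℕ × ℤ) × (ℕ × ℕ)) (_ : P ∈ Par2 L J),
    (((Par2 L J).filter (fun P' => Bq2 P P' = 0)).card : ℝ) ≤ 4 * tau (jl P * P.1.2.2).natAbs

/-- statement of task TH2 (`gw`) -/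
def GwP : Prop := ∀ (ε : ℝ) (_ : 0 < ε), ∃ C : ℝ, 0 < C ∧ ∀ (M L J : ℕ), 1 ≤ M → 1 ≤ L → L ≤ M →
    1 ≤ J → J ≤ L → ∀ V : ℝ, 1 ≤ V → ∀ k : ℤ, k ≠ 0 → |(k : ℝ)| * J ≤ V * (M : ℝ) ^ 2 →
    ∑ P ∈ Par2 L J, ∑ P' ∈ Par2 L J, (if G2 k P P' = 0 then 0 else
      (Nat.gcd P.1.2.2.natAbs P'.1.2.2.natAbs : ℝ) * wP k P P') ≤
      C * (V * M) ^ ε * ((J : ℝ) ^ 4 * (L : ℝ) ^ 6)

lemma norm_tm2_le (M : ℕ) (V : ℝ) (ψ : ℕ → ℝ → ℂ) (hψ : ∀ j, Wei M V (ψ j)) (k : ℤ)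
    (P : (ℕ × ℕ × ℤ) × (ℕ × ℕ)) (m₁ m₂ : ℕ) (h1 : m₁ ∈ Ioc M (2 * M + 1))
    (h2 : m₂ ∈ Ioc M (2 * M + 1)) :
    ‖tm2 ψ k M P m₁ m₂‖ ≤ if adm M P.1 m₁ m₂ then 1 else 0 := by
  unfold tm2
  split_ifs with h
  · have hn : nu P.1 m₁ m₂ ∈ Ioc M (2 * M + 1) := h.2.2.1
    rw [mem_Ioc] at h1 h2 hn
    have e1 : (M : ℝ) ≤ m₁ := by exact_mod_cast h1.1.le
    have e2 : (M : ℝ) ≤ m₂ := by exact_mod_cast h2.1.le
    have e3 : (M : ℝ) ≤ nu P.1 m₁ m₂ := by exact_mod_cast hn.1.le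
    have a1 : ‖ψ P.2.1 ((m₁ : ℝ) * (nu P.1 m₁ m₂ : ℝ))‖ ≤ 1 := by
      apply (hψ _).bd
      rw [sq]
      exact mul_le_mul e1 e3 (by positivity) (by positivity)
    have a2 : ‖ψ P.2.2 ((m₂ : ℝ) * (nu P.1 m₁ m₂ : ℝ))‖ ≤ 1 := by
      apply (hψ _).bd
      rw [sq]
      exact mul_le_mul e2 e3 (by positivity) (by positivity)
    rw [norm_mul, norm_mul, norm_mul, RCLike.norm_conj, RCLike.norm_conj, norm_kf, norm_kf,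
      mul_one, mul_one]
    exact mul_le_one₀ a1 (norm_nonneg _) a2
  · simp

lemma sum_Ker2_sq (ψ : ℕ → ℝ → ℂ) (k : ℤ) (M L J : ℕ) (S : Finset ℕ) :
    ∑ m₁ ∈ S, ∑ m₂ ∈ S, ‖Ker2 ψ k M L J m₁ m₂‖ ^ 2 ≤
      ∑ P ∈ Par2 L J, ∑ P' ∈ Par2 L J, ‖∑ m₂ ∈ S, ∑ m₁ ∈ S,
        tm2 ψ k M P m₁ m₂ * (starRingEnd ℂ) (tm2 ψ k M P' m₁ m₂)‖ := by
  have key : ((∑ m₁ ∈ S, ∑ m₂ ∈ S, ‖Ker2 ψ k M L J m₁ m₂‖ ^ 2 : ℝ) : ℂ) =
      ∑ P ∈ Par2 L J, ∑ P' ∈ Par2 L J, ∑ m₂ ∈ S, ∑ m₁ ∈ S,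
        tm2 ψ k M P m₁ m₂ * (starRingEnd ℂ) (tm2 ψ k M P' m₁ m₂) := by
    push_cast
    have h1 : ∀ m₁ m₂, ((‖Ker2 ψ k M L J m₁ m₂‖ : ℂ)) ^ 2 =
        ∑ P ∈ Par2 L J, ∑ P' ∈ Par2 L J,
          tm2 ψ k M P m₁ m₂ * (starRingEnd ℂ) (tm2 ψ k M P' m₁ m₂) := by
      intro m₁ m₂
      rw [← Complex.mul_conj']
      unfold Ker2
      rw [map_sum, Finset.sum_mul_sum]
    simp_rw [h1]
    rw [Finset.sum_comm]
    rw [Finset.sum_congr rfl (fun m₂ _ => Finset.sum_comm)]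
    rw [Finset.sum_comm]
    refine Finset.sum_congr rfl (fun p _ => ?_)
    rw [Finset.sum_congr rfl (fun m₂ _ => Finset.sum_comm)]
    rw [Finset.sum_comm]
  have h0 : (0 : ℝ) ≤ ∑ m₁ ∈ S, ∑ m₂ ∈ S, ‖Ker2 ψ k M L J m₁ m₂‖ ^ 2 :=
    Finset.sum_nonneg (fun _ _ => Finset.sum_nonneg (fun _ _ => by positivity))
  have h2 : (∑ m₁ ∈ S, ∑ m₂ ∈ S, ‖Ker2 ψ k M L J m₁ m₂‖ ^ 2 : ℝ) =
      ‖((∑ m₁ ∈ S, ∑ m₂ ∈ S, ‖Ker2 ψ k M L J m₁ m₂‖ ^ 2 : ℝ) : ℂ)‖ := by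
    rw [Complex.norm_of_nonneg h0]
  rw [h2, key]
  refine (norm_sum_le _ _).trans (Finset.sum_le_sum (fun p _ => ?_))
  exact norm_sum_le _ _

lemma PL_pos {L l : ℕ} (h : l ∈ PL L) : l.Prime ∧ L < l ∧ l ≤ 2 * L := by
  unfold PL at h
  rw [mem_filter, mem_Ioc] at h
  exact ⟨h.2, h.1.1, h.1.2⟩

lemma Par_facts {L : ℕ} {p : ℕ × ℕ × ℤ} (h : p ∈ Par L) :
    p.1 ∈ PL L ∧ p.2.1 ∈ PL L ∧ |p.2.2| ≤ 4 * L ∧ p.2.2 ≠ 0 := by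
  unfold Par at h
  rw [mem_filter, mem_product, mem_product, mem_Icc] at h
  obtain ⟨⟨h1, h2, h3, h4⟩, h5, h6, h7, h8⟩ := h
  exact ⟨h1, h2, abs_le.mpr ⟨h3, h4⟩, h6⟩

lemma Par2_facts {L J : ℕ} {P : (ℕ × ℕ × ℤ) × (ℕ × ℕ)} (h : P ∈ Par2 L J) :
    P.1 ∈ Par L ∧ (1 ≤ P.2.1 ∧ P.2.1 ≤ J) ∧ (1 ≤ P.2.2 ∧ P.2.2 ≤ J) := by
  unfold Par2 at h
  rw [mem_product, mem_product, mem_Icc, mem_Icc] at h
  exact h

lemma Bq2_of_G2 {L J : ℕ} {k : ℤ} (hk : k ≠ 0) {P P' : (ℕ × ℕ × ℤ) × (ℕ × ℕ)}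
    (hP : P ∈ Par2 L J) (hP' : P' ∈ Par2 L J) (h : G2 k P P' = 0) : Bq2 P P' = 0 := by
  obtain ⟨a1, a2, a3, a4⟩ := Par_facts (Par2_facts hP).1
  obtain ⟨b1, b2, b3, b4⟩ := Par_facts (Par2_facts hP').1
  have c2 : (P.1.2.1 : ℤ) ≠ 0 := by exact_mod_cast (PL_pos a2).1.ne_zero
  have c4 : (P'.1.2.1 : ℤ) ≠ 0 := by exact_mod_cast (PL_pos b2).1.ne_zero
  unfold G2 at h
  rw [Int.natAbs_eq_zero] at h
  simp only [mul_eq_zero, hk, a4, b4, c2, c4, or_false, false_or] at h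
  exact h

lemma term_le2 (M : ℕ) (V : ℝ) (ψ : ℕ → ℝ → ℂ) (hψ : ∀ j, Wei M V (ψ j)) (k : ℤ)
    (P P' : (ℕ × ℕ × ℤ) × (ℕ × ℕ)) :
    ‖∑ m₂ ∈ Ioc M (2 * M + 1), ∑ m₁ ∈ Ioc M (2 * M + 1),
        tm2 ψ k M P m₁ m₂ * (starRingEnd ℂ) (tm2 ψ k M P' m₁ m₂)‖ ≤
      (((Ioc M (2 * M + 1) ×ˢ Ioc M (2 * M + 1)).filter
        (fun m : ℕ × ℕ => adm M P.1 m.1 m.2)).card : ℝ) := by
  have h1 : ‖∑ m₂ ∈ Ioc M (2 * M + 1), ∑ m₁ ∈ Ioc M (2 * M + 1),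
        tm2 ψ k M P m₁ m₂ * (starRingEnd ℂ) (tm2 ψ k M P' m₁ m₂)‖ ≤
      ∑ m₂ ∈ Ioc M (2 * M + 1), ∑ m₁ ∈ Ioc M (2 * M + 1),
        (if adm M P.1 m₁ m₂ then (1 : ℝ) else 0) := by
    refine (norm_sum_le _ _).trans (Finset.sum_le_sum (fun m₂ hm₂ => ?_))
    refine (norm_sum_le _ _).trans (Finset.sum_le_sum (fun m₁ hm₁ => ?_))
    rw [norm_mul, RCLike.norm_conj]
    have h2 := norm_tm2_le M V ψ hψ k P m₁ m₂ hm₁ hm₂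
    have h3 := norm_tm2_le M V ψ hψ k P' m₁ m₂ hm₁ hm₂
    have h4 : ‖tm2 ψ k M P' m₁ m₂‖ ≤ 1 := h3.trans (by split_ifs <;> norm_num)
    calc ‖tm2 ψ k M P m₁ m₂‖ * ‖tm2 ψ k M P' m₁ m₂‖ ≤ ‖tm2 ψ k M P m₁ m₂‖ * 1 :=
          mul_le_mul_of_nonneg_left h4 (norm_nonneg _)
      _ ≤ _ := by rw [mul_one]; exact h2
  refine h1.trans (le_of_eq ?_)
  rw [Finset.sum_comm, ← Finset.sum_product', Finset.card_filter]
  push_cast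
  rfl

lemma abs_jl_le {L J : ℕ} (hJL : J ≤ L) {P : (ℕ × ℕ × ℤ) × (ℕ × ℕ)} (hP : P ∈ Par2 L J) :
    |((jl P : ℤ) : ℝ)| ≤ 2 * (L : ℝ) ^ 2 := by
  obtain ⟨hp, ⟨j1, j1'⟩, ⟨j2, j2'⟩⟩ := Par2_facts hP
  obtain ⟨a1, a2, a3, a4⟩ := Par_facts hp
  obtain ⟨-, c1, c1'⟩ := PL_pos a1
  obtain ⟨-, c2, c2'⟩ := PL_pos a2
  have l1 : (P.1.1 : ℝ) ≤ 2 * L := by exact_mod_cast c1'
  have l2 : (P.1.2.1 : ℝ) ≤ 2 * L := by exact_mod_cast c2'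
  have q1 : (P.2.1 : ℝ) ≤ L := by exact_mod_cast j1'.trans hJL
  have q2 : (P.2.2 : ℝ) ≤ L := by exact_mod_cast j2'.trans hJL
  unfold jl
  push_cast
  have e1 : (P.2.1 : ℝ) * P.1.2.1 ≤ L * (2 * L) := by gcongr
  have e2 : (P.2.2 : ℝ) * P.1.1 ≤ L * (2 * L) := by gcongr
  have e3 : 0 ≤ (P.2.1 : ℝ) * P.1.2.1 := by positivity
  have e4 : 0 ≤ (P.2.2 : ℝ) * P.1.1 := by positivity
  rw [abs_le]
  constructor <;> nlinarith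

lemma G2_le (L M J : ℕ) (hJ : 1 ≤ J) (hJL : J ≤ L) (hLM : L ≤ M) (V : ℝ) (k : ℤ)
    (hk : |(k : ℝ)| * J ≤ V * (M : ℝ) ^ 2) (P P' : (ℕ × ℕ × ℤ) × (ℕ × ℕ)) (hP : P ∈ Par2 L J)
    (hP' : P' ∈ Par2 L J) : (G2 k P P' : ℝ) ≤ 4096 * V * (M : ℝ) ^ 11 := by
  obtain ⟨hp, -, -⟩ := Par2_facts hP
  obtain ⟨hp', -, -⟩ := Par2_facts hP'
  obtain ⟨a1, a2, a3, a4⟩ := Par_facts hp
  obtain ⟨b1, b2, b3, b4⟩ := Par_facts hp'
  obtain ⟨-, c1, c1'⟩ := PL_pos a1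
  obtain ⟨-, c2, c2'⟩ := PL_pos a2
  obtain ⟨-, d1, d1'⟩ := PL_pos b1
  obtain ⟨-, d2, d2'⟩ := PL_pos b2
  have hcast : (G2 k P P' : ℝ) = |(k : ℝ)| * |((Bq2 P P' : ℤ) : ℝ)| * |(P.1.2.2 : ℝ)| *
      |(P'.1.2.2 : ℝ)| * P.1.2.1 * P'.1.2.1 := by
    unfold G2
    rw [Nat.cast_natAbs]
    push_cast
    simp only [abs_mul, Nat.abs_cast]
  have t1 : |(P.1.2.2 : ℝ)| ≤ 4 * L := by exact_mod_cast a3
  have t2 : |(P'.1.2.2 : ℝ)| ≤ 4 * L := by exact_mod_cast b3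
  have l1 : (P.1.1 : ℝ) ≤ 2 * L := by exact_mod_cast c1'
  have l2 : (P.1.2.1 : ℝ) ≤ 2 * L := by exact_mod_cast c2'
  have l3 : (P'.1.1 : ℝ) ≤ 2 * L := by exact_mod_cast d1'
  have l4 : (P'.1.2.1 : ℝ) ≤ 2 * L := by exact_mod_cast d2'
  have hL0 : (0 : ℝ) ≤ L := by positivity
  have g1 := abs_jl_le hJL hP
  have g2 := abs_jl_le hJL hP'
  have hB : |((Bq2 P P' : ℤ) : ℝ)| ≤ 64 * (L : ℝ) ^ 5 := by
    unfold Bq2
    push_cast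
    have e1 : |((jl P : ℤ) : ℝ) * P.1.2.2 * P'.1.1 * P'.1.2.1| ≤
        (2 * (L : ℝ) ^ 2) * (4 * L) * (2 * L) * (2 * L) := by
      rw [abs_mul, abs_mul, abs_mul, Nat.abs_cast, Nat.abs_cast]
      gcongr
    have e2 : |((jl P' : ℤ) : ℝ) * P'.1.2.2 * P.1.1 * P.1.2.1| ≤
        (2 * (L : ℝ) ^ 2) * (4 * L) * (2 * L) * (2 * L) := by
      rw [abs_mul, abs_mul, abs_mul, Nat.abs_cast, Nat.abs_cast]
      gcongr
    refine (abs_sub _ _).trans ?_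
    refine (add_le_add e1 e2).trans (le_of_eq ?_)
    ring
  rw [hcast]
  have hk' : |(k : ℝ)| ≤ V * (M : ℝ) ^ 2 := by
    refine le_trans ?_ hk
    have : (1 : ℝ) ≤ J := by exact_mod_cast hJ
    nlinarith [abs_nonneg (k : ℝ)]
  have hV0 : 0 ≤ V * (M : ℝ) ^ 2 := (abs_nonneg _).trans hk'
  have hLM' : (L : ℝ) ≤ M := by exact_mod_cast hLM
  calc _ ≤ (V * (M : ℝ) ^ 2) * (64 * (L : ℝ) ^ 5) * (4 * L) * (4 * L) * (2 * L) * (2 * L) := by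
        gcongr
    _ = 4096 * ((V * (M : ℝ) ^ 2) * (L : ℝ) ^ 9) := by ring
    _ ≤ 4096 * ((V * (M : ℝ) ^ 2) * (M : ℝ) ^ 9) := by gcongr
    _ = 4096 * V * (M : ℝ) ^ 11 := by ring

lemma one_add_log_le {e' : ℝ} (he : 0 < e') {x : ℝ} (hx : 1 ≤ x) :
    1 + Real.log x ≤ (1 + 1 / e') * x ^ e' := by
  have h1 := Real.log_le_rpow_div (by linarith : 0 ≤ x) he
  have h2 : 1 ≤ x ^ e' := Real.one_le_rpow hx he.le
  have h3 : (1 + 1 / e') * x ^ e' = x ^ e' + x ^ e' / e' := by ring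
  rw [h3]
  linarith

lemma log_twelve_le : Real.log 12 ≤ 3 := by
  rw [Real.log_le_iff_le_exp (by norm_num)]
  have h1 := Real.exp_one_gt_d9
  have h2 : Real.exp 3 = Real.exp 1 ^ 3 := by rw [← Real.exp_nat_mul]; norm_num
  rw [h2]
  have h3 : (2.7 : ℝ) ^ 3 ≤ Real.exp 1 ^ 3 := by
    apply pow_le_pow_left₀ (by norm_num)
    linarith
  refine le_trans ?_ h3
  norm_num

lemma pow_mul_rpow {x e' : ℝ} (hx : 0 ≤ x) (n : ℕ) : (x ^ n) ^ e' = (x ^ e') ^ n := by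
  rw [← Real.rpow_natCast x n, ← Real.rpow_natCast (x ^ e') n, ← Real.rpow_mul hx,
    ← Real.rpow_mul hx, mul_comm]

lemma sum_vp_pair (h2 : SumVp2) (h3 : SumVp3) (k : ℤ) (P P' : (ℕ × ℕ × ℤ) × (ℕ × ℕ)) (X : ℕ)
    (hX : 1 ≤ X) (hG : 0 < G2 k P P') (hl : P.1.1.Prime) (hl' : P'.1.1.Prime) :
    ∑ m ∈ Icc 1 X, Real.sqrt (vp (G2 k P P') (P.1.1 * P'.1.1 * m)) ≤
      27 * X * (1 + Real.log (P.1.1 * P'.1.1 * X)) * tau (G2 k P P') * wP k P P' := by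
  unfold wP
  split_ifs with h
  · have := h3 X (G2 k P P') P.1.1 hX hG hl
    rw [← h]
    exact this
  · exact h2 X (G2 k P P') P.1.1 P'.1.1 hX hG hl hl' h

lemma wP_nonneg (k : ℤ) (P P' : (ℕ × ℕ × ℤ) × (ℕ × ℕ)) : 0 ≤ wP k P P' := by
  unfold wP
  split_ifs
  · positivity
  · positivity

/-- one pair with `G2 ≠ 0` -/
lemma off_term2 (hF : Fixed2) (hv2 : SumVp2) (hv3 : SumVp3) (e' : ℝ) (he : 0 < e')
    (he1 : e' ≤ 1) (C₁ : ℝ) (hC₁ : 0 < C₁)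
    (hdiv : ∀ n : ℕ, 1 ≤ n → (n.divisors.card : ℝ) ≤ C₁ * (n : ℝ) ^ e')
    (M L J : ℕ) (hM : 1 ≤ M) (hLM : L ≤ M) (hJ : 1 ≤ J) (hJL : J ≤ L) (V : ℝ)
    (hV : 1 ≤ V) (ψ : ℕ → ℝ → ℂ)
    (hψ : ∀ j, Wei M V (ψ j)) (k : ℤ) (hk : |(k : ℝ)| * J ≤ V * (M : ℝ) ^ 2)
    (P P' : (ℕ × ℕ × ℤ) × (ℕ × ℕ)) (hP : P ∈ Par2 L J) (hP' : P' ∈ Par2 L J)
    (hG : G2 k P P' ≠ 0) :
    ‖∑ m₂ ∈ Ioc M (2 * M + 1), ∑ m₁ ∈ Ioc M (2 * M + 1),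
        tm2 ψ k M P m₁ m₂ * (starRingEnd ℂ) (tm2 ψ k M P' m₁ m₂)‖ ≤
      (10000 * 3 * 27 * 3 * 4 * 4096 * (1 + 1 / e') ^ 2 * C₁ ^ 2) * V * V ^ e' * L *
        (M : ℝ) ^ (3 / 2 : ℝ) * ((M : ℝ) ^ e') ^ 14 *
          (Nat.gcd P.1.2.2.natAbs P'.1.2.2.natAbs * wP k P P') := by
  set G := G2 k P P' with hGdef
  have hM1 : (1 : ℝ) ≤ M := by exact_mod_cast hM
  have hM0 : (0 : ℝ) < M := by linarith
  set x : ℝ := (M : ℝ) ^ e' with hx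
  have hx1 : 1 ≤ x := Real.one_le_rpow hM1 he.le
  set K : ℝ := 1 + 1 / e' with hK
  have hK0 : 0 < K := by positivity
  have hlog : 1 + Real.log M ≤ K * x := one_add_log_le he hM1
  have hlog0 : 0 ≤ Real.log M := Real.log_nonneg hM1
  have hw := wP_nonneg k P P'
  obtain ⟨hp, -, -⟩ := Par2_facts hP
  obtain ⟨hp', -, -⟩ := Par2_facts hP'
  obtain ⟨a1, a2, a3, a4⟩ := Par_facts hp
  obtain ⟨b1, b2, b3, b4⟩ := Par_facts hp'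
  obtain ⟨c0, c1, c1'⟩ := PL_pos a1
  obtain ⟨d0, d1, d1'⟩ := PL_pos b1
  have htau : ∀ m₂ ∈ Ioc M (2 * M + 1), tau m₂ ≤ C₁ * (3 * x) := by
    intro m₂ hm₂
    rw [mem_Ioc] at hm₂
    have h1 := hdiv m₂ (by omega)
    have h2 : (m₂ : ℝ) ≤ 3 * M := by
      have : m₂ ≤ 3 * M := by omega
      exact_mod_cast this
    have h3 : (m₂ : ℝ) ^ e' ≤ 3 * x := by
      calc (m₂ : ℝ) ^ e' ≤ (3 * (M : ℝ)) ^ e' := Real.rpow_le_rpow (by positivity) h2 he.le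
        _ = 3 ^ e' * x := by rw [Real.mul_rpow (by norm_num) hM0.le]
        _ ≤ 3 ^ (1 : ℝ) * x := by
          gcongr
          norm_num
        _ = 3 * x := by rw [Real.rpow_one]
    unfold tau
    exact h1.trans (mul_le_mul_of_nonneg_left h3 hC₁.le)
  have htauG : tau G ≤ C₁ * (4096 * V ^ e' * x ^ 11) := by
    have h1 := hdiv G (Nat.one_le_iff_ne_zero.mpr hG)
    have h2 := G2_le L M J hJ hJL hLM V k hk P P' hP hP'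
    have h3 : (G : ℝ) ^ e' ≤ 4096 * V ^ e' * x ^ 11 := by
      calc (G : ℝ) ^ e' ≤ (4096 * V * (M : ℝ) ^ 11) ^ e' :=
            Real.rpow_le_rpow (by positivity) h2 he.le
        _ = 4096 ^ e' * V ^ e' * ((M : ℝ) ^ 11) ^ e' := by
            rw [Real.mul_rpow (by positivity) (by positivity),
              Real.mul_rpow (by positivity) (by positivity)]
        _ = 4096 ^ e' * V ^ e' * x ^ 11 := by rw [pow_mul_rpow hM0.le]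
        _ ≤ 4096 ^ (1 : ℝ) * V ^ e' * x ^ 11 := by
          gcongr
          norm_num
        _ = 4096 * V ^ e' * x ^ 11 := by rw [Real.rpow_one]
    unfold tau
    exact h1.trans (mul_le_mul_of_nonneg_left h3 hC₁.le)
  have hsum : ∑ m₂ ∈ Ioc M (2 * M + 1), Real.sqrt (vp G (P.1.1 * P'.1.1 * m₂)) ≤
      27 * (3 * M) * (4 * (K * x)) * (C₁ * (4096 * V ^ e' * x ^ 11)) * wP k P P' := by
    have h1 := sum_vp_pair hv2 hv3 k P P' (2 * M + 1) (by omega) (Nat.pos_of_ne_zero hG) c0 d0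
    have h2 : ∑ m₂ ∈ Ioc M (2 * M + 1), Real.sqrt (vp G (P.1.1 * P'.1.1 * m₂)) ≤
        ∑ m ∈ Icc 1 (2 * M + 1), Real.sqrt (vp G (P.1.1 * P'.1.1 * m)) := by
      apply Finset.sum_le_sum_of_subset_of_nonneg
      · intro m hm
        rw [mem_Ioc] at hm
        rw [mem_Icc]
        omega
      · intro i _ _
        exact Real.sqrt_nonneg _
    refine (h2.trans h1).trans ?_
    have h3 : ((2 * M + 1 : ℕ) : ℝ) ≤ 3 * M := by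
      have : 2 * M + 1 ≤ 3 * M := by omega
      exact_mod_cast this
    have h3' : (1 : ℝ) ≤ ((2 * M + 1 : ℕ) : ℝ) := by exact_mod_cast (by omega : 1 ≤ 2 * M + 1)
    have h1c : (1 : ℝ) ≤ P.1.1 := by exact_mod_cast c0.one_lt.le
    have h1d : (1 : ℝ) ≤ P'.1.1 := by exact_mod_cast d0.one_lt.le
    have h1M : (P.1.1 : ℝ) ≤ 2 * M := by exact_mod_cast (c1'.trans (by omega))
    have h2M : (P'.1.1 : ℝ) ≤ 2 * M := by exact_mod_cast (d1'.trans (by omega))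
    have hpos : (0 : ℝ) < P.1.1 * P'.1.1 * ((2 * M + 1 : ℕ) : ℝ) := by positivity
    have h4 : 1 + Real.log (P.1.1 * P'.1.1 * ((2 * M + 1 : ℕ) : ℝ)) ≤ 4 * (K * x) := by
      have h5 : Real.log (P.1.1 * P'.1.1 * ((2 * M + 1 : ℕ) : ℝ)) ≤
          Real.log (12 * (M : ℝ) ^ 3) := by
        apply Real.log_le_log hpos
        calc (P.1.1 : ℝ) * P'.1.1 * ((2 * M + 1 : ℕ) : ℝ) ≤ (2 * M) * (2 * M) * (3 * M) := by
              gcongr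
          _ = 12 * (M : ℝ) ^ 3 := by ring
      have h5' : Real.log (12 * (M : ℝ) ^ 3) = Real.log 12 + 3 * Real.log M := by
        rw [Real.log_mul (by norm_num) (by positivity), Real.log_pow]
        norm_num
      have := log_twelve_le
      linarith
    have h6 : 0 ≤ tau G := by unfold tau; positivity
    have h7 : 0 ≤ Real.log (P.1.1 * P'.1.1 * ((2 * M + 1 : ℕ) : ℝ)) := by
      apply Real.log_nonneg
      calc (1 : ℝ) = 1 * 1 * 1 := by ring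
        _ ≤ P.1.1 * P'.1.1 * ((2 * M + 1 : ℕ) : ℝ) := by gcongr
    gcongr
  have hterm : ∀ m₂ ∈ Ioc M (2 * M + 1), ‖∑ m₁ ∈ Ioc M (2 * M + 1),
        tm2 ψ k M P m₁ m₂ * (starRingEnd ℂ) (tm2 ψ k M P' m₁ m₂)‖ ≤
      10000 * V * L * Nat.gcd P.1.2.2.natAbs P'.1.2.2.natAbs * Real.sqrt M *
        (C₁ * (3 * x)) * (K * x) * Real.sqrt (vp G (P.1.1 * P'.1.1 * m₂)) := by
    intro m₂ hm₂
    have h1 := hF M L J hM hLM hJL V hV ψ hψ k hk P P' hP hP' hG m₂ hm₂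
    refine h1.trans ?_
    have h2 := htau m₂ hm₂
    have h0 : 0 ≤ tau m₂ := by unfold tau; positivity
    calc _ = 10000 * V * L * Nat.gcd P.1.2.2.natAbs P'.1.2.2.natAbs * Real.sqrt M *
        Real.sqrt (vp G (P.1.1 * P'.1.1 * m₂)) * (tau m₂ * (1 + Real.log M)) := by ring
      _ ≤ 10000 * V * L * Nat.gcd P.1.2.2.natAbs P'.1.2.2.natAbs * Real.sqrt M *
        Real.sqrt (vp G (P.1.1 * P'.1.1 * m₂)) * ((C₁ * (3 * x)) * (K * x)) := by gcongr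
      _ = _ := by ring
  have hV0 : 0 < V := by linarith
  calc _ ≤ ∑ m₂ ∈ Ioc M (2 * M + 1), ‖∑ m₁ ∈ Ioc M (2 * M + 1),
        tm2 ψ k M P m₁ m₂ * (starRingEnd ℂ) (tm2 ψ k M P' m₁ m₂)‖ := norm_sum_le _ _
    _ ≤ ∑ m₂ ∈ Ioc M (2 * M + 1), 10000 * V * L *
        Nat.gcd P.1.2.2.natAbs P'.1.2.2.natAbs * Real.sqrt M *
        (C₁ * (3 * x)) * (K * x) * Real.sqrt (vp G (P.1.1 * P'.1.1 * m₂)) :=
        Finset.sum_le_sum hterm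
    _ = 10000 * V * L *
        Nat.gcd P.1.2.2.natAbs P'.1.2.2.natAbs * Real.sqrt M *
        (C₁ * (3 * x)) * (K * x) *
          ∑ m₂ ∈ Ioc M (2 * M + 1), Real.sqrt (vp G (P.1.1 * P'.1.1 * m₂)) := by
        rw [Finset.mul_sum]
    _ ≤ 10000 * V * L *
        Nat.gcd P.1.2.2.natAbs P'.1.2.2.natAbs * Real.sqrt M *
        (C₁ * (3 * x)) * (K * x) *
          (27 * (3 * M) * (4 * (K * x)) * (C₁ * (4096 * V ^ e' * x ^ 11)) * wP k P P') := by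
        gcongr
    _ = (10000 * 3 * 27 * 3 * 4 * 4096 * K ^ 2 * C₁ ^ 2) * V * V ^ e' * L *
        (Real.sqrt M * M) * x ^ 14 * (Nat.gcd P.1.2.2.natAbs P'.1.2.2.natAbs * wP k P P') := by
        ring
    _ = _ := by
        have : Real.sqrt M * M = (M : ℝ) ^ (3 / 2 : ℝ) := by
          rw [Real.sqrt_eq_rpow]
          nth_rewrite 2 [← Real.rpow_one (M : ℝ)]
          rw [← Real.rpow_add hM0]
          norm_num
        rw [this]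

/-- the number of partners with `G2 = 0` -/
lemma partners (hjl : JlNe) (hB : BqCount) (e' : ℝ) (he : 0 < e')
    (he1 : e' ≤ 1) (C₁ : ℝ) (hC₁ : 0 < C₁)
    (hdiv : ∀ n : ℕ, 1 ≤ n → (n.divisors.card : ℝ) ≤ C₁ * (n : ℝ) ^ e')
    (M L J : ℕ) (hM : 1 ≤ M) (hLM : L ≤ M) (hJL : J ≤ L) (k : ℤ) (hk : k ≠ 0)
    (P : (ℕ × ℕ × ℤ) × (ℕ × ℕ)) (hP : P ∈ Par2 L J) :
    (((Par2 L J).filter (fun P' => G2 k P P' = 0)).card : ℝ) ≤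
      32 * C₁ * ((M : ℝ) ^ e') ^ 3 := by
  have hM1 : (1 : ℝ) ≤ M := by exact_mod_cast hM
  have hM0 : (0 : ℝ) < M := by linarith
  have h1 : (((Par2 L J).filter (fun P' => G2 k P P' = 0)).card : ℝ) ≤
      (((Par2 L J).filter (fun P' => Bq2 P P' = 0)).card : ℝ) := by
    have : (Par2 L J).filter (fun P' => G2 k P P' = 0) ⊆
        (Par2 L J).filter (fun P' => Bq2 P P' = 0) := by
      intro P' hP'
      rw [mem_filter] at hP' ⊢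
      exact ⟨hP'.1, Bq2_of_G2 hk hP hP'.1 hP'.2⟩
    exact_mod_cast Finset.card_le_card this
  refine h1.trans ((hB L J hJL P hP).trans ?_)
  have hne : (jl P * P.1.2.2).natAbs ≠ 0 := by
    rw [Int.natAbs_ne_zero]
    exact mul_ne_zero (hjl L J hJL P hP) (Par_facts (Par2_facts hP).1).2.2.2
  have h2 := hdiv _ (Nat.one_le_iff_ne_zero.mpr hne)
  have h3 : (((jl P * P.1.2.2).natAbs : ℕ) : ℝ) ≤ 8 * (M : ℝ) ^ 3 := by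
    rw [Nat.cast_natAbs]
    push_cast
    rw [abs_mul]
    have g1 := abs_jl_le hJL hP
    have g2 : |(P.1.2.2 : ℝ)| ≤ 4 * L := by
      exact_mod_cast (Par_facts (Par2_facts hP).1).2.2.1
    have hLM' : (L : ℝ) ≤ M := by exact_mod_cast hLM
    calc |((jl P : ℤ) : ℝ)| * |(P.1.2.2 : ℝ)| ≤ (2 * (L : ℝ) ^ 2) * (4 * L) := by gcongr
      _ = 8 * (L : ℝ) ^ 3 := by ring
      _ ≤ 8 * (M : ℝ) ^ 3 := by gcongr
  have h4 : (((jl P * P.1.2.2).natAbs : ℕ) : ℝ) ^ e' ≤ 8 * ((M : ℝ) ^ e') ^ 3 := by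
    calc (((jl P * P.1.2.2).natAbs : ℕ) : ℝ) ^ e' ≤ (8 * (M : ℝ) ^ 3) ^ e' :=
          Real.rpow_le_rpow (by positivity) h3 he.le
      _ = 8 ^ e' * ((M : ℝ) ^ e') ^ 3 := by
          rw [Real.mul_rpow (by norm_num) (by positivity), pow_mul_rpow hM0.le]
      _ ≤ 8 ^ (1 : ℝ) * ((M : ℝ) ^ e') ^ 3 := by
          gcongr
          norm_num
      _ = 8 * ((M : ℝ) ^ e') ^ 3 := by rw [Real.rpow_one]
  unfold tau
  calc 4 * ((jl P * P.1.2.2).natAbs.divisors.card : ℝ) ≤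
        4 * (C₁ * (8 * ((M : ℝ) ^ e') ^ 3)) := by
        have := h2.trans (mul_le_mul_of_nonneg_left h4 hC₁.le)
        linarith
    _ = 32 * C₁ * ((M : ℝ) ^ e') ^ 3 := by ring

end TaskTI

open TaskTI in
/-- TI (HS2.lean): Hilbert-Schmidt bound of the kernel, from the statements of the other tasks -/
theorem HS2_of (hF : Fixed2) (hv2 : SumVp2) (hv3 : SumVp3) (hjl : JlNe) (hB : BqCount)
    (hgw : GwP) (ε : ℝ) (hε : 0 < ε) : ∃ C : ℝ, 0 < C ∧ ∀ (M L J : ℕ), 1 ≤ M → 1 ≤ L → L ≤ M →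
    1 ≤ J → J ≤ L → ∀ V : ℝ, 1 ≤ V → ∀ ψ : ℕ → ℝ → ℂ, (∀ j, Wei M V (ψ j)) →
    ∀ k : ℤ, k ≠ 0 → |(k : ℝ)| * J ≤ V * (M : ℝ) ^ 2 →
    ∑ m₁ ∈ Ioc M (2 * M + 1), ∑ m₂ ∈ Ioc M (2 * M + 1), ‖Ker2 ψ k M L J m₁ m₂‖ ^ 2 ≤
      C * (M : ℝ) ^ ε * (((PL L).card : ℝ) ^ 2 * (J : ℝ) ^ 2 * (M : ℝ) ^ 2 +
        V ^ 2 * (L : ℝ) ^ 7 * (J : ℝ) ^ 4 * (M : ℝ) ^ (3 / 2 : ℝ)) := by
  classical
  set e' : ℝ := min (1 / 2) (ε / 16) with he'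
  have he : 0 < e' := lt_min (by norm_num) (by linarith)
  have he1 : e' ≤ 1 / 2 := min_le_left _ _
  have he2 : 16 * e' ≤ ε := by
    have := min_le_right (1 / 2) (ε / 16)
    rw [← he'] at this
    linarith
  obtain ⟨C₁, hC₁, hdiv⟩ := Pool.Agent.Helper112.divisor_bound e' he
  obtain ⟨Cg, hCg, hgw'⟩ := hgw e' he
  set K : ℝ := 1 + 1 / e' with hK
  have hK0 : 0 < K := by positivity
  set D : ℝ := 10000 * 3 * 27 * 3 * 4 * 4096 * K ^ 2 * C₁ ^ 2 with hD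
  have hD0 : 0 < D := by positivity
  refine ⟨3200 * C₁ * K + D * Cg, by positivity, ?_⟩
  intro M L J hM hL hLM hJ hJL V hV ψ hψ k hk0 hk
  have hM1 : (1 : ℝ) ≤ M := by exact_mod_cast hM
  have hM0 : (0 : ℝ) < M := by linarith
  set x : ℝ := (M : ℝ) ^ e' with hx
  have hx1 : 1 ≤ x := Real.one_le_rpow hM1 he.le
  have hlog : 1 + Real.log M ≤ K * x := one_add_log_le he hM1
  have hlog0 : 0 ≤ Real.log M := Real.log_nonneg hM1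
  have hx15 : x ^ 16 ≤ (M : ℝ) ^ ε := by
    rw [hx, ← Real.rpow_natCast, ← Real.rpow_mul hM0.le]
    apply Real.rpow_le_rpow_of_exponent_le hM1
    push_cast
    linarith
  have hxε : ∀ j ≤ 16, x ^ j ≤ (M : ℝ) ^ ε := fun j hj =>
    (pow_le_pow_right₀ hx1 hj).trans hx15
  set Q : ℝ := ((PL L).card : ℝ) with hQ
  have hQ0 : 0 ≤ Q := by positivity
  have hV0 : 0 < V := by linarith
  set y : ℝ := V ^ e' with hy
  have hy0 : 0 < y := by positivity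
  have hy2 : y * y ≤ V := by
    rw [hy, ← Real.rpow_add hV0]
    calc V ^ (e' + e') ≤ V ^ (1 : ℝ) := Real.rpow_le_rpow_of_exponent_le hV (by linarith)
      _ = V := Real.rpow_one V
  refine (sum_Ker2_sq ψ k M L J _).trans ?_
  have hsplit : ∀ P ∈ Par2 L J, ∑ P' ∈ Par2 L J, ‖∑ m₂ ∈ Ioc M (2 * M + 1),
      ∑ m₁ ∈ Ioc M (2 * M + 1), tm2 ψ k M P m₁ m₂ * (starRingEnd ℂ) (tm2 ψ k M P' m₁ m₂)‖ ≤
      32 * C₁ * x ^ 3 * (((Ioc M (2 * M + 1) ×ˢ Ioc M (2 * M + 1)).filter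
        (fun m : ℕ × ℕ => adm M P.1 m.1 m.2)).card : ℝ) +
      D * V * y * L * (M : ℝ) ^ (3 / 2 : ℝ) * x ^ 14 *
        ∑ P' ∈ Par2 L J, (if G2 k P P' = 0 then 0 else
          (Nat.gcd P.1.2.2.natAbs P'.1.2.2.natAbs : ℝ) * wP k P P') := by
    intro P hP
    rw [← Finset.sum_filter_add_sum_filter_not (Par2 L J) (fun P' => G2 k P P' = 0)]
    apply add_le_add
    · calc _ ≤ ∑ P' ∈ (Par2 L J).filter (fun P' => G2 k P P' = 0),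
          (((Ioc M (2 * M + 1) ×ˢ Ioc M (2 * M + 1)).filter
            (fun m : ℕ × ℕ => adm M P.1 m.1 m.2)).card : ℝ) :=
            Finset.sum_le_sum (fun P' _ => term_le2 M V ψ hψ k P P')
        _ = (((Par2 L J).filter (fun P' => G2 k P P' = 0)).card : ℝ) *
          (((Ioc M (2 * M + 1) ×ˢ Ioc M (2 * M + 1)).filter
            (fun m : ℕ × ℕ => adm M P.1 m.1 m.2)).card : ℝ) := by
            rw [Finset.sum_const, nsmul_eq_mul]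
        _ ≤ _ := by
            apply mul_le_mul_of_nonneg_right _ (by positivity)
            exact partners hjl hB e' he (by linarith) C₁ hC₁ hdiv M L J hM hLM hJL k hk0 P hP
    · calc _ ≤ ∑ P' ∈ (Par2 L J).filter (fun P' => ¬ G2 k P P' = 0),
          D * V * y * L * (M : ℝ) ^ (3 / 2 : ℝ) * x ^ 14 *
            ((Nat.gcd P.1.2.2.natAbs P'.1.2.2.natAbs : ℝ) * wP k P P') := by
            apply Finset.sum_le_sum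
            intro P' hP'
            rw [mem_filter] at hP'
            exact off_term2 hF hv2 hv3 e' he (by linarith) C₁ hC₁ hdiv M L J hM hLM hJ hJL V
              hV ψ hψ k hk P P' hP hP'.1 hP'.2
        _ = ∑ P' ∈ Par2 L J, D * V * y * L * (M : ℝ) ^ (3 / 2 : ℝ) * x ^ 14 *
            (if G2 k P P' = 0 then 0 else
              (Nat.gcd P.1.2.2.natAbs P'.1.2.2.natAbs : ℝ) * wP k P P') := by
            rw [Finset.sum_filter]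
            refine Finset.sum_congr rfl (fun P' _ => ?_)
            split_ifs
            · rw [mul_zero]
            · rfl
        _ = _ := by rw [Finset.mul_sum]
  refine (Finset.sum_le_sum hsplit).trans ?_
  rw [Finset.sum_add_distrib, ← Finset.mul_sum, ← Finset.mul_sum]
  have h1 := adm_count M L hM hL hLM
  have h2 := hgw' M L J hM hL hLM hJ hJL V hV k hk0 hk
  have h3 : ∑ P ∈ Par2 L J, (((Ioc M (2 * M + 1) ×ˢ Ioc M (2 * M + 1)).filter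
        (fun m : ℕ × ℕ => adm M P.1 m.1 m.2)).card : ℝ) =
      (J : ℝ) ^ 2 * ∑ p ∈ Par L, (((Ioc M (2 * M + 1) ×ˢ Ioc M (2 * M + 1)).filter
        (fun m : ℕ × ℕ => adm M p m.1 m.2)).card : ℝ) := by
    unfold Par2
    rw [Finset.sum_product]
    simp only [Finset.sum_const, nsmul_eq_mul, Finset.card_product, Nat.card_Icc,
      Nat.add_sub_cancel]
    rw [← Finset.mul_sum]
    push_cast
    ring
  have h4 : 32 * C₁ * x ^ 3 * ∑ P ∈ Par2 L J,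
      (((Ioc M (2 * M + 1) ×ˢ Ioc M (2 * M + 1)).filter
        (fun m : ℕ × ℕ => adm M P.1 m.1 m.2)).card : ℝ) ≤
      3200 * C₁ * K * (M : ℝ) ^ ε * (Q ^ 2 * (J : ℝ) ^ 2 * (M : ℝ) ^ 2) := by
    rw [h3]
    calc _ ≤ 32 * C₁ * x ^ 3 * ((J : ℝ) ^ 2 *
          (100 * Q ^ 2 * (M : ℝ) ^ 2 * (1 + Real.log M))) := by gcongr
      _ ≤ 32 * C₁ * x ^ 3 * ((J : ℝ) ^ 2 *
          (100 * Q ^ 2 * (M : ℝ) ^ 2 * (K * x))) := by gcongr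
      _ = 3200 * C₁ * K * x ^ 4 * (Q ^ 2 * (J : ℝ) ^ 2 * (M : ℝ) ^ 2) := by ring
      _ ≤ _ := by
        have := hxε 4 (by norm_num)
        gcongr
  have h5 : D * V * y * L * (M : ℝ) ^ (3 / 2 : ℝ) * x ^ 14 *
        ∑ P ∈ Par2 L J, ∑ P' ∈ Par2 L J, (if G2 k P P' = 0 then 0 else
          (Nat.gcd P.1.2.2.natAbs P'.1.2.2.natAbs : ℝ) * wP k P P') ≤
      D * Cg * (M : ℝ) ^ ε *
        (V ^ 2 * (L : ℝ) ^ 7 * (J : ℝ) ^ 4 * (M : ℝ) ^ (3 / 2 : ℝ)) := by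
    have hvm : (V * (M : ℝ)) ^ e' = y * x := by
      rw [Real.mul_rpow hV0.le hM0.le]
    rw [hvm] at h2
    calc _ ≤ D * V * y * L * (M : ℝ) ^ (3 / 2 : ℝ) * x ^ 14 *
        (Cg * (y * x) * ((J : ℝ) ^ 4 * (L : ℝ) ^ 6)) := by gcongr
      _ = D * Cg * x ^ 15 * ((V * (y * y)) * (L : ℝ) ^ 7 * (J : ℝ) ^ 4 *
          (M : ℝ) ^ (3 / 2 : ℝ)) := by ring
      _ ≤ D * Cg * (M : ℝ) ^ ε * ((V * V) * (L : ℝ) ^ 7 * (J : ℝ) ^ 4 *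
          (M : ℝ) ^ (3 / 2 : ℝ)) := by
        have := hxε 15 (by norm_num)
        gcongr
      _ = _ := by ring
  have hMε : 0 ≤ (M : ℝ) ^ ε := by positivity
  have h8 : 0 ≤ 3200 * C₁ * K * (M : ℝ) ^ ε *
      (V ^ 2 * (L : ℝ) ^ 7 * (J : ℝ) ^ 4 * (M : ℝ) ^ (3 / 2 : ℝ)) := by positivity
  have h9 : 0 ≤ D * Cg * (M : ℝ) ^ ε * (Q ^ 2 * (J : ℝ) ^ 2 * (M : ℝ) ^ 2) := by positivity
  calc _ ≤ _ := add_le_add h4 h5
    _ ≤ 3200 * C₁ * K * (M : ℝ) ^ ε * (Q ^ 2 * (J : ℝ) ^ 2 * (M : ℝ) ^ 2) +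
        D * Cg * (M : ℝ) ^ ε *
        (V ^ 2 * (L : ℝ) ^ 7 * (J : ℝ) ^ 4 * (M : ℝ) ^ (3 / 2 : ℝ)) +
        (3200 * C₁ * K * (M : ℝ) ^ ε *
        (V ^ 2 * (L : ℝ) ^ 7 * (J : ℝ) ^ 4 * (M : ℝ) ^ (3 / 2 : ℝ)) +
        D * Cg * (M : ℝ) ^ ε * (Q ^ 2 * (J : ℝ) ^ 2 * (M : ℝ) ^ 2)) := by linarith
    _ = _ := by ring

end Pool.Agent.H442R2.KF
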