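import Pool.Agent.H442R2.KF.Defs2

/-!
KF project, part 2, task TE: the weight `Om2` is bounded by one and Lipschitz
(adapted from `Lip.lean`).
-/

namespace Pool.Agent.H442R2.KF

open Finset

namespace TaskTE

lemma norm_conj' (z : ℂ) : ‖(starRingEnd ℂ) z‖ = ‖z‖ := by
  simp

/-- product rule -/
lemma prod3 (x y z x' y' z' : ℂ) (hy : ‖y‖ ≤ 1) (hz : ‖z‖ ≤ 1)
    (hx' : ‖x'‖ ≤ 1) (hy' : ‖y'‖ ≤ 1) :
    ‖x * y * z - x' * y' * z'‖ ≤ ‖x - x'‖ + ‖y - y'‖ + ‖z - z'‖ := by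
  have h : x * y * z - x' * y' * z' = (x - x') * y * z + x' * (y - y') * z + x' * y' * (z - z') := by
    ring
  rw [h]
  refine (norm_add₃_le).trans ?_
  have a1 : ‖(x - x') * y * z‖ ≤ ‖x - x'‖ := by
    rw [norm_mul, norm_mul]
    calc ‖x - x'‖ * ‖y‖ * ‖z‖ ≤ ‖x - x'‖ * 1 * 1 := by gcongr
      _ = _ := by ring
  have a2 : ‖x' * (y - y') * z‖ ≤ ‖y - y'‖ := by
    rw [norm_mul, norm_mul]
    calc ‖x'‖ * ‖y - y'‖ * ‖z‖ ≤ 1 * ‖y - y'‖ * 1 := by gcongr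
      _ = _ := by ring
  have a3 : ‖x' * y' * (z - z')‖ ≤ ‖z - z'‖ := by
    rw [norm_mul, norm_mul]
    calc ‖x'‖ * ‖y'‖ * ‖z - z'‖ ≤ 1 * 1 * ‖z - z'‖ := by gcongr
      _ = _ := by ring
  linarith

/-- `|j₁ l₂ - j₂ l₁| ≤ 2 J l₁` -/
lemma jl_le (L J : ℕ) (P : (ℕ × ℕ × ℤ) × (ℕ × ℕ)) (hl1 : (L : ℝ) < P.1.1)
    (hl1u : (P.1.1 : ℝ) ≤ 2 * L) (hl2u : (P.1.2.1 : ℝ) ≤ 2 * L)
    (hj1 : (P.2.1 : ℝ) ≤ J) (hj2 : (P.2.2 : ℝ) ≤ J) :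
    |(jl P : ℝ)| ≤ 2 * J * P.1.1 := by
  have hJ0 : (0 : ℝ) ≤ J := Nat.cast_nonneg J
  have h1 : ((P.2.1 : ℝ)) * P.1.2.1 ≤ J * (2 * L) :=
    mul_le_mul hj1 hl2u (Nat.cast_nonneg _) hJ0
  have h2 : ((P.2.2 : ℝ)) * P.1.1 ≤ J * (2 * L) :=
    mul_le_mul hj2 hl1u (Nat.cast_nonneg _) hJ0
  have h3 : (J : ℝ) * (2 * L) ≤ 2 * J * P.1.1 := by nlinarith
  have h4 : (0 : ℝ) ≤ (P.2.1 : ℝ) * P.1.2.1 := by positivity
  have h5 : (0 : ℝ) ≤ (P.2.2 : ℝ) * P.1.1 := by positivity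
  have h6 : (jl P : ℝ) = (P.2.1 : ℝ) * P.1.2.1 - (P.2.2 : ℝ) * P.1.1 := by
    unfold jl
    push_cast
    ring
  rw [h6, abs_le]
  constructor <;> linarith

end TaskTE

/-- TE (Lip2.lean) -/
theorem Om2_norm (M : ℕ) (hM : 1 ≤ M) (V : ℝ) (ψ : ℕ → ℝ → ℂ) (hψ : ∀ j, Wei M V (ψ j)) (k : ℤ)
    (P : (ℕ × ℕ × ℤ) × (ℕ × ℕ)) (m₂ : ℕ) (hm₂ : m₂ ∈ Ioc M (2 * M + 1)) (s : ℝ) (hs : (M : ℝ) ≤ s)
    (hn : (M : ℝ) ≤ nuR P.1 m₂ s) : ‖Om2 ψ k P m₂ s‖ ≤ 1 := by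
  have hM0 : (0 : ℝ) < M := by exact_mod_cast hM
  have hm : (M : ℝ) ≤ m₂ := by
    have := (mem_Ioc.mp hm₂).1
    exact_mod_cast this.le
  have e1 : (M : ℝ) ^ 2 ≤ s * nuR P.1 m₂ s := by
    rw [pow_two]; exact mul_le_mul hs hn hM0.le (hM0.le.trans hs)
  have e2 : (M : ℝ) ^ 2 ≤ (m₂ : ℝ) * nuR P.1 m₂ s := by
    rw [pow_two]; exact mul_le_mul hm hn hM0.le (hM0.le.trans hm)
  unfold Om2
  rw [norm_mul, norm_mul, norm_e, mul_one, TaskTE.norm_conj']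
  calc ‖ψ P.2.1 (s * nuR P.1 m₂ s)‖ * ‖ψ P.2.2 ((m₂ : ℝ) * nuR P.1 m₂ s)‖ ≤ 1 * 1 := by
        exact mul_le_mul ((hψ _).bd _ e1) ((hψ _).bd _ e2) (norm_nonneg _) zero_le_one
    _ = 1 := one_mul 1

/-- TE (Lip2.lean) -/
theorem Om2_lip (M L J : ℕ) (hM : 1 ≤ M) (hL : 1 ≤ L) (V : ℝ) (hV : 1 ≤ V) (ψ : ℕ → ℝ → ℂ)
    (hψ : ∀ j, Wei M V (ψ j)) (k : ℤ) (hk : |(k : ℝ)| * J ≤ V * (M : ℝ) ^ 2)
    (P : (ℕ × ℕ × ℤ) × (ℕ × ℕ)) (hP : P ∈ Par2 L J)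
    (m₂ : ℕ) (hm₂ : m₂ ∈ Ioc M (2 * M + 1)) (s s' : ℝ)
    (hs : s ∈ Set.Icc (M : ℝ) (2 * M + 1)) (hs' : s' ∈ Set.Icc (M : ℝ) (2 * M + 1))
    (hn : nuR P.1 m₂ s ∈ Set.Icc (M : ℝ) (2 * M + 1))
    (hn' : nuR P.1 m₂ s' ∈ Set.Icc (M : ℝ) (2 * M + 1)) :
    ‖Om2 ψ k P m₂ s - Om2 ψ k P m₂ s'‖ ≤
      19 * V / M * (1 + (P.1.2.1 : ℝ) / |(P.1.2.2 : ℝ)|) * |s - s'| := by
  have hM0 : (0 : ℝ) < M := by exact_mod_cast hM
  have hM1 : (1 : ℝ) ≤ M := by exact_mod_cast hM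
  have hmN := mem_Ioc.mp hm₂
  have hm : (M : ℝ) ≤ m₂ := by exact_mod_cast hmN.1.le
  have hmu : (m₂ : ℝ) ≤ 2 * M + 1 := by exact_mod_cast hmN.2
  obtain ⟨hs1, hs2⟩ := hs
  obtain ⟨hs1', hs2'⟩ := hs'
  obtain ⟨hn1, hn2⟩ := hn
  obtain ⟨hn1', hn2'⟩ := hn'
  obtain ⟨hP1, hP2⟩ := mem_product.mp hP
  obtain ⟨hj1, hj2⟩ := mem_product.mp hP2
  obtain ⟨hPm, -, ht, -, -⟩ := mem_filter.mp hP1
  obtain ⟨hPL1, hPm2⟩ := mem_product.mp hPm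
  obtain ⟨hPL2, -⟩ := mem_product.mp hPm2
  have hp1 := mem_Ioc.mp (mem_filter.mp hPL1).1
  have hp2 := mem_Ioc.mp (mem_filter.mp hPL2).1
  have hl1 : (L : ℝ) < P.1.1 := by exact_mod_cast hp1.1
  have hl1u : (P.1.1 : ℝ) ≤ 2 * L := by exact_mod_cast hp1.2
  have hl2 : (L : ℝ) < P.1.2.1 := by exact_mod_cast hp2.1
  have hl2u : (P.1.2.1 : ℝ) ≤ 2 * L := by exact_mod_cast hp2.2
  have hj1u : (P.2.1 : ℝ) ≤ J := by exact_mod_cast (mem_Icc.mp hj1).2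
  have hj2u : (P.2.2 : ℝ) ≤ J := by exact_mod_cast (mem_Icc.mp hj2).2
  have hL0 : (0 : ℝ) < L := by exact_mod_cast hL
  have hJ0 : (0 : ℝ) ≤ J := Nat.cast_nonneg J
  have htr : (P.1.2.2 : ℝ) ≠ 0 := by exact_mod_cast ht
  have htp : 0 < |(P.1.2.2 : ℝ)| := abs_pos.mpr htr
  set T : ℝ := (P.1.2.1 : ℝ) / |(P.1.2.2 : ℝ)| with hT
  have hT0 : 0 ≤ T := by positivity
  set n : ℝ := nuR P.1 m₂ s with hndef
  set n' : ℝ := nuR P.1 m₂ s' with hndef'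
  set δ : ℝ := |s - s'| with hδ
  have hδ0 : 0 ≤ δ := abs_nonneg _
  -- difference of nu
  have hnd : |n - n'| = T * δ := by
    have : n - n' = (P.1.2.1 : ℝ) / (P.1.2.2 : ℝ) * (s - s') := by
      rw [hndef, hndef']; unfold nuR; field_simp; ring
    rw [this, abs_mul, abs_div, hT, hδ]
    congr 2
    exact abs_of_nonneg (by positivity)
  have e1 : (M : ℝ) ^ 2 ≤ s * n := by
    rw [pow_two]; exact mul_le_mul hs1 hn1 hM0.le (hM0.le.trans hs1)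
  have e2 : (M : ℝ) ^ 2 ≤ (m₂ : ℝ) * n := by
    rw [pow_two]; exact mul_le_mul hm hn1 hM0.le (hM0.le.trans hm)
  have e1' : (M : ℝ) ^ 2 ≤ s' * n' := by
    rw [pow_two]; exact mul_le_mul hs1' hn1' hM0.le (hM0.le.trans hs1')
  have e2' : (M : ℝ) ^ 2 ≤ (m₂ : ℝ) * n' := by
    rw [pow_two]; exact mul_le_mul hm hn1' hM0.le (hM0.le.trans hm)
  have hV0 : 0 < V := by linarith
  -- first factor
  have f1 : ‖ψ P.2.1 (s * n) - ψ P.2.1 (s' * n')‖ ≤ 3 * V / M * (1 + T) * δ := by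
    refine ((hψ _).lip _ _ e1 e1').trans ?_
    have k1 : |s * n - s' * n'| ≤ 3 * M * ((1 + T) * δ) := by
      have : s * n - s' * n' = (s - s') * n + s' * (n - n') := by ring
      rw [this]
      refine (abs_add_le _ _).trans ?_
      rw [abs_mul, abs_mul, hnd, abs_of_nonneg (hM0.le.trans hn1), abs_of_nonneg (hM0.le.trans hs1')]
      have a1 : |s - s'| * n ≤ δ * (3 * M) := mul_le_mul_of_nonneg_left (by linarith) hδ0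
      have a2 : s' * (T * δ) ≤ (3 * M) * (T * δ) :=
        mul_le_mul_of_nonneg_right (by linarith) (by positivity)
      nlinarith
    calc V * |s * n - s' * n'| / (M : ℝ) ^ 2 ≤ V * (3 * M * ((1 + T) * δ)) / (M : ℝ) ^ 2 := by gcongr
      _ = 3 * V / M * (1 + T) * δ := by field_simp
  -- second factor
  have f2 : ‖(starRingEnd ℂ) (ψ P.2.2 ((m₂ : ℝ) * n)) -
      (starRingEnd ℂ) (ψ P.2.2 ((m₂ : ℝ) * n'))‖ ≤ 3 * V / M * T * δ := by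
    rw [← map_sub, TaskTE.norm_conj']
    refine ((hψ _).lip _ _ e2 e2').trans ?_
    have k1 : |(m₂ : ℝ) * n - (m₂ : ℝ) * n'| ≤ 3 * M * (T * δ) := by
      rw [← mul_sub, abs_mul, hnd, abs_of_nonneg (hM0.le.trans hm)]
      exact mul_le_mul_of_nonneg_right (by linarith) (by positivity)
    calc V * |(m₂ : ℝ) * n - (m₂ : ℝ) * n'| / (M : ℝ) ^ 2
        ≤ V * (3 * M * (T * δ)) / (M : ℝ) ^ 2 := by gcongr
      _ = 3 * V / M * T * δ := by field_simp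
  -- third factor
  have hnp : 0 < n := by linarith
  have hnp' : 0 < n' := by linarith
  have hmp : (0 : ℝ) < m₂ := by linarith
  have hl1p : (0 : ℝ) < P.1.1 := by linarith
  have f3 : ‖e ((k : ℝ) * (jl P : ℝ) / (n * P.1.1 * m₂)) -
      e ((k : ℝ) * (jl P : ℝ) / (n' * P.1.1 * m₂))‖ ≤ 13 * V / M * T * δ := by
    refine (norm_e_sub_le _ _).trans ?_
    have k0 : (k : ℝ) * (jl P : ℝ) / (n * P.1.1 * m₂) -
      (k : ℝ) * (jl P : ℝ) / (n' * P.1.1 * m₂) =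
        (k : ℝ) * ((jl P : ℝ) / P.1.1) * ((n' - n) / (n * n' * m₂)) := by
      field_simp
    rw [k0, abs_mul, abs_mul]
    have k1 : |(jl P : ℝ) / P.1.1| ≤ 2 * J := by
      rw [abs_div, abs_of_pos hl1p, div_le_iff₀ hl1p]
      exact TaskTE.jl_le L J P hl1 hl1u hl2u hj1u hj2u
    have k2 : |(n' - n) / (n * n' * m₂)| ≤ T * δ / (M : ℝ) ^ 3 := by
      rw [abs_div, abs_sub_comm, hnd, abs_of_pos (by positivity : (0:ℝ) < n * n' * m₂)]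
      apply div_le_div_of_nonneg_left (by positivity) (by positivity)
      calc (M : ℝ) ^ 3 = M * M * M := by ring
        _ ≤ n * n' * m₂ := by gcongr
    have k12 : |(k : ℝ)| * |(jl P : ℝ) / P.1.1| ≤ 2 * (V * (M : ℝ) ^ 2) := by
      calc |(k : ℝ)| * |(jl P : ℝ) / P.1.1| ≤ |(k : ℝ)| * (2 * J) :=
            mul_le_mul_of_nonneg_left k1 (abs_nonneg _)
        _ = 2 * (|(k : ℝ)| * J) := by ring
        _ ≤ 2 * (V * (M : ℝ) ^ 2) := by linarith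
    have k3 : |(k : ℝ)| * |(jl P : ℝ) / P.1.1| * |(n' - n) / (n * n' * m₂)| ≤
        (2 * (V * (M : ℝ) ^ 2)) * (T * δ / (M : ℝ) ^ 3) :=
      mul_le_mul k12 k2 (abs_nonneg _) (by positivity)
    have k4 : (2 * (V * (M : ℝ) ^ 2)) * (T * δ / (M : ℝ) ^ 3) = 2 * (V / M * T * δ) := by
      field_simp
    rw [k4] at k3
    have hpi : 2 * Real.pi ≤ 13 / 2 := by
      have := Real.pi_lt_d2
      linarith
    calc 2 * Real.pi * (|(k : ℝ)| * |(jl P : ℝ) / P.1.1| * |(n' - n) / (n * n' * m₂)|)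
        ≤ 13 / 2 * (2 * (V / M * T * δ)) := by
          apply mul_le_mul hpi k3 (by positivity) (by norm_num)
      _ = 13 * V / M * T * δ := by ring
  -- conclusion
  unfold Om2
  rw [← hndef, ← hndef']
  refine (TaskTE.prod3 _ _ _ _ _ _ ?_ ?_ ?_ ?_).trans ?_
  · rw [TaskTE.norm_conj']; exact (hψ _).bd _ e2
  · exact (norm_e _).le
  · exact (hψ _).bd _ e1'
  · rw [TaskTE.norm_conj']; exact (hψ _).bd _ e2'
  have hfin : 3 * V / M * (1 + T) * δ + 3 * V / M * T * δ + 13 * V / M * T * δ ≤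
      19 * V / M * (1 + T) * δ := by
    have hz : 0 ≤ V / M * δ := by positivity
    have : 19 * V / M * (1 + T) * δ -
        (3 * V / M * (1 + T) * δ + 3 * V / M * T * δ + 13 * V / M * T * δ) =
        16 * (V / M * δ) := by ring
    linarith
  linarith

end Pool.Agent.H442R2.KF
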