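import Pool.Agent.H442R2.KF.Defs
import Pool.Agent.Helper923.PNT

open Finset Filter Topology

namespace Pool.Agent.H442R2.KF

namespace TaskPC

lemma card_ge (L : ℕ) : Nat.primeCounting (2 * L) ≤ Nat.primeCounting L + (PL L).card := by
  have h1 : ∀ n : ℕ, Nat.primeCounting n = ((Finset.range (n + 1)).filter Nat.Prime).card := by
    intro n
    rw [Nat.primeCounting, Nat.primeCounting', Nat.count_eq_card_filter_range]
  rw [h1, h1]
  refine le_trans (Finset.card_le_card ?_) (Finset.card_union_le _ _)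
  intro p hp
  simp only [Finset.mem_filter, Finset.mem_range] at hp
  simp only [PL, Finset.mem_union, Finset.mem_filter, Finset.mem_range, Finset.mem_Ioc]
  by_cases h : p < L + 1
  · left; exact ⟨h, hp.2⟩
  · right; exact ⟨⟨by omega, by omega⟩, hp.2⟩

lemma large : ∃ L0 : ℕ, 2 ≤ L0 ∧ ∀ L : ℕ, L0 ≤ L →
    (L : ℝ) / (2 * Real.log L) ≤ ((PL L).card : ℝ) := by
  have hT := Pool.Agent.Helper923.PNT.pi_tendsto
  have h1 : ∀ᶠ x : ℝ in atTop, (9 / 10 : ℝ) < (Nat.primeCounting ⌊x⌋₊ : ℝ) * Real.log x / x :=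
    hT.eventually (lt_mem_nhds (by norm_num))
  have h2 : ∀ᶠ x : ℝ in atTop, (Nat.primeCounting ⌊x⌋₊ : ℝ) * Real.log x / x < (11 / 10 : ℝ) :=
    hT.eventually (gt_mem_nhds (by norm_num))
  obtain ⟨X1, hX1⟩ := Filter.eventually_atTop.mp h1
  obtain ⟨X2, hX2⟩ := Filter.eventually_atTop.mp h2
  obtain ⟨n1, hn1⟩ := exists_nat_ge X1
  obtain ⟨n2, hn2⟩ := exists_nat_ge X2
  refine ⟨max (max n1 n2) 1024, le_trans (by norm_num) (le_max_right _ _), ?_⟩
  intro L hL
  have hL1 : n1 ≤ L := le_trans (le_trans (le_max_left _ _) (le_max_left _ _)) hL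
  have hL2 : n2 ≤ L := le_trans (le_trans (le_max_right _ _) (le_max_left _ _)) hL
  have hL3 : 1024 ≤ L := le_trans (le_max_right _ _) hL
  have hL3' : (1024 : ℝ) ≤ L := by exact_mod_cast hL3
  have hLpos : (0 : ℝ) < L := by linarith
  have hlog : 0 < Real.log L := Real.log_pos (by linarith)
  have hlog2 : 0 < Real.log (2 * L : ℝ) := Real.log_pos (by linarith)
  have a1 := hX1 (2 * L : ℝ) (by
    have : (n1 : ℝ) ≤ L := by exact_mod_cast hL1
    linarith)
  have a2 := hX2 (L : ℝ) (by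
    have : (n2 : ℝ) ≤ L := by exact_mod_cast hL2
    linarith)
  have f1 : ⌊(2 * L : ℝ)⌋₊ = 2 * L := by
    have : (2 * L : ℝ) = ((2 * L : ℕ) : ℝ) := by push_cast; ring
    rw [this, Nat.floor_natCast]
  have f2 : ⌊(L : ℝ)⌋₊ = L := Nat.floor_natCast L
  rw [f1] at a1
  rw [f2] at a2
  rw [lt_div_iff₀ (by linarith)] at a1
  rw [div_lt_iff₀ hLpos] at a2
  have hc : (Nat.primeCounting (2 * L) : ℝ) ≤ Nat.primeCounting L + (PL L).card := by
    exact_mod_cast card_ge L
  have hlogle : Real.log (2 * L : ℝ) ≤ 11 / 10 * Real.log L := by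
    rw [Real.log_mul (by norm_num) hLpos.ne']
    have h10 : Real.log 1024 ≤ Real.log L := Real.log_le_log (by norm_num) hL3'
    have h11 : Real.log 1024 = 10 * Real.log 2 := by
      rw [show (1024 : ℝ) = 2 ^ 10 by norm_num, Real.log_pow]; norm_num
    linarith
  rw [div_le_iff₀ (by positivity)]
  -- π(2L) log(2L) > 1.8 L ; π(L) log L < 1.1 L
  set A : ℝ := (Nat.primeCounting (2 * L) : ℝ)
  set B : ℝ := (Nat.primeCounting L : ℝ)
  set Cc : ℝ := ((PL L).card : ℝ)
  have hA0 : 0 ≤ A := Nat.cast_nonneg _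
  have h5 : 9 / 10 * (2 * L) < A * (11 / 10 * Real.log L) :=
    lt_of_lt_of_le a1 (mul_le_mul_of_nonneg_left hlogle hA0)
  have h6 : (A - B) * Real.log L ≤ Cc * Real.log L :=
    mul_le_mul_of_nonneg_right (by linarith) hlog.le
  nlinarith

end TaskPC

/-- PC: number of primes in `(L, 2L]` -/
theorem primes_dyadic (ε : ℝ) (hε : 0 < ε) : ∃ c : ℝ, 0 < c ∧ ∀ L : ℕ, 1 ≤ L →
    c * (L : ℝ) ^ (1 - ε) ≤ ((PL L).card : ℝ) := by
  obtain ⟨L0, hL0, hlarge⟩ := TaskPC.large
  have hL0' : (0 : ℝ) < L0 := by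
    have : 0 < L0 := by omega
    exact_mod_cast this
  refine ⟨min (ε / 2) (1 / L0), lt_min (by positivity) (by positivity), ?_⟩
  intro L hL
  have hLpos : (0 : ℝ) < L := by
    have : 0 < L := by omega
    exact_mod_cast this
  have hpw : (0 : ℝ) < (L : ℝ) ^ (1 - ε) := Real.rpow_pos_of_pos hLpos _
  by_cases h : L0 ≤ L
  · refine le_trans (mul_le_mul_of_nonneg_right (min_le_left _ _) hpw.le) ?_
    refine le_trans ?_ (hlarge L h)
    have hL2 : (2 : ℝ) ≤ L := by
      have : 2 ≤ L := le_trans hL0 h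
      exact_mod_cast this
    have hlog : 0 < Real.log L := Real.log_pos (by linarith)
    have hle := Real.log_le_rpow_div hLpos.le hε
    rw [le_div_iff₀ (by positivity)]
    have hmul : (L : ℝ) ^ (1 - ε) * (L : ℝ) ^ ε = L := by
      rw [← Real.rpow_add hLpos]; simp
    calc ε / 2 * (L : ℝ) ^ (1 - ε) * (2 * Real.log L)
        = (L : ℝ) ^ (1 - ε) * (ε * Real.log L) := by ring
      _ ≤ (L : ℝ) ^ (1 - ε) * (L : ℝ) ^ ε := by
          refine mul_le_mul_of_nonneg_left ?_ hpw.le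
          rw [le_div_iff₀ hε] at hle
          linarith
      _ = L := hmul
  · have hcard : 1 ≤ (PL L).card := by
      obtain ⟨p, hp, h1, h2⟩ := Nat.exists_prime_lt_and_le_two_mul L (by omega)
      apply Finset.card_pos.mpr
      exact ⟨p, by simp only [PL, Finset.mem_filter, Finset.mem_Ioc]; exact ⟨⟨h1, h2⟩, hp⟩⟩
    have hcard' : (1 : ℝ) ≤ ((PL L).card : ℝ) := by exact_mod_cast hcard
    refine le_trans (mul_le_mul_of_nonneg_right (min_le_right _ _) hpw.le) ?_
    refine le_trans ?_ hcard'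
    have h1L : (1 : ℝ) ≤ L := by exact_mod_cast hL
    have : (L : ℝ) ^ (1 - ε) ≤ (L : ℝ) ^ (1 : ℝ) :=
      Real.rpow_le_rpow_of_exponent_le h1L (by linarith)
    rw [Real.rpow_one] at this
    have hLL : (L : ℝ) ≤ L0 := by
      have : L ≤ L0 := by omega
      exact_mod_cast this
    rw [one_div, inv_mul_le_iff₀ hL0']
    linarith

end Pool.Agent.H442R2.KF
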