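import Pool.Agent.H442R2.KF.Defs
import Pool.Agent.H442R2.KF.Kfb
import Pool.Agent.H442R2.KF.Qp

/-!
Task F1: the arithmetic of the phase for fixed `m₂`.
-/

set_option autoImplicit false

namespace Pool.Agent.H442R2.KF

open Finset

namespace PhaseX

/-! ### inverses -/

theorem kf_inv' (n : ℕ) (hn : 0 < n) (b m k : ℤ) (h : (n : ℤ) ∣ m * k - 1) :
    kf b m n = e ((b : ℝ) * k / n) := by
  apply kf_of_inv n hn
  have h1 := (ZMod.intCast_zmod_eq_zero_iff_dvd (m * k - 1) n).2 h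
  rw [Int.cast_sub, Int.cast_one, sub_eq_zero] at h1
  exact h1

theorem exists_inv (a : ℤ) (n : ℕ) (h : IsCoprime a (n : ℤ)) : ∃ k : ℤ, (n : ℤ) ∣ a * k - 1 := by
  obtain ⟨x, y, hxy⟩ := h
  exact ⟨x, -y, by linear_combination hxy⟩

theorem coprime_of_inv (a k : ℤ) (n : ℤ) (h : n ∣ a * k - 1) : IsCoprime a n := by
  obtain ⟨c, hc⟩ := h
  exact ⟨k, -c, by linear_combination hc⟩

/-- the quotient -/
def NN (l₁ l₂ : ℕ) (t : ℤ) (m₂ : ℕ) (m : ℤ) : ℤ := ((l₂ : ℤ) * m - (l₁ : ℤ) * m₂) / t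

/-- conditions -/
def AA (l₁ l₂ : ℕ) (t : ℤ) (m₂ v : ℕ) (m : ℤ) : Prop :=
  ¬ l₂ ∣ m₂ ∧ t ∣ ((l₂ : ℤ) * m - (l₁ : ℤ) * m₂) ∧ IsCoprime (NN l₁ l₂ t m₂ m) ((l₁ * v : ℕ) : ℤ)

open Classical in
/-- the periodic factor -/
noncomputable def fac (b : ℤ) (l₁ l₂ : ℕ) (t : ℤ) (m₂ q v : ℕ) (m : ℤ) : ℂ :=
  if AA l₁ l₂ t m₂ v m then
    (starRingEnd ℂ) (kf (b * ((l₂ : ℤ) - l₁)) (NN l₁ l₂ t m₂ m * q) (l₁ * v)) else 0

theorem fac_norm (b : ℤ) (l₁ l₂ : ℕ) (t : ℤ) (m₂ q v : ℕ) (m : ℤ) :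
    ‖fac b l₁ l₂ t m₂ q v m‖ ≤ 1 := by
  unfold fac
  split_ifs
  · rw [RCLike.norm_conj, norm_kf]
  · simp

theorem fac_dvd (b : ℤ) (l₁ l₂ : ℕ) (t : ℤ) (m₂ q v : ℕ) (m : ℤ)
    (h : fac b l₁ l₂ t m₂ q v m ≠ 0) : t ∣ ((l₂ : ℤ) * m - (l₁ : ℤ) * m₂) := by
  unfold fac at h
  by_contra hc
  apply h
  rw [if_neg]
  intro hA
  exact hc hA.2.1

theorem NN_add (l₁ l₂ : ℕ) (t : ℤ) (ht : t ≠ 0) (m₂ : ℕ) (m s : ℤ) :
    NN l₁ l₂ t m₂ (m + t * s) = NN l₁ l₂ t m₂ m + l₂ * s := by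
  unfold NN
  have h : (l₂ : ℤ) * (m + t * s) - (l₁ : ℤ) * m₂ = ((l₂ : ℤ) * m - (l₁ : ℤ) * m₂) + t * (l₂ * s) := by
    ring
  rw [h, Int.add_mul_ediv_left _ _ ht]

theorem fac_period (b : ℤ) (l₁ l₂ : ℕ) (t : ℤ) (ht : t ≠ 0) (m₂ q v : ℕ) (hw : 0 < l₁ * v)
    (m k : ℤ) : fac b l₁ l₂ t m₂ q v (m + t * (((l₁ * v : ℕ) : ℤ) * k)) =
      fac b l₁ l₂ t m₂ q v m := by
  have hN := NN_add l₁ l₂ t ht m₂ m (((l₁ * v : ℕ) : ℤ) * k)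
  have hA : AA l₁ l₂ t m₂ v (m + t * (((l₁ * v : ℕ) : ℤ) * k)) ↔ AA l₁ l₂ t m₂ v m := by
    unfold AA
    rw [hN]
    have h1 : t ∣ (l₂ : ℤ) * (m + t * (((l₁ * v : ℕ) : ℤ) * k)) - (l₁ : ℤ) * m₂ ↔
        t ∣ (l₂ : ℤ) * m - (l₁ : ℤ) * m₂ := by
      have h : (l₂ : ℤ) * (m + t * (((l₁ * v : ℕ) : ℤ) * k)) - (l₁ : ℤ) * m₂ =
          ((l₂ : ℤ) * m - (l₁ : ℤ) * m₂) + t * (l₂ * (((l₁ * v : ℕ) : ℤ) * k)) := by ring
      rw [h]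
      exact dvd_add_left (Dvd.intro _ rfl)
    have h2 : IsCoprime (NN l₁ l₂ t m₂ m + l₂ * (((l₁ * v : ℕ) : ℤ) * k)) ((l₁ * v : ℕ) : ℤ) ↔
        IsCoprime (NN l₁ l₂ t m₂ m) ((l₁ * v : ℕ) : ℤ) := by
      have h : (l₂ : ℤ) * (((l₁ * v : ℕ) : ℤ) * k) = ((l₁ * v : ℕ) : ℤ) * (l₂ * k) := by ring
      rw [h]
      exact IsCoprime.add_mul_left_left_iff
    rw [h1, h2]
  unfold fac
  by_cases h : AA l₁ l₂ t m₂ v m
  · rw [if_pos h, if_pos (hA.2 h)]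
    congr 1
    apply kf_congr _ hw _ _ _ _ rfl
    rw [hN]
    push_cast
    have h0 : ((l₁ : ZMod (l₁ * v)) * (v : ZMod (l₁ * v))) = 0 := by
      have := ZMod.natCast_self (l₁ * v)
      push_cast at this
      exact this
    linear_combination ((l₂ : ZMod (l₁ * v)) * k * q) * h0
  · rw [if_neg h, if_neg (fun h' => h (hA.1 h'))]

/-- the value at an admissible pair -/
theorem tm_adm (M : ℕ) (ψ : ℝ → ℂ) (b : ℤ) (l₁ l₂ : ℕ) (t : ℤ) (hl₁ : 0 < l₁) (ht : t ≠ 0)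
    (m₂ q v : ℕ) (hq : 0 < q) (hv : 0 < v) (hqv : q * v = m₂) (hcop : Nat.Coprime q v)
    (hql₁ : IsCoprime (l₁ : ℤ) (q : ℤ)) (m₁ : ℕ)
    (z y : ℤ) (hz : (q : ℤ) ∣ ((l₂ : ℤ) * l₁ * v) * z - 1) (hy : (q : ℤ) ∣ (m₁ : ℤ) * y - 1)
    (hadm : adm M (l₁, l₂, t) m₁ m₂) :
    tm ψ b M (l₁, l₂, t) m₁ m₂ =
      Om ψ b (l₁, l₂, t) m₂ m₁ * fac b l₁ l₂ t m₂ q v m₁ *
        (starRingEnd ℂ) (e (((b * ((l₂ : ℤ) - l₁) : ℤ) : ℝ) * ((t * z * y : ℤ) : ℝ) / q)) := by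
  obtain ⟨n, hn⟩ : ∃ n, n = nu (l₁, l₂, t) m₁ m₂ := ⟨_, rfl⟩
  obtain ⟨h1, h2, h3, h4⟩ := id hadm
  simp only at h1 h2 h4
  rw [← hn] at h3 h4
  have hn0 : 0 < n := lt_of_le_of_lt (Nat.zero_le _) (Finset.mem_Ioc.1 h3).1
  have hnN : (n : ℤ) = NN l₁ l₂ t m₂ m₁ := by
    have h5 : n = (NN l₁ l₂ t m₂ m₁).toNat := hn
    have h6 : 0 < NN l₁ l₂ t m₂ m₁ := by
      by_contra hc
      push Not at hc
      rw [Int.toNat_of_nonpos hc] at h5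
      omega
    rw [h5]
    exact Int.toNat_of_nonneg h6.le
  have hnt : (n : ℤ) * t = (l₂ : ℤ) * m₁ - (l₁ : ℤ) * m₂ := by
    rw [hnN]
    exact Int.ediv_mul_cancel h2
  have hnR : nuR (l₁, l₂, t) m₂ m₁ = n := by
    unfold nuR
    simp only
    have ht' : (t : ℝ) ≠ 0 := by exact_mod_cast ht
    rw [div_eq_iff ht']
    exact_mod_cast hnt.symm
  -- the coprimalities
  have hcn : IsCoprime (((l₁ * m₂ : ℕ) : ℤ)) (n : ℤ) := Nat.isCoprime_iff_coprime.2 h4.symm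
  have hm₂0 : 0 < m₂ := by rw [← hqv]; exact Nat.mul_pos hq hv
  have hw : 0 < l₁ * v := Nat.mul_pos hl₁ hv
  have hlm : l₁ * m₂ = q * (l₁ * v) := by rw [← hqv]; ring
  have hqw : Nat.Coprime q (l₁ * v) :=
    Nat.Coprime.mul_right (Nat.isCoprime_iff_coprime.1 hql₁).symm hcop
  have hAA : AA l₁ l₂ t m₂ v m₁ := by
    refine ⟨h1, h2, ?_⟩
    rw [← hnN]
    apply Nat.isCoprime_iff_coprime.2
    apply Nat.Coprime.coprime_dvd_right _ h4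
    rw [hlm]
    exact Dvd.intro_left q rfl
  obtain ⟨B, hB⟩ : ∃ B : ℤ, B = b * ((l₂ : ℤ) - l₁) := ⟨_, rfl⟩
  -- first identity
  have e1 : kf b m₁ n * (starRingEnd ℂ) (kf b m₂ n) = kf B ((l₁ * m₂ : ℕ) : ℤ) n := by
    obtain ⟨k, hk⟩ := exists_inv _ _ hcn
    have k1 : (n : ℤ) ∣ (m₁ : ℤ) * (l₂ * k) - 1 := by
      have : (m₁ : ℤ) * (l₂ * k) - 1 = (((l₁ * m₂ : ℕ) : ℤ) * k - 1) + (n : ℤ) * (t * k) := by
        push_cast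
        linear_combination (-k) * hnt
      rw [this]
      exact dvd_add hk (Dvd.intro _ rfl)
    have k2 : (n : ℤ) ∣ (m₂ : ℤ) * (l₁ * k) - 1 := by
      have : (m₂ : ℤ) * (l₁ * k) - 1 = (((l₁ * m₂ : ℕ) : ℤ) * k - 1) := by
        push_cast; ring
      rw [this]
      exact hk
    rw [kf_inv' n hn0 b m₁ _ k1, kf_inv' n hn0 b m₂ _ k2, kf_inv' n hn0 B _ _ hk, conj_e, ← e_add]
    congr 1
    rw [hB]
    push_cast
    ring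
  -- reciprocity
  have e2 : kf B ((l₁ * m₂ : ℕ) : ℤ) n =
      e ((B : ℝ) / ((n : ℝ) * ((l₁ * m₂ : ℕ) : ℝ))) * (starRingEnd ℂ) (kf B n (l₁ * m₂)) :=
    kf_recip B (l₁ * m₂) n (Nat.mul_pos hl₁ hm₂0) hn0 h4.symm
  -- Chinese remainder theorem
  have e3 : kf B n (l₁ * m₂) = kf B (n * ((l₁ * v : ℕ) : ℤ)) q * kf B (n * q) (l₁ * v) := by
    rw [hlm]
    apply kf_crt B n q (l₁ * v) hq hw hqw
    have h7 : Nat.Coprime n (q * (l₁ * v)) := by rw [← hlm]; exact h4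
    have h8 := Nat.isCoprime_iff_coprime.2 h7
    have h9 := Int.isCoprime_iff_gcd_eq_one.1 h8
    push_cast at h9 ⊢
    exact h9
  have e4 : kf B (n * ((l₁ * v : ℕ) : ℤ)) q = e ((B : ℝ) * ((t * z * y : ℤ) : ℝ) / q) := by
    apply kf_inv' q hq
    obtain ⟨a, ha⟩ := hz
    obtain ⟨c, hc⟩ := hy
    have hm : (m₂ : ℤ) = q * v := by rw [← hqv]; push_cast; ring
    refine ⟨a * (m₁ * y) + c - l₁ * v * (l₁ * v * z * y), ?_⟩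
    push_cast
    have : (n : ℤ) * (l₁ * v) * (t * z * y) - 1 = ((l₂ : ℤ) * m₁ - (l₁ : ℤ) * m₂) * (l₁ * v * z * y) - 1 := by
      linear_combination (l₁ * v * z * y : ℤ) * hnt
    rw [this, hm]
    linear_combination (m₁ * y : ℤ) * ha + hc
  unfold tm
  rw [if_pos hadm, ← hn, e1, e2, e3, e4]
  unfold fac
  rw [if_pos hAA, ← hnN, ← hB]
  unfold Om
  rw [hnR, map_mul]
  have e5 : (b : ℝ) * (((l₁, l₂, t) : ℕ × ℕ × ℤ).2.1 - ((l₁, l₂, t) : ℕ × ℕ × ℤ).1) /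
      ((n : ℝ) * ((l₁, l₂, t) : ℕ × ℕ × ℤ).1 * m₂) = (B : ℝ) / ((n : ℝ) * ((l₁ * m₂ : ℕ) : ℝ)) := by
    rw [hB]
    push_cast
    ring
  rw [e5]
  ring

/-- not admissible: one of the factors vanishes -/
theorem fac_not_adm (M : ℕ) (b : ℤ) (l₁ l₂ : ℕ) (t : ℤ) (ht : t ≠ 0)
    (m₂ q v : ℕ) (hqv : q * v = m₂) (m₁ : ℕ)
    (z y : ℤ) (hz : (q : ℤ) ∣ ((l₂ : ℤ) * l₁ * v) * z - 1) (hy : (q : ℤ) ∣ (m₁ : ℤ) * y - 1)
    (hn1 : (M : ℝ) < nuR (l₁, l₂, t) m₂ m₁) (hn2 : nuR (l₁, l₂, t) m₂ m₁ ≤ 2 * M + 1)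
    (hadm : ¬ adm M (l₁, l₂, t) m₁ m₂) : fac b l₁ l₂ t m₂ q v m₁ = 0 := by
  unfold fac
  rw [if_neg]
  rintro ⟨h1, h2, h3⟩
  apply hadm
  obtain ⟨N, hN⟩ : ∃ N, N = NN l₁ l₂ t m₂ m₁ := ⟨_, rfl⟩
  rw [← hN] at h3
  have hNt : N * t = (l₂ : ℤ) * m₁ - (l₁ : ℤ) * m₂ := by
    rw [hN]
    exact Int.ediv_mul_cancel h2
  have hnR : nuR (l₁, l₂, t) m₂ m₁ = N := by
    unfold nuR
    simp only
    have ht' : (t : ℝ) ≠ 0 := by exact_mod_cast ht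
    rw [div_eq_iff ht']
    exact_mod_cast hNt.symm
  rw [hnR] at hn1 hn2
  have hN1 : (M : ℤ) < N := by exact_mod_cast hn1
  have hN2 : N ≤ 2 * M + 1 := by exact_mod_cast hn2
  have hnu : nu (l₁, l₂, t) m₁ m₂ = N.toNat := by rw [hN]; rfl
  have hnn : ((N.toNat : ℕ) : ℤ) = N := Int.toNat_of_nonneg (by omega)
  refine ⟨h1, h2, ?_, ?_⟩
  · rw [hnu, Finset.mem_Ioc]
    omega
  · rw [hnu]
    apply Nat.isCoprime_iff_coprime.1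
    rw [hnn]
    have hq : IsCoprime N (q : ℤ) := by
      apply coprime_of_inv N (l₁ * v * t * z * y)
      obtain ⟨a, ha⟩ := hz
      obtain ⟨c, hc⟩ := hy
      have hm : (m₂ : ℤ) = q * v := by rw [← hqv]; push_cast; ring
      refine ⟨a * (m₁ * y) + c - l₁ * v * (l₁ * v * z * y), ?_⟩
      have : N * (l₁ * v * t * z * y) - 1 =
          ((l₂ : ℤ) * m₁ - (l₁ : ℤ) * m₂) * (l₁ * v * z * y) - 1 := by
        linear_combination (l₁ * v * z * y : ℤ) * hNt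
      rw [this, hm]
      linear_combination (m₁ * y : ℤ) * ha + hc
    have h5 : (((l₁ * m₂ : ℕ)) : ℤ) = q * ((l₁ * v : ℕ) : ℤ) := by
      rw [← hqv]; push_cast; ring
    simp only
    rw [h5]
    exact IsCoprime.mul_right hq h3

/-- admissible pairs are coprime to `q` -/
theorem adm_coprime (M : ℕ) (l₁ l₂ : ℕ) (t : ℤ) (m₂ q v : ℕ) (hqv : q * v = m₂) (m₁ : ℕ)
    (hqt : IsCoprime t (q : ℤ)) (hadm : adm M (l₁, l₂, t) m₁ m₂) : IsCoprime (m₁ : ℤ) (q : ℤ) := by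
  obtain ⟨n, hn⟩ : ∃ n, n = nu (l₁, l₂, t) m₁ m₂ := ⟨_, rfl⟩
  obtain ⟨h1, h2, h3, h4⟩ := id hadm
  simp only at h1 h2 h4
  rw [← hn] at h3 h4
  have hn0 : 0 < n := lt_of_le_of_lt (Nat.zero_le _) (Finset.mem_Ioc.1 h3).1
  have hnN : (n : ℤ) = NN l₁ l₂ t m₂ m₁ := by
    have h5 : n = (NN l₁ l₂ t m₂ m₁).toNat := hn
    have h6 : 0 < NN l₁ l₂ t m₂ m₁ := by
      by_contra hc
      push Not at hc
      rw [Int.toNat_of_nonpos hc] at h5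
      omega
    rw [h5]
    exact Int.toNat_of_nonneg h6.le
  have hnt : (n : ℤ) * t = (l₂ : ℤ) * m₁ - (l₁ : ℤ) * m₂ := by
    rw [hnN]
    exact Int.ediv_mul_cancel h2
  have hnq : IsCoprime (n : ℤ) (q : ℤ) := by
    apply Nat.isCoprime_iff_coprime.2
    apply Nat.Coprime.coprime_dvd_right _ h4
    rw [← hqv]
    exact Dvd.intro (l₁ * v) (by ring)
  have h5 : IsCoprime ((n : ℤ) * t) (q : ℤ) := IsCoprime.mul_left hnq hqt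
  have h6 : (n : ℤ) * t = (l₂ : ℤ) * m₁ + q * (-(l₁ * v)) := by
    have hm : (m₂ : ℤ) = q * v := by rw [← hqv]; push_cast; ring
    rw [hnt, hm]; ring
  rw [h6, IsCoprime.add_mul_left_left_iff] at h5
  exact h5.of_mul_left_right

/-- counting in residue classes -/
theorem count_le (a R K : ℕ) (ha : 0 < a) (hR : R = a * K) (S : Finset ℤ)
    (hS : ∀ r ∈ S, 0 ≤ r ∧ r < R) (hd : ∀ r ∈ S, ∀ r' ∈ S, (a : ℤ) ∣ r - r') : S.card ≤ K := by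
  have h : S.card ≤ (Finset.range K).card := by
    apply Finset.card_le_card_of_injOn (fun r => (r / (a : ℤ)).toNat)
    · intro r hr
      obtain ⟨h1, h2⟩ := hS r hr
      simp only [Finset.coe_range, Set.mem_Iio]
      have h3 : r / (a : ℤ) < K := by
        apply Int.ediv_lt_of_lt_mul (by exact_mod_cast ha)
        rw [hR] at h2
        push_cast at h2
        linarith
      have h4 : 0 ≤ r / (a : ℤ) := Int.ediv_nonneg h1 (by positivity)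
      omega
    · intro r hr r' hr' he
      obtain ⟨h1, h2⟩ := hS r hr
      obtain ⟨h1', h2'⟩ := hS r' hr'
      simp only at he
      have h4 : 0 ≤ r / (a : ℤ) := Int.ediv_nonneg h1 (by positivity)
      have h4' : 0 ≤ r' / (a : ℤ) := Int.ediv_nonneg h1' (by positivity)
      have h5 : r / (a : ℤ) = r' / (a : ℤ) := by omega
      have h6 : r % (a : ℤ) = r' % (a : ℤ) :=
        (Int.modEq_iff_dvd.2 (hd r hr r' hr') : r' ≡ r [ZMOD (a : ℤ)]).symm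
      have h7 := Int.emod_add_mul_ediv r a
      have h8 := Int.emod_add_mul_ediv r' a
      rw [← h7, ← h8, h5, h6]
  rwa [Finset.card_range] at h

/-- one parameter: the whole term -/
theorem tm_one (M : ℕ) (ψ : ℝ → ℂ) (b : ℤ) (l₁ l₂ : ℕ) (t : ℤ) (hl₁ : 0 < l₁) (ht : t ≠ 0)
    (m₂ q v : ℕ) (hq : 0 < q) (hv : 0 < v) (hqv : q * v = m₂) (hcop : Nat.Coprime q v)
    (hql₁ : IsCoprime (l₁ : ℤ) (q : ℤ)) (m₁ : ℕ)
    (z y : ℤ) (hz : (q : ℤ) ∣ ((l₂ : ℤ) * l₁ * v) * z - 1) (hy : (q : ℤ) ∣ (m₁ : ℤ) * y - 1)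
    (hn1 : (M : ℝ) < nuR (l₁, l₂, t) m₂ m₁) (hn2 : nuR (l₁, l₂, t) m₂ m₁ ≤ 2 * M + 1) :
    tm ψ b M (l₁, l₂, t) m₁ m₂ =
      Om ψ b (l₁, l₂, t) m₂ m₁ * fac b l₁ l₂ t m₂ q v m₁ *
        (starRingEnd ℂ) (e (((b * ((l₂ : ℤ) - l₁) : ℤ) : ℝ) * ((t * z * y : ℤ) : ℝ) / q)) := by
  by_cases hadm : adm M (l₁, l₂, t) m₁ m₂
  · exact tm_adm M ψ b l₁ l₂ t hl₁ ht m₂ q v hq hv hqv hcop hql₁ m₁ z y hz hy hadm
  · rw [fac_not_adm M b l₁ l₂ t ht m₂ q v hqv m₁ z y hz hy hn1 hn2 hadm, mul_zero, zero_mul]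
    unfold tm
    rw [if_neg hadm]

/-- the coefficient `c` is coprime to `q` -/
theorem c_coprime (b : ℤ) (l₁ l₂ l₁' l₂' v : ℕ) (t t' q z z' : ℤ)
    (hz : q ∣ ((l₂ : ℤ) * l₁ * v) * z - 1) (hz' : q ∣ ((l₂' : ℤ) * l₁' * v) * z' - 1)
    (h : IsCoprime (b * (((l₂ : ℤ) - l₁) * t * l₁' * l₂' - ((l₂' : ℤ) - l₁') * t' * l₁ * l₂) * v) q) :
    IsCoprime (b * ((l₂' : ℤ) - l₁') * (t' * z') - b * ((l₂ : ℤ) - l₁) * (t * z)) q := by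
  obtain ⟨a, ha⟩ := hz
  obtain ⟨a', ha'⟩ := hz'
  obtain ⟨x, y, hxy⟩ := h
  refine ⟨-x * (((l₂ : ℤ) * l₁ * v) * ((l₂' : ℤ) * l₁' * v)),
    y + x * (b * ((l₂' : ℤ) - l₁') * t' * ((l₂ : ℤ) * l₁ * v) * a'
      - b * ((l₂ : ℤ) - l₁) * t * ((l₂' : ℤ) * l₁' * v) * a), ?_⟩
  linear_combination hxy + (x * b * ((l₂ : ℤ) - l₁) * t * ((l₂' : ℤ) * l₁' * v)) * ha
    - (x * b * ((l₂' : ℤ) - l₁') * t' * ((l₂ : ℤ) * l₁ * v)) * ha'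

end PhaseX

open PhaseX

/-- F1 (Phase.lean): the arithmetic of the phase for fixed `m₂` -/
theorem phase_pair (M L : ℕ) (_hM : 1 ≤ M) (ψ : ℝ → ℂ) (b : ℤ)
    (p p' : ℕ × ℕ × ℤ) (hp : p ∈ Par L) (hp' : p' ∈ Par L) (_hG : PiQ b p p' ≠ 0)
    (m₂ : ℕ) (hm₂ : m₂ ∈ Ioc M (2 * M + 1)) :
    ∃ (c : ℤ) (Φ : ℤ → ℂ), Int.gcd c (qp (PiQ b p p') m₂) = 1 ∧
      (∀ m, Φ (m + (p.2.2.natAbs * p'.2.2.natAbs * p.1 * p'.1 * vp (PiQ b p p') m₂ : ℕ)) = Φ m) ∧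
      (∀ m, ‖Φ m‖ ≤ 1) ∧
      ((Ico (0 : ℤ) (p.2.2.natAbs * p'.2.2.natAbs * p.1 * p'.1 * vp (PiQ b p p') m₂ : ℕ)).filter
        (fun r => Φ r ≠ 0)).card ≤
          p.1 * p'.1 * vp (PiQ b p p') m₂ * Nat.gcd p.2.2.natAbs p'.2.2.natAbs ∧
      ∀ m₁ ∈ Ioc M (2 * M + 1),
        (M : ℝ) < nuR p m₂ m₁ → nuR p m₂ m₁ ≤ 2 * M + 1 →
        (M : ℝ) < nuR p' m₂ m₁ → nuR p' m₂ m₁ ≤ 2 * M + 1 →
        tm ψ b M p m₁ m₂ * (starRingEnd ℂ) (tm ψ b M p' m₁ m₂) =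
          (Om ψ b p m₂ m₁ * (starRingEnd ℂ) (Om ψ b p' m₂ m₁)) * Φ m₁ *
            (if Int.gcd m₁ (qp (PiQ b p p') m₂) = 1 then kf c m₁ (qp (PiQ b p p') m₂) else 0) := by
  have hm₂0 : 0 < m₂ := lt_of_le_of_lt (Nat.zero_le _) (Finset.mem_Ioc.1 hm₂).1
  obtain ⟨-, hq, -, hv, hqv, hcop, hqG, -⟩ := qp_facts (PiQ b p p') m₂ hm₂0
  obtain ⟨q, hqq⟩ : ∃ q, q = qp (PiQ b p p') m₂ := ⟨_, rfl⟩
  obtain ⟨v, hvv⟩ : ∃ v, v = vp (PiQ b p p') m₂ := ⟨_, rfl⟩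
  rw [← hqq] at hq hqv hcop hqG ⊢
  rw [← hvv] at hv hqv hcop ⊢
  obtain ⟨l₁, l₂, t⟩ := p
  obtain ⟨l₁', l₂', t'⟩ := p'
  have hPar : ∀ (a₁ a₂ : ℕ) (s : ℤ), (a₁, a₂, s) ∈ Par L →
      0 < a₁ ∧ 0 < a₂ ∧ s ≠ 0 ∧ IsCoprime s (a₂ : ℤ) := by
    intro a₁ a₂ s h
    unfold Par PL at h
    simp only [Finset.mem_filter, Finset.mem_product] at h
    obtain ⟨⟨⟨-, h1⟩, ⟨-, h2⟩, -⟩, -, h3, -, h4⟩ := h
    refine ⟨h1.pos, h2.pos, h3, ?_⟩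
    exact ((Int.prime_iff_natAbs_prime.2 (by simpa using h2)).coprime_iff_not_dvd.2 h4).symm
  obtain ⟨hl₁, hl₂, ht, htl⟩ := hPar l₁ l₂ t hp
  obtain ⟨hl₁', hl₂', ht', htl'⟩ := hPar l₁' l₂' t' hp'
  simp only
  -- coprimality with `q`
  have hG : IsCoprime (b * Bq (l₁, l₂, t) (l₁', l₂', t') * t * t' * l₁ * l₂ * l₁' * l₂' : ℤ)
      (q : ℤ) := by
    rw [Int.isCoprime_iff_gcd_eq_one]
    exact hqG.symm
  have g1 := hG.of_mul_left_right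
  have g2 := hG.of_mul_left_left.of_mul_left_right
  have g3 := hG.of_mul_left_left.of_mul_left_left.of_mul_left_right
  have g4 := hG.of_mul_left_left.of_mul_left_left.of_mul_left_left.of_mul_left_right
  have g5 := hG.of_mul_left_left.of_mul_left_left.of_mul_left_left.of_mul_left_left
  have g6 := g5.of_mul_left_right
  have g7 := g5.of_mul_left_left.of_mul_left_right
  have g8 := g5.of_mul_left_left.of_mul_left_left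
  have gv : IsCoprime (v : ℤ) (q : ℤ) := (Nat.isCoprime_iff_coprime.2 hcop).symm
  have gK : IsCoprime ((l₂ : ℤ) * l₁ * v) (q : ℤ) := (g3.mul_left g4).mul_left gv
  have gK' : IsCoprime ((l₂' : ℤ) * l₁' * v) (q : ℤ) := (g1.mul_left g2).mul_left gv
  obtain ⟨z, hz⟩ := exists_inv _ _ gK
  obtain ⟨z', hz'⟩ := exists_inv _ _ gK'
  have hvp : 0 < v := hv
  refine ⟨b * ((l₂' : ℤ) - l₁') * (t' * z') - b * ((l₂ : ℤ) - l₁) * (t * z),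
    fun m => fac b l₁ l₂ t m₂ q v m * (starRingEnd ℂ) (fac b l₁' l₂' t' m₂ q v m), ?_, ?_, ?_, ?_, ?_⟩
  · rw [← Int.isCoprime_iff_gcd_eq_one]
    exact c_coprime b l₁ l₂ l₁' l₂' v t t' q z z' hz hz' (g8.mul_left gv)
  · intro m
    have e1 : m + ((t.natAbs * t'.natAbs * l₁ * l₁' * v : ℕ) : ℤ) =
        m + t * (((l₁ * v : ℕ) : ℤ) * (t.sign * t'.natAbs * l₁')) := by
      have := Int.mul_sign_self t
      push_cast at this ⊢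
      linear_combination (-(|t'| * l₁ * l₁' * v)) * this
    have e2 : m + ((t.natAbs * t'.natAbs * l₁ * l₁' * v : ℕ) : ℤ) =
        m + t' * (((l₁' * v : ℕ) : ℤ) * (t'.sign * t.natAbs * l₁)) := by
      have := Int.mul_sign_self t'
      push_cast at this ⊢
      linear_combination (-(|t| * l₁ * l₁' * v)) * this
    have e3 : fac b l₁ l₂ t m₂ q v (m + ((t.natAbs * t'.natAbs * l₁ * l₁' * v : ℕ) : ℤ)) =
        fac b l₁ l₂ t m₂ q v m := by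
      rw [e1]
      exact fac_period b l₁ l₂ t ht m₂ q v (Nat.mul_pos hl₁ hvp) m _
    have e4 : fac b l₁' l₂' t' m₂ q v (m + ((t.natAbs * t'.natAbs * l₁ * l₁' * v : ℕ) : ℤ)) =
        fac b l₁' l₂' t' m₂ q v m := by
      rw [e2]
      exact fac_period b l₁' l₂' t' ht' m₂ q v (Nat.mul_pos hl₁' hvp) m _
    show fac b l₁ l₂ t m₂ q v (m + ((t.natAbs * t'.natAbs * l₁ * l₁' * v : ℕ) : ℤ)) *
      (starRingEnd ℂ) (fac b l₁' l₂' t' m₂ q v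
        (m + ((t.natAbs * t'.natAbs * l₁ * l₁' * v : ℕ) : ℤ))) = _
    rw [e3, e4]
  · intro m
    show ‖fac b l₁ l₂ t m₂ q v m * (starRingEnd ℂ) (fac b l₁' l₂' t' m₂ q v m)‖ ≤ 1
    rw [norm_mul, RCLike.norm_conj]
    exact mul_le_one₀ (fac_norm _ _ _ _ _ _ _ _) (norm_nonneg _) (fac_norm _ _ _ _ _ _ _ _)
  · apply count_le (Nat.lcm t.natAbs t'.natAbs) (t.natAbs * t'.natAbs * l₁ * l₁' * v)
    · exact Nat.lcm_pos (Int.natAbs_pos.2 ht) (Int.natAbs_pos.2 ht')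
    · have := Nat.gcd_mul_lcm t.natAbs t'.natAbs
      rw [← this]; ring
    · intro r hr
      have := (Finset.mem_filter.1 hr).1
      rw [Finset.mem_Ico] at this
      exact this
    · intro r hr r' hr'
      have n1 := (Finset.mem_filter.1 hr).2
      have n2 := (Finset.mem_filter.1 hr').2
      simp only [ne_eq, mul_eq_zero, not_or] at n1 n2
      have key : ∀ (a₁ a₂ : ℕ) (s : ℤ), IsCoprime s (a₂ : ℤ) → fac b a₁ a₂ s m₂ q v r ≠ 0 →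
          fac b a₁ a₂ s m₂ q v r' ≠ 0 → s.natAbs ∣ (r - r').natAbs := by
        intro a₁ a₂ s hs h1 h2
        have d1 := fac_dvd _ _ _ _ _ _ _ _ h1
        have d2 := fac_dvd _ _ _ _ _ _ _ _ h2
        have d3 := dvd_sub d1 d2
        have d4 : (a₂ : ℤ) * r - a₁ * m₂ - ((a₂ : ℤ) * r' - a₁ * m₂) = a₂ * (r - r') := by ring
        rw [d4] at d3
        exact Int.natAbs_dvd_natAbs.2 (hs.dvd_of_dvd_mul_left d3)
      rw [Int.natCast_dvd]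
      apply Nat.lcm_dvd
      · exact key l₁ l₂ t htl n1.1 n2.1
      · refine key l₁' l₂' t' htl' (fun h => n1.2 ?_) (fun h => n2.2 ?_)
        · rw [h, map_zero]
        · rw [h, map_zero]
  · intro m₁ _ hn1 hn2 hn1' hn2'
    by_cases hg : Int.gcd m₁ q = 1
    · rw [if_pos hg]
      obtain ⟨y, hy⟩ := exists_inv (m₁ : ℤ) q (Int.isCoprime_iff_gcd_eq_one.2 hg)
      rw [tm_one M ψ b l₁ l₂ t hl₁ ht m₂ q v hq hvp hqv hcop g4 m₁ z y hz hy hn1 hn2,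
        tm_one M ψ b l₁' l₂' t' hl₁' ht' m₂ q v hq hvp hqv hcop g2 m₁ z' y hz' hy hn1' hn2',
        kf_inv' q hq _ _ y hy]
      rw [map_mul, map_mul, Complex.conj_conj, conj_e]
      have e5 : e (((b * ((l₂' : ℤ) - l₁') * (t' * z') - b * ((l₂ : ℤ) - l₁) * (t * z) : ℤ) : ℝ) *
          (y : ℝ) / q) = e (-(((b * ((l₂ : ℤ) - l₁) : ℤ) : ℝ) * ((t * z * y : ℤ) : ℝ) / q)) *
          e (((b * ((l₂' : ℤ) - l₁') : ℤ) : ℝ) * ((t' * z' * y : ℤ) : ℝ) / q) := by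
        rw [← e_add]
        congr 1
        push_cast
        ring
      rw [e5]
      ring
    · rw [if_neg hg, mul_zero]
      have h0 : tm ψ b M (l₁, l₂, t) m₁ m₂ = 0 := by
        unfold tm
        rw [if_neg]
        intro hadm
        exact hg (Int.isCoprime_iff_gcd_eq_one.1 (adm_coprime M l₁ l₂ t m₂ q v hqv m₁ g7 hadm))
      rw [h0, zero_mul]

end Pool.Agent.H442R2.KF
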