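import Pool.Agent.H442R2.KF.Defs2
import Pool.Agent.H442R2.KF.Phase

/-!
Task TF1: the arithmetic of the phase for fixed `m₂` (trilinear version).
-/

set_option autoImplicit false

namespace Pool.Agent.H442R2.KF

open Finset

namespace Phase2X

open PhaseX

/-- conditions -/
def AA2 (l₁ l₂ : ℕ) (t : ℤ) (m₂ w : ℕ) (m : ℤ) : Prop :=
  ¬ l₂ ∣ m₂ ∧ t ∣ ((l₂ : ℤ) * m - (l₁ : ℤ) * m₂) ∧ IsCoprime (NN l₁ l₂ t m₂ m) (w : ℤ)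

open Classical in
/-- the periodic factor -/
noncomputable def fac2 (B : ℤ) (l₁ l₂ : ℕ) (t : ℤ) (m₂ q w : ℕ) (m : ℤ) : ℂ :=
  if AA2 l₁ l₂ t m₂ w m then
    (starRingEnd ℂ) (kf B (NN l₁ l₂ t m₂ m * q) w) else 0

theorem fac2_norm (B : ℤ) (l₁ l₂ : ℕ) (t : ℤ) (m₂ q w : ℕ) (m : ℤ) :
    ‖fac2 B l₁ l₂ t m₂ q w m‖ ≤ 1 := by
  unfold fac2
  split_ifs
  · rw [RCLike.norm_conj, norm_kf]
  · simp

theorem fac2_dvd (B : ℤ) (l₁ l₂ : ℕ) (t : ℤ) (m₂ q w : ℕ) (m : ℤ)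
    (h : fac2 B l₁ l₂ t m₂ q w m ≠ 0) : t ∣ ((l₂ : ℤ) * m - (l₁ : ℤ) * m₂) := by
  unfold fac2 at h
  by_contra hc
  apply h
  rw [if_neg]
  intro hA
  exact hc hA.2.1

theorem fac2_period (B : ℤ) (l₁ l₂ : ℕ) (t : ℤ) (ht : t ≠ 0) (m₂ q w : ℕ) (hw : 0 < w)
    (m k : ℤ) : fac2 B l₁ l₂ t m₂ q w (m + t * ((w : ℤ) * k)) = fac2 B l₁ l₂ t m₂ q w m := by
  have hN := NN_add l₁ l₂ t ht m₂ m ((w : ℤ) * k)
  have hA : AA2 l₁ l₂ t m₂ w (m + t * ((w : ℤ) * k)) ↔ AA2 l₁ l₂ t m₂ w m := by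
    unfold AA2
    rw [hN]
    have h1 : t ∣ (l₂ : ℤ) * (m + t * ((w : ℤ) * k)) - (l₁ : ℤ) * m₂ ↔
        t ∣ (l₂ : ℤ) * m - (l₁ : ℤ) * m₂ := by
      have h : (l₂ : ℤ) * (m + t * ((w : ℤ) * k)) - (l₁ : ℤ) * m₂ =
          ((l₂ : ℤ) * m - (l₁ : ℤ) * m₂) + t * (l₂ * ((w : ℤ) * k)) := by ring
      rw [h]
      exact dvd_add_left (Dvd.intro _ rfl)
    have h2 : IsCoprime (NN l₁ l₂ t m₂ m + l₂ * ((w : ℤ) * k)) (w : ℤ) ↔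
        IsCoprime (NN l₁ l₂ t m₂ m) (w : ℤ) := by
      have h : (l₂ : ℤ) * ((w : ℤ) * k) = (w : ℤ) * (l₂ * k) := by ring
      rw [h]
      exact IsCoprime.add_mul_left_left_iff
    rw [h1, h2]
  unfold fac2
  by_cases h : AA2 l₁ l₂ t m₂ w m
  · rw [if_pos h, if_pos (hA.2 h)]
    congr 1
    apply kf_congr _ hw _ _ _ _ rfl
    rw [hN]
    push_cast
    have h0 : (w : ZMod w) = 0 := ZMod.natCast_self w
    linear_combination ((l₂ : ZMod w) * k * q) * h0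
  · rw [if_neg h, if_neg (fun h' => h (hA.1 h'))]

/-- basic facts on `n = nu` -/
theorem nu_facts (M : ℕ) (l₁ l₂ : ℕ) (t : ℤ) (m₁ m₂ : ℕ) (hadm : adm M (l₁, l₂, t) m₁ m₂) :
    0 < nu (l₁, l₂, t) m₁ m₂ ∧ ((nu (l₁, l₂, t) m₁ m₂ : ℕ) : ℤ) = NN l₁ l₂ t m₂ m₁ ∧
      ((nu (l₁, l₂, t) m₁ m₂ : ℕ) : ℤ) * t = (l₂ : ℤ) * m₁ - (l₁ : ℤ) * m₂ := by
  obtain ⟨n, hn⟩ : ∃ n, n = nu (l₁, l₂, t) m₁ m₂ := ⟨_, rfl⟩
  obtain ⟨h1, h2, h3, h4⟩ := id hadm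
  simp only at h1 h2 h4
  rw [← hn] at h3 h4 ⊢
  have hn0 : 0 < n := lt_of_le_of_lt (Nat.zero_le _) (Finset.mem_Ioc.1 h3).1
  have hnN : (n : ℤ) = NN l₁ l₂ t m₂ m₁ := by
    have h5 : n = (NN l₁ l₂ t m₂ m₁).toNat := hn
    have h6 : 0 < NN l₁ l₂ t m₂ m₁ := by
      by_contra hc
      push Not at hc
      rw [Int.toNat_of_nonpos hc] at h5
      omega
    rw [h5]
    exact Int.toNat_of_nonneg h6.le
  refine ⟨hn0, hnN, ?_⟩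
  rw [hnN]
  exact Int.ediv_mul_cancel h2

/-- the value at an admissible pair -/
theorem tm2_adm (M : ℕ) (ψ : ℕ → ℝ → ℂ) (k : ℤ) (l₁ l₂ : ℕ) (t : ℤ) (j₁ j₂ : ℕ) (hl₁ : 0 < l₁)
    (ht : t ≠ 0) (m₂ q w : ℕ) (hm₂ : 0 < m₂) (hq : 0 < q) (hw : 0 < w) (hqw : q * w = l₁ * m₂)
    (hcop : Nat.Coprime q w) (m₁ : ℕ)
    (z y : ℤ) (hz : (q : ℤ) ∣ ((l₂ : ℤ) * w) * z - 1) (hy : (q : ℤ) ∣ (m₁ : ℤ) * y - 1)
    (hadm : adm M (l₁, l₂, t) m₁ m₂) :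
    tm2 ψ k M ((l₁, l₂, t), (j₁, j₂)) m₁ m₂ =
      Om2 ψ k ((l₁, l₂, t), (j₁, j₂)) m₂ m₁ *
        fac2 (k * jl ((l₁, l₂, t), (j₁, j₂))) l₁ l₂ t m₂ q w m₁ *
        (starRingEnd ℂ) (e (((k * jl ((l₁, l₂, t), (j₁, j₂)) : ℤ) : ℝ) *
          ((t * z * y : ℤ) : ℝ) / q)) := by
  obtain ⟨hn0, hnN, hnt⟩ := nu_facts M l₁ l₂ t m₁ m₂ hadm
  obtain ⟨n, hn⟩ : ∃ n, n = nu (l₁, l₂, t) m₁ m₂ := ⟨_, rfl⟩
  obtain ⟨h1, h2, h3, h4⟩ := id hadm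
  simp only at h1 h2 h4
  rw [← hn] at h3 h4 hn0 hnN hnt
  have hnR : nuR (l₁, l₂, t) m₂ m₁ = n := by
    unfold nuR
    simp only
    have ht' : (t : ℝ) ≠ 0 := by exact_mod_cast ht
    rw [div_eq_iff ht']
    exact_mod_cast hnt.symm
  -- the coprimalities
  have hcn : IsCoprime (((l₁ * m₂ : ℕ) : ℤ)) (n : ℤ) := Nat.isCoprime_iff_coprime.2 h4.symm
  have hAA : AA2 l₁ l₂ t m₂ w m₁ := by
    refine ⟨h1, h2, ?_⟩
    rw [← hnN]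
    apply Nat.isCoprime_iff_coprime.2
    apply Nat.Coprime.coprime_dvd_right _ h4
    rw [← hqw]
    exact Dvd.intro_left q rfl
  obtain ⟨B, hB⟩ : ∃ B : ℤ, B = k * jl ((l₁, l₂, t), (j₁, j₂)) := ⟨_, rfl⟩
  have hB' : B = k * ((j₁ : ℤ) * l₂ - (j₂ : ℤ) * l₁) := hB
  -- first identity
  have e1 : kf ((j₁ : ℤ) * k) m₁ n * (starRingEnd ℂ) (kf ((j₂ : ℤ) * k) m₂ n) =
      kf B ((l₁ * m₂ : ℕ) : ℤ) n := by
    obtain ⟨κ, hκ⟩ := exists_inv _ _ hcn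
    have k1 : (n : ℤ) ∣ (m₁ : ℤ) * (l₂ * κ) - 1 := by
      have : (m₁ : ℤ) * (l₂ * κ) - 1 = (((l₁ * m₂ : ℕ) : ℤ) * κ - 1) + (n : ℤ) * (t * κ) := by
        push_cast
        linear_combination (-κ) * hnt
      rw [this]
      exact dvd_add hκ (Dvd.intro _ rfl)
    have k2 : (n : ℤ) ∣ (m₂ : ℤ) * (l₁ * κ) - 1 := by
      have : (m₂ : ℤ) * (l₁ * κ) - 1 = (((l₁ * m₂ : ℕ) : ℤ) * κ - 1) := by
        push_cast; ring
      rw [this]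
      exact hκ
    rw [kf_inv' n hn0 ((j₁ : ℤ) * k) m₁ _ k1, kf_inv' n hn0 ((j₂ : ℤ) * k) m₂ _ k2,
      kf_inv' n hn0 B _ _ hκ, conj_e, ← e_add]
    congr 1
    rw [hB']
    push_cast
    ring
  -- reciprocity
  have e2 : kf B ((l₁ * m₂ : ℕ) : ℤ) n =
      e ((B : ℝ) / ((n : ℝ) * ((l₁ * m₂ : ℕ) : ℝ))) * (starRingEnd ℂ) (kf B n (l₁ * m₂)) :=
    kf_recip B (l₁ * m₂) n (Nat.mul_pos hl₁ hm₂) hn0 h4.symm
  -- Chinese remainder theorem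
  have e3 : kf B n (l₁ * m₂) = kf B (n * ((w : ℕ) : ℤ)) q * kf B (n * q) w := by
    rw [← hqw]
    apply kf_crt B n q w hq hw hcop
    have h7 : Nat.Coprime n (q * w) := by rw [hqw]; exact h4
    have h8 := Nat.isCoprime_iff_coprime.2 h7
    have h9 := Int.isCoprime_iff_gcd_eq_one.1 h8
    push_cast at h9 ⊢
    exact h9
  have hqw' : (q : ℤ) * w = l₁ * m₂ := by exact_mod_cast hqw
  have e4 : kf B (n * ((w : ℕ) : ℤ)) q = e ((B : ℝ) * ((t * z * y : ℤ) : ℝ) / q) := by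
    apply kf_inv' q hq
    obtain ⟨a, ha⟩ := hz
    obtain ⟨c, hc⟩ := hy
    refine ⟨a * (m₁ * y) + c - w * (w * z * y), ?_⟩
    have : (n : ℤ) * w * (t * z * y) - 1 =
        ((l₂ : ℤ) * m₁ - (l₁ : ℤ) * m₂) * (w * z * y) - 1 := by
      linear_combination (w * z * y : ℤ) * hnt
    rw [this, ← hqw']
    linear_combination (m₁ * y : ℤ) * ha + hc
  unfold tm2
  simp only
  rw [if_pos hadm, ← hn, e1, e2, e3, e4]
  unfold fac2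
  rw [if_pos hAA, ← hnN, ← hB]
  unfold Om2
  simp only
  rw [hnR, map_mul]
  have e5 : (k : ℝ) * (jl ((l₁, l₂, t), (j₁, j₂)) : ℝ) / ((n : ℝ) * (l₁ : ℝ) * m₂) =
      (B : ℝ) / ((n : ℝ) * ((l₁ * m₂ : ℕ) : ℝ)) := by
    rw [hB]
    push_cast
    ring
  rw [e5]
  ring

/-- not admissible: one of the factors vanishes -/
theorem fac2_not_adm (M : ℕ) (B : ℤ) (l₁ l₂ : ℕ) (t : ℤ) (ht : t ≠ 0)
    (m₂ q w : ℕ) (hqw : q * w = l₁ * m₂) (m₁ : ℕ)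
    (z y : ℤ) (hz : (q : ℤ) ∣ ((l₂ : ℤ) * w) * z - 1) (hy : (q : ℤ) ∣ (m₁ : ℤ) * y - 1)
    (hn1 : (M : ℝ) < nuR (l₁, l₂, t) m₂ m₁) (hn2 : nuR (l₁, l₂, t) m₂ m₁ ≤ 2 * M + 1)
    (hadm : ¬ adm M (l₁, l₂, t) m₁ m₂) : fac2 B l₁ l₂ t m₂ q w m₁ = 0 := by
  unfold fac2
  rw [if_neg]
  rintro ⟨h1, h2, h3⟩
  apply hadm
  obtain ⟨N, hN⟩ : ∃ N, N = NN l₁ l₂ t m₂ m₁ := ⟨_, rfl⟩
  rw [← hN] at h3
  have hNt : N * t = (l₂ : ℤ) * m₁ - (l₁ : ℤ) * m₂ := by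
    rw [hN]
    exact Int.ediv_mul_cancel h2
  have hnR : nuR (l₁, l₂, t) m₂ m₁ = N := by
    unfold nuR
    simp only
    have ht' : (t : ℝ) ≠ 0 := by exact_mod_cast ht
    rw [div_eq_iff ht']
    exact_mod_cast hNt.symm
  rw [hnR] at hn1 hn2
  have hN1 : (M : ℤ) < N := by exact_mod_cast hn1
  have hN2 : N ≤ 2 * M + 1 := by exact_mod_cast hn2
  have hnu : nu (l₁, l₂, t) m₁ m₂ = N.toNat := by rw [hN]; rfl
  have hnn : ((N.toNat : ℕ) : ℤ) = N := Int.toNat_of_nonneg (by omega)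
  have hqw' : (q : ℤ) * w = l₁ * m₂ := by exact_mod_cast hqw
  refine ⟨h1, h2, ?_, ?_⟩
  · rw [hnu, Finset.mem_Ioc]
    omega
  · rw [hnu]
    apply Nat.isCoprime_iff_coprime.1
    rw [hnn]
    have hq : IsCoprime N (q : ℤ) := by
      apply coprime_of_inv N (w * t * z * y)
      obtain ⟨a, ha⟩ := hz
      obtain ⟨c, hc⟩ := hy
      refine ⟨a * (m₁ * y) + c - w * (w * z * y), ?_⟩
      have : N * (w * t * z * y) - 1 =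
          ((l₂ : ℤ) * m₁ - (l₁ : ℤ) * m₂) * (w * z * y) - 1 := by
        linear_combination (w * z * y : ℤ) * hNt
      rw [this, ← hqw']
      linear_combination (m₁ * y : ℤ) * ha + hc
    have h5 : (((l₁ * m₂ : ℕ)) : ℤ) = q * (w : ℤ) := by
      rw [← hqw]; push_cast; ring
    simp only
    rw [h5]
    exact IsCoprime.mul_right hq h3

/-- one parameter: the whole term -/
theorem tm2_one (M : ℕ) (ψ : ℕ → ℝ → ℂ) (k : ℤ) (l₁ l₂ : ℕ) (t : ℤ) (j₁ j₂ : ℕ) (hl₁ : 0 < l₁)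
    (ht : t ≠ 0) (m₂ q w : ℕ) (hm₂ : 0 < m₂) (hq : 0 < q) (hw : 0 < w) (hqw : q * w = l₁ * m₂)
    (hcop : Nat.Coprime q w) (m₁ : ℕ)
    (z y : ℤ) (hz : (q : ℤ) ∣ ((l₂ : ℤ) * w) * z - 1) (hy : (q : ℤ) ∣ (m₁ : ℤ) * y - 1)
    (hn1 : (M : ℝ) < nuR (l₁, l₂, t) m₂ m₁) (hn2 : nuR (l₁, l₂, t) m₂ m₁ ≤ 2 * M + 1) :
    tm2 ψ k M ((l₁, l₂, t), (j₁, j₂)) m₁ m₂ =
      Om2 ψ k ((l₁, l₂, t), (j₁, j₂)) m₂ m₁ *
        fac2 (k * jl ((l₁, l₂, t), (j₁, j₂))) l₁ l₂ t m₂ q w m₁ *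
        (starRingEnd ℂ) (e (((k * jl ((l₁, l₂, t), (j₁, j₂)) : ℤ) : ℝ) *
          ((t * z * y : ℤ) : ℝ) / q)) := by
  by_cases hadm : adm M (l₁, l₂, t) m₁ m₂
  · exact tm2_adm M ψ k l₁ l₂ t j₁ j₂ hl₁ ht m₂ q w hm₂ hq hw hqw hcop m₁ z y hz hy hadm
  · rw [fac2_not_adm M _ l₁ l₂ t ht m₂ q w hqw m₁ z y hz hy hn1 hn2 hadm, mul_zero, zero_mul]
    unfold tm2
    rw [if_neg hadm]

/-- the coefficient `c` is coprime to `q` -/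
theorem c2_coprime (k j j' l₁ l₂ l₁' l₂' v w w' e₁ e₂ t t' q z z' : ℤ)
    (hz : q ∣ (l₂ * w) * z - 1) (hz' : q ∣ (l₂' * w') * z' - 1)
    (h1 : w * l₁' = e₁ * v) (h2 : w' * l₁ = e₂ * v)
    (h : IsCoprime (w * w' * (k * (j * t * l₁' * l₂' - j' * t' * l₁ * l₂))) q) :
    IsCoprime (k * j' * (t' * z') * e₂ - k * j * (t * z) * e₁) q := by
  obtain ⟨a, ha⟩ := hz
  obtain ⟨a', ha'⟩ := hz'
  obtain ⟨x, y, hxy⟩ := h
  refine ⟨-x * (v * (l₂ * w) * (l₂' * w')),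
    y + x * (k * j' * t' * e₂ * v * (l₂ * w) * a' - k * j * t * e₁ * v * (l₂' * w') * a), ?_⟩
  linear_combination hxy + (x * k * j * t * e₁ * v * (l₂' * w')) * ha
    - (x * k * j' * t' * e₂ * v * (l₂ * w)) * ha'
    - (x * k * j * t * l₂' * w') * h1 + (x * k * j' * t' * l₂ * w) * h2

/-- the parts of the modulus -/
theorem parts (G K a b : ℕ) (hK : 0 < K) (hab : a * b = K) (ha : 0 < a) :
    ∃ q₁ w e₁ : ℕ, 0 < q₁ ∧ 0 < w ∧ q₁ * w = a ∧ q₁ * e₁ = qp G K ∧ w ∣ vp G K ∧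
      Nat.Coprime (qp G K) w ∧ w * b = e₁ * vp G K ∧
      (∀ r : ℕ, r ∣ qp G K → r ∣ a → r ∣ q₁) := by
  obtain ⟨-, hq, -, hv, hqv, hcop, hqG, -⟩ := qp_facts G K hK
  have hsq : ∀ r : ℕ, r.Prime → r ∣ qp G K → ¬ r ^ 2 ∣ K := by
    intro r hr hrq
    unfold qp at hrq
    rw [Prime.dvd_finsetProd_iff hr.prime] at hrq
    obtain ⟨s, hs, hrs⟩ := hrq
    have hs' := Finset.mem_filter.1 hs
    have hsp := Nat.prime_of_mem_primeFactors hs'.1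
    rw [Nat.prime_dvd_prime_iff_eq hr hsp] at hrs
    rw [hrs]
    exact hs'.2.2
  obtain ⟨w, hw⟩ : Nat.gcd (qp G K) a ∣ a := Nat.gcd_dvd_right _ _
  obtain ⟨e₁, he₁⟩ : Nat.gcd (qp G K) a ∣ qp G K := Nat.gcd_dvd_left _ _
  obtain ⟨g, hg⟩ : ∃ g, g = Nat.gcd (qp G K) a := ⟨_, rfl⟩
  have hrg : ∀ r : ℕ, r ∣ qp G K → r ∣ a → r ∣ g := by
    intro r h1 h2
    rw [hg]
    exact Nat.dvd_gcd h1 h2
  rw [← hg] at hw he₁
  have hg0 : 0 < g := by rw [hg]; exact Nat.gcd_pos_of_pos_left _ hq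
  have hw0 : 0 < w := by
    rcases Nat.eq_zero_or_pos w with h | h
    · rw [h, mul_zero] at hw; omega
    · exact h
  have hcw : Nat.Coprime (qp G K) w := by
    by_contra hc
    obtain ⟨r, hr, h1, h2⟩ := Nat.Prime.not_coprime_iff_dvd.1 hc
    apply hsq r hr h1
    have h3 : r ∣ a := h2.trans (Dvd.intro_left g hw.symm)
    have h4 := hrg r h1 h3
    rw [pow_two, ← hab, hw]
    exact (mul_dvd_mul h4 h2).trans (Dvd.intro _ rfl)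
  have h5 : w * b = e₁ * vp G K := by
    have h6 : g * (w * b) = g * (e₁ * vp G K) := by
      calc g * (w * b) = (g * w) * b := by ring
        _ = K := by rw [← hw, hab]
        _ = (g * e₁) * vp G K := by rw [← he₁, hqv]
        _ = _ := by ring
    exact Nat.eq_of_mul_eq_mul_left hg0 h6
  refine ⟨g, w, e₁, hg0, hw0, hw.symm, he₁.symm, ?_, hcw, h5, hrg⟩
  have h6 : w ∣ e₁ * vp G K := ⟨b, h5.symm⟩
  have h7 : Nat.Coprime w e₁ := by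
    apply Nat.Coprime.coprime_dvd_right _ hcw.symm
    exact Dvd.intro_left g he₁.symm
  exact h7.dvd_of_dvd_mul_left h6

end Phase2X

open PhaseX Phase2X

/-- TF1 (Phase2.lean) -/
theorem phase_pair2 (M L J : ℕ) (_hM : 1 ≤ M) (_hJL : J ≤ L) (ψ : ℕ → ℝ → ℂ) (k : ℤ)
    (P P' : (ℕ × ℕ × ℤ) × (ℕ × ℕ)) (hP : P ∈ Par2 L J) (hP' : P' ∈ Par2 L J)
    (hG : G2 k P P' ≠ 0) (m₂ : ℕ) (hm₂ : m₂ ∈ Ioc M (2 * M + 1)) :
    ∃ (c : ℤ) (Φ : ℤ → ℂ), Int.gcd c (qp (G2 k P P') (P.1.1 * P'.1.1 * m₂)) = 1 ∧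
      (∀ m, Φ (m + (P.1.2.2.natAbs * P'.1.2.2.natAbs *
        vp (G2 k P P') (P.1.1 * P'.1.1 * m₂) : ℕ)) = Φ m) ∧
      (∀ m, ‖Φ m‖ ≤ 1) ∧
      ((Ico (0 : ℤ) (P.1.2.2.natAbs * P'.1.2.2.natAbs *
        vp (G2 k P P') (P.1.1 * P'.1.1 * m₂) : ℕ)).filter (fun r => Φ r ≠ 0)).card ≤
          vp (G2 k P P') (P.1.1 * P'.1.1 * m₂) * Nat.gcd P.1.2.2.natAbs P'.1.2.2.natAbs ∧
      ∀ m₁ ∈ Ioc M (2 * M + 1),
        (M : ℝ) < nuR P.1 m₂ m₁ → nuR P.1 m₂ m₁ ≤ 2 * M + 1 →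
        (M : ℝ) < nuR P'.1 m₂ m₁ → nuR P'.1 m₂ m₁ ≤ 2 * M + 1 →
        tm2 ψ k M P m₁ m₂ * (starRingEnd ℂ) (tm2 ψ k M P' m₁ m₂) =
          (Om2 ψ k P m₂ m₁ * (starRingEnd ℂ) (Om2 ψ k P' m₂ m₁)) * Φ m₁ *
            (if Int.gcd m₁ (qp (G2 k P P') (P.1.1 * P'.1.1 * m₂)) = 1 then
              kf c m₁ (qp (G2 k P P') (P.1.1 * P'.1.1 * m₂)) else 0) := by
  have hm₂0 : 0 < m₂ := lt_of_le_of_lt (Nat.zero_le _) (Finset.mem_Ioc.1 hm₂).1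
  obtain ⟨⟨l₁, l₂, t⟩, ⟨j₁, j₂⟩⟩ := P
  obtain ⟨⟨l₁', l₂', t'⟩, ⟨j₁', j₂'⟩⟩ := P'
  have hPar : ∀ (a₁ a₂ : ℕ) (s : ℤ), (a₁, a₂, s) ∈ Par L →
      0 < a₁ ∧ 0 < a₂ ∧ s ≠ 0 ∧ IsCoprime s (a₂ : ℤ) := by
    intro a₁ a₂ s h
    unfold Par PL at h
    simp only [Finset.mem_filter, Finset.mem_product] at h
    obtain ⟨⟨⟨-, h1⟩, ⟨-, h2⟩, -⟩, -, h3, -, h4⟩ := h
    refine ⟨h1.pos, h2.pos, h3, ?_⟩
    exact ((Int.prime_iff_natAbs_prime.2 (by simpa using h2)).coprime_iff_not_dvd.2 h4).symm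
  unfold Par2 at hP hP'
  obtain ⟨hl₁, hl₂, ht, htl⟩ := hPar l₁ l₂ t (Finset.mem_product.1 hP).1
  obtain ⟨hl₁', hl₂', ht', htl'⟩ := hPar l₁' l₂' t' (Finset.mem_product.1 hP').1
  simp only
  obtain ⟨G, hGG⟩ : ∃ G, G = G2 k ((l₁, l₂, t), (j₁, j₂)) ((l₁', l₂', t'), (j₁', j₂')) := ⟨_, rfl⟩
  rw [← hGG]
  obtain ⟨K, hKK⟩ : ∃ K, K = l₁ * l₁' * m₂ := ⟨_, rfl⟩
  rw [← hKK]
  have hK0 : 0 < K := by rw [hKK]; exact Nat.mul_pos (Nat.mul_pos hl₁ hl₁') hm₂0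
  obtain ⟨-, hq, -, hv, hqv, hcop, hqG, -⟩ := qp_facts G K hK0
  obtain ⟨q₁, w₁, e₁, hq₁, hw₁, hqw₁, hqe₁, hwv₁, hcw₁, hwe₁, hr₁⟩ :=
    parts G K (l₁ * m₂) l₁' hK0 (by rw [hKK]; ring) (Nat.mul_pos hl₁ hm₂0)
  obtain ⟨q₂, w₂, e₂, hq₂, hw₂, hqw₂, hqe₂, hwv₂, hcw₂, hwe₂, hr₂⟩ :=
    parts G K (l₁' * m₂) l₁ hK0 (by rw [hKK]; ring) (Nat.mul_pos hl₁' hm₂0)
  obtain ⟨q, hqq⟩ : ∃ q, q = qp G K := ⟨_, rfl⟩
  obtain ⟨v, hvv⟩ : ∃ v, v = vp G K := ⟨_, rfl⟩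
  rw [← hqq] at hq hqv hcop hqG hqe₁ hqe₂ hcw₁ hcw₂ hr₁ hr₂ ⊢
  rw [← hvv] at hv hqv hcop hwv₁ hwv₂ hwe₁ hwe₂ ⊢
  -- coprimality with `q`
  have hGc : IsCoprime (k * Bq2 ((l₁, l₂, t), (j₁, j₂)) ((l₁', l₂', t'), (j₁', j₂')) * t * t' *
      l₂ * l₂' : ℤ) (q : ℤ) := by
    rw [Int.isCoprime_iff_gcd_eq_one]
    rw [hGG] at hqG
    exact hqG.symm
  have g1 := hGc.of_mul_left_right
  have g2 := hGc.of_mul_left_left.of_mul_left_right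
  have g3 := hGc.of_mul_left_left.of_mul_left_left.of_mul_left_right
  have g4 := hGc.of_mul_left_left.of_mul_left_left.of_mul_left_left.of_mul_left_right
  have g5 := hGc.of_mul_left_left.of_mul_left_left.of_mul_left_left.of_mul_left_left
  have gw₁ : IsCoprime (w₁ : ℤ) (q : ℤ) := (Nat.isCoprime_iff_coprime.2 hcw₁).symm
  have gw₂ : IsCoprime (w₂ : ℤ) (q : ℤ) := (Nat.isCoprime_iff_coprime.2 hcw₂).symm
  obtain ⟨z, hz⟩ := exists_inv _ _ (g2.mul_left gw₁)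
  obtain ⟨z', hz'⟩ := exists_inv _ _ (g1.mul_left gw₂)
  have hqd₁ : (q₁ : ℤ) ∣ (q : ℤ) := ⟨e₁, by rw [← hqe₁]; push_cast; ring⟩
  have hqd₂ : (q₂ : ℤ) ∣ (q : ℤ) := ⟨e₂, by rw [← hqe₂]; push_cast; ring⟩
  have hqd₁' : q₁ ∣ q := ⟨e₁, hqe₁.symm⟩
  have hqd₂' : q₂ ∣ q := ⟨e₂, hqe₂.symm⟩
  obtain ⟨jj, hjj⟩ : ∃ jj, jj = jl ((l₁, l₂, t), (j₁, j₂)) := ⟨_, rfl⟩
  obtain ⟨jj', hjj'⟩ : ∃ jj', jj' = jl ((l₁', l₂', t'), (j₁', j₂')) := ⟨_, rfl⟩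
  refine ⟨k * jj' * (t' * z') * e₂ - k * jj * (t * z) * e₁,
    fun m => fac2 (k * jj) l₁ l₂ t m₂ q₁ w₁ m *
      (starRingEnd ℂ) (fac2 (k * jj') l₁' l₂' t' m₂ q₂ w₂ m), ?_, ?_, ?_, ?_, ?_⟩
  · rw [← Int.isCoprime_iff_gcd_eq_one]
    apply c2_coprime k jj jj' l₁ l₂ l₁' l₂' v w₁ w₂ e₁ e₂ t t' q z z' hz hz'
      (by exact_mod_cast hwe₁) (by exact_mod_cast hwe₂)
    have h6 : k * Bq2 ((l₁, l₂, t), (j₁, j₂)) ((l₁', l₂', t'), (j₁', j₂')) =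
        k * (jj * t * l₁' * l₂' - jj' * t' * l₁ * l₂) := by
      rw [hjj, hjj']
      rfl
    rw [← h6]
    exact (gw₁.mul_left gw₂).mul_left g5
  · intro m
    obtain ⟨x₁, hx₁⟩ := hwv₁
    obtain ⟨x₂, hx₂⟩ := hwv₂
    have hx₁' : (v : ℤ) = w₁ * x₁ := by exact_mod_cast hx₁
    have hx₂' : (v : ℤ) = w₂ * x₂ := by exact_mod_cast hx₂
    have e1 : m + ((t.natAbs * t'.natAbs * v : ℕ) : ℤ) =
        m + t * ((w₁ : ℤ) * (t.sign * t'.natAbs * x₁)) := by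
      have := Int.mul_sign_self t
      push_cast at this ⊢
      rw [hx₁']
      linear_combination (-(|t'| * w₁ * x₁)) * this
    have e2 : m + ((t.natAbs * t'.natAbs * v : ℕ) : ℤ) =
        m + t' * ((w₂ : ℤ) * (t'.sign * t.natAbs * x₂)) := by
      have := Int.mul_sign_self t'
      push_cast at this ⊢
      rw [hx₂']
      linear_combination (-(|t| * w₂ * x₂)) * this
    have e3 : fac2 (k * jj) l₁ l₂ t m₂ q₁ w₁ (m + ((t.natAbs * t'.natAbs * v : ℕ) : ℤ)) =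
        fac2 (k * jj) l₁ l₂ t m₂ q₁ w₁ m := by
      rw [e1]
      exact fac2_period (k * jj) l₁ l₂ t ht m₂ q₁ w₁ hw₁ m _
    have e4 : fac2 (k * jj') l₁' l₂' t' m₂ q₂ w₂ (m + ((t.natAbs * t'.natAbs * v : ℕ) : ℤ)) =
        fac2 (k * jj') l₁' l₂' t' m₂ q₂ w₂ m := by
      rw [e2]
      exact fac2_period (k * jj') l₁' l₂' t' ht' m₂ q₂ w₂ hw₂ m _
    show fac2 (k * jj) l₁ l₂ t m₂ q₁ w₁ (m + ((t.natAbs * t'.natAbs * v : ℕ) : ℤ)) *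
      (starRingEnd ℂ) (fac2 (k * jj') l₁' l₂' t' m₂ q₂ w₂
        (m + ((t.natAbs * t'.natAbs * v : ℕ) : ℤ))) = _
    rw [e3, e4]
  · intro m
    show ‖fac2 (k * jj) l₁ l₂ t m₂ q₁ w₁ m *
      (starRingEnd ℂ) (fac2 (k * jj') l₁' l₂' t' m₂ q₂ w₂ m)‖ ≤ 1
    rw [norm_mul, RCLike.norm_conj]
    exact mul_le_one₀ (fac2_norm _ _ _ _ _ _ _ _) (norm_nonneg _) (fac2_norm _ _ _ _ _ _ _ _)
  · apply count_le (Nat.lcm t.natAbs t'.natAbs) (t.natAbs * t'.natAbs * v)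
    · exact Nat.lcm_pos (Int.natAbs_pos.2 ht) (Int.natAbs_pos.2 ht')
    · have := Nat.gcd_mul_lcm t.natAbs t'.natAbs
      rw [← this]; ring
    · intro r hr
      have := (Finset.mem_filter.1 hr).1
      rw [Finset.mem_Ico] at this
      exact this
    · intro r hr r' hr'
      have n1 := (Finset.mem_filter.1 hr).2
      have n2 := (Finset.mem_filter.1 hr').2
      simp only [ne_eq, mul_eq_zero, not_or] at n1 n2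
      have key : ∀ (B : ℤ) (a₁ a₂ q w : ℕ) (s : ℤ), IsCoprime s (a₂ : ℤ) →
          fac2 B a₁ a₂ s m₂ q w r ≠ 0 →
          fac2 B a₁ a₂ s m₂ q w r' ≠ 0 → s.natAbs ∣ (r - r').natAbs := by
        intro B a₁ a₂ q w s hs h1 h2
        have d1 := fac2_dvd _ _ _ _ _ _ _ _ h1
        have d2 := fac2_dvd _ _ _ _ _ _ _ _ h2
        have d3 := dvd_sub d1 d2
        have d4 : (a₂ : ℤ) * r - a₁ * m₂ - ((a₂ : ℤ) * r' - a₁ * m₂) = a₂ * (r - r') := by ring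
        rw [d4] at d3
        exact Int.natAbs_dvd_natAbs.2 (hs.dvd_of_dvd_mul_left d3)
      rw [Int.natCast_dvd]
      apply Nat.lcm_dvd
      · exact key _ l₁ l₂ q₁ w₁ t htl n1.1 n2.1
      · refine key (k * jj') l₁' l₂' q₂ w₂ t' htl' (fun h => n1.2 ?_) (fun h => n2.2 ?_)
        · rw [h, map_zero]
        · rw [h, map_zero]
  · intro m₁ _ hn1 hn2 hn1' hn2'
    by_cases hg : Int.gcd m₁ q = 1
    · rw [if_pos hg]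
      obtain ⟨y, hy⟩ := exists_inv (m₁ : ℤ) q (Int.isCoprime_iff_gcd_eq_one.2 hg)
      rw [tm2_one M ψ k l₁ l₂ t j₁ j₂ hl₁ ht m₂ q₁ w₁ hm₂0 hq₁ hw₁ hqw₁
          (Nat.Coprime.coprime_dvd_left hqd₁' hcw₁) m₁ z y (hqd₁.trans hz) (hqd₁.trans hy) hn1 hn2,
        tm2_one M ψ k l₁' l₂' t' j₁' j₂' hl₁' ht' m₂ q₂ w₂ hm₂0 hq₂ hw₂ hqw₂
          (Nat.Coprime.coprime_dvd_left hqd₂' hcw₂) m₁ z' y (hqd₂.trans hz') (hqd₂.trans hy)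
          hn1' hn2',
        kf_inv' q hq _ _ y hy, ← hjj, ← hjj']
      rw [map_mul, map_mul, Complex.conj_conj, conj_e]
      have hqr₁ : (q : ℝ) = q₁ * e₁ := by rw [← hqe₁]; push_cast; ring
      have hqr₂ : (q : ℝ) = q₂ * e₂ := by rw [← hqe₂]; push_cast; ring
      have hq0 : (q : ℝ) ≠ 0 := by exact_mod_cast hq.ne'
      have f1 : ((t * z * y : ℤ) : ℝ) / q₁ = ((t * z * y : ℤ) : ℝ) * e₁ / q := by
        have h1 : (q₁ : ℝ) ≠ 0 := by exact_mod_cast hq₁.ne'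
        have h2 : (e₁ : ℝ) ≠ 0 := by
          intro h
          rw [h, mul_zero] at hqr₁
          exact hq0 hqr₁
        rw [hqr₁]
        field_simp
      have f2 : ((t' * z' * y : ℤ) : ℝ) / q₂ = ((t' * z' * y : ℤ) : ℝ) * e₂ / q := by
        have h1 : (q₂ : ℝ) ≠ 0 := by exact_mod_cast hq₂.ne'
        have h2 : (e₂ : ℝ) ≠ 0 := by
          intro h
          rw [h, mul_zero] at hqr₂
          exact hq0 hqr₂
        rw [hqr₂]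
        field_simp
      have e5 : e (((k * jj' * (t' * z') * e₂ - k * jj * (t * z) * e₁ : ℤ) : ℝ) *
          (y : ℝ) / q) = e (-(((k * jj : ℤ) : ℝ) * ((t * z * y : ℤ) : ℝ) / q₁)) *
          e (((k * jj' : ℤ) : ℝ) * ((t' * z' * y : ℤ) : ℝ) / q₂) := by
        rw [← e_add, mul_div_assoc ((k * jj : ℤ) : ℝ), mul_div_assoc ((k * jj' : ℤ) : ℝ), f1, f2]
        congr 1
        push_cast
        ring
      rw [e5]
      ring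
    · rw [if_neg hg, mul_zero]
      -- a common prime of `m₁` and `q`
      have hg' : ¬ Nat.Coprime m₁ q := fun h => hg h
      obtain ⟨r, hr, hrm, hrq⟩ := Nat.Prime.not_coprime_iff_dvd.1 hg'
      have hrK : r ∣ l₁ * l₁' * m₂ := by
        rw [← hKK, ← hqv]
        exact hrq.trans (Dvd.intro _ rfl)
      have key : ∀ (a₁ a₂ : ℕ) (s : ℤ), IsCoprime s (q : ℤ) → r ∣ a₁ * m₂ →
          ¬ adm M (a₁, a₂, s) m₁ m₂ := by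
        intro a₁ a₂ s hs hra hadm
        obtain ⟨hn0, hnN, hnt⟩ := nu_facts M a₁ a₂ s m₁ m₂ hadm
        obtain ⟨h1, h2, h3, h4⟩ := id hadm
        simp only at h4
        have d1 : (r : ℤ) ∣ ((nu (a₁, a₂, s) m₁ m₂ : ℕ) : ℤ) * s := by
          rw [hnt]
          apply dvd_sub
          · exact (Int.natCast_dvd_natCast.2 hrm).mul_left _
          · exact_mod_cast hra
        have d2 : IsCoprime s (r : ℤ) :=
          hs.of_isCoprime_of_dvd_right (Int.natCast_dvd_natCast.2 hrq)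
        have d3 : (r : ℤ) ∣ ((nu (a₁, a₂, s) m₁ m₂ : ℕ) : ℤ) := d2.symm.dvd_of_dvd_mul_right d1
        have d4 : r ∣ nu (a₁, a₂, s) m₁ m₂ := Int.natCast_dvd_natCast.1 d3
        have d5 := Nat.dvd_gcd d4 hra
        rw [Nat.Coprime] at h4
        rw [h4] at d5
        exact hr.one_lt.ne' (Nat.dvd_one.1 d5)
      have hor : r ∣ l₁ * m₂ ∨ r ∣ l₁' * m₂ := by
        rcases (Nat.Prime.dvd_mul hr).1 hrK with h | h
        · rcases (Nat.Prime.dvd_mul hr).1 h with h | h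
          · exact Or.inl (h.mul_right _)
          · exact Or.inr (h.mul_right _)
        · exact Or.inl (h.mul_left _)
      rcases hor with h | h
      · have h0 : tm2 ψ k M ((l₁, l₂, t), (j₁, j₂)) m₁ m₂ = 0 := by
          unfold tm2
          rw [if_neg (key l₁ l₂ t g4 h)]
        rw [h0, zero_mul]
      · have h0 : tm2 ψ k M ((l₁', l₂', t'), (j₁', j₂')) m₁ m₂ = 0 := by
          unfold tm2
          rw [if_neg (key l₁' l₂' t' g3 h)]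
        rw [h0, map_zero, mul_zero]

end Pool.Agent.H442R2.KF
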