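import Pool.Agent.H442R2.KF.Defs

namespace Pool.Agent.H442R2.KF

open Finset

namespace TaskG

/-- the decomposition of `vp` -/
theorem vp_decomp (G m : ℕ) (hG : 0 < G) (hm : 0 < m) :
    ∃ v a b : ℕ, v ∣ G ∧ vp G m = v * a ^ 2 * b ^ 3 := by
  classical
  have hj : ∀ r ∈ m.primeFactors, 1 ≤ m.factorization r := by
    intro r hr
    have h := Nat.support_factorization m
    have : r ∈ m.factorization.support := by rw [h]; exact hr
    have h2 := Finsupp.mem_support_iff.1 this
    omega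
  have hj2 : ∀ r ∈ m.primeFactors, (r ^ 2 ∣ m ↔ 2 ≤ m.factorization r) := by
    intro r hr
    have hp := Nat.prime_of_mem_primeFactors hr
    exact hp.pow_dvd_iff_le_factorization hm.ne'
  set q : ℕ := qp G m with hq
  set v : ℕ := ∏ r ∈ m.primeFactors.filter (fun r => r ∣ G ∧ ¬ r ^ 2 ∣ m), r with hv
  set a : ℕ := ∏ r ∈ m.primeFactors.filter (fun r => r ^ 2 ∣ m),
    r ^ ((m.factorization r - 3 * (m.factorization r % 2)) / 2) with ha
  set b : ℕ := ∏ r ∈ m.primeFactors.filter (fun r => r ^ 2 ∣ m),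
    r ^ (m.factorization r % 2) with hb
  have hprod : m = q * (v * a ^ 2 * b ^ 3) := by
    have h1 : m = ∏ r ∈ m.primeFactors, r ^ m.factorization r :=
      (Nat.prod_factorization_pow_eq_self hm.ne').symm
    have h2 : q * (v * a ^ 2 * b ^ 3) = ∏ r ∈ m.primeFactors,
        ((if ¬ r ∣ G ∧ ¬ r ^ 2 ∣ m then r else 1) *
          ((if r ∣ G ∧ ¬ r ^ 2 ∣ m then r else 1) *
            (if r ^ 2 ∣ m then r ^ ((m.factorization r - 3 * (m.factorization r % 2)) / 2)
              else 1) ^ 2 *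
            (if r ^ 2 ∣ m then r ^ (m.factorization r % 2) else 1) ^ 3)) := by
      rw [Finset.prod_mul_distrib, Finset.prod_mul_distrib, Finset.prod_mul_distrib,
        Finset.prod_pow, Finset.prod_pow, ← Finset.prod_filter, ← Finset.prod_filter,
        ← Finset.prod_filter, ← Finset.prod_filter, hq, qp]
    rw [h2]
    conv_lhs => rw [h1]
    apply Finset.prod_congr rfl
    intro r hr
    have e1 := hj r hr
    have e2 := hj2 r hr
    by_cases h : r ^ 2 ∣ m
    · have e3 := e2.1 h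
      simp only [h, not_true_eq_false, and_false, if_false, if_true, one_mul]
      rw [← pow_mul, ← pow_mul, ← pow_add]
      congr 1
      omega
    · have e3 : m.factorization r = 1 := by
        have : ¬ 2 ≤ m.factorization r := fun hh => h (e2.2 hh)
        omega
      by_cases hg : r ∣ G
      · simp [h, hg, e3]
      · simp [h, hg, e3]
  have hqpos : 0 < q := by
    rcases Nat.eq_zero_or_pos q with h | h
    · rw [h] at hprod; omega
    · exact h
  refine ⟨v, a, b, ?_, ?_⟩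
  · apply Finset.prod_primes_dvd
    · intro r hr
      exact (Nat.prime_of_mem_primeFactors (Finset.mem_filter.1 hr).1).prime
    · intro r hr
      exact (Finset.mem_filter.1 hr).2.1
  · unfold vp
    rw [← hq]
    conv_lhs => rw [hprod]
    rw [Nat.mul_div_cancel_left _ hqpos]

theorem vp_dvd (G m : ℕ) (hm : 0 < m) : vp G m ∣ m := by
  classical
  unfold vp
  apply Nat.div_dvd_of_dvd
  unfold qp
  apply Finset.prod_primes_dvd
  · intro r hr
    exact (Nat.prime_of_mem_primeFactors (Finset.mem_filter.1 hr).1).prime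
  · intro r hr
    exact Nat.dvd_of_mem_primeFactors (Finset.mem_filter.1 hr).1

theorem sum_b (X : ℕ) (hX : 1 ≤ X) :
    ∑ b ∈ Icc 1 X, 1 / ((b : ℝ) * Real.sqrt b) ≤ 3 - 2 / Real.sqrt X := by
  induction X, hX using Nat.le_induction with
  | base => norm_num
  | succ n hn ih =>
    rw [Finset.sum_Icc_succ_top (by omega)]
    have hn0 : (0 : ℝ) < n := by exact_mod_cast hn
    set s := Real.sqrt (n : ℝ) with hs
    set t := Real.sqrt ((n + 1 : ℕ) : ℝ) with ht
    have hs0 : 0 < s := Real.sqrt_pos.2 hn0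
    have ht0 : 0 < t := Real.sqrt_pos.2 (by positivity)
    have hst : s ≤ t := Real.sqrt_le_sqrt (by push_cast; linarith)
    have hs2 : s ^ 2 = n := Real.sq_sqrt hn0.le
    have ht2 : t ^ 2 = n + 1 := by
      rw [ht, Real.sq_sqrt (by positivity)]; push_cast; ring
    have e1 : (((n + 1 : ℕ) : ℝ)) = t ^ 2 := by rw [ht2]; push_cast; ring
    rw [e1]
    have key : 1 / (t ^ 2 * t) ≤ 2 / s - 2 / t := by
      have hd : (t - s) * (t + s) = 1 := by nlinarith
      have e2 : 2 / s - 2 / t = 2 * (t - s) / (s * t) := by field_simp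
      rw [e2, div_le_div_iff₀ (by positivity) (by positivity)]
      have e3 : 1 ≤ 2 * (t - s) * t := by nlinarith
      have e4 : s * t ≤ t ^ 2 := by nlinarith
      calc 1 * (s * t) ≤ 1 * t ^ 2 := by linarith
        _ ≤ (2 * (t - s) * t) * t ^ 2 := by
          apply mul_le_mul_of_nonneg_right e3 (by positivity)
        _ = 2 * (t - s) * (t ^ 2 * t) := by ring
    linarith

theorem sum_a (X : ℕ) : ∑ a ∈ Icc 1 X, 1 / (a : ℝ) ≤ 1 + Real.log X := by
  have h := harmonic_le_one_add_log X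
  rw [harmonic_eq_sum_Icc] at h
  push_cast at h
  simpa [one_div] using h

theorem count (X w : ℕ) (hw : 0 < w) :
    (((Icc 1 X).filter (fun m => w ∣ m)).card : ℝ) ≤ X / w := by
  have h : (Icc 1 X).filter (fun m => w ∣ m) = (Ioc 0 X).filter (fun m => w ∣ m) := by
    congr 1
  rw [h, Nat.Ioc_filter_dvd_card_eq_div]
  exact Nat.cast_div_le

end TaskG

open TaskG

/-- G (SumV.lean) -/
theorem sum_vp (X G : ℕ) (hX : 1 ≤ X) (hG : 0 < G) :
    ∑ m ∈ Icc 1 X, Real.sqrt (vp G m) ≤ 3 * X * (1 + Real.log X) * tau G := by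
  classical
  have hXr : (1 : ℝ) ≤ X := by exact_mod_cast hX
  have hlog : 0 ≤ Real.log X := Real.log_nonneg hXr
  set T : Finset (ℕ × ℕ × ℕ) := G.divisors ×ˢ Icc 1 X ×ˢ Icc 1 X with hT
  have step1 : ∀ m ∈ Icc 1 X, Real.sqrt (vp G m) ≤
      ∑ x ∈ T, if x.1 * x.2.1 ^ 2 * x.2.2 ^ 3 ∣ m then
        Real.sqrt ((x.1 * x.2.1 ^ 2 * x.2.2 ^ 3 : ℕ) : ℝ) else 0 := by
    intro m hm
    rw [mem_Icc] at hm
    obtain ⟨v, a, b, hv, hvp⟩ := vp_decomp G m hG (by omega)
    have hdvd : v * a ^ 2 * b ^ 3 ∣ m := hvp ▸ vp_dvd G m (by omega)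
    have hle : v * a ^ 2 * b ^ 3 ≤ m := Nat.le_of_dvd (by omega) hdvd
    have hpos : 0 < v * a ^ 2 * b ^ 3 := Nat.pos_of_dvd_of_pos hdvd (by omega)
    have hv0 : 0 < v := Nat.pos_of_ne_zero (by rintro rfl; simp at hpos)
    have ha0 : 0 < a := Nat.pos_of_ne_zero (by rintro rfl; simp at hpos)
    have hb0 : 0 < b := Nat.pos_of_ne_zero (by rintro rfl; simp at hpos)
    have haX : a ≤ X := by
      have h1 : a ≤ v * a ^ 2 * b ^ 3 := by
        apply Nat.le_of_dvd hpos
        exact Dvd.dvd.mul_right (Dvd.dvd.mul_left (dvd_pow_self a two_ne_zero) v) _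
      omega
    have hbX : b ≤ X := by
      have h1 : b ≤ v * a ^ 2 * b ^ 3 := by
        apply Nat.le_of_dvd hpos
        exact Dvd.dvd.mul_left (dvd_pow_self b (by norm_num)) _
      omega
    have hmem : (v, a, b) ∈ T := by
      simp only [hT, mem_product, Nat.mem_divisors, mem_Icc]
      exact ⟨⟨hv, hG.ne'⟩, ⟨ha0, haX⟩, ⟨hb0, hbX⟩⟩
    have hsingle := Finset.single_le_sum (f := fun x : ℕ × ℕ × ℕ =>
      if x.1 * x.2.1 ^ 2 * x.2.2 ^ 3 ∣ m then
        Real.sqrt ((x.1 * x.2.1 ^ 2 * x.2.2 ^ 3 : ℕ) : ℝ) else 0)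
      (fun x _ => by split_ifs <;> positivity) hmem
    simp only [hdvd, if_true] at hsingle
    rw [hvp]
    exact hsingle
  calc ∑ m ∈ Icc 1 X, Real.sqrt (vp G m)
      ≤ ∑ m ∈ Icc 1 X, ∑ x ∈ T, (if x.1 * x.2.1 ^ 2 * x.2.2 ^ 3 ∣ m then
        Real.sqrt ((x.1 * x.2.1 ^ 2 * x.2.2 ^ 3 : ℕ) : ℝ) else 0) := Finset.sum_le_sum step1
    _ = ∑ x ∈ T, ∑ m ∈ Icc 1 X, (if x.1 * x.2.1 ^ 2 * x.2.2 ^ 3 ∣ m then
        Real.sqrt ((x.1 * x.2.1 ^ 2 * x.2.2 ^ 3 : ℕ) : ℝ) else 0) := Finset.sum_comm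
    _ ≤ ∑ x ∈ T, (X : ℝ) * (1 * ((1 / (x.2.1 : ℝ)) * (1 / ((x.2.2 : ℝ) * Real.sqrt x.2.2)))) := by
        apply Finset.sum_le_sum
        intro x hx
        simp only [hT, mem_product, Nat.mem_divisors, mem_Icc] at hx
        obtain ⟨⟨hv, _⟩, ⟨ha, _⟩, ⟨hb, _⟩⟩ := hx
        have hv0 : 0 < x.1 := Nat.pos_of_dvd_of_pos hv hG
        set w : ℕ := x.1 * x.2.1 ^ 2 * x.2.2 ^ 3 with hw
        have hw0 : 0 < w := by positivity
        rw [← Finset.sum_filter, Finset.sum_const, nsmul_eq_mul]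
        have hc := count X w hw0
        have hwr : (0 : ℝ) < w := by exact_mod_cast hw0
        have hvr : (1 : ℝ) ≤ x.1 := by exact_mod_cast hv0
        have har : (1 : ℝ) ≤ x.2.1 := by exact_mod_cast ha
        have hbr : (1 : ℝ) ≤ x.2.2 := by exact_mod_cast hb
        have hsq : Real.sqrt (w : ℝ) = Real.sqrt x.1 * x.2.1 * (x.2.2 * Real.sqrt x.2.2) := by
          have e1 : (w : ℝ) = (Real.sqrt x.1 * x.2.1 * (x.2.2 * Real.sqrt x.2.2)) ^ 2 := by
            rw [mul_pow, mul_pow, mul_pow, Real.sq_sqrt (by linarith), Real.sq_sqrt (by linarith),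
              hw]
            push_cast
            ring
          rw [e1, Real.sqrt_sq (by positivity)]
        have hs1 : 1 ≤ Real.sqrt x.1 := Real.one_le_sqrt.2 hvr
        have hsb : 1 ≤ Real.sqrt x.2.2 := Real.one_le_sqrt.2 hbr
        calc (((Icc 1 X).filter (fun m => w ∣ m)).card : ℝ) * Real.sqrt w
            ≤ (X / w) * Real.sqrt w := by gcongr
          _ = X * (1 / Real.sqrt w) := by
              have : Real.sqrt w * Real.sqrt w = w := Real.mul_self_sqrt hwr.le
              have hs0 : Real.sqrt w ≠ 0 := (Real.sqrt_pos.2 hwr).ne'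
              field_simp
              rw [sq, this]
          _ ≤ X * (1 * ((1 / (x.2.1 : ℝ)) * (1 / ((x.2.2 : ℝ) * Real.sqrt x.2.2)))) := by
              apply mul_le_mul_of_nonneg_left _ (by positivity)
              rw [hsq, one_mul, one_div_mul_one_div]
              apply one_div_le_one_div_of_le (by positivity)
              calc (x.2.1 : ℝ) * (x.2.2 * Real.sqrt x.2.2)
                  = 1 * (x.2.1 : ℝ) * (x.2.2 * Real.sqrt x.2.2) := by ring
                _ ≤ Real.sqrt x.1 * x.2.1 * (x.2.2 * Real.sqrt x.2.2) := by gcongr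
    _ = X * (∑ v ∈ G.divisors, (1 : ℝ)) * (∑ a ∈ Icc 1 X, 1 / (a : ℝ)) *
          (∑ b ∈ Icc 1 X, 1 / ((b : ℝ) * Real.sqrt b)) := by
        rw [← Finset.mul_sum, hT, Finset.sum_product]
        simp only [Finset.sum_product]
        rw [mul_assoc, mul_assoc, Finset.sum_mul]
        congr 1
        apply Finset.sum_congr rfl
        intro v _
        rw [Finset.sum_mul_sum, one_mul]
        simp only [one_mul]
    _ ≤ X * tau G * (1 + Real.log X) * 3 := by
        have h1 := sum_a X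
        have h2 := sum_b X hX
        have h3 : ∑ b ∈ Icc 1 X, 1 / ((b : ℝ) * Real.sqrt b) ≤ 3 := by
          have : 0 ≤ 2 / Real.sqrt X := by positivity
          linarith
        have h4 : (∑ v ∈ G.divisors, (1 : ℝ)) = tau G := by
          simp [tau]
        rw [h4]
        have h5 : 0 ≤ tau G := by unfold tau; positivity
        have h6 : (0 : ℝ) ≤ ∑ b ∈ Icc 1 X, 1 / ((b : ℝ) * Real.sqrt b) := by positivity
        have h7 : (0 : ℝ) ≤ ∑ a ∈ Icc 1 X, 1 / (a : ℝ) := by positivity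
        gcongr
    _ = 3 * X * (1 + Real.log X) * tau G := by ring

end Pool.Agent.H442R2.KF
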