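import Pool.Agent.H442R2.KF.Defs2
import Pool.Agent.H442R2.KF.SumV

namespace Pool.Agent.H442R2.KF

open Finset

namespace TaskTG

open TaskG

/-- the decomposition of `vp`, with the information on the primes whose square divides `m` -/
theorem vp_decomp2 (G m : ℕ) (hG : 0 < G) (hm : 0 < m) :
    ∃ v a b : ℕ, v ∣ G ∧ vp G m = v * a ^ 2 * b ^ 3 ∧
      ∀ l : ℕ, l.Prime → l ^ 2 ∣ m → l ∣ a ∨ l ∣ b := by
  classical
  have hj : ∀ r ∈ m.primeFactors, 1 ≤ m.factorization r := by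
    intro r hr
    have h := Nat.support_factorization m
    have : r ∈ m.factorization.support := by rw [h]; exact hr
    have h2 := Finsupp.mem_support_iff.1 this
    omega
  have hj2 : ∀ r ∈ m.primeFactors, (r ^ 2 ∣ m ↔ 2 ≤ m.factorization r) := by
    intro r hr
    have hp := Nat.prime_of_mem_primeFactors hr
    exact hp.pow_dvd_iff_le_factorization hm.ne'
  set q : ℕ := qp G m with hq
  set v : ℕ := ∏ r ∈ m.primeFactors.filter (fun r => r ∣ G ∧ ¬ r ^ 2 ∣ m), r with hv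
  set a : ℕ := ∏ r ∈ m.primeFactors.filter (fun r => r ^ 2 ∣ m),
    r ^ ((m.factorization r - 3 * (m.factorization r % 2)) / 2) with ha
  set b : ℕ := ∏ r ∈ m.primeFactors.filter (fun r => r ^ 2 ∣ m),
    r ^ (m.factorization r % 2) with hb
  have hprod : m = q * (v * a ^ 2 * b ^ 3) := by
    have h1 : m = ∏ r ∈ m.primeFactors, r ^ m.factorization r :=
      (Nat.prod_factorization_pow_eq_self hm.ne').symm
    have h2 : q * (v * a ^ 2 * b ^ 3) = ∏ r ∈ m.primeFactors,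
        ((if ¬ r ∣ G ∧ ¬ r ^ 2 ∣ m then r else 1) *
          ((if r ∣ G ∧ ¬ r ^ 2 ∣ m then r else 1) *
            (if r ^ 2 ∣ m then r ^ ((m.factorization r - 3 * (m.factorization r % 2)) / 2)
              else 1) ^ 2 *
            (if r ^ 2 ∣ m then r ^ (m.factorization r % 2) else 1) ^ 3)) := by
      rw [Finset.prod_mul_distrib, Finset.prod_mul_distrib, Finset.prod_mul_distrib,
        Finset.prod_pow, Finset.prod_pow, ← Finset.prod_filter, ← Finset.prod_filter,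
        ← Finset.prod_filter, ← Finset.prod_filter, hq, qp]
    rw [h2]
    conv_lhs => rw [h1]
    apply Finset.prod_congr rfl
    intro r hr
    have e1 := hj r hr
    have e2 := hj2 r hr
    by_cases h : r ^ 2 ∣ m
    · have e3 := e2.1 h
      simp only [h, not_true_eq_false, and_false, if_false, if_true, one_mul]
      rw [← pow_mul, ← pow_mul, ← pow_add]
      congr 1
      omega
    · have e3 : m.factorization r = 1 := by
        have : ¬ 2 ≤ m.factorization r := fun hh => h (e2.2 hh)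
        omega
      by_cases hg : r ∣ G
      · simp [h, hg, e3]
      · simp [h, hg, e3]
  have hqpos : 0 < q := by
    rcases Nat.eq_zero_or_pos q with h | h
    · rw [h] at hprod; omega
    · exact h
  refine ⟨v, a, b, ?_, ?_, ?_⟩
  · apply Finset.prod_primes_dvd
    · intro r hr
      exact (Nat.prime_of_mem_primeFactors (Finset.mem_filter.1 hr).1).prime
    · intro r hr
      exact (Finset.mem_filter.1 hr).2.1
  · unfold vp
    rw [← hq]
    conv_lhs => rw [hprod]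
    rw [Nat.mul_div_cancel_left _ hqpos]
  · intro l hl hl2
    have hlm : l ∈ m.primeFactors :=
      Nat.mem_primeFactors.2 ⟨hl, (dvd_pow_self l two_ne_zero).trans hl2, hm.ne'⟩
    have hmem : l ∈ m.primeFactors.filter (fun r => r ^ 2 ∣ m) :=
      Finset.mem_filter.2 ⟨hlm, hl2⟩
    have hf := (hj2 l hlm).1 hl2
    rcases Nat.mod_two_eq_zero_or_one (m.factorization l) with h0 | h1
    · left
      rw [ha]
      refine dvd_trans ?_ (Finset.dvd_prod_of_mem _ hmem)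
      apply dvd_pow_self
      omega
    · right
      rw [hb]
      refine dvd_trans ?_ (Finset.dvd_prod_of_mem _ hmem)
      apply dvd_pow_self
      omega

theorem count2 (X w K : ℕ) (hw : 0 < w) (hK : 0 < K) :
    (((Icc 1 X).filter (fun m => w ∣ K * m)).card : ℝ) ≤ X * (Nat.gcd w K : ℝ) / w := by
  obtain ⟨g, hg⟩ : ∃ g, g = Nat.gcd w K := ⟨_, rfl⟩
  have hg0 : 0 < g := hg ▸ Nat.gcd_pos_of_pos_left _ hw
  obtain ⟨w', hw'⟩ : g ∣ w := hg ▸ Nat.gcd_dvd_left _ _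
  obtain ⟨K', hK'⟩ : g ∣ K := hg ▸ Nat.gcd_dvd_right _ _
  have hcop : Nat.Coprime w' K' := by
    have h1 : Nat.gcd (g * w') (g * K') = g * Nat.gcd w' K' := Nat.gcd_mul_left _ _ _
    rw [← hw', ← hK', ← hg] at h1
    have h2 : g * 1 = g * Nat.gcd w' K' := by rw [mul_one]; exact h1
    exact (Nat.eq_of_mul_eq_mul_left hg0 h2).symm
  have hw'0 : 0 < w' := by
    rcases Nat.eq_zero_or_pos w' with h | h
    · rw [h, mul_zero] at hw'; omega
    · exact h
  have hsub : (Icc 1 X).filter (fun m => w ∣ K * m) ⊆ (Icc 1 X).filter (fun m => w' ∣ m) := by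
    intro m hm
    rw [Finset.mem_filter] at hm ⊢
    refine ⟨hm.1, ?_⟩
    have h1 := hm.2
    rw [hw', hK', mul_assoc] at h1
    exact hcop.dvd_of_dvd_mul_left (Nat.dvd_of_mul_dvd_mul_left hg0 h1)
  have h1 : (((Icc 1 X).filter (fun m => w ∣ K * m)).card : ℝ) ≤
      (((Icc 1 X).filter (fun m => w' ∣ m)).card : ℝ) := by
    exact_mod_cast Finset.card_le_card hsub
  refine h1.trans ((count X w' hw'0).trans (le_of_eq ?_))
  rw [← hg]
  have hgr : (g : ℝ) ≠ 0 := by exact_mod_cast hg0.ne'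
  have hwr : (w' : ℝ) ≠ 0 := by exact_mod_cast hw'0.ne'
  rw [hw']
  push_cast
  field_simp

theorem mult_sum (F : ℕ → ℝ) (hF : ∀ n, 0 ≤ F n) (f Y : ℕ) (hf : 0 < f) :
    ∑ a ∈ Icc 1 Y, (if f ∣ a then F a else 0) ≤ ∑ c ∈ Icc 1 Y, F (f * c) := by
  classical
  rw [← Finset.sum_filter]
  have hsub : (Icc 1 Y).filter (fun a => f ∣ a) ⊆ (Icc 1 Y).image (fun c => f * c) := by
    intro a ha
    rw [Finset.mem_filter, mem_Icc] at ha
    obtain ⟨⟨h1, h2⟩, c, rfl⟩ := ha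
    rw [Finset.mem_image]
    refine ⟨c, ?_, rfl⟩
    rw [mem_Icc]
    constructor
    · rcases Nat.eq_zero_or_pos c with h | h
      · rw [h, mul_zero] at h1; omega
      · exact h
    · exact le_trans (Nat.le_mul_of_pos_left c hf) h2
  refine (Finset.sum_le_sum_of_subset_of_nonneg hsub (fun i _ _ => hF i)).trans ?_
  rw [Finset.sum_image]
  intro x _ y _ hxy
  exact Nat.eq_of_mul_eq_mul_left hf hxy

theorem sumA (f Y : ℕ) (hf : 0 < f) :
    ∑ a ∈ Icc 1 Y, (if f ∣ a then 1 / (a : ℝ) else 0) ≤ 1 / (f : ℝ) * (1 + Real.log Y) := by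
  refine (mult_sum (fun a => 1 / (a : ℝ)) (fun n => by positivity) f Y hf).trans ?_
  have h : ∑ c ∈ Icc 1 Y, 1 / ((f * c : ℕ) : ℝ) = 1 / (f : ℝ) * ∑ c ∈ Icc 1 Y, 1 / (c : ℝ) := by
    rw [Finset.mul_sum]
    apply Finset.sum_congr rfl
    intro c _
    push_cast
    rw [one_div_mul_one_div]
  rw [h]
  exact mul_le_mul_of_nonneg_left (sum_a Y) (by positivity)

theorem sumB0 (Y : ℕ) : ∑ b ∈ Icc 1 Y, 1 / ((b : ℝ) * Real.sqrt b) ≤ 3 := by
  rcases Nat.eq_zero_or_pos Y with h | h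
  · subst h; simp
  · have h1 := sum_b Y h
    have : 0 ≤ 2 / Real.sqrt Y := by positivity
    linarith

theorem sumB (f Y : ℕ) (hf : 0 < f) :
    ∑ b ∈ Icc 1 Y, (if f ∣ b then 1 / ((b : ℝ) * Real.sqrt b) else 0) ≤
      1 / ((f : ℝ) * Real.sqrt f) * 3 := by
  refine (mult_sum (fun b => 1 / ((b : ℝ) * Real.sqrt b)) (fun n => by positivity) f Y hf).trans ?_
  have h : ∑ c ∈ Icc 1 Y, 1 / (((f * c : ℕ) : ℝ) * Real.sqrt ((f * c : ℕ) : ℝ)) =
      1 / ((f : ℝ) * Real.sqrt f) * ∑ c ∈ Icc 1 Y, 1 / ((c : ℝ) * Real.sqrt c) := by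
    rw [Finset.mul_sum]
    apply Finset.sum_congr rfl
    intro c _
    push_cast
    rw [one_div_mul_one_div, Real.sqrt_mul (by positivity)]
    congr 1
    ring
  rw [h]
  exact mul_le_mul_of_nonneg_left (sumB0 Y) (by positivity)

theorem gcd_prime_cast (l n : ℕ) (hl : l.Prime) :
    (Nat.gcd n l : ℝ) = 1 + (if l ∣ n then ((l : ℝ) - 1) else 0) := by
  by_cases h : l ∣ n
  · rw [Nat.gcd_eq_right h]; simp [h]
  · have : Nat.gcd n l = 1 := (Nat.Prime.coprime_iff_not_dvd hl).2 h |>.symm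
    rw [this]; simp [h]

/-- `gcd(n, l l')` for distinct primes -/
theorem gcd_two (l l' n : ℕ) (hl : l.Prime) (hl' : l'.Prime) (hne : l ≠ l') :
    (Nat.gcd n (l * l') : ℝ) ≤ 1 + ((l : ℝ) - 1) * (if l ∣ n then 1 else 0) +
      ((l' : ℝ) - 1) * (if l' ∣ n then 1 else 0) +
      ((l : ℝ) - 1) * ((l' : ℝ) - 1) * (if l * l' ∣ n then 1 else 0) := by
  have hcop : Nat.Coprime l l' := (Nat.coprime_primes hl hl').2 hne
  have h1 : Nat.gcd n (l * l') = Nat.gcd n l * Nat.gcd n l' := hcop.gcd_mul n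
  rw [h1]
  push_cast
  rw [gcd_prime_cast l n hl, gcd_prime_cast l' n hl']
  have hl1 : (1 : ℝ) ≤ l := by exact_mod_cast hl.one_le
  have hl1' : (1 : ℝ) ≤ l' := by exact_mod_cast hl'.one_le
  by_cases h : l ∣ n
  · by_cases h' : l' ∣ n
    · have h2 : l * l' ∣ n := hcop.mul_dvd_of_dvd_of_dvd h h'
      simp only [h, h', h2, if_true]
      apply le_of_eq; ring
    · have h2 : ¬ l * l' ∣ n := fun hh => h' ((dvd_mul_left l' l).trans hh)
      simp only [h, h', h2, if_true, if_false]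
      apply le_of_eq; ring
  · have h2 : ¬ l * l' ∣ n := fun hh => h ((dvd_mul_right l l').trans hh)
    by_cases h' : l' ∣ n
    · simp only [h, h', h2, if_true, if_false]
      apply le_of_eq; ring
    · simp only [h, h', h2, if_false]
      apply le_of_eq; ring

theorem sumA_gcd (l l' Y : ℕ) (hl : l.Prime) (hl' : l'.Prime) (hne : l ≠ l') (hY : 1 ≤ Y) :
    ∑ a ∈ Icc 1 Y, (Nat.gcd a (l * l') : ℝ) * (1 / (a : ℝ)) ≤ 4 * (1 + Real.log Y) := by
  have hl1 : (1 : ℝ) ≤ l := by exact_mod_cast hl.one_le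
  have hl1' : (1 : ℝ) ≤ l' := by exact_mod_cast hl'.one_le
  have hlog : 0 ≤ Real.log Y := Real.log_nonneg (by exact_mod_cast hY)
  have h1 : ∑ a ∈ Icc 1 Y, (Nat.gcd a (l * l') : ℝ) * (1 / (a : ℝ)) ≤
      ∑ a ∈ Icc 1 Y, ((if 1 ∣ a then 1 / (a : ℝ) else 0) +
        ((l : ℝ) - 1) * (if l ∣ a then 1 / (a : ℝ) else 0) +
        ((l' : ℝ) - 1) * (if l' ∣ a then 1 / (a : ℝ) else 0) +
        ((l : ℝ) - 1) * ((l' : ℝ) - 1) * (if l * l' ∣ a then 1 / (a : ℝ) else 0)) := by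
    apply Finset.sum_le_sum
    intro a _
    have h := mul_le_mul_of_nonneg_right (gcd_two l l' a hl hl' hne)
      (by positivity : (0 : ℝ) ≤ 1 / (a : ℝ))
    refine h.trans (le_of_eq ?_)
    have h1a : 1 ∣ a := one_dvd a
    simp only [h1a, if_true]
    split_ifs <;> ring
  refine h1.trans ?_
  rw [Finset.sum_add_distrib, Finset.sum_add_distrib, Finset.sum_add_distrib,
    ← Finset.mul_sum, ← Finset.mul_sum, ← Finset.mul_sum]
  have s1 := sumA 1 Y one_pos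
  have s2 := sumA l Y hl.pos
  have s3 := sumA l' Y hl'.pos
  have s4 := sumA (l * l') Y (Nat.mul_pos hl.pos hl'.pos)
  set H := 1 + Real.log Y with hH
  have hH0 : 0 ≤ H := by positivity
  have t2 : ((l : ℝ) - 1) * ∑ a ∈ Icc 1 Y, (if l ∣ a then 1 / (a : ℝ) else 0) ≤ H := by
    calc _ ≤ ((l : ℝ) - 1) * (1 / (l : ℝ) * H) := mul_le_mul_of_nonneg_left s2 (by linarith)
      _ = H * ((l - 1) / l) := by ring
      _ ≤ H * 1 := by
          apply mul_le_mul_of_nonneg_left _ hH0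
          rw [div_le_one (by linarith)]; linarith
      _ = H := mul_one _
  have t3 : ((l' : ℝ) - 1) * ∑ a ∈ Icc 1 Y, (if l' ∣ a then 1 / (a : ℝ) else 0) ≤ H := by
    calc _ ≤ ((l' : ℝ) - 1) * (1 / (l' : ℝ) * H) := mul_le_mul_of_nonneg_left s3 (by linarith)
      _ = H * ((l' - 1) / l') := by ring
      _ ≤ H * 1 := by
          apply mul_le_mul_of_nonneg_left _ hH0
          rw [div_le_one (by linarith)]; linarith
      _ = H := mul_one _
  have t4 : ((l : ℝ) - 1) * ((l' : ℝ) - 1) *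
      ∑ a ∈ Icc 1 Y, (if l * l' ∣ a then 1 / (a : ℝ) else 0) ≤ H := by
    calc _ ≤ ((l : ℝ) - 1) * ((l' : ℝ) - 1) * (1 / ((l * l' : ℕ) : ℝ) * H) :=
          mul_le_mul_of_nonneg_left s4 (mul_nonneg (by linarith) (by linarith))
      _ = H * (((l - 1) * (l' - 1)) / (l * l')) := by push_cast; ring
      _ ≤ H * 1 := by
          apply mul_le_mul_of_nonneg_left _ hH0
          rw [div_le_one (by positivity)]; nlinarith
      _ = H := mul_one _
  have t1 : ∑ a ∈ Icc 1 Y, (if 1 ∣ a then 1 / (a : ℝ) else 0) ≤ H := by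
    refine s1.trans (le_of_eq ?_); push_cast; ring
  linarith

theorem half_bound (l : ℕ) (hl : l.Prime) :
    ((l : ℝ) - 1) * (1 / ((l : ℝ) * Real.sqrt l)) ≤ 1 / 2 := by
  have hl2 : (2 : ℝ) ≤ l := by exact_mod_cast hl.two_le
  set s := Real.sqrt (l : ℝ) with hs
  have hs0 : 0 < s := Real.sqrt_pos.2 (by linarith)
  have hs2 : s ^ 2 = l := Real.sq_sqrt (by linarith)
  rw [mul_one_div, div_le_div_iff₀ (by positivity) (by norm_num), ← hs2]
  nlinarith [sq_nonneg (s - 1), sq_nonneg (s ^ 2 - 2), mul_pos hs0 hs0,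
    mul_nonneg hs0.le (sq_nonneg (s - 1))]

theorem sumB_gcd (l l' Y : ℕ) (hl : l.Prime) (hl' : l'.Prime) (hne : l ≠ l') :
    ∑ b ∈ Icc 1 Y, (Nat.gcd b (l * l') : ℝ) * (1 / ((b : ℝ) * Real.sqrt b)) ≤ 27 / 4 := by
  have hl1 : (1 : ℝ) ≤ l := by exact_mod_cast hl.one_le
  have hl1' : (1 : ℝ) ≤ l' := by exact_mod_cast hl'.one_le
  have h1 : ∑ b ∈ Icc 1 Y, (Nat.gcd b (l * l') : ℝ) * (1 / ((b : ℝ) * Real.sqrt b)) ≤
      ∑ b ∈ Icc 1 Y, (1 / ((b : ℝ) * Real.sqrt b) +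
        ((l : ℝ) - 1) * (if l ∣ b then 1 / ((b : ℝ) * Real.sqrt b) else 0) +
        ((l' : ℝ) - 1) * (if l' ∣ b then 1 / ((b : ℝ) * Real.sqrt b) else 0) +
        ((l : ℝ) - 1) * ((l' : ℝ) - 1) *
          (if l * l' ∣ b then 1 / ((b : ℝ) * Real.sqrt b) else 0)) := by
    apply Finset.sum_le_sum
    intro b _
    have h := mul_le_mul_of_nonneg_right (gcd_two l l' b hl hl' hne)
      (by positivity : (0 : ℝ) ≤ 1 / ((b : ℝ) * Real.sqrt b))
    refine h.trans (le_of_eq ?_)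
    split_ifs <;> ring
  refine h1.trans ?_
  rw [Finset.sum_add_distrib, Finset.sum_add_distrib, Finset.sum_add_distrib,
    ← Finset.mul_sum, ← Finset.mul_sum, ← Finset.mul_sum]
  have s1 := sumB0 Y
  have s2 := sumB l Y hl.pos
  have s3 := sumB l' Y hl'.pos
  have s4 := sumB (l * l') Y (Nat.mul_pos hl.pos hl'.pos)
  have x1 := half_bound l hl
  have x2 := half_bound l' hl'
  have t2 : ((l : ℝ) - 1) * ∑ b ∈ Icc 1 Y, (if l ∣ b then 1 / ((b : ℝ) * Real.sqrt b) else 0) ≤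
      3 / 2 := by
    calc _ ≤ ((l : ℝ) - 1) * (1 / ((l : ℝ) * Real.sqrt l) * 3) :=
          mul_le_mul_of_nonneg_left s2 (by linarith)
      _ = (((l : ℝ) - 1) * (1 / ((l : ℝ) * Real.sqrt l))) * 3 := by ring
      _ ≤ 1 / 2 * 3 := by gcongr
      _ = 3 / 2 := by norm_num
  have t3 : ((l' : ℝ) - 1) *
      ∑ b ∈ Icc 1 Y, (if l' ∣ b then 1 / ((b : ℝ) * Real.sqrt b) else 0) ≤ 3 / 2 := by
    calc _ ≤ ((l' : ℝ) - 1) * (1 / ((l' : ℝ) * Real.sqrt l') * 3) :=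
          mul_le_mul_of_nonneg_left s3 (by linarith)
      _ = (((l' : ℝ) - 1) * (1 / ((l' : ℝ) * Real.sqrt l'))) * 3 := by ring
      _ ≤ 1 / 2 * 3 := by gcongr
      _ = 3 / 2 := by norm_num
  have t4 : ((l : ℝ) - 1) * ((l' : ℝ) - 1) *
      ∑ b ∈ Icc 1 Y, (if l * l' ∣ b then 1 / ((b : ℝ) * Real.sqrt b) else 0) ≤ 3 / 4 := by
    calc _ ≤ ((l : ℝ) - 1) * ((l' : ℝ) - 1) *
          (1 / (((l * l' : ℕ) : ℝ) * Real.sqrt ((l * l' : ℕ) : ℝ)) * 3) :=
          mul_le_mul_of_nonneg_left s4 (mul_nonneg (by linarith) (by linarith))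
      _ = (((l : ℝ) - 1) * (1 / ((l : ℝ) * Real.sqrt l))) *
            (((l' : ℝ) - 1) * (1 / ((l' : ℝ) * Real.sqrt l'))) * 3 := by
          push_cast
          rw [Real.sqrt_mul (by positivity)]
          field_simp
      _ ≤ 1 / 2 * (1 / 2) * 3 := by
          have y2 : 0 ≤ ((l' : ℝ) - 1) * (1 / ((l' : ℝ) * Real.sqrt l')) :=
            mul_nonneg (by linarith) (by positivity)
          gcongr
      _ = 3 / 4 := by norm_num
  linarith

theorem gcd_pow_squarefree (a K j : ℕ) (hK : Squarefree K) (hK0 : 0 < K) :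
    Nat.gcd (a ^ j) K ≤ Nat.gcd a K := by
  apply Nat.le_of_dvd (Nat.gcd_pos_of_pos_right _ hK0)
  apply Nat.dvd_gcd _ (Nat.gcd_dvd_right _ _)
  have h1 : Squarefree (Nat.gcd (a ^ j) K) := hK.squarefree_of_dvd (Nat.gcd_dvd_right _ _)
  have h2 : Nat.gcd (a ^ j) K ∣ a ^ j := Nat.gcd_dvd_left _ _
  rcases Nat.eq_zero_or_pos j with h | h
  · subst h
    rw [pow_zero] at h2 ⊢
    exact h2.trans (one_dvd a)
  · exact (h1.dvd_pow_iff_dvd h.ne').1 h2

theorem w_gcd (v a b K : ℕ) (hK : Squarefree K) (hK0 : 0 < K) :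
    Nat.gcd (v * a ^ 2 * b ^ 3) K ≤ Nat.gcd v K * Nat.gcd a K * Nat.gcd b K := by
  have h1 : Nat.gcd (v * a ^ 2 * b ^ 3) K ∣
      Nat.gcd (v * a ^ 2) K * Nat.gcd (b ^ 3) K := Nat.gcd_mul_left_dvd_mul_gcd _ _ _
  have h2 : Nat.gcd (v * a ^ 2) K ∣ Nat.gcd v K * Nat.gcd (a ^ 2) K :=
    Nat.gcd_mul_left_dvd_mul_gcd _ _ _
  have p1 : 0 < Nat.gcd v K := Nat.gcd_pos_of_pos_right _ hK0
  have p2 : 0 < Nat.gcd (a ^ 2) K := Nat.gcd_pos_of_pos_right _ hK0
  have p3 : 0 < Nat.gcd (b ^ 3) K := Nat.gcd_pos_of_pos_right _ hK0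
  have p4 : 0 < Nat.gcd (v * a ^ 2) K := Nat.gcd_pos_of_pos_right _ hK0
  calc Nat.gcd (v * a ^ 2 * b ^ 3) K ≤ Nat.gcd (v * a ^ 2) K * Nat.gcd (b ^ 3) K :=
        Nat.le_of_dvd (Nat.mul_pos p4 p3) h1
    _ ≤ (Nat.gcd v K * Nat.gcd (a ^ 2) K) * Nat.gcd (b ^ 3) K :=
        Nat.mul_le_mul_right _ (Nat.le_of_dvd (Nat.mul_pos p1 p2) h2)
    _ ≤ (Nat.gcd v K * Nat.gcd a K) * Nat.gcd b K :=
        Nat.mul_le_mul (Nat.mul_le_mul_left _ (gcd_pow_squarefree a K 2 hK hK0))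
          (gcd_pow_squarefree b K 3 hK hK0)

/-- first step: the sum over `m` becomes a sum over triples, with a condition `Q` -/
theorem step (X G K : ℕ) (hG : 0 < G) (hK : 0 < K) (Q : ℕ × ℕ × ℕ → Prop)
    [DecidablePred Q]
    (hQ : ∀ m v a b : ℕ, 1 ≤ m → (∀ l : ℕ, l.Prime → l ^ 2 ∣ K * m → l ∣ a ∨ l ∣ b) →
      Q (v, a, b)) :
    ∑ m ∈ Icc 1 X, Real.sqrt (vp G (K * m)) ≤
      ∑ x ∈ (G.divisors ×ˢ Icc 1 (K * X) ×ˢ Icc 1 (K * X)).filter Q,
        X * ((Nat.gcd (x.1 * x.2.1 ^ 2 * x.2.2 ^ 3) K : ℝ) /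
          Real.sqrt ((x.1 * x.2.1 ^ 2 * x.2.2 ^ 3 : ℕ) : ℝ)) := by
  classical
  set T : Finset (ℕ × ℕ × ℕ) := (G.divisors ×ˢ Icc 1 (K * X) ×ˢ Icc 1 (K * X)).filter Q with hT
  have step1 : ∀ m ∈ Icc 1 X, Real.sqrt (vp G (K * m)) ≤
      ∑ x ∈ T, if x.1 * x.2.1 ^ 2 * x.2.2 ^ 3 ∣ K * m then
        Real.sqrt ((x.1 * x.2.1 ^ 2 * x.2.2 ^ 3 : ℕ) : ℝ) else 0 := by
    intro m hm
    rw [mem_Icc] at hm
    have hKm : 0 < K * m := Nat.mul_pos hK (by omega)
    obtain ⟨v, a, b, hv, hvp, hab⟩ := vp_decomp2 G (K * m) hG hKm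
    have hdvd : v * a ^ 2 * b ^ 3 ∣ K * m := hvp ▸ vp_dvd G (K * m) hKm
    have hle : v * a ^ 2 * b ^ 3 ≤ K * m := Nat.le_of_dvd hKm hdvd
    have hle2 : K * m ≤ K * X := Nat.mul_le_mul_left _ hm.2
    have hpos : 0 < v * a ^ 2 * b ^ 3 := Nat.pos_of_dvd_of_pos hdvd hKm
    have hv0 : 0 < v := Nat.pos_of_ne_zero (by rintro rfl; simp at hpos)
    have ha0 : 0 < a := Nat.pos_of_ne_zero (by rintro rfl; simp at hpos)
    have hb0 : 0 < b := Nat.pos_of_ne_zero (by rintro rfl; simp at hpos)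
    have haX : a ≤ K * X := by
      have h1 : a ≤ v * a ^ 2 * b ^ 3 := by
        apply Nat.le_of_dvd hpos
        exact Dvd.dvd.mul_right (Dvd.dvd.mul_left (dvd_pow_self a two_ne_zero) v) _
      omega
    have hbX : b ≤ K * X := by
      have h1 : b ≤ v * a ^ 2 * b ^ 3 := by
        apply Nat.le_of_dvd hpos
        exact Dvd.dvd.mul_left (dvd_pow_self b (by norm_num)) _
      omega
    have hmem : (v, a, b) ∈ T := by
      simp only [hT, mem_filter, mem_product, Nat.mem_divisors, mem_Icc]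
      exact ⟨⟨⟨hv, hG.ne'⟩, ⟨ha0, haX⟩, ⟨hb0, hbX⟩⟩, hQ m v a b hm.1 hab⟩
    have hsingle := Finset.single_le_sum (f := fun x : ℕ × ℕ × ℕ =>
      if x.1 * x.2.1 ^ 2 * x.2.2 ^ 3 ∣ K * m then
        Real.sqrt ((x.1 * x.2.1 ^ 2 * x.2.2 ^ 3 : ℕ) : ℝ) else 0)
      (fun x _ => by split_ifs <;> positivity) hmem
    simp only [hdvd, if_true] at hsingle
    rw [hvp]
    exact hsingle
  calc ∑ m ∈ Icc 1 X, Real.sqrt (vp G (K * m))
      ≤ ∑ m ∈ Icc 1 X, ∑ x ∈ T, (if x.1 * x.2.1 ^ 2 * x.2.2 ^ 3 ∣ K * m then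
        Real.sqrt ((x.1 * x.2.1 ^ 2 * x.2.2 ^ 3 : ℕ) : ℝ) else 0) := Finset.sum_le_sum step1
    _ = ∑ x ∈ T, ∑ m ∈ Icc 1 X, (if x.1 * x.2.1 ^ 2 * x.2.2 ^ 3 ∣ K * m then
        Real.sqrt ((x.1 * x.2.1 ^ 2 * x.2.2 ^ 3 : ℕ) : ℝ) else 0) := Finset.sum_comm
    _ ≤ _ := by
        apply Finset.sum_le_sum
        intro x hx
        simp only [hT, mem_filter, mem_product, Nat.mem_divisors, mem_Icc] at hx
        obtain ⟨⟨⟨hv, _⟩, ⟨ha, _⟩, ⟨hb, _⟩⟩, _⟩ := hx
        have hv0 : 0 < x.1 := Nat.pos_of_dvd_of_pos hv hG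
        set w : ℕ := x.1 * x.2.1 ^ 2 * x.2.2 ^ 3 with hw
        have hw0 : 0 < w := by positivity
        rw [← Finset.sum_filter, Finset.sum_const, nsmul_eq_mul]
        have hc := count2 X w K hw0 hK
        have hwr : (0 : ℝ) < w := by exact_mod_cast hw0
        calc (((Icc 1 X).filter (fun m => w ∣ K * m)).card : ℝ) * Real.sqrt w
            ≤ (X * (Nat.gcd w K : ℝ) / w) * Real.sqrt w := by gcongr
          _ = X * ((Nat.gcd w K : ℝ) / Real.sqrt w) := by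
              have : Real.sqrt w * Real.sqrt w = w := Real.mul_self_sqrt hwr.le
              have hs0 : Real.sqrt w ≠ 0 := (Real.sqrt_pos.2 hwr).ne'
              field_simp
              rw [sq, this]

theorem sqrt_w (v a b : ℕ) : Real.sqrt ((v * a ^ 2 * b ^ 3 : ℕ) : ℝ) =
    Real.sqrt v * a * (b * Real.sqrt b) := by
  have hv : (0 : ℝ) ≤ v := Nat.cast_nonneg _
  have hb : (0 : ℝ) ≤ b := Nat.cast_nonneg _
  have e1 : ((v * a ^ 2 * b ^ 3 : ℕ) : ℝ) = (Real.sqrt v * a * (b * Real.sqrt b)) ^ 2 := by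
    rw [mul_pow, mul_pow, mul_pow, Real.sq_sqrt hv, Real.sq_sqrt hb]
    push_cast
    ring
  rw [e1, Real.sqrt_sq (by positivity)]

end TaskTG

open TaskTG TaskG

/-- TG (SumV2.lean), two distinct primes -/
theorem sum_vp2 (X G l l' : ℕ) (hX : 1 ≤ X) (hG : 0 < G) (hl : l.Prime) (hl' : l'.Prime)
    (hne : l ≠ l') :
    ∑ m ∈ Icc 1 X, Real.sqrt (vp G (l * l' * m)) ≤
      27 * X * (1 + Real.log (l * l' * X)) * tau G * Real.sqrt (Nat.gcd G (l * l')) := by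
  classical
  have hK0 : 0 < l * l' := Nat.mul_pos hl.pos hl'.pos
  have hcop : Nat.Coprime l l' := (Nat.coprime_primes hl hl').2 hne
  have hsq : Squarefree (l * l') := by
    rw [Nat.squarefree_mul hcop]
    exact ⟨hl.prime.squarefree, hl'.prime.squarefree⟩
  have hY : 1 ≤ l * l' * X := Nat.mul_pos hK0 (by omega)
  set K := l * l' with hK
  set Y := K * X with hYd
  refine (step X G K hG hK0 (fun _ => True) (fun _ _ _ _ _ _ => trivial)).trans ?_
  rw [Finset.filter_true_of_mem (fun _ _ => trivial)]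
  have hlogY : Real.log (l * l' * X) = Real.log Y := by
    rw [hYd, hK]; push_cast; rfl
  rw [hlogY]
  have hGK : 0 < Nat.gcd G K := Nat.gcd_pos_of_pos_left _ hG
  calc ∑ x ∈ G.divisors ×ˢ Icc 1 Y ×ˢ Icc 1 Y,
        (X : ℝ) * ((Nat.gcd (x.1 * x.2.1 ^ 2 * x.2.2 ^ 3) K : ℝ) /
          Real.sqrt ((x.1 * x.2.1 ^ 2 * x.2.2 ^ 3 : ℕ) : ℝ))
      ≤ ∑ x ∈ G.divisors ×ˢ Icc 1 Y ×ˢ Icc 1 Y,
        (X : ℝ) * (Real.sqrt (Nat.gcd G K) * (((Nat.gcd x.2.1 K : ℝ) * (1 / (x.2.1 : ℝ))) *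
          ((Nat.gcd x.2.2 K : ℝ) * (1 / ((x.2.2 : ℝ) * Real.sqrt x.2.2))))) := by
        apply Finset.sum_le_sum
        intro x hx
        simp only [mem_product, Nat.mem_divisors, mem_Icc] at hx
        obtain ⟨⟨hv, _⟩, ⟨ha, _⟩, ⟨hb, _⟩⟩ := hx
        have hv0 : 0 < x.1 := Nat.pos_of_dvd_of_pos hv hG
        apply mul_le_mul_of_nonneg_left _ (by positivity)
        rw [sqrt_w]
        have h1 : ((Nat.gcd (x.1 * x.2.1 ^ 2 * x.2.2 ^ 3) K : ℕ) : ℝ) ≤
            (Nat.gcd x.1 K : ℝ) * (Nat.gcd x.2.1 K : ℝ) * (Nat.gcd x.2.2 K : ℝ) := by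
          exact_mod_cast w_gcd x.1 x.2.1 x.2.2 K hsq hK0
        have hvr : (0 : ℝ) < x.1 := by exact_mod_cast hv0
        have har : (0 : ℝ) < x.2.1 := by exact_mod_cast ha
        have hbr : (0 : ℝ) < x.2.2 := by exact_mod_cast hb
        have h2 : (Nat.gcd x.1 K : ℝ) ≤ Real.sqrt (Nat.gcd G K) * Real.sqrt x.1 := by
          have e1 : (Nat.gcd x.1 K : ℝ) = Real.sqrt (Nat.gcd x.1 K) * Real.sqrt (Nat.gcd x.1 K) :=
            (Real.mul_self_sqrt (Nat.cast_nonneg _)).symm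
          rw [e1]
          have e2 : (Nat.gcd x.1 K : ℝ) ≤ Nat.gcd G K := by
            exact_mod_cast Nat.le_of_dvd hGK (Nat.gcd_dvd_gcd_of_dvd_left K hv)
          have e3 : (Nat.gcd x.1 K : ℝ) ≤ x.1 := by
            exact_mod_cast Nat.le_of_dvd hv0 (Nat.gcd_dvd_left _ _)
          exact mul_le_mul (Real.sqrt_le_sqrt e2) (Real.sqrt_le_sqrt e3) (Real.sqrt_nonneg _)
            (Real.sqrt_nonneg _)
        have hsv : 0 < Real.sqrt x.1 := Real.sqrt_pos.2 hvr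
        have hsb : 0 < Real.sqrt x.2.2 := Real.sqrt_pos.2 hbr
        rw [div_le_iff₀ (by positivity)]
        calc ((Nat.gcd (x.1 * x.2.1 ^ 2 * x.2.2 ^ 3) K : ℕ) : ℝ)
            ≤ (Nat.gcd x.1 K : ℝ) * (Nat.gcd x.2.1 K : ℝ) * (Nat.gcd x.2.2 K : ℝ) := h1
          _ ≤ (Real.sqrt (Nat.gcd G K) * Real.sqrt x.1) * (Nat.gcd x.2.1 K : ℝ) *
                (Nat.gcd x.2.2 K : ℝ) := by gcongr
          _ = _ := by field_simp
    _ = X * Real.sqrt (Nat.gcd G K) * (∑ v ∈ G.divisors, (1 : ℝ)) *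
          (∑ a ∈ Icc 1 Y, (Nat.gcd a K : ℝ) * (1 / (a : ℝ))) *
          (∑ b ∈ Icc 1 Y, (Nat.gcd b K : ℝ) * (1 / ((b : ℝ) * Real.sqrt b))) := by
        rw [← Finset.mul_sum, ← Finset.mul_sum, Finset.sum_product]
        simp only [Finset.sum_product]
        rw [← Finset.sum_mul_sum]
        rw [Finset.sum_const, Finset.sum_const]
        simp only [nsmul_eq_mul, mul_one]
        ring
    _ ≤ X * Real.sqrt (Nat.gcd G K) * tau G * (4 * (1 + Real.log Y)) * (27 / 4) := by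
        have h1 := sumA_gcd l l' Y hl hl' hne hY
        have h2 := sumB_gcd l l' Y hl hl' hne
        have h4 : (∑ v ∈ G.divisors, (1 : ℝ)) = tau G := by
          simp [tau]
        rw [h4]
        have h5 : 0 ≤ tau G := by unfold tau; positivity
        have hlog : 0 ≤ Real.log Y := Real.log_nonneg (by exact_mod_cast hY)
        have h6 : (0 : ℝ) ≤ ∑ b ∈ Icc 1 Y, (Nat.gcd b K : ℝ) * (1 / ((b : ℝ) * Real.sqrt b)) :=
          Finset.sum_nonneg (fun _ _ => by positivity)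
        have h7 : (0 : ℝ) ≤ ∑ a ∈ Icc 1 Y, (Nat.gcd a K : ℝ) * (1 / (a : ℝ)) :=
          Finset.sum_nonneg (fun _ _ => by positivity)
        gcongr
    _ = 27 * X * (1 + Real.log Y) * tau G * Real.sqrt (Nat.gcd G K) := by ring

/-- TG (SumV2.lean), the same prime -/
theorem sum_vp3 (X G l : ℕ) (hX : 1 ≤ X) (hG : 0 < G) (hl : l.Prime) :
    ∑ m ∈ Icc 1 X, Real.sqrt (vp G (l * l * m)) ≤
      27 * X * (1 + Real.log (l * l * X)) * tau G * l := by
  classical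
  have hK0 : 0 < l * l := Nat.mul_pos hl.pos hl.pos
  have hY : 1 ≤ l * l * X := Nat.mul_pos hK0 (by omega)
  set K := l * l with hK
  set Y := K * X with hYd
  have hlr : (1 : ℝ) ≤ l := by exact_mod_cast hl.one_le
  refine (step X G K hG hK0 (fun x => l ∣ x.2.1 ∨ l ∣ x.2.2) ?_).trans ?_
  · intro m v a b hm h
    apply h l hl
    rw [hK]
    exact ⟨m, by ring⟩
  have hlogY : Real.log (l * l * X) = Real.log Y := by
    rw [hYd, hK]; push_cast; rfl
  rw [hlogY]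
  have hlog : 0 ≤ Real.log Y := Real.log_nonneg (by exact_mod_cast hY)
  set H := 1 + Real.log Y with hH
  have hH0 : 0 ≤ H := by positivity
  rw [Finset.sum_filter]
  calc ∑ x ∈ G.divisors ×ˢ Icc 1 Y ×ˢ Icc 1 Y, (if l ∣ x.2.1 ∨ l ∣ x.2.2 then
        (X : ℝ) * ((Nat.gcd (x.1 * x.2.1 ^ 2 * x.2.2 ^ 3) K : ℝ) /
          Real.sqrt ((x.1 * x.2.1 ^ 2 * x.2.2 ^ 3 : ℕ) : ℝ)) else 0)
      ≤ ∑ x ∈ G.divisors ×ˢ Icc 1 Y ×ˢ Icc 1 Y,
        ((X : ℝ) * (l : ℝ) ^ 2) * ((if l ∣ x.2.1 then 1 / (x.2.1 : ℝ) else 0) *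
            (1 / ((x.2.2 : ℝ) * Real.sqrt x.2.2)) +
          (1 / (x.2.1 : ℝ)) *
            (if l ∣ x.2.2 then 1 / ((x.2.2 : ℝ) * Real.sqrt x.2.2) else 0)) := by
        apply Finset.sum_le_sum
        intro x hx
        simp only [mem_product, Nat.mem_divisors, mem_Icc] at hx
        obtain ⟨⟨hv, _⟩, ⟨ha, _⟩, ⟨hb, _⟩⟩ := hx
        have hv0 : 0 < x.1 := Nat.pos_of_dvd_of_pos hv hG
        have hvr : (1 : ℝ) ≤ x.1 := by exact_mod_cast hv0
        have har : (0 : ℝ) < x.2.1 := by exact_mod_cast ha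
        have hbr : (0 : ℝ) < x.2.2 := by exact_mod_cast hb
        have hsv : 1 ≤ Real.sqrt x.1 := Real.one_le_sqrt.2 hvr
        have hsb : 0 < Real.sqrt x.2.2 := Real.sqrt_pos.2 hbr
        have main : (X : ℝ) * ((Nat.gcd (x.1 * x.2.1 ^ 2 * x.2.2 ^ 3) K : ℝ) /
            Real.sqrt ((x.1 * x.2.1 ^ 2 * x.2.2 ^ 3 : ℕ) : ℝ)) ≤
            ((X : ℝ) * (l : ℝ) ^ 2) * (1 / (x.2.1 : ℝ) *
              (1 / ((x.2.2 : ℝ) * Real.sqrt x.2.2))) := by
          rw [sqrt_w, mul_assoc (X : ℝ)]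
          apply mul_le_mul_of_nonneg_left _ (by positivity)
          have h1 : (Nat.gcd (x.1 * x.2.1 ^ 2 * x.2.2 ^ 3) K : ℝ) ≤ (l : ℝ) ^ 2 := by
            have : Nat.gcd (x.1 * x.2.1 ^ 2 * x.2.2 ^ 3) K ≤ K :=
              Nat.le_of_dvd hK0 (Nat.gcd_dvd_right _ _)
            have h2 : ((Nat.gcd (x.1 * x.2.1 ^ 2 * x.2.2 ^ 3) K : ℕ) : ℝ) ≤ (K : ℝ) := by
              exact_mod_cast this
            refine h2.trans (le_of_eq ?_)
            rw [hK]; push_cast; ring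
          rw [div_le_iff₀ (by positivity)]
          calc (Nat.gcd (x.1 * x.2.1 ^ 2 * x.2.2 ^ 3) K : ℝ) ≤ (l : ℝ) ^ 2 * 1 := by
                rw [mul_one]; exact h1
            _ ≤ (l : ℝ) ^ 2 * Real.sqrt x.1 := by gcongr
            _ = _ := by field_simp
        have n1 : (0 : ℝ) ≤ 1 / (x.2.1 : ℝ) * (1 / ((x.2.2 : ℝ) * Real.sqrt x.2.2)) := by
          positivity
        have n2 : (0 : ℝ) ≤ (X : ℝ) * (l : ℝ) ^ 2 := by positivity
        have n3 := mul_nonneg n2 n1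
        by_cases h1 : l ∣ x.2.1
        · by_cases h2 : l ∣ x.2.2
          · simp only [h1, h2, or_self, if_true]
            linarith [main]
          · simp only [h1, h2, or_false, if_true, if_false, mul_zero, add_zero]
            exact main
        · by_cases h2 : l ∣ x.2.2
          · simp only [h1, h2, false_or, if_true, if_false, zero_mul, zero_add]
            exact main
          · simp only [h1, h2, or_self, if_false, zero_mul, mul_zero, add_zero]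
            exact le_refl _
    _ = ((X : ℝ) * (l : ℝ) ^ 2) * (∑ v ∈ G.divisors, (1 : ℝ)) *
          ((∑ a ∈ Icc 1 Y, (if l ∣ a then 1 / (a : ℝ) else 0)) *
            (∑ b ∈ Icc 1 Y, 1 / ((b : ℝ) * Real.sqrt b)) +
          (∑ a ∈ Icc 1 Y, 1 / (a : ℝ)) *
            (∑ b ∈ Icc 1 Y, (if l ∣ b then 1 / ((b : ℝ) * Real.sqrt b) else 0))) := by
        rw [← Finset.mul_sum, Finset.sum_product]
        simp only [Finset.sum_product, Finset.sum_add_distrib]
        rw [← Finset.sum_mul_sum, ← Finset.sum_mul_sum]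
        rw [Finset.sum_const, Finset.sum_const, Finset.sum_const]
        simp only [nsmul_eq_mul, mul_one]
        ring
    _ ≤ ((X : ℝ) * (l : ℝ) ^ 2) * tau G * ((1 / (l : ℝ) * H) * 3 + H * (1 / (l : ℝ) * 3)) := by
        have h1 := sumA l Y hl.pos
        have h2 := sumB0 Y
        have h3 := sum_a Y
        have h3' := sumB l Y hl.pos
        have h4 : (∑ v ∈ G.divisors, (1 : ℝ)) = tau G := by
          simp [tau]
        rw [h4]
        have h5 : 0 ≤ tau G := by unfold tau; positivity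
        have h6 : (0 : ℝ) ≤ ∑ b ∈ Icc 1 Y, 1 / ((b : ℝ) * Real.sqrt b) :=
          Finset.sum_nonneg (fun _ _ => by positivity)
        have h7 : (0 : ℝ) ≤ ∑ a ∈ Icc 1 Y, 1 / (a : ℝ) :=
          Finset.sum_nonneg (fun _ _ => by positivity)
        have h8 : (0 : ℝ) ≤ ∑ b ∈ Icc 1 Y, (if l ∣ b then 1 / ((b : ℝ) * Real.sqrt b) else 0) :=
          Finset.sum_nonneg (fun _ _ => by split_ifs <;> positivity)
        have h9 : (0 : ℝ) ≤ ∑ a ∈ Icc 1 Y, (if l ∣ a then 1 / (a : ℝ) else 0) :=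
          Finset.sum_nonneg (fun _ _ => by split_ifs <;> positivity)
        have h10 : ∑ b ∈ Icc 1 Y, (if l ∣ b then 1 / ((b : ℝ) * Real.sqrt b) else 0) ≤
            1 / (l : ℝ) * 3 := by
          refine h3'.trans ?_
          apply mul_le_mul_of_nonneg_right _ (by norm_num)
          apply one_div_le_one_div_of_le (by linarith)
          have : 1 ≤ Real.sqrt l := Real.one_le_sqrt.2 hlr
          nlinarith
        gcongr
    _ = 6 * X * H * tau G * l := by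
        have : (l : ℝ) ≠ 0 := by positivity
        field_simp
        ring
    _ ≤ 27 * X * H * tau G * l := by
        have h5 : 0 ≤ tau G := by unfold tau; positivity
        gcongr
        norm_num

end Pool.Agent.H442R2.KF
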