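import Pool.Agent.H442R2.KF.Defs2
import Pool.Agent.H442R2.KF.Pc
import Pool.Agent.H442R2.KF.Dg
import Pool.Agent.H442R2.KF.HS2
import Pool.Agent.H442R2.KF.Amp2
import Pool.Agent.H442R2.KF.Fix2
import Pool.Agent.H442R2.KF.Gw
import Pool.Agent.H442R2.KF.Bz2
import Pool.Agent.H442R2.KF.SumV2
import Pool.Agent.H442R2.KF.Cls
import Pool.Agent.H442R2.KF.Phase2
import Pool.Agent.H442R2.KF.Lip2

/-! KF project, part 2, task TK: trilinear forms with Kloosterman fractions. -/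

namespace Pool.Agent.H442R2.KF

open Finset

namespace TaskTK

/-- exchanging the sums and Cauchy-Schwarz -/
lemma cauchy (M : ℕ) (a : ℕ → ℕ → ℂ) (β : ℕ → ℂ) (hβ : ∀ n, ‖β n‖ ≤ 1) :
    ‖∑ m ∈ Ioc M (2 * M + 1), ∑ n ∈ (Ioc M (2 * M + 1)).filter (fun n => Nat.Coprime m n),
      β n * a n m‖ ^ 2 ≤ ((M : ℝ) + 1) * ∑ n ∈ Ioc M (2 * M + 1),
        ‖∑ m ∈ (Ioc M (2 * M + 1)).filter (fun m => Nat.Coprime m n), a n m‖ ^ 2 := by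
  have e1 : ∑ m ∈ Ioc M (2 * M + 1), ∑ n ∈ (Ioc M (2 * M + 1)).filter (fun n => Nat.Coprime m n),
      β n * a n m = ∑ n ∈ Ioc M (2 * M + 1),
        β n * ∑ m ∈ (Ioc M (2 * M + 1)).filter (fun m => Nat.Coprime m n), a n m := by
    simp only [Finset.sum_filter, Finset.mul_sum]
    rw [Finset.sum_comm]
    refine Finset.sum_congr rfl fun n _ => Finset.sum_congr rfl fun m _ => ?_
    split_ifs <;> simp
  rw [e1]
  have e2 : ‖∑ n ∈ Ioc M (2 * M + 1),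
        β n * ∑ m ∈ (Ioc M (2 * M + 1)).filter (fun m => Nat.Coprime m n), a n m‖ ≤
      ∑ n ∈ Ioc M (2 * M + 1),
        ‖∑ m ∈ (Ioc M (2 * M + 1)).filter (fun m => Nat.Coprime m n), a n m‖ := by
    refine (norm_sum_le _ _).trans (Finset.sum_le_sum fun n _ => ?_)
    rw [norm_mul]
    exact mul_le_of_le_one_left (norm_nonneg _) (hβ n)
  have e3 := sq_sum_le_card_mul_sum_sq (s := Ioc M (2 * M + 1))
    (f := fun n => ‖∑ m ∈ (Ioc M (2 * M + 1)).filter (fun m => Nat.Coprime m n), a n m‖)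
  have e4 : (((Ioc M (2 * M + 1)).card : ℕ) : ℝ) = (M : ℝ) + 1 := by
    rw [Nat.card_Ioc]
    have : 2 * M + 1 - M = M + 1 := by omega
    rw [this]
    push_cast
    ring
  rw [e4] at e3
  exact (pow_le_pow_left₀ (norm_nonneg _) e2 2).trans e3

/-- the numerical part -/
lemma core (M L J : ℕ) (hM : 1 ≤ M) (hL : 1 ≤ L) (hLM : (L : ℝ) ≤ M)
    (hL2 : (L : ℝ) ≤ 2 * (M : ℝ) ^ (1 / 14 : ℝ)) (hL1 : (M : ℝ) ^ (1 / 14 : ℝ) ≤ L)
    (d e c C1 C2 V p G H T : ℝ) (hd : 0 < d) (he : e = d / 6) (hc : 0 < c) (hC1 : 0 < C1)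
    (hC2 : 0 < C2) (hV : 1 ≤ V) (hp1 : 1 ≤ p) (hJ : (J : ℝ) ≤ (M : ℝ) ^ (1 / 14 - d))
    (hpc : c * (L : ℝ) ^ (1 - e) ≤ p) (hG0 : 0 ≤ G)
    (hG : G ≤ C1 * V ^ 3 * (M : ℝ) ^ (2 + e) * J)
    (hH : H ≤ C2 * (M : ℝ) ^ e * (p ^ 2 * (J : ℝ) ^ 2 * (M : ℝ) ^ 2 +
        V ^ 2 * (L : ℝ) ^ 7 * (J : ℝ) ^ 4 * (M : ℝ) ^ (3 / 2 : ℝ)))
    (hT : p ^ 2 * T ≤ 2 * (2 * M + 1) * (p * G + (M + 1) * Real.sqrt H) +
      8 * (16 : ℝ) ^ 2 * ((M : ℝ) + 1) * G) :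
    T ≤ (4102 * C1 / c + 12 * Real.sqrt C2 * (1 / c + 3 / c ^ 2)) * V ^ 3 *
      (M : ℝ) ^ (3 - d / 2) := by
  have hM1 : (1 : ℝ) ≤ M := by exact_mod_cast hM
  have hM0 : (0 : ℝ) < M := by linarith
  have hLr1 : (1 : ℝ) ≤ L := by exact_mod_cast hL
  have hL0 : (0 : ℝ) < L := by linarith
  have hJ0 : (0 : ℝ) ≤ J := Nat.cast_nonneg _
  have hp0 : 0 < p := by linarith
  have he0 : 0 < e := by rw [he]; positivity
  -- `c J ≤ M^(-d+e) p`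
  have hLe : (L : ℝ) ^ e ≤ (M : ℝ) ^ e := Real.rpow_le_rpow hL0.le hLM he0.le
  have hLsplit : (L : ℝ) = (L : ℝ) ^ (1 - e) * (L : ℝ) ^ e := by
    rw [← Real.rpow_add hL0]; simp
  have hcL : c * L ≤ p * (M : ℝ) ^ e := by
    calc c * L = c * ((L : ℝ) ^ (1 - e) * (L : ℝ) ^ e) := by rw [← hLsplit]
      _ = (c * (L : ℝ) ^ (1 - e)) * (L : ℝ) ^ e := by ring
      _ ≤ p * (M : ℝ) ^ e := mul_le_mul hpc hLe (by positivity) hp0.le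
  have hb1 : c * J ≤ p * (M : ℝ) ^ (e - d) := by
    have h1 : (J : ℝ) ≤ L * (M : ℝ) ^ (-d) := by
      refine hJ.trans ?_
      rw [sub_eq_add_neg, Real.rpow_add hM0]
      exact mul_le_mul_of_nonneg_right hL1 (by positivity)
    calc c * J ≤ c * (L * (M : ℝ) ^ (-d)) := mul_le_mul_of_nonneg_left h1 hc.le
      _ = (c * L) * (M : ℝ) ^ (-d) := by ring
      _ ≤ (p * (M : ℝ) ^ e) * (M : ℝ) ^ (-d) := mul_le_mul_of_nonneg_right hcL (by positivity)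
      _ = p * (M : ℝ) ^ (e - d) := by rw [sub_eq_add_neg, Real.rpow_add hM0]; ring
  -- the second bound
  have hb2 : c ^ 2 * ((L : ℝ) ^ (7 / 2 : ℝ) * (J : ℝ) ^ 2) ≤
      3 * (M : ℝ) ^ (1 / 4 + (2 * e - 2 * d)) * p ^ 2 := by
    have h1 : (L : ℝ) ^ (7 / 2 : ℝ) = (L : ℝ) ^ (3 / 2 : ℝ) * (L : ℝ) ^ 2 := by
      rw [← Real.rpow_natCast, ← Real.rpow_add hL0]
      norm_num
    have h2 : (L : ℝ) ^ (3 / 2 : ℝ) ≤ 3 * (M : ℝ) ^ (3 / 28 : ℝ) := by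
      calc (L : ℝ) ^ (3 / 2 : ℝ) ≤ (2 * (M : ℝ) ^ (1 / 14 : ℝ)) ^ (3 / 2 : ℝ) :=
            Real.rpow_le_rpow hL0.le hL2 (by norm_num)
        _ = (2 : ℝ) ^ (3 / 2 : ℝ) * (M : ℝ) ^ (3 / 28 : ℝ) := by
            rw [Real.mul_rpow (by norm_num) (by positivity), ← Real.rpow_mul hM0.le]
            norm_num
        _ ≤ 3 * (M : ℝ) ^ (3 / 28 : ℝ) := by
            apply mul_le_mul_of_nonneg_right _ (by positivity)
            have h3 : ((2 : ℝ) ^ (3 / 2 : ℝ)) ^ 2 = 8 := by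
              rw [← Real.rpow_natCast, ← Real.rpow_mul (by norm_num)]
              norm_num
            nlinarith [Real.rpow_pos_of_pos (by norm_num : (0 : ℝ) < 2) (3 / 2)]
    have h3 : (c * L) ^ 2 ≤ p ^ 2 * (M : ℝ) ^ (2 * e) := by
      calc (c * L) ^ 2 ≤ (p * (M : ℝ) ^ e) ^ 2 := pow_le_pow_left₀ (by positivity) hcL 2
        _ = p ^ 2 * (M : ℝ) ^ (2 * e) := by
            rw [mul_pow]
            congr 1
            rw [← Real.rpow_natCast, ← Real.rpow_mul hM0.le]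
            congr 1
            push_cast
            ring
    have h4 : (J : ℝ) ^ 2 ≤ (M : ℝ) ^ (1 / 7 - 2 * d) := by
      calc (J : ℝ) ^ 2 ≤ ((M : ℝ) ^ (1 / 14 - d)) ^ 2 := pow_le_pow_left₀ hJ0 hJ 2
        _ = (M : ℝ) ^ (1 / 7 - 2 * d) := by
            rw [← Real.rpow_natCast, ← Real.rpow_mul hM0.le]
            congr 1
            push_cast
            ring
    calc c ^ 2 * ((L : ℝ) ^ (7 / 2 : ℝ) * (J : ℝ) ^ 2)
        = (L : ℝ) ^ (3 / 2 : ℝ) * (c * L) ^ 2 * (J : ℝ) ^ 2 := by rw [h1]; ring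
      _ ≤ (3 * (M : ℝ) ^ (3 / 28 : ℝ)) * (p ^ 2 * (M : ℝ) ^ (2 * e)) * (M : ℝ) ^ (1 / 7 - 2 * d) := by
          gcongr
      _ = 3 * ((M : ℝ) ^ (3 / 28 : ℝ) * (M : ℝ) ^ (2 * e) * (M : ℝ) ^ (1 / 7 - 2 * d)) * p ^ 2 := by
          ring
      _ = 3 * (M : ℝ) ^ (1 / 4 + (2 * e - 2 * d)) * p ^ 2 := by
          rw [← Real.rpow_add hM0, ← Real.rpow_add hM0]
          congr 3
          ring
  -- the square root
  have hsq : Real.sqrt H ≤ Real.sqrt C2 * (M : ℝ) ^ (e / 2) *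
      (p * J * M + V * (L : ℝ) ^ (7 / 2 : ℝ) * (J : ℝ) ^ 2 * (M : ℝ) ^ (3 / 4 : ℝ)) := by
    apply Real.sqrt_le_iff.2
    refine ⟨by positivity, hH.trans ?_⟩
    have k1 : (M : ℝ) ^ e = ((M : ℝ) ^ (e / 2)) ^ 2 := by
      rw [← Real.rpow_natCast, ← Real.rpow_mul hM0.le]
      congr 1
      push_cast
      ring
    have k2 : (M : ℝ) ^ (3 / 2 : ℝ) = ((M : ℝ) ^ (3 / 4 : ℝ)) ^ 2 := by
      rw [← Real.rpow_natCast, ← Real.rpow_mul hM0.le]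
      norm_num
    have k3 : (L : ℝ) ^ 7 = ((L : ℝ) ^ (7 / 2 : ℝ)) ^ 2 := by
      rw [← Real.rpow_natCast, ← Real.rpow_natCast, ← Real.rpow_mul hL0.le]
      norm_num
    have k4 : C2 = Real.sqrt C2 ^ 2 := (Real.sq_sqrt hC2.le).symm
    rw [k1, k2, k3]
    nth_rewrite 1 [k4]
    set x := (M : ℝ) ^ (e / 2)
    set y := (M : ℝ) ^ (3 / 4 : ℝ)
    set z := (L : ℝ) ^ (7 / 2 : ℝ)
    have hx : 0 ≤ x := by positivity
    have hy : 0 ≤ y := by positivity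
    have hz : 0 ≤ z := by positivity
    have h5 : 0 ≤ 2 * (p * J * M) * (V * z * (J : ℝ) ^ 2 * y) := by positivity
    have h6 : (p * J * M + V * z * (J : ℝ) ^ 2 * y) ^ 2 =
        p ^ 2 * (J : ℝ) ^ 2 * (M : ℝ) ^ 2 + V ^ 2 * z ^ 2 * (J : ℝ) ^ 4 * y ^ 2 +
        2 * (p * J * M) * (V * z * (J : ℝ) ^ 2 * y) := by ring
    rw [mul_pow, mul_pow, h6]
    apply mul_le_mul_of_nonneg_left _ (by positivity)
    linarith
  -- `G / p`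
  have hGp : c * (M * G) ≤ C1 * V ^ 3 * (M : ℝ) ^ (3 - d / 2) * p := by
    have h1 : c * (M * G) ≤ C1 * V ^ 3 * ((M : ℝ) ^ (2 + e) * M) * (c * J) := by
      calc c * (M * G) ≤ c * (M * (C1 * V ^ 3 * (M : ℝ) ^ (2 + e) * J)) := by gcongr
        _ = _ := by ring
    refine h1.trans ?_
    have h2 : C1 * V ^ 3 * ((M : ℝ) ^ (2 + e) * M) * (c * J) ≤
        C1 * V ^ 3 * ((M : ℝ) ^ (2 + e) * M) * (p * (M : ℝ) ^ (e - d)) :=
      mul_le_mul_of_nonneg_left hb1 (by positivity)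
    refine h2.trans ?_
    have h3 : (M : ℝ) ^ (2 + e) * M * (M : ℝ) ^ (e - d) = (M : ℝ) ^ (3 + 2 * e - d) := by
      nth_rewrite 2 [← Real.rpow_one (M : ℝ)]
      rw [← Real.rpow_add hM0, ← Real.rpow_add hM0]
      congr 1
      ring
    have h4 : (M : ℝ) ^ (3 + 2 * e - d) ≤ (M : ℝ) ^ (3 - d / 2) := by
      apply Real.rpow_le_rpow_of_exponent_le hM1
      rw [he]
      linarith
    calc C1 * V ^ 3 * ((M : ℝ) ^ (2 + e) * M) * (p * (M : ℝ) ^ (e - d))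
        = C1 * V ^ 3 * ((M : ℝ) ^ (2 + e) * M * (M : ℝ) ^ (e - d)) * p := by ring
      _ ≤ _ := by
        rw [h3]
        gcongr
  -- `√H / p²`
  have hHp : c ^ 2 * ((M : ℝ) ^ 2 * Real.sqrt H) ≤
      Real.sqrt C2 * (c + 3) * V * (M : ℝ) ^ (3 - d / 2) * p ^ 2 := by
    have hs := Real.sqrt_nonneg C2
    have h1 : c ^ 2 * (p * J * M) ≤ c * (p ^ 2 * (M : ℝ) ^ (1 + (e - d))) := by
      calc c ^ 2 * (p * J * M) = c * p * M * (c * J) := by ring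
        _ ≤ c * p * M * (p * (M : ℝ) ^ (e - d)) := mul_le_mul_of_nonneg_left hb1 (by positivity)
        _ = c * (p ^ 2 * (M * (M : ℝ) ^ (e - d))) := by ring
        _ = _ := by
          rw [Real.rpow_add hM0, Real.rpow_one]
    have h2 : c ^ 2 * (V * (L : ℝ) ^ (7 / 2 : ℝ) * (J : ℝ) ^ 2 * (M : ℝ) ^ (3 / 4 : ℝ)) ≤
        3 * V * (p ^ 2 * (M : ℝ) ^ (1 + (2 * e - 2 * d))) := by
      calc c ^ 2 * (V * (L : ℝ) ^ (7 / 2 : ℝ) * (J : ℝ) ^ 2 * (M : ℝ) ^ (3 / 4 : ℝ))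
          = V * (M : ℝ) ^ (3 / 4 : ℝ) * (c ^ 2 * ((L : ℝ) ^ (7 / 2 : ℝ) * (J : ℝ) ^ 2)) := by ring
        _ ≤ V * (M : ℝ) ^ (3 / 4 : ℝ) * (3 * (M : ℝ) ^ (1 / 4 + (2 * e - 2 * d)) * p ^ 2) :=
            mul_le_mul_of_nonneg_left hb2 (by positivity)
        _ = 3 * V * (p ^ 2 * ((M : ℝ) ^ (3 / 4 : ℝ) * (M : ℝ) ^ (1 / 4 + (2 * e - 2 * d)))) := by ring
        _ = _ := by
          have h9 : (3 / 4 : ℝ) + (1 / 4 + (2 * e - 2 * d)) = 1 + (2 * e - 2 * d) := by ring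
          rw [← Real.rpow_add hM0, h9]
    have h3 : (M : ℝ) ^ (1 + (2 * e - 2 * d)) ≤ (M : ℝ) ^ (1 + (2 * e - d)) := by
      apply Real.rpow_le_rpow_of_exponent_le hM1
      linarith
    have h3' : (M : ℝ) ^ (1 + (e - d)) ≤ (M : ℝ) ^ (1 + (2 * e - d)) := by
      apply Real.rpow_le_rpow_of_exponent_le hM1
      linarith
    have h4 : c ^ 2 * (p * J * M + V * (L : ℝ) ^ (7 / 2 : ℝ) * (J : ℝ) ^ 2 * (M : ℝ) ^ (3 / 4 : ℝ)) ≤
        (c + 3) * V * p ^ 2 * (M : ℝ) ^ (1 + (2 * e - d)) := by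
      have h5 : c * (p ^ 2 * (M : ℝ) ^ (1 + (e - d))) ≤
          c * V * p ^ 2 * (M : ℝ) ^ (1 + (2 * e - d)) := by
        calc c * (p ^ 2 * (M : ℝ) ^ (1 + (e - d))) ≤ c * (p ^ 2 * (M : ℝ) ^ (1 + (2 * e - d))) := by
              gcongr
          _ = 1 * (c * p ^ 2 * (M : ℝ) ^ (1 + (2 * e - d))) := by ring
          _ ≤ V * (c * p ^ 2 * (M : ℝ) ^ (1 + (2 * e - d))) :=
              mul_le_mul_of_nonneg_right hV (by positivity)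
          _ = _ := by ring
      have h6 : 3 * V * (p ^ 2 * (M : ℝ) ^ (1 + (2 * e - 2 * d))) ≤
          3 * V * p ^ 2 * (M : ℝ) ^ (1 + (2 * e - d)) := by
        calc 3 * V * (p ^ 2 * (M : ℝ) ^ (1 + (2 * e - 2 * d))) ≤
              3 * V * (p ^ 2 * (M : ℝ) ^ (1 + (2 * e - d))) := by gcongr
          _ = _ := by ring
      calc _ = c ^ 2 * (p * J * M) +
            c ^ 2 * (V * (L : ℝ) ^ (7 / 2 : ℝ) * (J : ℝ) ^ 2 * (M : ℝ) ^ (3 / 4 : ℝ)) := by ring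
        _ ≤ c * V * p ^ 2 * (M : ℝ) ^ (1 + (2 * e - d)) +
            3 * V * p ^ 2 * (M : ℝ) ^ (1 + (2 * e - d)) := add_le_add (h1.trans h5) (h2.trans h6)
        _ = _ := by ring
    calc c ^ 2 * ((M : ℝ) ^ 2 * Real.sqrt H)
        ≤ c ^ 2 * ((M : ℝ) ^ 2 * (Real.sqrt C2 * (M : ℝ) ^ (e / 2) *
          (p * J * M + V * (L : ℝ) ^ (7 / 2 : ℝ) * (J : ℝ) ^ 2 * (M : ℝ) ^ (3 / 4 : ℝ)))) := by
          gcongr
      _ = (M : ℝ) ^ 2 * Real.sqrt C2 * (M : ℝ) ^ (e / 2) * (c ^ 2 *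
          (p * J * M + V * (L : ℝ) ^ (7 / 2 : ℝ) * (J : ℝ) ^ 2 * (M : ℝ) ^ (3 / 4 : ℝ))) := by ring
      _ ≤ (M : ℝ) ^ 2 * Real.sqrt C2 * (M : ℝ) ^ (e / 2) *
          ((c + 3) * V * p ^ 2 * (M : ℝ) ^ (1 + (2 * e - d))) :=
          mul_le_mul_of_nonneg_left h4 (by positivity)
      _ = Real.sqrt C2 * (c + 3) * V * ((M : ℝ) ^ 2 * (M : ℝ) ^ (e / 2) *
          (M : ℝ) ^ (1 + (2 * e - d))) * p ^ 2 := by ring
      _ ≤ Real.sqrt C2 * (c + 3) * V * (M : ℝ) ^ (3 - d / 2) * p ^ 2 := by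
          have h7 : (M : ℝ) ^ 2 * (M : ℝ) ^ (e / 2) * (M : ℝ) ^ (1 + (2 * e - d)) ≤
              (M : ℝ) ^ (3 - d / 2) := by
            rw [← Real.rpow_natCast, ← Real.rpow_add hM0, ← Real.rpow_add hM0]
            apply Real.rpow_le_rpow_of_exponent_le hM1
            rw [he]
            push_cast
            linarith
          gcongr
  -- the end
  set Z := (M : ℝ) ^ (3 - d / 2) with hZ
  have hZ0 : 0 ≤ Z := by positivity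
  have hsH := Real.sqrt_nonneg H
  have hfin : p ^ 2 * T ≤ 4102 * (M * G) * p + 12 * ((M : ℝ) ^ 2 * Real.sqrt H) := by
    refine hT.trans ?_
    have h1 : 2 * (2 * (M : ℝ) + 1) * (p * G + (M + 1) * Real.sqrt H) ≤
        6 * M * (p * G + 2 * M * Real.sqrt H) := by
      have : 2 * (2 * (M : ℝ) + 1) ≤ 6 * M := by linarith
      have h2 : p * G + ((M : ℝ) + 1) * Real.sqrt H ≤ p * G + 2 * M * Real.sqrt H := by
        nlinarith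
      exact mul_le_mul this h2 (by positivity) (by positivity)
    have h2 : 8 * (16 : ℝ) ^ 2 * ((M : ℝ) + 1) * G ≤ 4096 * (M * G) * p := by
      have h3 : ((M : ℝ) + 1) * G ≤ 2 * (M * G) * p := by
        have h4 : ((M : ℝ) + 1) * G ≤ 2 * (M * G) := by nlinarith
        have h5 : 2 * (M * G) * 1 ≤ 2 * (M * G) * p :=
          mul_le_mul_of_nonneg_left hp1 (by positivity)
        linarith
      linarith
    nlinarith
  have hc2 : 0 < c ^ 2 := by positivity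
  have hfin2 : c ^ 2 * (p ^ 2 * T) ≤
      (4102 * C1 * c + 12 * Real.sqrt C2 * (c + 3)) * V ^ 3 * Z * p ^ 2 := by
    have hs := Real.sqrt_nonneg C2
    have hV3 : V ≤ V ^ 3 := by nlinarith [mul_nonneg (by linarith : (0:ℝ) ≤ V) (by nlinarith : (0:ℝ) ≤ V ^ 2 - 1)]
    have h1 : c ^ 2 * (4102 * (M * G) * p) ≤ 4102 * C1 * c * V ^ 3 * Z * p ^ 2 := by
      calc c ^ 2 * (4102 * (M * G) * p) = 4102 * c * p * (c * (M * G)) := by ring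
        _ ≤ 4102 * c * p * (C1 * V ^ 3 * Z * p) := mul_le_mul_of_nonneg_left hGp (by positivity)
        _ = _ := by ring
    have h2 : c ^ 2 * (12 * ((M : ℝ) ^ 2 * Real.sqrt H)) ≤
        12 * Real.sqrt C2 * (c + 3) * V ^ 3 * Z * p ^ 2 := by
      calc c ^ 2 * (12 * ((M : ℝ) ^ 2 * Real.sqrt H)) = 12 * (c ^ 2 * ((M : ℝ) ^ 2 * Real.sqrt H)) := by
            ring
        _ ≤ 12 * (Real.sqrt C2 * (c + 3) * V * Z * p ^ 2) := by linarith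
        _ ≤ 12 * (Real.sqrt C2 * (c + 3) * V ^ 3 * Z * p ^ 2) := by gcongr
        _ = _ := by ring
    calc c ^ 2 * (p ^ 2 * T) ≤ c ^ 2 * (4102 * (M * G) * p + 12 * ((M : ℝ) ^ 2 * Real.sqrt H)) :=
          mul_le_mul_of_nonneg_left hfin hc2.le
      _ = c ^ 2 * (4102 * (M * G) * p) + c ^ 2 * (12 * ((M : ℝ) ^ 2 * Real.sqrt H)) := by ring
      _ ≤ 4102 * C1 * c * V ^ 3 * Z * p ^ 2 + 12 * Real.sqrt C2 * (c + 3) * V ^ 3 * Z * p ^ 2 :=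
          add_le_add h1 h2
      _ = _ := by ring
  have hfin3 : (c ^ 2 * p ^ 2) * T ≤ (c ^ 2 * p ^ 2) *
      ((4102 * C1 / c + 12 * Real.sqrt C2 * (1 / c + 3 / c ^ 2)) * V ^ 3 * Z) := by
    calc (c ^ 2 * p ^ 2) * T = c ^ 2 * (p ^ 2 * T) := by ring
      _ ≤ _ := hfin2
      _ = _ := by field_simp
  exact le_of_mul_le_mul_left hfin3 (by positivity)

end TaskTK

/-- TF with all hypotheses discharged -/
theorem fixed2 (M L J : ℕ) (hM : 1 ≤ M) (hLM : L ≤ M) (hJL : J ≤ L) (V : ℝ) (hV : 1 ≤ V)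
    (ψ : ℕ → ℝ → ℂ) (hψ : ∀ j, Wei M V (ψ j)) (k : ℤ) (hk : |(k : ℝ)| * J ≤ V * (M : ℝ) ^ 2)
    (P P' : (ℕ × ℕ × ℤ) × (ℕ × ℕ)) (hP : P ∈ Par2 L J) (hP' : P' ∈ Par2 L J)
    (hG : G2 k P P' ≠ 0) (m₂ : ℕ) (hm₂ : m₂ ∈ Ioc M (2 * M + 1)) :
    ‖∑ m₁ ∈ Ioc M (2 * M + 1), tm2 ψ k M P m₁ m₂ * (starRingEnd ℂ) (tm2 ψ k M P' m₁ m₂)‖ ≤
      10000 * V * L * Nat.gcd P.1.2.2.natAbs P'.1.2.2.natAbs *
        Real.sqrt (vp (G2 k P P') (P.1.1 * P'.1.1 * m₂)) * Real.sqrt M * tau m₂ *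
          (1 + Real.log M) :=
  fixed2_of phase_pair2 class_sum Om2_norm Om2_lip M L J hM hLM hJL V hV ψ hψ k hk P P' hP hP'
    hG m₂ hm₂

/-- TI with all hypotheses discharged -/
theorem HS2 (ε : ℝ) (hε : 0 < ε) : ∃ C : ℝ, 0 < C ∧ ∀ (M L J : ℕ), 1 ≤ M → 1 ≤ L → L ≤ M →
    1 ≤ J → J ≤ L → ∀ V : ℝ, 1 ≤ V → ∀ ψ : ℕ → ℝ → ℂ, (∀ j, Wei M V (ψ j)) →
    ∀ k : ℤ, k ≠ 0 → |(k : ℝ)| * J ≤ V * (M : ℝ) ^ 2 →
    ∑ m₁ ∈ Ioc M (2 * M + 1), ∑ m₂ ∈ Ioc M (2 * M + 1), ‖Ker2 ψ k M L J m₁ m₂‖ ^ 2 ≤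
      C * (M : ℝ) ^ ε * (((PL L).card : ℝ) ^ 2 * (J : ℝ) ^ 2 * (M : ℝ) ^ 2 +
        V ^ 2 * (L : ℝ) ^ 7 * (J : ℝ) ^ 4 * (M : ℝ) ^ (3 / 2 : ℝ)) :=
  HS2_of fixed2 sum_vp2 sum_vp3 jl_ne_zero Bq2_zero_count gw ε hε

/-- TK (Tri.lean): trilinear forms with Kloosterman fractions -/
theorem tri (δ : ℝ) (hδ : 0 < δ) : ∃ (η C : ℝ), 0 < η ∧ 0 < C ∧ ∀ (M J : ℕ), 1 ≤ M → 1 ≤ J →
    (J : ℝ) ≤ (M : ℝ) ^ (1 / 14 - δ) →
    ∀ V : ℝ, 1 ≤ V → ∀ ψ : ℕ → ℝ → ℂ, (∀ j, Wei M V (ψ j)) →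
    ∀ k : ℤ, k ≠ 0 → |(k : ℝ)| * J ≤ V * (M : ℝ) ^ 2 →
    ∀ α β : ℕ → ℂ, (∀ m, ‖α m‖ ≤ 1) → (∀ n, ‖β n‖ ≤ 1) →
    ‖∑ m ∈ Ioc M (2 * M + 1), ∑ n ∈ (Ioc M (2 * M + 1)).filter (fun n => Nat.Coprime m n),
      α m * β n * FF ψ k J n m‖ ≤ C * V ^ 2 * (M : ℝ) ^ (2 - η) := by
  obtain ⟨C1, hC1, hDG⟩ := DG_le (δ / 6) (by positivity)
  obtain ⟨C2, hC2, hHS⟩ := HS2 (δ / 6) (by positivity)
  obtain ⟨c, hc, hP⟩ := primes_dyadic (δ / 6) (by positivity)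
  set K : ℝ := 4102 * C1 / c + 12 * Real.sqrt C2 * (1 / c + 3 / c ^ 2) with hK
  have hs2 : 0 < Real.sqrt C2 := Real.sqrt_pos.2 hC2
  have hK0 : 0 < K := by positivity
  refine ⟨δ / 4, Real.sqrt (2 * K), by positivity, Real.sqrt_pos.2 (by positivity), ?_⟩
  intro M J hM hJ1 hJ V hV ψ hψ k hk hkJ α β hα hβ
  have hM1 : (1 : ℝ) ≤ M := by exact_mod_cast hM
  have hM0 : (0 : ℝ) < M := by linarith
  -- the length of the amplifier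
  set L : ℕ := ⌈(M : ℝ) ^ (1 / 14 : ℝ)⌉₊ with hLdef
  have hMp1 : 1 ≤ (M : ℝ) ^ (1 / 14 : ℝ) := Real.one_le_rpow hM1 (by norm_num)
  have hL1 : (M : ℝ) ^ (1 / 14 : ℝ) ≤ L := Nat.le_ceil _
  have hL : 1 ≤ L := by
    have : (1 : ℝ) ≤ L := hMp1.trans hL1
    exact_mod_cast this
  have hLM : L ≤ M := by
    apply Nat.ceil_le.2
    calc (M : ℝ) ^ (1 / 14 : ℝ) ≤ (M : ℝ) ^ (1 : ℝ) :=
          Real.rpow_le_rpow_of_exponent_le hM1 (by norm_num)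
      _ = M := Real.rpow_one _
  have hL2 : (L : ℝ) ≤ 2 * (M : ℝ) ^ (1 / 14 : ℝ) := by
    have := Nat.ceil_lt_add_one (by positivity : 0 ≤ (M : ℝ) ^ (1 / 14 : ℝ))
    linarith
  have hJL : J ≤ L := by
    have : (J : ℝ) ≤ L := by
      refine hJ.trans (le_trans ?_ hL1)
      exact Real.rpow_le_rpow_of_exponent_le hM1 (by linarith)
    exact_mod_cast this
  have hκ : 2 * M + 1 < (L + 1) ^ 16 := by
    have h1 : (M : ℝ) < ((L : ℝ) + 1) ^ 14 := by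
      calc (M : ℝ) = ((M : ℝ) ^ (1 / 14 : ℝ)) ^ 14 := by
            rw [← Real.rpow_natCast, ← Real.rpow_mul hM0.le]
            norm_num
        _ < ((L : ℝ) + 1) ^ 14 := by
            apply pow_lt_pow_left₀ _ (by positivity) (by norm_num)
            linarith
    have h2 : M < (L + 1) ^ 14 := by exact_mod_cast h1
    have h3 : 4 ≤ (L + 1) ^ 2 := by nlinarith
    calc 2 * M + 1 < M * 4 + 1 := by omega
      _ ≤ (L + 1) ^ 14 * 4 := by omega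
      _ ≤ (L + 1) ^ 14 * (L + 1) ^ 2 := Nat.mul_le_mul_left _ h3
      _ = (L + 1) ^ 16 := by ring
  set p : ℝ := ((PL L).card : ℝ) with hp
  have hpc := hP L hL
  have hp0 : 0 < p := by
    have : 0 < c * (L : ℝ) ^ (1 - δ / 6) := by
      have : (0 : ℝ) < L := by exact_mod_cast hL
      positivity
    linarith
  have hp1 : 1 ≤ p := by
    rw [hp] at hp0 ⊢
    have : 0 < (PL L).card := by exact_mod_cast hp0
    exact_mod_cast this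
  have hG0 : 0 ≤ DG ψ k M J := by
    unfold DG
    positivity
  have hcore := TaskTK.core M L J hM hL (by exact_mod_cast hLM) hL2 hL1 δ (δ / 6) c C1 C2 V p
    (DG ψ k M J) (∑ m₁ ∈ Ioc M (2 * M + 1), ∑ m₂ ∈ Ioc M (2 * M + 1), ‖Ker2 ψ k M L J m₁ m₂‖ ^ 2)
    (∑ n ∈ Ioc M (2 * M + 1),
        ‖∑ m ∈ (Ioc M (2 * M + 1)).filter (fun m => Nat.Coprime m n), α m * FF ψ k J n m‖ ^ 2)
    hδ rfl hc hC1 hC2 hV hp1 hJ hpc hG0
    (hDG M J hM hJ1 (hJL.trans hLM) V hV ψ hψ k hk hkJ)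
    (hHS M L J hM hL hLM hJ1 hJL V hV ψ hψ k hk hkJ)
    (by
      have := ampl2 M L J 16 hM hL hκ V ψ hψ k α hα
      rw [Nat.cast_ofNat] at this
      exact this)
  rw [← hK] at hcore
  have hcs := TaskTK.cauchy M (fun n m => α m * FF ψ k J n m) β hβ
  have e1 : ∑ m ∈ Ioc M (2 * M + 1), ∑ n ∈ (Ioc M (2 * M + 1)).filter (fun n => Nat.Coprime m n),
      α m * β n * FF ψ k J n m = ∑ m ∈ Ioc M (2 * M + 1),
      ∑ n ∈ (Ioc M (2 * M + 1)).filter (fun n => Nat.Coprime m n), β n * (α m * FF ψ k J n m) := by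
    refine Finset.sum_congr rfl fun m _ => Finset.sum_congr rfl fun n _ => ?_
    ring
  rw [e1]
  have h1 : ‖∑ m ∈ Ioc M (2 * M + 1), ∑ n ∈ (Ioc M (2 * M + 1)).filter (fun n => Nat.Coprime m n),
      β n * (α m * FF ψ k J n m)‖ ^ 2 ≤ (Real.sqrt (2 * K) * V ^ 2 * (M : ℝ) ^ (2 - δ / 4)) ^ 2 := by
    refine hcs.trans ?_
    have h2 : ((M : ℝ) + 1) ≤ 2 * M := by linarith
    have h3 : (Real.sqrt (2 * K) * V ^ 2 * (M : ℝ) ^ (2 - δ / 4)) ^ 2 =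
        2 * K * V ^ 4 * (M * (M : ℝ) ^ (3 - δ / 2)) := by
      rw [mul_pow, mul_pow, Real.sq_sqrt (by positivity)]
      have h4 : ((M : ℝ) ^ (2 - δ / 4)) ^ 2 = M * (M : ℝ) ^ (3 - δ / 2) := by
        nth_rewrite 2 [← Real.rpow_one (M : ℝ)]
        rw [← Real.rpow_natCast, ← Real.rpow_mul hM0.le, ← Real.rpow_add hM0]
        congr 1
        push_cast
        ring
      rw [h4]
      ring
    rw [h3]
    have hV4 : V ^ 3 ≤ V ^ 4 := pow_le_pow_right₀ hV (by norm_num)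
    calc _ ≤ (2 * (M : ℝ)) * (K * V ^ 3 * (M : ℝ) ^ (3 - δ / 2)) :=
          mul_le_mul h2 hcore (by positivity) (by positivity)
      _ = 2 * K * V ^ 3 * (M * (M : ℝ) ^ (3 - δ / 2)) := by ring
      _ ≤ 2 * K * V ^ 4 * (M * (M : ℝ) ^ (3 - δ / 2)) := by gcongr
  exact (pow_le_pow_iff_left₀ (norm_nonneg _) (by positivity) (by norm_num)).1 h1

end Pool.Agent.H442R2.KF
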