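import Pool.Agent.H442R2.KF.Defs

/-!
KF project, task M2 (helper57): one frequency of the correlation sums, from the bound for
bilinear forms with Kloosterman fractions.
-/

namespace Pool.Agent.H442R2.KF

open Finset

namespace TaskM2

/-- the statement of `dfi` -/
def DFI : Prop := ∀ (ε : ℝ) (_ : 0 < ε), ∃ C : ℝ, 0 < C ∧ ∀ (M : ℕ), 1 ≤ M →
    ∀ (V : ℝ), 1 ≤ V → ∀ ψ : ℝ → ℂ, Wei M V ψ → ∀ b : ℤ, b ≠ 0 → |(b : ℝ)| ≤ V * (M : ℝ) ^ 2 →
    ∀ α β : ℕ → ℂ, (∀ m, ‖α m‖ ≤ 1) → (∀ n, ‖β n‖ ≤ 1) →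
    ‖∑ m ∈ Ioc M (2 * M + 1), ∑ n ∈ (Ioc M (2 * M + 1)).filter (fun n => Nat.Coprime m n),
      α m * β n * ψ ((m : ℝ) * n) * kf b m n‖ ≤ C * V * (M : ℝ) ^ (47 / 24 + ε : ℝ)

theorem prod_diff {a b c a' b' c' : ℂ} (hb : ‖b‖ ≤ 1) (hb' : ‖b'‖ ≤ 1)
    (ha' : ‖a'‖ ≤ 1) (hc : ‖c‖ ≤ 1) :
    ‖a * b * c - a' * b' * c'‖ ≤ ‖a - a'‖ + ‖b - b'‖ + ‖c - c'‖ := by
  have e1 : a * b * c - a' * b' * c' = (a - a') * (b * c) + a' * (b - b') * c +
      a' * b' * (c - c') := by ring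
  rw [e1]
  refine (norm_add₃_le).trans ?_
  rw [norm_mul, norm_mul, norm_mul, norm_mul, norm_mul, norm_mul]
  have n1 := norm_nonneg (a - a')
  have n2 := norm_nonneg (b - b')
  have n3 := norm_nonneg (c - c')
  have m1 : ‖b‖ * ‖c‖ ≤ 1 := mul_le_one₀ hb (norm_nonneg _) hc
  have m2 : ‖a'‖ * ‖c‖ ≤ 1 := mul_le_one₀ ha' (norm_nonneg _) hc
  have m3 : ‖a'‖ * ‖b'‖ ≤ 1 := mul_le_one₀ ha' (norm_nonneg _) hb'
  have k1 : ‖a - a'‖ * (‖b‖ * ‖c‖) ≤ ‖a - a'‖ := by nlinarith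
  have k2 : ‖a'‖ * ‖b - b'‖ * ‖c‖ ≤ ‖b - b'‖ := by
    have : ‖a'‖ * ‖b - b'‖ * ‖c‖ = ‖b - b'‖ * (‖a'‖ * ‖c‖) := by ring
    rw [this]; nlinarith
  have k3 : ‖a'‖ * ‖b'‖ * ‖c - c'‖ ≤ ‖c - c'‖ := by nlinarith
  linarith

/-- the Gaussian factor -/
theorem gauss_lip (A K s s' : ℝ) (hK : 0 < K) (hs : K ≤ s) (hs' : s ≤ s') :
    |Real.exp (-Real.pi * (A / s) ^ 2) - Real.exp (-Real.pi * (A / s') ^ 2)| ≤
      3 * (s' - s) / K := by
  have hs0 : 0 < s := lt_of_lt_of_le hK hs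
  have hs0' : 0 < s' := lt_of_lt_of_le hs0 hs'
  set u := Real.pi * (A / s) ^ 2 with hu
  set u' := Real.pi * (A / s') ^ 2 with hu'
  have hu0 : 0 ≤ u := by positivity
  have hu0' : 0 ≤ u' := by positivity
  have e1 : -Real.pi * (A / s) ^ 2 = -u := by rw [hu]; ring
  have e2 : -Real.pi * (A / s') ^ 2 = -u' := by rw [hu']; ring
  rw [e1, e2]
  have b1 : Real.exp (-u) ≤ 1 := Real.exp_le_one_iff.2 (by linarith)
  have b2 : Real.exp (-u') ≤ 1 := Real.exp_le_one_iff.2 (by linarith)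
  have p1 := Real.exp_pos (-u)
  have p2 := Real.exp_pos (-u')
  have hle : 1 * (s' - s) / s ≤ (s' - s) / K := by
    rw [one_mul]
    exact div_le_div_of_nonneg_left (by linarith) hK hs
  by_cases h2 : 2 * s ≤ s'
  · have : (1 : ℝ) ≤ 3 * (s' - s) / K := by
      rw [le_div_iff₀ hK]; linarith
    rw [abs_le]
    constructor <;> linarith
  · push Not at h2
    have key : u = u' * (s' / s) ^ 2 := by
      rw [hu, hu']; field_simp
    have hr : 1 ≤ s' / s := by rw [le_div_iff₀ hs0]; linarith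
    have huu : u' ≤ u := by
      rw [key]
      have : (1 : ℝ) ≤ (s' / s) ^ 2 := one_le_pow₀ hr
      nlinarith
    have hd : u - u' ≤ u' * (3 * (s' - s) / s) := by
      rw [key]
      have : (s' / s) ^ 2 - 1 ≤ 3 * (s' - s) / s := by
        have : (s' / s) ^ 2 - 1 = (s' + s) / s * ((s' - s) / s) := by field_simp; ring
        rw [this]
        have h3 : (s' + s) / s ≤ 3 := by rw [div_le_iff₀ hs0]; linarith
        have h4 : 0 ≤ (s' - s) / s := div_nonneg (by linarith) hs0.le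
        have : 3 * (s' - s) / s = 3 * ((s' - s) / s) := by ring
        rw [this]
        exact mul_le_mul_of_nonneg_right h3 h4
      nlinarith
    have h1 : Real.exp (-u') - Real.exp (-u) ≤ Real.exp (-u') * (u - u') := by
      have h5 : Real.exp (-u) = Real.exp (-u') * Real.exp (-(u - u')) := by
        rw [← Real.exp_add]; congr 1; ring
      have h6 : 1 - Real.exp (-(u - u')) ≤ u - u' := by
        have := Real.add_one_le_exp (-(u - u'))
        linarith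
      calc Real.exp (-u') - Real.exp (-u) = Real.exp (-u') * (1 - Real.exp (-(u - u'))) := by
            rw [h5]; ring
        _ ≤ _ := mul_le_mul_of_nonneg_left h6 p2.le
    have h7 : Real.exp (-u') * u' ≤ 1 := by
      have h8 : u' ≤ Real.exp u' := by have := Real.add_one_le_exp u'; linarith
      calc Real.exp (-u') * u' ≤ Real.exp (-u') * Real.exp u' :=
            mul_le_mul_of_nonneg_left h8 p2.le
        _ = 1 := by rw [← Real.exp_add]; simp
    have h9 : 0 ≤ 3 * (s' - s) / s := div_nonneg (by linarith) hs0.le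
    have h10 : Real.exp (-u') - Real.exp (-u) ≤ 3 * (s' - s) / s := by
      calc Real.exp (-u') - Real.exp (-u) ≤ Real.exp (-u') * (u - u') := h1
        _ ≤ Real.exp (-u') * (u' * (3 * (s' - s) / s)) := mul_le_mul_of_nonneg_left hd p2.le
        _ = (Real.exp (-u') * u') * (3 * (s' - s) / s) := by ring
        _ ≤ 1 * (3 * (s' - s) / s) := mul_le_mul_of_nonneg_right h7 h9
        _ = _ := one_mul _
    have h11 : Real.exp (-u) ≤ Real.exp (-u') := Real.exp_le_exp.2 (by linarith)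
    have h12 : 3 * (s' - s) / s ≤ 3 * (s' - s) / K :=
      div_le_div_of_nonneg_left (by linarith) hK hs
    rw [abs_le]
    constructor <;> linarith

theorem gauss_lip' (A K s s' : ℝ) (hK : 0 < K) (hs : K ≤ s) (hs' : K ≤ s') :
    |Real.exp (-Real.pi * (A / s) ^ 2) - Real.exp (-Real.pi * (A / s') ^ 2)| ≤
      3 * |s - s'| / K := by
  rcases le_total s s' with h | h
  · rw [abs_of_nonpos (by linarith : s - s' ≤ 0)]
    have := gauss_lip A K s s' hK hs h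
    rwa [neg_sub]
  · rw [abs_of_nonneg (by linarith : 0 ≤ s - s'), abs_sub_comm]
    exact gauss_lip A K s' s hK hs' h

theorem inv_lip (K s s' : ℝ) (hK : 0 < K) (hs : K ≤ s) (hs' : K ≤ s') :
    |1 / s - 1 / s'| ≤ |s - s'| / K ^ 2 := by
  have hs0 : 0 < s := lt_of_lt_of_le hK hs
  have hs0' : 0 < s' := lt_of_lt_of_le hK hs'
  have e1 : 1 / s - 1 / s' = -(s - s') / (s * s') := by field_simp; ring
  rw [e1, abs_div, abs_neg, abs_of_pos (mul_pos hs0 hs0')]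
  apply div_le_div_of_nonneg_left (abs_nonneg _) (by positivity)
  nlinarith

/-- the weight -/
noncomputable def psi (M N g : ℕ) (j a : ℤ) (s : ℝ) : ℂ :=
  (((M : ℝ) ^ 2 / s : ℝ) : ℂ) *
    ((Real.exp (-Real.pi * ((j : ℝ) * N / g / s) ^ 2) : ℝ) : ℂ) * e ((j : ℝ) * a / g / s)

theorem wei (M N g : ℕ) (j a : ℤ) (hM : 1 ≤ M) (hg : 1 ≤ g) (ha : 0 ≤ a) (ha' : a ≤ N)
    (hN : 1 ≤ Real.log N) (h : |(j : ℝ)| * N / g ≤ 16 * (M : ℝ) ^ 2 * Real.log N) :
    Wei M (200 * Real.log N) (psi M N g j a) := by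
  have hM' : (1 : ℝ) ≤ M := by exact_mod_cast hM
  have hg' : (1 : ℝ) ≤ g := by exact_mod_cast hg
  have hK : (0 : ℝ) < (M : ℝ) ^ 2 := by positivity
  have n1 : ∀ s : ℝ, (M : ℝ) ^ 2 ≤ s → ‖(((M : ℝ) ^ 2 / s : ℝ) : ℂ)‖ ≤ 1 := by
    intro s hs
    have hs0 : 0 < s := lt_of_lt_of_le hK hs
    rw [Complex.norm_real, Real.norm_eq_abs, abs_of_nonneg (by positivity), div_le_one hs0]
    exact hs
  have n2 : ∀ s : ℝ,
      ‖((Real.exp (-Real.pi * ((j : ℝ) * N / g / s) ^ 2) : ℝ) : ℂ)‖ ≤ 1 := by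
    intro s
    rw [Complex.norm_real, Real.norm_eq_abs, abs_of_pos (Real.exp_pos _), Real.exp_le_one_iff]
    have : 0 ≤ Real.pi * ((j : ℝ) * N / g / s) ^ 2 := by positivity
    linarith
  constructor
  · intro s hs
    unfold psi
    rw [norm_mul, norm_mul, norm_e, mul_one]
    exact mul_le_one₀ (n1 s hs) (norm_nonneg _) (n2 s)
  · intro s s' hs hs'
    have hs0 : 0 < s := lt_of_lt_of_le hK hs
    have hs0' : 0 < s' := lt_of_lt_of_le hK hs'
    unfold psi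
    refine (prod_diff (n2 s) (n2 s') (n1 s' hs') (norm_e _).le).trans ?_
    have d0 := abs_nonneg (s - s')
    have il := inv_lip _ s s' hK hs hs'
    have d1 : ‖(((M : ℝ) ^ 2 / s : ℝ) : ℂ) - (((M : ℝ) ^ 2 / s' : ℝ) : ℂ)‖ ≤
        |s - s'| / (M : ℝ) ^ 2 := by
      rw [← Complex.ofReal_sub, Complex.norm_real, Real.norm_eq_abs]
      have : (M : ℝ) ^ 2 / s - (M : ℝ) ^ 2 / s' = (M : ℝ) ^ 2 * (1 / s - 1 / s') := by ring
      rw [this, abs_mul, abs_of_pos hK]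
      calc (M : ℝ) ^ 2 * |1 / s - 1 / s'| ≤ (M : ℝ) ^ 2 * (|s - s'| / ((M : ℝ) ^ 2) ^ 2) :=
            mul_le_mul_of_nonneg_left il hK.le
        _ = _ := by field_simp
    have d2 : ‖((Real.exp (-Real.pi * ((j : ℝ) * N / g / s) ^ 2) : ℝ) : ℂ) -
        ((Real.exp (-Real.pi * ((j : ℝ) * N / g / s') ^ 2) : ℝ) : ℂ)‖ ≤
        3 * |s - s'| / (M : ℝ) ^ 2 := by
      rw [← Complex.ofReal_sub, Complex.norm_real, Real.norm_eq_abs]
      exact gauss_lip' _ _ s s' hK hs hs'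
    have d3 : ‖e ((j : ℝ) * a / g / s) - e ((j : ℝ) * a / g / s')‖ ≤
        (101 * Real.log N) * |s - s'| / (M : ℝ) ^ 2 := by
      refine (norm_e_sub_le _ _).trans ?_
      have e1 : (j : ℝ) * a / g / s - (j : ℝ) * a / g / s' =
          ((j : ℝ) * a / g) * (1 / s - 1 / s') := by ring
      rw [e1, abs_mul]
      have haR : (0 : ℝ) ≤ a := by exact_mod_cast ha
      have haR' : (a : ℝ) ≤ N := by exact_mod_cast ha'
      have h1 : |(j : ℝ) * a / g| ≤ 16 * (M : ℝ) ^ 2 * Real.log N := by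
        rw [abs_div, abs_mul, abs_of_nonneg haR, abs_of_pos (by linarith : (0 : ℝ) < g)]
        refine le_trans ?_ h
        apply div_le_div_of_nonneg_right _ (by linarith)
        exact mul_le_mul_of_nonneg_left haR' (abs_nonneg _)
      have hpi : Real.pi ≤ 3.15 := Real.pi_lt_d2.le
      have hpi0 := Real.pi_pos
      have hl : 0 ≤ Real.log N := by linarith
      calc 2 * Real.pi * (|(j : ℝ) * a / g| * |1 / s - 1 / s'|)
          ≤ 2 * Real.pi * ((16 * (M : ℝ) ^ 2 * Real.log N) * (|s - s'| / ((M : ℝ) ^ 2) ^ 2)) := by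
            apply mul_le_mul_of_nonneg_left _ (by positivity)
            exact mul_le_mul h1 il (abs_nonneg _) (by positivity)
        _ = (32 * Real.pi) * (Real.log N * (|s - s'| / (M : ℝ) ^ 2)) := by field_simp; ring
        _ ≤ 101 * (Real.log N * (|s - s'| / (M : ℝ) ^ 2)) := by
            apply mul_le_mul_of_nonneg_right _ (by positivity)
            linarith
        _ = _ := by ring
    have hx : 0 ≤ |s - s'| / (M : ℝ) ^ 2 := by positivity
    have e2 : 3 * |s - s'| / (M : ℝ) ^ 2 = 3 * (|s - s'| / (M : ℝ) ^ 2) := by ring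
    have e3 : (101 * Real.log N) * |s - s'| / (M : ℝ) ^ 2 =
        101 * Real.log N * (|s - s'| / (M : ℝ) ^ 2) := by ring
    have e4 : 200 * Real.log N * |s - s'| / (M : ℝ) ^ 2 =
        200 * Real.log N * (|s - s'| / (M : ℝ) ^ 2) := by ring
    rw [e4]
    rw [e2] at d2
    rw [e3] at d3
    nlinarith

end TaskM2

open TaskM2

/-- M2: one frequency, from `dfi` -/
theorem err_gj_of (hdfi : DFI) (ε : ℝ) (hε : 0 < ε) : ∃ C : ℝ, 0 < C ∧ ∀ (N D g : ℕ), 3 ≤ N →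
    1 ≤ g → g ≤ D →
    ∀ (a k j : ℤ), 0 ≤ a → a ≤ N → k ≠ 0 → |(g : ℝ) * k| ≤ N → j ≠ 0 →
    |(j : ℝ)| * (g * N) ≤ 4 * (D : ℝ) ^ 2 * Real.log N →
    ∀ c c' : ℕ → ℝ, (∀ d, |c d| ≤ 1) → (∀ d, |c' d| ≤ 1) →
    ‖∑ d₁ ∈ Ioc (D / g) (2 * (D / g) + 1),
      ∑ d₂ ∈ (Ioc (D / g) (2 * (D / g) + 1)).filter (fun d₂ => Nat.Coprime d₁ d₂),
        (c (g * d₁) : ℂ) * (c' (g * d₂) : ℂ) * ((N : ℝ) / (g * d₁ * d₂) : ℝ) *
          ((Real.exp (-Real.pi * ((j : ℝ) * N / (g * d₁ * d₂)) ^ 2) : ℝ) : ℂ) *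
          e ((j : ℝ) * a / (g * d₁ * d₂)) * kf (j * k) d₁ d₂‖ ≤
      C * Real.log N * (N / g) * ((D / g : ℕ) : ℝ) ^ (-(1 / 24) + ε : ℝ) := by
  obtain ⟨C, hC, H⟩ := hdfi ε hε
  refine ⟨C * 200, by positivity, ?_⟩
  intro N D g hN hg hgD a k j ha ha' hk hgk hj hjD c c' hc hc'
  set M := D / g with hMdef
  have hM : 1 ≤ M := (Nat.one_le_div_iff (by omega)).2 hgD
  have hM' : (1 : ℝ) ≤ M := by exact_mod_cast hM
  have hg' : (1 : ℝ) ≤ g := by exact_mod_cast hg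
  have hN' : (3 : ℝ) ≤ N := by exact_mod_cast hN
  have hlog : 1 ≤ Real.log N := by
    rw [Real.le_log_iff_exp_le (by linarith)]
    have := Real.exp_one_lt_d9
    linarith
  have hD : (D : ℝ) ≤ 2 * g * M := by
    have h1 : D < g * (M + 1) := by
      rw [hMdef]
      have := Nat.lt_mul_div_succ D (show 0 < g by omega)
      simpa using this
    have h2 : g * (M + 1) ≤ 2 * g * M := by nlinarith
    have h3 : D ≤ 2 * g * M := by omega
    exact_mod_cast h3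
  have hD0 : (0 : ℝ) ≤ D := Nat.cast_nonneg _
  have hg0 : (0 : ℝ) < g := by linarith
  have hN0 : (0 : ℝ) < N := by linarith
  -- the size of `j`
  have hjN : |(j : ℝ)| * N / g ≤ 16 * (M : ℝ) ^ 2 * Real.log N := by
    rw [div_le_iff₀ hg0]
    have h1 : (D : ℝ) ^ 2 ≤ (2 * g * M) ^ 2 := pow_le_pow_left₀ hD0 hD 2
    have h2 : |(j : ℝ)| * (g * N) ≤ 4 * (2 * g * M) ^ 2 * Real.log N := by
      refine hjD.trans ?_
      apply mul_le_mul_of_nonneg_right _ (by linarith)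
      linarith
    have h3 : (|(j : ℝ)| * N) * g ≤ (16 * (M : ℝ) ^ 2 * Real.log N * g) * g := by
      calc (|(j : ℝ)| * N) * g = |(j : ℝ)| * (g * N) := by ring
        _ ≤ 4 * (2 * g * M) ^ 2 * Real.log N := h2
        _ = _ := by ring
    exact le_of_mul_le_mul_right h3 hg0
  have hW := wei M N g j a hM hg ha ha' hlog hjN
  have hb : |((j * k : ℤ) : ℝ)| ≤ 200 * Real.log N * (M : ℝ) ^ 2 := by
    push_cast
    rw [abs_mul]
    have hk' : |(k : ℝ)| ≤ N / g := by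
      rw [le_div_iff₀ hg0]
      rw [abs_mul, abs_of_pos hg0] at hgk
      linarith
    calc |(j : ℝ)| * |(k : ℝ)| ≤ |(j : ℝ)| * (N / g) :=
          mul_le_mul_of_nonneg_left hk' (abs_nonneg _)
      _ = |(j : ℝ)| * N / g := by ring
      _ ≤ 16 * (M : ℝ) ^ 2 * Real.log N := hjN
      _ ≤ _ := by nlinarith [sq_nonneg (M : ℝ)]
  have key := H M hM (200 * Real.log N) (by linarith) (psi M N g j a) hW (j * k)
    (mul_ne_zero hj hk) hb (fun m => (c (g * m) : ℂ)) (fun n => (c' (g * n) : ℂ))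
    (fun m => by rw [Complex.norm_real]; exact hc _)
    (fun n => by rw [Complex.norm_real]; exact hc' _)
  have hK : (0 : ℝ) < (M : ℝ) ^ 2 := by positivity
  have eq : ∑ d₁ ∈ Ioc M (2 * M + 1),
      ∑ d₂ ∈ (Ioc M (2 * M + 1)).filter (fun d₂ => Nat.Coprime d₁ d₂),
        (c (g * d₁) : ℂ) * (c' (g * d₂) : ℂ) * ((N : ℝ) / (g * d₁ * d₂) : ℝ) *
          ((Real.exp (-Real.pi * ((j : ℝ) * N / (g * d₁ * d₂)) ^ 2) : ℝ) : ℂ) *
          e ((j : ℝ) * a / (g * d₁ * d₂)) * kf (j * k) d₁ d₂ =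
      (((N : ℝ) / (g * (M : ℝ) ^ 2) : ℝ) : ℂ) * ∑ m ∈ Ioc M (2 * M + 1),
        ∑ n ∈ (Ioc M (2 * M + 1)).filter (fun n => Nat.Coprime m n),
          (c (g * m) : ℂ) * (c' (g * n) : ℂ) * psi M N g j a ((m : ℝ) * n) *
            kf (j * k) m n := by
    rw [mul_sum]
    refine Finset.sum_congr rfl fun m hm => ?_
    rw [mul_sum]
    refine Finset.sum_congr rfl fun n hn => ?_
    rw [Finset.mem_filter] at hn
    rw [Finset.mem_Ioc] at hm
    have hn1 := Finset.mem_Ioc.1 hn.1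
    have hm0 : (0 : ℝ) < m := by
      have : 0 < m := by omega
      exact_mod_cast this
    have hn0 : (0 : ℝ) < n := by
      have : 0 < n := by omega
      exact_mod_cast this
    have e1 : (j : ℝ) * N / (g * m * n) = (j : ℝ) * N / g / ((m : ℝ) * n) := by
      rw [div_div, mul_assoc]
    have e2 : (j : ℝ) * a / (g * m * n) = (j : ℝ) * a / g / ((m : ℝ) * n) := by
      rw [div_div, mul_assoc]
    have e3 : ((N : ℝ) / (g * m * n) : ℝ) =
        ((N : ℝ) / (g * (M : ℝ) ^ 2)) * ((M : ℝ) ^ 2 / ((m : ℝ) * n)) := by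
      field_simp
    unfold psi
    rw [e1, e2, e3, Complex.ofReal_mul]
    ring
  rw [eq, norm_mul, Complex.norm_real, Real.norm_eq_abs, abs_of_nonneg (by positivity)]
  calc (N : ℝ) / (g * (M : ℝ) ^ 2) * _
      ≤ (N : ℝ) / (g * (M : ℝ) ^ 2) * (C * (200 * Real.log N) * (M : ℝ) ^ (47 / 24 + ε : ℝ)) :=
        mul_le_mul_of_nonneg_left key (by positivity)
    _ = C * 200 * Real.log N * (N / g) * ((M : ℝ) ^ (47 / 24 + ε : ℝ) / (M : ℝ) ^ 2) := by
        field_simp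
    _ = _ := by
        congr 1
        have hM0 : (0 : ℝ) < M := by linarith
        rw [← Real.rpow_natCast (M : ℝ) 2, ← Real.rpow_sub hM0]
        congr 1
        push_cast
        ring

end Pool.Agent.H442R2.KF
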