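import Pool.Agent.H442R2.KF.Defs

/-!
KF project, task M3: pairs of large moduli (from the statements of the tasks M1 and M2).
-/

namespace Pool.Agent.H442R2.KF

open Finset

namespace TaskM3

/-- truncated coefficients -/
noncomputable def tc (D : ℕ) (c : ℕ → ℝ) (d : ℕ) : ℝ := if d ∈ Ioc D (2 * D) then c d else 0

lemma tc_le {D : ℕ} {c : ℕ → ℝ} (hc : ∀ d, |c d| ≤ 1) (d : ℕ) : |tc D c d| ≤ 1 := by
  unfold tc
  split_ifs
  · exact hc d
  · simp

/-- coprime pairs -/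
def AA (D g : ℕ) : Finset (ℕ × ℕ) :=
  ((Ioc (D / g) (2 * (D / g) + 1)) ×ˢ (Ioc (D / g) (2 * (D / g) + 1))).filter
    (fun y => Nat.Coprime y.1 y.2)

lemma mem_range {D g x : ℕ} (hg : 1 ≤ g) (h : g * x ∈ Ioc D (2 * D)) :
    x ∈ Ioc (D / g) (2 * (D / g) + 1) := by
  rw [mem_Ioc] at h ⊢
  constructor
  · rw [Nat.div_lt_iff_lt_mul hg, mul_comm]
    exact h.1
  · have h1 : D < g * (D / g + 1) := Nat.lt_mul_div_succ D hg
    have h2 : g * x < g * (2 * (D / g) + 2) := by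
      calc g * x ≤ 2 * D := h.2
        _ < 2 * (g * (D / g + 1)) := by omega
        _ = g * (2 * (D / g) + 2) := by ring
    have h3 := Nat.lt_of_mul_lt_mul_left h2
    omega

lemma group (D : ℕ) (F : ℕ → ℕ → ℝ)
    (hF : ∀ d d', (d ∉ Ioc D (2 * D) ∨ d' ∉ Ioc D (2 * D)) → F d d' = 0) :
    ∑ d ∈ Ioc D (2 * D), ∑ d' ∈ Ioc D (2 * D), F d d' =
      ∑ g ∈ Icc 1 (2 * D), ∑ y ∈ AA D g, F (g * y.1) (g * y.2) := by
  rw [← Finset.sum_product' (Ioc D (2 * D)) (Ioc D (2 * D)) F]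
  rw [← Finset.sum_fiberwise_of_maps_to (s := Ioc D (2 * D) ×ˢ Ioc D (2 * D))
    (t := Icc 1 (2 * D)) (g := fun x => Nat.gcd x.1 x.2)]
  · apply Finset.sum_congr rfl
    intro g hg
    rw [mem_Icc] at hg
    symm
    have e1 : ∑ y ∈ AA D g, F (g * y.1) (g * y.2) =
        ∑ y ∈ (AA D g).filter (fun y => g * y.1 ∈ Ioc D (2 * D) ∧ g * y.2 ∈ Ioc D (2 * D)),
          F (g * y.1) (g * y.2) := by
      symm
      apply Finset.sum_filter_of_ne
      intro y _ hy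
      by_contra h
      apply hy
      apply hF
      tauto
    rw [e1]
    refine Finset.sum_nbij' (fun y => (g * y.1, g * y.2)) (fun x => (x.1 / g, x.2 / g)) ?_ ?_ ?_ ?_ ?_
    · rintro ⟨y1, y2⟩ hy
      simp only [AA, mem_filter, mem_product] at hy ⊢
      refine ⟨⟨hy.2.1, hy.2.2⟩, ?_⟩
      rw [Nat.gcd_mul_left, Nat.Coprime.gcd_eq_one hy.1.2, mul_one]
    · rintro ⟨x1, x2⟩ hx
      simp only [mem_filter, mem_product] at hx
      obtain ⟨⟨h1, h2⟩, h3⟩ := hx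
      have d1 : g ∣ x1 := h3 ▸ Nat.gcd_dvd_left x1 x2
      have d2 : g ∣ x2 := h3 ▸ Nat.gcd_dvd_right x1 x2
      have e1 : g * (x1 / g) = x1 := Nat.mul_div_cancel' d1
      have e2 : g * (x2 / g) = x2 := Nat.mul_div_cancel' d2
      simp only [AA, mem_filter, mem_product]
      refine ⟨⟨⟨mem_range hg.1 (by rwa [e1]), mem_range hg.1 (by rwa [e2])⟩, ?_⟩, ?_, ?_⟩
      · have := Nat.coprime_div_gcd_div_gcd (m := x1) (n := x2) (by rw [h3]; omega)
        rwa [h3] at this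
      · rwa [e1]
      · rwa [e2]
    · rintro ⟨y1, y2⟩ _
      simp only [Prod.mk.injEq]
      exact ⟨Nat.mul_div_cancel_left y1 hg.1, Nat.mul_div_cancel_left y2 hg.1⟩
    · rintro ⟨x1, x2⟩ hx
      simp only [mem_filter, mem_product] at hx
      obtain ⟨⟨h1, h2⟩, h3⟩ := hx
      have d1 : g ∣ x1 := h3 ▸ Nat.gcd_dvd_left x1 x2
      have d2 : g ∣ x2 := h3 ▸ Nat.gcd_dvd_right x1 x2
      simp only [Prod.mk.injEq]
      exact ⟨Nat.mul_div_cancel' d1, Nat.mul_div_cancel' d2⟩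
    · intro y _; rfl
  · rintro ⟨x1, x2⟩ hx
    simp only [mem_product, mem_Ioc] at hx
    rw [mem_Icc]
    constructor
    · exact Nat.gcd_pos_of_pos_left _ (by omega)
    · exact (Nat.gcd_le_left _ (by omega)).trans hx.1.2

/-- the term of frequency `j` -/
noncomputable def trm (N g : ℕ) (a k j : ℤ) (y : ℕ × ℕ) : ℂ :=
  ((N : ℝ) / (g * y.1 * y.2) : ℝ) *
    ((Real.exp (-Real.pi * ((j : ℝ) * N / (g * y.1 * y.2)) ^ 2) : ℝ) : ℂ) *
      e ((j : ℝ) * a / (g * y.1 * y.2)) * kf (j * k) y.1 y.2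

lemma trm_zero (N g : ℕ) (a k : ℤ) (y : ℕ × ℕ) :
    trm N g a k 0 y = ((N : ℝ) / (g * y.1 * y.2) : ℝ) := by
  unfold trm kf
  simp [e_zero]

lemma card_J (J : ℕ) : ((Icc (-(J : ℤ)) J).erase 0).card = 2 * J := by
  rw [Finset.card_erase_of_mem (by rw [mem_Icc]; omega), Int.card_Icc]
  omega

lemma per_g (N D g : ℕ) (hg : 1 ≤ g) (a a' k : ℤ) (hk : a' - a = g * k) (J : ℕ) (c c' : ℕ → ℝ)
    (hc : ∀ d, |c d| ≤ 1) (hc' : ∀ d, |c' d| ≤ 1) (δ B : ℝ) (hδ : 0 ≤ δ)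
    (hS : ∀ y ∈ AA D g, g * y.1 ∈ Ioc D (2 * D) → g * y.2 ∈ Ioc D (2 * D) →
      ‖((SS N a a' (g * y.1) (g * y.2) : ℝ) : ℂ) - ∑ j ∈ Icc (-(J : ℤ)) J, trm N g a k j y‖ ≤ δ)
    (hB : ∀ j ∈ (Icc (-(J : ℤ)) J).erase 0,
      ‖∑ y ∈ AA D g, (tc D c (g * y.1) : ℂ) * (tc D c' (g * y.2) : ℂ) * trm N g a k j y‖ ≤ B) :
    |∑ y ∈ AA D g, tc D c (g * y.1) * tc D c' (g * y.2) *
      (SS N a a' (g * y.1) (g * y.2) -
        N * Fh (a' - a) (Nat.gcd (g * y.1) (g * y.2)) / (((g * y.1 : ℕ) : ℝ) * ((g * y.2 : ℕ) : ℝ)))| ≤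
      (AA D g).card * δ + (2 * J : ℕ) * B := by
  have hgr : (0:ℝ) < g := by exact_mod_cast hg
  obtain ⟨R, hR⟩ : ∃ R : ℝ, R = (AA D g).card * δ + ((2 * J : ℕ) : ℝ) * B := ⟨_, rfl⟩
  rw [← hR, ← Real.norm_eq_abs, ← Complex.norm_real]
  push_cast
  have e1 : ∀ y ∈ AA D g, (tc D c (g * y.1) : ℂ) * (tc D c' (g * y.2) : ℂ) *
      ((SS N a a' (g * y.1) (g * y.2) : ℂ) -
        N * (Fh (a' - a) (Nat.gcd (g * y.1) (g * y.2)) : ℂ) / ((g * y.1) * (g * y.2))) =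
      (tc D c (g * y.1) : ℂ) * (tc D c' (g * y.2) : ℂ) *
        ((SS N a a' (g * y.1) (g * y.2) : ℂ) - ∑ j ∈ Icc (-(J : ℤ)) J, trm N g a k j y) +
      ∑ j ∈ (Icc (-(J : ℤ)) J).erase 0,
        (tc D c (g * y.1) : ℂ) * (tc D c' (g * y.2) : ℂ) * trm N g a k j y := by
    intro y hy
    simp only [AA, mem_filter, mem_product, mem_Ioc] at hy
    have hgcd : Nat.gcd (g * y.1) (g * y.2) = g := by
      rw [Nat.gcd_mul_left, Nat.Coprime.gcd_eq_one hy.2, mul_one]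
    have hF : Fh (a' - a) (Nat.gcd (g * y.1) (g * y.2)) = g := by
      rw [hgcd]
      unfold Fh
      rw [if_pos ⟨k, hk⟩]
    have hy1 : (0:ℝ) < y.1 := by
      have : 0 < y.1 := by omega
      exact_mod_cast this
    have hy2 : (0:ℝ) < y.2 := by
      have : 0 < y.2 := by omega
      exact_mod_cast this
    have hmain : (N : ℂ) * (Fh (a' - a) (Nat.gcd (g * y.1) (g * y.2)) : ℂ) / ((g * y.1) * (g * y.2)) =
        trm N g a k 0 y := by
      rw [trm_zero, hF]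
      push_cast
      have h1 : (g : ℂ) ≠ 0 := by exact_mod_cast hgr.ne'
      have h2 : (y.1 : ℂ) ≠ 0 := by exact_mod_cast hy1.ne'
      have h3 : (y.2 : ℂ) ≠ 0 := by exact_mod_cast hy2.ne'
      field_simp
    have h0 : (0 : ℤ) ∈ Icc (-(J : ℤ)) J := by rw [mem_Icc]; omega
    rw [hmain, ← Finset.add_sum_erase _ _ h0, ← Finset.mul_sum]
    ring
  rw [Finset.sum_congr rfl e1, Finset.sum_add_distrib, Finset.sum_comm (s := AA D g), hR]
  refine (norm_add_le _ _).trans (add_le_add ?_ ?_)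
  · refine (norm_sum_le _ _).trans ?_
    rw [← nsmul_eq_mul]
    apply Finset.sum_le_card_nsmul
    intro y hy
    by_cases h1 : g * y.1 ∈ Ioc D (2 * D)
    · by_cases h2 : g * y.2 ∈ Ioc D (2 * D)
      · rw [norm_mul, norm_mul, Complex.norm_real, Complex.norm_real, Real.norm_eq_abs,
          Real.norm_eq_abs]
        have k1 := tc_le (D := D) hc (g * y.1)
        have k2 := tc_le (D := D) hc' (g * y.2)
        have k3 := hS y hy h1 h2
        calc |tc D c (g * y.1)| * |tc D c' (g * y.2)| * _ ≤ 1 * 1 * δ := by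
              apply mul_le_mul (mul_le_mul k1 k2 (abs_nonneg _) zero_le_one) k3 (norm_nonneg _)
              norm_num
          _ = δ := by ring
      · have : tc D c' (g * y.2) = 0 := if_neg h2
        rw [this]; simpa using hδ
    · have : tc D c (g * y.1) = 0 := if_neg h1
      rw [this]; simpa using hδ
  · refine (norm_sum_le _ _).trans ?_
    rw [← card_J J, ← nsmul_eq_mul]
    exact Finset.sum_le_card_nsmul _ _ _ hB

lemma card_AA (D g : ℕ) : ((AA D g).card : ℝ) ≤ ((D : ℝ) + 1) ^ 2 := by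
  have h1 : (AA D g).card ≤ (D + 1) ^ 2 := by
    unfold AA
    refine (Finset.card_filter_le _ _).trans ?_
    rw [Finset.card_product, Nat.card_Ioc, pow_two]
    have : 2 * (D / g) + 1 - D / g ≤ D + 1 := by
      have := Nat.div_le_self D g
      omega
    exact Nat.mul_le_mul this this
  calc ((AA D g).card : ℝ) ≤ (((D + 1) ^ 2 : ℕ) : ℝ) := by exact_mod_cast h1
    _ = _ := by push_cast; ring

lemma sum_AA (D g : ℕ) (f : ℕ → ℕ → ℂ) :
    ∑ d₁ ∈ Ioc (D / g) (2 * (D / g) + 1),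
      ∑ d₂ ∈ (Ioc (D / g) (2 * (D / g) + 1)).filter (fun d₂ => Nat.Coprime d₁ d₂), f d₁ d₂ =
    ∑ y ∈ AA D g, f y.1 y.2 := by
  unfold AA
  rw [Finset.sum_filter, Finset.sum_product]
  apply Finset.sum_congr rfl
  intro x _
  rw [Finset.sum_filter]

/-- the sum over one gcd -/
noncomputable def Eg (N D g : ℕ) (a a' : ℤ) (c c' : ℕ → ℝ) : ℝ :=
  ∑ y ∈ AA D g, tc D c (g * y.1) * tc D c' (g * y.2) *
      (SS N a a' (g * y.1) (g * y.2) -
        N * Fh (a' - a) (Nat.gcd (g * y.1) (g * y.2)) / (((g * y.1 : ℕ) : ℝ) * ((g * y.2 : ℕ) : ℝ)))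

lemma Eg_zero (SS_not_dvd : ∀ (N : ℕ) (a a' : ℤ) (g d₁ d₂ : ℕ), ¬ (g : ℤ) ∣ a' - a →
      SS N a a' (g * d₁) (g * d₂) = 0) (N D g : ℕ) (a a' : ℤ) (c c' : ℕ → ℝ)
    (h : ¬ (g : ℤ) ∣ a' - a) : Eg N D g a a' c c' = 0 := by
  unfold Eg
  apply Finset.sum_eq_zero
  intro y hy
  simp only [AA, mem_filter, mem_product, mem_Ioc] at hy
  have hgcd : Nat.gcd (g * y.1) (g * y.2) = g := by
    rw [Nat.gcd_mul_left, Nat.Coprime.gcd_eq_one hy.2, mul_one]
  rw [SS_not_dvd N a a' g y.1 y.2 h, hgcd]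
  unfold Fh
  rw [if_neg h]
  simp

lemma bound_g (SS_not_dvd : ∀ (N : ℕ) (a a' : ℤ) (g d₁ d₂ : ℕ), ¬ (g : ℤ) ∣ a' - a →
      SS N a a' (g * d₁) (g * d₂) = 0) (ε : ℝ) (hε1 : ε ≤ 1 / 48) (hε0 : 0 < ε)
    (C0 : ℝ) (hC0 : 0 < C0)
    (hErr : ∀ (N D g : ℕ), 3 ≤ N → 1 ≤ g → g ≤ D →
      ∀ (a k j : ℤ), 0 ≤ a → a ≤ N → k ≠ 0 → |(g : ℝ) * k| ≤ N → j ≠ 0 →
      |(j : ℝ)| * (g * N) ≤ 4 * (D : ℝ) ^ 2 * Real.log N →
      ∀ c c' : ℕ → ℝ, (∀ d, |c d| ≤ 1) → (∀ d, |c' d| ≤ 1) →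
      ‖∑ d₁ ∈ Ioc (D / g) (2 * (D / g) + 1),
        ∑ d₂ ∈ (Ioc (D / g) (2 * (D / g) + 1)).filter (fun d₂ => Nat.Coprime d₁ d₂),
          (c (g * d₁) : ℂ) * (c' (g * d₂) : ℂ) * ((N : ℝ) / (g * d₁ * d₂) : ℝ) *
            ((Real.exp (-Real.pi * ((j : ℝ) * N / (g * d₁ * d₂)) ^ 2) : ℝ) : ℂ) *
            e ((j : ℝ) * a / (g * d₁ * d₂)) * kf (j * k) d₁ d₂‖ ≤
        C0 * Real.log N * (N / g) * ((D / g : ℕ) : ℝ) ^ (-(1 / 24) + ε : ℝ))
    (N : ℕ) (hN3 : 3 ≤ N)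
    (hEv : ∀ (a a' k : ℤ) (g d₁ d₂ : ℕ), 1 ≤ g → 1 ≤ d₁ →
      1 ≤ d₂ → Nat.Coprime d₁ d₂ → a' - a = g * k → (g * d₁ * d₂ : ℝ) ≤ (N : ℝ) ^ 3 →
      ∀ J : ℕ, (g * d₁ * d₂ : ℝ) * Real.log N ≤ (J + 1) * N →
      ‖((SS N a a' (g * d₁) (g * d₂) : ℝ) : ℂ) -
        ((N : ℝ) / (g * d₁ * d₂) : ℝ) * ∑ j ∈ Icc (-(J : ℤ)) J,
          ((Real.exp (-Real.pi * ((j : ℝ) * N / (g * d₁ * d₂)) ^ 2) : ℝ) : ℂ) *
            e ((j : ℝ) * a / (g * d₁ * d₂)) * kf (j * k) d₁ d₂‖ ≤ 1 / (N : ℝ) ^ 5)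
    (D : ℕ) (hD1 : 4 * (D : ℝ) * Real.log N < N) (hD2 : 4 * (D : ℝ) ^ 2 ≤ (N : ℝ) ^ 3)
    (g : ℕ) (hg : 1 ≤ g) (a a' : ℤ) (ha : 0 ≤ a) (haN : a ≤ N) (ha' : 0 ≤ a') (ha'N : a' ≤ N)
    (haa : a ≠ a') (c c' : ℕ → ℝ) (hc : ∀ d, |c d| ≤ 1) (hc' : ∀ d, |c' d| ≤ 1) :
    |Eg N D g a a' c c'| ≤ ((D : ℝ) + 1) ^ 2 * (1 / (N : ℝ) ^ 5) +
      16 * C0 * Real.log N ^ 2 * (D : ℝ) ^ (47 / 24 + ε : ℝ) * (1 / g) := by
  have hNr : (3:ℝ) ≤ N := by exact_mod_cast hN3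
  have hN0 : (0:ℝ) < N := by linarith
  have hgr : (1:ℝ) ≤ g := by exact_mod_cast hg
  have hg0 : (0:ℝ) < g := by linarith
  have hlog : 0 < Real.log N := Real.log_pos (by linarith)
  have hD0 : (0:ℝ) ≤ D := by positivity
  have hrhs1 : 0 ≤ ((D : ℝ) + 1) ^ 2 * (1 / (N : ℝ) ^ 5) := by positivity
  have hrhs2 : 0 ≤ 16 * C0 * Real.log N ^ 2 * (D : ℝ) ^ (47 / 24 + ε : ℝ) * (1 / g) := by
    have := Real.rpow_nonneg hD0 (47 / 24 + ε : ℝ)
    positivity
  by_cases hdiv : (g : ℤ) ∣ a' - a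
  · obtain ⟨k, hk⟩ := hdiv
    have hk0 : k ≠ 0 := by
      rintro rfl
      rw [mul_zero] at hk
      exact haa (by linarith)
    have hkN : |(g : ℝ) * k| ≤ N := by
      have h1 : ((g : ℝ) * k) = ((a' - a : ℤ) : ℝ) := by rw [hk]; push_cast; ring
      rw [h1]
      have h2 : |a' - a| ≤ (N : ℤ) := by rw [abs_le]; omega
      have h3 : |((a' - a : ℤ) : ℝ)| = ((|a' - a| : ℤ) : ℝ) := by push_cast; rfl
      rw [h3]
      exact_mod_cast h2
    set J : ℕ := ⌊4 * (D : ℝ) ^ 2 * Real.log N / (g * N)⌋₊ with hJ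
    have hJle : (J : ℝ) ≤ 4 * (D : ℝ) ^ 2 * Real.log N / (g * N) :=
      Nat.floor_le (by positivity)
    have hJlt : 4 * (D : ℝ) ^ 2 * Real.log N / (g * N) < J + 1 := Nat.lt_floor_add_one _
    have hsz : ∀ y ∈ AA D g, g * y.1 ∈ Ioc D (2 * D) → g * y.2 ∈ Ioc D (2 * D) →
        (g * y.1 * y.2 : ℝ) * g ≤ 4 * (D : ℝ) ^ 2 := by
      intro y _ h1 h2
      rw [mem_Ioc] at h1 h2
      have k1 : ((g : ℝ) * y.1) ≤ 2 * D := by exact_mod_cast h1.2
      have k2 : ((g : ℝ) * y.2) ≤ 2 * D := by exact_mod_cast h2.2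
      have k3 : (0:ℝ) ≤ (g : ℝ) * y.2 := by positivity
      calc (g * y.1 * y.2 : ℝ) * g = ((g : ℝ) * y.1) * ((g : ℝ) * y.2) := by ring
        _ ≤ (2 * D) * (2 * D) := mul_le_mul k1 k2 k3 (by positivity)
        _ = 4 * (D : ℝ) ^ 2 := by ring
    have hS : ∀ y ∈ AA D g, g * y.1 ∈ Ioc D (2 * D) → g * y.2 ∈ Ioc D (2 * D) →
        ‖((SS N a a' (g * y.1) (g * y.2) : ℝ) : ℂ) - ∑ j ∈ Icc (-(J : ℤ)) J, trm N g a k j y‖ ≤
          1 / (N : ℝ) ^ 5 := by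
      intro y hy h1 h2
      have hs := hsz y hy h1 h2
      simp only [AA, mem_filter, mem_product, mem_Ioc] at hy
      have hs0 : (0:ℝ) ≤ (g * y.1 * y.2 : ℝ) := by positivity
      have h3 := hEv a a' k g y.1 y.2 hg (by omega) (by omega) hy.2 hk
        (by
          have : (g * y.1 * y.2 : ℝ) ≤ (g * y.1 * y.2 : ℝ) * g := le_mul_of_one_le_right hs0 hgr
          linarith) J
        (by
          rw [div_lt_iff₀ (by positivity)] at hJlt
          have h4 : (g * y.1 * y.2 : ℝ) * Real.log N * g ≤ (J + 1) * N * g := by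
            calc (g * y.1 * y.2 : ℝ) * Real.log N * g = ((g * y.1 * y.2 : ℝ) * g) * Real.log N := by
                  ring
              _ ≤ (4 * (D : ℝ) ^ 2) * Real.log N := mul_le_mul_of_nonneg_right hs hlog.le
              _ ≤ (J + 1) * (g * N) := hJlt.le
              _ = (J + 1) * N * g := by ring
          exact le_of_mul_le_mul_right h4 hg0)
      rw [Finset.mul_sum] at h3
      have h5 : ∑ j ∈ Icc (-(J : ℤ)) J, trm N g a k j y =
          ∑ j ∈ Icc (-(J : ℤ)) J, ((N : ℝ) / (g * y.1 * y.2) : ℝ) *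
            (((Real.exp (-Real.pi * ((j : ℝ) * N / (g * y.1 * y.2)) ^ 2) : ℝ) : ℂ) *
            e ((j : ℝ) * a / (g * y.1 * y.2)) * kf (j * k) y.1 y.2) := by
        apply Finset.sum_congr rfl
        intro j _
        unfold trm
        ring
      rw [h5]
      exact h3
    by_cases hgD : g ≤ D
    · -- the bound of one frequency
      have hB : ∀ j ∈ (Icc (-(J : ℤ)) J).erase 0,
          ‖∑ y ∈ AA D g, (tc D c (g * y.1) : ℂ) * (tc D c' (g * y.2) : ℂ) * trm N g a k j y‖ ≤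
            C0 * Real.log N * (N / g) * ((D / g : ℕ) : ℝ) ^ (-(1 / 24) + ε : ℝ) := by
        intro j hj
        rw [Finset.mem_erase, mem_Icc] at hj
        have hjJ : |(j : ℝ)| ≤ J := by
          rw [abs_le]
          constructor
          · have := hj.2.1; exact_mod_cast this
          · have := hj.2.2; exact_mod_cast this
        have h1 := hErr N D g hN3 hg hgD a k j ha haN hk0 hkN hj.1
          (by
            have h2 := hjJ.trans hJle
            rw [le_div_iff₀ (by positivity)] at h2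
            exact h2) (tc D c) (tc D c') (tc_le hc) (tc_le hc')
        rw [sum_AA D g (fun d₁ d₂ => (tc D c (g * d₁) : ℂ) * (tc D c' (g * d₂) : ℂ) *
          ((N : ℝ) / (g * d₁ * d₂) : ℝ) *
            ((Real.exp (-Real.pi * ((j : ℝ) * N / (g * d₁ * d₂)) ^ 2) : ℝ) : ℂ) *
            e ((j : ℝ) * a / (g * d₁ * d₂)) * kf (j * k) d₁ d₂)] at h1
        have h5 : ∑ y ∈ AA D g, (tc D c (g * y.1) : ℂ) * (tc D c' (g * y.2) : ℂ) *
            trm N g a k j y = ∑ y ∈ AA D g, (tc D c (g * y.1) : ℂ) * (tc D c' (g * y.2) : ℂ) *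
          ((N : ℝ) / (g * y.1 * y.2) : ℝ) *
            ((Real.exp (-Real.pi * ((j : ℝ) * N / (g * y.1 * y.2)) ^ 2) : ℝ) : ℂ) *
            e ((j : ℝ) * a / (g * y.1 * y.2)) * kf (j * k) y.1 y.2 := by
          apply Finset.sum_congr rfl
          intro y _
          unfold trm
          ring
        rw [h5]
        exact h1
      have h1 := per_g N D g hg a a' k hk J c c' hc hc' (1 / (N : ℝ) ^ 5) _ (by positivity) hS hB
      refine h1.trans (add_le_add ?_ ?_)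
      · exact mul_le_mul_of_nonneg_right (card_AA D g) (by positivity)
      · -- numerics
        have hDg : (0:ℝ) < (D : ℝ) / g := by
          have : (0:ℝ) < D := by
            have : 0 < D := by omega
            exact_mod_cast this
          positivity
        have hDr : (0:ℝ) < D := by
          have : 0 < D := by omega
          exact_mod_cast this
        have hfl : (D : ℝ) / g / 2 ≤ ((D / g : ℕ) : ℝ) := by
          have k1 : 1 ≤ D / g := (Nat.one_le_div_iff hg).mpr hgD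
          have k2 : D < g * (D / g + 1) := Nat.lt_mul_div_succ D hg
          have k3 : (D : ℝ) < g * (((D / g : ℕ) : ℝ) + 1) := by exact_mod_cast k2
          have k4 : (1:ℝ) ≤ ((D / g : ℕ) : ℝ) := by exact_mod_cast k1
          rw [div_div, div_le_iff₀ (by positivity)]
          nlinarith
        have hz : (-(1 / 24) + ε : ℝ) ≤ 0 := by linarith
        have hp : ((D / g : ℕ) : ℝ) ^ (-(1 / 24) + ε : ℝ) ≤
            2 * ((D : ℝ) / g) ^ (-(1 / 24) + ε : ℝ) := by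
          calc ((D / g : ℕ) : ℝ) ^ (-(1 / 24) + ε : ℝ) ≤ ((D : ℝ) / g / 2) ^ (-(1 / 24) + ε : ℝ) :=
                Real.rpow_le_rpow_of_nonpos (by positivity) hfl hz
            _ = ((D : ℝ) / g) ^ (-(1 / 24) + ε : ℝ) / 2 ^ (-(1 / 24) + ε : ℝ) :=
                Real.div_rpow hDg.le (by norm_num) _
            _ ≤ 2 * ((D : ℝ) / g) ^ (-(1 / 24) + ε : ℝ) := by
                have h2 : (2:ℝ) ^ (-1 : ℝ) ≤ 2 ^ (-(1 / 24) + ε : ℝ) :=
                  Real.rpow_le_rpow_of_exponent_le (by norm_num) (by linarith)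
                rw [Real.rpow_neg_one] at h2
                have h3 : 0 ≤ ((D : ℝ) / g) ^ (-(1 / 24) + ε : ℝ) := by positivity
                rw [div_le_iff₀ (by positivity)]
                nlinarith
        have hs2 : ((D : ℝ) / g) ^ (47 / 24 + ε : ℝ) =
            ((D : ℝ) / g) ^ 2 * ((D : ℝ) / g) ^ (-(1 / 24) + ε : ℝ) := by
          rw [← Real.rpow_natCast, ← Real.rpow_add hDg]
          congr 1
          push_cast
          ring
        have hs3 : ((D : ℝ) / g) ^ (47 / 24 + ε : ℝ) ≤ (D : ℝ) ^ (47 / 24 + ε : ℝ) * (1 / g) := by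
          rw [Real.div_rpow hD0 hg0.le, div_eq_mul_one_div]
          apply mul_le_mul_of_nonneg_left _ (by positivity)
          apply one_div_le_one_div_of_le hg0
          calc (g : ℝ) = (g : ℝ) ^ (1:ℝ) := (Real.rpow_one _).symm
            _ ≤ (g : ℝ) ^ (47 / 24 + ε : ℝ) :=
                Real.rpow_le_rpow_of_exponent_le hgr (by linarith)
        push_cast
        calc 2 * (J : ℝ) * (C0 * Real.log N * (N / g) * ((D / g : ℕ) : ℝ) ^ (-(1 / 24) + ε : ℝ))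
            ≤ 2 * (4 * (D : ℝ) ^ 2 * Real.log N / (g * N)) *
              (C0 * Real.log N * (N / g) * (2 * ((D : ℝ) / g) ^ (-(1 / 24) + ε : ℝ))) := by
              apply mul_le_mul
              · linarith
              · apply mul_le_mul_of_nonneg_left hp
                positivity
              · positivity
              · positivity
          _ = 16 * C0 * Real.log N ^ 2 * (((D : ℝ) / g) ^ 2 *
              ((D : ℝ) / g) ^ (-(1 / 24) + ε : ℝ)) := by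
              field_simp
              ring
          _ ≤ 16 * C0 * Real.log N ^ 2 * ((D : ℝ) ^ (47 / 24 + ε : ℝ) * (1 / g)) := by
              rw [← hs2]
              exact mul_le_mul_of_nonneg_left hs3 (by positivity)
          _ = _ := by ring
    · -- no frequencies
      have hJ0 : J = 0 := by
        rw [hJ, Nat.floor_eq_zero, div_lt_one (by positivity)]
        have h1 : (D : ℝ) ≤ g := by
          have : D ≤ g := by omega
          exact_mod_cast this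
        calc 4 * (D : ℝ) ^ 2 * Real.log N = D * (4 * (D : ℝ) * Real.log N) := by ring
          _ ≤ g * (4 * (D : ℝ) * Real.log N) := mul_le_mul_of_nonneg_right h1 (by positivity)
          _ < g * N := mul_lt_mul_of_pos_left hD1 hg0
      have h1 := per_g N D g hg a a' k hk J c c' hc hc' (1 / (N : ℝ) ^ 5) 0 (by positivity) hS
        (by
          intro j hj
          rw [hJ0] at hj
          rw [Finset.mem_erase, mem_Icc] at hj
          exfalso
          apply hj.1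
          have := hj.2
          push_cast at this
          omega)
      refine h1.trans ?_
      rw [mul_zero, add_zero]
      have := mul_le_mul_of_nonneg_right (card_AA D g) (show (0:ℝ) ≤ 1 / (N : ℝ) ^ 5 by positivity)
      linarith
  · rw [Eg_zero SS_not_dvd N D g a a' c c' hdiv, abs_zero]
    linarith

lemma Wt_summable (N : ℕ) (hN : 1 ≤ N) : Summable (fun n : ℤ => Wt N n) := by
  have hN' : (0:ℝ) < N := by exact_mod_cast hN
  have h := summable_pow_mul_jacobiTheta₂_term_bound 0 (T := 1 / (N:ℝ) ^ 2) (by positivity) 0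
  refine h.congr ?_
  intro n
  unfold Wt
  rw [pow_zero, one_mul]
  congr 1
  rw [div_pow]
  ring

lemma SS_abs (N : ℕ) (hN : 1 ≤ N) (a a' : ℤ) (d d' : ℕ) :
    |SS N a a' d d'| ≤ ∑' n : ℤ, Wt N n := by
  have h0 : ∀ n : ℤ, 0 ≤ Wt N n := fun n => (Real.exp_pos _).le
  have h1 : ∀ n : ℤ, 0 ≤ (if ((d : ℤ) ∣ n - a ∧ (d' : ℤ) ∣ n - a') then Wt N n else 0) := by
    intro n; split_ifs
    · exact h0 n
    · exact le_rfl
  have h2 : ∀ n : ℤ, (if ((d : ℤ) ∣ n - a ∧ (d' : ℤ) ∣ n - a') then Wt N n else 0) ≤ Wt N n := by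
    intro n; split_ifs
    · exact le_rfl
    · exact h0 n
  have hs := Wt_summable N hN
  unfold SS
  rw [abs_of_nonneg (tsum_nonneg h1)]
  exact (Summable.of_nonneg_of_le h1 h2 hs).tsum_le_tsum h2 hs

lemma trivial_bound (N D : ℕ) (hN : 1 ≤ N) (hD : D ≤ N) (a a' : ℤ) (c c' : ℕ → ℝ)
    (hc : ∀ d, |c d| ≤ 1) (hc' : ∀ d, |c' d| ≤ 1) :
    |∑ d ∈ Ioc D (2 * D), ∑ d' ∈ Ioc D (2 * D), c d * c' d' *
      (SS N a a' d d' - N * Fh (a' - a) (Nat.gcd d d') / (d * d'))| ≤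
      (N : ℝ) ^ 2 * ((∑' n : ℤ, Wt N n) + N) := by
  have hN' : (0:ℝ) < N := by exact_mod_cast hN
  have hS0 : 0 ≤ ∑' n : ℤ, Wt N n := tsum_nonneg (fun n => (Real.exp_pos _).le)
  have hterm : ∀ d ∈ Ioc D (2 * D), ∀ d' ∈ Ioc D (2 * D), |c d * c' d' *
      (SS N a a' d d' - N * Fh (a' - a) (Nat.gcd d d') / (d * d'))| ≤
      (∑' n : ℤ, Wt N n) + N := by
    intro d hd d' hd'
    rw [mem_Ioc] at hd hd'
    have hd1 : (1:ℝ) ≤ d := by
      have : 1 ≤ d := by omega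
      exact_mod_cast this
    have hd1' : (1:ℝ) ≤ d' := by
      have : 1 ≤ d' := by omega
      exact_mod_cast this
    have hF : |(N : ℝ) * Fh (a' - a) (Nat.gcd d d') / (d * d')| ≤ N := by
      have hF0 : 0 ≤ Fh (a' - a) (Nat.gcd d d') := by
        unfold Fh; split_ifs
        · positivity
        · exact le_rfl
      have hF1 : Fh (a' - a) (Nat.gcd d d') ≤ d := by
        unfold Fh; split_ifs
        · have : Nat.gcd d d' ≤ d := Nat.gcd_le_left _ (by omega)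
          exact_mod_cast this
        · positivity
      rw [abs_of_nonneg (by positivity), div_le_iff₀ (by positivity)]
      apply mul_le_mul_of_nonneg_left _ hN'.le
      nlinarith
    rw [abs_mul, abs_mul]
    calc |c d| * |c' d'| * |SS N a a' d d' - N * Fh (a' - a) (Nat.gcd d d') / (d * d')| ≤
        1 * 1 * ((∑' n : ℤ, Wt N n) + N) := by
          apply mul_le_mul (mul_le_mul (hc d) (hc' d') (abs_nonneg _) zero_le_one) _ (abs_nonneg _)
            (by norm_num)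
          refine (abs_sub _ _).trans (add_le_add (SS_abs N hN a a' d d') hF)
      _ = _ := by ring
  refine (Finset.abs_sum_le_sum_abs _ _).trans ?_
  have h1 : ∀ d ∈ Ioc D (2 * D), |∑ d' ∈ Ioc D (2 * D), c d * c' d' *
      (SS N a a' d d' - N * Fh (a' - a) (Nat.gcd d d') / (d * d'))| ≤
      D * ((∑' n : ℤ, Wt N n) + N) := by
    intro d hd
    refine (Finset.abs_sum_le_sum_abs _ _).trans ?_
    refine (Finset.sum_le_card_nsmul _ _ _ (hterm d hd)).trans ?_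
    rw [Nat.card_Ioc, nsmul_eq_mul]
    apply le_of_eq
    congr 2
    omega
  refine (Finset.sum_le_card_nsmul _ _ _ h1).trans ?_
  rw [Nat.card_Ioc, nsmul_eq_mul]
  have h2 : ((2 * D - D : ℕ) : ℝ) = D := by congr 1; omega
  rw [h2, ← mul_assoc]
  apply mul_le_mul_of_nonneg_right _ (by positivity)
  have h3 : (D : ℝ) ≤ N := by exact_mod_cast hD
  have h4 : (0:ℝ) ≤ D := by positivity
  nlinarith

lemma sum_inv (M : ℕ) : ∑ g ∈ Icc 1 M, (1 / (g : ℝ)) ≤ 1 + Real.log M := by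
  have h := harmonic_le_one_add_log M
  rw [harmonic_eq_sum_Icc] at h
  push_cast at h
  simpa [one_div] using h

end TaskM3

open TaskM3 in
theorem big_pairs_of
    (SS_not_dvd : ∀ (N : ℕ) (a a' : ℤ) (g d₁ d₂ : ℕ), ¬ (g : ℤ) ∣ a' - a →
      SS N a a' (g * d₁) (g * d₂) = 0)
    (SS_eval : ∃ N₀ : ℕ, ∀ N : ℕ, N₀ ≤ N → ∀ (a a' k : ℤ) (g d₁ d₂ : ℕ), 1 ≤ g → 1 ≤ d₁ →
      1 ≤ d₂ → Nat.Coprime d₁ d₂ → a' - a = g * k → (g * d₁ * d₂ : ℝ) ≤ (N : ℝ) ^ 3 →
      ∀ J : ℕ, (g * d₁ * d₂ : ℝ) * Real.log N ≤ (J + 1) * N →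
      ‖((SS N a a' (g * d₁) (g * d₂) : ℝ) : ℂ) -
        ((N : ℝ) / (g * d₁ * d₂) : ℝ) * ∑ j ∈ Icc (-(J : ℤ)) J,
          ((Real.exp (-Real.pi * ((j : ℝ) * N / (g * d₁ * d₂)) ^ 2) : ℝ) : ℂ) *
            e ((j : ℝ) * a / (g * d₁ * d₂)) * kf (j * k) d₁ d₂‖ ≤ 1 / (N : ℝ) ^ 5)
    (err_gj : ∀ (ε : ℝ), 0 < ε → ∃ C : ℝ, 0 < C ∧ ∀ (N D g : ℕ), 3 ≤ N → 1 ≤ g → g ≤ D →
      ∀ (a k j : ℤ), 0 ≤ a → a ≤ N → k ≠ 0 → |(g : ℝ) * k| ≤ N → j ≠ 0 →
      |(j : ℝ)| * (g * N) ≤ 4 * (D : ℝ) ^ 2 * Real.log N →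
      ∀ c c' : ℕ → ℝ, (∀ d, |c d| ≤ 1) → (∀ d, |c' d| ≤ 1) →
      ‖∑ d₁ ∈ Ioc (D / g) (2 * (D / g) + 1),
        ∑ d₂ ∈ (Ioc (D / g) (2 * (D / g) + 1)).filter (fun d₂ => Nat.Coprime d₁ d₂),
          (c (g * d₁) : ℂ) * (c' (g * d₂) : ℂ) * ((N : ℝ) / (g * d₁ * d₂) : ℝ) *
            ((Real.exp (-Real.pi * ((j : ℝ) * N / (g * d₁ * d₂)) ^ 2) : ℝ) : ℂ) *
            e ((j : ℝ) * a / (g * d₁ * d₂)) * kf (j * k) d₁ d₂‖ ≤
        C * Real.log N * (N / g) * ((D / g : ℕ) : ℝ) ^ (-(1 / 24) + ε : ℝ))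
    (θ : ℝ) (hθ : θ < 24 / 47) : ∃ (η C : ℝ), 0 < η ∧ 0 < C ∧
    ∀ (N D : ℕ), 2 ≤ N → (D : ℝ) ≤ (N : ℝ) ^ θ →
    ∀ (a a' : ℤ), 0 ≤ a → a ≤ N → 0 ≤ a' → a' ≤ N → a ≠ a' →
    ∀ c c' : ℕ → ℝ, (∀ d, |c d| ≤ 1) → (∀ d, |c' d| ≤ 1) →
    |∑ d ∈ Ioc D (2 * D), ∑ d' ∈ Ioc D (2 * D), c d * c' d' *
      (SS N a a' d d' - N * Fh (a' - a) (Nat.gcd d d') / (d * d'))| ≤ C * (N : ℝ) ^ (1 - η) := by
  -- reduction to `1/2 ≤ θ`
  wlog hhalf : 1 / 2 ≤ θ with H
  · obtain ⟨η, C, hη, hC, h⟩ := H SS_not_dvd SS_eval err_gj (max θ (1 / 2))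
      (max_lt hθ (by norm_num)) (le_max_right _ _)
    refine ⟨η, C, hη, hC, fun N D hN hD => h N D hN (hD.trans ?_)⟩
    exact Real.rpow_le_rpow_of_exponent_le (by
      have : 1 ≤ N := by omega
      exact_mod_cast this) (le_max_left _ _)
  set σ : ℝ := (1 + 47 * θ / 24) / 2 with hσ
  set ε : ℝ := (1 / θ - 47 / 24) / 2 with hε
  set η : ℝ := (1 - 47 * θ / 24) / 4 with hη
  have hθ0 : 0 < θ := by linarith
  have hinv1 : 1 / θ ≤ 2 := by rw [div_le_iff₀ hθ0]; linarith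
  have hinv2 : 47 / 24 < 1 / θ := by rw [lt_div_iff₀ hθ0]; linarith
  have hε0 : 0 < ε := by rw [hε]; linarith
  have hε1 : ε ≤ 1 / 48 := by rw [hε]; linarith
  have hη0 : 0 < η := by rw [hη]; linarith
  have hη1 : η < 1 := by rw [hη]; linarith
  have hσs : θ * (47 / 24 + ε) = σ := by
    rw [hε, hσ]
    field_simp
    ring
  obtain ⟨N1, hN1⟩ := SS_eval
  obtain ⟨C0, hC0, hErr⟩ := err_gj ε hε0
  set N0 : ℕ := max N1 (16 ^ 5 + 1) with hN0
  set C2 : ℝ := ∑ N ∈ range N0, ((N : ℝ) ^ 2 * ((∑' n : ℤ, Wt N n) + N)) with hC2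
  have hC2t : ∀ N : ℕ, 0 ≤ (N : ℝ) ^ 2 * ((∑' n : ℤ, Wt N n) + N) := by
    intro N
    have hS0 : 0 ≤ ∑' n : ℤ, Wt N n := tsum_nonneg (fun n => (Real.exp_pos _).le)
    positivity
  have hC20 : 0 ≤ C2 := Finset.sum_nonneg (fun N _ => hC2t N)
  refine ⟨η, C2 + 8 + 48 * C0 * (3 / η) ^ 3, hη0, by positivity, ?_⟩
  intro N D hN hDN a a' ha haN ha' ha'N haa c c' hc hc'
  have hN1r : (1:ℝ) ≤ N := by
    have : 1 ≤ N := by omega
    exact_mod_cast this
  have hNpos : (0:ℝ) < N := by linarith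
  have hpow1 : (1:ℝ) ≤ (N : ℝ) ^ (1 - η) := Real.one_le_rpow hN1r (by linarith)
  have hDleN : (D : ℝ) ≤ N := by
    refine hDN.trans ?_
    calc (N : ℝ) ^ θ ≤ (N : ℝ) ^ (1:ℝ) := Real.rpow_le_rpow_of_exponent_le hN1r (by linarith)
      _ = N := Real.rpow_one _
  have hDleN' : D ≤ N := by exact_mod_cast hDleN
  have hK0 : 0 ≤ 48 * C0 * (3 / η) ^ 3 := by positivity
  by_cases hlarge : N < N0
  · refine (trivial_bound N D (by omega) hDleN' a a' c c' hc hc').trans ?_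
    have h1 : (N : ℝ) ^ 2 * ((∑' n : ℤ, Wt N n) + N) ≤ C2 :=
      Finset.single_le_sum (f := fun N : ℕ => (N : ℝ) ^ 2 * ((∑' n : ℤ, Wt N n) + N))
        (fun N _ => hC2t N) (Finset.mem_range.mpr hlarge)
    calc (N : ℝ) ^ 2 * ((∑' n : ℤ, Wt N n) + N) ≤ C2 * 1 := by rw [mul_one]; exact h1
      _ ≤ (C2 + 8 + 48 * C0 * (3 / η) ^ 3) * (N : ℝ) ^ (1 - η) := by
        apply mul_le_mul _ hpow1 zero_le_one (by positivity)
        linarith
  · push Not at hlarge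
    have hNN1 : N1 ≤ N := (le_max_left _ _).trans hlarge
    have hN16 : 16 ^ 5 + 1 ≤ N := (le_max_right _ _).trans hlarge
    have hN3 : 3 ≤ N := by omega
    have h16 : (16:ℝ) < (N : ℝ) ^ (1 / 5 : ℝ) := by
      have h1 : ((16:ℝ) ^ (5:ℕ)) < N := by
        have : 16 ^ 5 < N := by omega
        exact_mod_cast this
      calc (16:ℝ) = ((16:ℝ) ^ (5:ℕ)) ^ (1 / 5 : ℝ) := by
            rw [← Real.rpow_natCast, ← Real.rpow_mul (by norm_num)]
            norm_num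
        _ < (N : ℝ) ^ (1 / 5 : ℝ) := Real.rpow_lt_rpow (by positivity) h1 (by norm_num)
    have hlog0 : 0 < Real.log N := Real.log_pos (by
      have : (3:ℝ) ≤ N := by exact_mod_cast hN3
      linarith)
    have hD1 : 4 * (D : ℝ) * Real.log N < N := by
      have h1 : Real.log N ≤ (N : ℝ) ^ (1 / 4 : ℝ) / (1 / 4) :=
        Real.log_le_rpow_div hNpos.le (by norm_num)
      have h2 : 0 < (N : ℝ) ^ θ := Real.rpow_pos_of_pos hNpos _
      have h3 : 0 < (N : ℝ) ^ (1 / 4 : ℝ) := Real.rpow_pos_of_pos hNpos _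
      calc 4 * (D : ℝ) * Real.log N ≤ 4 * (N : ℝ) ^ θ * ((N : ℝ) ^ (1 / 4 : ℝ) / (1 / 4)) := by
            apply mul_le_mul _ h1 hlog0.le (by positivity)
            linarith
        _ = 16 * ((N : ℝ) ^ θ * (N : ℝ) ^ (1 / 4 : ℝ)) := by ring
        _ < (N : ℝ) ^ (1 / 5 : ℝ) * ((N : ℝ) ^ θ * (N : ℝ) ^ (1 / 4 : ℝ)) :=
            mul_lt_mul_of_pos_right h16 (by positivity)
        _ = (N : ℝ) ^ (1 / 5 + (θ + 1 / 4) : ℝ) := by
            rw [← Real.rpow_add hNpos, ← Real.rpow_add hNpos]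
        _ ≤ (N : ℝ) ^ (1:ℝ) := Real.rpow_le_rpow_of_exponent_le hN1r (by linarith)
        _ = N := Real.rpow_one _
    have hD2 : 4 * (D : ℝ) ^ 2 ≤ (N : ℝ) ^ 3 := by
      have h4 : (4:ℝ) ≤ N := by
        have : 4 ≤ N := by omega
        exact_mod_cast this
      have h5 : (D : ℝ) ^ 2 ≤ (N : ℝ) ^ 2 := pow_le_pow_left₀ (by positivity) hDleN 2
      calc 4 * (D : ℝ) ^ 2 ≤ N * (N : ℝ) ^ 2 := mul_le_mul h4 h5 (by positivity) hNpos.le
        _ = (N : ℝ) ^ 3 := by ring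
    have hmain : ∑ d ∈ Ioc D (2 * D), ∑ d' ∈ Ioc D (2 * D), c d * c' d' *
        (SS N a a' d d' - N * Fh (a' - a) (Nat.gcd d d') / (d * d')) =
        ∑ g ∈ Icc 1 (2 * D), Eg N D g a a' c c' := by
      have h1 : ∑ d ∈ Ioc D (2 * D), ∑ d' ∈ Ioc D (2 * D), c d * c' d' *
          (SS N a a' d d' - N * Fh (a' - a) (Nat.gcd d d') / (d * d')) =
          ∑ d ∈ Ioc D (2 * D), ∑ d' ∈ Ioc D (2 * D), tc D c d * tc D c' d' *
          (SS N a a' d d' - N * Fh (a' - a) (Nat.gcd d d') / ((d : ℝ) * (d' : ℝ))) := by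
        apply Finset.sum_congr rfl
        intro d hd
        apply Finset.sum_congr rfl
        intro d' hd'
        unfold tc
        rw [if_pos hd, if_pos hd']
      rw [h1]
      rw [group D (fun d d' => tc D c d * tc D c' d' *
          (SS N a a' d d' - N * Fh (a' - a) (Nat.gcd d d') / ((d : ℝ) * (d' : ℝ)))) ?_]
      · rfl
      · intro d d' h
        unfold tc
        rcases h with h | h
        · rw [if_neg h]; ring
        · rw [if_neg h]; ring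
    rw [hmain]
    have hb := fun g (hg : g ∈ Icc 1 (2 * D)) => bound_g SS_not_dvd ε hε1 hε0 C0 hC0 hErr N hN3
      (hN1 N hNN1) D hD1 hD2 g (Finset.mem_Icc.mp hg).1 a a' ha haN ha' ha'N haa c c' hc hc'
    refine (Finset.abs_sum_le_sum_abs _ _).trans ((Finset.sum_le_sum hb).trans ?_)
    rw [Finset.sum_add_distrib, Finset.sum_const, ← Finset.mul_sum, Nat.card_Icc, nsmul_eq_mul]
    have hfirst : ((2 * D + 1 - 1 : ℕ) : ℝ) * (((D : ℝ) + 1) ^ 2 * (1 / (N : ℝ) ^ 5)) ≤ 8 := by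
      have h1 : ((2 * D + 1 - 1 : ℕ) : ℝ) = 2 * D := by
        rw [Nat.add_sub_cancel]; push_cast; ring
      rw [h1]
      have h2 : (D : ℝ) + 1 ≤ 2 * N := by linarith
      have h3 : ((D : ℝ) + 1) ^ 2 ≤ (2 * N) ^ 2 := pow_le_pow_left₀ (by positivity) h2 2
      have h4 : 2 * (D : ℝ) * (((D : ℝ) + 1) ^ 2 * (1 / (N : ℝ) ^ 5)) ≤
          2 * N * ((2 * N) ^ 2 * (1 / (N : ℝ) ^ 5)) := by
        apply mul_le_mul (by linarith) _ (by positivity) (by positivity)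
        exact mul_le_mul_of_nonneg_right h3 (by positivity)
      refine h4.trans ?_
      have h5 : 2 * (N : ℝ) * ((2 * N) ^ 2 * (1 / (N : ℝ) ^ 5)) = 8 * (1 / (N : ℝ) ^ 2) := by
        field_simp
        ring
      rw [h5]
      have h6 : 1 / (N : ℝ) ^ 2 ≤ 1 := by
        rw [div_le_one (by positivity)]
        exact one_le_pow₀ hN1r
      linarith
    have hlogN : 1 ≤ Real.log N := by
      rw [Real.le_log_iff_exp_le hNpos]
      have h1 := Real.exp_one_lt_d9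
      have h2 : (3:ℝ) ≤ N := by exact_mod_cast hN3
      linarith
    have hsum : ∑ g ∈ Icc 1 (2 * D), (1 / (g : ℝ)) ≤ 3 * Real.log N := by
      refine (sum_inv (2 * D)).trans ?_
      by_cases hD0 : D = 0
      · subst hD0
        simp
        linarith
      · have hDpos : (0:ℝ) < D := by
          have : 0 < D := Nat.pos_of_ne_zero hD0
          exact_mod_cast this
        have h1 : Real.log ((2 * D : ℕ) : ℝ) ≤ 2 * Real.log N := by
          have h2 : Real.log ((2 * D : ℕ) : ℝ) ≤ Real.log ((N : ℝ) ^ 2) := by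
            apply Real.log_le_log (by push_cast; positivity)
            push_cast
            have h3 : (2:ℝ) ≤ N := by exact_mod_cast hN
            nlinarith
          rw [Real.log_pow] at h2
          exact_mod_cast h2
        linarith
    have hDs : (D : ℝ) ^ (47 / 24 + ε : ℝ) ≤ (N : ℝ) ^ σ := by
      calc (D : ℝ) ^ (47 / 24 + ε : ℝ) ≤ ((N : ℝ) ^ θ) ^ (47 / 24 + ε : ℝ) :=
            Real.rpow_le_rpow (by positivity) hDN (by positivity)
        _ = (N : ℝ) ^ σ := by rw [← Real.rpow_mul hNpos.le, hσs]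
    have hlog3 : Real.log N ^ 3 ≤ (3 / η) ^ 3 * (N : ℝ) ^ η := by
      have h1 : Real.log N ≤ (N : ℝ) ^ (η / 3) / (η / 3) :=
        Real.log_le_rpow_div hNpos.le (by positivity)
      calc Real.log N ^ 3 ≤ ((N : ℝ) ^ (η / 3) / (η / 3)) ^ 3 := pow_le_pow_left₀ hlog0.le h1 3
        _ = (3 / η) ^ 3 * ((N : ℝ) ^ (η / 3)) ^ 3 := by
            field_simp
        _ = (3 / η) ^ 3 * (N : ℝ) ^ η := by
            rw [← Real.rpow_natCast ((N : ℝ) ^ (η / 3)), ← Real.rpow_mul hNpos.le]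
            congr 2
            push_cast
            ring
    have hNs0 : 0 < (N : ℝ) ^ σ := Real.rpow_pos_of_pos hNpos _
    have hsecond : 16 * C0 * Real.log N ^ 2 * (D : ℝ) ^ (47 / 24 + ε : ℝ) *
        ∑ g ∈ Icc 1 (2 * D), (1 / (g : ℝ)) ≤ 48 * C0 * (3 / η) ^ 3 * (N : ℝ) ^ (1 - η) := by
      calc 16 * C0 * Real.log N ^ 2 * (D : ℝ) ^ (47 / 24 + ε : ℝ) *
          ∑ g ∈ Icc 1 (2 * D), (1 / (g : ℝ)) ≤
          16 * C0 * Real.log N ^ 2 * (N : ℝ) ^ σ * (3 * Real.log N) := by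
            apply mul_le_mul _ hsum (Finset.sum_nonneg (fun g _ => by positivity)) (by positivity)
            exact mul_le_mul_of_nonneg_left hDs (by positivity)
        _ = 48 * C0 * (N : ℝ) ^ σ * Real.log N ^ 3 := by ring
        _ ≤ 48 * C0 * (N : ℝ) ^ σ * ((3 / η) ^ 3 * (N : ℝ) ^ η) :=
            mul_le_mul_of_nonneg_left hlog3 (by positivity)
        _ = 48 * C0 * (3 / η) ^ 3 * ((N : ℝ) ^ σ * (N : ℝ) ^ η) := by ring
        _ = 48 * C0 * (3 / η) ^ 3 * (N : ℝ) ^ (1 - η) := by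
            rw [← Real.rpow_add hNpos]
            congr 2
            rw [hσ, hη]
            ring
    have h8 : (8:ℝ) ≤ 8 * (N : ℝ) ^ (1 - η) := by linarith
    have h9 : 0 ≤ C2 * (N : ℝ) ^ (1 - η) := by positivity
    calc _ ≤ 8 + 48 * C0 * (3 / η) ^ 3 * (N : ℝ) ^ (1 - η) := add_le_add hfirst hsecond
      _ ≤ (C2 + 8 + 48 * C0 * (3 / η) ^ 3) * (N : ℝ) ^ (1 - η) := by linarith

end Pool.Agent.H442R2.KF
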