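import Pool.Agent.H442R2.KF.Poi

/-!
KF project, task M1 (helper872).
-/

set_option autoImplicit false

namespace Pool.Agent.H442R2.KF

open Finset

namespace TaskM1

theorem inv_val (d₁ d₂ : ℕ) (h2 : 1 ≤ d₂) (h : Nat.Coprime d₁ d₂) :
    ((d₂ : ℕ) : ℤ) ∣ (d₁ : ℤ) * ((((((d₁ : ℕ) : ℤ) : ZMod d₂)⁻¹).val : ℕ) : ℤ) - 1 := by
  have : NeZero d₂ := ⟨by omega⟩
  rw [← ZMod.intCast_zmod_eq_zero_iff_dvd, Int.cast_sub, Int.cast_mul, Int.cast_natCast,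
    Int.cast_natCast, Int.cast_one, ZMod.natCast_val, ZMod.cast_id', id_eq]
  rw [ZMod.coe_mul_inv_eq_one d₁ h, sub_self]

theorem dvd_iff_crt (a a' k kap n : ℤ) (g d₁ d₂ : ℕ) (hg : 1 ≤ g)
    (hc : Nat.Coprime d₁ d₂) (hk : a' - a = g * k) (hkap : (d₂ : ℤ) ∣ (d₁ : ℤ) * kap - k) :
    (((g * d₁ : ℕ) : ℤ) ∣ n - a ∧ ((g * d₂ : ℕ) : ℤ) ∣ n - a') ↔
      ((g * d₁ * d₂ : ℕ) : ℤ) ∣ n - (a + g * d₁ * kap) := by
  have hg' : (g : ℤ) ≠ 0 := by exact_mod_cast (show g ≠ 0 by omega)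
  obtain ⟨r, hr⟩ := hkap
  push_cast
  constructor
  · rintro ⟨⟨u, hu⟩, ⟨v, hv⟩⟩
    have e1 : n - (a + g * d₁ * kap) = g * (d₁ * (u - kap)) := by
      linear_combination hu
    have e2 : n - (a + g * d₁ * kap) = g * (d₂ * (v - r)) := by
      linear_combination hv + hk - (g : ℤ) * hr
    have e3 : (d₁ : ℤ) * (u - kap) = d₂ * (v - r) := by
      have := e1.symm.trans e2
      exact mul_left_cancel₀ hg' this
    have hco : IsCoprime (d₁ : ℤ) (d₂ : ℤ) := Nat.isCoprime_iff_coprime.2 hc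
    have hd : (d₂ : ℤ) ∣ u - kap := by
      refine hco.symm.dvd_of_dvd_mul_left ?_
      exact ⟨v - r, e3⟩
    obtain ⟨s, hs⟩ := hd
    rw [e1, hs]
    exact ⟨s, by ring⟩
  · rintro ⟨w, hw⟩
    refine ⟨⟨d₂ * w + kap, ?_⟩, ⟨d₁ * w + r, ?_⟩⟩
    · linear_combination hw
    · linear_combination hw - hk + (g : ℤ) * hr

end TaskM1

open TaskM1

/-- M1 (Crt.lean) -/
theorem SS_not_dvd (N : ℕ) (a a' : ℤ) (g d₁ d₂ : ℕ) (h : ¬ (g : ℤ) ∣ a' - a) :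
    SS N a a' (g * d₁) (g * d₂) = 0 := by
  unfold SS
  have : ∀ n : ℤ, (if (((g * d₁ : ℕ) : ℤ) ∣ n - a ∧ ((g * d₂ : ℕ) : ℤ) ∣ n - a') then Wt N n
      else 0) = 0 := by
    intro n
    rw [if_neg]
    rintro ⟨h1, h2⟩
    apply h
    have e1 : (g : ℤ) ∣ n - a := (Dvd.intro (d₁ : ℤ) (by push_cast; rfl)).trans h1
    have e2 : (g : ℤ) ∣ n - a' := (Dvd.intro (d₂ : ℤ) (by push_cast; rfl)).trans h2
    have := dvd_sub e1 e2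
    have e3 : n - a - (n - a') = a' - a := by ring
    rwa [e3] at this
  simp_rw [this]
  exact tsum_zero

/-- M1 (Crt.lean) -/
theorem SS_eval : ∃ N₀ : ℕ, ∀ N : ℕ, N₀ ≤ N → ∀ (a a' k : ℤ) (g d₁ d₂ : ℕ), 1 ≤ g → 1 ≤ d₁ →
    1 ≤ d₂ → Nat.Coprime d₁ d₂ → a' - a = g * k → (g * d₁ * d₂ : ℝ) ≤ (N : ℝ) ^ 3 →
    ∀ J : ℕ, (g * d₁ * d₂ : ℝ) * Real.log N ≤ (J + 1) * N →
    ‖((SS N a a' (g * d₁) (g * d₂) : ℝ) : ℂ) -
      ((N : ℝ) / (g * d₁ * d₂) : ℝ) * ∑ j ∈ Icc (-(J : ℤ)) J,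
        ((Real.exp (-Real.pi * ((j : ℝ) * N / (g * d₁ * d₂)) ^ 2) : ℝ) : ℂ) *
          e ((j : ℝ) * a / (g * d₁ * d₂)) * kf (j * k) d₁ d₂‖ ≤ 1 / (N : ℝ) ^ 5 := by
  obtain ⟨N₀, hN₀⟩ := poisson_trunc
  refine ⟨N₀, fun N hN a a' k g d₁ d₂ hg h1 h2 hc hk hm J hJ => ?_⟩
  obtain ⟨db, hdb⟩ : ∃ db : ℕ, db = (((((d₁ : ℕ) : ℤ) : ZMod d₂)⁻¹).val : ℕ) := ⟨_, rfl⟩
  have hkap : (d₂ : ℤ) ∣ (d₁ : ℤ) * (k * db) - k := by
    obtain ⟨r, hr⟩ := inv_val d₁ d₂ h2 hc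
    rw [← hdb] at hr
    exact ⟨r * k, by linear_combination k * hr⟩
  have hm1 : 1 ≤ g * d₁ * d₂ := Nat.succ_le_of_lt (by positivity)
  have key := hN₀ N hN (g * d₁ * d₂) hm1 (by push_cast; exact hm) (a + g * d₁ * (k * db)) J
    (by push_cast; exact hJ)
  have eSS : SS N a a' (g * d₁) (g * d₂) =
      ∑' n : ℤ, (if ((g * d₁ * d₂ : ℕ) : ℤ) ∣ n - (a + g * d₁ * (k * db)) then Wt N n else 0) := by
    unfold SS
    refine tsum_congr fun n => ?_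
    have := dvd_iff_crt a a' k (k * db) n g d₁ d₂ hg hc hk hkap
    by_cases hp : (((g * d₁ : ℕ) : ℤ) ∣ n - a ∧ ((g * d₂ : ℕ) : ℤ) ∣ n - a')
    · rw [if_pos hp, if_pos (this.1 hp)]
    · rw [if_neg hp, if_neg (fun h => hp (this.2 h))]
  rw [eSS]
  have hg0 : (g : ℝ) ≠ 0 := by
    have : g ≠ 0 := by omega
    exact_mod_cast this
  have hd10 : (d₁ : ℝ) ≠ 0 := by
    have : d₁ ≠ 0 := by omega
    exact_mod_cast this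
  have hd20 : (d₂ : ℝ) ≠ 0 := by
    have : d₂ ≠ 0 := by omega
    exact_mod_cast this
  have esum : ∀ j ∈ Icc (-(J : ℤ)) J,
      ((Real.exp (-Real.pi * ((j : ℝ) * N / ((g * d₁ * d₂ : ℕ) : ℝ)) ^ 2) : ℝ) : ℂ) *
        e ((j : ℝ) * ((a + g * d₁ * (k * db) : ℤ) : ℝ) / ((g * d₁ * d₂ : ℕ) : ℝ)) =
      ((Real.exp (-Real.pi * ((j : ℝ) * N / (g * d₁ * d₂)) ^ 2) : ℝ) : ℂ) *
          e ((j : ℝ) * a / (g * d₁ * d₂)) * kf (j * k) d₁ d₂ := by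
    intro j _
    unfold kf
    rw [← hdb, mul_assoc _ (e _) (e _), ← e_add]
    congr 2
    · push_cast; ring_nf
    · push_cast
      field_simp
  rw [Finset.sum_congr rfl esum] at key
  have e0 : ((N : ℝ) / ((g * d₁ * d₂ : ℕ) : ℝ)) = (N : ℝ) / (g * d₁ * d₂) := by push_cast; rfl
  rw [e0] at key
  exact key

end Pool.Agent.H442R2.KF
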