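import Pool.Agent.H442R2.KF.Defs

/-! # N3: diagonalisation by Ramanujan sums -/

namespace Pool.Agent.H442R2.KF

open Finset

namespace TaskN3

theorem sum_ram (h : ℤ) (g : ℕ) (hg : 0 < g) : ∑ q ∈ g.divisors, ram q h = Fh h g := by
  have key : ∀ n : ℕ, n > 0 → ∑ i ∈ n.divisors, ram i h = Fh h n := by
    rw [ArithmeticFunction.sum_eq_iff_sum_mul_moebius_eq]
    intro n _
    rw [Nat.sum_divisorsAntidiagonal' (fun a b => ((ArithmeticFunction.moebius a : ℤ) : ℝ) * Fh h b)]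
    unfold ram Fh
    rw [Finset.sum_filter]
    refine Finset.sum_congr rfl fun d _ => ?_
    split_ifs <;> simp
  exact key g hg

theorem fh_eq (h : ℤ) (X d d' : ℕ) (hd : d ∈ Icc 1 X) :
    Fh h (Nat.gcd d d') = ∑ q ∈ Icc 1 X, if q ∣ d ∧ q ∣ d' then ram q h else 0 := by
  rw [mem_Icc] at hd
  have hg : 0 < Nat.gcd d d' := Nat.gcd_pos_of_pos_left _ (by omega)
  rw [← sum_ram h _ hg, ← Finset.sum_filter]
  refine Finset.sum_congr ?_ fun _ _ => rfl
  ext q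
  rw [Nat.mem_divisors, mem_filter, mem_Icc, Nat.dvd_gcd_iff]
  constructor
  · rintro ⟨⟨h1, h2⟩, _⟩
    exact ⟨⟨Nat.pos_of_dvd_of_pos h1 (by omega), (Nat.le_of_dvd (by omega) h1).trans hd.2⟩, h1, h2⟩
  · rintro ⟨_, h1, h2⟩
    exact ⟨⟨h1, h2⟩, by omega⟩

end TaskN3

open TaskN3 in
/-- N3 (Bil.lean): diagonalisation by Ramanujan sums -/
theorem bilinear (u u' : ℕ → ℝ) (X : ℕ) (h : ℤ) :
    ∑ d ∈ Icc 1 X, ∑ d' ∈ Icc 1 X, u d * u' d' * Fh h (Nat.gcd d d') / (d * d') =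
      ∑ q ∈ Icc 1 X, ram q h * uh u X q * uh u' X q := by
  have h1 : ∀ d ∈ Icc 1 X, ∀ d' ∈ Icc 1 X, u d * u' d' * Fh h (Nat.gcd d d') / (d * d') =
      ∑ q ∈ Icc 1 X, ram q h * (if q ∣ d then u d / d else 0) * (if q ∣ d' then u' d' / d' else 0) := by
    intro d hd d' hd'
    rw [fh_eq h X d d' hd, Finset.mul_sum, Finset.sum_div]
    refine Finset.sum_congr rfl fun q _ => ?_
    by_cases hq : q ∣ d <;> by_cases hq' : q ∣ d'
    · rw [if_pos ⟨hq, hq'⟩, if_pos hq, if_pos hq', mul_assoc (ram q h), div_mul_div_comm]; ring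
    · rw [if_neg (fun h => hq' h.2), if_neg hq']; ring
    · rw [if_neg (fun h => hq h.1), if_neg hq]; ring
    · rw [if_neg (fun h => hq h.1), if_neg hq]; ring
  rw [Finset.sum_congr rfl fun d hd => Finset.sum_congr rfl fun d' hd' => h1 d hd d' hd']
  have h2 : ∀ d ∈ Icc 1 X, ∑ d' ∈ Icc 1 X, ∑ q ∈ Icc 1 X,
      ram q h * (if q ∣ d then u d / d else 0) * (if q ∣ d' then u' d' / d' else 0) =
      ∑ q ∈ Icc 1 X, ram q h * (if q ∣ d then u d / d else 0) * uh u' X q := by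
    intro d _
    rw [Finset.sum_comm]
    refine Finset.sum_congr rfl fun q _ => ?_
    rw [← Finset.mul_sum]
    unfold uh
    rw [Finset.sum_filter]
  rw [Finset.sum_congr rfl h2, Finset.sum_comm]
  refine Finset.sum_congr rfl fun q _ => ?_
  rw [← Finset.sum_mul, ← Finset.mul_sum]
  congr 2
  unfold uh
  rw [Finset.sum_filter]

end Pool.Agent.H442R2.KF
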