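import Pool.Agent.H442R2.KF.Defs

/-!
KF project, task N2: the weights of the model.
-/

namespace Pool.Agent.H442R2.KF

open Finset

namespace TaskN2

lemma sum_moebius_div (m : ℕ) (hm : 1 ≤ m) :
    ∑ f ∈ m.divisors, (ArithmeticFunction.moebius (m / f) : ℝ) = if m = 1 then 1 else 0 := by
  rw [Nat.sum_div_divisors m (fun k => (ArithmeticFunction.moebius k : ℝ))]
  have h := congrArg (fun g : ArithmeticFunction ℤ => g m) ArithmeticFunction.coe_zeta_mul_moebius
  simp only [ArithmeticFunction.coe_zeta_mul_apply, ArithmeticFunction.one_apply] at h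
  have h2 := congrArg (fun z : ℤ => (z : ℝ)) h
  simp only [Int.cast_sum] at h2
  rw [h2]
  split_ifs <;> simp

lemma sum_inner (q q' : ℕ) (hq : 1 ≤ q) (hq' : 1 ≤ q') :
    ∑ d ∈ q'.divisors.filter (fun d => q ∣ d), (ArithmeticFunction.moebius (q' / d) : ℝ) =
      if q' = q then 1 else 0 := by
  by_cases h : q ∣ q'
  · obtain ⟨m, rfl⟩ := h
    have hm : 1 ≤ m := Nat.pos_of_ne_zero (by rintro rfl; simp at hq')
    have hset : (q * m).divisors.filter (fun d => q ∣ d) = m.divisors.image (fun f => q * f) := by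
      ext d
      simp only [mem_filter, Nat.mem_divisors, mem_image]
      constructor
      · rintro ⟨⟨h1, h2⟩, f, rfl⟩
        exact ⟨f, ⟨Nat.dvd_of_mul_dvd_mul_left hq h1, by omega⟩, rfl⟩
      · rintro ⟨f, ⟨h1, h2⟩, rfl⟩
        exact ⟨⟨mul_dvd_mul_left q h1, by positivity⟩, dvd_mul_right _ _⟩
    rw [hset, sum_image (fun x _ y _ hxy => Nat.eq_of_mul_eq_mul_left hq hxy)]
    rw [sum_congr rfl (g := fun f => (ArithmeticFunction.moebius (m / f) : ℝ)) (fun f _ => by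
      rw [Nat.mul_div_mul_left _ _ hq])]
    rw [sum_moebius_div m hm]
    have : (q * m = q) ↔ m = 1 := by
      constructor
      · intro h
        exact Nat.eq_of_mul_eq_mul_left hq (by rw [h, mul_one])
      · rintro rfl; rw [mul_one]
    simp only [this]
  · have h1 : q'.divisors.filter (fun d => q ∣ d) = ∅ := by
      apply filter_eq_empty_iff.2
      intro d hd hqd
      exact h (hqd.trans (Nat.dvd_of_mem_divisors hd))
    rw [h1, sum_empty, if_neg]
    rintro rfl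
    exact h dvd_rfl

lemma filter_eq (q q' Q : ℕ) (h1 : 1 ≤ q') (h2 : q' ≤ Q) :
    (Icc 1 Q).filter (fun d => q ∣ d ∧ d ∣ q') = q'.divisors.filter (fun d => q ∣ d) := by
  ext d
  simp only [mem_filter, mem_Icc, Nat.mem_divisors]
  constructor
  · rintro ⟨⟨h3, h4⟩, h5, h6⟩
    exact ⟨⟨h6, by omega⟩, h5⟩
  · rintro ⟨⟨h3, h4⟩, h5⟩
    exact ⟨⟨Nat.pos_of_dvd_of_pos h3 h1, (Nat.le_of_dvd h1 h3).trans h2⟩, h5, h3⟩

lemma uh_ww (c : ℕ → ℝ) (X Q q : ℕ) (hq : 1 ≤ q) (hQ : Q ≤ X) :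
    uh (ww c X Q) X q = if q ≤ Q then uh c X q else 0 := by
  have s1 : uh (ww c X Q) X q = ∑ d ∈ (Icc 1 Q).filter (fun d => q ∣ d),
      ∑ q' ∈ (Icc 1 Q).filter (fun q' => d ∣ q'),
        (ArithmeticFunction.moebius (q' / d) : ℝ) * uh c X q' := by
    unfold uh
    have hsub : (Icc 1 Q).filter (fun d => q ∣ d) ⊆ (Icc 1 X).filter (fun d => q ∣ d) := by
      intro d hd
      rw [mem_filter, mem_Icc] at hd ⊢
      exact ⟨⟨hd.1.1, hd.1.2.trans hQ⟩, hd.2⟩
    rw [← sum_subset hsub]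
    · refine sum_congr rfl fun d hd => ?_
      rw [mem_filter, mem_Icc] at hd
      have hd0 : (d : ℝ) ≠ 0 := by
        have : 1 ≤ d := hd.1.1
        positivity
      unfold ww
      rw [if_pos hd.1, mul_div_assoc, mul_comm, div_mul_cancel₀ _ hd0]
      rfl
    · intro d hd hd2
      rw [mem_filter, mem_Icc] at hd hd2
      have : ww c X Q d = 0 := by
        unfold ww
        rw [if_neg]
        intro h
        exact hd2 ⟨h, hd.2⟩
      rw [this, zero_div]
  have s2 : ∑ d ∈ (Icc 1 Q).filter (fun d => q ∣ d),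
      ∑ q' ∈ (Icc 1 Q).filter (fun q' => d ∣ q'),
        (ArithmeticFunction.moebius (q' / d) : ℝ) * uh c X q' =
      ∑ q' ∈ Icc 1 Q, ∑ d ∈ (Icc 1 Q).filter (fun d => q ∣ d ∧ d ∣ q'),
        (ArithmeticFunction.moebius (q' / d) : ℝ) * uh c X q' := by
    rw [sum_filter]
    simp_rw [sum_filter]
    simp only [ite_and]
    rw [sum_comm]
    refine sum_congr rfl fun d _ => ?_
    by_cases h : q ∣ d
    · simp [h]
    · simp [h]
  have s3 : ∀ q' ∈ Icc 1 Q, ∑ d ∈ (Icc 1 Q).filter (fun d => q ∣ d ∧ d ∣ q'),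
        (ArithmeticFunction.moebius (q' / d) : ℝ) * uh c X q' =
        if q' = q then uh c X q' else 0 := by
    intro q' hq'
    rw [mem_Icc] at hq'
    rw [← sum_mul, filter_eq q q' Q hq'.1 hq'.2, sum_inner q q' hq hq'.1]
    split_ifs <;> simp
  rw [s1, s2, sum_congr rfl s3, sum_ite_eq']
  by_cases h : q ≤ Q
  · rw [if_pos (mem_Icc.2 ⟨hq, h⟩), if_pos h]
  · rw [if_neg (fun h' => h (mem_Icc.1 h').2), if_neg h]

end TaskN2

/-- N2 (Hat.lean) -/
theorem uh_uu (c : ℕ → ℝ) (X Q q : ℕ) (hq : 1 ≤ q) (hQ : Q ≤ X) :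
    uh (uu c X Q) X q = if q ≤ Q then 0 else uh c X q := by
  have h1 : uh (uu c X Q) X q = uh c X q - uh (ww c X Q) X q := by
    unfold uh uu
    rw [← sum_sub_distrib]
    exact sum_congr rfl fun d _ => sub_div _ _ _
  rw [h1, TaskN2.uh_ww c X Q q hq hQ]
  split_ifs <;> simp

/-- N2 (Hat.lean) -/
theorem abs_uh_le (c : ℕ → ℝ) (D q : ℕ) (hc : Cof D c) (hq : 1 ≤ q) :
    |uh c (2 * D) q| ≤ 2 / q := by
  rcases Nat.eq_zero_or_pos D with rfl | hD
  · simp only [uh, mul_zero]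
    rw [show Icc 1 0 = (∅ : Finset ℕ) from rfl, filter_empty, sum_empty, abs_zero]
    positivity
  have hD' : (0 : ℝ) < D := by exact_mod_cast hD
  have hq' : (0 : ℝ) < q := by exact_mod_cast hq
  unfold uh
  refine (abs_sum_le_sum_abs _ _).trans ?_
  have h1 : ∀ d ∈ (Icc 1 (2 * D)).filter (fun d => q ∣ d), |c d / d| ≤ 1 / D := by
    intro d hd
    by_cases h : d ∈ Ioc D (2 * D)
    · rw [abs_div, Nat.abs_cast]
      have : (D : ℝ) < d := by exact_mod_cast (mem_Ioc.1 h).1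
      exact div_le_div₀ zero_le_one (hc.bd d) hD' this.le
    · rw [hc.supp d h]; simp
  refine (sum_le_sum h1).trans ?_
  rw [sum_const, nsmul_eq_mul]
  have h2 : ((Icc 1 (2 * D)).filter (fun d => q ∣ d)).card = 2 * D / q := by
    rw [← Nat.Ioc_filter_dvd_card_eq_div (2 * D) q]
    rfl
  rw [h2]
  have h3 : ((2 * D / q : ℕ) : ℝ) ≤ 2 * D / q := by
    have := @Nat.cast_div_le ℝ _ _ _ (2 * D) q
    push_cast at this
    exact this
  calc ((2 * D / q : ℕ) : ℝ) * (1 / D) ≤ (2 * D / q) * (1 / D) := by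
        exact mul_le_mul_of_nonneg_right h3 (by positivity)
    _ = 2 / q := by field_simp

/-- N2 (Hat.lean) -/
theorem abs_ww_le (c : ℕ → ℝ) (D Q d : ℕ) (hc : Cof D c) (hQ : 1 ≤ Q) :
    |ww c (2 * D) Q d| ≤ 2 * (1 + Real.log Q) := by
  have hlog : 0 ≤ Real.log Q := Real.log_natCast_nonneg Q
  unfold ww
  split_ifs with h
  swap
  · rw [abs_zero]; positivity
  have hd : (0 : ℝ) < d := by exact_mod_cast h.1
  rw [abs_mul, Nat.abs_cast]
  have h1 : |∑ q ∈ (Icc 1 Q).filter (fun q => d ∣ q),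
      (ArithmeticFunction.moebius (q / d) : ℝ) * uh c (2 * D) q| ≤
      ∑ q ∈ (Icc 1 Q).filter (fun q => d ∣ q), 2 / (q : ℝ) := by
    refine (abs_sum_le_sum_abs _ _).trans (sum_le_sum fun q hq => ?_)
    rw [mem_filter, mem_Icc] at hq
    rw [abs_mul]
    have h2 : |(ArithmeticFunction.moebius (q / d) : ℝ)| ≤ 1 := by
      exact_mod_cast ArithmeticFunction.abs_moebius_le_one
    calc |(ArithmeticFunction.moebius (q / d) : ℝ)| * |uh c (2 * D) q| ≤ 1 * (2 / q) :=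
          mul_le_mul h2 (abs_uh_le c D q hc hq.1.1) (abs_nonneg _) zero_le_one
      _ = 2 / q := one_mul _
  have h3 : ∑ q ∈ (Icc 1 Q).filter (fun q => d ∣ q), 2 / (q : ℝ) ≤
      ∑ m ∈ Icc 1 Q, 2 / ((d * m : ℕ) : ℝ) := by
    have hsub : (Icc 1 Q).filter (fun q => d ∣ q) ⊆ (Icc 1 Q).image (fun m => d * m) := by
      intro q hq
      rw [mem_filter, mem_Icc] at hq
      obtain ⟨m, rfl⟩ := hq.2
      refine mem_image.2 ⟨m, mem_Icc.2 ⟨?_, ?_⟩, rfl⟩
      · exact Nat.pos_of_ne_zero (by rintro rfl; simp at hq)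
      · exact le_trans (Nat.le_mul_of_pos_left m h.1) hq.1.2
    refine (sum_le_sum_of_subset_of_nonneg hsub fun i _ _ => by positivity).trans ?_
    rw [sum_image (fun x _ y _ hxy => Nat.eq_of_mul_eq_mul_left h.1 hxy)]
  have h4 : (d : ℝ) * ∑ m ∈ Icc 1 Q, 2 / ((d * m : ℕ) : ℝ) = 2 * ∑ m ∈ Icc 1 Q, ((m : ℝ))⁻¹ := by
    rw [mul_sum, mul_sum]
    refine sum_congr rfl fun m hm => ?_
    have : (0 : ℝ) < m := by exact_mod_cast (mem_Icc.1 hm).1
    push_cast
    field_simp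
  have h5 : ∑ m ∈ Icc 1 Q, ((m : ℝ))⁻¹ ≤ 1 + Real.log Q := by
    have := harmonic_le_one_add_log Q
    rw [harmonic_eq_sum_Icc] at this
    push_cast at this
    exact this
  calc (d : ℝ) * |∑ q ∈ (Icc 1 Q).filter (fun q => d ∣ q),
      (ArithmeticFunction.moebius (q / d) : ℝ) * uh c (2 * D) q| ≤
      d * ∑ m ∈ Icc 1 Q, 2 / ((d * m : ℕ) : ℝ) :=
        mul_le_mul_of_nonneg_left (h1.trans h3) hd.le
    _ = 2 * ∑ m ∈ Icc 1 Q, ((m : ℝ))⁻¹ := h4
    _ ≤ 2 * (1 + Real.log Q) := by linarith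

/-- N2 (Hat.lean) -/
theorem ww_zero (c : ℕ → ℝ) (X Q d : ℕ) (hd : Q < d) : ww c X Q d = 0 := by
  unfold ww
  rw [if_neg]
  omega

/-- N2 (Hat.lean): the weights of the model are supported on the same coprimality class -/
theorem ww_coprime (c : ℕ → ℝ) (X Q a d : ℕ) (hc : ∀ m, ¬ Nat.Coprime a m → c m = 0)
    (hd : ¬ Nat.Coprime a d) : ww c X Q d = 0 := by
  unfold ww
  split_ifs with h
  swap
  · rfl
  rw [sum_eq_zero, mul_zero]
  intro q hq
  have : uh c X q = 0 := by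
    unfold uh
    refine sum_eq_zero fun m hm => ?_
    rw [hc m, zero_div]
    intro hcm
    exact hd (Nat.Coprime.coprime_dvd_right ((mem_filter.1 hq).2.trans (mem_filter.1 hm).2) hcm)
  rw [this, mul_zero]

end Pool.Agent.H442R2.KF
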