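import Pool.Agent.H442R2.KF.Defs
import Pool.Agent.H442R2.KF.Hat
import Pool.Agent.H442R2.KF.Bil

/-!
KF project, task N4 (helper418): bound of the main term.
-/

namespace Pool.Agent.H442R2.KF

open Finset

namespace TaskN4

theorem tail_sq (d Q N : ℕ) (hd : 1 ≤ d) (hQ : 1 ≤ Q) :
    ∑ q ∈ (Ioc Q N).filter (fun q => d ∣ q), 1 / (q : ℝ) ^ 2 ≤ (2 : ℝ) / ((d : ℝ) * (Q : ℝ)) := by
  have hd0 : (0 : ℝ) < d := by exact_mod_cast hd
  have hQ0 : (0 : ℝ) < Q := by exact_mod_cast hQ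
  have h1 : ∑ q ∈ (Ioc Q N).filter (fun q => d ∣ q), 1 / (q : ℝ) ^ 2 ≤
      ∑ k ∈ Ioo (Q / d) (N / d + 1), 1 / (d : ℝ) ^ 2 * (((k : ℝ) ^ 2)⁻¹) := by
    have e1 : ∑ q ∈ (Ioc Q N).filter (fun q => d ∣ q), 1 / (q : ℝ) ^ 2 =
        ∑ q ∈ (Ioc Q N).filter (fun q => d ∣ q), 1 / (d : ℝ) ^ 2 * ((((q / d : ℕ) : ℝ) ^ 2)⁻¹) := by
      refine Finset.sum_congr rfl fun q hq => ?_
      rw [mem_filter] at hq
      obtain ⟨k, rfl⟩ := hq.2
      rw [Nat.mul_div_cancel_left _ hd]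
      push_cast
      rw [mul_pow, one_div, one_div, mul_inv]
    rw [e1]
    have e2 : ∑ q ∈ (Ioc Q N).filter (fun q => d ∣ q),
          1 / (d : ℝ) ^ 2 * ((((q / d : ℕ) : ℝ) ^ 2)⁻¹) =
        ∑ k ∈ ((Ioc Q N).filter (fun q => d ∣ q)).image (fun q => q / d),
          1 / (d : ℝ) ^ 2 * (((k : ℝ) ^ 2)⁻¹) := by
      rw [Finset.sum_image]
      intro q hq q' hq' h
      simp only [coe_filter, Set.mem_ofPred_eq] at hq hq'
      obtain ⟨k, rfl⟩ := hq.2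
      obtain ⟨k', rfl⟩ := hq'.2
      simp only [Nat.mul_div_cancel_left _ hd] at h
      rw [h]
    rw [e2]
    refine Finset.sum_le_sum_of_subset_of_nonneg ?_ fun _ _ _ => by positivity
    intro k hk
    rw [mem_image] at hk
    obtain ⟨q, hq, rfl⟩ := hk
    rw [mem_filter, mem_Ioc] at hq
    obtain ⟨k, rfl⟩ := hq.2
    rw [mem_Ioo, Nat.mul_div_cancel_left _ hd]
    refine ⟨?_, ?_⟩
    · rw [Nat.div_lt_iff_lt_mul hd, mul_comm]
      exact hq.1.1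
    · rw [Nat.lt_succ_iff, Nat.le_div_iff_mul_le hd, mul_comm]
      exact hq.1.2
  refine h1.trans ?_
  rw [← Finset.mul_sum]
  have h2 : ∑ k ∈ Ioo (Q / d) (N / d + 1), (((k : ℝ) ^ 2)⁻¹) ≤ 2 / (((Q / d : ℕ) : ℝ) + 1) :=
    sum_Ioo_inv_sq_le _ _
  have h3 : (Q : ℝ) ≤ d * (((Q / d : ℕ) : ℝ) + 1) := by
    have : Q < d * (Q / d + 1) := by
      have h5 := Nat.div_add_mod Q d
      have h6 := Nat.mod_lt Q hd
      rw [mul_add, mul_one]
      omega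
    exact_mod_cast this.le
  have h4 : (0 : ℝ) < ((Q / d : ℕ) : ℝ) + 1 := by positivity
  calc 1 / (d : ℝ) ^ 2 * ∑ k ∈ Ioo (Q / d) (N / d + 1), (((k : ℝ) ^ 2)⁻¹)
      ≤ 1 / (d : ℝ) ^ 2 * (2 / (((Q / d : ℕ) : ℝ) + 1)) :=
        mul_le_mul_of_nonneg_left h2 (by positivity)
    _ ≤ 2 / (d * Q) := by
        rw [div_mul_div_comm, div_le_div_iff₀ (by positivity) (by positivity)]
        nlinarith [mul_pos hd0 hQ0]

theorem abs_ram_le (q : ℕ) (h : ℤ) :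
    |ram q h| ≤ ∑ d ∈ q.divisors.filter (fun d : ℕ => (d : ℤ) ∣ h), (d : ℝ) := by
  unfold ram
  refine (Finset.abs_sum_le_sum_abs _ _).trans (Finset.sum_le_sum fun d _ => ?_)
  rw [abs_mul, Nat.abs_cast]
  refine mul_le_of_le_one_left (Nat.cast_nonneg _) ?_
  have := ArithmeticFunction.abs_moebius_le_one (n := q / d)
  exact_mod_cast this

end TaskN4

theorem main_bound_of
    (bil : ∀ (u u' : ℕ → ℝ) (X : ℕ) (h : ℤ),
      ∑ d ∈ Icc 1 X, ∑ d' ∈ Icc 1 X, u d * u' d' * Fh h (Nat.gcd d d') / (d * d') =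
        ∑ q ∈ Icc 1 X, ram q h * uh u X q * uh u' X q)
    (huu : ∀ (c : ℕ → ℝ) (X Q q : ℕ), 1 ≤ q → Q ≤ X →
      uh (uu c X Q) X q = if q ≤ Q then 0 else uh c X q)
    (huh : ∀ (c : ℕ → ℝ) (D q : ℕ), Cof D c → 1 ≤ q → |uh c (2 * D) q| ≤ 2 / q)
    (D Q : ℕ) (hQ : 1 ≤ Q) (hQD : Q ≤ D) (c c' : ℕ → ℝ) (hc : Cof D c)
    (hc' : Cof D c') (h : ℤ) (hh : h ≠ 0) :
    |∑ d ∈ Icc 1 (2 * D), ∑ d' ∈ Icc 1 (2 * D),
      uu c (2 * D) Q d * uu c' (2 * D) Q d' * Fh h (Nat.gcd d d') / (d * d')| ≤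
      8 * tau h.natAbs / Q := by
  have hQ0 : (0 : ℝ) < Q := by exact_mod_cast hQ
  rw [bil]
  have h1 : ∀ q ∈ Icc 1 (2 * D),
      |ram q h * uh (uu c (2 * D) Q) (2 * D) q * uh (uu c' (2 * D) Q) (2 * D) q| ≤
      if Q < q then 4 * ∑ d ∈ q.divisors.filter (fun d : ℕ => (d : ℤ) ∣ h),
        (d : ℝ) * (1 / (q : ℝ) ^ 2) else 0 := by
    intro q hq
    rw [mem_Icc] at hq
    have hq0 : (0 : ℝ) < q := by exact_mod_cast hq.1
    rw [huu c _ Q q hq.1 (by omega), huu c' _ Q q hq.1 (by omega)]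
    by_cases hqQ : q ≤ Q
    · rw [if_pos hqQ, if_pos hqQ, if_neg (by omega)]
      simp
    · rw [if_neg hqQ, if_neg hqQ, if_pos (by omega), abs_mul, abs_mul, ← Finset.sum_mul]
      have a1 := TaskN4.abs_ram_le q h
      have a2 := huh c D q hc hq.1
      have a3 := huh c' D q hc' hq.1
      have a4 : (0 : ℝ) ≤ ∑ d ∈ q.divisors.filter (fun d : ℕ => (d : ℤ) ∣ h), (d : ℝ) :=
        Finset.sum_nonneg fun _ _ => Nat.cast_nonneg _
      calc |ram q h| * |uh c (2 * D) q| * |uh c' (2 * D) q|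
          ≤ (∑ d ∈ q.divisors.filter (fun d : ℕ => (d : ℤ) ∣ h), (d : ℝ)) * (2 / q) * (2 / q) := by
            gcongr
        _ = 4 * ((∑ d ∈ q.divisors.filter (fun d : ℕ => (d : ℤ) ∣ h), (d : ℝ)) *
              (1 / (q : ℝ) ^ 2)) := by
            field_simp
            ring
  refine (Finset.abs_sum_le_sum_abs _ _).trans ((Finset.sum_le_sum h1).trans ?_)
  rw [← Finset.sum_filter]
  -- exchange the sums
  have h2 : ∑ q ∈ (Icc 1 (2 * D)).filter (fun q => Q < q),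
        4 * ∑ d ∈ q.divisors.filter (fun d : ℕ => (d : ℤ) ∣ h), (d : ℝ) * (1 / (q : ℝ) ^ 2) ≤
      4 * ∑ d ∈ h.natAbs.divisors, (d : ℝ) *
        ∑ q ∈ (Ioc Q (2 * D)).filter (fun q => d ∣ q), 1 / (q : ℝ) ^ 2 := by
    rw [← Finset.mul_sum]
    refine mul_le_mul_of_nonneg_left ?_ (by norm_num)
    have e1 : ∀ q ∈ (Icc 1 (2 * D)).filter (fun q => Q < q),
        ∑ d ∈ q.divisors.filter (fun d : ℕ => (d : ℤ) ∣ h), (d : ℝ) * (1 / (q : ℝ) ^ 2) ≤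
        ∑ d ∈ h.natAbs.divisors, if d ∣ q then (d : ℝ) * (1 / (q : ℝ) ^ 2) else 0 := by
      intro q _
      rw [← Finset.sum_filter]
      refine Finset.sum_le_sum_of_subset_of_nonneg ?_ fun _ _ _ => by positivity
      intro d hd
      rw [mem_filter, Nat.mem_divisors] at hd
      rw [mem_filter, Nat.mem_divisors]
      exact ⟨⟨Int.natCast_dvd.1 hd.2, by simpa using hh⟩, hd.1.1⟩
    refine (Finset.sum_le_sum e1).trans ?_
    rw [Finset.sum_comm]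
    refine Finset.sum_le_sum fun d _ => ?_
    rw [Finset.mul_sum, ← Finset.sum_filter]
    refine Finset.sum_le_sum_of_subset_of_nonneg ?_ fun _ _ _ => by positivity
    intro q hq
    rw [mem_filter, mem_filter, mem_Icc] at hq
    rw [mem_filter, mem_Ioc]
    exact ⟨⟨hq.1.2, hq.1.1.2⟩, hq.2⟩
  refine h2.trans ?_
  have h3 : ∀ d ∈ h.natAbs.divisors, (d : ℝ) *
      ∑ q ∈ (Ioc Q (2 * D)).filter (fun q => d ∣ q), 1 / (q : ℝ) ^ 2 ≤ 2 / Q := by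
    intro d hd
    have hd1 : 1 ≤ d := Nat.pos_of_mem_divisors hd
    have hd0 : (0 : ℝ) < d := by exact_mod_cast hd1
    refine (mul_le_mul_of_nonneg_left (TaskN4.tail_sq d Q (2 * D) hd1 hQ) hd0.le).trans
      (le_of_eq ?_)
    field_simp
  have h4 := Finset.sum_le_card_nsmul _ _ _ h3
  rw [nsmul_eq_mul] at h4
  calc 4 * ∑ d ∈ h.natAbs.divisors, (d : ℝ) *
        ∑ q ∈ (Ioc Q (2 * D)).filter (fun q => d ∣ q), 1 / (q : ℝ) ^ 2
      ≤ 4 * ((h.natAbs.divisors.card : ℝ) * (2 / Q)) := mul_le_mul_of_nonneg_left h4 (by norm_num)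
    _ = 8 * tau h.natAbs / Q := by unfold tau; ring

/-- N4: bound of the main term -/
theorem main_bound (D Q : ℕ) (hQ : 1 ≤ Q) (hQD : Q ≤ D) (c c' : ℕ → ℝ) (hc : Cof D c)
    (hc' : Cof D c') (h : ℤ) (hh : h ≠ 0) :
    |∑ d ∈ Icc 1 (2 * D), ∑ d' ∈ Icc 1 (2 * D),
      uu c (2 * D) Q d * uu c' (2 * D) Q d' * Fh h (Nat.gcd d d') / (d * d')| ≤
      8 * tau h.natAbs / Q :=
  main_bound_of bilinear uh_uu abs_uh_le D Q hQ hQD c c' hc hc' h hh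

end Pool.Agent.H442R2.KF
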