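import Pool.Agent.H442R2.KF.Defs

/-!
KF project, task N1 (helper680): pairs of small moduli.
-/

namespace Pool.Agent.H442R2.KF

open Finset

namespace TaskN1

lemma log_le_rpow : ∃ N₀ : ℕ, ∀ N : ℕ, N₀ ≤ N → Real.log N ≤ (N : ℝ) ^ (1 / 10 : ℝ) := by
  have h := (isLittleO_log_rpow_atTop (by norm_num : (0 : ℝ) < 1 / 10)).bound
    (by norm_num : (0 : ℝ) < 1)
  have h2 := (tendsto_natCast_atTop_atTop (R := ℝ)).eventually h
  obtain ⟨N₀, hN₀⟩ := Filter.eventually_atTop.mp h2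
  refine ⟨N₀, fun N hN => ?_⟩
  have h3 := hN₀ N hN
  rw [one_mul] at h3
  have h4 : ‖(N : ℝ) ^ (1 / 10 : ℝ)‖ = (N : ℝ) ^ (1 / 10 : ℝ) := by
    rw [Real.norm_eq_abs, abs_of_nonneg (by positivity)]
  rw [h4] at h3
  exact (Real.le_norm_self _).trans h3

end TaskN1

/-- N1 (Small.lean), with the two statements of task M1 as hypotheses -/
theorem small_pairs_of
    (SSnd : ∀ (N : ℕ) (a a' : ℤ) (g d₁ d₂ : ℕ), ¬ (g : ℤ) ∣ a' - a →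
      SS N a a' (g * d₁) (g * d₂) = 0)
    (SSev : ∃ N₀ : ℕ, ∀ N : ℕ, N₀ ≤ N → ∀ (a a' k : ℤ) (g d₁ d₂ : ℕ), 1 ≤ g → 1 ≤ d₁ →
    1 ≤ d₂ → Nat.Coprime d₁ d₂ → a' - a = g * k → (g * d₁ * d₂ : ℝ) ≤ (N : ℝ) ^ 3 →
    ∀ J : ℕ, (g * d₁ * d₂ : ℝ) * Real.log N ≤ (J + 1) * N →
    ‖((SS N a a' (g * d₁) (g * d₂) : ℝ) : ℂ) -
      ((N : ℝ) / (g * d₁ * d₂) : ℝ) * ∑ j ∈ Icc (-(J : ℤ)) J,
        ((Real.exp (-Real.pi * ((j : ℝ) * N / (g * d₁ * d₂)) ^ 2) : ℝ) : ℂ) *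
          e ((j : ℝ) * a / (g * d₁ * d₂)) * kf (j * k) d₁ d₂‖ ≤ 1 / (N : ℝ) ^ 5) :
    ∃ N₀ : ℕ, ∀ N : ℕ, N₀ ≤ N → ∀ (a a' : ℤ) (d d' : ℕ), 1 ≤ d → 1 ≤ d' →
    (d * d' : ℝ) ≤ (N : ℝ) ^ (9 / 10 : ℝ) →
    |SS N a a' d d' - N * Fh (a' - a) (Nat.gcd d d') / (d * d')| ≤ 1 / (N : ℝ) ^ 5 := by
  obtain ⟨N₁, hN₁⟩ := SSev
  obtain ⟨N₂, hN₂⟩ := TaskN1.log_le_rpow
  refine ⟨max (max N₁ N₂) 1, fun N hN a a' d d' hd hd' hdd => ?_⟩
  have hNa : N₁ ≤ N := le_trans (le_trans (le_max_left _ _) (le_max_left _ _)) hN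
  have hNb : N₂ ≤ N := le_trans (le_trans (le_max_right _ _) (le_max_left _ _)) hN
  have hNc : 1 ≤ N := le_trans (le_max_right _ _) hN
  have hNr : (1 : ℝ) ≤ N := by exact_mod_cast hNc
  have hN0 : (0 : ℝ) < N := by linarith
  obtain ⟨g, hg⟩ : ∃ g, g = Nat.gcd d d' := ⟨_, rfl⟩
  have hg0 : 0 < g := by rw [hg]; exact Nat.gcd_pos_of_pos_left _ hd
  obtain ⟨d₁, d₂, hco, h1, h2⟩ := Nat.exists_coprime d d'
  rw [← hg] at h1 h2 ⊢
  rw [mul_comm] at h1 h2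
  have hd1 : 1 ≤ d₁ := by
    rcases Nat.eq_zero_or_pos d₁ with h | h
    · rw [h] at h1; simp at h1; omega
    · exact h
  have hd2 : 1 ≤ d₂ := by
    rcases Nat.eq_zero_or_pos d₂ with h | h
    · rw [h] at h2; simp at h2; omega
    · exact h
  have hgr : (1 : ℝ) ≤ g := by exact_mod_cast hg0
  have hd1r : (1 : ℝ) ≤ d₁ := by exact_mod_cast hd1
  have hd2r : (1 : ℝ) ≤ d₂ := by exact_mod_cast hd2
  have hdr : (d : ℝ) = g * d₁ := by rw [h1]; push_cast; ring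
  have hdr' : (d' : ℝ) = g * d₂ := by rw [h2]; push_cast; ring
  by_cases hdv : (g : ℤ) ∣ a' - a
  · obtain ⟨k, hk⟩ := hdv
    have hm : (g * d₁ * d₂ : ℝ) ≤ (N : ℝ) ^ (9 / 10 : ℝ) := by
      refine le_trans ?_ hdd
      rw [hdr, hdr']
      have : (g : ℝ) * d₁ * (g * d₂) = g * (g * d₁ * d₂) := by ring
      rw [this]
      have hpos : (0 : ℝ) ≤ g * d₁ * d₂ := by positivity
      nlinarith
    have hm3 : (g * d₁ * d₂ : ℝ) ≤ (N : ℝ) ^ 3 := by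
      refine hm.trans ?_
      rw [← Real.rpow_natCast]
      exact Real.rpow_le_rpow_of_exponent_le hNr (by norm_num)
    have hJ : (g * d₁ * d₂ : ℝ) * Real.log N ≤ (((0 : ℕ) : ℝ) + 1) * N := by
      have hl := hN₂ N hNb
      have hl0 : 0 ≤ Real.log N := Real.log_nonneg hNr
      calc (g * d₁ * d₂ : ℝ) * Real.log N ≤ (N : ℝ) ^ (9 / 10 : ℝ) * (N : ℝ) ^ (1 / 10 : ℝ) := by
            gcongr
        _ = (N : ℝ) := by
            rw [← Real.rpow_add hN0]; norm_num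
        _ = (((0 : ℕ) : ℝ) + 1) * N := by push_cast; ring
    have hmain := hN₁ N hNa a a' k g d₁ d₂ hg0 hd1 hd2 hco hk hm3 0 hJ
    have hIcc : Icc (-((0 : ℕ) : ℤ)) ((0 : ℕ) : ℤ) = {0} := by simp
    rw [hIcc, sum_singleton] at hmain
    have hkf : kf (0 * k) d₁ d₂ = 1 := by
      unfold kf
      simp [e_zero]
    have he : e (((0 : ℤ) : ℝ) * a / (g * d₁ * d₂)) = 1 := by
      simp [e_zero]
    have hex : Real.exp (-Real.pi * (((0 : ℤ) : ℝ) * N / (g * d₁ * d₂)) ^ 2) = 1 := by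
      simp
    rw [hkf, he, hex] at hmain
    have hF : Fh (a' - a) g = g := by
      unfold Fh
      rw [if_pos ⟨k, hk⟩]
    rw [hF, hdr, hdr', h1, h2]
    have hval : (N : ℝ) * g / (g * d₁ * (g * d₂)) = (N : ℝ) / (g * d₁ * d₂) := by
      have : (0 : ℝ) < g := by linarith
      have : (0 : ℝ) < d₁ := by linarith
      have : (0 : ℝ) < d₂ := by linarith
      field_simp
    rw [hval]
    have hc : ((SS N a a' (g * d₁) (g * d₂) : ℝ) : ℂ) -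
      (((N : ℝ) / (g * d₁ * d₂) : ℝ) : ℂ) * (((1 : ℝ) : ℂ) * 1 * 1) =
        ((SS N a a' (g * d₁) (g * d₂) - (N : ℝ) / (g * d₁ * d₂) : ℝ) : ℂ) := by
      push_cast; ring
    rw [hc, Complex.norm_real, Real.norm_eq_abs] at hmain
    exact hmain
  · have hF : Fh (a' - a) g = 0 := by
      unfold Fh
      rw [if_neg hdv]
    rw [hF, h1, h2, SSnd N a a' g d₁ d₂ hdv]
    simp

end Pool.Agent.H442R2.KF
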