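import Pool.Agent.H442R2.KF.Defs2
import Pool.Agent.H442R2.KF.Err

/-!
KF project, part 2, task TM2 (helper388): all frequencies for one `g`, from the bound for
trilinear forms with Kloosterman fractions.
-/

namespace Pool.Agent.H442R2.KF

open Finset

namespace TaskTM2

/-- the statement of `tri` -/
def TRI : Prop := ∀ (δ : ℝ) (_ : 0 < δ), ∃ (η C : ℝ), 0 < η ∧ 0 < C ∧ ∀ (M J : ℕ), 1 ≤ M →
    1 ≤ J → (J : ℝ) ≤ (M : ℝ) ^ (1 / 14 - δ) →
    ∀ V : ℝ, 1 ≤ V → ∀ ψ : ℕ → ℝ → ℂ, (∀ j, Wei M V (ψ j)) →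
    ∀ k : ℤ, k ≠ 0 → |(k : ℝ)| * J ≤ V * (M : ℝ) ^ 2 →
    ∀ α β : ℕ → ℂ, (∀ m, ‖α m‖ ≤ 1) → (∀ n, ‖β n‖ ≤ 1) →
    ‖∑ m ∈ Ioc M (2 * M + 1), ∑ n ∈ (Ioc M (2 * M + 1)).filter (fun n => Nat.Coprime m n),
      α m * β n * FF ψ k J n m‖ ≤ C * V ^ 2 * (M : ℝ) ^ (2 - η)

theorem exists_log_le (δ : ℝ) (hδ : 0 < δ) :
    ∃ N0 : ℕ, ∀ N : ℕ, N0 ≤ N → 8 * Real.log N ≤ (N : ℝ) ^ δ := by
  have h1 := (isLittleO_log_rpow_atTop hδ).bound (show (0 : ℝ) < 1 / 8 by norm_num)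
  have h2 := tendsto_natCast_atTop_atTop (R := ℝ) |>.eventually h1
  obtain ⟨N0, hN0⟩ := Filter.eventually_atTop.1 h2
  refine ⟨N0, fun N hN => ?_⟩
  have h3 := hN0 N hN
  rw [Real.norm_eq_abs, Real.norm_eq_abs, abs_of_nonneg (Real.rpow_nonneg (Nat.cast_nonneg N) δ)]
    at h3
  have h4 := le_abs_self (Real.log (N : ℝ))
  linarith

theorem wei_zero (M : ℕ) (V : ℝ) (hV : 0 ≤ V) : Wei M V (fun _ => 0) := by
  constructor
  · intro s _
    simp
  · intro s s' _ _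
    simp only [sub_self, norm_zero]
    positivity

/-- the summand of `err2` -/
noncomputable def trm (N g : ℕ) (a k σ : ℤ) (c c' : ℕ → ℝ) (j d₁ d₂ : ℕ) : ℂ :=
  (c (g * d₁) : ℂ) * (c' (g * d₂) : ℂ) * ((N : ℝ) / (g * d₁ * d₂) : ℝ) *
    ((Real.exp (-Real.pi * ((j : ℝ) * N / (g * d₁ * d₂)) ^ 2) : ℝ) : ℂ) *
    e ((σ : ℝ) * j * a / (g * d₁ * d₂)) * kf (σ * j * k) d₁ d₂

theorem norm_trm (N g : ℕ) (a k σ : ℤ) (c c' : ℕ → ℝ) (hc : ∀ d, |c d| ≤ 1)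
    (hc' : ∀ d, |c' d| ≤ 1) (j d₁ d₂ : ℕ) :
    ‖trm N g a k σ c c' j d₁ d₂‖ ≤ (N : ℝ) / (g * d₁ * d₂) := by
  unfold trm
  rw [norm_mul, norm_mul, norm_mul, norm_mul, norm_mul, norm_kf, norm_e, mul_one, mul_one]
  have n1 : ‖(c (g * d₁) : ℂ)‖ ≤ 1 := by rw [Complex.norm_real]; exact hc _
  have n2 : ‖(c' (g * d₂) : ℂ)‖ ≤ 1 := by rw [Complex.norm_real]; exact hc' _
  have n3 : ‖(((N : ℝ) / (g * d₁ * d₂) : ℝ) : ℂ)‖ = (N : ℝ) / (g * d₁ * d₂) := by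
    rw [Complex.norm_real, Real.norm_eq_abs, abs_of_nonneg (by positivity)]
  have n4 : ‖((Real.exp (-Real.pi * ((j : ℝ) * N / (g * d₁ * d₂)) ^ 2) : ℝ) : ℂ)‖ ≤ 1 := by
    rw [Complex.norm_real, Real.norm_eq_abs, abs_of_pos (Real.exp_pos _), Real.exp_le_one_iff]
    have : 0 ≤ Real.pi * ((j : ℝ) * N / (g * d₁ * d₂)) ^ 2 := by positivity
    linarith
  rw [n3]
  have p : (0 : ℝ) ≤ (N : ℝ) / (g * d₁ * d₂) := by positivity
  calc ‖(c (g * d₁) : ℂ)‖ * ‖(c' (g * d₂) : ℂ)‖ * ((N : ℝ) / (g * d₁ * d₂)) *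
        ‖((Real.exp (-Real.pi * ((j : ℝ) * N / (g * d₁ * d₂)) ^ 2) : ℝ) : ℂ)‖
      ≤ 1 * 1 * ((N : ℝ) / (g * d₁ * d₂)) * 1 := by gcongr
    _ = _ := by ring

/-- the trivial bound -/
theorem trivial_bd (N g M J : ℕ) (hg : 1 ≤ g) (a k σ : ℤ) (c c' : ℕ → ℝ)
    (hc : ∀ d, |c d| ≤ 1) (hc' : ∀ d, |c' d| ≤ 1) :
    ‖∑ j ∈ Icc 1 J, ∑ d₁ ∈ Ioc M (2 * M + 1),
      ∑ d₂ ∈ (Ioc M (2 * M + 1)).filter (fun d₂ => Nat.Coprime d₁ d₂),
        trm N g a k σ c c' j d₁ d₂‖ ≤ J * ((N : ℝ) / g) := by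
  have hg0 : (0 : ℝ) < g := by exact_mod_cast hg
  have hM0 : (0 : ℝ) < (M : ℝ) + 1 := by positivity
  have h1 : ∀ j ∈ Icc 1 J, ‖∑ d₁ ∈ Ioc M (2 * M + 1),
      ∑ d₂ ∈ (Ioc M (2 * M + 1)).filter (fun d₂ => Nat.Coprime d₁ d₂),
        trm N g a k σ c c' j d₁ d₂‖ ≤ (N : ℝ) / g := by
    intro j _
    have h2 : ∀ d₁ ∈ Ioc M (2 * M + 1),
        ‖∑ d₂ ∈ (Ioc M (2 * M + 1)).filter (fun d₂ => Nat.Coprime d₁ d₂),
          trm N g a k σ c c' j d₁ d₂‖ ≤ ((M : ℝ) + 1) * ((N : ℝ) / (g * (M + 1) * (M + 1))) := by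
      intro d₁ hd₁
      have hd1 := Finset.mem_Ioc.1 hd₁
      have hd1' : (M : ℝ) + 1 ≤ d₁ := by exact_mod_cast hd1.1
      refine (norm_sum_le _ _).trans ?_
      have h3 : ∀ d₂ ∈ (Ioc M (2 * M + 1)).filter (fun d₂ => Nat.Coprime d₁ d₂),
          ‖trm N g a k σ c c' j d₁ d₂‖ ≤ (N : ℝ) / (g * (M + 1) * (M + 1)) := by
        intro d₂ hd₂
        have hd2 := Finset.mem_Ioc.1 (Finset.mem_filter.1 hd₂).1
        have hd2' : (M : ℝ) + 1 ≤ d₂ := by exact_mod_cast hd2.1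
        refine (norm_trm N g a k σ c c' hc hc' j d₁ d₂).trans ?_
        apply div_le_div_of_nonneg_left (Nat.cast_nonneg N) (by positivity)
        gcongr
      refine (Finset.sum_le_sum h3).trans ?_
      rw [Finset.sum_const, nsmul_eq_mul]
      apply mul_le_mul_of_nonneg_right _ (by positivity)
      have h4 : ((Ioc M (2 * M + 1)).filter (fun d₂ => Nat.Coprime d₁ d₂)).card ≤ M + 1 := by
        refine (Finset.card_filter_le _ _).trans ?_
        rw [Nat.card_Ioc]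
        omega
      exact_mod_cast h4
    refine (norm_sum_le _ _).trans ((Finset.sum_le_sum h2).trans ?_)
    rw [Finset.sum_const, nsmul_eq_mul, Nat.card_Ioc]
    have h5 : ((2 * M + 1 - M : ℕ) : ℝ) = (M : ℝ) + 1 := by
      have : 2 * M + 1 - M = M + 1 := by omega
      rw [this]; push_cast; ring
    rw [h5]
    apply le_of_eq
    field_simp
  refine (norm_sum_le _ _).trans ((Finset.sum_le_sum h1).trans ?_)
  rw [Finset.sum_const, nsmul_eq_mul, Nat.card_Icc]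
  simp

/-- the sum in terms of `FF` -/
theorem sum_eq (N g M J : ℕ) (hM : 1 ≤ M) (hg : 1 ≤ g) (a k σ : ℤ) (hσ : σ = 1 ∨ σ = -1)
    (c c' : ℕ → ℝ) :
    ∑ j ∈ Icc 1 J, ∑ d₁ ∈ Ioc M (2 * M + 1),
      ∑ d₂ ∈ (Ioc M (2 * M + 1)).filter (fun d₂ => Nat.Coprime d₁ d₂),
        trm N g a k σ c c' j d₁ d₂ =
      (((N : ℝ) / (g * (M : ℝ) ^ 2) : ℝ) : ℂ) * ∑ m ∈ Ioc M (2 * M + 1),
        ∑ n ∈ (Ioc M (2 * M + 1)).filter (fun n => Nat.Coprime m n),
          (c (g * m) : ℂ) * (c' (g * n) : ℂ) *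
            FF (fun j s => if j ≤ J then TaskM2.psi M N g (σ * j) a s else 0) (σ * k) J n m := by
  rw [Finset.sum_comm, Finset.mul_sum]
  refine Finset.sum_congr rfl fun m hm => ?_
  rw [Finset.sum_comm, Finset.mul_sum]
  refine Finset.sum_congr rfl fun n hn => ?_
  unfold FF
  rw [Finset.mul_sum, Finset.mul_sum]
  refine Finset.sum_congr rfl fun j hj => ?_
  have hjJ : j ≤ J := (Finset.mem_Icc.1 hj).2
  rw [Finset.mem_filter] at hn
  rw [Finset.mem_Ioc] at hm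
  have hn1 := Finset.mem_Ioc.1 hn.1
  have hm0 : (0 : ℝ) < m := by
    have : 0 < m := by omega
    exact_mod_cast this
  have hn0 : (0 : ℝ) < n := by
    have : 0 < n := by omega
    exact_mod_cast this
  have hM0 : (0 : ℝ) < M := by exact_mod_cast hM
  have hg0 : (0 : ℝ) < g := by exact_mod_cast hg
  have hs : (σ : ℝ) ^ 2 = 1 := by
    rcases hσ with h | h <;> rw [h] <;> norm_num
  simp only [if_pos hjJ]
  unfold trm TaskM2.psi
  have e1 : -Real.pi * (((σ * (j : ℤ) : ℤ) : ℝ) * N / g / ((m : ℝ) * n)) ^ 2 =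
      -Real.pi * ((j : ℝ) * N / (g * m * n)) ^ 2 := by
    have : ((σ * (j : ℤ) : ℤ) : ℝ) * N / g / ((m : ℝ) * n) =
        (σ : ℝ) * ((j : ℝ) * N / (g * m * n)) := by
      push_cast
      field_simp
    rw [this, mul_pow, hs, one_mul]
  have e2 : ((σ * (j : ℤ) : ℤ) : ℝ) * a / g / ((m : ℝ) * n) =
      (σ : ℝ) * j * a / (g * m * n) := by
    push_cast
    field_simp
  have e3 : ((N : ℝ) / (g * m * n) : ℝ) =
      ((N : ℝ) / (g * (M : ℝ) ^ 2)) * ((M : ℝ) ^ 2 / ((m : ℝ) * n)) := by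
    field_simp
  have e4 : (σ * (j : ℤ) * k : ℤ) = (j : ℤ) * (σ * k) := by ring
  rw [e1, e2, e3, e4, Complex.ofReal_mul]
  ring

end TaskTM2

open TaskTM2

/-- TM2: all frequencies for one `g`, from `tri` -/
theorem err2_of (htri : TRI) (θ : ℝ) (hθ : θ < 14 / 27) : ∃ (η C : ℝ), 0 < η ∧ 0 < C ∧
    ∀ (N D g : ℕ), 3 ≤ N →
    (D : ℝ) ≤ (N : ℝ) ^ θ → 1 ≤ g → g ≤ D →
    ∀ (a k σ : ℤ), (σ = 1 ∨ σ = -1) → 0 ≤ a → a ≤ N → k ≠ 0 → |(g : ℝ) * k| ≤ N →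
    ∀ c c' : ℕ → ℝ, (∀ d, |c d| ≤ 1) → (∀ d, |c' d| ≤ 1) →
    ‖∑ j ∈ Icc 1 ⌊4 * (D : ℝ) ^ 2 * Real.log N / (g * N)⌋₊,
      ∑ d₁ ∈ Ioc (D / g) (2 * (D / g) + 1),
      ∑ d₂ ∈ (Ioc (D / g) (2 * (D / g) + 1)).filter (fun d₂ => Nat.Coprime d₁ d₂),
        (c (g * d₁) : ℂ) * (c' (g * d₂) : ℂ) * ((N : ℝ) / (g * d₁ * d₂) : ℝ) *
          ((Real.exp (-Real.pi * ((j : ℝ) * N / (g * d₁ * d₂)) ^ 2) : ℝ) : ℂ) *
          e ((σ : ℝ) * j * a / (g * d₁ * d₂)) * kf (σ * j * k) d₁ d₂‖ ≤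
      C * (N : ℝ) ^ (1 - η) / g := by
  set θ' := max θ (1 / 2) with hθ'
  have hθ1 : θ' < 14 / 27 := max_lt hθ (by norm_num)
  have hθ2 : 1 / 2 ≤ θ' := le_max_right _ _
  have hθ3 : θ ≤ θ' := le_max_left _ _
  set δ := (1 - 27 * θ' / 14) / 2 with hδ
  have hδ0 : 0 < δ := by rw [hδ]; linarith
  have hδ1 : δ ≤ 1 / 56 := by rw [hδ]; linarith
  obtain ⟨η0, C0, hη0, hC0, H⟩ := htri δ hδ0
  obtain ⟨N0, hN0⟩ := exists_log_le δ hδ0
  refine ⟨min (η0 / 5) 1, C0 * 40000 * (10 / η0) ^ 2 + 4 * (N0 : ℝ) ^ 3,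
    lt_min (by positivity) one_pos, by positivity, ?_⟩
  intro N D g hN hD hg hgD a k σ hσ ha ha' hk hgk c c' hc hc'
  change ‖∑ j ∈ Icc 1 ⌊4 * (D : ℝ) ^ 2 * Real.log N / (g * N)⌋₊,
      ∑ d₁ ∈ Ioc (D / g) (2 * (D / g) + 1),
      ∑ d₂ ∈ (Ioc (D / g) (2 * (D / g) + 1)).filter (fun d₂ => Nat.Coprime d₁ d₂),
        trm N g a k σ c c' j d₁ d₂‖ ≤ _
  set η := min (η0 / 5) 1 with hη
  have hη1 : η ≤ 1 := min_le_right _ _
  have hη2 : η ≤ η0 / 5 := min_le_left _ _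
  set M := D / g with hMdef
  set J := ⌊4 * (D : ℝ) ^ 2 * Real.log N / (g * N)⌋₊ with hJdef
  have hM : 1 ≤ M := (Nat.one_le_div_iff (by omega)).2 hgD
  have hM' : (1 : ℝ) ≤ M := by exact_mod_cast hM
  have hM0 : (0 : ℝ) < M := by linarith
  have hg' : (1 : ℝ) ≤ g := by exact_mod_cast hg
  have hg0 : (0 : ℝ) < g := by linarith
  have hN' : (3 : ℝ) ≤ N := by exact_mod_cast hN
  have hNpos : (0 : ℝ) < N := by linarith
  have hN1 : (1 : ℝ) ≤ N := by linarith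
  have hlog : 1 ≤ Real.log N := by
    rw [Real.le_log_iff_exp_le (by linarith)]
    have := Real.exp_one_lt_d9
    linarith
  have hD2 : (D : ℝ) ≤ 2 * g * M := by
    have h1 : D < g * (M + 1) := by
      rw [hMdef]
      have := Nat.lt_mul_div_succ D (show 0 < g by omega)
      simpa using this
    have h2 : g * (M + 1) ≤ 2 * g * M := by nlinarith
    have h3 : D ≤ 2 * g * M := by omega
    exact_mod_cast h3
  have hgM : (g : ℝ) * M ≤ D := by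
    have : g * M ≤ D := by rw [hMdef]; exact Nat.mul_div_le D g
    exact_mod_cast this
  have hD0 : (0 : ℝ) < D := by
    have : 1 ≤ D := le_trans hg hgD
    exact_mod_cast this
  have hDθ : (D : ℝ) ≤ (N : ℝ) ^ θ' := hD.trans (Real.rpow_le_rpow_of_exponent_le hN1 hθ3)
  have hDN : (D : ℝ) ≤ N := by
    refine hDθ.trans ?_
    calc (N : ℝ) ^ θ' ≤ (N : ℝ) ^ (1 : ℝ) :=
          Real.rpow_le_rpow_of_exponent_le hN1 (by linarith)
      _ = N := Real.rpow_one _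
  have hJle : (J : ℝ) ≤ 4 * (D : ℝ) ^ 2 * Real.log N / (g * N) :=
    Nat.floor_le (by positivity)
  have hNη : 1 ≤ (N : ℝ) ^ (1 - η) := Real.one_le_rpow hN1 (by linarith)
  have hpart : 0 ≤ C0 * 40000 * (10 / η0) ^ 2 := by positivity
  have hpart2 : 0 ≤ 4 * (N0 : ℝ) ^ 3 := by positivity
  -- no frequency
  rcases Nat.eq_zero_or_pos J with hJ0 | hJpos
  · rw [hJ0]
    simp only [zero_lt_one, Finset.Icc_eq_empty_of_lt, Finset.sum_empty, norm_zero]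
    positivity
  -- small `N`
  by_cases hNN : N < N0
  · refine (trivial_bd N g M J hg a k σ c c' hc hc').trans ?_
    have h1 : (J : ℝ) ≤ 4 * (N : ℝ) ^ 2 := by
      refine hJle.trans ?_
      rw [div_le_iff₀ (by positivity)]
      have h2 : Real.log N ≤ N := (Real.log_le_sub_one_of_pos hNpos).trans (by linarith)
      calc 4 * (D : ℝ) ^ 2 * Real.log N ≤ 4 * (N : ℝ) ^ 2 * N := by gcongr
        _ ≤ 4 * (N : ℝ) ^ 2 * (g * N) := by
          apply mul_le_mul_of_nonneg_left _ (by positivity)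
          nlinarith
    have h3 : (N : ℝ) ≤ N0 := by exact_mod_cast hNN.le
    calc (J : ℝ) * ((N : ℝ) / g) ≤ 4 * (N : ℝ) ^ 2 * ((N : ℝ) / g) := by gcongr
      _ = 4 * (N : ℝ) ^ 3 * 1 / g := by ring
      _ ≤ 4 * (N0 : ℝ) ^ 3 * (N : ℝ) ^ (1 - η) / g := by gcongr
      _ ≤ _ := by
        apply div_le_div_of_nonneg_right _ hg0.le
        apply mul_le_mul_of_nonneg_right _ (by positivity)
        linarith
  -- large `N`
  push Not at hNN
  have hl8 := hN0 N hNN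
  have hJ1 : (1 : ℝ) ≤ J := by exact_mod_cast hJpos
  have hgN : (g : ℝ) * N ≤ 4 * (D : ℝ) ^ 2 * Real.log N := by
    have h1 := hJ1.trans hJle
    rwa [le_div_iff₀ (by positivity), one_mul] at h1
  -- `M` is large
  have hMN : (N : ℝ) ^ (11 / 27 : ℝ) ≤ M := by
    have h1 : (N : ℝ) ≤ M * (8 * Real.log N * D) := by
      have h2 : (g : ℝ) * N ≤ g * (M * (8 * Real.log N * D)) := by
        calc (g : ℝ) * N ≤ 4 * (D : ℝ) ^ 2 * Real.log N := hgN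
          _ = 4 * D * Real.log N * D := by ring
          _ ≤ 4 * D * Real.log N * (2 * g * M) := by
            apply mul_le_mul_of_nonneg_left hD2 (by positivity)
          _ = _ := by ring
      exact le_of_mul_le_mul_left h2 hg0
    have h3 : 8 * Real.log N * D ≤ (N : ℝ) ^ (16 / 27 : ℝ) := by
      calc 8 * Real.log N * D ≤ (N : ℝ) ^ δ * (N : ℝ) ^ θ' := by gcongr
        _ = (N : ℝ) ^ (δ + θ') := by rw [Real.rpow_add hNpos]
        _ ≤ _ := Real.rpow_le_rpow_of_exponent_le hN1 (by linarith)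
    have h4 : (N : ℝ) ^ (11 / 27 : ℝ) * (N : ℝ) ^ (16 / 27 : ℝ) ≤
        M * (N : ℝ) ^ (16 / 27 : ℝ) := by
      rw [← Real.rpow_add hNpos]
      norm_num
      calc (N : ℝ) ≤ M * (8 * Real.log N * D) := h1
        _ ≤ _ := by
          apply mul_le_mul_of_nonneg_left _ hM0.le
          convert h3 using 2
    exact le_of_mul_le_mul_right h4 (Real.rpow_pos_of_pos hNpos _)
  -- few frequencies
  have hJM : (J : ℝ) ≤ (M : ℝ) ^ (1 / 14 - δ) := by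
    have h1 : (J : ℝ) * N ≤ 8 * Real.log N * D * M := by
      have h2 : (J : ℝ) * (g * N) ≤ 4 * (D : ℝ) ^ 2 * Real.log N := by
        rwa [le_div_iff₀ (by positivity)] at hJle
      have h3 : (g : ℝ) * ((J : ℝ) * N) ≤ g * (8 * Real.log N * D * M) := by
        calc (g : ℝ) * ((J : ℝ) * N) = (J : ℝ) * (g * N) := by ring
          _ ≤ 4 * (D : ℝ) ^ 2 * Real.log N := h2
          _ = 4 * D * Real.log N * D := by ring
          _ ≤ 4 * D * Real.log N * (2 * g * M) := by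
            apply mul_le_mul_of_nonneg_left hD2 (by positivity)
          _ = _ := by ring
      exact le_of_mul_le_mul_left h3 hg0
    have hMD : (M : ℝ) ≤ D := by nlinarith
    have h4 : (M : ℝ) ^ (13 / 14 + δ) ≤ (N : ℝ) ^ (θ' * (13 / 14 + δ)) := by
      calc (M : ℝ) ^ (13 / 14 + δ) ≤ ((N : ℝ) ^ θ') ^ (13 / 14 + δ) :=
            Real.rpow_le_rpow hM0.le (hMD.trans hDθ) (by positivity)
        _ = _ := by rw [← Real.rpow_mul hNpos.le]
    have h5 : 8 * Real.log N * D * (M : ℝ) ^ (13 / 14 + δ) ≤ N := by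
      calc 8 * Real.log N * D * (M : ℝ) ^ (13 / 14 + δ)
          ≤ (N : ℝ) ^ δ * (N : ℝ) ^ θ' * (N : ℝ) ^ (θ' * (13 / 14 + δ)) := by gcongr
        _ = (N : ℝ) ^ (δ + θ' + θ' * (13 / 14 + δ)) := by
          rw [Real.rpow_add hNpos, Real.rpow_add hNpos]
        _ ≤ (N : ℝ) ^ (1 : ℝ) := by
          apply Real.rpow_le_rpow_of_exponent_le hN1
          have : θ' * δ ≤ 1 * δ := by
            apply mul_le_mul_of_nonneg_right _ hδ0.le
            linarith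
          have e1 : 27 * θ' / 14 = 1 - 2 * δ := by rw [hδ]; ring
          nlinarith
        _ = N := Real.rpow_one _
    have h6 : (M : ℝ) = (M : ℝ) ^ (1 / 14 - δ) * (M : ℝ) ^ (13 / 14 + δ) := by
      rw [← Real.rpow_add hM0]
      norm_num
    have h7 : (J : ℝ) * N ≤ (M : ℝ) ^ (1 / 14 - δ) * N := by
      calc (J : ℝ) * N ≤ 8 * Real.log N * D * M := h1
        _ = (M : ℝ) ^ (1 / 14 - δ) * (8 * Real.log N * D * (M : ℝ) ^ (13 / 14 + δ)) := by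
          conv_lhs => rw [h6]
          ring
        _ ≤ _ := by
          apply mul_le_mul_of_nonneg_left h5 (Real.rpow_nonneg hM0.le _)
    exact le_of_mul_le_mul_right h7 hNpos
  -- size of the frequencies
  have hJN : (J : ℝ) * N / g ≤ 16 * (M : ℝ) ^ 2 * Real.log N := by
    rw [div_le_iff₀ hg0]
    have h2 : (J : ℝ) * (g * N) ≤ 4 * (D : ℝ) ^ 2 * Real.log N := by
      rwa [le_div_iff₀ (by positivity)] at hJle
    have h3 : ((J : ℝ) * N) * g ≤ (16 * (M : ℝ) ^ 2 * Real.log N * g) * g := by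
      calc ((J : ℝ) * N) * g = (J : ℝ) * (g * N) := by ring
        _ ≤ 4 * (D : ℝ) ^ 2 * Real.log N := h2
        _ ≤ 4 * (2 * g * M) ^ 2 * Real.log N := by gcongr
        _ = _ := by ring
    exact le_of_mul_le_mul_right h3 hg0
  have hσ1 : |(σ : ℝ)| = 1 := by
    rcases hσ with h | h <;> rw [h] <;> norm_num
  have hW : ∀ j : ℕ, Wei M (200 * Real.log N)
      ((fun (j : ℕ) (s : ℝ) => if j ≤ J then TaskM2.psi M N g (σ * j) a s else 0) j) := by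
    intro j
    by_cases hj : j ≤ J
    · simp only [if_pos hj]
      apply TaskM2.wei M N g (σ * j) a hM hg ha ha' hlog
      refine le_trans ?_ hJN
      push_cast
      rw [abs_mul, hσ1, one_mul, abs_of_nonneg (Nat.cast_nonneg j)]
      have : (j : ℝ) ≤ J := by exact_mod_cast hj
      gcongr
    · simp only [if_neg hj]
      exact wei_zero M _ (by positivity)
  have hk' : |(k : ℝ)| ≤ N / g := by
    rw [le_div_iff₀ hg0]
    rw [abs_mul, abs_of_pos hg0] at hgk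
    linarith
  have hb : |((σ * k : ℤ) : ℝ)| * J ≤ 200 * Real.log N * (M : ℝ) ^ 2 := by
    push_cast
    rw [abs_mul, hσ1, one_mul]
    calc |(k : ℝ)| * J ≤ (N / g) * J := by gcongr
      _ = (J : ℝ) * N / g := by ring
      _ ≤ 16 * (M : ℝ) ^ 2 * Real.log N := hJN
      _ ≤ _ := by
        have : 0 ≤ (M : ℝ) ^ 2 * Real.log N := by positivity
        nlinarith
  have hσk : σ * k ≠ 0 := by
    apply mul_ne_zero _ hk
    rcases hσ with h | h <;> rw [h] <;> norm_num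
  have key := H M J hM hJpos hJM (200 * Real.log N) (by linarith)
    (fun j s => if j ≤ J then TaskM2.psi M N g (σ * j) a s else 0) hW (σ * k) hσk hb
    (fun m => (c (g * m) : ℂ)) (fun n => (c' (g * n) : ℂ))
    (fun m => by rw [Complex.norm_real]; exact hc _)
    (fun n => by rw [Complex.norm_real]; exact hc' _)
  rw [sum_eq N g M J hM hg a k σ hσ c c', norm_mul, Complex.norm_real, Real.norm_eq_abs,
    abs_of_nonneg (by positivity)]
  -- numbers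
  have hlogsq : Real.log N ≤ (N : ℝ) ^ (η0 / 10) / (η0 / 10) :=
    Real.log_le_rpow_div hNpos.le (by positivity)
  have hMη : (M : ℝ) ^ (-η0) ≤ (N : ℝ) ^ (-(11 / 27 * η0)) := by
    rw [Real.rpow_neg hM0.le, Real.rpow_neg hNpos.le]
    apply inv_anti₀ (Real.rpow_pos_of_pos hNpos _)
    rw [Real.rpow_mul hNpos.le]
    exact Real.rpow_le_rpow (Real.rpow_nonneg hNpos.le _) hMN hη0.le
  have hfin : (N : ℝ) * ((N : ℝ) ^ (η0 / 10)) ^ 2 * (N : ℝ) ^ (-(11 / 27 * η0)) ≤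
      (N : ℝ) ^ (1 - η) := by
    rw [← Real.rpow_natCast ((N : ℝ) ^ (η0 / 10)) 2, ← Real.rpow_mul hNpos.le]
    calc (N : ℝ) * (N : ℝ) ^ (η0 / 10 * ((2 : ℕ) : ℝ)) * (N : ℝ) ^ (-(11 / 27 * η0))
        = (N : ℝ) ^ (1 + η0 / 10 * ((2 : ℕ) : ℝ) + (-(11 / 27 * η0))) := by
          rw [Real.rpow_add hNpos, Real.rpow_add hNpos, Real.rpow_one]
      _ ≤ _ := by
          apply Real.rpow_le_rpow_of_exponent_le hN1
          push_cast
          nlinarith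
  calc (N : ℝ) / (g * (M : ℝ) ^ 2) * _
      ≤ (N : ℝ) / (g * (M : ℝ) ^ 2) * (C0 * (200 * Real.log N) ^ 2 * (M : ℝ) ^ (2 - η0)) :=
        mul_le_mul_of_nonneg_left key (by positivity)
    _ = C0 * 40000 * (Real.log N) ^ 2 * (N / g) * (M : ℝ) ^ (-η0) := by
        have h1 : (M : ℝ) ^ (2 - η0) = (M : ℝ) ^ 2 * (M : ℝ) ^ (-η0) := by
          rw [← Real.rpow_natCast (M : ℝ) 2, ← Real.rpow_add hM0]
          congr 1
        rw [h1]
        field_simp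
        ring
    _ ≤ C0 * 40000 * ((N : ℝ) ^ (η0 / 10) / (η0 / 10)) ^ 2 * (N / g) *
          (N : ℝ) ^ (-(11 / 27 * η0)) := by gcongr
    _ = C0 * 40000 * (10 / η0) ^ 2 *
          ((N : ℝ) * ((N : ℝ) ^ (η0 / 10)) ^ 2 * (N : ℝ) ^ (-(11 / 27 * η0))) / g := by
        field_simp
    _ ≤ C0 * 40000 * (10 / η0) ^ 2 * (N : ℝ) ^ (1 - η) / g := by gcongr
    _ ≤ _ := by
        apply div_le_div_of_nonneg_right _ hg0.le
        apply mul_le_mul_of_nonneg_right _ (by positivity)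
        linarith

end Pool.Agent.H442R2.KF
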