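import Pool.Agent.H442R2.KF.Defs

/-!
KF project, task P: the diagonal.
-/

set_option autoImplicit false

namespace Pool.Agent.H442R2.KF

open Finset

namespace TaskP

lemma tau_nonneg (n : ℕ) : 0 ≤ tau n := by unfold tau; positivity

/-- triples `(g, d, e)` in `[1, x]³` whose product divides `m` -/
lemma tau_sq_le (x m : ℕ) (hm : m ∈ Icc 1 x) :
    (tau m) ^ 2 ≤ (((Icc 1 x ×ˢ Icc 1 x ×ˢ Icc 1 x).filter
      (fun t : ℕ × ℕ × ℕ => t.1 * t.2.1 * t.2.2 ∣ m)).card : ℝ) := by
  obtain ⟨hm1, hmx⟩ := Finset.mem_Icc.1 hm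
  have hle : (m.divisors ×ˢ m.divisors).card ≤ ((Icc 1 x ×ˢ Icc 1 x ×ˢ Icc 1 x).filter
      (fun t : ℕ × ℕ × ℕ => t.1 * t.2.1 * t.2.2 ∣ m)).card := by
    apply Finset.card_le_card_of_injOn
      (fun z : ℕ × ℕ => (Nat.gcd z.1 z.2, z.1 / Nat.gcd z.1 z.2, z.2 / Nat.gcd z.1 z.2))
    · rintro ⟨d, e⟩ hz
      obtain ⟨hd, he⟩ := Finset.mem_product.1 (Finset.mem_coe.1 hz)
      simp only at hd he
      have hd' := Nat.dvd_of_mem_divisors hd
      have he' := Nat.dvd_of_mem_divisors he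
      have hd0 : 0 < d := Nat.pos_of_mem_divisors hd
      have he0 : 0 < e := Nat.pos_of_mem_divisors he
      have hg0 : 0 < Nat.gcd d e := Nat.gcd_pos_of_pos_left _ hd0
      have hdx : d ≤ x := (Nat.le_of_dvd hm1 hd').trans hmx
      have hex : e ≤ x := (Nat.le_of_dvd hm1 he').trans hmx
      have hgd := Nat.gcd_dvd_left d e
      have hge := Nat.gcd_dvd_right d e
      have h1 : 0 < d / Nat.gcd d e := Nat.div_pos (Nat.le_of_dvd hd0 hgd) hg0
      have h2 : 0 < e / Nat.gcd d e := Nat.div_pos (Nat.le_of_dvd he0 hge) hg0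
      apply Finset.mem_coe.2
      simp only [Finset.mem_filter, Finset.mem_product, Finset.mem_Icc]
      refine ⟨⟨⟨hg0, (Nat.le_of_dvd hd0 hgd).trans hdx⟩, ⟨h1, (Nat.div_le_self _ _).trans hdx⟩,
        ⟨h2, (Nat.div_le_self _ _).trans hex⟩⟩, ?_⟩
      have h3 : Nat.gcd d e * (d / Nat.gcd d e) * (e / Nat.gcd d e) = Nat.lcm d e := by
        rw [Nat.mul_div_cancel' hgd]
        unfold Nat.lcm
        rw [Nat.mul_div_assoc _ hge]
      rw [h3]
      exact Nat.lcm_dvd hd' he'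
    · rintro ⟨d, e⟩ hz ⟨d', e'⟩ hz' heq
      simp only [Prod.mk.injEq] at heq
      obtain ⟨h1, h2, h3⟩ := heq
      have a1 := Nat.mul_div_cancel' (Nat.gcd_dvd_left d e)
      have a2 := Nat.mul_div_cancel' (Nat.gcd_dvd_right d e)
      have a3 := Nat.mul_div_cancel' (Nat.gcd_dvd_left d' e')
      have a4 := Nat.mul_div_cancel' (Nat.gcd_dvd_right d' e')
      rw [h2, h1, a3] at a1
      rw [h3, h1, a4] at a2
      rw [← a1, ← a2]
  have h4 : (tau m) ^ 2 = ((m.divisors ×ˢ m.divisors).card : ℝ) := by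
    rw [Finset.card_product]; unfold tau; push_cast; ring
  rw [h4]
  exact_mod_cast hle

lemma harm (x : ℕ) : ∑ i ∈ Icc 1 x, (1 : ℝ) / i ≤ 1 + Real.log x := by
  have h := harmonic_le_one_add_log x
  rw [harmonic_eq_sum_Icc] at h
  push_cast at h
  simpa [one_div] using h

lemma sum_tau_sq (x : ℕ) : ∑ m ∈ Icc 1 x, (tau m) ^ 2 ≤ x * (1 + Real.log x) ^ 3 := by
  classical
  calc ∑ m ∈ Icc 1 x, (tau m) ^ 2
      ≤ ∑ m ∈ Icc 1 x, (((Icc 1 x ×ˢ Icc 1 x ×ˢ Icc 1 x).filter
          (fun t : ℕ × ℕ × ℕ => t.1 * t.2.1 * t.2.2 ∣ m)).card : ℝ) :=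
        Finset.sum_le_sum (fun m hm => tau_sq_le x m hm)
    _ = ∑ t ∈ Icc 1 x ×ˢ Icc 1 x ×ˢ Icc 1 x,
          (((Icc 1 x).filter (fun m => t.1 * t.2.1 * t.2.2 ∣ m)).card : ℝ) := by
        simp only [Finset.card_filter, Nat.cast_sum]
        rw [Finset.sum_comm]
    _ ≤ ∑ t ∈ Icc 1 x ×ˢ Icc 1 x ×ˢ Icc 1 x,
          (x : ℝ) * ((1 / (t.1 : ℝ)) * ((1 / (t.2.1 : ℝ)) * (1 / (t.2.2 : ℝ)))) := by
        apply Finset.sum_le_sum
        rintro ⟨g, d, e⟩ ht
        simp only [Finset.mem_product, Finset.mem_Icc] at ht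
        simp only
        have hg : (0 : ℝ) < g := by exact_mod_cast ht.1.1
        have hd : (0 : ℝ) < d := by exact_mod_cast ht.2.1.1
        have he : (0 : ℝ) < e := by exact_mod_cast ht.2.2.1
        have hcard : ((Icc 1 x).filter (fun m => g * d * e ∣ m)).card = x / (g * d * e) := by
          have := Nat.card_multiples' x (g * d * e)
          rw [← this]
          congr 1
          ext m
          simp only [Finset.mem_filter, Finset.mem_Icc, Finset.mem_range]
          constructor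
          · rintro ⟨⟨h1, h2⟩, h3⟩; exact ⟨by omega, by omega, h3⟩
          · rintro ⟨h1, h2, h3⟩; exact ⟨⟨by omega, by omega⟩, h3⟩
        rw [hcard]
        refine Nat.cast_div_le.trans (le_of_eq ?_)
        push_cast
        field_simp
    _ = x * (∑ i ∈ Icc 1 x, (1 : ℝ) / i) ^ 3 := by
        rw [← Finset.mul_sum, Finset.sum_product]
        simp only [Finset.sum_product]
        simp only [← Finset.mul_sum, ← Finset.sum_mul]
        ring
    _ ≤ x * (1 + Real.log x) ^ 3 := by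
        apply mul_le_mul_of_nonneg_left _ (Nat.cast_nonneg x)
        apply pow_le_pow_left₀ _ (harm x)
        exact Finset.sum_nonneg (fun i _ => by positivity)

lemma abs_rr_le (u : ℕ → ℝ) (X : ℕ) (a n : ℤ) (K : ℝ) (hK : ∀ d, |u d| ≤ K) :
    rr u X a n * rr u X a n ≤ K ^ 2 * (tau (n - a).natAbs) ^ 2 := by
  have hK0 : 0 ≤ K := (abs_nonneg _).trans (hK 0)
  have h : |rr u X a n| ≤ K * tau (n - a).natAbs := by
    unfold rr
    split_ifs with hna
    · rw [abs_zero]; exact mul_nonneg hK0 (tau_nonneg _)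
    · unfold rho
      have hne : (n - a).natAbs ≠ 0 := by
        rw [Int.natAbs_ne_zero]; exact sub_ne_zero.2 hna
      calc |∑ d ∈ (Icc 1 X).filter (fun d : ℕ => (d : ℤ) ∣ n - a), u d|
          ≤ ∑ d ∈ (Icc 1 X).filter (fun d : ℕ => (d : ℤ) ∣ n - a), |u d| :=
            Finset.abs_sum_le_sum_abs _ _
        _ ≤ ∑ d ∈ (Icc 1 X).filter (fun d : ℕ => (d : ℤ) ∣ n - a), K :=
            Finset.sum_le_sum (fun d _ => hK d)
        _ ≤ ∑ d ∈ (n - a).natAbs.divisors, K := by
            apply Finset.sum_le_sum_of_subset_of_nonneg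
            · intro d hd
              obtain ⟨_, h2⟩ := Finset.mem_filter.1 hd
              exact Nat.mem_divisors.2 ⟨Int.natCast_dvd.1 h2, hne⟩
            · intro _ _ _; exact hK0
        _ = K * tau (n - a).natAbs := by
            rw [Finset.sum_const, nsmul_eq_mul, mul_comm]; rfl
  calc rr u X a n * rr u X a n = |rr u X a n| ^ 2 := by rw [sq_abs]; ring
    _ ≤ (K * tau (n - a).natAbs) ^ 2 := pow_le_pow_left₀ (abs_nonneg _) h 2
    _ = _ := by ring

lemma sum_fold (g : ℕ → ℝ) (hg : ∀ m, 0 ≤ g m) (hg0 : g 0 = 0) (a : ℤ) (M : ℕ) (S : Finset ℤ)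
    (hS : ∀ n ∈ S, (n - a).natAbs ≤ M) :
    ∑ n ∈ S, g (n - a).natAbs ≤ 2 * ∑ m ∈ Icc 1 M, g m := by
  classical
  have h0 : ∑ m ∈ Icc 1 M, g m = ∑ m ∈ range (M + 1), g m := by
    apply Finset.sum_subset
    · intro m hm
      obtain ⟨_, h2⟩ := Finset.mem_Icc.1 hm
      exact Finset.mem_range.2 (by omega)
    · intro m hm hm'
      have h1 := Finset.mem_range.1 hm
      have : m = 0 := by
        by_contra h
        exact hm' (Finset.mem_Icc.2 ⟨by omega, by omega⟩)
      rw [this, hg0]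
  have i1 : Set.InjOn (fun m : ℕ => a + (m : ℤ)) (range (M + 1)) := by
    intro m _ m' _ h
    simp only at h
    omega
  have i2 : Set.InjOn (fun m : ℕ => a - (m : ℤ)) (range (M + 1)) := by
    intro m _ m' _ h
    simp only at h
    omega
  have e1 : ∑ n ∈ (range (M + 1)).image (fun m : ℕ => a + (m : ℤ)), g (n - a).natAbs =
      ∑ m ∈ range (M + 1), g m := by
    rw [Finset.sum_image i1]
    apply Finset.sum_congr rfl
    intro m _
    congr 1
    omega
  have e2 : ∑ n ∈ (range (M + 1)).image (fun m : ℕ => a - (m : ℤ)), g (n - a).natAbs =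
      ∑ m ∈ range (M + 1), g m := by
    rw [Finset.sum_image i2]
    apply Finset.sum_congr rfl
    intro m _
    congr 1
    omega
  have hsub : S ⊆ (range (M + 1)).image (fun m : ℕ => a + (m : ℤ)) ∪
      (range (M + 1)).image (fun m : ℕ => a - (m : ℤ)) := by
    intro n hn
    have h1 := hS n hn
    rcases le_total a n with h2 | h2
    · apply Finset.mem_union_left
      exact Finset.mem_image.2 ⟨(n - a).natAbs, Finset.mem_range.2 (by omega), by omega⟩
    · apply Finset.mem_union_right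
      exact Finset.mem_image.2 ⟨(n - a).natAbs, Finset.mem_range.2 (by omega), by omega⟩
  calc ∑ n ∈ S, g (n - a).natAbs
      ≤ ∑ n ∈ (range (M + 1)).image (fun m : ℕ => a + (m : ℤ)) ∪
          (range (M + 1)).image (fun m : ℕ => a - (m : ℤ)), g (n - a).natAbs :=
        Finset.sum_le_sum_of_subset_of_nonneg hsub (fun _ _ _ => hg _)
    _ ≤ ∑ n ∈ (range (M + 1)).image (fun m : ℕ => a + (m : ℤ)), g (n - a).natAbs +
          ∑ n ∈ (range (M + 1)).image (fun m : ℕ => a - (m : ℤ)), g (n - a).natAbs := by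
        rw [← Finset.sum_union_inter]
        have : 0 ≤ ∑ n ∈ (range (M + 1)).image (fun m : ℕ => a + (m : ℤ)) ∩
          (range (M + 1)).image (fun m : ℕ => a - (m : ℤ)), g (n - a).natAbs :=
          Finset.sum_nonneg (fun _ _ => hg _)
        linarith
    _ = 2 * ∑ m ∈ Icc 1 M, g m := by rw [e1, e2, h0]; ring

lemma Wt_le (N : ℕ) (hN : 0 < N) (a n : ℤ) (h0 : 0 ≤ a) (ha : a ≤ N) (j : ℕ)
    (hj : j = (n - a).natAbs / N) : Wt N n ≤ Real.exp (1 - j) := by
  unfold Wt
  apply Real.exp_le_exp.2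
  have hNr : (0 : ℝ) < N := by exact_mod_cast hN
  have h1 : j * N ≤ (n - a).natAbs := by rw [hj]; exact Nat.div_mul_le_self _ _
  have h2 : ((j : ℤ) - 1) * N ≤ |n| := by
    have h3 : ((j * N : ℕ) : ℤ) ≤ ((n - a).natAbs : ℤ) := by exact_mod_cast h1
    rw [Int.natCast_natAbs] at h3
    push_cast at h3
    have h4 : |n - a| ≤ |n| + |a| := abs_sub n a
    rw [abs_of_nonneg h0] at h4
    nlinarith
  have h3 : ((j : ℝ) - 1) * N ≤ |(n : ℝ)| := by exact_mod_cast h2
  have h4 : (j : ℝ) - 1 ≤ |(n : ℝ) / N| := by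
    rw [abs_div, abs_of_pos hNr, le_div_iff₀ hNr]
    exact h3
  have h5 : 0 ≤ ((n : ℝ) / N) ^ 2 := sq_nonneg _
  rcases Nat.lt_or_ge j 2 with hj2 | hj2
  · have : (j : ℝ) ≤ 1 := by exact_mod_cast (by omega : j ≤ 1)
    nlinarith [Real.pi_pos]
  · have hj1 : (1 : ℝ) ≤ (j : ℝ) - 1 := by
      have : (2 : ℝ) ≤ j := by exact_mod_cast hj2
      linarith
    have h6 : (j : ℝ) - 1 ≤ ((n : ℝ) / N) ^ 2 := by
      rw [← sq_abs]
      nlinarith
    nlinarith [Real.pi_gt_three]

lemma summ_w : Summable (fun j : ℕ => Real.exp (1 - j) * ((j : ℝ) + 2) ^ 4) := by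
  have h := Real.summable_pow_mul_exp_neg_nat_mul 4 (r := 1) one_pos
  have h2 := (summable_nat_add_iff 2).2 h
  have h3 := h2.mul_left (Real.exp 3)
  refine h3.congr (fun j => ?_)
  have : Real.exp (1 - (j : ℝ)) = Real.exp 3 * Real.exp (-1 * ((j + 2 : ℕ) : ℝ)) := by
    rw [← Real.exp_add]; congr 1; push_cast; ring
  rw [this]
  push_cast
  ring

lemma block_le (N : ℕ) (hN : 3 ≤ N) (j : ℕ) :
    ∑ m ∈ Icc 1 ((j + 1) * N), (tau m) ^ 2 ≤ ((j : ℝ) + 2) ^ 4 * (N * Real.log N ^ 3) := by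
  have hNr : (0 : ℝ) < N := by positivity
  have hl : 1 ≤ Real.log N := by
    rw [Real.le_log_iff_exp_le hNr]
    have : (3 : ℝ) ≤ N := by exact_mod_cast hN
    linarith [Real.exp_one_lt_d9]
  refine (sum_tau_sq _).trans ?_
  have h1 : Real.log (((j + 1) * N : ℕ) : ℝ) = Real.log ((j : ℝ) + 1) + Real.log N := by
    push_cast
    rw [Real.log_mul (by positivity) (by positivity)]
  have h2 : Real.log ((j : ℝ) + 1) ≤ j := by
    have := Real.log_le_sub_one_of_pos (show (0 : ℝ) < (j : ℝ) + 1 by positivity)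
    linarith
  have h2' : 0 ≤ Real.log ((j : ℝ) + 1) := Real.log_nonneg (by
    have : (0 : ℝ) ≤ j := Nat.cast_nonneg j
    linarith)
  have hj0 : (0 : ℝ) ≤ j := Nat.cast_nonneg j
  have h3 : 1 + Real.log (((j + 1) * N : ℕ) : ℝ) ≤ ((j : ℝ) + 2) * Real.log N := by
    rw [h1]; nlinarith
  have h4 : 0 ≤ 1 + Real.log (((j + 1) * N : ℕ) : ℝ) := by rw [h1]; linarith
  calc (((j + 1) * N : ℕ) : ℝ) * (1 + Real.log (((j + 1) * N : ℕ) : ℝ)) ^ 3
      ≤ (((j + 1) * N : ℕ) : ℝ) * (((j : ℝ) + 2) * Real.log N) ^ 3 :=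
        mul_le_mul_of_nonneg_left (pow_le_pow_left₀ h4 h3 3) (Nat.cast_nonneg _)
    _ ≤ (((j : ℝ) + 2) * N) * (((j : ℝ) + 2) * Real.log N) ^ 3 := by
        apply mul_le_mul_of_nonneg_right _ (by positivity)
        push_cast
        nlinarith
    _ = _ := by ring

end TaskP

open TaskP in
/-- P (Diag.lean): the diagonal -/
theorem diag : ∃ C : ℝ, 0 < C ∧ ∀ (N X : ℕ), 3 ≤ N → ∀ (a : ℤ), 0 ≤ a → a ≤ N →
    ∀ (u : ℕ → ℝ) (K : ℝ), (∀ d, |u d| ≤ K) →
    ∑' n : ℤ, Wt N n * (rr u X a n * rr u X a n) ≤ C * K ^ 2 * (N * Real.log N ^ 3) := by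
  classical
  set C0 : ℝ := ∑' j : ℕ, Real.exp (1 - j) * ((j : ℝ) + 2) ^ 4 with hC0
  have hC0' : 0 ≤ C0 := tsum_nonneg (fun j => by positivity)
  refine ⟨2 * C0 + 1, by positivity, ?_⟩
  intro N X hN a ha0 haN u K hK
  have hNr : (0 : ℝ) < N := by positivity
  have hN0 : 0 < N := by omega
  have hl : 0 ≤ Real.log N := Real.log_nonneg (by exact_mod_cast hN0)
  have hB : 0 ≤ (N : ℝ) * Real.log N ^ 3 := by positivity
  refine tsum_le_of_sum_le' (by positivity) (fun S => ?_)
  -- the bound for finite sums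
  have h1 : ∑ n ∈ S, Wt N n * (rr u X a n * rr u X a n) ≤
      ∑ n ∈ S, K ^ 2 * (Wt N n * (tau (n - a).natAbs) ^ 2) := by
    apply Finset.sum_le_sum
    intro n _
    have hW : 0 ≤ Wt N n := (Real.exp_pos _).le
    have := mul_le_mul_of_nonneg_left (abs_rr_le u X a n K hK) hW
    linarith
  obtain ⟨J, hJ⟩ : ∃ J : ℕ, ∀ n ∈ S, (n - a).natAbs / N < J := by
    refine ⟨(S.sup (fun n => (n - a).natAbs / N)) + 1, fun n hn => ?_⟩
    have := Finset.le_sup (f := fun n : ℤ => (n - a).natAbs / N) hn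
    omega
  have h2 : ∑ n ∈ S, Wt N n * (tau (n - a).natAbs) ^ 2 ≤
      2 * C0 * (N * Real.log N ^ 3) := by
    have e1 := Finset.sum_fiberwise_of_maps_to (s := S) (t := range J)
      (g := fun n : ℤ => (n - a).natAbs / N) (fun n hn => Finset.mem_range.2 (hJ n hn))
      (fun n => Wt N n * (tau (n - a).natAbs) ^ 2)
    rw [← e1]
    calc ∑ j ∈ range J, ∑ n ∈ S with (n - a).natAbs / N = j,
          Wt N n * (tau (n - a).natAbs) ^ 2
        ≤ ∑ j ∈ range J, (Real.exp (1 - j) * ((j : ℝ) + 2) ^ 4) *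
            (2 * (N * Real.log N ^ 3)) := by
          apply Finset.sum_le_sum
          intro j _
          calc ∑ n ∈ S with (n - a).natAbs / N = j, Wt N n * (tau (n - a).natAbs) ^ 2
              ≤ ∑ n ∈ S with (n - a).natAbs / N = j,
                  Real.exp (1 - j) * (tau (n - a).natAbs) ^ 2 := by
                apply Finset.sum_le_sum
                intro n hn
                have hj := (Finset.mem_filter.1 hn).2
                exact mul_le_mul_of_nonneg_right (Wt_le N hN0 a n ha0 haN j hj.symm) (sq_nonneg _)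
            _ = Real.exp (1 - j) * ∑ n ∈ S with (n - a).natAbs / N = j,
                  (tau (n - a).natAbs) ^ 2 := by rw [Finset.mul_sum]
            _ ≤ Real.exp (1 - j) * (2 * (((j : ℝ) + 2) ^ 4 * (N * Real.log N ^ 3))) := by
                apply mul_le_mul_of_nonneg_left _ (Real.exp_pos _).le
                refine (sum_fold (fun m => (tau m) ^ 2) (fun m => sq_nonneg _)
                  (by simp [tau]) a ((j + 1) * N) _ ?_).trans ?_
                · intro n hn
                  have hj := (Finset.mem_filter.1 hn).2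
                  have := Nat.lt_mul_of_div_lt (show (n - a).natAbs / N < j + 1 by omega) hN0
                  exact this.le
                · have := block_le N hN j
                  linarith
            _ = _ := by ring
      _ = (∑ j ∈ range J, Real.exp (1 - j) * ((j : ℝ) + 2) ^ 4) * (2 * (N * Real.log N ^ 3)) := by
          rw [Finset.sum_mul]
      _ ≤ C0 * (2 * (N * Real.log N ^ 3)) := by
          apply mul_le_mul_of_nonneg_right _ (by positivity)
          exact summ_w.sum_le_tsum _ (fun j _ => by positivity)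
      _ = _ := by ring
  calc ∑ n ∈ S, Wt N n * (rr u X a n * rr u X a n)
      ≤ ∑ n ∈ S, K ^ 2 * (Wt N n * (tau (n - a).natAbs) ^ 2) := h1
    _ = K ^ 2 * ∑ n ∈ S, Wt N n * (tau (n - a).natAbs) ^ 2 := by rw [Finset.mul_sum]
    _ ≤ K ^ 2 * (2 * C0 * (N * Real.log N ^ 3)) := mul_le_mul_of_nonneg_left h2 (sq_nonneg K)
    _ ≤ (2 * C0 + 1) * K ^ 2 * (N * Real.log N ^ 3) := by nlinarith [sq_nonneg K, mul_nonneg (sq_nonneg K) hB]

end Pool.Agent.H442R2.KF
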