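import Pool.Agent.H442R2.KF.Defs

/-! Task R1 of the KF project (helper332): duality. -/

set_option autoImplicit false

namespace Pool.Agent.H442R2.KF

open Finset

namespace TaskR1

lemma exp_pi_le : Real.exp Real.pi ≤ 25 := by
  have h1 : Real.pi ≤ 3.1416 := by have := Real.pi_lt_d4; norm_num at this ⊢; linarith
  have h2 : Real.exp Real.pi ≤ Real.exp 3.1416 := Real.exp_le_exp.2 h1
  have h3 : Real.exp 3.1416 = Real.exp 1 ^ 3 * Real.exp 0.1416 := by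
    rw [← Real.exp_nat_mul, ← Real.exp_add]; norm_num
  have h4 : Real.exp 1 < 2.7182818286 := Real.exp_one_lt_d9
  have h5 : (0.8584 : ℝ) ≤ Real.exp (-0.1416) := by
    have := Real.add_one_le_exp (-0.1416 : ℝ); norm_num at this ⊢; linarith
  have h6 : Real.exp 0.1416 * Real.exp (-0.1416) = 1 := by
    rw [← Real.exp_add]; norm_num
  have h7 : Real.exp 0.1416 ≤ 1.17 := by
    by_contra h
    push Not at h
    have : (1 : ℝ) < Real.exp 0.1416 * Real.exp (-0.1416) := by nlinarith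
    linarith
  have h8 : Real.exp 1 ^ 3 ≤ 2.7182818286 ^ 3 := by
    have h0 : 0 ≤ Real.exp 1 := (Real.exp_pos 1).le
    gcongr
  have h9 : 0 ≤ Real.exp 0.1416 := (Real.exp_pos _).le
  calc Real.exp Real.pi ≤ Real.exp 1 ^ 3 * Real.exp 0.1416 := h2.trans h3.le
    _ ≤ 2.7182818286 ^ 3 * 1.17 := by gcongr
    _ ≤ 25 := by norm_num

lemma Wt_nonneg (N : ℕ) (n : ℤ) : 0 ≤ Wt N n := (Real.exp_pos _).le

lemma one_le_Wt (N : ℕ) (hN : 1 ≤ N) (p : ℕ) (hp : p ≤ N) : 1 ≤ 25 * Wt N (p : ℤ) := by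
  unfold Wt
  have hN0 : (0 : ℝ) < N := by exact_mod_cast hN
  have h1 : (((p : ℤ) : ℝ) / N) ^ 2 ≤ 1 := by
    have h0 : (0 : ℝ) ≤ ((p : ℤ) : ℝ) / N := by positivity
    have h2 : ((p : ℤ) : ℝ) / N ≤ 1 := by
      rw [div_le_one hN0]
      exact_mod_cast hp
    nlinarith
  have h2 : Real.exp (-Real.pi) ≤ Real.exp (-Real.pi * (((p : ℤ) : ℝ) / N) ^ 2) := by
    apply Real.exp_le_exp.2
    nlinarith [Real.pi_pos]
  have h3 : Real.exp Real.pi * Real.exp (-Real.pi) = 1 := by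
    rw [← Real.exp_add]; simp
  have h4 : 0 < Real.exp (-Real.pi) := Real.exp_pos _
  nlinarith [exp_pi_le]

end TaskR1

open TaskR1

/-- R1 (Dual.lean): duality -/
theorem dual (N : ℕ) (hN : 1 ≤ N) (A : Finset ℕ) (r : ℕ → ℤ → ℝ)
    (hs : ∀ a ∈ A, ∀ a' ∈ A, Summable (fun n : ℤ => Wt N n * (r a n * r a' n)))
    (G O : ℝ) (hG : ∀ a ∈ A, ∑' n : ℤ, Wt N n * (r a n * r a n) ≤ G) (hO0 : 0 ≤ O)
    (hO : ∀ a ∈ A, ∀ a' ∈ A, a ≠ a' → ∑' n : ℤ, Wt N n * (r a n * r a' n) ≤ O) :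
    (∑ a ∈ A, ∑ p ∈ (Icc 1 N).filter Nat.Prime, r a p) ^ 2 ≤
      25 * N * ((A.card : ℝ) * G + (A.card : ℝ) ^ 2 * O) := by
  classical
  set S := (Icc 1 N).filter Nat.Prime with hS
  have hcard : (S.card : ℝ) ≤ N := by
    have h1 : S.card ≤ (Icc 1 N).card := card_filter_le _ _
    rw [Nat.card_Icc] at h1
    exact_mod_cast (by omega : S.card ≤ N)
  set F : ℤ → ℝ := fun n => ∑ a ∈ A, r a n with hF
  have hswap : ∑ a ∈ A, ∑ p ∈ S, r a p = ∑ p ∈ S, F p := by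
    rw [sum_comm]
  have hexp : ∀ n : ℤ, Wt N n * F n ^ 2 = ∑ a ∈ A, ∑ a' ∈ A, Wt N n * (r a n * r a' n) := by
    intro n
    rw [hF, sq, sum_mul_sum, mul_sum]
    refine sum_congr rfl fun a _ => ?_
    rw [mul_sum]
  have hsumm : Summable (fun n : ℤ => Wt N n * F n ^ 2) := by
    have : (fun n : ℤ => Wt N n * F n ^ 2) =
        fun n => ∑ a ∈ A, ∑ a' ∈ A, Wt N n * (r a n * r a' n) := funext hexp
    rw [this]
    exact summable_sum fun a ha => summable_sum fun a' ha' => hs a ha a' ha'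
  have htsum : ∑' n : ℤ, Wt N n * F n ^ 2 =
      ∑ a ∈ A, ∑ a' ∈ A, ∑' n : ℤ, Wt N n * (r a n * r a' n) := by
    rw [tsum_congr hexp, Summable.tsum_finsetSum
      (fun a ha => summable_sum fun a' ha' => hs a ha a' ha')]
    refine sum_congr rfl fun a ha => ?_
    rw [Summable.tsum_finsetSum (fun a' ha' => hs a ha a' ha')]
  have hbound : ∑' n : ℤ, Wt N n * F n ^ 2 ≤ (A.card : ℝ) * G + (A.card : ℝ) ^ 2 * O := by
    rw [htsum]
    calc ∑ a ∈ A, ∑ a' ∈ A, ∑' n : ℤ, Wt N n * (r a n * r a' n)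
        ≤ ∑ a ∈ A, ∑ a' ∈ A, ((if a = a' then G else 0) + O) := by
          refine sum_le_sum fun a ha => sum_le_sum fun a' ha' => ?_
          by_cases h : a = a'
          · subst h
            rw [if_pos rfl]
            linarith [hG a ha]
          · rw [if_neg h]
            linarith [hO a ha a' ha' h]
      _ = (A.card : ℝ) * G + (A.card : ℝ) ^ 2 * O := by
          have h1 : ∀ a ∈ A, ∑ a' ∈ A, ((if a = a' then G else 0) + O) = G + A.card * O := by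
            intro a ha
            rw [sum_add_distrib, sum_ite_eq, if_pos ha, sum_const, nsmul_eq_mul]
          rw [sum_congr rfl h1, sum_const, nsmul_eq_mul]
          ring
  have hfin : ∑ p ∈ S, Wt N (p : ℤ) * F p ^ 2 ≤ ∑' n : ℤ, Wt N n * F n ^ 2 := by
    have h1 : ∑ p ∈ S, Wt N (p : ℤ) * F p ^ 2 =
        ∑ n ∈ S.map ⟨fun p : ℕ => (p : ℤ), Nat.cast_injective⟩, Wt N n * F n ^ 2 := by
      rw [sum_map]; rfl
    rw [h1]
    exact hsumm.sum_le_tsum _ fun n _ => mul_nonneg (Wt_nonneg N n) (sq_nonneg _)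
  have hsq : ∑ p ∈ S, F p ^ 2 ≤ 25 * ∑ p ∈ S, Wt N (p : ℤ) * F p ^ 2 := by
    rw [mul_sum]
    refine sum_le_sum fun p hp => ?_
    have hpN : p ≤ N := (mem_Icc.1 (mem_filter.1 hp).1).2
    have := one_le_Wt N hN p hpN
    nlinarith [sq_nonneg (F p)]
  have hN0 : (0 : ℝ) ≤ N := Nat.cast_nonneg _
  rw [hswap]
  calc (∑ p ∈ S, F p) ^ 2 ≤ S.card * ∑ p ∈ S, F p ^ 2 := sq_sum_le_card_mul_sum_sq
    _ ≤ N * ∑ p ∈ S, F p ^ 2 := by
        have : 0 ≤ ∑ p ∈ S, F (p : ℤ) ^ 2 := sum_nonneg fun p _ => sq_nonneg _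
        gcongr
    _ ≤ N * (25 * ((A.card : ℝ) * G + (A.card : ℝ) ^ 2 * O)) := by
        gcongr
        linarith
    _ = 25 * N * ((A.card : ℝ) * G + (A.card : ℝ) ^ 2 * O) := by ring

end Pool.Agent.H442R2.KF
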