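import Pool.Agent.H442R2.KF.Bv
import Pool.Agent.H398R2.BA1

/-! KF project (helper442), task UA: Bombieri-Vinogradov for the primes up to `y ≤ N`
(helper266). -/

namespace Pool.Agent.H442R2.KF

open Finset

namespace TaskUA

theorem log_pow_le (K : ℕ) (ε : ℝ) (hε : 0 < ε) : ∃ C : ℝ, 0 < C ∧ ∀ x : ℝ, 1 ≤ x →
    Real.log x ^ K ≤ C * x ^ ε := by
  have hK : (0:ℝ) < (K:ℝ) + 1 := by positivity
  refine ⟨(((K:ℝ) + 1) / ε) ^ K, by positivity, fun x hx => ?_⟩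
  have hx0 : (0:ℝ) ≤ x := by linarith
  have h1 : Real.log x ≤ x ^ (ε / (K + 1)) / (ε / (K + 1)) :=
    Real.log_le_rpow_div hx0 (by positivity)
  have h2 : x ^ (ε / (K + 1)) / (ε / (K + 1)) = ((K:ℝ) + 1) / ε * x ^ (ε / (K + 1)) := by
    field_simp
  rw [h2] at h1
  calc Real.log x ^ K ≤ (((K:ℝ) + 1) / ε * x ^ (ε / (K + 1))) ^ K :=
        pow_le_pow_left₀ (Real.log_nonneg hx) h1 K
    _ = (((K:ℝ) + 1) / ε) ^ K * (x ^ (ε / (K + 1))) ^ K := mul_pow _ _ _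
    _ ≤ (((K:ℝ) + 1) / ε) ^ K * x ^ ε := by
        apply mul_le_mul_of_nonneg_left _ (by positivity)
        rw [← Real.rpow_natCast, ← Real.rpow_mul hx0]
        apply Real.rpow_le_rpow_of_exponent_le hx
        rw [div_mul_eq_mul_div, div_le_iff₀ hK]
        nlinarith

/-- the trivial bound -/
theorem Er_triv (y d a : ℕ) (hd : 1 ≤ d) :
    |Er y d a| ≤ 2 * y * (1 / (Nat.totient d : ℝ)) + 1 := by
  have h1 : (piAP y d a : ℝ) ≤ (y : ℝ) / d + 1 := by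
    refine le_trans ?_ (H343E.card_mod y d a hd)
    unfold piAP
    have : ((Icc 1 y).filter (fun p : ℕ => p.Prime ∧ p ≡ a [MOD d])).card ≤
        ((Icc 1 y).filter (fun m => m ≡ a [MOD d])).card := by
      apply card_le_card
      intro p hp
      rw [mem_filter] at hp ⊢
      exact ⟨hp.1, hp.2.2⟩
    exact_mod_cast this
  have h2 : (piN y : ℝ) ≤ y := by
    unfold piN
    exact_mod_cast (card_filter_le _ _).trans (by simp)
  have ht0 : (0:ℝ) < Nat.totient d := by exact_mod_cast Nat.totient_pos.2 (by omega)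
  have htd : (Nat.totient d : ℝ) ≤ d := by exact_mod_cast Nat.totient_le d
  have hy0 : (0:ℝ) ≤ y := Nat.cast_nonneg _
  have h3 : (y : ℝ) / d ≤ y * (1 / (Nat.totient d : ℝ)) := by
    rw [div_eq_mul_one_div]
    exact mul_le_mul_of_nonneg_left (one_div_le_one_div_of_le ht0 htd) hy0
  have h4 : (piN y : ℝ) / (Nat.totient d : ℝ) ≤ y * (1 / (Nat.totient d : ℝ)) := by
    rw [div_eq_mul_one_div]
    exact mul_le_mul_of_nonneg_right h2 (by positivity)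
  have h5 : (0:ℝ) ≤ (piAP y d a : ℝ) := Nat.cast_nonneg _
  have h6 : 0 ≤ (piN y : ℝ) / (Nat.totient d : ℝ) := by positivity
  have h7 : 0 ≤ (y:ℝ) * (1 / (Nat.totient d : ℝ)) := by positivity
  unfold Er
  rw [abs_le]
  constructor <;> linarith

end TaskUA

open TaskUA TaskBV in
/-- UA (BvY.lean) -/
theorem bvY (δ : ℝ) (hδ : δ < 1 / 2) (U : ℕ) : ∃ C : ℝ, 0 < C ∧ ∀ N : ℕ, 3 ≤ N → ∀ y : ℕ, y ≤ N →
    ∀ a : ℕ → ℕ, (∀ d, 1 ≤ d → Nat.Coprime (a d) d) →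
    ∑ d ∈ Icc 1 ⌊(N : ℝ) ^ δ⌋₊, |Er y d (a d)| ≤ C * (N / Real.log N ^ U) := by
  set δ₀ : ℝ := max δ (1 / 4) with hδ₀
  have h01 : δ₀ < 1 / 2 := max_lt hδ (by norm_num)
  have h02 : 1 / 4 ≤ δ₀ := le_max_right _ _
  set δ₁ : ℝ := (1 / 2 + δ₀) / 2 with hδ₁
  have h11 : δ₁ < 1 / 2 := by rw [hδ₁]; linarith
  have h12 : δ₀ < δ₁ := by rw [hδ₁]; linarith
  have h13 : 0 < δ₁ := by linarith
  set δ₂ : ℝ := δ₀ / δ₁ with hδ₂
  have h21 : δ₂ < 1 := by rw [hδ₂, div_lt_one h13]; exact h12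
  have h22 : 0 < δ₂ := div_pos (by linarith) h13
  have h23 : δ₂ * δ₁ = δ₀ := div_mul_cancel₀ _ h13.ne'
  obtain ⟨C₁, hC₁, hbv⟩ := bv δ₁ h11 U
  obtain ⟨k, hk⟩ := Pool.Agent.H398R2.BV.sum_pow_omega_div_totient 1 le_rfl
  obtain ⟨C₂, hC₂, hl₂⟩ := log_pow_le (2 ^ k + U) (1 - δ₂) (by linarith)
  obtain ⟨C₃, hC₃, hl₃⟩ := log_pow_le U (1 - δ₀) (by linarith)
  refine ⟨C₁ / δ₂ ^ U + (4 * 2 ^ 2 ^ k * C₂ + C₃), by positivity, ?_⟩
  intro N hN y hy a ha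
  have hN3 : (3:ℝ) ≤ N := by exact_mod_cast hN
  have hN0 : (0:ℝ) < N := by linarith
  have hN1 : (1:ℝ) ≤ N := by linarith
  have hlog := log_ge_one hN
  have hlog0 : 0 < Real.log N := by linarith
  have hXU : 0 < (N:ℝ) / Real.log N ^ U := by positivity
  have hyN : (y:ℝ) ≤ N := by exact_mod_cast hy
  have hy0 : (0:ℝ) ≤ y := Nat.cast_nonneg _
  set D : ℕ := ⌊(N : ℝ) ^ δ⌋₊ with hD
  have hDle : (D : ℝ) ≤ (N:ℝ) ^ δ₀ :=
    (Nat.floor_le (Real.rpow_nonneg hN0.le _)).trans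
      (Real.rpow_le_rpow_of_exponent_le hN1 (le_max_left _ _))
  by_cases hbig : 3 ≤ y ∧ (N:ℝ) ^ δ₂ ≤ y
  · -- large `y`
    obtain ⟨hy3, hyb⟩ := hbig
    have hy3r : (3:ℝ) ≤ y := by exact_mod_cast hy3
    have h1 := hbv y hy3 a ha
    have h2 : D ≤ ⌊(y : ℝ) ^ δ₁⌋₊ := by
      apply Nat.floor_le_floor
      calc (N:ℝ) ^ δ ≤ (N:ℝ) ^ δ₀ := Real.rpow_le_rpow_of_exponent_le hN1 (le_max_left _ _)
        _ = ((N:ℝ) ^ δ₂) ^ δ₁ := by rw [← Real.rpow_mul hN0.le, h23]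
        _ ≤ (y:ℝ) ^ δ₁ := Real.rpow_le_rpow (by positivity) hyb h13.le
    have h3 : ∑ d ∈ Icc 1 D, |Er y d (a d)| ≤ ∑ d ∈ Icc 1 ⌊(y : ℝ) ^ δ₁⌋₊, |Er y d (a d)| :=
      sum_le_sum_of_subset_of_nonneg (Icc_subset_Icc_right h2) (fun _ _ _ => abs_nonneg _)
    have h4 : δ₂ * Real.log N ≤ Real.log y := by
      rw [← Real.log_rpow hN0]
      exact Real.log_le_log (by positivity) hyb
    have h5 : (y:ℝ) / Real.log y ^ U ≤ (N / Real.log N ^ U) / δ₂ ^ U := by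
      rw [div_div, ← mul_pow, mul_comm (Real.log N)]
      apply div_le_div₀ hN0.le hyN (by positivity)
      exact pow_le_pow_left₀ (by positivity) h4 U
    calc ∑ d ∈ Icc 1 D, |Er y d (a d)| ≤ C₁ * (y / Real.log y ^ U) := h3.trans h1
      _ ≤ C₁ * ((N / Real.log N ^ U) / δ₂ ^ U) := mul_le_mul_of_nonneg_left h5 hC₁.le
      _ = C₁ / δ₂ ^ U * (N / Real.log N ^ U) := by ring
      _ ≤ _ := mul_le_mul_of_nonneg_right (by
          have : 0 ≤ 4 * 2 ^ 2 ^ k * C₂ + C₃ := by positivity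
          linarith) hXU.le
  · -- small `y`
    have hys : (y:ℝ) ≤ 2 * (N:ℝ) ^ δ₂ := by
      have h1 : (1:ℝ) ≤ (N:ℝ) ^ δ₂ := Real.one_le_rpow hN1 h22.le
      rw [not_and_or, not_le, not_le] at hbig
      rcases hbig with h | h
      · have : (y:ℝ) ≤ 2 := by
          have : y ≤ 2 := by omega
          exact_mod_cast this
        linarith
      · linarith
    have h1 : ∑ d ∈ Icc 1 D, |Er y d (a d)| ≤
        ∑ d ∈ Icc 1 D, (2 * y * (1 / (Nat.totient d : ℝ)) + 1) :=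
      sum_le_sum fun d hd => Er_triv y d (a d) (mem_Icc.1 hd).1
    rw [sum_add_distrib, ← mul_sum, sum_const, Nat.card_Icc, nsmul_eq_mul, mul_one,
      Nat.add_sub_cancel] at h1
    have h2 : ∑ d ∈ Icc 1 D, (1 / (Nat.totient d : ℝ)) ≤ (2 * Real.log N) ^ 2 ^ k := by
      have h3 := hk D
      simp only [one_pow] at h3
      refine h3.trans ?_
      have h4 : Real.log D ≤ Real.log N := by
        rcases Nat.eq_zero_or_pos D with h | h
        · rw [h]; simp [hlog0.le]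
        · apply Real.log_le_log (by exact_mod_cast h)
          refine hDle.trans ?_
          calc (N:ℝ) ^ δ₀ ≤ (N:ℝ) ^ (1:ℝ) :=
                Real.rpow_le_rpow_of_exponent_le hN1 (by linarith)
            _ = N := Real.rpow_one _
      have h5 : 0 ≤ Real.log D := Real.log_natCast_nonneg D
      exact pow_le_pow_left₀ (by linarith) (by linarith) _
    have h3 : 2 * (y:ℝ) * ∑ d ∈ Icc 1 D, (1 / (Nat.totient d : ℝ)) ≤
        4 * 2 ^ 2 ^ k * C₂ * (N / Real.log N ^ U) := by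
      calc 2 * (y:ℝ) * ∑ d ∈ Icc 1 D, (1 / (Nat.totient d : ℝ))
          ≤ 2 * (2 * (N:ℝ) ^ δ₂) * (2 * Real.log N) ^ 2 ^ k := by
            apply mul_le_mul (by linarith) h2 (sum_nonneg fun _ _ => by positivity) (by positivity)
        _ = 4 * 2 ^ 2 ^ k * ((N:ℝ) ^ δ₂ * (Real.log N ^ (2 ^ k + U)) / Real.log N ^ U) := by
            rw [pow_add, mul_pow]
            field_simp
            norm_num
        _ ≤ 4 * 2 ^ 2 ^ k * ((N:ℝ) ^ δ₂ * (C₂ * (N:ℝ) ^ (1 - δ₂)) / Real.log N ^ U) := by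
            have := hl₂ N hN1
            gcongr
        _ = 4 * 2 ^ 2 ^ k * C₂ * (((N:ℝ) ^ δ₂ * (N:ℝ) ^ (1 - δ₂)) / Real.log N ^ U) := by ring
        _ = _ := by
            rw [← Real.rpow_add hN0]
            have : δ₂ + (1 - δ₂) = 1 := by ring
            rw [this, Real.rpow_one]
    have h4 : (D:ℝ) ≤ C₃ * (N / Real.log N ^ U) := by
      calc (D:ℝ) ≤ (N:ℝ) ^ δ₀ := hDle
        _ = (N:ℝ) ^ δ₀ * Real.log N ^ U / Real.log N ^ U := by field_simp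
        _ ≤ (N:ℝ) ^ δ₀ * (C₃ * (N:ℝ) ^ (1 - δ₀)) / Real.log N ^ U := by
            have := hl₃ N hN1
            gcongr
        _ = C₃ * (((N:ℝ) ^ δ₀ * (N:ℝ) ^ (1 - δ₀)) / Real.log N ^ U) := by ring
        _ = _ := by
            rw [← Real.rpow_add hN0]
            have : δ₀ + (1 - δ₀) = 1 := by ring
            rw [this, Real.rpow_one]
    calc ∑ d ∈ Icc 1 D, |Er y d (a d)| ≤ _ := h1
      _ ≤ 4 * 2 ^ 2 ^ k * C₂ * (N / Real.log N ^ U) + C₃ * (N / Real.log N ^ U) :=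
          add_le_add h3 h4
      _ = (4 * 2 ^ 2 ^ k * C₂ + C₃) * (N / Real.log N ^ U) := by ring
      _ ≤ _ := mul_le_mul_of_nonneg_right (by
          have : 0 ≤ C₁ / δ₂ ^ U := by positivity
          linarith) hXU.le

end Pool.Agent.H442R2.KF
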