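import Pool.Agent.H442R2.KF.Dual

/-! Task UC of the KF project (helper726): duality, primes up to `y` (adapted from helper332's
`Dual.lean`). -/

set_option autoImplicit false

namespace Pool.Agent.H442R2.KF

open Finset

open TaskR1

/-- UC (DualY.lean): duality, primes up to `y ≤ N` -/
theorem dualY (N y : ℕ) (hN : 1 ≤ N) (hy : y ≤ N) (A : Finset ℕ) (r : ℕ → ℤ → ℝ)
    (hs : ∀ a ∈ A, ∀ a' ∈ A, Summable (fun n : ℤ => Wt N n * (r a n * r a' n)))
    (G O : ℝ) (hG : ∀ a ∈ A, ∑' n : ℤ, Wt N n * (r a n * r a n) ≤ G) (hO0 : 0 ≤ O)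
    (hO : ∀ a ∈ A, ∀ a' ∈ A, a ≠ a' → ∑' n : ℤ, Wt N n * (r a n * r a' n) ≤ O) :
    (∑ a ∈ A, ∑ p ∈ (Icc 1 y).filter Nat.Prime, r a p) ^ 2 ≤
      25 * N * ((A.card : ℝ) * G + (A.card : ℝ) ^ 2 * O) := by
  classical
  set S := (Icc 1 y).filter Nat.Prime with hS
  have hcard : (S.card : ℝ) ≤ N := by
    have h1 : S.card ≤ (Icc 1 y).card := card_filter_le _ _
    rw [Nat.card_Icc] at h1
    exact_mod_cast (by omega : S.card ≤ N)
  set F : ℤ → ℝ := fun n => ∑ a ∈ A, r a n with hF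
  have hswap : ∑ a ∈ A, ∑ p ∈ S, r a p = ∑ p ∈ S, F p := by
    rw [sum_comm]
  have hexp : ∀ n : ℤ, Wt N n * F n ^ 2 = ∑ a ∈ A, ∑ a' ∈ A, Wt N n * (r a n * r a' n) := by
    intro n
    rw [hF, sq, sum_mul_sum, mul_sum]
    refine sum_congr rfl fun a _ => ?_
    rw [mul_sum]
  have hsumm : Summable (fun n : ℤ => Wt N n * F n ^ 2) := by
    have : (fun n : ℤ => Wt N n * F n ^ 2) =
        fun n => ∑ a ∈ A, ∑ a' ∈ A, Wt N n * (r a n * r a' n) := funext hexp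
    rw [this]
    exact summable_sum fun a ha => summable_sum fun a' ha' => hs a ha a' ha'
  have htsum : ∑' n : ℤ, Wt N n * F n ^ 2 =
      ∑ a ∈ A, ∑ a' ∈ A, ∑' n : ℤ, Wt N n * (r a n * r a' n) := by
    rw [tsum_congr hexp, Summable.tsum_finsetSum
      (fun a ha => summable_sum fun a' ha' => hs a ha a' ha')]
    refine sum_congr rfl fun a ha => ?_
    rw [Summable.tsum_finsetSum (fun a' ha' => hs a ha a' ha')]
  have hbound : ∑' n : ℤ, Wt N n * F n ^ 2 ≤ (A.card : ℝ) * G + (A.card : ℝ) ^ 2 * O := by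
    rw [htsum]
    calc ∑ a ∈ A, ∑ a' ∈ A, ∑' n : ℤ, Wt N n * (r a n * r a' n)
        ≤ ∑ a ∈ A, ∑ a' ∈ A, ((if a = a' then G else 0) + O) := by
          refine sum_le_sum fun a ha => sum_le_sum fun a' ha' => ?_
          by_cases h : a = a'
          · subst h
            rw [if_pos rfl]
            linarith [hG a ha]
          · rw [if_neg h]
            linarith [hO a ha a' ha' h]
      _ = (A.card : ℝ) * G + (A.card : ℝ) ^ 2 * O := by
          have h1 : ∀ a ∈ A, ∑ a' ∈ A, ((if a = a' then G else 0) + O) = G + A.card * O := by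
            intro a ha
            rw [sum_add_distrib, sum_ite_eq, if_pos ha, sum_const, nsmul_eq_mul]
          rw [sum_congr rfl h1, sum_const, nsmul_eq_mul]
          ring
  have hfin : ∑ p ∈ S, Wt N (p : ℤ) * F p ^ 2 ≤ ∑' n : ℤ, Wt N n * F n ^ 2 := by
    have h1 : ∑ p ∈ S, Wt N (p : ℤ) * F p ^ 2 =
        ∑ n ∈ S.map ⟨fun p : ℕ => (p : ℤ), Nat.cast_injective⟩, Wt N n * F n ^ 2 := by
      rw [sum_map]; rfl
    rw [h1]
    exact hsumm.sum_le_tsum _ fun n _ => mul_nonneg (Wt_nonneg N n) (sq_nonneg _)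
  have hsq : ∑ p ∈ S, F p ^ 2 ≤ 25 * ∑ p ∈ S, Wt N (p : ℤ) * F p ^ 2 := by
    rw [mul_sum]
    refine sum_le_sum fun p hp => ?_
    have hpN : p ≤ N := (mem_Icc.1 (mem_filter.1 hp).1).2.trans hy
    have := one_le_Wt N hN p hpN
    nlinarith [sq_nonneg (F p)]
  have hN0 : (0 : ℝ) ≤ N := Nat.cast_nonneg _
  rw [hswap]
  calc (∑ p ∈ S, F p) ^ 2 ≤ S.card * ∑ p ∈ S, F p ^ 2 := sq_sum_le_card_mul_sum_sq
    _ ≤ N * ∑ p ∈ S, F p ^ 2 := by
        have : 0 ≤ ∑ p ∈ S, F (p : ℤ) ^ 2 := sum_nonneg fun p _ => sq_nonneg _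
        gcongr
    _ ≤ N * (25 * ((A.card : ℝ) * G + (A.card : ℝ) ^ 2 * O)) := by
        gcongr
        linarith
    _ = 25 * N * ((A.card : ℝ) * G + (A.card : ℝ) ^ 2 * O) := by ring

end Pool.Agent.H442R2.KF
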