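import Pool.Agent.H442R2.KF.Pri
import Pool.Agent.H442R2.KF.BvY

/-!
KF project, task UB (helper726): the prime side, primes up to `y ≤ N` (adapted from helper539's
`Pri.lean`).
-/

namespace Pool.Agent.H442R2.KF

open Finset

open TaskQ in
/-- UB (PriY.lean): the prime side, primes up to `y ≤ N` -/
theorem prime_sideY_of
    (hbv : ∀ (δ : ℝ), δ < 1 / 2 → ∀ (U : ℕ), ∃ C : ℝ, 0 < C ∧ ∀ N : ℕ, 3 ≤ N →
      ∀ y : ℕ, y ≤ N → ∀ a : ℕ → ℕ, (∀ d, 1 ≤ d → Nat.Coprime (a d) d) →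
      ∑ d ∈ Icc 1 ⌊(N : ℝ) ^ δ⌋₊, |Er y d (a d)| ≤ C * (N / Real.log N ^ U))
    (U : ℕ) : ∃ C : ℝ, 0 < C ∧ ∀ (N D : ℕ), 3 ≤ N → QN N ≤ D →
    (D : ℝ) ≤ (N : ℝ) ^ (3 / 4 : ℝ) → ∀ y : ℕ, y ≤ N → ∀ a : ℕ, 1 ≤ a → a ≤ N →
    ∀ c : ℕ → ℝ, Cof D c → (∀ d, ¬ Nat.Coprime a d → c d = 0) →
    |(∑ p ∈ (Icc 1 y).filter Nat.Prime, rr (uu c (2 * D) (QN N)) (2 * D) a p) -
      ∑ d ∈ Ioc D (2 * D), c d * Er y d a| ≤ C * (N / Real.log N ^ U) := by
  obtain ⟨C1, hC1, h1⟩ := tail_bound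
  obtain ⟨C2, hC2, h2⟩ := log_pow U
  obtain ⟨C3, hC3, h3⟩ := hbv (1 / 100) (by norm_num) (U + 1)
  refine ⟨806 * C2 + 4 * C3 + 2 * C1 * C2, by positivity, ?_⟩
  intro N D hN hQD hD y hy a ha haN c hc hca
  obtain ⟨q1, q2, q3⟩ := TaskO.QN_facts N (by omega)
  set Q := QN N with hQ
  have hN3 : (3 : ℝ) ≤ N := by exact_mod_cast hN
  have hN1 : (1 : ℝ) ≤ N := by linarith
  have hN0 : (0 : ℝ) < N := by linarith
  have hl1 : 1 ≤ Real.log N := by
    rw [Real.le_log_iff_exp_le hN0]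
    have := Real.exp_one_lt_d9
    linarith
  have hQ0 : (0 : ℝ) < Q := by
    have : 0 < Q := by omega
    exact_mod_cast this
  obtain ⟨bw, bu⟩ := TaskO.uu_bounds N D (by omega) c hc fun d => abs_ww_le c D Q d hc q1
  have hL0 : 0 ≤ TaskO.LL N := (abs_nonneg _).trans (bu 0)
  set u := uu c (2 * D) Q with hu
  -- (1) from rr to rho
  have s1 : |(∑ p ∈ (Icc 1 y).filter Nat.Prime, rr u (2 * D) a p) -
      ∑ p ∈ (Icc 1 y).filter Nat.Prime, rho u (2 * D) a p| ≤ 806 * C2 * (N / Real.log N ^ U) := by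
    have e1 : (∑ p ∈ (Icc 1 y).filter Nat.Prime, rr u (2 * D) a p) -
        ∑ p ∈ (Icc 1 y).filter Nat.Prime, rho u (2 * D) a p =
        ∑ p ∈ (Icc 1 y).filter Nat.Prime, if p = a then - rho u (2 * D) a a else 0 := by
      rw [← sum_sub_distrib]
      refine sum_congr rfl fun p _ => ?_
      unfold rr
      by_cases hp : p = a
      · subst hp; simp
      · have : (p : ℤ) ≠ a := by exact_mod_cast hp
        simp [hp, this]
    rw [e1, sum_ite_eq']
    have e2 : |rho u (2 * D) a a| ≤ 806 * C2 * (N / Real.log N ^ U) := by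
      refine (TaskO.abs_rho_le u (2 * D) a a _ hL0 bu).trans ?_
      push_cast
      calc 2 * (D : ℝ) * TaskO.LL N ≤ 2 * (N : ℝ) ^ (3 / 4 : ℝ) * (403 * (N : ℝ) ^ (1 / 200 : ℝ)) := by
            unfold TaskO.LL
            refine mul_le_mul_of_nonneg_right (by linarith) (by positivity)
        _ = 806 * (N : ℝ) ^ (3 / 4 + 1 / 200 : ℝ) := by
            rw [Real.rpow_add hN0]; ring
        _ ≤ 806 * (N : ℝ) ^ (1 - 1 / 400 : ℝ) := by
            refine mul_le_mul_of_nonneg_left ?_ (by norm_num)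
            exact Real.rpow_le_rpow_of_exponent_le hN1 (by norm_num)
        _ ≤ 806 * (C2 * (N / Real.log N ^ U)) :=
            mul_le_mul_of_nonneg_left (h2 N hN) (by norm_num)
        _ = _ := by ring
    split_ifs
    · rw [abs_neg]; exact e2
    · rw [abs_zero]; positivity
  -- (2) the sum over the moduli
  have s2 : ∑ p ∈ (Icc 1 y).filter Nat.Prime, rho u (2 * D) a p =
      ∑ d ∈ Ioc D (2 * D), c d * Er y d a - ∑ d ∈ Icc 1 (2 * D), ww c (2 * D) Q d * Er y d a +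
        piN y * ∑ d ∈ Icc 1 (2 * D), u d / Nat.totient d := by
    rw [sum_primes, mul_sum]
    have e1 : ∑ d ∈ Ioc D (2 * D), c d * Er y d a = ∑ d ∈ Icc 1 (2 * D), c d * Er y d a := by
      refine sum_subset ?_ ?_
      · intro d hd
        rw [mem_Ioc] at hd
        rw [mem_Icc]
        omega
      · intro d _ hd
        rw [hc.supp d hd, zero_mul]
    rw [e1, ← sum_sub_distrib, ← sum_add_distrib]
    refine sum_congr rfl fun d _ => ?_
    rw [hu]
    unfold uu Er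
    ring
  -- (3) the small moduli
  have s3 : |∑ d ∈ Icc 1 (2 * D), ww c (2 * D) Q d * Er y d a| ≤
      4 * C3 * (N / Real.log N ^ U) := by
    set b : ℕ → ℕ := fun d => if Nat.Coprime a d then a else 1 with hb
    have hb1 : ∀ d, 1 ≤ d → Nat.Coprime (b d) d := by
      intro d _
      simp only [hb]
      split_ifs with h
      · exact h
      · exact Nat.coprime_one_left d
    have h4 := h3 N hN y hy b hb1
    have hlogQ : Real.log Q ≤ Real.log N := by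
      apply Real.log_le_log hQ0
      refine q2.trans ?_
      calc (N : ℝ) ^ (1 / 100 : ℝ) ≤ (N : ℝ) ^ (1 : ℝ) :=
            Real.rpow_le_rpow_of_exponent_le hN1 (by norm_num)
        _ = N := Real.rpow_one _
    have h5 : ∀ d ∈ Icc 1 (2 * D), |ww c (2 * D) Q d * Er y d a| ≤
        if d ≤ Q then 4 * Real.log N * |Er y d (b d)| else 0 := by
      intro d _
      by_cases hdQ : d ≤ Q
      · rw [if_pos hdQ]
        by_cases hcop : Nat.Coprime a d
        · have : b d = a := by simp only [hb]; rw [if_pos hcop]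
          rw [this, abs_mul]
          refine mul_le_mul_of_nonneg_right ?_ (abs_nonneg _)
          have := abs_ww_le c D Q d hc q1
          linarith
        · rw [ww_coprime c (2 * D) Q a d hca hcop, zero_mul, abs_zero]
          positivity
      · rw [if_neg hdQ, ww_zero c (2 * D) Q d (by omega), zero_mul, abs_zero]
    refine (abs_sum_le_sum_abs _ _).trans ((sum_le_sum h5).trans ?_)
    rw [← sum_filter, ← mul_sum]
    have h6 : ∑ d ∈ (Icc 1 (2 * D)).filter (fun d => d ≤ Q), |Er y d (b d)| ≤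
        ∑ d ∈ Icc 1 ⌊(N : ℝ) ^ (1 / 100 : ℝ)⌋₊, |Er y d (b d)| := by
      refine sum_le_sum_of_subset_of_nonneg ?_ fun _ _ _ => abs_nonneg _
      intro d hd
      rw [mem_filter, mem_Icc] at hd
      rw [mem_Icc]
      exact ⟨hd.1.1, hd.2⟩
    calc 4 * Real.log N * ∑ d ∈ (Icc 1 (2 * D)).filter (fun d => d ≤ Q), |Er y d (b d)|
        ≤ 4 * Real.log N * (C3 * (N / Real.log N ^ (U + 1))) :=
          mul_le_mul_of_nonneg_left (h6.trans h4) (by positivity)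
      _ = 4 * C3 * (N / Real.log N ^ U) := by
          rw [pow_succ]
          field_simp
  -- (4) the main terms
  have s4 : |(piN y : ℝ) * ∑ d ∈ Icc 1 (2 * D), u d / Nat.totient d| ≤
      2 * C1 * C2 * (N / Real.log N ^ U) := by
    rw [abs_mul, abs_of_nonneg (by positivity : (0 : ℝ) ≤ (piN y : ℝ))]
    have g1 : (piN y : ℝ) ≤ N := by
      unfold piN
      have := card_filter_le (Icc 1 y) (fun p : ℕ => p.Prime)
      rw [Nat.card_Icc, Nat.add_sub_cancel] at this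
      exact_mod_cast this.trans hy
    have g2 := h1 c D Q hc q1 hQD
    have g3 : C1 / (Q : ℝ) ^ (1 / 2 : ℝ) ≤ 2 * C1 * (N : ℝ) ^ (-(1 / 200) : ℝ) := by
      rw [div_le_iff₀ (Real.rpow_pos_of_pos hQ0 _)]
      have g4 : (N : ℝ) ^ (1 / 200 : ℝ) ≤ 2 * (Q : ℝ) ^ (1 / 2 : ℝ) := by
        calc (N : ℝ) ^ (1 / 200 : ℝ) = ((N : ℝ) ^ (1 / 100 : ℝ)) ^ (1 / 2 : ℝ) := by
              rw [← Real.rpow_mul hN0.le]; norm_num
          _ ≤ (2 * Q : ℝ) ^ (1 / 2 : ℝ) := Real.rpow_le_rpow (by positivity) q3 (by norm_num)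
          _ = (2 : ℝ) ^ (1 / 2 : ℝ) * (Q : ℝ) ^ (1 / 2 : ℝ) :=
              Real.mul_rpow (by norm_num) hQ0.le
          _ ≤ 2 * (Q : ℝ) ^ (1 / 2 : ℝ) := by
              refine mul_le_mul_of_nonneg_right ?_ (by positivity)
              calc (2 : ℝ) ^ (1 / 2 : ℝ) ≤ (2 : ℝ) ^ (1 : ℝ) :=
                    Real.rpow_le_rpow_of_exponent_le (by norm_num) (by norm_num)
                _ = 2 := Real.rpow_one _
      have g5 : (N : ℝ) ^ (-(1 / 200) : ℝ) * (N : ℝ) ^ (1 / 200 : ℝ) = 1 := by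
        rw [← Real.rpow_add hN0]; norm_num
      calc C1 = C1 * ((N : ℝ) ^ (-(1 / 200) : ℝ) * (N : ℝ) ^ (1 / 200 : ℝ)) := by
            rw [g5, mul_one]
        _ ≤ C1 * ((N : ℝ) ^ (-(1 / 200) : ℝ) * (2 * (Q : ℝ) ^ (1 / 2 : ℝ))) := by
            refine mul_le_mul_of_nonneg_left ?_ hC1.le
            exact mul_le_mul_of_nonneg_left g4 (by positivity)
        _ = _ := by ring
    calc (piN y : ℝ) * |∑ d ∈ Icc 1 (2 * D), u d / Nat.totient d|
        ≤ N * (2 * C1 * (N : ℝ) ^ (-(1 / 200) : ℝ)) :=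
          mul_le_mul g1 (g2.trans g3) (abs_nonneg _) hN0.le
      _ = 2 * C1 * (N : ℝ) ^ (1 - 1 / 200 : ℝ) := by
          have : (N : ℝ) ^ (1 - 1 / 200 : ℝ) = N * (N : ℝ) ^ (-(1 / 200) : ℝ) := by
            rw [sub_eq_add_neg, Real.rpow_add hN0, Real.rpow_one]
          rw [this]; ring
      _ ≤ 2 * C1 * (N : ℝ) ^ (1 - 1 / 400 : ℝ) := by
          refine mul_le_mul_of_nonneg_left ?_ (by positivity)
          exact Real.rpow_le_rpow_of_exponent_le hN1 (by norm_num)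
      _ ≤ 2 * C1 * (C2 * (N / Real.log N ^ U)) :=
          mul_le_mul_of_nonneg_left (h2 N hN) (by positivity)
      _ = _ := by ring
  have e5 : (∑ p ∈ (Icc 1 y).filter Nat.Prime, rr u (2 * D) a p) -
      ∑ d ∈ Ioc D (2 * D), c d * Er y d a =
      ((∑ p ∈ (Icc 1 y).filter Nat.Prime, rr u (2 * D) a p) -
        ∑ p ∈ (Icc 1 y).filter Nat.Prime, rho u (2 * D) a p) +
      (- (∑ d ∈ Icc 1 (2 * D), ww c (2 * D) Q d * Er y d a) +
        piN y * ∑ d ∈ Icc 1 (2 * D), u d / Nat.totient d) := by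
    rw [s2]; ring
  rw [e5]
  refine (abs_add_le _ _).trans ((add_le_add le_rfl (abs_add_le _ _)).trans ?_)
  rw [abs_neg]
  have : (806 * C2 + 4 * C3 + 2 * C1 * C2) * (N / Real.log N ^ U) =
      806 * C2 * (N / Real.log N ^ U) + (4 * C3 * (N / Real.log N ^ U) +
        2 * C1 * C2 * (N / Real.log N ^ U)) := by ring
  rw [this]
  linarith

/-- UB (PriY.lean): the prime side, primes up to `y ≤ N` -/
theorem prime_sideY (U : ℕ) : ∃ C : ℝ, 0 < C ∧ ∀ (N D : ℕ), 3 ≤ N → QN N ≤ D →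
    (D : ℝ) ≤ (N : ℝ) ^ (3 / 4 : ℝ) → ∀ y : ℕ, y ≤ N → ∀ a : ℕ, 1 ≤ a → a ≤ N →
    ∀ c : ℕ → ℝ, Cof D c → (∀ d, ¬ Nat.Coprime a d → c d = 0) →
    |(∑ p ∈ (Icc 1 y).filter Nat.Prime, rr (uu c (2 * D) (QN N)) (2 * D) a p) -
      ∑ d ∈ Ioc D (2 * D), c d * Er y d a| ≤ C * (N / Real.log N ^ U) :=
  prime_sideY_of bvY U

end Pool.Agent.H442R2.KF
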