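import Pool.Agent.H442R2.KF.Lip2
import Pool.Agent.H442R2.KF.Phase2
import Pool.Agent.H442R2.KF.Fix2
import Pool.Agent.H442R2.KF.SumV2
import Pool.Agent.H442R2.KF.Bz2
import Pool.Agent.H442R2.KF.Gw
import Pool.Agent.H442R2.KF.HS2
import Pool.Agent.H442R2.KF.Cls

/-!
KF project, part 2: the Hilbert-Schmidt bound `HS2`, unconditionally.
-/

set_option autoImplicit false

namespace Pool.Agent.H442R2.KF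

theorem fixed2_prop : TaskTI.Fixed2 := fun M L J hM hLM hJL V hV ψ hψ k hk P P' hP hP' hG m₂ hm₂ =>
  fixed2_of
    (fun M L J hM hJL ψ k P P' hP hP' hG m₂ hm₂ =>
      phase_pair2 M L J hM hJL ψ k P P' hP hP' hG m₂ hm₂)
    (fun q R hq hq0 hR hqR c hc A B hAB Φ hΦp hΦ K hK Ω Λ hΛ hΩ hL =>
      class_sum q R hq hq0 hR hqR c hc A B hAB Φ hΦp hΦ K hK Ω Λ hΛ hΩ hL)
    (fun M hM V ψ hψ k P m₂ hm₂ s hs hn => Om2_norm M hM V ψ hψ k P m₂ hm₂ s hs hn)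
    (fun M L J hM hL V hV ψ hψ k hk P hP m₂ hm₂ s s' hs hs' hn hn' =>
      Om2_lip M L J hM hL V hV ψ hψ k hk P hP m₂ hm₂ s s' hs hs' hn hn')
    M L J hM hLM hJL V hV ψ hψ k hk P P' hP hP' hG m₂ hm₂

open Finset in
/-- TI: Hilbert-Schmidt bound of the kernel -/
theorem HS2 (ε : ℝ) (hε : 0 < ε) : ∃ C : ℝ, 0 < C ∧ ∀ (M L J : ℕ), 1 ≤ M → 1 ≤ L → L ≤ M →
    1 ≤ J → J ≤ L → ∀ V : ℝ, 1 ≤ V → ∀ ψ : ℕ → ℝ → ℂ, (∀ j, Wei M V (ψ j)) →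
    ∀ k : ℤ, k ≠ 0 → |(k : ℝ)| * J ≤ V * (M : ℝ) ^ 2 →
    ∑ m₁ ∈ Ioc M (2 * M + 1), ∑ m₂ ∈ Ioc M (2 * M + 1), ‖Ker2 ψ k M L J m₁ m₂‖ ^ 2 ≤
      C * (M : ℝ) ^ ε * (((PL L).card : ℝ) ^ 2 * (J : ℝ) ^ 2 * (M : ℝ) ^ 2 +
        V ^ 2 * (L : ℝ) ^ 7 * (J : ℝ) ^ 4 * (M : ℝ) ^ (3 / 2 : ℝ)) :=
  HS2_of fixed2_prop sum_vp2 sum_vp3 jl_ne_zero Bq2_zero_count gw ε hε

end Pool.Agent.H442R2.KF
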