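import Pool.Agent.H442R2.KF.Tri
import Pool.Agent.H442R2.KF.Err2
import Pool.Agent.H442R2.KF.Big2
import Pool.Agent.H442R2.KF.Corr2
import Pool.Agent.H442R2.KF.Block2
import Pool.Agent.H442R2.KF.Fin2
import Pool.Agent.H442R2.KF.Pri
import Pool.Agent.H442R2.KF.Dual
import Pool.Agent.H442R2.KF.Diag
import Pool.Agent.H442R2.KF.Summ
import Pool.Agent.H442R2.KF.Bv
import Pool.Agent.H442R2.KF.Small
import Pool.Agent.H442R2.KF.Crt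
import Pool.Agent.H442R2.KF.Hat

/-!
KF project, part 2: final assembly at level `14/27`.
-/

set_option autoImplicit false

namespace Pool.Agent.H442R2.KF

open Finset

/-- TM3: pairs of large moduli, level `14/27` -/
theorem big_pairs2 (θ : ℝ) (hθ : θ < 14 / 27) : ∃ (η C : ℝ), 0 < η ∧ 0 < C ∧
    ∀ (N D : ℕ), 2 ≤ N → (D : ℝ) ≤ (N : ℝ) ^ θ →
    ∀ (a a' : ℤ), 0 ≤ a → a ≤ N → 0 ≤ a' → a' ≤ N → a ≠ a' →
    ∀ c c' : ℕ → ℝ, (∀ d, |c d| ≤ 1) → (∀ d, |c' d| ≤ 1) →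
    |∑ d ∈ Ioc D (2 * D), ∑ d' ∈ Ioc D (2 * D), c d * c' d' *
      (SS N a a' d d' - N * Fh (a' - a) (Nat.gcd d d') / (d * d'))| ≤ C * (N : ℝ) ^ (1 - η) :=
  big_pairs2_of (fun θ hθ => err2_of tri θ hθ) θ hθ

theorem corr2 (θ : ℝ) (hθ : θ < 14 / 27) : ∃ (η C : ℝ), 0 < η ∧ 0 < C ∧
    ∀ (N D : ℕ), 2 ≤ N → QN N ≤ D → (D : ℝ) ≤ (N : ℝ) ^ θ →
    ∀ (a a' : ℤ), 0 ≤ a → a ≤ N → 0 ≤ a' → a' ≤ N → a ≠ a' →
    ∀ c c' : ℕ → ℝ, Cof D c → Cof D c' →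
    |∑' n : ℤ, Wt N n * (rr (uu c (2 * D) (QN N)) (2 * D) a n *
      rr (uu c' (2 * D) (QN N)) (2 * D) a' n)| ≤ C * (N : ℝ) ^ (1 - η) :=
  corr2_of (fun θ hθ => big_pairs2 θ hθ) (small_pairs_of SS_not_dvd SS_eval) θ hθ

theorem block2 (θ : ℝ) (hθ : θ < 14 / 27) (U : ℝ) : ∃ (C : ℝ), 0 < C ∧
    ∀ (N D : ℕ), 3 ≤ N → QN N ≤ D → (D : ℝ) ≤ (N : ℝ) ^ θ → ∀ T : Finset ℕ, T ⊆ Ioc D (2 * D) →
    (((Icc 1 N).filter (fun a : ℕ => (N : ℝ) / Real.log N ^ U <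
      ∑ d ∈ T.filter (fun d => Nat.Coprime a d), |Er N d a|)).card : ℝ) ≤
      C * Real.log N ^ (2 * U + 5) :=
  block2_of abs_ww_le corr2 summable_rr diag prime_side dual θ hθ U

theorem final2 (θ : ℝ) (hθ : θ < 14 / 27) (U : ℝ) (hU : 0 < U) : ∃ (C : ℝ), 0 < C ∧
    ∀ (N : ℕ), 3 ≤ N →
    (((Icc 1 N).filter (fun a : ℕ => (N : ℝ) / Real.log N ^ U <
      ∑ d ∈ (Icc 1 ⌊(N : ℝ) ^ θ⌋₊).filter (fun d => Nat.Coprime a d), |Er N d a|)).card : ℝ) ≤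
      C * Real.log N ^ (2 * U + 8) :=
  final2_of block2 bv θ hθ U hU

end Pool.Agent.H442R2.KF
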