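import Pool.Agent.H442R2.KF.AsmB
import Pool.Agent.H442R2.KF.BlockY
import Pool.Agent.H442R2.KF.FinY
import Pool.Agent.H442R2.KF.PriY
import Pool.Agent.H442R2.KF.DualY
import Pool.Agent.H442R2.KF.BvY
import Pool.Agent.H442R2.KF.Weighted

/-!
KF project, part 3: assembly with primes up to `y ≤ N`, divisor weights and the maximum over `y`.
-/

set_option autoImplicit false

namespace Pool.Agent.H442R2.KF

open Finset

theorem blockY (θ : ℝ) (hθ : θ < 14 / 27) (U : ℝ) : ∃ (C : ℝ), 0 < C ∧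
    ∀ (N D : ℕ), 3 ≤ N → QN N ≤ D → (D : ℝ) ≤ (N : ℝ) ^ θ → ∀ y : ℕ, y ≤ N →
    ∀ T : Finset ℕ, T ⊆ Ioc D (2 * D) →
    (((Icc 1 N).filter (fun a : ℕ => (N : ℝ) / Real.log N ^ U <
      ∑ d ∈ T.filter (fun d => Nat.Coprime a d), |Er y d a|)).card : ℝ) ≤
      C * Real.log N ^ (2 * U + 5) :=
  blockY_of abs_ww_le corr2 summable_rr diag prime_sideY dualY θ hθ U

theorem finalY (θ : ℝ) (hθ : θ < 14 / 27) (U : ℝ) (hU : 0 < U) : ∃ (C : ℝ), 0 < C ∧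
    ∀ (N : ℕ), 3 ≤ N → ∀ y : ℕ, y ≤ N →
    (((Icc 1 N).filter (fun a : ℕ => (N : ℝ) / Real.log N ^ U <
      ∑ d ∈ (Icc 1 ⌊(N : ℝ) ^ θ⌋₊).filter (fun d => Nat.Coprime a d), |Er y d a|)).card : ℝ) ≤
      C * Real.log N ^ (2 * U + 8) :=
  finalY_of θ (by linarith) bvY (fun U => blockY θ hθ U) U hU

theorem weighted (κ : ℝ) (hκ : 1 ≤ κ) (θ : ℝ) (hθ : θ < 14 / 27) (U : ℕ) :
    ∃ (B : ℕ) (C : ℝ), 0 < C ∧ ∀ N : ℕ, 3 ≤ N →
    (((Icc 1 N).filter (fun a : ℕ => (N : ℝ) / Real.log N ^ U <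
      ∑ d ∈ (Icc 1 ⌊(N : ℝ) ^ θ⌋₊).filter (fun d => Nat.Coprime a d),
        κ ^ d.primeFactors.card * Pool.Agent.H300R2.WEH.errMax N d a)).card : ℝ) ≤ C * Real.log N ^ B :=
  weighted_of (fun θ hθ U hU => finalY θ hθ U hU) κ hκ θ hθ U

end Pool.Agent.H442R2.KF
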