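import Pool.Agent.H442R2.KF.BigOf
import Pool.Agent.H442R2.KF.Crt
import Pool.Agent.H442R2.KF.Err

/-!
KF project, task M3: pairs of large moduli, from the bound of the bilinear form.
-/

namespace Pool.Agent.H442R2.KF

open Finset

/-- M3, from the statement of K -/
theorem big_pairs_of_dfi (hdfi : TaskM2.DFI) (θ : ℝ) (hθ : θ < 24 / 47) :
    ∃ (η C : ℝ), 0 < η ∧ 0 < C ∧
    ∀ (N D : ℕ), 2 ≤ N → (D : ℝ) ≤ (N : ℝ) ^ θ →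
    ∀ (a a' : ℤ), 0 ≤ a → a ≤ N → 0 ≤ a' → a' ≤ N → a ≠ a' →
    ∀ c c' : ℕ → ℝ, (∀ d, |c d| ≤ 1) → (∀ d, |c' d| ≤ 1) →
    |∑ d ∈ Ioc D (2 * D), ∑ d' ∈ Ioc D (2 * D), c d * c' d' *
      (SS N a a' d d' - N * Fh (a' - a) (Nat.gcd d d') / (d * d'))| ≤ C * (N : ℝ) ^ (1 - η) :=
  big_pairs_of SS_not_dvd SS_eval (fun ε hε => err_gj_of hdfi ε hε) θ hθ

end Pool.Agent.H442R2.KF
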