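import Pool.Agent.H442R2.KF.Defs

/-!
KF project, task R2: one dyadic block.
-/

namespace Pool.Agent.H442R2.KF

open Finset

namespace TaskR2

/-- the signs -/
noncomputable def cs (T : Finset ℕ) (N a d : ℕ) : ℝ :=
  if d ∈ T ∧ Nat.Coprime a d then Real.sign (Er N d a) else 0

lemma abs_sign_le (x : ℝ) : |Real.sign x| ≤ 1 := by
  rcases Real.sign_apply_eq x with h | h | h <;> rw [h] <;> norm_num

lemma sign_mul (x : ℝ) : Real.sign x * x = |x| := by
  rcases lt_trichotomy x 0 with h | h | h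
  · rw [Real.sign_of_neg h, abs_of_neg h]; ring
  · rw [h]; simp
  · rw [Real.sign_of_pos h, abs_of_pos h]; ring

lemma cof_cs (T : Finset ℕ) (N D a : ℕ) (hT : T ⊆ Ioc D (2 * D)) : Cof D (cs T N a) := by
  constructor
  · intro d
    unfold cs
    split_ifs
    · exact abs_sign_le _
    · simp
  · intro d hd
    unfold cs
    rw [if_neg]
    rintro ⟨h, -⟩
    exact hd (hT h)

lemma cs_zero (T : Finset ℕ) (N a d : ℕ) (h : ¬ Nat.Coprime a d) : cs T N a d = 0 := by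
  unfold cs
  rw [if_neg]
  rintro ⟨-, h'⟩
  exact h h'

lemma cs_sum (T : Finset ℕ) (N D a : ℕ) (hT : T ⊆ Ioc D (2 * D)) :
    ∑ d ∈ Ioc D (2 * D), cs T N a d * Er N d a =
      ∑ d ∈ T.filter (fun d => Nat.Coprime a d), |Er N d a| := by
  have h1 : T.filter (fun d => Nat.Coprime a d) ⊆ Ioc D (2 * D) :=
    (filter_subset _ _).trans hT
  rw [← Finset.sum_subset h1]
  · apply Finset.sum_congr rfl
    intro d hd
    rw [mem_filter] at hd
    unfold cs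
    rw [if_pos hd, sign_mul]
  · intro d _ hd
    unfold cs
    rw [if_neg, zero_mul]
    intro h
    exact hd (mem_filter.mpr h)

lemma one_le_log {N : ℕ} (hN : 3 ≤ N) : 1 ≤ Real.log N := by
  have h3 : (3 : ℝ) ≤ N := by exact_mod_cast hN
  rw [Real.le_log_iff_exp_le (by linarith)]
  have := Real.exp_one_lt_d9
  linarith

lemma one_le_QN {N : ℕ} (hN : 1 ≤ N) : 1 ≤ QN N := by
  unfold QN
  rw [Nat.one_le_floor_iff]
  exact Real.one_le_rpow (by exact_mod_cast hN) (by norm_num)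

lemma log_QN_le {N : ℕ} (hN : 1 ≤ N) : Real.log (QN N) ≤ Real.log N := by
  have h1 := one_le_QN hN
  have hN' : (1 : ℝ) ≤ N := by exact_mod_cast hN
  apply Real.log_le_log
  · exact_mod_cast h1
  · have h2 : (QN N : ℝ) ≤ (N : ℝ) ^ (1 / 100 : ℝ) := Nat.floor_le (by positivity)
    have h3 : (N : ℝ) ^ (1 / 100 : ℝ) ≤ (N : ℝ) ^ (1 : ℝ) :=
      Real.rpow_le_rpow_of_exponent_le hN' (by norm_num)
    rw [Real.rpow_one] at h3
    exact h2.trans h3

end TaskR2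

open TaskR2 in
/-- R2 (Block.lean): one dyadic block, from the statements of the other tasks -/
theorem block_of
    (h_ww : ∀ (c : ℕ → ℝ) (D Q d : ℕ) (hc : Cof D c) (hQ : 1 ≤ Q),
      |ww c (2 * D) Q d| ≤ 2 * (1 + Real.log Q))
    (h_corr : ∀ (θ : ℝ) (hθ : θ < 24 / 47), ∃ (η C : ℝ), 0 < η ∧ 0 < C ∧
      ∀ (N D : ℕ), 2 ≤ N → QN N ≤ D → (D : ℝ) ≤ (N : ℝ) ^ θ →
      ∀ (a a' : ℤ), 0 ≤ a → a ≤ N → 0 ≤ a' → a' ≤ N → a ≠ a' →
      ∀ c c' : ℕ → ℝ, Cof D c → Cof D c' →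
      |∑' n : ℤ, Wt N n * (rr (uu c (2 * D) (QN N)) (2 * D) a n *
        rr (uu c' (2 * D) (QN N)) (2 * D) a' n)| ≤ C * (N : ℝ) ^ (1 - η))
    (h_summ : ∀ (N X : ℕ) (hN : 1 ≤ N) (u u' : ℕ → ℝ) (a a' : ℤ),
      Summable (fun n : ℤ => Wt N n * (rr u X a n * rr u' X a' n)))
    (h_diag : ∃ C : ℝ, 0 < C ∧ ∀ (N X : ℕ), 3 ≤ N → ∀ (a : ℤ), 0 ≤ a → a ≤ N →
      ∀ (u : ℕ → ℝ) (K : ℝ), (∀ d, |u d| ≤ K) →
      ∑' n : ℤ, Wt N n * (rr u X a n * rr u X a n) ≤ C * K ^ 2 * (N * Real.log N ^ 3))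
    (h_prime : ∀ (U : ℕ), ∃ C : ℝ, 0 < C ∧ ∀ (N D : ℕ), 3 ≤ N → QN N ≤ D →
      (D : ℝ) ≤ (N : ℝ) ^ (3 / 4 : ℝ) → ∀ a : ℕ, 1 ≤ a → a ≤ N → ∀ c : ℕ → ℝ, Cof D c →
      (∀ d, ¬ Nat.Coprime a d → c d = 0) →
      |(∑ p ∈ (Icc 1 N).filter Nat.Prime, rr (uu c (2 * D) (QN N)) (2 * D) a p) -
        ∑ d ∈ Ioc D (2 * D), c d * Er N d a| ≤ C * (N / Real.log N ^ U))
    (h_dual : ∀ (N : ℕ) (hN : 1 ≤ N) (A : Finset ℕ) (r : ℕ → ℤ → ℝ)
      (hs : ∀ a ∈ A, ∀ a' ∈ A, Summable (fun n : ℤ => Wt N n * (r a n * r a' n)))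
      (G O : ℝ) (hG : ∀ a ∈ A, ∑' n : ℤ, Wt N n * (r a n * r a n) ≤ G) (hO0 : 0 ≤ O)
      (hO : ∀ a ∈ A, ∀ a' ∈ A, a ≠ a' → ∑' n : ℤ, Wt N n * (r a n * r a' n) ≤ O),
      (∑ a ∈ A, ∑ p ∈ (Icc 1 N).filter Nat.Prime, r a p) ^ 2 ≤
        25 * N * ((A.card : ℝ) * G + (A.card : ℝ) ^ 2 * O))
    (θ : ℝ) (hθ : θ < 24 / 47) (U : ℝ) : ∃ (C : ℝ), 0 < C ∧
    ∀ (N D : ℕ), 3 ≤ N → QN N ≤ D → (D : ℝ) ≤ (N : ℝ) ^ θ → ∀ T : Finset ℕ, T ⊆ Ioc D (2 * D) →
    (((Icc 1 N).filter (fun a : ℕ => (N : ℝ) / Real.log N ^ U <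
      ∑ d ∈ T.filter (fun d => Nat.Coprime a d), |Er N d a|)).card : ℝ) ≤
      C * Real.log N ^ (2 * U + 5) := by
  obtain ⟨η, CO, hη, hCO, hcorr⟩ := h_corr θ hθ
  obtain ⟨CG, hCG, hdiag⟩ := h_diag
  set U' : ℕ := ⌈max (U + 1) 0⌉₊ with hU'
  have hU'1 : U + 1 ≤ (U' : ℝ) := (le_max_left _ _).trans (Nat.le_ceil _)
  obtain ⟨CP, hCP, hprime⟩ := h_prime U'
  -- the threshold
  have hev1 : ∀ᶠ N : ℕ in Filter.atTop, 200 * CO * Real.log N ^ (2 * U) ≤ (N : ℝ) ^ η := by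
    have h1 := (isLittleO_log_rpow_rpow_atTop (2 * U) hη).comp_tendsto
      (tendsto_natCast_atTop_atTop (R := ℝ))
    have h2 := h1.def (c := 1 / (200 * CO)) (by positivity)
    filter_upwards [h2, Filter.eventually_ge_atTop 3] with N hN hN3
    have hl := one_le_log hN3
    simp only [Function.comp_apply, Real.norm_eq_abs] at hN
    rw [abs_of_nonneg (by positivity), abs_of_nonneg (by positivity)] at hN
    calc 200 * CO * Real.log N ^ (2 * U) ≤ 200 * CO * (1 / (200 * CO) * (N : ℝ) ^ η) := by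
          gcongr
      _ = (N : ℝ) ^ η := by field_simp
  have hev2 : ∀ᶠ N : ℕ in Filter.atTop, 2 * CP ≤ Real.log N :=
    (Real.tendsto_log_atTop.comp (tendsto_natCast_atTop_atTop (R := ℝ))).eventually_ge_atTop _
  obtain ⟨N0, hN0⟩ := Filter.eventually_atTop.mp (hev1.and hev2)
  set C1 : ℝ := ∑ N ∈ Finset.range N0, (N : ℝ) / |Real.log N ^ (2 * U + 5)| with hC1
  have hC1' : 0 ≤ C1 := Finset.sum_nonneg (fun N _ => by positivity)
  refine ⟨5000 * CG + C1, by positivity, ?_⟩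
  intro N D hN3 hQD hDθ T hT
  set A := (Icc 1 N).filter (fun a : ℕ => (N : ℝ) / Real.log N ^ U <
      ∑ d ∈ T.filter (fun d => Nat.Coprime a d), |Er N d a|) with hA
  have hl := one_le_log hN3
  have hl0 : 0 < Real.log N := by linarith
  have hN1 : 1 ≤ N := by omega
  have hNr : (3 : ℝ) ≤ N := by exact_mod_cast hN3
  have hpow : 0 < Real.log N ^ (2 * U + 5) := by positivity
  rcases lt_or_ge N N0 with hlt | hge
  · -- small N
    have h1 : (A.card : ℝ) ≤ N := by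
      have := Finset.card_filter_le (Icc 1 N) (fun a : ℕ => (N : ℝ) / Real.log N ^ U <
        ∑ d ∈ T.filter (fun d => Nat.Coprime a d), |Er N d a|)
      rw [Nat.card_Icc] at this
      exact_mod_cast this
    have h2 : (N : ℝ) / |Real.log N ^ (2 * U + 5)| ≤ C1 :=
      Finset.single_le_sum (f := fun N : ℕ => (N : ℝ) / |Real.log N ^ (2 * U + 5)|)
        (fun N _ => by positivity) (Finset.mem_range.mpr hlt)
    rw [abs_of_pos hpow, div_le_iff₀ hpow] at h2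
    calc (A.card : ℝ) ≤ N := h1
      _ ≤ C1 * Real.log N ^ (2 * U + 5) := h2
      _ ≤ (5000 * CG + C1) * Real.log N ^ (2 * U + 5) := by
          apply mul_le_mul_of_nonneg_right _ hpow.le
          linarith
  -- large N
  obtain ⟨hb1, hb2⟩ := hN0 N hge
  set Y : ℝ := (N : ℝ) / Real.log N ^ U with hY
  have hYpos : 0 < Y := by positivity
  set u : ℕ → ℕ → ℝ := fun a => uu (cs T N a) (2 * D) (QN N) with hu
  set r : ℕ → ℤ → ℝ := fun a n => rr (u a) (2 * D) a n with hr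
  have hcof : ∀ a, Cof D (cs T N a) := fun a => cof_cs T N D a hT
  have hQ1 : 1 ≤ QN N := one_le_QN hN1
  -- bound of the weights
  have hK : ∀ a d, |u a d| ≤ 5 * Real.log N := by
    intro a d
    have h1 := (hcof a).bd d
    have h2 := h_ww (cs T N a) D (QN N) d (hcof a) hQ1
    have h3 := log_QN_le hN1
    simp only [hu, uu]
    calc |cs T N a d - ww (cs T N a) (2 * D) (QN N) d|
        ≤ |cs T N a d| + |ww (cs T N a) (2 * D) (QN N) d| := abs_sub _ _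
      _ ≤ 1 + 2 * (1 + Real.log (QN N)) := by linarith
      _ ≤ 5 * Real.log N := by linarith
  -- the prime side
  have hD34 : (D : ℝ) ≤ (N : ℝ) ^ (3 / 4 : ℝ) := by
    refine hDθ.trans (Real.rpow_le_rpow_of_exponent_le (by linarith) ?_)
    have : (24 / 47 : ℝ) < 3 / 4 := by norm_num
    linarith
  have hps : ∀ a ∈ A, Y / 2 ≤ ∑ p ∈ (Icc 1 N).filter Nat.Prime, r a p := by
    intro a ha
    rw [hA, mem_filter, mem_Icc] at ha
    obtain ⟨⟨ha1, ha2⟩, ha3⟩ := ha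
    have h1 := hprime N D hN3 hQD hD34 a ha1 ha2 (cs T N a) (hcof a) (fun d hd => cs_zero T N a d hd)
    rw [cs_sum T N D a hT] at h1
    have h2 := (abs_le.mp h1).1
    have h3 : CP * ((N : ℝ) / Real.log N ^ U') ≤ Y / 2 := by
      have h4 : Real.log N ^ (U' : ℝ) ≥ Real.log N ^ (U + 1) :=
        Real.rpow_le_rpow_of_exponent_le hl hU'1
      rw [Real.rpow_natCast] at h4
      rw [Real.rpow_add hl0, Real.rpow_one] at h4
      have h5 : 0 < Real.log N ^ U := by positivity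
      have h6 : Real.log N ^ U * (2 * CP) ≤ Real.log N ^ U' := by
        refine le_trans ?_ h4
        gcongr
      rw [hY, div_div, mul_div_assoc', div_le_div_iff₀ (by positivity) (by positivity)]
      calc CP * N * (Real.log N ^ U * 2) = N * (Real.log N ^ U * (2 * CP)) := by ring
        _ ≤ N * Real.log N ^ U' := by gcongr
    have h4 : (∑ p ∈ (Icc 1 N).filter Nat.Prime, r a p) =
        ∑ p ∈ (Icc 1 N).filter Nat.Prime, rr (uu (cs T N a) (2 * D) (QN N)) (2 * D) a p := rfl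
    rw [h4]
    linarith
  -- duality
  have hNη : 0 ≤ CO * (N : ℝ) ^ (1 - η) := by positivity
  have hD2 : 2 ≤ N := by omega
  have hd := h_dual N hN1 A r
    (fun a _ a' _ => h_summ N (2 * D) hN1 (u a) (u a') a a')
    (CG * (5 * Real.log N) ^ 2 * (N * Real.log N ^ 3)) (CO * (N : ℝ) ^ (1 - η))
    (by
      intro a ha
      rw [hA, mem_filter, mem_Icc] at ha
      exact hdiag N (2 * D) hN3 a (by positivity) (by exact_mod_cast ha.1.2) (u a) _ (hK a))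
    hNη
    (by
      intro a ha a' ha' hne
      rw [hA, mem_filter, mem_Icc] at ha ha'
      exact (le_abs_self _).trans (hcorr N D hD2 hQD hDθ a a' (by positivity)
        (by exact_mod_cast ha.1.2) (by positivity) (by exact_mod_cast ha'.1.2)
        (by exact_mod_cast hne) (cs T N a) (cs T N a') (hcof a) (hcof a')))
  have hlow : (A.card : ℝ) * (Y / 2) ≤ ∑ a ∈ A, ∑ p ∈ (Icc 1 N).filter Nat.Prime, r a p := by
    rw [← nsmul_eq_mul]
    exact Finset.card_nsmul_le_sum A _ _ hps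
  have hsq : ((A.card : ℝ) * (Y / 2)) ^ 2 ≤
      (∑ a ∈ A, ∑ p ∈ (Icc 1 N).filter Nat.Prime, r a p) ^ 2 :=
    pow_le_pow_left₀ (by positivity) hlow 2
  have hmain := hsq.trans hd
  have hYsq : Y ^ 2 * Real.log N ^ (2 * U) = (N : ℝ) ^ 2 := by
    rw [hY, div_pow, mul_comm 2 U, Real.rpow_mul hl0.le, Real.rpow_two]
    field_simp
  have hO1 : 25 * N * (CO * (N : ℝ) ^ (1 - η)) ≤ Y ^ 2 / 8 := by
    have hNp : (N : ℝ) ^ (1 - η) * (N : ℝ) ^ η = N := by
      rw [← Real.rpow_add (by positivity), sub_add_cancel, Real.rpow_one]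
    have hq : 0 < Real.log N ^ (2 * U) := by positivity
    have h1 : 25 * N * (CO * (N : ℝ) ^ (1 - η)) * Real.log N ^ (2 * U) ≤
        Y ^ 2 / 8 * Real.log N ^ (2 * U) := by
      have h2 : Y ^ 2 / 8 * Real.log N ^ (2 * U) = (N : ℝ) ^ 2 / 8 := by
        rw [div_mul_eq_mul_div, hYsq]
      rw [h2]
      calc 25 * N * (CO * (N : ℝ) ^ (1 - η)) * Real.log N ^ (2 * U)
          = N * (N : ℝ) ^ (1 - η) / 8 * (200 * CO * Real.log N ^ (2 * U)) := by ring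
        _ ≤ N * (N : ℝ) ^ (1 - η) / 8 * (N : ℝ) ^ η := by gcongr
        _ = N * ((N : ℝ) ^ (1 - η) * (N : ℝ) ^ η) / 8 := by ring
        _ = (N : ℝ) ^ 2 / 8 := by rw [hNp]; ring
    exact le_of_mul_le_mul_right h1 hq
  rcases Nat.eq_zero_or_pos A.card with h0 | hpos
  · rw [h0]
    have : 0 ≤ (5000 * CG + C1) * Real.log N ^ (2 * U + 5) := by positivity
    simpa using this
  have hc : (0 : ℝ) < A.card := by exact_mod_cast hpos
  have hfin : (A.card : ℝ) * Y ^ 2 ≤ 5000 * CG * Real.log N ^ 5 * (N : ℝ) ^ 2 := by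
    have h1 : (A.card : ℝ) ^ 2 * (25 * N * (CO * (N : ℝ) ^ (1 - η))) ≤
        (A.card : ℝ) ^ 2 * (Y ^ 2 / 8) := by gcongr
    have h2 : (A.card : ℝ) * ((A.card : ℝ) * Y ^ 2) ≤
        (A.card : ℝ) * (5000 * CG * Real.log N ^ 5 * (N : ℝ) ^ 2) := by
      nlinarith [hmain, h1]
    exact le_of_mul_le_mul_left h2 hc
  have hfin2 : (A.card : ℝ) * Y ^ 2 ≤
      (5000 * CG * Real.log N ^ (2 * U + 5)) * Y ^ 2 := by
    have h1 : Real.log N ^ (2 * U + 5) = Real.log N ^ (2 * U) * Real.log N ^ 5 := by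
      rw [Real.rpow_add hl0]
      norm_cast
    calc (A.card : ℝ) * Y ^ 2 ≤ 5000 * CG * Real.log N ^ 5 * (N : ℝ) ^ 2 := hfin
      _ = (5000 * CG * Real.log N ^ (2 * U + 5)) * Y ^ 2 := by
          rw [← hYsq, h1]; ring
  have hfin3 := le_of_mul_le_mul_right hfin2 (by positivity)
  refine hfin3.trans ?_
  apply mul_le_mul_of_nonneg_right _ hpow.le
  linarith

end Pool.Agent.H442R2.KF
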