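import Pool.Agent.H442R2.KF.Defs

/-!
KF project, task H1.
-/

namespace Pool.Agent.H442R2.KF

open Finset

namespace TaskH1

lemma prime_dvd_eq {l l' : ℕ} (hl : l.Prime) (hl' : l'.Prime) (h : (l : ℤ) ∣ l') : l = l' := by
  have h1 : l ∣ l' := by exact_mod_cast h
  exact (Nat.prime_dvd_prime_iff_eq hl hl').mp h1

/-- a prime which divides the product -/
lemma step {l m t l' m' : ℤ} {a : ℤ} (hl : Prime l) (h1 : ¬ l ∣ m) (ht : ¬ l ∣ t)
    (h : m * t * l' * m' = a * l) : l ∣ l' ∨ l ∣ m' := by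
  have h2 : l ∣ m * t * l' * m' := ⟨a, by rw [h]; ring⟩
  rcases hl.dvd_or_dvd h2 with h3 | h3
  · rcases hl.dvd_or_dvd h3 with h4 | h4
    · rcases hl.dvd_or_dvd h4 with h5 | h5
      · exact absurd h5 h1
      · exact absurd h5 ht
    · exact Or.inl h4
  · exact Or.inr h3

end TaskH1

/-- H1 (Bz.lean) -/
theorem Bq_zero (L : ℕ) (p p' : ℕ × ℕ × ℤ) (hp : p ∈ Par L) (hp' : p' ∈ Par L)
    (h : Bq p p' = 0) : p' = p ∨ p' = (p.2.1, p.1, -p.2.2) := by
  obtain ⟨l1, l2, t⟩ := p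
  obtain ⟨l1', l2', t'⟩ := p'
  unfold Par PL at hp hp'
  simp only [Finset.mem_filter, Finset.mem_product] at hp hp'
  obtain ⟨⟨⟨-, hl1⟩, ⟨-, hl2⟩, -⟩, hne, ht0, hd1, hd2⟩ := hp
  obtain ⟨⟨⟨-, hl1'⟩, ⟨-, hl2'⟩, -⟩, hne', ht0', hd1', hd2'⟩ := hp'
  unfold Bq at h
  simp only at h
  have P1 : Prime (l1 : ℤ) := Nat.prime_iff_prime_int.mp hl1
  have P2 : Prime (l2 : ℤ) := Nat.prime_iff_prime_int.mp hl2
  have a1 : ¬ (l1 : ℤ) ∣ (l2 : ℤ) - l1 := by
    intro h1
    have h2 : (l1 : ℤ) ∣ l2 := by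
      have := dvd_add h1 (dvd_refl (l1 : ℤ))
      rwa [sub_add_cancel] at this
    exact hne (TaskH1.prime_dvd_eq hl1 hl2 h2)
  have a2 : ¬ (l2 : ℤ) ∣ (l2 : ℤ) - l1 := by
    intro h1
    have h2 : (l2 : ℤ) ∣ l1 := by
      have := dvd_sub (dvd_refl (l2 : ℤ)) h1
      rwa [sub_sub_cancel] at this
    exact hne (TaskH1.prime_dvd_eq hl2 hl1 h2).symm
  have b1 := TaskH1.step (l' := l1') (m' := l2') (a := ((l2' : ℤ) - l1') * t' * l2) P1 a1 hd1
    (by linear_combination h)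
  have b2 := TaskH1.step (l' := l1') (m' := l2') (a := ((l2' : ℤ) - l1') * t' * l1) P2 a2 hd2
    (by linear_combination h)
  have c0 : ((l2 : ℤ) - l1) ≠ 0 := by
    intro h1
    apply hne
    have : (l2 : ℤ) = l1 := by linarith
    exact_mod_cast this.symm
  have c1 : (l1 : ℤ) ≠ 0 := P1.ne_zero
  have c2 : (l2 : ℤ) ≠ 0 := P2.ne_zero
  rcases b1 with b1 | b1
  · have e1 := TaskH1.prime_dvd_eq hl1 hl1' b1
    rcases b2 with b2 | b2
    · exact absurd (e1.trans (TaskH1.prime_dvd_eq hl2 hl1' b2).symm) hne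
    · have e2 := TaskH1.prime_dvd_eq hl2 hl2' b2
      subst e1 e2
      left
      have h3 : (((l2 : ℤ) - l1) * l1 * l2) * (t' - t) = 0 := by linear_combination -h
      have h4 : t' - t = 0 := by
        rcases mul_eq_zero.mp h3 with h5 | h5
        · exact absurd h5 (mul_ne_zero (mul_ne_zero c0 c1) c2)
        · exact h5
      have : t' = t := by linarith
      rw [this]
  · have e1 := TaskH1.prime_dvd_eq hl1 hl2' b1
    rcases b2 with b2 | b2
    · have e2 := TaskH1.prime_dvd_eq hl2 hl1' b2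
      subst e1 e2
      right
      have h3 : (((l2 : ℤ) - l1) * l1 * l2) * (t' + t) = 0 := by linear_combination h
      have h4 : t' + t = 0 := by
        rcases mul_eq_zero.mp h3 with h5 | h5
        · exact absurd h5 (mul_ne_zero (mul_ne_zero c0 c1) c2)
        · exact h5
      have : t' = -t := by linarith
      rw [this]
    · exact absurd (e1.trans (TaskH1.prime_dvd_eq hl2 hl2' b2).symm) hne

end Pool.Agent.H442R2.KF
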