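import Pool.Agent.H442R2.KF.Hat
import Pool.Agent.H442R2.KF.Bil
import Pool.Agent.H442R2.KF.Main
import Pool.Agent.H510R2.Div

/-!
KF project, task O (helper539): correlations of different residues.
-/

namespace Pool.Agent.H442R2.KF

open Finset

namespace TaskO

lemma Wt_pos (N : ℕ) (n : ℤ) : 0 < Wt N n := Real.exp_pos _

lemma Wt_le_one (N : ℕ) (n : ℤ) : Wt N n ≤ 1 := by
  unfold Wt
  rw [Real.exp_le_one_iff]
  have := Real.pi_pos
  have := sq_nonneg ((n : ℝ) / N)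
  nlinarith

lemma summable_Wt (N : ℕ) (hN : 1 ≤ N) : Summable (fun n : ℤ => Wt N n) := by
  have hN0 : (0 : ℝ) < N := by exact_mod_cast hN
  have him : 0 < (Complex.I * (((1 : ℝ) / (N : ℝ) ^ 2 : ℝ) : ℂ)).im := by
    rw [Complex.I_mul_im, Complex.ofReal_re]
    positivity
  have h := ((summable_jacobiTheta₂_term_iff 0 _).2 him).norm
  refine h.congr fun n => ?_
  unfold jacobiTheta₂_term Wt
  rw [Complex.norm_exp]
  congr 1
  have : (2 * (Real.pi : ℂ) * Complex.I * n * 0 + Real.pi * Complex.I * (n : ℂ) ^ 2 *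
      (Complex.I * (((1 : ℝ) / (N : ℝ) ^ 2 : ℝ) : ℂ))) =
      ((-Real.pi * ((n : ℝ) / N) ^ 2 : ℝ) : ℂ) := by
    push_cast
    have e : (Real.pi : ℂ) * Complex.I * (n : ℂ) ^ 2 * (Complex.I * (1 / (N : ℂ) ^ 2)) =
      (Complex.I * Complex.I) * (Real.pi * ((n : ℂ) / N) ^ 2) := by
      rw [div_pow]; ring
    rw [mul_zero, zero_add, e, Complex.I_mul_I]
    ring
  rw [this, Complex.ofReal_re]

/-- the indicator -/
noncomputable def ind (a : ℤ) (d : ℕ) (n : ℤ) : ℝ := if (d : ℤ) ∣ n - a then 1 else 0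

lemma rho_eq (u : ℕ → ℝ) (X : ℕ) (a n : ℤ) : rho u X a n = ∑ d ∈ Icc 1 X, u d * ind a d n := by
  unfold rho ind
  rw [sum_filter]
  refine sum_congr rfl fun d _ => ?_
  split_ifs <;> simp

lemma term_eq (N : ℕ) (u u' : ℕ → ℝ) (X : ℕ) (a a' n : ℤ) :
    Wt N n * (rho u X a n * rho u' X a' n) =
      ∑ d ∈ Icc 1 X, ∑ d' ∈ Icc 1 X, u d * u' d' *
        (if ((d : ℤ) ∣ n - a ∧ (d' : ℤ) ∣ n - a') then Wt N n else 0) := by
  rw [rho_eq, rho_eq, sum_mul_sum, mul_sum]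
  refine sum_congr rfl fun d _ => ?_
  rw [mul_sum]
  refine sum_congr rfl fun d' _ => ?_
  unfold ind
  by_cases h1 : (d : ℤ) ∣ n - a <;> by_cases h2 : (d' : ℤ) ∣ n - a' <;> simp [h1, h2]
  ring

lemma summable_ind (N : ℕ) (hN : 1 ≤ N) (a a' : ℤ) (d d' : ℕ) : Summable (fun n : ℤ =>
    if ((d : ℤ) ∣ n - a ∧ (d' : ℤ) ∣ n - a') then Wt N n else 0) := by
  refine Summable.of_nonneg_of_le (fun n => ?_) (fun n => ?_) (summable_Wt N hN)
  · split_ifs
    · exact (Wt_pos N n).le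
    · exact le_rfl
  · split_ifs
    · exact le_rfl
    · exact (Wt_pos N n).le

lemma hasSum_rho (N : ℕ) (hN : 1 ≤ N) (u u' : ℕ → ℝ) (X : ℕ) (a a' : ℤ) :
    HasSum (fun n : ℤ => Wt N n * (rho u X a n * rho u' X a' n))
      (∑ d ∈ Icc 1 X, ∑ d' ∈ Icc 1 X, u d * u' d' * SS N a a' d d') := by
  have e : (fun n : ℤ => Wt N n * (rho u X a n * rho u' X a' n)) = fun n =>
      ∑ d ∈ Icc 1 X, ∑ d' ∈ Icc 1 X, u d * u' d' *
        (if ((d : ℤ) ∣ n - a ∧ (d' : ℤ) ∣ n - a') then Wt N n else 0) := by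
    funext n; exact term_eq N u u' X a a' n
  rw [e]
  refine hasSum_sum fun d _ => hasSum_sum fun d' _ => ?_
  exact (summable_ind N hN a a' d d').hasSum.mul_left _

/-- correction at one point -/
lemma hasSum_rr (N : ℕ) (hN : 1 ≤ N) (u u' : ℕ → ℝ) (X : ℕ) (a a' : ℤ) (haa : a ≠ a') :
    HasSum (fun n : ℤ => Wt N n * (rr u X a n * rr u' X a' n))
      ((∑ d ∈ Icc 1 X, ∑ d' ∈ Icc 1 X, u d * u' d' * SS N a a' d d') -
        (Wt N a * (rho u X a a * rho u' X a' a) + Wt N a' * (rho u X a a' * rho u' X a' a'))) := by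
  have h1 := hasSum_rho N hN u u' X a a'
  have h2 : HasSum (fun n : ℤ => if n = a then Wt N n * (rho u X a n * rho u' X a' n) else 0)
      (Wt N a * (rho u X a a * rho u' X a' a)) := by
    have := hasSum_single (f := fun n : ℤ => if n = a then
      Wt N n * (rho u X a n * rho u' X a' n) else 0) a (fun b hb => by simp [hb])
    simpa using this
  have h3 : HasSum (fun n : ℤ => if n = a' then Wt N n * (rho u X a n * rho u' X a' n) else 0)
      (Wt N a' * (rho u X a a' * rho u' X a' a')) := by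
    have := hasSum_single (f := fun n : ℤ => if n = a' then
      Wt N n * (rho u X a n * rho u' X a' n) else 0) a' (fun b hb => by simp [hb])
    simpa using this
  have h4 := h1.sub (h2.add h3)
  have e : (fun n : ℤ => Wt N n * (rr u X a n * rr u' X a' n)) = fun n =>
      Wt N n * (rho u X a n * rho u' X a' n) -
        ((if n = a then Wt N n * (rho u X a n * rho u' X a' n) else 0) +
          (if n = a' then Wt N n * (rho u X a n * rho u' X a' n) else 0)) := by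
    funext n
    unfold rr
    by_cases hn : n = a
    · subst hn
      simp [haa]
    · by_cases hn' : n = a'
      · subst hn'
        simp [hn]
      · simp [hn, hn']
  rw [e]
  exact h4

/-- the sum of the absolute values of the coefficients -/
lemma abs_rho_le (u : ℕ → ℝ) (X : ℕ) (a n : ℤ) (B : ℝ) (hB : 0 ≤ B) (hu : ∀ d, |u d| ≤ B) :
    |rho u X a n| ≤ X * B := by
  rw [rho_eq]
  refine (abs_sum_le_sum_abs _ _).trans ?_
  calc ∑ d ∈ Icc 1 X, |u d * ind a d n| ≤ ∑ _d ∈ Icc 1 X, B := by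
        refine sum_le_sum fun d _ => ?_
        unfold ind
        split_ifs
        · rw [mul_one]; exact hu d
        · rw [mul_zero, abs_zero]; exact hB
    _ = X * B := by simp

lemma abs_rho_le_tau (u : ℕ → ℝ) (X : ℕ) (a n : ℤ) (B : ℝ) (hB : 0 ≤ B) (hu : ∀ d, |u d| ≤ B)
    (hn : n ≠ a) : |rho u X a n| ≤ tau (n - a).natAbs * B := by
  unfold rho
  refine (abs_sum_le_sum_abs _ _).trans ?_
  calc ∑ d ∈ (Icc 1 X).filter (fun d : ℕ => (d : ℤ) ∣ n - a), |u d|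
      ≤ ∑ _d ∈ (Icc 1 X).filter (fun d : ℕ => (d : ℤ) ∣ n - a), B := sum_le_sum fun d _ => hu d
    _ = ((Icc 1 X).filter (fun d : ℕ => (d : ℤ) ∣ n - a)).card * B := by simp
    _ ≤ tau (n - a).natAbs * B := by
        refine mul_le_mul_of_nonneg_right ?_ hB
        unfold tau
        have : ((Icc 1 X).filter (fun d : ℕ => (d : ℤ) ∣ n - a)) ⊆ (n - a).natAbs.divisors := by
          intro d hd
          rw [mem_filter] at hd
          rw [Nat.mem_divisors]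
          exact ⟨Int.natCast_dvd.1 hd.2, by omega⟩
        exact_mod_cast card_le_card this

/-- the sums with a difference of the correlation sum and its model -/
noncomputable def Del (N : ℕ) (a a' : ℤ) (d d' : ℕ) : ℝ :=
  SS N a a' d d' - N * Fh (a' - a) (Nat.gcd d d') / (d * d')

lemma split_main (N : ℕ) (u u' : ℕ → ℝ) (X : ℕ) (a a' : ℤ) :
    ∑ d ∈ Icc 1 X, ∑ d' ∈ Icc 1 X, u d * u' d' * SS N a a' d d' =
      N * (∑ d ∈ Icc 1 X, ∑ d' ∈ Icc 1 X, u d * u' d' * Fh (a' - a) (Nat.gcd d d') / (d * d')) +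
      ∑ d ∈ Icc 1 X, ∑ d' ∈ Icc 1 X, u d * u' d' * Del N a a' d d' := by
  rw [mul_sum, ← sum_add_distrib]
  refine sum_congr rfl fun d _ => ?_
  rw [mul_sum, ← sum_add_distrib]
  refine sum_congr rfl fun d' _ => ?_
  unfold Del
  ring

/-- the sum over the large moduli -/
lemma sum_cc (c c' : ℕ → ℝ) (D : ℕ) (hc : Cof D c) (hc' : Cof D c') (F : ℕ → ℕ → ℝ) :
    ∑ d ∈ Icc 1 (2 * D), ∑ d' ∈ Icc 1 (2 * D), c d * c' d' * F d d' =
      ∑ d ∈ Ioc D (2 * D), ∑ d' ∈ Ioc D (2 * D), c d * c' d' * F d d' := by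
  have hsub : Ioc D (2 * D) ⊆ Icc 1 (2 * D) := by
    intro d hd
    rw [mem_Ioc] at hd
    rw [mem_Icc]
    omega
  symm
  refine (sum_congr rfl fun d _ => sum_subset hsub fun d' _ hd' => ?_).trans
    (sum_subset hsub fun d _ hd => ?_)
  · rw [hc'.supp d' hd']; ring
  · refine sum_eq_zero fun d' _ => ?_
    rw [hc.supp d hd]; ring

/-- the other pairs -/
lemma rest_le (N D Q : ℕ) (a a' : ℤ) (c c' w w' : ℕ → ℝ) (K δ : ℝ) (hK : 1 ≤ K) (hδ : 0 ≤ δ)
    (hc : ∀ d, |c d| ≤ 1) (hc' : ∀ d, |c' d| ≤ 1) (hw : ∀ d, |w d| ≤ K) (hw' : ∀ d, |w' d| ≤ K)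
    (hw0 : ∀ d, Q < d → w d = 0) (hw0' : ∀ d, Q < d → w' d = 0)
    (hD : ∀ d d', 1 ≤ d → 1 ≤ d' → d ≤ 2 * D → d' ≤ 2 * D → (d ≤ Q ∨ d' ≤ Q) →
      |Del N a a' d d'| ≤ δ) :
    |∑ d ∈ Icc 1 (2 * D), ∑ d' ∈ Icc 1 (2 * D),
      ((c d - w d) * (c' d' - w' d') - c d * c' d') * Del N a a' d d'| ≤
      (2 * D) ^ 2 * (3 * K ^ 2 * δ) := by
  have hterm : ∀ d ∈ Icc 1 (2 * D), ∀ d' ∈ Icc 1 (2 * D),
      |((c d - w d) * (c' d' - w' d') - c d * c' d') * Del N a a' d d'| ≤ 3 * K ^ 2 * δ := by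
    intro d hd d' hd'
    rw [mem_Icc] at hd hd'
    by_cases h : d ≤ Q ∨ d' ≤ Q
    · rw [abs_mul]
      refine mul_le_mul ?_ (hD d d' hd.1 hd'.1 hd.2 hd'.2 h) (abs_nonneg _) (by positivity)
      have e : (c d - w d) * (c' d' - w' d') - c d * c' d' =
        -(c d * w' d') - w d * c' d' + w d * w' d' := by ring
      rw [e]
      have a1 : |c d * w' d'| ≤ 1 * K := by
        rw [abs_mul]; exact mul_le_mul (hc d) (hw' d') (abs_nonneg _) zero_le_one
      have a2 : |w d * c' d'| ≤ K * 1 := by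
        rw [abs_mul]; exact mul_le_mul (hw d) (hc' d') (abs_nonneg _) (by linarith)
      have a3 : |w d * w' d'| ≤ K * K := by
        rw [abs_mul]; exact mul_le_mul (hw d) (hw' d') (abs_nonneg _) (by linarith)
      have a4 := abs_le.1 a1
      have a5 := abs_le.1 a2
      have a6 := abs_le.1 a3
      rw [abs_le]
      constructor <;> nlinarith
    · push Not at h
      rw [hw0 d h.1, hw0' d' h.2]
      simp only [sub_zero, sub_self, zero_mul, abs_zero]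
      positivity
  refine (abs_sum_le_sum_abs _ _).trans ?_
  calc ∑ d ∈ Icc 1 (2 * D), |∑ d' ∈ Icc 1 (2 * D),
      ((c d - w d) * (c' d' - w' d') - c d * c' d') * Del N a a' d d'|
      ≤ ∑ _d ∈ Icc 1 (2 * D), ((2 * D : ℕ) : ℝ) * (3 * K ^ 2 * δ) := by
        refine sum_le_sum fun d hd => (abs_sum_le_sum_abs _ _).trans ?_
        calc _ ≤ ∑ _d' ∈ Icc 1 (2 * D), 3 * K ^ 2 * δ :=
              sum_le_sum fun d' hd' => hterm d hd d' hd'
          _ = _ := by simp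
    _ = (2 * D) ^ 2 * (3 * K ^ 2 * δ) := by simp; ring

lemma QN_facts (N : ℕ) (hN : 2 ≤ N) : 1 ≤ QN N ∧ (QN N : ℝ) ≤ (N : ℝ) ^ (1 / 100 : ℝ) ∧
    (N : ℝ) ^ (1 / 100 : ℝ) ≤ 2 * QN N := by
  have hN1 : (1 : ℝ) ≤ N := by
    have : 1 ≤ N := by omega
    exact_mod_cast this
  have h1 : (1 : ℝ) ≤ (N : ℝ) ^ (1 / 100 : ℝ) := Real.one_le_rpow hN1 (by norm_num)
  have h2 : 1 ≤ QN N := by
    unfold QN
    rw [Nat.one_le_floor_iff]
    exact h1
  refine ⟨h2, Nat.floor_le (by positivity), ?_⟩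
  have h3 := Nat.lt_floor_add_one ((N : ℝ) ^ (1 / 100 : ℝ))
  have h4 : (1 : ℝ) ≤ QN N := by exact_mod_cast h2
  unfold QN at *
  linarith

/-- the bound for the coefficients -/
noncomputable def LL (N : ℕ) : ℝ := 403 * (N : ℝ) ^ (1 / 200 : ℝ)

lemma uu_bounds (N D : ℕ) (hN : 2 ≤ N) (c : ℕ → ℝ) (hc : Cof D c)
    (hww : ∀ d, |ww c (2 * D) (QN N) d| ≤ 2 * (1 + Real.log (QN N))) :
    (∀ d, |ww c (2 * D) (QN N) d| ≤ LL N) ∧ (∀ d, |uu c (2 * D) (QN N) d| ≤ LL N) := by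
  have hN1 : (1 : ℝ) ≤ N := by
    have : 1 ≤ N := by omega
    exact_mod_cast this
  obtain ⟨q1, q2, -⟩ := QN_facts N hN
  have q1' : (1 : ℝ) ≤ QN N := by exact_mod_cast q1
  have h1 : Real.log (QN N) ≤ 200 * (N : ℝ) ^ (1 / 200 : ℝ) := by
    have h2 : Real.log (QN N) ≤ Real.log N := by
      apply Real.log_le_log (by linarith)
      refine q2.trans ?_
      calc (N : ℝ) ^ (1 / 100 : ℝ) ≤ (N : ℝ) ^ (1 : ℝ) :=
            Real.rpow_le_rpow_of_exponent_le hN1 (by norm_num)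
        _ = N := Real.rpow_one _
    have h3 := Real.log_le_rpow_div (x := (N : ℝ)) (by linarith) (ε := 1 / 200) (by norm_num)
    have h4 : (N : ℝ) ^ (1 / 200 : ℝ) / (1 / 200) = 200 * (N : ℝ) ^ (1 / 200 : ℝ) := by ring
    linarith
  have h5 : (1 : ℝ) ≤ (N : ℝ) ^ (1 / 200 : ℝ) := Real.one_le_rpow hN1 (by norm_num)
  have h6 : ∀ d, |ww c (2 * D) (QN N) d| ≤ 402 * (N : ℝ) ^ (1 / 200 : ℝ) := by
    intro d
    have := hww d
    linarith
  constructor
  · intro d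
    have := h6 d
    unfold LL
    linarith
  · intro d
    have h7 := h6 d
    have h8 := hc.bd d
    unfold uu LL
    have h9 := abs_sub (c d) (ww c (2 * D) (QN N) d)
    linarith

lemma crude (N D : ℕ) (hN : 2 ≤ N) (hDN : D ≤ N) (a a' : ℤ) (haa : a ≠ a') (u u' : ℕ → ℝ)
    (hu : ∀ d, |u d| ≤ LL N) (hu' : ∀ d, |u' d| ≤ LL N) :
    |∑' n : ℤ, Wt N n * (rr u (2 * D) a n * rr u' (2 * D) a' n)| ≤
      (∑' n : ℤ, Wt N n) * (2 * N * LL N) ^ 2 := by
  have hL0 : 0 ≤ LL N := (abs_nonneg _).trans (hu 0)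
  have hB : ∀ (v : ℕ → ℝ) (b n : ℤ), (∀ d, |v d| ≤ LL N) → |rr v (2 * D) b n| ≤ 2 * N * LL N := by
    intro v b n hv
    unfold rr
    split_ifs
    · rw [abs_zero]; positivity
    · refine (abs_rho_le v (2 * D) b n (LL N) hL0 hv).trans ?_
      have : (D : ℝ) ≤ N := by exact_mod_cast hDN
      push_cast
      exact mul_le_mul_of_nonneg_right (by linarith) hL0
  have hs := (hasSum_rr N (by omega) u u' (2 * D) a a' haa).summable
  have hle : ∀ n : ℤ, |Wt N n * (rr u (2 * D) a n * rr u' (2 * D) a' n)| ≤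
      Wt N n * (2 * N * LL N) ^ 2 := by
    intro n
    rw [abs_mul, abs_of_pos (Wt_pos N n), abs_mul, sq]
    refine mul_le_mul_of_nonneg_left ?_ (Wt_pos N n).le
    exact mul_le_mul (hB u a n hu) (hB u' a' n hu') (abs_nonneg _) (by positivity)
  have hs2 : Summable (fun n : ℤ => Wt N n * (2 * N * LL N) ^ 2) :=
    (summable_Wt N (by omega)).mul_right _
  have h1 : |∑' n : ℤ, Wt N n * (rr u (2 * D) a n * rr u' (2 * D) a' n)| ≤
      ∑' n : ℤ, |Wt N n * (rr u (2 * D) a n * rr u' (2 * D) a' n)| := by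
    have := norm_tsum_le_tsum_norm (f := fun n : ℤ =>
      Wt N n * (rr u (2 * D) a n * rr u' (2 * D) a' n)) (by
        exact Summable.of_nonneg_of_le (fun n => norm_nonneg _) (fun n => hle n) hs2)
    simpa only [Real.norm_eq_abs] using this
  refine h1.trans ?_
  rw [← tsum_mul_right]
  exact Summable.tsum_le_tsum hle
    (Summable.of_nonneg_of_le (fun n => abs_nonneg _) (fun n => hle n) hs2) hs2

end TaskO

open TaskO in
/-- O (Corr.lean): correlations of different residues (with the statements of the tasks M3 and N1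
as hypotheses) -/
theorem corr_of
    (big : ∀ (θ : ℝ), θ < 24 / 47 → ∃ (η C : ℝ), 0 < η ∧ 0 < C ∧
      ∀ (N D : ℕ), 2 ≤ N → (D : ℝ) ≤ (N : ℝ) ^ θ →
      ∀ (a a' : ℤ), 0 ≤ a → a ≤ N → 0 ≤ a' → a' ≤ N → a ≠ a' →
      ∀ c c' : ℕ → ℝ, (∀ d, |c d| ≤ 1) → (∀ d, |c' d| ≤ 1) →
      |∑ d ∈ Ioc D (2 * D), ∑ d' ∈ Ioc D (2 * D), c d * c' d' *
        (SS N a a' d d' - N * Fh (a' - a) (Nat.gcd d d') / (d * d'))| ≤ C * (N : ℝ) ^ (1 - η))
    (small : ∃ N₀ : ℕ, ∀ N : ℕ, N₀ ≤ N → ∀ (a a' : ℤ) (d d' : ℕ), 1 ≤ d → 1 ≤ d' →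
      (d * d' : ℝ) ≤ (N : ℝ) ^ (9 / 10 : ℝ) →
      |SS N a a' d d' - N * Fh (a' - a) (Nat.gcd d d') / (d * d')| ≤ 1 / (N : ℝ) ^ 5)
    (θ : ℝ) (hθ : θ < 24 / 47) : ∃ (η C : ℝ), 0 < η ∧ 0 < C ∧
    ∀ (N D : ℕ), 2 ≤ N → QN N ≤ D → (D : ℝ) ≤ (N : ℝ) ^ θ →
    ∀ (a a' : ℤ), 0 ≤ a → a ≤ N → 0 ≤ a' → a' ≤ N → a ≠ a' →
    ∀ c c' : ℕ → ℝ, Cof D c → Cof D c' →
    |∑' n : ℤ, Wt N n * (rr (uu c (2 * D) (QN N)) (2 * D) a n *
      rr (uu c' (2 * D) (QN N)) (2 * D) a' n)| ≤ C * (N : ℝ) ^ (1 - η) := by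
  set θ' := max θ (1 / 2) with hθ'
  have hθ1 : θ' < 24 / 47 := max_lt hθ (by norm_num)
  have hθ2 : 1 / 2 ≤ θ' := le_max_right _ _
  obtain ⟨ηb, Cb, hηb, hCb, hbig⟩ := big θ' hθ1
  obtain ⟨N₀, hsmall⟩ := small
  obtain ⟨Ct, hCt, htau⟩ := Pool.Agent.H510R2.divisor_bound (1 / 200) (by norm_num)
  set N₁ := max N₀ 16 with hN₁
  set C₀ : ℝ := ∑ N ∈ range N₁, (∑' n : ℤ, Wt N n) * (2 * N * LL N) ^ 2 with hC₀
  have hWn : ∀ N : ℕ, 0 ≤ ∑' n : ℤ, Wt N n := fun N => tsum_nonneg fun n => (Wt_pos N n).le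
  have hC₀0 : 0 ≤ C₀ := sum_nonneg fun N _ => mul_nonneg (hWn N) (sq_nonneg _)
  refine ⟨min ηb (1 / 200), C₀ + Cb + 16 * Ct + 12 * 403 ^ 2 + 4 * Ct * 403 ^ 2, by positivity,
    by positivity, ?_⟩
  intro N D hN hQD hDθ a a' ha0 haN ha0' haN' haa c c' hc hc'
  set η := min ηb (1 / 200) with hη
  have hη1 : η ≤ ηb := min_le_left _ _
  have hη2 : η ≤ 1 / 200 := min_le_right _ _
  obtain ⟨q1, q2, q3⟩ := QN_facts N hN
  set Q := QN N with hQ
  have hN1 : (1 : ℝ) ≤ N := by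
    have : 1 ≤ N := by omega
    exact_mod_cast this
  have hN0 : (0 : ℝ) < N := by linarith
  have hD1 : 1 ≤ D := q1.trans hQD
  have hDθ' : (D : ℝ) ≤ (N : ℝ) ^ θ' :=
    hDθ.trans (Real.rpow_le_rpow_of_exponent_le hN1 (le_max_left _ _))
  have hDN : D ≤ N := by
    have : (D : ℝ) ≤ N := by
      calc (D : ℝ) ≤ (N : ℝ) ^ θ' := hDθ'
        _ ≤ (N : ℝ) ^ (1 : ℝ) := Real.rpow_le_rpow_of_exponent_le hN1 (by linarith)
        _ = N := Real.rpow_one _
    exact_mod_cast this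
  have hpow1 : 1 ≤ (N : ℝ) ^ (1 - η) := Real.one_le_rpow hN1 (by linarith)
  obtain ⟨bw, bu⟩ := uu_bounds N D hN c hc fun d => abs_ww_le c D Q d hc q1
  obtain ⟨bw', bu'⟩ := uu_bounds N D hN c' hc' fun d => abs_ww_le c' D Q d hc' q1
  have hLL1 : 1 ≤ LL N := by
    have h5 : (1 : ℝ) ≤ (N : ℝ) ^ (1 / 200 : ℝ) := Real.one_le_rpow hN1 (by norm_num)
    unfold LL
    linarith
  by_cases hsm : N < N₁
  · -- small N
    refine (crude N D hN hDN a a' haa _ _ bu bu').trans ?_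
    have h1 : (∑' n : ℤ, Wt N n) * (2 * N * LL N) ^ 2 ≤ C₀ :=
      single_le_sum (f := fun N : ℕ => (∑' n : ℤ, Wt N n) * (2 * N * LL N) ^ 2)
        (fun N _ => mul_nonneg (hWn N) (sq_nonneg _)) (mem_range.2 hsm)
    have h2 : C₀ ≤ C₀ * (N : ℝ) ^ (1 - η) := le_mul_of_one_le_right hC₀0 hpow1
    have h3 : 0 ≤ (Cb + 16 * Ct + 12 * 403 ^ 2 + 4 * Ct * 403 ^ 2) * (N : ℝ) ^ (1 - η) := by
      positivity
    nlinarith
  push Not at hsm
  have hNN0 : N₀ ≤ N := (le_max_left _ _).trans hsm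
  have hN16 : 16 ≤ N := (le_max_right _ _).trans hsm
  rw [(hasSum_rr N (by omega) _ _ (2 * D) a a' haa).tsum_eq, split_main]
  -- the divisor function
  have hh0 : a' - a ≠ 0 := sub_ne_zero.2 (Ne.symm haa)
  have hhN : (a' - a).natAbs ≤ N := by omega
  have hh1 : 1 ≤ (a' - a).natAbs := by omega
  have htauN : tau (a' - a).natAbs ≤ Ct * (N : ℝ) ^ (1 / 200 : ℝ) := by
    refine (htau _ hh1).trans ?_
    refine mul_le_mul_of_nonneg_left ?_ hCt.le
    exact Real.rpow_le_rpow (by positivity) (by exact_mod_cast hhN) (by norm_num)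
  -- main part
  have e1 : |(N : ℝ) * (∑ d ∈ Icc 1 (2 * D), ∑ d' ∈ Icc 1 (2 * D), uu c (2 * D) Q d *
      uu c' (2 * D) Q d' * Fh (a' - a) (Nat.gcd d d') / (d * d'))| ≤
      16 * Ct * (N : ℝ) ^ (1 - η) := by
    rw [abs_mul, abs_of_pos hN0]
    have h1 := main_bound_of bilinear uh_uu abs_uh_le D Q q1 hQD c c' hc hc' (a' - a) hh0
    have hQ0 : (0 : ℝ) < Q := by
      have : 0 < Q := by omega
      exact_mod_cast this
    calc (N : ℝ) * |∑ d ∈ Icc 1 (2 * D), ∑ d' ∈ Icc 1 (2 * D), uu c (2 * D) Q d *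
        uu c' (2 * D) Q d' * Fh (a' - a) (Nat.gcd d d') / (d * d')|
        ≤ N * (8 * tau (a' - a).natAbs / Q) := mul_le_mul_of_nonneg_left h1 hN0.le
      _ ≤ N * (8 * (Ct * (N : ℝ) ^ (1 / 200 : ℝ)) / Q) := by
          refine mul_le_mul_of_nonneg_left ?_ hN0.le
          refine div_le_div_of_nonneg_right ?_ hQ0.le
          linarith
      _ ≤ 16 * Ct * (N : ℝ) ^ (1 - 1 / 200 : ℝ) := by
          rw [mul_div_assoc', div_le_iff₀ hQ0]
          have h2 : (N : ℝ) * (N : ℝ) ^ (1 / 200 : ℝ) = (N : ℝ) ^ (1 - 1 / 200 : ℝ) *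
              (N : ℝ) ^ (1 / 100 : ℝ) := by
            rw [← Real.rpow_add hN0]
            nth_rw 1 [← Real.rpow_one (N : ℝ)]
            rw [← Real.rpow_add hN0]
            norm_num
          have h3 : (N : ℝ) ^ (1 - 1 / 200 : ℝ) * (N : ℝ) ^ (1 / 100 : ℝ) ≤
              (N : ℝ) ^ (1 - 1 / 200 : ℝ) * (2 * Q) :=
            mul_le_mul_of_nonneg_left q3 (by positivity)
          nlinarith
      _ ≤ 16 * Ct * (N : ℝ) ^ (1 - η) := by
          refine mul_le_mul_of_nonneg_left ?_ (by positivity)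
          exact Real.rpow_le_rpow_of_exponent_le hN1 (by linarith)
  -- the deviations
  have e2 : |∑ d ∈ Icc 1 (2 * D), ∑ d' ∈ Icc 1 (2 * D), uu c (2 * D) Q d *
      uu c' (2 * D) Q d' * Del N a a' d d'| ≤ (Cb + 12 * 403 ^ 2) * (N : ℝ) ^ (1 - η) := by
    have h1 : ∑ d ∈ Icc 1 (2 * D), ∑ d' ∈ Icc 1 (2 * D), uu c (2 * D) Q d *
        uu c' (2 * D) Q d' * Del N a a' d d' =
        ∑ d ∈ Icc 1 (2 * D), ∑ d' ∈ Icc 1 (2 * D),
          ((c d - ww c (2 * D) Q d) * (c' d' - ww c' (2 * D) Q d') - c d * c' d') *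
            Del N a a' d d' +
        ∑ d ∈ Ioc D (2 * D), ∑ d' ∈ Ioc D (2 * D), c d * c' d' * Del N a a' d d' := by
      rw [← sum_cc c c' D hc hc' (Del N a a'), ← sum_add_distrib]
      refine sum_congr rfl fun d _ => ?_
      rw [← sum_add_distrib]
      refine sum_congr rfl fun d' _ => ?_
      unfold uu
      ring
    have h2 : |∑ d ∈ Ioc D (2 * D), ∑ d' ∈ Ioc D (2 * D), c d * c' d' * Del N a a' d d'| ≤
        Cb * (N : ℝ) ^ (1 - η) := by
      refine (hbig N D hN hDθ' a a' ha0 haN ha0' haN' haa c c' hc.bd hc'.bd).trans ?_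
      refine mul_le_mul_of_nonneg_left ?_ hCb.le
      exact Real.rpow_le_rpow_of_exponent_le hN1 (by linarith)
    have h3 : |∑ d ∈ Icc 1 (2 * D), ∑ d' ∈ Icc 1 (2 * D),
          ((c d - ww c (2 * D) Q d) * (c' d' - ww c' (2 * D) Q d') - c d * c' d') *
            Del N a a' d d'| ≤ 12 * 403 ^ 2 * (N : ℝ) ^ (1 - η) := by
      refine (rest_le N D Q a a' c c' _ _ (LL N) (1 / (N : ℝ) ^ 5) hLL1 (by positivity) hc.bd
        hc'.bd bw bw' (fun d hd => ww_zero c (2 * D) Q d hd)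
        (fun d hd => ww_zero c' (2 * D) Q d hd) ?_).trans ?_
      · intro d d' hd hd' hd2 hd2' hor
        refine hsmall N hNN0 a a' d d' hd hd' ?_
        have h4 : (d * d' : ℝ) ≤ 2 * D * Q := by
          rcases hor with h | h
          · have g1 : (d : ℝ) ≤ Q := by exact_mod_cast h
            have g2 : (d' : ℝ) ≤ 2 * D := by exact_mod_cast hd2'
            calc (d * d' : ℝ) ≤ Q * (2 * D) := mul_le_mul g1 g2 (by positivity) (by positivity)
              _ = 2 * D * Q := by ring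
          · have g1 : (d' : ℝ) ≤ Q := by exact_mod_cast h
            have g2 : (d : ℝ) ≤ 2 * D := by exact_mod_cast hd2
            exact mul_le_mul g2 g1 (by positivity) (by positivity)
        refine h4.trans ?_
        have h5 : (2 : ℝ) ≤ (N : ℝ) ^ (1 / 4 : ℝ) := by
          have g1 : (16 : ℝ) ≤ N := by exact_mod_cast hN16
          calc (2 : ℝ) = (16 : ℝ) ^ (1 / 4 : ℝ) := by
                rw [show (16 : ℝ) = 2 ^ (4 : ℝ) by norm_num, ← Real.rpow_mul (by norm_num)]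
                norm_num
            _ ≤ (N : ℝ) ^ (1 / 4 : ℝ) := Real.rpow_le_rpow (by norm_num) g1 (by norm_num)
        calc (2 * D * Q : ℝ) ≤ (N : ℝ) ^ (1 / 4 : ℝ) * (N : ℝ) ^ θ' * (N : ℝ) ^ (1 / 100 : ℝ) := by
              refine mul_le_mul (mul_le_mul h5 hDθ' (by positivity) (by positivity)) q2
                (by positivity) (by positivity)
          _ = (N : ℝ) ^ (1 / 4 + θ' + 1 / 100 : ℝ) := by
              rw [Real.rpow_add hN0, Real.rpow_add hN0]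
          _ ≤ (N : ℝ) ^ (9 / 10 : ℝ) :=
              Real.rpow_le_rpow_of_exponent_le hN1 (by linarith)
      · have hD' : (D : ℝ) ≤ N := by exact_mod_cast hDN
        have hL2 : LL N ^ 2 ≤ 403 ^ 2 * N := by
          unfold LL
          rw [mul_pow]
          refine mul_le_mul_of_nonneg_left ?_ (by positivity)
          rw [← Real.rpow_natCast, ← Real.rpow_mul hN0.le]
          calc (N : ℝ) ^ ((1 / 200 : ℝ) * ((2 : ℕ) : ℝ)) ≤ (N : ℝ) ^ (1 : ℝ) :=
                Real.rpow_le_rpow_of_exponent_le hN1 (by norm_num)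
            _ = N := Real.rpow_one _
        calc ((2 * D : ℝ)) ^ 2 * (3 * LL N ^ 2 * (1 / (N : ℝ) ^ 5))
            ≤ (2 * N) ^ 2 * (3 * (403 ^ 2 * N) * (1 / (N : ℝ) ^ 5)) := by
              refine mul_le_mul ?_ ?_ (by positivity) (by positivity)
              · exact pow_le_pow_left₀ (by positivity) (by linarith) 2
              · refine mul_le_mul_of_nonneg_right ?_ (by positivity)
                linarith
          _ = 12 * 403 ^ 2 * (1 / (N : ℝ) ^ 2) := by field_simp; ring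
          _ ≤ 12 * 403 ^ 2 * 1 := by
              refine mul_le_mul_of_nonneg_left ?_ (by positivity)
              rw [div_le_one (by positivity)]
              exact one_le_pow₀ hN1
          _ ≤ 12 * 403 ^ 2 * (N : ℝ) ^ (1 - η) :=
              mul_le_mul_of_nonneg_left hpow1 (by positivity)
    rw [h1]
    refine (abs_add_le _ _).trans ?_
    linarith
  -- the points a and a'
  have hLLp : LL N * LL N = 403 ^ 2 * (N : ℝ) ^ (1 / 100 : ℝ) := by
    unfold LL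
    have : (N : ℝ) ^ (1 / 100 : ℝ) = (N : ℝ) ^ (1 / 200 : ℝ) * (N : ℝ) ^ (1 / 200 : ℝ) := by
      rw [← Real.rpow_add hN0]; norm_num
    rw [this]; ring
  have e3 : ∀ (w x y : ℝ), 0 ≤ w → w ≤ 1 → |x| ≤ (2 * D : ℕ) * LL N →
      |y| ≤ tau (a' - a).natAbs * LL N → |w * (x * y)| ≤ 2 * Ct * 403 ^ 2 * (N : ℝ) ^ (1 - η) := by
    intro w x y hw0 hw1 hx hy
    have hT0 : 0 ≤ tau (a' - a).natAbs := by unfold tau; positivity
    rw [abs_mul, abs_mul, abs_of_nonneg hw0]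
    calc w * (|x| * |y|) ≤ 1 * (((2 * D : ℕ) * LL N) * (tau (a' - a).natAbs * LL N)) := by
          refine mul_le_mul hw1 (mul_le_mul hx hy (abs_nonneg _) (by positivity))
            (by positivity) zero_le_one
      _ = 2 * D * tau (a' - a).natAbs * (LL N * LL N) := by push_cast; ring
      _ ≤ 2 * (N : ℝ) ^ θ' * (Ct * (N : ℝ) ^ (1 / 200 : ℝ)) *
          (403 ^ 2 * (N : ℝ) ^ (1 / 100 : ℝ)) := by
          rw [hLLp]
          refine mul_le_mul_of_nonneg_right ?_ (by positivity)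
          refine mul_le_mul (by linarith) htauN hT0 (by positivity)
      _ = 2 * Ct * 403 ^ 2 * (N : ℝ) ^ (θ' + 1 / 200 + 1 / 100 : ℝ) := by
          rw [Real.rpow_add hN0, Real.rpow_add hN0]; ring
      _ ≤ 2 * Ct * 403 ^ 2 * (N : ℝ) ^ (1 - η) := by
          refine mul_le_mul_of_nonneg_left ?_ (by positivity)
          exact Real.rpow_le_rpow_of_exponent_le hN1 (by linarith)
  have hL0 : 0 ≤ LL N := by linarith
  have e4 : |Wt N a * (rho (uu c (2 * D) Q) (2 * D) a a * rho (uu c' (2 * D) Q) (2 * D) a' a)| ≤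
      2 * Ct * 403 ^ 2 * (N : ℝ) ^ (1 - η) := by
    refine e3 _ _ _ (Wt_pos N a).le (Wt_le_one N a) (abs_rho_le _ _ _ _ _ hL0 bu) ?_
    have h1 := abs_rho_le_tau (uu c' (2 * D) Q) (2 * D) a' a (LL N) hL0 bu' haa
    have h2 : (a - a').natAbs = (a' - a).natAbs := by omega
    rw [h2] at h1
    exact h1
  have e5 : |Wt N a' * (rho (uu c (2 * D) Q) (2 * D) a a' *
      rho (uu c' (2 * D) Q) (2 * D) a' a')| ≤ 2 * Ct * 403 ^ 2 * (N : ℝ) ^ (1 - η) := by
    rw [mul_comm (rho (uu c (2 * D) Q) (2 * D) a a')]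
    exact e3 _ _ _ (Wt_pos N a').le (Wt_le_one N a') (abs_rho_le _ _ _ _ _ hL0 bu')
      (abs_rho_le_tau (uu c (2 * D) Q) (2 * D) a a' (LL N) hL0 bu (Ne.symm haa))
  have f0 : 0 ≤ C₀ * (N : ℝ) ^ (1 - η) := by positivity
  refine (abs_sub _ _).trans ?_
  refine (add_le_add (abs_add_le _ _) (abs_add_le _ _)).trans ?_
  have f1 : (C₀ + Cb + 16 * Ct + 12 * 403 ^ 2 + 4 * Ct * 403 ^ 2) * (N : ℝ) ^ (1 - η) =
      C₀ * (N : ℝ) ^ (1 - η) + (16 * Ct * (N : ℝ) ^ (1 - η) +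
      (Cb + 12 * 403 ^ 2) * (N : ℝ) ^ (1 - η) + (2 * Ct * 403 ^ 2 * (N : ℝ) ^ (1 - η) +
        2 * Ct * 403 ^ 2 * (N : ℝ) ^ (1 - η))) := by ring
  rw [f1]
  linarith

end Pool.Agent.H442R2.KF
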