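import Mathlib

/-!
KF project (helper442): definitions.

Bilinear forms with Kloosterman fractions and the level of distribution of the primes beyond
one half for all but `(log x)^B` residues.
-/

namespace Pool.Agent.H442R2.KF

open Finset

/-- the additive character `e(x) = exp(2πix)` -/
noncomputable def e (x : ℝ) : ℂ := Complex.exp (((2 * Real.pi * x : ℝ) : ℂ) * Complex.I)

lemma norm_e (x : ℝ) : ‖e x‖ = 1 := by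
  unfold e
  exact Complex.norm_exp_ofReal_mul_I _

lemma e_add (x y : ℝ) : e (x + y) = e x * e y := by
  unfold e
  rw [← Complex.exp_add]
  congr 1
  push_cast
  ring

lemma conj_e (x : ℝ) : (starRingEnd ℂ) (e x) = e (-x) := by
  unfold e
  rw [← Complex.exp_conj]
  congr 1
  rw [map_mul, Complex.conj_ofReal, Complex.conj_I]
  push_cast
  ring

lemma e_zero : e 0 = 1 := by simp [e]

lemma e_int (n : ℤ) : e (n : ℝ) = 1 := by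
  unfold e
  rw [Complex.exp_eq_one_iff]
  exact ⟨n, by push_cast; ring⟩

/-- `e x = e y` if `x - y` is an integer -/
lemma e_congr {x y : ℝ} (n : ℤ) (h : x = y + n) : e x = e y := by
  rw [h, e_add, e_int, mul_one]

lemma e_neg (x : ℝ) : e (-x) = (e x)⁻¹ := by
  have h : e x * e (-x) = 1 := by rw [← e_add, add_neg_cancel, e_zero]
  exact (inv_eq_of_mul_eq_one_right h).symm

lemma norm_e_sub_le (x y : ℝ) : ‖e x - e y‖ ≤ 2 * Real.pi * |x - y| := by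
  have h1 : e x - e y = e y * (e (x - y) - 1) := by
    rw [mul_sub, ← e_add, mul_one]; congr 2; ring
  rw [h1, norm_mul, norm_e, one_mul]
  have h2 : e (x - y) = Complex.exp (Complex.I * ((2 * Real.pi * (x - y) : ℝ) : ℂ)) := by
    unfold e; rw [mul_comm]
  rw [h2]
  refine (Real.norm_exp_I_mul_ofReal_sub_one_le).trans ?_
  rw [Real.norm_eq_abs, abs_mul, abs_of_pos (by positivity : (0:ℝ) < 2 * Real.pi)]

/-- the Kloosterman fraction `e(b m̄ / n)`, `m̄` the inverse of `m` modulo `n` -/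
noncomputable def kf (b m : ℤ) (n : ℕ) : ℂ :=
  e ((b : ℝ) * ((((m : ZMod n)⁻¹).val : ℕ) : ℝ) / (n : ℝ))

lemma norm_kf (b m : ℤ) (n : ℕ) : ‖kf b m n‖ = 1 := norm_e _

/-- number of divisors -/
noncomputable def tau (n : ℕ) : ℝ := (n.divisors.card : ℝ)

/-- Ramanujan sum `∑_{e | q, e | h} μ(q/e) e` -/
noncomputable def ram (q : ℕ) (h : ℤ) : ℝ :=
  ∑ d ∈ q.divisors.filter (fun d : ℕ => (d : ℤ) ∣ h), (ArithmeticFunction.moebius (q / d) : ℝ) * d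

/-! ### The quadruple sum behind the bilinear forms -/

/-- primes in `(L, 2L]` -/
def PL (L : ℕ) : Finset ℕ := (Ioc L (2 * L)).filter Nat.Prime

/-- parameters `(l₁, l₂, t)` -/
noncomputable def Par (L : ℕ) : Finset (ℕ × ℕ × ℤ) :=
  (PL L ×ˢ PL L ×ˢ Icc (-(4 * L : ℤ)) (4 * L)).filter (fun p =>
    p.1 ≠ p.2.1 ∧ p.2.2 ≠ 0 ∧ ¬ (p.1 : ℤ) ∣ p.2.2 ∧ ¬ (p.2.1 : ℤ) ∣ p.2.2)

/-- `n = (l₂ m₁ - l₁ m₂)/t` (as a natural number) -/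
def nu (p : ℕ × ℕ × ℤ) (m₁ m₂ : ℕ) : ℕ :=
  (((p.2.1 : ℤ) * m₁ - (p.1 : ℤ) * m₂) / p.2.2).toNat

/-- admissible pairs -/
def adm (M : ℕ) (p : ℕ × ℕ × ℤ) (m₁ m₂ : ℕ) : Prop :=
  ¬ p.2.1 ∣ m₂ ∧ p.2.2 ∣ ((p.2.1 : ℤ) * m₁ - (p.1 : ℤ) * m₂) ∧
    nu p m₁ m₂ ∈ Ioc M (2 * M + 1) ∧ Nat.Coprime (nu p m₁ m₂) (p.1 * m₂)

instance (M : ℕ) (p : ℕ × ℕ × ℤ) (m₁ m₂ : ℕ) : Decidable (adm M p m₁ m₂) := by
  unfold adm; infer_instance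

/-- one term -/
noncomputable def tm (ψ : ℝ → ℂ) (b : ℤ) (M : ℕ) (p : ℕ × ℕ × ℤ) (m₁ m₂ : ℕ) : ℂ :=
  if adm M p m₁ m₂ then
    ψ ((m₁ : ℝ) * (nu p m₁ m₂ : ℝ)) * (starRingEnd ℂ) (ψ ((m₂ : ℝ) * (nu p m₁ m₂ : ℝ))) *
      (kf b m₁ (nu p m₁ m₂) * (starRingEnd ℂ) (kf b m₂ (nu p m₁ m₂)))
  else 0

/-- the kernel `K(m₁, m₂)` -/
noncomputable def Ker (ψ : ℝ → ℂ) (b : ℤ) (M L m₁ m₂ : ℕ) : ℂ :=
  ∑ p ∈ Par L, tm ψ b M p m₁ m₂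

/-- `B₁` -/
def Bq (p p' : ℕ × ℕ × ℤ) : ℤ :=
  ((p.2.1 : ℤ) - p.1) * p.2.2 * p'.1 * p'.2.1 - ((p'.2.1 : ℤ) - p'.1) * p'.2.2 * p.1 * p.2.1

/-- the product of all bad parameters -/
def PiQ (b : ℤ) (p p' : ℕ × ℕ × ℤ) : ℕ :=
  (b * Bq p p' * p.2.2 * p'.2.2 * p.1 * p.2.1 * p'.1 * p'.2.1).natAbs

/-- the good squarefree part of `m`: primes exactly dividing `m`, not dividing `G` -/
def qp (G m : ℕ) : ℕ := ∏ r ∈ m.primeFactors.filter (fun r => ¬ r ∣ G ∧ ¬ r ^ 2 ∣ m), r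

/-- the remaining part of `m` -/
def vp (G m : ℕ) : ℕ := m / qp G m

/-- the real version of `nu` -/
noncomputable def nuR (p : ℕ × ℕ × ℤ) (m₂ : ℕ) (s : ℝ) : ℝ :=
  ((p.2.1 : ℝ) * s - (p.1 : ℝ) * m₂) / (p.2.2 : ℝ)

/-- the smooth weight attached to a parameter -/
noncomputable def Om (ψ : ℝ → ℂ) (b : ℤ) (p : ℕ × ℕ × ℤ) (m₂ : ℕ) (s : ℝ) : ℂ :=
  ψ (s * nuR p m₂ s) * (starRingEnd ℂ) (ψ ((m₂ : ℝ) * nuR p m₂ s)) *
    e ((b : ℝ) * ((p.2.1 : ℝ) - p.1) / (nuR p m₂ s * p.1 * m₂))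

/-- weights: bounded by one and Lipschitz on `[M², ∞)` -/
structure Wei (M : ℕ) (V : ℝ) (ψ : ℝ → ℂ) : Prop where
  bd : ∀ s : ℝ, (M : ℝ) ^ 2 ≤ s → ‖ψ s‖ ≤ 1
  lip : ∀ s s' : ℝ, (M : ℝ) ^ 2 ≤ s → (M : ℝ) ^ 2 ≤ s' → ‖ψ s - ψ s'‖ ≤ V * |s - s'| / (M : ℝ) ^ 2

/-! ### The Gaussian correlation sums -/

/-- Gaussian weight -/
noncomputable def Wt (N : ℕ) (n : ℤ) : ℝ := Real.exp (-Real.pi * ((n : ℝ) / N) ^ 2)

/-- `∑_n W(n) 1_{d | n-a} 1_{d' | n-a'}` -/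
noncomputable def SS (N : ℕ) (a a' : ℤ) (d d' : ℕ) : ℝ :=
  ∑' n : ℤ, if ((d : ℤ) ∣ n - a ∧ (d' : ℤ) ∣ n - a') then Wt N n else 0

/-- `F_h(g) = g` if `g | h`, `0` otherwise -/
noncomputable def Fh (h : ℤ) (g : ℕ) : ℝ := if (g : ℤ) ∣ h then (g : ℝ) else 0

/-- `∑_{d ≤ X, q | d} u(d)/d` -/
noncomputable def uh (u : ℕ → ℝ) (X q : ℕ) : ℝ :=
  ∑ d ∈ (Icc 1 X).filter (fun d => q ∣ d), u d / d

/-- the weights of the model -/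
noncomputable def ww (c : ℕ → ℝ) (X Q d : ℕ) : ℝ :=
  if 1 ≤ d ∧ d ≤ Q then
    (d : ℝ) * ∑ q ∈ (Icc 1 Q).filter (fun q => d ∣ q),
      (ArithmeticFunction.moebius (q / d) : ℝ) * uh c X q
  else 0

/-- `c - w` -/
noncomputable def uu (c : ℕ → ℝ) (X Q d : ℕ) : ℝ := c d - ww c X Q d

/-- `ρ_a(n) = ∑_{d ≤ X, d | n - a} u(d)` -/
noncomputable def rho (u : ℕ → ℝ) (X : ℕ) (a n : ℤ) : ℝ :=
  ∑ d ∈ (Icc 1 X).filter (fun d : ℕ => (d : ℤ) ∣ n - a), u d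

/-- `r_a(n)`: `ρ_a(n)` without the value at `n = a` -/
noncomputable def rr (u : ℕ → ℝ) (X : ℕ) (a n : ℤ) : ℝ := if n = a then 0 else rho u X a n

/-- coefficients: bounded by one, supported on `(D, 2D]` -/
structure Cof (D : ℕ) (c : ℕ → ℝ) : Prop where
  bd : ∀ d, |c d| ≤ 1
  supp : ∀ d, d ∉ Ioc D (2 * D) → c d = 0

/-- `Q = ⌊N^{1/100}⌋` -/
noncomputable def QN (N : ℕ) : ℕ := ⌊(N : ℝ) ^ (1 / 100 : ℝ)⌋₊

/-! ### Primes -/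

/-- the number of primes `p ≤ x` -/
def piN (x : ℕ) : ℕ := ((Icc 1 x).filter (fun p : ℕ => p.Prime)).card

/-- the number of primes `p ≤ x`, `p ≡ a (mod d)` -/
def piAP (x d a : ℕ) : ℕ := ((Icc 1 x).filter (fun p : ℕ => p.Prime ∧ p ≡ a [MOD d])).card

/-- `π(x;d,a) - π(x)/φ(d)` -/
noncomputable def Er (x d a : ℕ) : ℝ := (piAP x d a : ℝ) - (piN x : ℝ) / (Nat.totient d : ℝ)

end Pool.Agent.H442R2.KF
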