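import Pool.Agent.H442R2.KF.Defs
import Pool.Agent.H442R2.KF.SumV
import Pool.Agent.H442R2.KF.Bz
import Pool.Agent.H442R2.KF.Cnt
import Pool.Agent.Helper112.Arith

/-!
KF project, task I (helper106): Hilbert-Schmidt bound of the kernel.
-/

namespace Pool.Agent.H442R2.KF

open Finset

namespace TaskI

/-- statement of task F (`fixed_m2`) -/
def FixedM2 : Prop := ∀ (M L : ℕ) (_ : 1 ≤ M) (_ : 1 ≤ L) (V : ℝ) (_ : 1 ≤ V) (ψ : ℝ → ℂ)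
    (_ : Wei M V ψ) (b : ℤ) (_ : |(b : ℝ)| ≤ V * (M : ℝ) ^ 2)
    (p p' : ℕ × ℕ × ℤ) (_ : p ∈ Par L) (_ : p' ∈ Par L) (_ : PiQ b p p' ≠ 0)
    (m₂ : ℕ) (_ : m₂ ∈ Ioc M (2 * M + 1)),
    ‖∑ m₁ ∈ Ioc M (2 * M + 1), tm ψ b M p m₁ m₂ * (starRingEnd ℂ) (tm ψ b M p' m₁ m₂)‖ ≤
      3000 * V * (L : ℝ) ^ 2 * Nat.gcd p.2.2.natAbs p'.2.2.natAbs *
        Real.sqrt (vp (PiQ b p p') m₂) * Real.sqrt M * tau m₂ * (1 + Real.log M)

lemma norm_tm_le (M : ℕ) (V : ℝ) (ψ : ℝ → ℂ) (hψ : Wei M V ψ) (b : ℤ)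
    (p : ℕ × ℕ × ℤ) (m₁ m₂ : ℕ) (h1 : m₁ ∈ Ioc M (2 * M + 1)) (h2 : m₂ ∈ Ioc M (2 * M + 1)) :
    ‖tm ψ b M p m₁ m₂‖ ≤ if adm M p m₁ m₂ then 1 else 0 := by
  unfold tm
  split_ifs with h
  · have hn : nu p m₁ m₂ ∈ Ioc M (2 * M + 1) := h.2.2.1
    rw [mem_Ioc] at h1 h2 hn
    have e1 : (M : ℝ) ≤ m₁ := by exact_mod_cast h1.1.le
    have e2 : (M : ℝ) ≤ m₂ := by exact_mod_cast h2.1.le
    have e3 : (M : ℝ) ≤ nu p m₁ m₂ := by exact_mod_cast hn.1.le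
    have a1 : ‖ψ ((m₁ : ℝ) * (nu p m₁ m₂ : ℝ))‖ ≤ 1 := by
      apply hψ.bd
      rw [sq]
      exact mul_le_mul e1 e3 (by positivity) (by positivity)
    have a2 : ‖ψ ((m₂ : ℝ) * (nu p m₁ m₂ : ℝ))‖ ≤ 1 := by
      apply hψ.bd
      rw [sq]
      exact mul_le_mul e2 e3 (by positivity) (by positivity)
    rw [norm_mul, norm_mul, norm_mul, RCLike.norm_conj, RCLike.norm_conj, norm_kf, norm_kf,
      mul_one, mul_one]
    exact mul_le_one₀ a1 (norm_nonneg _) a2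
  · simp

lemma sum_Ker_sq (ψ : ℝ → ℂ) (b : ℤ) (M L : ℕ) (S : Finset ℕ) :
    ∑ m₁ ∈ S, ∑ m₂ ∈ S, ‖Ker ψ b M L m₁ m₂‖ ^ 2 ≤
      ∑ p ∈ Par L, ∑ p' ∈ Par L, ‖∑ m₂ ∈ S, ∑ m₁ ∈ S,
        tm ψ b M p m₁ m₂ * (starRingEnd ℂ) (tm ψ b M p' m₁ m₂)‖ := by
  have key : ((∑ m₁ ∈ S, ∑ m₂ ∈ S, ‖Ker ψ b M L m₁ m₂‖ ^ 2 : ℝ) : ℂ) =
      ∑ p ∈ Par L, ∑ p' ∈ Par L, ∑ m₂ ∈ S, ∑ m₁ ∈ S,
        tm ψ b M p m₁ m₂ * (starRingEnd ℂ) (tm ψ b M p' m₁ m₂) := by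
    push_cast
    have h1 : ∀ m₁ m₂, ((‖Ker ψ b M L m₁ m₂‖ : ℂ)) ^ 2 =
        ∑ p ∈ Par L, ∑ p' ∈ Par L,
          tm ψ b M p m₁ m₂ * (starRingEnd ℂ) (tm ψ b M p' m₁ m₂) := by
      intro m₁ m₂
      rw [← Complex.mul_conj']
      unfold Ker
      rw [map_sum, Finset.sum_mul_sum]
    simp_rw [h1]
    rw [Finset.sum_comm]
    rw [Finset.sum_congr rfl (fun m₂ _ => Finset.sum_comm)]
    rw [Finset.sum_comm]
    refine Finset.sum_congr rfl (fun p _ => ?_)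
    rw [Finset.sum_congr rfl (fun m₂ _ => Finset.sum_comm)]
    rw [Finset.sum_comm]
  have h0 : (0 : ℝ) ≤ ∑ m₁ ∈ S, ∑ m₂ ∈ S, ‖Ker ψ b M L m₁ m₂‖ ^ 2 :=
    Finset.sum_nonneg (fun _ _ => Finset.sum_nonneg (fun _ _ => by positivity))
  have h2 : (∑ m₁ ∈ S, ∑ m₂ ∈ S, ‖Ker ψ b M L m₁ m₂‖ ^ 2 : ℝ) =
      ‖((∑ m₁ ∈ S, ∑ m₂ ∈ S, ‖Ker ψ b M L m₁ m₂‖ ^ 2 : ℝ) : ℂ)‖ := by
    rw [Complex.norm_of_nonneg h0]
  rw [h2, key]
  refine (norm_sum_le _ _).trans (Finset.sum_le_sum (fun p _ => ?_))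
  exact norm_sum_le _ _

lemma PL_pos {L l : ℕ} (h : l ∈ PL L) : l.Prime ∧ L < l ∧ l ≤ 2 * L := by
  unfold PL at h
  rw [mem_filter, mem_Ioc] at h
  exact ⟨h.2, h.1.1, h.1.2⟩

lemma Par_facts {L : ℕ} {p : ℕ × ℕ × ℤ} (h : p ∈ Par L) :
    p.1 ∈ PL L ∧ p.2.1 ∈ PL L ∧ |p.2.2| ≤ 4 * L ∧ p.2.2 ≠ 0 := by
  unfold Par at h
  rw [mem_filter, mem_product, mem_product, mem_Icc] at h
  obtain ⟨⟨h1, h2, h3, h4⟩, h5, h6, h7, h8⟩ := h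
  exact ⟨h1, h2, abs_le.mpr ⟨h3, h4⟩, h6⟩

lemma Bq_of_PiQ {L : ℕ} {b : ℤ} (hb : b ≠ 0) {p p' : ℕ × ℕ × ℤ} (hp : p ∈ Par L)
    (hp' : p' ∈ Par L) (h : PiQ b p p' = 0) : Bq p p' = 0 := by
  obtain ⟨a1, a2, a3, a4⟩ := Par_facts hp
  obtain ⟨b1, b2, b3, b4⟩ := Par_facts hp'
  have c1 : (p.1 : ℤ) ≠ 0 := by exact_mod_cast (PL_pos a1).1.ne_zero
  have c2 : (p.2.1 : ℤ) ≠ 0 := by exact_mod_cast (PL_pos a2).1.ne_zero
  have c3 : (p'.1 : ℤ) ≠ 0 := by exact_mod_cast (PL_pos b1).1.ne_zero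
  have c4 : (p'.2.1 : ℤ) ≠ 0 := by exact_mod_cast (PL_pos b2).1.ne_zero
  unfold PiQ at h
  rw [Int.natAbs_eq_zero] at h
  simp only [mul_eq_zero, hb, a4, b4, c1, c2, c3, c4, or_false, false_or] at h
  exact h

lemma term_le (M : ℕ) (V : ℝ) (ψ : ℝ → ℂ) (hψ : Wei M V ψ) (b : ℤ)
    (p p' : ℕ × ℕ × ℤ) :
    ‖∑ m₂ ∈ Ioc M (2 * M + 1), ∑ m₁ ∈ Ioc M (2 * M + 1),
        tm ψ b M p m₁ m₂ * (starRingEnd ℂ) (tm ψ b M p' m₁ m₂)‖ ≤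
      (((Ioc M (2 * M + 1) ×ˢ Ioc M (2 * M + 1)).filter
        (fun m : ℕ × ℕ => adm M p m.1 m.2)).card : ℝ) := by
  have h1 : ‖∑ m₂ ∈ Ioc M (2 * M + 1), ∑ m₁ ∈ Ioc M (2 * M + 1),
        tm ψ b M p m₁ m₂ * (starRingEnd ℂ) (tm ψ b M p' m₁ m₂)‖ ≤
      ∑ m₂ ∈ Ioc M (2 * M + 1), ∑ m₁ ∈ Ioc M (2 * M + 1),
        (if adm M p m₁ m₂ then (1 : ℝ) else 0) := by
    refine (norm_sum_le _ _).trans (Finset.sum_le_sum (fun m₂ hm₂ => ?_))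
    refine (norm_sum_le _ _).trans (Finset.sum_le_sum (fun m₁ hm₁ => ?_))
    rw [norm_mul, RCLike.norm_conj]
    have h2 := norm_tm_le M V ψ hψ b p m₁ m₂ hm₁ hm₂
    have h3 := norm_tm_le M V ψ hψ b p' m₁ m₂ hm₁ hm₂
    have h4 : ‖tm ψ b M p' m₁ m₂‖ ≤ 1 := h3.trans (by split_ifs <;> norm_num)
    calc ‖tm ψ b M p m₁ m₂‖ * ‖tm ψ b M p' m₁ m₂‖ ≤ ‖tm ψ b M p m₁ m₂‖ * 1 :=
          mul_le_mul_of_nonneg_left h4 (norm_nonneg _)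
      _ ≤ _ := by rw [mul_one]; exact h2
  refine h1.trans (le_of_eq ?_)
  rw [Finset.sum_comm, ← Finset.sum_product', Finset.card_filter]
  push_cast
  rfl

lemma PiQ_le (L M : ℕ) (hL : 1 ≤ L) (hLM : L ≤ M) (V : ℝ) (b : ℤ)
    (hb : |(b : ℝ)| ≤ V * (M : ℝ) ^ 2) (p p' : ℕ × ℕ × ℤ) (hp : p ∈ Par L)
    (hp' : p' ∈ Par L) : (PiQ b p p' : ℝ) ≤ 8192 * V * (M : ℝ) ^ 12 := by
  obtain ⟨a1, a2, a3, a4⟩ := Par_facts hp
  obtain ⟨b1, b2, b3, b4⟩ := Par_facts hp'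
  obtain ⟨-, c1, c1'⟩ := PL_pos a1
  obtain ⟨-, c2, c2'⟩ := PL_pos a2
  obtain ⟨-, d1, d1'⟩ := PL_pos b1
  obtain ⟨-, d2, d2'⟩ := PL_pos b2
  have hcast : (PiQ b p p' : ℝ) = |(b : ℝ)| * |((Bq p p' : ℤ) : ℝ)| * |(p.2.2 : ℝ)| *
      |(p'.2.2 : ℝ)| * p.1 * p.2.1 * p'.1 * p'.2.1 := by
    unfold PiQ
    rw [Nat.cast_natAbs]
    push_cast
    simp only [abs_mul, Nat.abs_cast]
  have t1 : |(p.2.2 : ℝ)| ≤ 4 * L := by exact_mod_cast a3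
  have t2 : |(p'.2.2 : ℝ)| ≤ 4 * L := by exact_mod_cast b3
  have l1 : (p.1 : ℝ) ≤ 2 * L := by exact_mod_cast c1'
  have l2 : (p.2.1 : ℝ) ≤ 2 * L := by exact_mod_cast c2'
  have l3 : (p'.1 : ℝ) ≤ 2 * L := by exact_mod_cast d1'
  have l4 : (p'.2.1 : ℝ) ≤ 2 * L := by exact_mod_cast d2'
  have k1 : (L : ℝ) ≤ p.1 := by exact_mod_cast c1.le
  have k2 : (L : ℝ) ≤ p.2.1 := by exact_mod_cast c2.le
  have k3 : (L : ℝ) ≤ p'.1 := by exact_mod_cast d1.le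
  have k4 : (L : ℝ) ≤ p'.2.1 := by exact_mod_cast d2.le
  have hL0 : (0 : ℝ) ≤ L := by positivity
  have hB : |((Bq p p' : ℤ) : ℝ)| ≤ 32 * (L : ℝ) ^ 4 := by
    unfold Bq
    push_cast
    have e1 : |((p.2.1 : ℝ) - p.1) * p.2.2 * p'.1 * p'.2.1| ≤ L * (4 * L) * (2 * L) * (2 * L) := by
      rw [abs_mul, abs_mul, abs_mul, Nat.abs_cast, Nat.abs_cast]
      have : |(p.2.1 : ℝ) - p.1| ≤ L := by rw [abs_le]; constructor <;> linarith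
      gcongr
    have e2 : |((p'.2.1 : ℝ) - p'.1) * p'.2.2 * p.1 * p.2.1| ≤
        L * (4 * L) * (2 * L) * (2 * L) := by
      rw [abs_mul, abs_mul, abs_mul, Nat.abs_cast, Nat.abs_cast]
      have : |(p'.2.1 : ℝ) - p'.1| ≤ L := by rw [abs_le]; constructor <;> linarith
      gcongr
    refine (abs_sub _ _).trans ?_
    refine (add_le_add e1 e2).trans (le_of_eq ?_)
    ring
  rw [hcast]
  have hV0 : 0 ≤ V * (M : ℝ) ^ 2 := (abs_nonneg _).trans hb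
  have hLM' : (L : ℝ) ≤ M := by exact_mod_cast hLM
  calc _ ≤ (V * (M : ℝ) ^ 2) * (32 * (L : ℝ) ^ 4) * (4 * L) * (4 * L) * (2 * L) * (2 * L) *
        (2 * L) * (2 * L) := by gcongr
    _ = 8192 * ((V * (M : ℝ) ^ 2) * (L : ℝ) ^ 10) := by ring
    _ ≤ 8192 * ((V * (M : ℝ) ^ 2) * (M : ℝ) ^ 10) := by gcongr
    _ = 8192 * V * (M : ℝ) ^ 12 := by ring

lemma one_add_log_le {e' : ℝ} (he : 0 < e') {x : ℝ} (hx : 1 ≤ x) :
    1 + Real.log x ≤ (1 + 1 / e') * x ^ e' := by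
  have h1 := Real.log_le_rpow_div (by linarith : 0 ≤ x) he
  have h2 : 1 ≤ x ^ e' := Real.one_le_rpow hx he.le
  have h3 : (1 + 1 / e') * x ^ e' = x ^ e' + x ^ e' / e' := by ring
  rw [h3]
  linarith

lemma log_three_le : Real.log 3 ≤ 2 := by
  have := Real.log_le_sub_one_of_pos (by norm_num : (0 : ℝ) < 3)
  linarith

lemma log_four_le : Real.log 4 ≤ 2 := by
  have h : Real.log 4 = 2 * Real.log 2 := by
    rw [show (4 : ℝ) = 2 ^ 2 by norm_num, Real.log_pow]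
    norm_num
  have := Real.log_le_sub_one_of_pos (by norm_num : (0 : ℝ) < 2)
  linarith

/-- one pair with `PiQ ≠ 0` -/
lemma off_term (hF : FixedM2) (e' : ℝ) (he : 0 < e') (he1 : e' ≤ 1) (C₁ : ℝ) (hC₁ : 0 < C₁)
    (hdiv : ∀ n : ℕ, 1 ≤ n → (n.divisors.card : ℝ) ≤ C₁ * (n : ℝ) ^ e')
    (M L : ℕ) (hM : 1 ≤ M) (hL : 1 ≤ L) (hLM : L ≤ M) (V : ℝ) (hV : 1 ≤ V) (ψ : ℝ → ℂ)
    (hψ : Wei M V ψ) (b : ℤ) (hb : |(b : ℝ)| ≤ V * (M : ℝ) ^ 2)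
    (p p' : ℕ × ℕ × ℤ) (hp : p ∈ Par L) (hp' : p' ∈ Par L) (hG : PiQ b p p' ≠ 0) :
    ‖∑ m₂ ∈ Ioc M (2 * M + 1), ∑ m₁ ∈ Ioc M (2 * M + 1),
        tm ψ b M p m₁ m₂ * (starRingEnd ℂ) (tm ψ b M p' m₁ m₂)‖ ≤
      (3000 * 9 * 3 * 3 * 8192 * (1 + 1 / e') ^ 2 * C₁ ^ 2) * V ^ 2 * (L : ℝ) ^ 2 *
        (M : ℝ) ^ (3 / 2 : ℝ) * ((M : ℝ) ^ e') ^ 15 * Nat.gcd p.2.2.natAbs p'.2.2.natAbs := by
  set G := PiQ b p p' with hGdef
  have hM1 : (1 : ℝ) ≤ M := by exact_mod_cast hM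
  have hM0 : (0 : ℝ) < M := by linarith
  set x : ℝ := (M : ℝ) ^ e' with hx
  have hx1 : 1 ≤ x := Real.one_le_rpow hM1 he.le
  set K : ℝ := 1 + 1 / e' with hK
  have hK0 : 0 < K := by positivity
  have hlog : 1 + Real.log M ≤ K * x := one_add_log_le he hM1
  have hlog0 : 0 ≤ Real.log M := Real.log_nonneg hM1
  have htau : ∀ m₂ ∈ Ioc M (2 * M + 1), tau m₂ ≤ C₁ * (3 * x) := by
    intro m₂ hm₂
    rw [mem_Ioc] at hm₂
    have h1 := hdiv m₂ (by omega)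
    have h2 : (m₂ : ℝ) ≤ 3 * M := by
      have : m₂ ≤ 3 * M := by omega
      exact_mod_cast this
    have h3 : (m₂ : ℝ) ^ e' ≤ 3 * x := by
      calc (m₂ : ℝ) ^ e' ≤ (3 * (M : ℝ)) ^ e' := Real.rpow_le_rpow (by positivity) h2 he.le
        _ = 3 ^ e' * x := by rw [Real.mul_rpow (by norm_num) hM0.le]
        _ ≤ 3 ^ (1 : ℝ) * x := by
          gcongr
          norm_num
        _ = 3 * x := by rw [Real.rpow_one]
    unfold tau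
    exact h1.trans (mul_le_mul_of_nonneg_left h3 hC₁.le)
  have htauG : tau G ≤ C₁ * (8192 * V * x ^ 12) := by
    have h1 := hdiv G (Nat.one_le_iff_ne_zero.mpr hG)
    have h2 := PiQ_le L M hL hLM V b hb p p' hp hp'
    have h3 : (G : ℝ) ^ e' ≤ 8192 * V * x ^ 12 := by
      calc (G : ℝ) ^ e' ≤ ((8192 * V) * (M : ℝ) ^ 12) ^ e' :=
            Real.rpow_le_rpow (by positivity) h2 he.le
        _ = (8192 * V) ^ e' * ((M : ℝ) ^ 12) ^ e' := by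
            rw [Real.mul_rpow (by positivity) (by positivity)]
        _ = (8192 * V) ^ e' * x ^ 12 := by
            have h12 : ((M : ℝ) ^ 12) ^ e' = x ^ 12 := by
              rw [hx, ← Real.rpow_natCast (M : ℝ) 12, ← Real.rpow_natCast ((M : ℝ) ^ e') 12,
                ← Real.rpow_mul hM0.le, ← Real.rpow_mul hM0.le, mul_comm e']
            rw [h12]
        _ ≤ (8192 * V) ^ (1 : ℝ) * x ^ 12 := by
          gcongr
          nlinarith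
        _ = 8192 * V * x ^ 12 := by rw [Real.rpow_one]
    unfold tau
    exact h1.trans (mul_le_mul_of_nonneg_left h3 hC₁.le)
  have hsum : ∑ m₂ ∈ Ioc M (2 * M + 1), Real.sqrt (vp G m₂) ≤
      3 * (3 * M) * (3 * (K * x)) * (C₁ * (8192 * V * x ^ 12)) := by
    have h1 := sum_vp (2 * M + 1) G (by omega) (Nat.pos_of_ne_zero hG)
    have h2 : ∑ m₂ ∈ Ioc M (2 * M + 1), Real.sqrt (vp G m₂) ≤
        ∑ m ∈ Icc 1 (2 * M + 1), Real.sqrt (vp G m) := by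
      apply Finset.sum_le_sum_of_subset_of_nonneg
      · intro m hm
        rw [mem_Ioc] at hm
        rw [mem_Icc]
        omega
      · intro i _ _
        exact Real.sqrt_nonneg _
    refine (h2.trans h1).trans ?_
    have h3 : ((2 * M + 1 : ℕ) : ℝ) ≤ 3 * M := by
      have : 2 * M + 1 ≤ 3 * M := by omega
      exact_mod_cast this
    have h4 : 1 + Real.log ((2 * M + 1 : ℕ) : ℝ) ≤ 3 * (K * x) := by
      have h5 : Real.log ((2 * M + 1 : ℕ) : ℝ) ≤ Real.log (3 * M) :=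
        Real.log_le_log (by positivity) h3
      rw [Real.log_mul (by norm_num) hM0.ne'] at h5
      have := log_three_le
      linarith
    have h6 : 0 ≤ tau G := by unfold tau; positivity
    have h7 : 0 ≤ Real.log ((2 * M + 1 : ℕ) : ℝ) := Real.log_natCast_nonneg _
    gcongr
  have hterm : ∀ m₂ ∈ Ioc M (2 * M + 1), ‖∑ m₁ ∈ Ioc M (2 * M + 1),
        tm ψ b M p m₁ m₂ * (starRingEnd ℂ) (tm ψ b M p' m₁ m₂)‖ ≤
      3000 * V * (L : ℝ) ^ 2 * Nat.gcd p.2.2.natAbs p'.2.2.natAbs * Real.sqrt M *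
        (C₁ * (3 * x)) * (K * x) * Real.sqrt (vp G m₂) := by
    intro m₂ hm₂
    have h1 := hF M L hM hL V hV ψ hψ b hb p p' hp hp' hG m₂ hm₂
    refine h1.trans ?_
    have h2 := htau m₂ hm₂
    calc _ = 3000 * V * (L : ℝ) ^ 2 * Nat.gcd p.2.2.natAbs p'.2.2.natAbs * Real.sqrt M *
        Real.sqrt (vp G m₂) * (tau m₂ * (1 + Real.log M)) := by ring
      _ ≤ 3000 * V * (L : ℝ) ^ 2 * Nat.gcd p.2.2.natAbs p'.2.2.natAbs * Real.sqrt M *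
        Real.sqrt (vp G m₂) * ((C₁ * (3 * x)) * (K * x)) := by gcongr
      _ = _ := by ring
  calc _ ≤ ∑ m₂ ∈ Ioc M (2 * M + 1), ‖∑ m₁ ∈ Ioc M (2 * M + 1),
        tm ψ b M p m₁ m₂ * (starRingEnd ℂ) (tm ψ b M p' m₁ m₂)‖ := norm_sum_le _ _
    _ ≤ ∑ m₂ ∈ Ioc M (2 * M + 1), 3000 * V * (L : ℝ) ^ 2 *
        Nat.gcd p.2.2.natAbs p'.2.2.natAbs * Real.sqrt M *
        (C₁ * (3 * x)) * (K * x) * Real.sqrt (vp G m₂) := Finset.sum_le_sum hterm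
    _ = 3000 * V * (L : ℝ) ^ 2 *
        Nat.gcd p.2.2.natAbs p'.2.2.natAbs * Real.sqrt M *
        (C₁ * (3 * x)) * (K * x) * ∑ m₂ ∈ Ioc M (2 * M + 1), Real.sqrt (vp G m₂) := by
        rw [Finset.mul_sum]
    _ ≤ 3000 * V * (L : ℝ) ^ 2 *
        Nat.gcd p.2.2.natAbs p'.2.2.natAbs * Real.sqrt M *
        (C₁ * (3 * x)) * (K * x) * (3 * (3 * M) * (3 * (K * x)) * (C₁ * (8192 * V * x ^ 12))) := by
        gcongr
    _ = (3000 * 9 * 3 * 3 * 8192 * K ^ 2 * C₁ ^ 2) * V ^ 2 * (L : ℝ) ^ 2 *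
        (Real.sqrt M * M) * x ^ 15 * Nat.gcd p.2.2.natAbs p'.2.2.natAbs := by ring
    _ = _ := by
        have : Real.sqrt M * M = (M : ℝ) ^ (3 / 2 : ℝ) := by
          rw [Real.sqrt_eq_rpow]
          nth_rewrite 2 [← Real.rpow_one (M : ℝ)]
          rw [← Real.rpow_add hM0]
          norm_num
        rw [this]

end TaskI

/-- I (HS.lean): Hilbert-Schmidt bound of the kernel, from the statement of task F -/
theorem HS_of (hF : TaskI.FixedM2) (ε : ℝ) (hε : 0 < ε) : ∃ C : ℝ, 0 < C ∧ ∀ (M L : ℕ), 1 ≤ M → 1 ≤ L → L ≤ M →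
    ∀ (V : ℝ), 1 ≤ V → ∀ ψ : ℝ → ℂ, Wei M V ψ → ∀ b : ℤ, b ≠ 0 → |(b : ℝ)| ≤ V * (M : ℝ) ^ 2 →
    ∑ m₁ ∈ Ioc M (2 * M + 1), ∑ m₂ ∈ Ioc M (2 * M + 1), ‖Ker ψ b M L m₁ m₂‖ ^ 2 ≤
      C * (M : ℝ) ^ ε * (((PL L).card : ℝ) ^ 2 * (M : ℝ) ^ 2 +
        V ^ 2 * (L : ℝ) ^ 4 * ((PL L).card : ℝ) ^ 4 * (M : ℝ) ^ (3 / 2 : ℝ)) := by
  classical
  set e' : ℝ := min 1 (ε / 16) with he'
  have he : 0 < e' := lt_min one_pos (by linarith)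
  have he1 : e' ≤ 1 := min_le_left _ _
  have he2 : 16 * e' ≤ ε := by
    have := min_le_right 1 (ε / 16)
    rw [← he'] at this
    linarith
  obtain ⟨C₁, hC₁, hdiv⟩ := Pool.Agent.Helper112.divisor_bound e' he
  set K : ℝ := 1 + 1 / e' with hK
  have hK0 : 0 < K := by positivity
  set D : ℝ := 3000 * 9 * 3 * 3 * 8192 * K ^ 2 * C₁ ^ 2 with hD
  have hD0 : 0 < D := by positivity
  refine ⟨200 * K + D * (64 * (3 * K)), by positivity, ?_⟩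
  intro M L hM hL hLM V hV ψ hψ b hb0 hb
  have hM1 : (1 : ℝ) ≤ M := by exact_mod_cast hM
  have hM0 : (0 : ℝ) < M := by linarith
  set x : ℝ := (M : ℝ) ^ e' with hx
  have hx1 : 1 ≤ x := Real.one_le_rpow hM1 he.le
  have hlog : 1 + Real.log M ≤ K * x := TaskI.one_add_log_le he hM1
  have hlog0 : 0 ≤ Real.log M := Real.log_nonneg hM1
  have hx16 : x ^ 16 ≤ (M : ℝ) ^ ε := by
    rw [hx, ← Real.rpow_natCast, ← Real.rpow_mul hM0.le]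
    apply Real.rpow_le_rpow_of_exponent_le hM1
    push_cast
    linarith
  have hxε : x ≤ (M : ℝ) ^ ε := (le_self_pow₀ hx1 (by norm_num)).trans hx16
  set P : ℝ := ((PL L).card : ℝ) with hP
  have hP0 : 0 ≤ P := by positivity
  have hV0 : 0 ≤ V := by linarith
  refine (TaskI.sum_Ker_sq ψ b M L _).trans ?_
  have hsplit : ∀ p ∈ Par L, ∑ p' ∈ Par L, ‖∑ m₂ ∈ Ioc M (2 * M + 1),
      ∑ m₁ ∈ Ioc M (2 * M + 1), tm ψ b M p m₁ m₂ * (starRingEnd ℂ) (tm ψ b M p' m₁ m₂)‖ ≤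
      2 * (((Ioc M (2 * M + 1) ×ˢ Ioc M (2 * M + 1)).filter
        (fun m : ℕ × ℕ => adm M p m.1 m.2)).card : ℝ) +
      D * V ^ 2 * (L : ℝ) ^ 2 * (M : ℝ) ^ (3 / 2 : ℝ) * x ^ 15 *
        ∑ p' ∈ Par L, (Nat.gcd p.2.2.natAbs p'.2.2.natAbs : ℝ) := by
    intro p hp
    rw [← Finset.sum_filter_add_sum_filter_not (Par L) (fun p' => PiQ b p p' = 0)]
    apply add_le_add
    · calc _ ≤ ∑ p' ∈ (Par L).filter (fun p' => PiQ b p p' = 0),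
          (((Ioc M (2 * M + 1) ×ˢ Ioc M (2 * M + 1)).filter
            (fun m : ℕ × ℕ => adm M p m.1 m.2)).card : ℝ) :=
            Finset.sum_le_sum (fun p' _ => TaskI.term_le M V ψ hψ b p p')
        _ = (((Par L).filter (fun p' => PiQ b p p' = 0)).card : ℝ) *
          (((Ioc M (2 * M + 1) ×ˢ Ioc M (2 * M + 1)).filter
            (fun m : ℕ × ℕ => adm M p m.1 m.2)).card : ℝ) := by
            rw [Finset.sum_const, nsmul_eq_mul]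
        _ ≤ _ := by
            apply mul_le_mul_of_nonneg_right _ (by positivity)
            have h1 : (Par L).filter (fun p' => PiQ b p p' = 0) ⊆
                {p, (p.2.1, p.1, -p.2.2)} := by
              intro p' hp'
              rw [mem_filter] at hp'
              have := Bq_zero L p p' hp hp'.1 (TaskI.Bq_of_PiQ hb0 hp hp'.1 hp'.2)
              rw [mem_insert, mem_singleton]
              exact this
            have h2 := (Finset.card_le_card h1).trans Finset.card_le_two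
            exact_mod_cast h2
    · rw [Finset.mul_sum]
      calc _ ≤ ∑ p' ∈ (Par L).filter (fun p' => ¬ PiQ b p p' = 0),
          D * V ^ 2 * (L : ℝ) ^ 2 * (M : ℝ) ^ (3 / 2 : ℝ) * x ^ 15 *
            (Nat.gcd p.2.2.natAbs p'.2.2.natAbs : ℝ) := by
            apply Finset.sum_le_sum
            intro p' hp'
            rw [mem_filter] at hp'
            exact TaskI.off_term hF e' he he1 C₁ hC₁ hdiv M L hM hL hLM V hV ψ hψ b hb p p' hp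
              hp'.1 hp'.2
        _ ≤ _ := by
            apply Finset.sum_le_sum_of_subset_of_nonneg (Finset.filter_subset _ _)
            intro i _ _
            positivity
  refine (Finset.sum_le_sum hsplit).trans ?_
  rw [Finset.sum_add_distrib, ← Finset.mul_sum, ← Finset.mul_sum]
  have h1 := adm_count M L hM hL hLM
  have h2 := gcd_count L hL
  have h3 : 1 + Real.log (4 * L) ≤ 3 * (K * x) := by
    have hL0 : (0 : ℝ) < L := by exact_mod_cast hL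
    have h5 : Real.log (4 * L) ≤ Real.log (4 * M) := by
      apply Real.log_le_log (by positivity)
      have : (L : ℝ) ≤ M := by exact_mod_cast hLM
      linarith
    rw [Real.log_mul (by norm_num) hM0.ne'] at h5
    have := TaskI.log_four_le
    linarith
  have h4 : 2 * ∑ p ∈ Par L, (((Ioc M (2 * M + 1) ×ˢ Ioc M (2 * M + 1)).filter
        (fun m : ℕ × ℕ => adm M p m.1 m.2)).card : ℝ) ≤
      200 * K * (M : ℝ) ^ ε * (P ^ 2 * (M : ℝ) ^ 2) := by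
    calc _ ≤ 2 * (100 * P ^ 2 * (M : ℝ) ^ 2 * (1 + Real.log M)) := by gcongr
      _ = 200 * P ^ 2 * (M : ℝ) ^ 2 * (1 + Real.log M) := by ring
      _ ≤ 200 * P ^ 2 * (M : ℝ) ^ 2 * (K * (M : ℝ) ^ ε) := by
        apply mul_le_mul_of_nonneg_left _ (by positivity)
        exact hlog.trans (mul_le_mul_of_nonneg_left hxε hK0.le)
      _ = _ := by ring
  have h5 : D * V ^ 2 * (L : ℝ) ^ 2 * (M : ℝ) ^ (3 / 2 : ℝ) * x ^ 15 *
        ∑ p ∈ Par L, ∑ p' ∈ Par L, (Nat.gcd p.2.2.natAbs p'.2.2.natAbs : ℝ) ≤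
      D * (64 * (3 * K)) * (M : ℝ) ^ ε *
        (V ^ 2 * (L : ℝ) ^ 4 * P ^ 4 * (M : ℝ) ^ (3 / 2 : ℝ)) := by
    calc _ ≤ D * V ^ 2 * (L : ℝ) ^ 2 * (M : ℝ) ^ (3 / 2 : ℝ) * x ^ 15 *
        (64 * P ^ 4 * (L : ℝ) ^ 2 * (3 * (K * x))) := by
          apply mul_le_mul_of_nonneg_left _ (by positivity)
          refine h2.trans ?_
          gcongr
      _ = D * (64 * (3 * K)) * x ^ 16 *
        (V ^ 2 * (L : ℝ) ^ 4 * P ^ 4 * (M : ℝ) ^ (3 / 2 : ℝ)) := by ring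
      _ ≤ _ := by gcongr
  have hMε : 0 ≤ (M : ℝ) ^ ε := by positivity
  have h6 : 0 ≤ P ^ 2 * (M : ℝ) ^ 2 := by positivity
  have h7 : 0 ≤ V ^ 2 * (L : ℝ) ^ 4 * P ^ 4 * (M : ℝ) ^ (3 / 2 : ℝ) := by positivity
  have h8 : 0 ≤ 200 * K * (M : ℝ) ^ ε *
      (V ^ 2 * (L : ℝ) ^ 4 * P ^ 4 * (M : ℝ) ^ (3 / 2 : ℝ)) := by positivity
  have h9 : 0 ≤ D * (64 * (3 * K)) * (M : ℝ) ^ ε * (P ^ 2 * (M : ℝ) ^ 2) := by positivity
  calc _ ≤ _ := add_le_add h4 h5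
    _ ≤ 200 * K * (M : ℝ) ^ ε * (P ^ 2 * (M : ℝ) ^ 2) +
        D * (64 * (3 * K)) * (M : ℝ) ^ ε *
        (V ^ 2 * (L : ℝ) ^ 4 * P ^ 4 * (M : ℝ) ^ (3 / 2 : ℝ)) +
        (200 * K * (M : ℝ) ^ ε *
        (V ^ 2 * (L : ℝ) ^ 4 * P ^ 4 * (M : ℝ) ^ (3 / 2 : ℝ)) +
        D * (64 * (3 * K)) * (M : ℝ) ^ ε * (P ^ 2 * (M : ℝ) ^ 2)) := by linarith
    _ = _ := by ring

end Pool.Agent.H442R2.KF
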