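import Pool.Agent.H442R2.KF.Defs
import Pool.Agent.H442R2.KF.HS
import Pool.Agent.H442R2.KF.Amp
import Pool.Agent.H442R2.KF.Phase
import Pool.Agent.H442R2.KF.Cls
import Pool.Agent.H442R2.KF.Fix
import Pool.Agent.H442R2.KF.Pc

/-!
# Bilinear forms with Kloosterman fractions: assembly
-/

namespace Pool.Agent.H442R2.KF

open Finset

namespace DfiAux

/-- the statement of `HS` -/
def SHS : Prop := ∀ (ε : ℝ), 0 < ε → ∃ C : ℝ, 0 < C ∧ ∀ (M L : ℕ), 1 ≤ M → 1 ≤ L → L ≤ M →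
    ∀ (V : ℝ), 1 ≤ V → ∀ ψ : ℝ → ℂ, Wei M V ψ → ∀ b : ℤ, b ≠ 0 → |(b : ℝ)| ≤ V * (M : ℝ) ^ 2 →
    ∑ m₁ ∈ Ioc M (2 * M + 1), ∑ m₂ ∈ Ioc M (2 * M + 1), ‖Ker ψ b M L m₁ m₂‖ ^ 2 ≤
      C * (M : ℝ) ^ ε * (((PL L).card : ℝ) ^ 2 * (M : ℝ) ^ 2 +
        V ^ 2 * (L : ℝ) ^ 4 * ((PL L).card : ℝ) ^ 4 * (M : ℝ) ^ (3 / 2 : ℝ))

/-- the statement of `ampl` -/
def SAmpl : Prop := ∀ (M L κ : ℕ), 1 ≤ M → 1 ≤ L → 2 * M + 1 < (L + 1) ^ κ → ∀ (V : ℝ)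
    (ψ : ℝ → ℂ), Wei M V ψ → ∀ (b : ℤ) (α : ℕ → ℂ), (∀ m, ‖α m‖ ≤ 1) →
    ((PL L).card : ℝ) ^ 2 * ∑ n ∈ Ioc M (2 * M + 1),
        ‖∑ m ∈ (Ioc M (2 * M + 1)).filter (fun m => Nat.Coprime m n),
          α m * ψ ((m : ℝ) * n) * kf b m n‖ ^ 2 ≤
      2 * (2 * M + 1) * (((M : ℝ) + 1) ^ 2 * (PL L).card + (M + 1) *
        Real.sqrt (∑ m₁ ∈ Ioc M (2 * M + 1), ∑ m₂ ∈ Ioc M (2 * M + 1),
          ‖Ker ψ b M L m₁ m₂‖ ^ 2)) + 8 * (κ : ℝ) ^ 2 * ((M : ℝ) + 1) ^ 3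

/-- the statement of `primes_dyadic` -/
def SPC : Prop := ∀ (ε : ℝ), 0 < ε → ∃ c : ℝ, 0 < c ∧ ∀ L : ℕ, 1 ≤ L →
    c * (L : ℝ) ^ (1 - ε) ≤ ((PL L).card : ℝ)

/-- the choice of `L` -/
theorem exists_L (M : ℕ) (hM : 1 ≤ M) : ∃ L : ℕ, 1 ≤ L ∧ L ≤ M ∧ 2 * M + 1 < (L + 1) ^ 24 ∧
    (M : ℝ) ^ (1 / 12 : ℝ) ≤ L ∧ (L : ℝ) ≤ 2 * (M : ℝ) ^ (1 / 12 : ℝ) := by
  have hM1 : (1 : ℝ) ≤ M := by exact_mod_cast hM
  have hM0 : (0 : ℝ) ≤ M := by linarith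
  have hx1 : (1 : ℝ) ≤ (M : ℝ) ^ (1 / 12 : ℝ) := Real.one_le_rpow hM1 (by norm_num)
  have hx12 : ((M : ℝ) ^ (1 / 12 : ℝ)) ^ 12 = M := by
    rw [← Real.rpow_natCast, ← Real.rpow_mul hM0]
    norm_num
  have hxM : (M : ℝ) ^ (1 / 12 : ℝ) ≤ M := by
    calc (M : ℝ) ^ (1 / 12 : ℝ) ≤ (M : ℝ) ^ (1 : ℝ) :=
          Real.rpow_le_rpow_of_exponent_le hM1 (by norm_num)
      _ = M := Real.rpow_one _
  have h1 : (M : ℝ) ^ (1 / 12 : ℝ) ≤ (⌈(M : ℝ) ^ (1 / 12 : ℝ)⌉₊ : ℝ) := Nat.le_ceil _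
  have h2 : (⌈(M : ℝ) ^ (1 / 12 : ℝ)⌉₊ : ℝ) < (M : ℝ) ^ (1 / 12 : ℝ) + 1 :=
    Nat.ceil_lt_add_one (by linarith)
  refine ⟨⌈(M : ℝ) ^ (1 / 12 : ℝ)⌉₊, ?_, ?_, ?_, h1, by linarith⟩
  · exact_mod_cast hx1.trans h1
  · exact Nat.ceil_le.2 hxM
  · have h3 : ((2 * M + 1 : ℕ) : ℝ) < (((⌈(M : ℝ) ^ (1 / 12 : ℝ)⌉₊ + 1) ^ 24 : ℕ) : ℝ) := by
      push_cast
      set x := (M : ℝ) ^ (1 / 12 : ℝ) with hx
      set l := (⌈x⌉₊ : ℝ) with hl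
      have h4 : x ^ 12 ≤ (l + 1) ^ 12 := pow_le_pow_left₀ (by linarith) (by linarith) 12
      have h5 : (2 : ℝ) ^ 12 ≤ (l + 1) ^ 12 := pow_le_pow_left₀ (by norm_num) (by linarith) 12
      have h6 : (l + 1) ^ 24 = (l + 1) ^ 12 * (l + 1) ^ 12 := by ring
      rw [hx12] at h4
      rw [h6]
      nlinarith
    exact_mod_cast h3

theorem sqrt_bound (C1 A P V L M3 : ℝ) (hC1 : 0 ≤ C1) (hA : 0 ≤ A) (hP : 0 ≤ P) (hV : 0 ≤ V)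
    (hL : 0 ≤ L) (hM3 : 0 ≤ M3) (M : ℝ) (hM : 0 ≤ M) :
    Real.sqrt (C1 * A ^ 2 * (P ^ 2 * M ^ 2 + V ^ 2 * L ^ 4 * P ^ 4 * M3 ^ 2)) ≤
      Real.sqrt C1 * A * (P * M + V * L ^ 2 * P ^ 2 * M3) := by
  apply Real.sqrt_le_iff.2
  refine ⟨by positivity, ?_⟩
  have h1 : Real.sqrt C1 ^ 2 = C1 := Real.sq_sqrt hC1
  have h2 : (Real.sqrt C1 * A * (P * M + V * L ^ 2 * P ^ 2 * M3)) ^ 2 =
      C1 * A ^ 2 * (P * M + V * L ^ 2 * P ^ 2 * M3) ^ 2 := by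
    rw [mul_pow, mul_pow, h1]
  rw [h2]
  apply mul_le_mul_of_nonneg_left _ (by positivity)
  have h3 : 0 ≤ (P * M) * (V * L ^ 2 * P ^ 2 * M3) := by positivity
  nlinarith

theorem amp_simp (M P s : ℝ) (hM : 1 ≤ M) (hP : 0 ≤ P) (hs : 0 ≤ s) :
    2 * (2 * M + 1) * ((M + 1) ^ 2 * P + (M + 1) * s) + 8 * ((24 : ℕ) : ℝ) ^ 2 * (M + 1) ^ 3 ≤
      24 * M ^ 3 * P + 12 * M ^ 2 * s + 36864 * M ^ 3 := by
  have e2 : M + 1 ≤ 2 * M := by linarith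
  have e3 : (M + 1) ^ 2 ≤ 4 * M ^ 2 := by
    calc (M + 1) ^ 2 ≤ (2 * M) ^ 2 := pow_le_pow_left₀ (by linarith) e2 2
      _ = 4 * M ^ 2 := by ring
  have e4 : (M + 1) ^ 3 ≤ 8 * M ^ 3 := by
    calc (M + 1) ^ 3 ≤ (2 * M) ^ 3 := pow_le_pow_left₀ (by linarith) e2 3
      _ = 8 * M ^ 3 := by ring
  have e5 : (M + 1) ^ 2 * P + (M + 1) * s ≤ 4 * M ^ 2 * P + 2 * M * s :=
    add_le_add (mul_le_mul_of_nonneg_right e3 hP) (mul_le_mul_of_nonneg_right e2 hs)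
  have e6 : 2 * (2 * M + 1) * ((M + 1) ^ 2 * P + (M + 1) * s) ≤
      2 * (3 * M) * (4 * M ^ 2 * P + 2 * M * s) :=
    mul_le_mul (by linarith) e5 (by positivity) (by positivity)
  have e8 : 2 * (3 * M) * (4 * M ^ 2 * P + 2 * M * s) = 24 * M ^ 3 * P + 12 * M ^ 2 * s := by ring
  have e7 : (8 : ℝ) * ((24 : ℕ) : ℝ) ^ 2 * (M + 1) ^ 3 ≤ 36864 * M ^ 3 := by
    push_cast
    linarith
  linarith

theorem self_le_sq {x : ℝ} (hx : 1 ≤ x) : x ≤ x ^ 2 := by nlinarith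

theorem two_mul_le_sq {x : ℝ} (hx : 0 ≤ x) : 2 * x ≤ (2 * x + 1) ^ 2 := by nlinarith

theorem mul_V (y V Z : ℝ) (hV : 1 ≤ V) (h : 0 ≤ y * Z) : y * Z ≤ y * V * Z := by
  have : y * Z * 1 ≤ y * Z * V := mul_le_mul_of_nonneg_left hV h
  linarith [this, (by ring : y * Z * V = y * V * Z)]

theorem div_step (X P A s s' B D : ℝ) (hP : 0 < P) (hA : 0 ≤ A) (h : P ^ 2 * X ≤ B + A * s + D)
    (hs : s ≤ s') : X ≤ (B + A * s' + D) / P ^ 2 := by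
  rw [le_div_iff₀ (by positivity)]
  have := mul_le_mul_of_nonneg_left hs hA
  linarith [mul_comm X (P ^ 2)]

end DfiAux

open DfiAux

/-- K, in terms of the statements used -/
theorem dfi_of (hHS : SHS) (hAm : SAmpl) (hPC : SPC) (ε : ℝ) (hε : 0 < ε) :
    ∃ C : ℝ, 0 < C ∧ ∀ (M : ℕ), 1 ≤ M →
    ∀ (V : ℝ), 1 ≤ V → ∀ ψ : ℝ → ℂ, Wei M V ψ → ∀ b : ℤ, b ≠ 0 → |(b : ℝ)| ≤ V * (M : ℝ) ^ 2 →
    ∀ α β : ℕ → ℂ, (∀ m, ‖α m‖ ≤ 1) → (∀ n, ‖β n‖ ≤ 1) →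
    ‖∑ m ∈ Ioc M (2 * M + 1), ∑ n ∈ (Ioc M (2 * M + 1)).filter (fun n => Nat.Coprime m n),
      α m * β n * ψ ((m : ℝ) * n) * kf b m n‖ ≤ C * V * (M : ℝ) ^ (47 / 24 + ε : ℝ) := by
  classical
  obtain ⟨δ, hδ, hδε, hδ1⟩ : ∃ δ : ℝ, 0 < δ ∧ δ ≤ ε ∧ δ ≤ 1 :=
    ⟨min ε 1, lt_min hε one_pos, min_le_left _ _, min_le_right _ _⟩
  obtain ⟨C1, hC1, H1⟩ := hHS δ hδ
  obtain ⟨c, hc, H2⟩ := hPC δ hδ
  set C2 : ℝ := 24 / c + 12 * Real.sqrt C1 * (1 / c + 4) + 36864 / c with hC2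
  have hC2pos : 0 < C2 := by positivity
  refine ⟨2 * C2 + 1, by positivity, ?_⟩
  intro M hM V hV ψ hψ b hb hbV α β hα hβ
  have hM1 : (1 : ℝ) ≤ M := by exact_mod_cast hM
  have hM0 : (0 : ℝ) < M := by linarith
  obtain ⟨L, hL1, hLM, hκ, hL2, hL3⟩ := exists_L M hM
  set P : ℝ := ((PL L).card : ℝ) with hP
  have hPc := H2 L hL1
  -- lower bound of P
  have hPlow : c * (M : ℝ) ^ ((1 - δ) / 12) ≤ P := by
    refine le_trans ?_ hPc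
    apply mul_le_mul_of_nonneg_left _ hc.le
    calc (M : ℝ) ^ ((1 - δ) / 12) = ((M : ℝ) ^ (1 / 12 : ℝ)) ^ (1 - δ) := by
          rw [← Real.rpow_mul hM0.le]
          congr 1
          ring
      _ ≤ (L : ℝ) ^ (1 - δ) := Real.rpow_le_rpow (by positivity) hL2 (by linarith)
  have hPpos : 0 < P := lt_of_lt_of_le (by positivity) hPlow
  have hP1 : 1 ≤ P := by
    have : 0 < (PL L).card := by
      have := hPpos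
      rw [hP] at this
      exact_mod_cast this
    rw [hP]
    exact_mod_cast this
  -- the kernel
  set K2 : ℝ := ∑ m₁ ∈ Ioc M (2 * M + 1), ∑ m₂ ∈ Ioc M (2 * M + 1),
          ‖Ker ψ b M L m₁ m₂‖ ^ 2 with hK2
  have hK : K2 ≤ C1 * (M : ℝ) ^ δ * (P ^ 2 * (M : ℝ) ^ 2 +
      V ^ 2 * (L : ℝ) ^ 4 * P ^ 4 * (M : ℝ) ^ (3 / 2 : ℝ)) :=
    H1 M L hM hL1 hLM V hV ψ hψ b hb hbV
  have hA2 : (M : ℝ) ^ δ = ((M : ℝ) ^ (δ / 2)) ^ 2 := by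
    rw [← Real.rpow_natCast, ← Real.rpow_mul hM0.le]
    congr 1
    push_cast
    ring
  have hM32 : (M : ℝ) ^ (3 / 2 : ℝ) = ((M : ℝ) ^ (3 / 4 : ℝ)) ^ 2 := by
    rw [← Real.rpow_natCast, ← Real.rpow_mul hM0.le]
    congr 1
    push_cast
    ring
  have hsq : Real.sqrt K2 ≤ Real.sqrt C1 * (M : ℝ) ^ (δ / 2) *
      (P * M + V * (L : ℝ) ^ 2 * P ^ 2 * (M : ℝ) ^ (3 / 4 : ℝ)) := by
    refine (Real.sqrt_le_sqrt hK).trans ?_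
    rw [hA2, hM32]
    exact sqrt_bound C1 _ P V L _ hC1.le (by positivity) hPpos.le (by linarith) (by positivity)
      (by positivity) M hM0.le
  -- amplification
  set X2 : ℝ := ∑ n ∈ Ioc M (2 * M + 1),
        ‖∑ m ∈ (Ioc M (2 * M + 1)).filter (fun m => Nat.Coprime m n),
          α m * ψ ((m : ℝ) * n) * kf b m n‖ ^ 2 with hX2
  have hX2n : 0 ≤ X2 := sum_nonneg fun _ _ => sq_nonneg _
  have hAmp : P ^ 2 * X2 ≤ 2 * (2 * M + 1) * (((M : ℝ) + 1) ^ 2 * P + (M + 1) *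
        Real.sqrt K2) + 8 * ((24 : ℕ) : ℝ) ^ 2 * ((M : ℝ) + 1) ^ 3 :=
    hAm M L 24 hM hL1 hκ V ψ hψ b α hα
  -- simplification
  have hsqn : 0 ≤ Real.sqrt K2 := Real.sqrt_nonneg _
  have hAmp2 : P ^ 2 * X2 ≤ 24 * (M : ℝ) ^ 3 * P + 12 * (M : ℝ) ^ 2 * Real.sqrt K2 +
      36864 * (M : ℝ) ^ 3 := by
    exact hAmp.trans (amp_simp M P _ hM1 hPpos.le hsqn)
  -- division by P ^ 2
  have hinv : 1 / P ≤ 1 / c * (M : ℝ) ^ (-(1 / 12) + δ / 2 : ℝ) := by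
    rw [div_le_iff₀ hPpos]
    calc (1 : ℝ) ≤ 1 / c * (M : ℝ) ^ (-(1 / 12) + δ / 2 : ℝ) * (c * (M : ℝ) ^ ((1 - δ) / 12)) := by
          have e1 : 1 / c * (M : ℝ) ^ (-(1 / 12) + δ / 2 : ℝ) * (c * (M : ℝ) ^ ((1 - δ) / 12)) =
              (M : ℝ) ^ (-(1 / 12) + δ / 2 : ℝ) * (M : ℝ) ^ ((1 - δ) / 12) := by
            field_simp
          rw [e1, ← Real.rpow_add hM0]
          apply Real.one_le_rpow hM1
          linarith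
      _ ≤ 1 / c * (M : ℝ) ^ (-(1 / 12) + δ / 2 : ℝ) * P :=
          mul_le_mul_of_nonneg_left hPlow (by positivity)
  have hinv2 : 1 / P ^ 2 ≤ 1 / P := by
    exact one_div_le_one_div_of_le hPpos (self_le_sq hP1)
  have hL2' : (L : ℝ) ^ 2 ≤ 4 * (M : ℝ) ^ (1 / 6 : ℝ) := by
    calc (L : ℝ) ^ 2 ≤ (2 * (M : ℝ) ^ (1 / 12 : ℝ)) ^ 2 :=
          pow_le_pow_left₀ (by positivity) hL3 2
      _ = 4 * (M : ℝ) ^ (1 / 6 : ℝ) := by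
          rw [mul_pow, ← Real.rpow_natCast ((M : ℝ) ^ (1 / 12 : ℝ)), ← Real.rpow_mul hM0.le]
          norm_num
  set Z : ℝ := (M : ℝ) ^ (35 / 12 + δ : ℝ) with hZ
  have hZ0 : 0 < Z := by positivity
  have hp3 : ∀ a : ℝ, (M : ℝ) ^ 3 * (M : ℝ) ^ a = (M : ℝ) ^ (3 + a) := by
    intro a
    rw [Real.rpow_add hM0]
    norm_num
  have hmono : ∀ a : ℝ, a ≤ 35 / 12 + δ → (M : ℝ) ^ a ≤ Z := fun a ha =>
    Real.rpow_le_rpow_of_exponent_le hM1 ha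
  have t1 : (M : ℝ) ^ 3 * (1 / P) ≤ 1 / c * Z := by
    calc (M : ℝ) ^ 3 * (1 / P) ≤ (M : ℝ) ^ 3 * (1 / c * (M : ℝ) ^ (-(1 / 12) + δ / 2 : ℝ)) :=
          mul_le_mul_of_nonneg_left hinv (by positivity)
      _ = 1 / c * ((M : ℝ) ^ 3 * (M : ℝ) ^ (-(1 / 12) + δ / 2 : ℝ)) := by ring
      _ ≤ 1 / c * Z := by
          rw [hp3]
          exact mul_le_mul_of_nonneg_left (hmono _ (by linarith)) (by positivity)
  have t2 : (M : ℝ) ^ 2 * ((M : ℝ) ^ (δ / 2) * (M * (1 / P))) ≤ 1 / c * Z := by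
    calc (M : ℝ) ^ 2 * ((M : ℝ) ^ (δ / 2) * (M * (1 / P)))
        = (M : ℝ) ^ 3 * (M : ℝ) ^ (δ / 2) * (1 / P) := by ring
      _ ≤ (M : ℝ) ^ 3 * (M : ℝ) ^ (δ / 2) * (1 / c * (M : ℝ) ^ (-(1 / 12) + δ / 2 : ℝ)) :=
          mul_le_mul_of_nonneg_left hinv (by positivity)
      _ = 1 / c * ((M : ℝ) ^ 3 * ((M : ℝ) ^ (δ / 2) * (M : ℝ) ^ (-(1 / 12) + δ / 2 : ℝ))) := by
          ring
      _ ≤ 1 / c * Z := by
          rw [← Real.rpow_add hM0, hp3]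
          exact mul_le_mul_of_nonneg_left (hmono _ (by linarith)) (by positivity)
  have t3 : (M : ℝ) ^ 2 * ((M : ℝ) ^ (δ / 2) * (V * (L : ℝ) ^ 2 * (M : ℝ) ^ (3 / 4 : ℝ))) ≤
      4 * V * Z := by
    calc (M : ℝ) ^ 2 * ((M : ℝ) ^ (δ / 2) * (V * (L : ℝ) ^ 2 * (M : ℝ) ^ (3 / 4 : ℝ)))
        = (V * (M : ℝ) ^ 2 * (M : ℝ) ^ (δ / 2) * (M : ℝ) ^ (3 / 4 : ℝ)) * (L : ℝ) ^ 2 := by ring
      _ ≤ (V * (M : ℝ) ^ 2 * (M : ℝ) ^ (δ / 2) * (M : ℝ) ^ (3 / 4 : ℝ)) *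
          (4 * (M : ℝ) ^ (1 / 6 : ℝ)) :=
          mul_le_mul_of_nonneg_left hL2' (by positivity)
      _ = 4 * V * ((M : ℝ) ^ (2 : ℝ) * (M : ℝ) ^ (δ / 2) * (M : ℝ) ^ (3 / 4 : ℝ) *
          (M : ℝ) ^ (1 / 6 : ℝ)) := by
          rw [Real.rpow_two]
          ring
      _ ≤ 4 * V * Z := by
          rw [← Real.rpow_add hM0, ← Real.rpow_add hM0, ← Real.rpow_add hM0]
          exact mul_le_mul_of_nonneg_left (hmono _ (by linarith)) (by positivity)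
  have hX : X2 ≤ C2 * V * Z := by
    have e1 : X2 ≤ (24 * (M : ℝ) ^ 3 * P + 12 * (M : ℝ) ^ 2 *
        (Real.sqrt C1 * (M : ℝ) ^ (δ / 2) *
      (P * M + V * (L : ℝ) ^ 2 * P ^ 2 * (M : ℝ) ^ (3 / 4 : ℝ))) +
      36864 * (M : ℝ) ^ 3) / P ^ 2 :=
      div_step X2 P _ _ _ _ _ hPpos (by positivity) hAmp2 hsq
    have e3 : (24 * (M : ℝ) ^ 3 * P + 12 * (M : ℝ) ^ 2 *
        (Real.sqrt C1 * (M : ℝ) ^ (δ / 2) *
      (P * M + V * (L : ℝ) ^ 2 * P ^ 2 * (M : ℝ) ^ (3 / 4 : ℝ))) +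
      36864 * (M : ℝ) ^ 3) / P ^ 2 = 24 * ((M : ℝ) ^ 3 * (1 / P)) + 12 * Real.sqrt C1 *
        ((M : ℝ) ^ 2 * ((M : ℝ) ^ (δ / 2) * (M * (1 / P))) +
          (M : ℝ) ^ 2 * ((M : ℝ) ^ (δ / 2) * (V * (L : ℝ) ^ 2 * (M : ℝ) ^ (3 / 4 : ℝ)))) +
        36864 * ((M : ℝ) ^ 3 * (1 / P ^ 2)) := by
      field_simp
    have t4 : (M : ℝ) ^ 3 * (1 / P ^ 2) ≤ 1 / c * Z :=
      (mul_le_mul_of_nonneg_left hinv2 (by positivity)).trans t1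
    have hs := Real.sqrt_nonneg C1
    have hcZ : 0 ≤ 1 / c * Z := by positivity
    have hVZ : 1 / c * Z ≤ 1 / c * V * Z := mul_V _ _ _ hV hcZ
    calc X2 ≤ _ := e1
      _ = _ := e3
      _ ≤ 24 * (1 / c * V * Z) + 12 * Real.sqrt C1 * (1 / c * V * Z + 4 * V * Z) +
          36864 * (1 / c * V * Z) := by
          have a1 := t1.trans hVZ
          have a2 := t2.trans hVZ
          have a4 := t4.trans hVZ
          have a3 := mul_le_mul_of_nonneg_left (add_le_add a2 t3)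
            (by positivity : 0 ≤ 12 * Real.sqrt C1)
          linarith
      _ = C2 * V * Z := by
          rw [hC2]
          ring
  -- exchange of the sums
  set S : ℂ := ∑ m ∈ Ioc M (2 * M + 1), ∑ n ∈ (Ioc M (2 * M + 1)).filter
      (fun n => Nat.Coprime m n), α m * β n * ψ ((m : ℝ) * n) * kf b m n with hS
  have hSx : S = ∑ n ∈ Ioc M (2 * M + 1), β n *
      ∑ m ∈ (Ioc M (2 * M + 1)).filter (fun m => Nat.Coprime m n),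
          α m * ψ ((m : ℝ) * n) * kf b m n := by
    rw [hS]
    simp_rw [sum_filter, mul_sum]
    rw [sum_comm]
    refine sum_congr rfl fun n _ => sum_congr rfl fun m _ => ?_
    split_ifs
    · ring
    · simp
  have hSn : ‖S‖ ^ 2 ≤ ((M : ℝ) + 1) * X2 := by
    have e1 : ‖S‖ ≤ ∑ n ∈ Ioc M (2 * M + 1),
        ‖∑ m ∈ (Ioc M (2 * M + 1)).filter (fun m => Nat.Coprime m n),
          α m * ψ ((m : ℝ) * n) * kf b m n‖ := by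
      rw [hSx]
      refine (norm_sum_le _ _).trans (sum_le_sum fun n _ => ?_)
      rw [norm_mul]
      exact mul_le_of_le_one_left (norm_nonneg _) (hβ n)
    calc ‖S‖ ^ 2 ≤ (∑ n ∈ Ioc M (2 * M + 1),
        ‖∑ m ∈ (Ioc M (2 * M + 1)).filter (fun m => Nat.Coprime m n),
          α m * ψ ((m : ℝ) * n) * kf b m n‖) ^ 2 := pow_le_pow_left₀ (norm_nonneg _) e1 2
      _ ≤ ((Ioc M (2 * M + 1)).card : ℝ) * X2 := sq_sum_le_card_mul_sum_sq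
      _ = ((M : ℝ) + 1) * X2 := by
          rw [Nat.card_Ioc]
          congr 1
          have : 2 * M + 1 - M = M + 1 := by omega
          rw [this]
          push_cast
          ring
  have hfin : ‖S‖ ^ 2 ≤ ((2 * C2 + 1) * V * (M : ℝ) ^ (47 / 24 + ε : ℝ)) ^ 2 := by
    have hY : (M : ℝ) * Z ≤ ((M : ℝ) ^ (47 / 24 + ε : ℝ)) ^ 2 := by
      rw [hZ, ← Real.rpow_natCast, ← Real.rpow_mul hM0.le]
      nth_rewrite 1 [← Real.rpow_one (M : ℝ)]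
      rw [← Real.rpow_add hM0]
      apply Real.rpow_le_rpow_of_exponent_le hM1
      push_cast
      linarith
    calc ‖S‖ ^ 2 ≤ ((M : ℝ) + 1) * X2 := hSn
      _ ≤ (2 * M) * (C2 * V * Z) := mul_le_mul (by linarith) hX hX2n (by positivity)
      _ = (2 * C2) * V * (M * Z) := by ring
      _ ≤ (2 * C2 + 1) ^ 2 * V ^ 2 * ((M : ℝ) ^ (47 / 24 + ε : ℝ)) ^ 2 := by
          apply mul_le_mul _ hY (by positivity) (by positivity)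
          exact mul_le_mul (two_mul_le_sq hC2pos.le) (self_le_sq hV) (by positivity)
            (by positivity)
      _ = _ := by ring
  exact (pow_le_pow_iff_left₀ (norm_nonneg _) (by positivity) (two_ne_zero)).1 hfin

theorem DfiAux.fixedM2 : TaskI.FixedM2 := fun M L hM hL V hV ψ hψ b hb p p' hp hp' hG m₂ hm₂ =>
  fixed_m2_of (fun M L hM ψ b p p' hp hp' hG m₂ hm₂ =>
    phase_pair M L hM ψ b p p' hp hp' hG m₂ hm₂)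
    (fun q R hq hq0 hR => class_sum q R hq hq0 hR) M L hM hL V hV ψ hψ b hb p p' hp hp' hG m₂ hm₂

theorem DfiAux.hs : DfiAux.SHS := fun ε hε => HS_of DfiAux.fixedM2 ε hε

/-- K (Dfi.lean): bilinear forms with Kloosterman fractions -/
theorem dfi (ε : ℝ) (hε : 0 < ε) : ∃ C : ℝ, 0 < C ∧ ∀ (M : ℕ), 1 ≤ M →
    ∀ (V : ℝ), 1 ≤ V → ∀ ψ : ℝ → ℂ, Wei M V ψ → ∀ b : ℤ, b ≠ 0 → |(b : ℝ)| ≤ V * (M : ℝ) ^ 2 →
    ∀ α β : ℕ → ℂ, (∀ m, ‖α m‖ ≤ 1) → (∀ n, ‖β n‖ ≤ 1) →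
    ‖∑ m ∈ Ioc M (2 * M + 1), ∑ n ∈ (Ioc M (2 * M + 1)).filter (fun n => Nat.Coprime m n),
      α m * β n * ψ ((m : ℝ) * n) * kf b m n‖ ≤ C * V * (M : ℝ) ^ (47 / 24 + ε : ℝ) :=
  dfi_of DfiAux.hs ampl primes_dyadic ε hε

end Pool.Agent.H442R2.KF
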