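import Pool.Agent.H442R2.KF.Defs

/-!
Blueprint (statements only, `sorry`) of the KF project.  Never import this file in a hand-in.
-/

namespace Pool.Agent.H442R2.KF.Stubs

open Finset
open Pool.Agent.H442R2.KF

/-! ## Part I: bilinear forms with Kloosterman fractions -/

/-- A (Kfb.lean) -/
theorem kf_of_inv (n : ℕ) (hn : 0 < n) (b m k : ℤ) (h : ((m * k : ℤ) : ZMod n) = 1) :
    kf b m n = e ((b : ℝ) * k / n) := by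
  sorry

/-- A (Kfb.lean) -/
theorem kf_congr (n : ℕ) (hn : 0 < n) (b b' m m' : ℤ) (hb : (b : ZMod n) = (b' : ZMod n))
    (hm : (m : ZMod n) = (m' : ZMod n)) : kf b m n = kf b' m' n := by
  sorry

/-- A (Kfb.lean) -/
theorem kf_eq_char (n : ℕ) [NeZero n] (b m : ℤ) :
    kf b m n = ZMod.stdAddChar ((b : ZMod n) * (m : ZMod n)⁻¹) := by
  sorry

/-- A (Kfb.lean): reciprocity -/
theorem kf_recip (B : ℤ) (K n : ℕ) (hK : 0 < K) (hn : 0 < n) (h : Nat.Coprime K n) :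
    kf B K n = e ((B : ℝ) / ((n : ℝ) * K)) * (starRingEnd ℂ) (kf B n K) := by
  sorry

/-- A (Kfb.lean): Chinese remainder theorem -/
theorem kf_crt (B k : ℤ) (q w : ℕ) (hq : 0 < q) (hw : 0 < w) (hqw : Nat.Coprime q w)
    (hk : Int.gcd k (q * w) = 1) :
    kf B k (q * w) = kf B (k * w) q * kf B (k * q) w := by
  sorry

/-- B (Weil.lean): Weil's bound for squarefree moduli -/
theorem weil_sf (q : ℕ) [NeZero q] (hq : Squarefree q) (w c : ZMod q) (hc : IsUnit c) :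
    ‖∑ u : (ZMod q)ˣ, ZMod.stdAddChar (w * (u : ZMod q) + c * ((u⁻¹ : (ZMod q)ˣ) : ZMod q))‖ ≤
      2 ^ q.primeFactors.card * Real.sqrt q := by
  sorry

/-- C (Inc.lean): incomplete Kloosterman sums in a progression -/
theorem incomplete (q R : ℕ) (hq : Squarefree q) (hq0 : 0 < q) (hR : 0 < R)
    (hqR : Nat.Coprime q R) (c : ℤ) (hc : Int.gcd c q = 1) (r A B : ℤ) (hAB : A ≤ B) :
    ‖∑ m ∈ (Icc A B).filter (fun m : ℤ => m ≡ r [ZMOD R] ∧ Int.gcd m q = 1), kf c m q‖ ≤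
      2 ^ q.primeFactors.card * Real.sqrt q * ((B - A) / (R * q) + 2 + Real.log q) := by
  sorry

/-- D (Cls.lean): sums with a periodic factor and a Lipschitz weight -/
theorem class_sum (q R : ℕ) (hq : Squarefree q) (hq0 : 0 < q) (hR : 0 < R)
    (hqR : Nat.Coprime q R) (c : ℤ) (hc : Int.gcd c q = 1) (A B : ℤ) (hAB : A ≤ B)
    (Φ : ℤ → ℂ) (hΦp : ∀ m, Φ (m + R) = Φ m) (hΦ : ∀ m, ‖Φ m‖ ≤ 1) (K : ℕ)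
    (hK : ((Ico (0 : ℤ) R).filter (fun r => Φ r ≠ 0)).card ≤ K) (Ω : ℝ → ℂ) (Λ : ℝ) (hΛ : 0 ≤ Λ)
    (hΩ : ∀ s ∈ Set.Icc (A : ℝ) B, ‖Ω s‖ ≤ 1)
    (hL : ∀ s ∈ Set.Icc (A : ℝ) B, ∀ s' ∈ Set.Icc (A : ℝ) B, ‖Ω s - Ω s'‖ ≤ Λ * |s - s'|) :
    ‖∑ m ∈ (Icc A B).filter (fun m : ℤ => Int.gcd m q = 1), Ω m * Φ m * kf c m q‖ ≤
      K * ((1 + Λ * (B - A)) *
        (2 ^ q.primeFactors.card * Real.sqrt q * ((B - A) / (R * q) + 2 + Real.log q))) := by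
  sorry

/-- E (Lip.lean) -/
theorem Om_norm (M : ℕ) (hM : 1 ≤ M) (V : ℝ) (ψ : ℝ → ℂ) (hψ : Wei M V ψ) (b : ℤ)
    (p : ℕ × ℕ × ℤ) (m₂ : ℕ) (hm₂ : m₂ ∈ Ioc M (2 * M + 1)) (s : ℝ) (hs : (M : ℝ) ≤ s)
    (hn : (M : ℝ) ≤ nuR p m₂ s) : ‖Om ψ b p m₂ s‖ ≤ 1 := by
  sorry

/-- E (Lip.lean) -/
theorem Om_lip (M L : ℕ) (hM : 1 ≤ M) (hL : 1 ≤ L) (V : ℝ) (hV : 1 ≤ V) (ψ : ℝ → ℂ)
    (hψ : Wei M V ψ) (b : ℤ) (hb : |(b : ℝ)| ≤ V * (M : ℝ) ^ 2) (p : ℕ × ℕ × ℤ)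
    (h1 : p.1 ∈ Ioc L (2 * L)) (h2 : p.2.1 ∈ Ioc L (2 * L)) (ht : p.2.2 ≠ 0)
    (m₂ : ℕ) (hm₂ : m₂ ∈ Ioc M (2 * M + 1)) (s s' : ℝ)
    (hs : s ∈ Set.Icc (M : ℝ) (2 * M + 1)) (hs' : s' ∈ Set.Icc (M : ℝ) (2 * M + 1))
    (hn : nuR p m₂ s ∈ Set.Icc (M : ℝ) (2 * M + 1))
    (hn' : nuR p m₂ s' ∈ Set.Icc (M : ℝ) (2 * M + 1)) :
    ‖Om ψ b p m₂ s - Om ψ b p m₂ s'‖ ≤
      13 * V / M * (1 + (p.2.1 : ℝ) / |(p.2.2 : ℝ)|) * |s - s'| := by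
  sorry

/-- F1 (Phase.lean): the arithmetic of the phase for fixed `m₂` -/
theorem phase_pair (M L : ℕ) (hM : 1 ≤ M) (ψ : ℝ → ℂ) (b : ℤ)
    (p p' : ℕ × ℕ × ℤ) (hp : p ∈ Par L) (hp' : p' ∈ Par L) (hG : PiQ b p p' ≠ 0)
    (m₂ : ℕ) (hm₂ : m₂ ∈ Ioc M (2 * M + 1)) :
    ∃ (c : ℤ) (Φ : ℤ → ℂ), Int.gcd c (qp (PiQ b p p') m₂) = 1 ∧
      (∀ m, Φ (m + (p.2.2.natAbs * p'.2.2.natAbs * p.1 * p'.1 * vp (PiQ b p p') m₂ : ℕ)) = Φ m) ∧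
      (∀ m, ‖Φ m‖ ≤ 1) ∧
      ((Ico (0 : ℤ) (p.2.2.natAbs * p'.2.2.natAbs * p.1 * p'.1 * vp (PiQ b p p') m₂ : ℕ)).filter
        (fun r => Φ r ≠ 0)).card ≤
          p.1 * p'.1 * vp (PiQ b p p') m₂ * Nat.gcd p.2.2.natAbs p'.2.2.natAbs ∧
      ∀ m₁ ∈ Ioc M (2 * M + 1),
        (M : ℝ) < nuR p m₂ m₁ → nuR p m₂ m₁ ≤ 2 * M + 1 →
        (M : ℝ) < nuR p' m₂ m₁ → nuR p' m₂ m₁ ≤ 2 * M + 1 →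
        tm ψ b M p m₁ m₂ * (starRingEnd ℂ) (tm ψ b M p' m₁ m₂) =
          (Om ψ b p m₂ m₁ * (starRingEnd ℂ) (Om ψ b p' m₂ m₁)) * Φ m₁ *
            (if Int.gcd m₁ (qp (PiQ b p p') m₂) = 1 then kf c m₁ (qp (PiQ b p p') m₂) else 0) := by
  sorry

/-- F0 (Qp.lean): elementary facts on `qp`, `vp` -/
theorem qp_facts (G m : ℕ) (hm : 0 < m) :
    Squarefree (qp G m) ∧ 0 < qp G m ∧ qp G m ∣ m ∧ 0 < vp G m ∧ qp G m * vp G m = m ∧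
      Nat.Coprime (qp G m) (vp G m) ∧ Nat.Coprime (qp G m) G ∧
      2 ^ (qp G m).primeFactors.card ≤ m.divisors.card := by
  sorry

/-- F (Fix.lean): the sum over `m₁` for fixed `m₂` -/
theorem fixed_m2 (M L : ℕ) (hM : 1 ≤ M) (hL : 1 ≤ L) (V : ℝ) (hV : 1 ≤ V) (ψ : ℝ → ℂ)
    (hψ : Wei M V ψ) (b : ℤ) (hb : |(b : ℝ)| ≤ V * (M : ℝ) ^ 2)
    (p p' : ℕ × ℕ × ℤ) (hp : p ∈ Par L) (hp' : p' ∈ Par L) (hG : PiQ b p p' ≠ 0)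
    (m₂ : ℕ) (hm₂ : m₂ ∈ Ioc M (2 * M + 1)) :
    ‖∑ m₁ ∈ Ioc M (2 * M + 1), tm ψ b M p m₁ m₂ * (starRingEnd ℂ) (tm ψ b M p' m₁ m₂)‖ ≤
      3000 * V * (L : ℝ) ^ 2 * Nat.gcd p.2.2.natAbs p'.2.2.natAbs *
        Real.sqrt (vp (PiQ b p p') m₂) * Real.sqrt M * tau m₂ * (1 + Real.log M) := by
  sorry

/-- G (SumV.lean) -/
theorem sum_vp (X G : ℕ) (hX : 1 ≤ X) (hG : 0 < G) :
    ∑ m ∈ Icc 1 X, Real.sqrt (vp G m) ≤ 3 * X * (1 + Real.log X) * tau G := by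
  sorry

/-- H1 (Bz.lean) -/
theorem Bq_zero (L : ℕ) (p p' : ℕ × ℕ × ℤ) (hp : p ∈ Par L) (hp' : p' ∈ Par L)
    (h : Bq p p' = 0) : p' = p ∨ p' = (p.2.1, p.1, -p.2.2) := by
  sorry

/-- H2 (Cnt.lean): number of admissible pairs, summed over the parameters -/
theorem adm_count (M L : ℕ) (hM : 1 ≤ M) (hL : 1 ≤ L) (hLM : L ≤ M) :
    ∑ p ∈ Par L, (((Ioc M (2 * M + 1) ×ˢ Ioc M (2 * M + 1)).filter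
        (fun m : ℕ × ℕ => adm M p m.1 m.2)).card : ℝ) ≤
      100 * ((PL L).card : ℝ) ^ 2 * (M : ℝ) ^ 2 * (1 + Real.log M) := by
  sorry

/-- H3 (Cnt.lean): sum of gcd's -/
theorem gcd_count (L : ℕ) (hL : 1 ≤ L) :
    ∑ p ∈ Par L, ∑ p' ∈ Par L, (Nat.gcd p.2.2.natAbs p'.2.2.natAbs : ℝ) ≤
      64 * ((PL L).card : ℝ) ^ 4 * (L : ℝ) ^ 2 * (1 + Real.log (4 * L)) := by
  sorry

/-- I (HS.lean): Hilbert-Schmidt bound of the kernel -/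
theorem HS (ε : ℝ) (hε : 0 < ε) : ∃ C : ℝ, 0 < C ∧ ∀ (M L : ℕ), 1 ≤ M → 1 ≤ L → L ≤ M →
    ∀ (V : ℝ), 1 ≤ V → ∀ ψ : ℝ → ℂ, Wei M V ψ → ∀ b : ℤ, b ≠ 0 → |(b : ℝ)| ≤ V * (M : ℝ) ^ 2 →
    ∑ m₁ ∈ Ioc M (2 * M + 1), ∑ m₂ ∈ Ioc M (2 * M + 1), ‖Ker ψ b M L m₁ m₂‖ ^ 2 ≤
      C * (M : ℝ) ^ ε * (((PL L).card : ℝ) ^ 2 * (M : ℝ) ^ 2 +
        V ^ 2 * (L : ℝ) ^ 4 * ((PL L).card : ℝ) ^ 4 * (M : ℝ) ^ (3 / 2 : ℝ)) := by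
  sorry

/-- J (Amp.lean): amplification -/
theorem ampl (M L κ : ℕ) (hM : 1 ≤ M) (hL : 1 ≤ L) (hκ : 2 * M + 1 < (L + 1) ^ κ) (V : ℝ)
    (ψ : ℝ → ℂ) (hψ : Wei M V ψ) (b : ℤ) (α : ℕ → ℂ) (hα : ∀ m, ‖α m‖ ≤ 1) :
    ((PL L).card : ℝ) ^ 2 * ∑ n ∈ Ioc M (2 * M + 1),
        ‖∑ m ∈ (Ioc M (2 * M + 1)).filter (fun m => Nat.Coprime m n),
          α m * ψ ((m : ℝ) * n) * kf b m n‖ ^ 2 ≤
      2 * (2 * M + 1) * (((M : ℝ) + 1) ^ 2 * (PL L).card + (M + 1) *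
        Real.sqrt (∑ m₁ ∈ Ioc M (2 * M + 1), ∑ m₂ ∈ Ioc M (2 * M + 1),
          ‖Ker ψ b M L m₁ m₂‖ ^ 2)) + 8 * (κ : ℝ) ^ 2 * ((M : ℝ) + 1) ^ 3 := by
  sorry

/-- PC (Pc.lean): number of primes in `(L, 2L]` -/
theorem primes_dyadic (ε : ℝ) (hε : 0 < ε) : ∃ c : ℝ, 0 < c ∧ ∀ L : ℕ, 1 ≤ L →
    c * (L : ℝ) ^ (1 - ε) ≤ ((PL L).card : ℝ) := by
  sorry

/-- K (Dfi.lean): bilinear forms with Kloosterman fractions -/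
theorem dfi (ε : ℝ) (hε : 0 < ε) : ∃ C : ℝ, 0 < C ∧ ∀ (M : ℕ), 1 ≤ M →
    ∀ (V : ℝ), 1 ≤ V → ∀ ψ : ℝ → ℂ, Wei M V ψ → ∀ b : ℤ, b ≠ 0 → |(b : ℝ)| ≤ V * (M : ℝ) ^ 2 →
    ∀ α β : ℕ → ℂ, (∀ m, ‖α m‖ ≤ 1) → (∀ n, ‖β n‖ ≤ 1) →
    ‖∑ m ∈ Ioc M (2 * M + 1), ∑ n ∈ (Ioc M (2 * M + 1)).filter (fun n => Nat.Coprime m n),
      α m * β n * ψ ((m : ℝ) * n) * kf b m n‖ ≤ C * V * (M : ℝ) ^ (47 / 24 + ε : ℝ) := by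
  sorry

/-! ## Part II: correlations -/

/-- L (Poi.lean): Poisson summation in a progression, truncated -/
theorem poisson_trunc : ∃ N₀ : ℕ, ∀ N : ℕ, N₀ ≤ N → ∀ m : ℕ, 1 ≤ m → (m : ℝ) ≤ (N : ℝ) ^ 3 →
    ∀ (c : ℤ) (J : ℕ), (m : ℝ) * Real.log N ≤ (J + 1) * N →
    ‖((∑' n : ℤ, (if (m : ℤ) ∣ n - c then Wt N n else 0) : ℝ) : ℂ) -
      ((N : ℝ) / m : ℝ) * ∑ j ∈ Icc (-(J : ℤ)) J,
        ((Real.exp (-Real.pi * ((j : ℝ) * N / m) ^ 2) : ℝ) : ℂ) * e ((j : ℝ) * c / m)‖ ≤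
      1 / (N : ℝ) ^ 5 := by
  sorry

/-- M1 (Crt.lean) -/
theorem SS_not_dvd (N : ℕ) (a a' : ℤ) (g d₁ d₂ : ℕ) (h : ¬ (g : ℤ) ∣ a' - a) :
    SS N a a' (g * d₁) (g * d₂) = 0 := by
  sorry

/-- M1 (Crt.lean) -/
theorem SS_eval : ∃ N₀ : ℕ, ∀ N : ℕ, N₀ ≤ N → ∀ (a a' k : ℤ) (g d₁ d₂ : ℕ), 1 ≤ g → 1 ≤ d₁ →
    1 ≤ d₂ → Nat.Coprime d₁ d₂ → a' - a = g * k → (g * d₁ * d₂ : ℝ) ≤ (N : ℝ) ^ 3 →
    ∀ J : ℕ, (g * d₁ * d₂ : ℝ) * Real.log N ≤ (J + 1) * N →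
    ‖((SS N a a' (g * d₁) (g * d₂) : ℝ) : ℂ) -
      ((N : ℝ) / (g * d₁ * d₂) : ℝ) * ∑ j ∈ Icc (-(J : ℤ)) J,
        ((Real.exp (-Real.pi * ((j : ℝ) * N / (g * d₁ * d₂)) ^ 2) : ℝ) : ℂ) *
          e ((j : ℝ) * a / (g * d₁ * d₂)) * kf (j * k) d₁ d₂‖ ≤ 1 / (N : ℝ) ^ 5 := by
  sorry

/-- M2 (Err.lean): one frequency -/
theorem err_gj (ε : ℝ) (hε : 0 < ε) : ∃ C : ℝ, 0 < C ∧ ∀ (N D g : ℕ), 3 ≤ N → 1 ≤ g → g ≤ D →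
    ∀ (a k j : ℤ), 0 ≤ a → a ≤ N → k ≠ 0 → |(g : ℝ) * k| ≤ N → j ≠ 0 →
    |(j : ℝ)| * (g * N) ≤ 4 * (D : ℝ) ^ 2 * Real.log N →
    ∀ c c' : ℕ → ℝ, (∀ d, |c d| ≤ 1) → (∀ d, |c' d| ≤ 1) →
    ‖∑ d₁ ∈ Ioc (D / g) (2 * (D / g) + 1),
      ∑ d₂ ∈ (Ioc (D / g) (2 * (D / g) + 1)).filter (fun d₂ => Nat.Coprime d₁ d₂),
        (c (g * d₁) : ℂ) * (c' (g * d₂) : ℂ) * ((N : ℝ) / (g * d₁ * d₂) : ℝ) *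
          ((Real.exp (-Real.pi * ((j : ℝ) * N / (g * d₁ * d₂)) ^ 2) : ℝ) : ℂ) *
          e ((j : ℝ) * a / (g * d₁ * d₂)) * kf (j * k) d₁ d₂‖ ≤
      C * Real.log N * (N / g) * ((D / g : ℕ) : ℝ) ^ (-(1 / 24) + ε : ℝ) := by
  sorry

/-- M3 (Big.lean): pairs of large moduli -/
theorem big_pairs (θ : ℝ) (hθ : θ < 24 / 47) : ∃ (η C : ℝ), 0 < η ∧ 0 < C ∧
    ∀ (N D : ℕ), 2 ≤ N → (D : ℝ) ≤ (N : ℝ) ^ θ →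
    ∀ (a a' : ℤ), 0 ≤ a → a ≤ N → 0 ≤ a' → a' ≤ N → a ≠ a' →
    ∀ c c' : ℕ → ℝ, (∀ d, |c d| ≤ 1) → (∀ d, |c' d| ≤ 1) →
    |∑ d ∈ Ioc D (2 * D), ∑ d' ∈ Ioc D (2 * D), c d * c' d' *
      (SS N a a' d d' - N * Fh (a' - a) (Nat.gcd d d') / (d * d'))| ≤ C * (N : ℝ) ^ (1 - η) := by
  sorry

/-- N1 (Small.lean): pairs of small moduli -/
theorem small_pairs : ∃ N₀ : ℕ, ∀ N : ℕ, N₀ ≤ N → ∀ (a a' : ℤ) (d d' : ℕ), 1 ≤ d → 1 ≤ d' →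
    (d * d' : ℝ) ≤ (N : ℝ) ^ (9 / 10 : ℝ) →
    |SS N a a' d d' - N * Fh (a' - a) (Nat.gcd d d') / (d * d')| ≤ 1 / (N : ℝ) ^ 5 := by
  sorry

/-- N2 (Hat.lean) -/
theorem uh_uu (c : ℕ → ℝ) (X Q q : ℕ) (hq : 1 ≤ q) (hQ : Q ≤ X) :
    uh (uu c X Q) X q = if q ≤ Q then 0 else uh c X q := by
  sorry

/-- N2 (Hat.lean) -/
theorem abs_uh_le (c : ℕ → ℝ) (D q : ℕ) (hc : Cof D c) (hq : 1 ≤ q) :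
    |uh c (2 * D) q| ≤ 2 / q := by
  sorry

/-- N2 (Hat.lean) -/
theorem abs_ww_le (c : ℕ → ℝ) (D Q d : ℕ) (hc : Cof D c) (hQ : 1 ≤ Q) :
    |ww c (2 * D) Q d| ≤ 2 * (1 + Real.log Q) := by
  sorry

/-- N2 (Hat.lean) -/
theorem ww_zero (c : ℕ → ℝ) (X Q d : ℕ) (hd : Q < d) : ww c X Q d = 0 := by
  sorry

/-- N2 (Hat.lean): the weights of the model are supported on the same coprimality class -/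
theorem ww_coprime (c : ℕ → ℝ) (X Q a d : ℕ) (hc : ∀ m, ¬ Nat.Coprime a m → c m = 0)
    (hd : ¬ Nat.Coprime a d) : ww c X Q d = 0 := by
  sorry

/-- N3 (Bil.lean): diagonalisation by Ramanujan sums -/
theorem bilinear (u u' : ℕ → ℝ) (X : ℕ) (h : ℤ) :
    ∑ d ∈ Icc 1 X, ∑ d' ∈ Icc 1 X, u d * u' d' * Fh h (Nat.gcd d d') / (d * d') =
      ∑ q ∈ Icc 1 X, ram q h * uh u X q * uh u' X q := by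
  sorry

/-- N4 (Main.lean): bound of the main term -/
theorem main_bound (D Q : ℕ) (hQ : 1 ≤ Q) (hQD : Q ≤ D) (c c' : ℕ → ℝ) (hc : Cof D c)
    (hc' : Cof D c') (h : ℤ) (hh : h ≠ 0) :
    |∑ d ∈ Icc 1 (2 * D), ∑ d' ∈ Icc 1 (2 * D),
      uu c (2 * D) Q d * uu c' (2 * D) Q d' * Fh h (Nat.gcd d d') / (d * d')| ≤
      8 * tau h.natAbs / Q := by
  sorry

/-- O (Corr.lean): correlations of different residues -/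
theorem corr (θ : ℝ) (hθ : θ < 24 / 47) : ∃ (η C : ℝ), 0 < η ∧ 0 < C ∧
    ∀ (N D : ℕ), 2 ≤ N → QN N ≤ D → (D : ℝ) ≤ (N : ℝ) ^ θ →
    ∀ (a a' : ℤ), 0 ≤ a → a ≤ N → 0 ≤ a' → a' ≤ N → a ≠ a' →
    ∀ c c' : ℕ → ℝ, Cof D c → Cof D c' →
    |∑' n : ℤ, Wt N n * (rr (uu c (2 * D) (QN N)) (2 * D) a n *
      rr (uu c' (2 * D) (QN N)) (2 * D) a' n)| ≤ C * (N : ℝ) ^ (1 - η) := by
  sorry

/-- S (Summ.lean): summability -/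
theorem summable_rr (N X : ℕ) (hN : 1 ≤ N) (u u' : ℕ → ℝ) (a a' : ℤ) :
    Summable (fun n : ℤ => Wt N n * (rr u X a n * rr u' X a' n)) := by
  sorry

/-- P (Diag.lean): the diagonal -/
theorem diag : ∃ C : ℝ, 0 < C ∧ ∀ (N X : ℕ), 3 ≤ N → ∀ (a : ℤ), 0 ≤ a → a ≤ N →
    ∀ (u : ℕ → ℝ) (K : ℝ), (∀ d, |u d| ≤ K) →
    ∑' n : ℤ, Wt N n * (rr u X a n * rr u X a n) ≤ C * K ^ 2 * (N * Real.log N ^ 3) := by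
  sorry

/-- BV (Bv.lean): Bombieri-Vinogradov, in the form needed -/
theorem bv (δ : ℝ) (hδ : δ < 1 / 2) (U : ℕ) : ∃ C : ℝ, 0 < C ∧ ∀ N : ℕ, 3 ≤ N → ∀ a : ℕ → ℕ,
    (∀ d, 1 ≤ d → Nat.Coprime (a d) d) →
    ∑ d ∈ Icc 1 ⌊(N : ℝ) ^ δ⌋₊, |Er N d (a d)| ≤ C * (N / Real.log N ^ U) := by
  sorry

/-- Q (Pri.lean): the prime side -/
theorem prime_side (U : ℕ) : ∃ C : ℝ, 0 < C ∧ ∀ (N D : ℕ), 3 ≤ N → QN N ≤ D →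
    (D : ℝ) ≤ (N : ℝ) ^ (3 / 4 : ℝ) → ∀ a : ℕ, 1 ≤ a → a ≤ N → ∀ c : ℕ → ℝ, Cof D c →
    (∀ d, ¬ Nat.Coprime a d → c d = 0) →
    |(∑ p ∈ (Icc 1 N).filter Nat.Prime, rr (uu c (2 * D) (QN N)) (2 * D) a p) -
      ∑ d ∈ Ioc D (2 * D), c d * Er N d a| ≤ C * (N / Real.log N ^ U) := by
  sorry

/-- R1 (Dual.lean): duality -/
theorem dual (N : ℕ) (hN : 1 ≤ N) (A : Finset ℕ) (r : ℕ → ℤ → ℝ)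
    (hs : ∀ a ∈ A, ∀ a' ∈ A, Summable (fun n : ℤ => Wt N n * (r a n * r a' n)))
    (G O : ℝ) (hG : ∀ a ∈ A, ∑' n : ℤ, Wt N n * (r a n * r a n) ≤ G) (hO0 : 0 ≤ O)
    (hO : ∀ a ∈ A, ∀ a' ∈ A, a ≠ a' → ∑' n : ℤ, Wt N n * (r a n * r a' n) ≤ O) :
    (∑ a ∈ A, ∑ p ∈ (Icc 1 N).filter Nat.Prime, r a p) ^ 2 ≤
      25 * N * ((A.card : ℝ) * G + (A.card : ℝ) ^ 2 * O) := by
  sorry

/-- R2 (Block.lean): one dyadic block -/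
theorem block (θ : ℝ) (hθ : θ < 24 / 47) (U : ℝ) : ∃ (C : ℝ), 0 < C ∧
    ∀ (N D : ℕ), 3 ≤ N → QN N ≤ D → (D : ℝ) ≤ (N : ℝ) ^ θ → ∀ T : Finset ℕ, T ⊆ Ioc D (2 * D) →
    (((Icc 1 N).filter (fun a : ℕ => (N : ℝ) / Real.log N ^ U <
      ∑ d ∈ T.filter (fun d => Nat.Coprime a d), |Er N d a|)).card : ℝ) ≤
      C * Real.log N ^ (2 * U + 5) := by
  sorry

/-- R3 (Fin.lean): the final theorem -/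
theorem final (θ : ℝ) (hθ : θ < 24 / 47) (U : ℝ) (hU : 0 < U) : ∃ (C : ℝ), 0 < C ∧
    ∀ (N : ℕ), 3 ≤ N →
    (((Icc 1 N).filter (fun a : ℕ => (N : ℝ) / Real.log N ^ U <
      ∑ d ∈ (Icc 1 ⌊(N : ℝ) ^ θ⌋₊).filter (fun d => Nat.Coprime a d), |Er N d a|)).card : ℝ) ≤
      C * Real.log N ^ (2 * U + 8) := by
  sorry

end Pool.Agent.H442R2.KF.Stubs
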