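import Pool.Agent.H442R2.KF.Defs2

/-!
Blueprint (statements only, `sorry`) of part 2 of the KF project.  Never import this file in a
hand-in.
-/

namespace Pool.Agent.H442R2.KF.Stubs2

open Finset
open Pool.Agent.H442R2.KF

/-- TE (Lip2.lean) -/
theorem Om2_norm (M : ℕ) (hM : 1 ≤ M) (V : ℝ) (ψ : ℕ → ℝ → ℂ) (hψ : ∀ j, Wei M V (ψ j)) (k : ℤ)
    (P : (ℕ × ℕ × ℤ) × (ℕ × ℕ)) (m₂ : ℕ) (hm₂ : m₂ ∈ Ioc M (2 * M + 1)) (s : ℝ) (hs : (M : ℝ) ≤ s)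
    (hn : (M : ℝ) ≤ nuR P.1 m₂ s) : ‖Om2 ψ k P m₂ s‖ ≤ 1 := by
  sorry

/-- TE (Lip2.lean) -/
theorem Om2_lip (M L J : ℕ) (hM : 1 ≤ M) (hL : 1 ≤ L) (V : ℝ) (hV : 1 ≤ V) (ψ : ℕ → ℝ → ℂ)
    (hψ : ∀ j, Wei M V (ψ j)) (k : ℤ) (hk : |(k : ℝ)| * J ≤ V * (M : ℝ) ^ 2)
    (P : (ℕ × ℕ × ℤ) × (ℕ × ℕ)) (hP : P ∈ Par2 L J)
    (m₂ : ℕ) (hm₂ : m₂ ∈ Ioc M (2 * M + 1)) (s s' : ℝ)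
    (hs : s ∈ Set.Icc (M : ℝ) (2 * M + 1)) (hs' : s' ∈ Set.Icc (M : ℝ) (2 * M + 1))
    (hn : nuR P.1 m₂ s ∈ Set.Icc (M : ℝ) (2 * M + 1))
    (hn' : nuR P.1 m₂ s' ∈ Set.Icc (M : ℝ) (2 * M + 1)) :
    ‖Om2 ψ k P m₂ s - Om2 ψ k P m₂ s'‖ ≤
      19 * V / M * (1 + (P.1.2.1 : ℝ) / |(P.1.2.2 : ℝ)|) * |s - s'| := by
  sorry

/-- TF1 (Phase2.lean) -/
theorem phase_pair2 (M L J : ℕ) (hM : 1 ≤ M) (hJL : J ≤ L) (ψ : ℕ → ℝ → ℂ) (k : ℤ)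
    (P P' : (ℕ × ℕ × ℤ) × (ℕ × ℕ)) (hP : P ∈ Par2 L J) (hP' : P' ∈ Par2 L J)
    (hG : G2 k P P' ≠ 0) (m₂ : ℕ) (hm₂ : m₂ ∈ Ioc M (2 * M + 1)) :
    ∃ (c : ℤ) (Φ : ℤ → ℂ), Int.gcd c (qp (G2 k P P') (P.1.1 * P'.1.1 * m₂)) = 1 ∧
      (∀ m, Φ (m + (P.1.2.2.natAbs * P'.1.2.2.natAbs *
        vp (G2 k P P') (P.1.1 * P'.1.1 * m₂) : ℕ)) = Φ m) ∧
      (∀ m, ‖Φ m‖ ≤ 1) ∧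
      ((Ico (0 : ℤ) (P.1.2.2.natAbs * P'.1.2.2.natAbs *
        vp (G2 k P P') (P.1.1 * P'.1.1 * m₂) : ℕ)).filter (fun r => Φ r ≠ 0)).card ≤
          vp (G2 k P P') (P.1.1 * P'.1.1 * m₂) * Nat.gcd P.1.2.2.natAbs P'.1.2.2.natAbs ∧
      ∀ m₁ ∈ Ioc M (2 * M + 1),
        (M : ℝ) < nuR P.1 m₂ m₁ → nuR P.1 m₂ m₁ ≤ 2 * M + 1 →
        (M : ℝ) < nuR P'.1 m₂ m₁ → nuR P'.1 m₂ m₁ ≤ 2 * M + 1 →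
        tm2 ψ k M P m₁ m₂ * (starRingEnd ℂ) (tm2 ψ k M P' m₁ m₂) =
          (Om2 ψ k P m₂ m₁ * (starRingEnd ℂ) (Om2 ψ k P' m₂ m₁)) * Φ m₁ *
            (if Int.gcd m₁ (qp (G2 k P P') (P.1.1 * P'.1.1 * m₂)) = 1 then
              kf c m₁ (qp (G2 k P P') (P.1.1 * P'.1.1 * m₂)) else 0) := by
  sorry

/-- TF (Fix2.lean) -/
theorem fixed2 (M L J : ℕ) (hM : 1 ≤ M) (hLM : L ≤ M) (hJL : J ≤ L) (V : ℝ) (hV : 1 ≤ V)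
    (ψ : ℕ → ℝ → ℂ) (hψ : ∀ j, Wei M V (ψ j)) (k : ℤ) (hk : |(k : ℝ)| * J ≤ V * (M : ℝ) ^ 2)
    (P P' : (ℕ × ℕ × ℤ) × (ℕ × ℕ)) (hP : P ∈ Par2 L J) (hP' : P' ∈ Par2 L J)
    (hG : G2 k P P' ≠ 0) (m₂ : ℕ) (hm₂ : m₂ ∈ Ioc M (2 * M + 1)) :
    ‖∑ m₁ ∈ Ioc M (2 * M + 1), tm2 ψ k M P m₁ m₂ * (starRingEnd ℂ) (tm2 ψ k M P' m₁ m₂)‖ ≤
      10000 * V * L * Nat.gcd P.1.2.2.natAbs P'.1.2.2.natAbs *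
        Real.sqrt (vp (G2 k P P') (P.1.1 * P'.1.1 * m₂)) * Real.sqrt M * tau m₂ *
          (1 + Real.log M) := by
  sorry

/-- TG (SumV2.lean), two distinct primes -/
theorem sum_vp2 (X G l l' : ℕ) (hX : 1 ≤ X) (hG : 0 < G) (hl : l.Prime) (hl' : l'.Prime)
    (hne : l ≠ l') :
    ∑ m ∈ Icc 1 X, Real.sqrt (vp G (l * l' * m)) ≤
      27 * X * (1 + Real.log (l * l' * X)) * tau G * Real.sqrt (Nat.gcd G (l * l')) := by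
  sorry

/-- TG (SumV2.lean), the same prime -/
theorem sum_vp3 (X G l : ℕ) (hX : 1 ≤ X) (hG : 0 < G) (hl : l.Prime) :
    ∑ m ∈ Icc 1 X, Real.sqrt (vp G (l * l * m)) ≤
      27 * X * (1 + Real.log (l * l * X)) * tau G * l := by
  sorry

/-- TH1 (Bz2.lean) -/
theorem jl_ne_zero (L J : ℕ) (hJL : J ≤ L) (P : (ℕ × ℕ × ℤ) × (ℕ × ℕ)) (hP : P ∈ Par2 L J) :
    jl P ≠ 0 := by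
  sorry

/-- TH1 (Bz2.lean) -/
theorem Bq2_zero_count (L J : ℕ) (hJL : J ≤ L) (P : (ℕ × ℕ × ℤ) × (ℕ × ℕ))
    (hP : P ∈ Par2 L J) :
    (((Par2 L J).filter (fun P' => Bq2 P P' = 0)).card : ℝ) ≤
      4 * tau (jl P * P.1.2.2).natAbs := by
  sorry

/-- TH2 (Gw.lean) -/
theorem gw (ε : ℝ) (hε : 0 < ε) : ∃ C : ℝ, 0 < C ∧ ∀ (M L J : ℕ), 1 ≤ M → 1 ≤ L → L ≤ M →
    1 ≤ J → J ≤ L → ∀ V : ℝ, 1 ≤ V → ∀ k : ℤ, k ≠ 0 → |(k : ℝ)| * J ≤ V * (M : ℝ) ^ 2 →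
    ∑ P ∈ Par2 L J, ∑ P' ∈ Par2 L J, (if G2 k P P' = 0 then 0 else
      (Nat.gcd P.1.2.2.natAbs P'.1.2.2.natAbs : ℝ) * wP k P P') ≤
      C * (V * M) ^ ε * ((J : ℝ) ^ 4 * (L : ℝ) ^ 6) := by
  sorry

/-- TI (HS2.lean) -/
theorem HS2 (ε : ℝ) (hε : 0 < ε) : ∃ C : ℝ, 0 < C ∧ ∀ (M L J : ℕ), 1 ≤ M → 1 ≤ L → L ≤ M →
    1 ≤ J → J ≤ L → ∀ V : ℝ, 1 ≤ V → ∀ ψ : ℕ → ℝ → ℂ, (∀ j, Wei M V (ψ j)) →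
    ∀ k : ℤ, k ≠ 0 → |(k : ℝ)| * J ≤ V * (M : ℝ) ^ 2 →
    ∑ m₁ ∈ Ioc M (2 * M + 1), ∑ m₂ ∈ Ioc M (2 * M + 1), ‖Ker2 ψ k M L J m₁ m₂‖ ^ 2 ≤
      C * (M : ℝ) ^ ε * (((PL L).card : ℝ) ^ 2 * (J : ℝ) ^ 2 * (M : ℝ) ^ 2 +
        V ^ 2 * (L : ℝ) ^ 7 * (J : ℝ) ^ 4 * (M : ℝ) ^ (3 / 2 : ℝ)) := by
  sorry

/-- TD (Dg.lean) -/
theorem DG_n (M J n : ℕ) (hM : 1 ≤ M) (hn : n ∈ Ioc M (2 * M + 1)) (V : ℝ) (hV : 1 ≤ V)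
    (ψ : ℕ → ℝ → ℂ) (hψ : ∀ j, Wei M V (ψ j)) (k : ℤ) :
    ∑ m ∈ (Ioc M (2 * M + 1)).filter (fun m => Nat.Coprime m n), ‖FF ψ k J n m‖ ^ 2 ≤
      16 * V ^ 2 * ((n : ℝ) * J + (J : ℝ) ^ 2 * Int.gcd k n) := by
  sorry

/-- TD (Dg.lean) -/
theorem DG_le (ε : ℝ) (hε : 0 < ε) : ∃ C : ℝ, 0 < C ∧ ∀ (M J : ℕ), 1 ≤ M → 1 ≤ J → J ≤ M →
    ∀ V : ℝ, 1 ≤ V → ∀ ψ : ℕ → ℝ → ℂ, (∀ j, Wei M V (ψ j)) →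
    ∀ k : ℤ, k ≠ 0 → |(k : ℝ)| * J ≤ V * (M : ℝ) ^ 2 →
    DG ψ k M J ≤ C * V ^ 3 * (M : ℝ) ^ (2 + ε) * J := by
  sorry

/-- TJ (Amp2.lean) -/
theorem ampl2 (M L J κ : ℕ) (hM : 1 ≤ M) (hL : 1 ≤ L) (hκ : 2 * M + 1 < (L + 1) ^ κ) (V : ℝ)
    (ψ : ℕ → ℝ → ℂ) (hψ : ∀ j, Wei M V (ψ j)) (k : ℤ) (α : ℕ → ℂ) (hα : ∀ m, ‖α m‖ ≤ 1) :
    ((PL L).card : ℝ) ^ 2 * ∑ n ∈ Ioc M (2 * M + 1),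
        ‖∑ m ∈ (Ioc M (2 * M + 1)).filter (fun m => Nat.Coprime m n), α m * FF ψ k J n m‖ ^ 2 ≤
      2 * (2 * M + 1) * ((PL L).card * DG ψ k M J + (M + 1) *
        Real.sqrt (∑ m₁ ∈ Ioc M (2 * M + 1), ∑ m₂ ∈ Ioc M (2 * M + 1),
          ‖Ker2 ψ k M L J m₁ m₂‖ ^ 2)) + 8 * (κ : ℝ) ^ 2 * ((M : ℝ) + 1) * DG ψ k M J := by
  sorry

/-- TK (Tri.lean): trilinear forms with Kloosterman fractions -/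
theorem tri (δ : ℝ) (hδ : 0 < δ) : ∃ (η C : ℝ), 0 < η ∧ 0 < C ∧ ∀ (M J : ℕ), 1 ≤ M → 1 ≤ J →
    (J : ℝ) ≤ (M : ℝ) ^ (1 / 14 - δ) →
    ∀ V : ℝ, 1 ≤ V → ∀ ψ : ℕ → ℝ → ℂ, (∀ j, Wei M V (ψ j)) →
    ∀ k : ℤ, k ≠ 0 → |(k : ℝ)| * J ≤ V * (M : ℝ) ^ 2 →
    ∀ α β : ℕ → ℂ, (∀ m, ‖α m‖ ≤ 1) → (∀ n, ‖β n‖ ≤ 1) →
    ‖∑ m ∈ Ioc M (2 * M + 1), ∑ n ∈ (Ioc M (2 * M + 1)).filter (fun n => Nat.Coprime m n),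
      α m * β n * FF ψ k J n m‖ ≤ C * V ^ 2 * (M : ℝ) ^ (2 - η) := by
  sorry

/-- TM2 (Err2.lean): all frequencies for one `g`, sign `σ = ±1` -/
theorem err2 (θ : ℝ) (hθ : θ < 14 / 27) : ∃ (η C : ℝ), 0 < η ∧ 0 < C ∧ ∀ (N D g : ℕ), 3 ≤ N →
    (D : ℝ) ≤ (N : ℝ) ^ θ → 1 ≤ g → g ≤ D →
    ∀ (a k σ : ℤ), (σ = 1 ∨ σ = -1) → 0 ≤ a → a ≤ N → k ≠ 0 → |(g : ℝ) * k| ≤ N →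
    ∀ c c' : ℕ → ℝ, (∀ d, |c d| ≤ 1) → (∀ d, |c' d| ≤ 1) →
    ‖∑ j ∈ Icc 1 ⌊4 * (D : ℝ) ^ 2 * Real.log N / (g * N)⌋₊,
      ∑ d₁ ∈ Ioc (D / g) (2 * (D / g) + 1),
      ∑ d₂ ∈ (Ioc (D / g) (2 * (D / g) + 1)).filter (fun d₂ => Nat.Coprime d₁ d₂),
        (c (g * d₁) : ℂ) * (c' (g * d₂) : ℂ) * ((N : ℝ) / (g * d₁ * d₂) : ℝ) *
          ((Real.exp (-Real.pi * ((j : ℝ) * N / (g * d₁ * d₂)) ^ 2) : ℝ) : ℂ) *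
          e ((σ : ℝ) * j * a / (g * d₁ * d₂)) * kf (σ * j * k) d₁ d₂‖ ≤
      C * (N : ℝ) ^ (1 - η) / g := by
  sorry

/-- TM3 (Big2.lean): pairs of large moduli, level `14/27` -/
theorem big_pairs2 (θ : ℝ) (hθ : θ < 14 / 27) : ∃ (η C : ℝ), 0 < η ∧ 0 < C ∧
    ∀ (N D : ℕ), 2 ≤ N → (D : ℝ) ≤ (N : ℝ) ^ θ →
    ∀ (a a' : ℤ), 0 ≤ a → a ≤ N → 0 ≤ a' → a' ≤ N → a ≠ a' →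
    ∀ c c' : ℕ → ℝ, (∀ d, |c d| ≤ 1) → (∀ d, |c' d| ≤ 1) →
    |∑ d ∈ Ioc D (2 * D), ∑ d' ∈ Ioc D (2 * D), c d * c' d' *
      (SS N a a' d d' - N * Fh (a' - a) (Nat.gcd d d') / (d * d'))| ≤ C * (N : ℝ) ^ (1 - η) := by
  sorry

end Pool.Agent.H442R2.KF.Stubs2
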