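import Pool.Agent.H442R2.KF.Defs2
import Pool.Agent.H300R2.WEH.Up

/-!
Blueprint (statements only, `sorry`) of part 3 of the KF project (primes up to `y ≤ N`, weights,
maximum over `y`; for MP_188a10_nt).  Never import this file in a hand-in.
-/

namespace Pool.Agent.H442R2.KF.Stubs3

open Finset
open Pool.Agent.H442R2.KF

/-- UA (BvY.lean) -/
theorem bvY (δ : ℝ) (hδ : δ < 1 / 2) (U : ℕ) : ∃ C : ℝ, 0 < C ∧ ∀ N : ℕ, 3 ≤ N → ∀ y : ℕ, y ≤ N →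
    ∀ a : ℕ → ℕ, (∀ d, 1 ≤ d → Nat.Coprime (a d) d) →
    ∑ d ∈ Icc 1 ⌊(N : ℝ) ^ δ⌋₊, |Er y d (a d)| ≤ C * (N / Real.log N ^ U) := by
  sorry

/-- UB (PriY.lean) -/
theorem prime_sideY (U : ℕ) : ∃ C : ℝ, 0 < C ∧ ∀ (N D : ℕ), 3 ≤ N → QN N ≤ D →
    (D : ℝ) ≤ (N : ℝ) ^ (3 / 4 : ℝ) → ∀ y : ℕ, y ≤ N → ∀ a : ℕ, 1 ≤ a → a ≤ N →
    ∀ c : ℕ → ℝ, Cof D c → (∀ d, ¬ Nat.Coprime a d → c d = 0) →
    |(∑ p ∈ (Icc 1 y).filter Nat.Prime, rr (uu c (2 * D) (QN N)) (2 * D) a p) -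
      ∑ d ∈ Ioc D (2 * D), c d * Er y d a| ≤ C * (N / Real.log N ^ U) := by
  sorry

/-- UC (DualY.lean) -/
theorem dualY (N y : ℕ) (hN : 1 ≤ N) (hy : y ≤ N) (A : Finset ℕ) (r : ℕ → ℤ → ℝ)
    (hs : ∀ a ∈ A, ∀ a' ∈ A, Summable (fun n : ℤ => Wt N n * (r a n * r a' n)))
    (G O : ℝ) (hG : ∀ a ∈ A, ∑' n : ℤ, Wt N n * (r a n * r a n) ≤ G) (hO0 : 0 ≤ O)
    (hO : ∀ a ∈ A, ∀ a' ∈ A, a ≠ a' → ∑' n : ℤ, Wt N n * (r a n * r a' n) ≤ O) :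
    (∑ a ∈ A, ∑ p ∈ (Icc 1 y).filter Nat.Prime, r a p) ^ 2 ≤
      25 * N * ((A.card : ℝ) * G + (A.card : ℝ) ^ 2 * O) := by
  sorry

/-- UD (BlockY.lean) -/
theorem blockY (θ : ℝ) (hθ : θ < 14 / 27) (U : ℝ) : ∃ (C : ℝ), 0 < C ∧
    ∀ (N D : ℕ), 3 ≤ N → QN N ≤ D → (D : ℝ) ≤ (N : ℝ) ^ θ → ∀ y : ℕ, y ≤ N →
    ∀ T : Finset ℕ, T ⊆ Ioc D (2 * D) →
    (((Icc 1 N).filter (fun a : ℕ => (N : ℝ) / Real.log N ^ U <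
      ∑ d ∈ T.filter (fun d => Nat.Coprime a d), |Er y d a|)).card : ℝ) ≤
      C * Real.log N ^ (2 * U + 5) := by
  sorry

/-- UE (FinY.lean) -/
theorem finalY (θ : ℝ) (hθ : θ < 14 / 27) (U : ℝ) (hU : 0 < U) : ∃ (C : ℝ), 0 < C ∧
    ∀ (N : ℕ), 3 ≤ N → ∀ y : ℕ, y ≤ N →
    (((Icc 1 N).filter (fun a : ℕ => (N : ℝ) / Real.log N ^ U <
      ∑ d ∈ (Icc 1 ⌊(N : ℝ) ^ θ⌋₊).filter (fun d => Nat.Coprime a d), |Er y d a|)).card : ℝ) ≤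
      C * Real.log N ^ (2 * U + 8) := by
  sorry

/-- UF (Weighted.lean) -/
theorem weighted (κ : ℝ) (hκ : 1 ≤ κ) (θ : ℝ) (hθ : θ < 14 / 27) (U : ℕ) :
    ∃ (B : ℕ) (C : ℝ), 0 < C ∧ ∀ N : ℕ, 3 ≤ N →
    (((Icc 1 N).filter (fun a : ℕ => (N : ℝ) / Real.log N ^ U <
      ∑ d ∈ (Icc 1 ⌊(N : ℝ) ^ θ⌋₊).filter (fun d => Nat.Coprime a d),
        κ ^ d.primeFactors.card * Pool.Agent.H300R2.WEH.errMax N d a)).card : ℝ) ≤ C * Real.log N ^ B := by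
  sorry

end Pool.Agent.H442R2.KF.Stubs3
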